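import Pool.Agent.R597.GBF
import Pool.Agent.W868.Ext
import Pool.Agent.W868.NDfn

/-!
# A countable transitive model with an initial segment that is a model

There is a level `W` of the cumulative hierarchy that is an elementary substructure of the
universe. In the collapse `N` of a countable elementary substructure of the universe, the set
`W` is replaced by a transitive model `M` of ZFC that contains all the subsets in `N` of its
elements.
-/

set_option autoImplicit false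
set_option linter.unreachableTactic false
set_option linter.unusedTactic false
set_option linter.unusedSectionVars false
set_option linter.unusedVariables false

namespace Pool.Agent.R597

open Pool.Agent.W868 Pool.Agent.W868.GM Pool.Agent.Y588
open ZFSet (pair)

/-! ### Reflection -/

theorem exists_bound (α : Ordinal.{0}) : ∃ β : Ordinal.{0}, ∀ {n : ℕ}
    (φ : Fml ZFSet.{0} (n + 1)) (v : Fin n → ZFSet.{0}), φ.Over {x | x.rank < α} →
    (∀ i, (v i).rank < α) → (∃ a, Sat Set.univ id φ (Fin.cons a v)) →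
    ∃ a : ZFSet.{0}, a.rank < β ∧ Sat Set.univ id φ (Fin.cons a v) := by
  classical
  set X : ZFSet.{0} := ZFSet.vonNeumann α with hX
  have hmX : ∀ x, x ∈ X ↔ x.rank < α := fun x => ZFSet.mem_vonNeumann
  let A : Type := Option (Shrink.{0} {x : ZFSet.{0} // x ∈ X})
  let i : A → ZFSet.{0} := fun a => match a with
    | none => ∅
    | some a => ((equivShrink _).symm a).1
  let f : ZFSet.{0} → A := fun x => if h : x ∈ X then some (equivShrink _ ⟨x, h⟩) else none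
  have hif : ∀ x ∈ {x : ZFSet.{0} | x.rank < α}, i (f x) = x := by
    intro x hx
    have h1 : x ∈ X := (hmX x).2 hx
    simp only [f, i, h1, dif_pos]
    simp
  let I : Type := Σ n : ℕ, Fml A (n + 1) × (Fin n → A)
  let g : I → Ordinal.{0} := fun t =>
    if h : ∃ a, Sat Set.univ i t.2.1 (Fin.cons a (i ∘ t.2.2)) then Order.succ (h.choose).rank
    else 0
  refine ⟨⨆ t, g t, fun {n} φ v hφ hv h => ?_⟩
  have h1 : ∀ w, Sat Set.univ i (φ.map f) w ↔ Sat Set.univ id φ w := fun w => by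
    rw [sat_map]
    exact sat_congr _ hif φ hφ w
  have h2 : i ∘ (f ∘ v) = v := funext fun k => hif _ (hv k)
  have h3 : ∃ a, Sat Set.univ i (φ.map f) (Fin.cons a (i ∘ (f ∘ v))) := by
    obtain ⟨a, ha⟩ := h
    exact ⟨a, by rw [h2, h1]; exact ha⟩
  refine ⟨h3.choose, ?_, ?_⟩
  · have h4 : g ⟨n, φ.map f, f ∘ v⟩ = Order.succ (h3.choose).rank := by
      simp only [g]
      rw [dif_pos h3]
    refine lt_of_lt_of_le (Order.lt_succ _) ?_
    rw [← h4]
    exact Ordinal.le_iSup g _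
  · have key : ∀ c w, w = v → Sat Set.univ i (φ.map f) (Fin.cons c w) →
        Sat Set.univ id φ (Fin.cons c v) := by
      rintro c w rfl h
      exact (h1 _).1 h
    exact key _ _ h2 h3.choose_spec

/-- A level of the cumulative hierarchy that is an elementary substructure of the universe. -/
structure IsRefl (W : ZFSet.{0}) : Prop where
  omega : ZFSet.omega ∈ W
  trans : ∀ x ∈ W, ∀ y ∈ x, y ∈ W
  sub : ∀ x ∈ W, ∀ y, y ⊆ x → y ∈ W
  pow : ∀ x ∈ W, ZFSet.powerset x ∈ W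
  wit : ∀ {n : ℕ} (φ : Fml ZFSet.{0} (n + 1)) (v : Fin n → ZFSet.{0}), φ.Over {x | x ∈ W} →
    (∀ i, v i ∈ W) → (∃ a, Sat Set.univ id φ (Fin.cons a v)) →
    ∃ a ∈ W, Sat Set.univ id φ (Fin.cons a v)

theorem exists_refl : ∃ W : ZFSet.{0}, IsRefl W := by
  choose b hb using exists_bound
  let α : ℕ → Ordinal.{0} := fun n =>
    Nat.rec (Order.succ (ZFSet.rank ZFSet.omega)) (fun _ a => max (Order.succ a) (b a)) n
  have hα : ∀ n, α (n + 1) = max (Order.succ (α n)) (b (α n)) := fun n => rfl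
  have hmono : Monotone α := monotone_nat_of_le_succ fun n => by
    rw [hα]
    exact (Order.le_succ _).trans (le_max_left _ _)
  have hmem : ∀ x : ZFSet.{0}, x ∈ ZFSet.vonNeumann (⨆ n, α n) ↔ ∃ n, x.rank < α n := fun x => by
    rw [ZFSet.mem_vonNeumann, Ordinal.lt_iSup_iff]
  refine ⟨ZFSet.vonNeumann (⨆ n, α n), (hmem _).2 ⟨0, Order.lt_succ _⟩, fun x hx y hy => ?_,
    fun x hx y hy => ?_, fun x hx => ?_, fun {n} φ v hφ hv h => ?_⟩
  · obtain ⟨n, hn⟩ := (hmem _).1 hx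
    exact (hmem _).2 ⟨n, (ZFSet.rank_lt_of_mem hy).trans hn⟩
  · obtain ⟨n, hn⟩ := (hmem _).1 hx
    exact (hmem _).2 ⟨n, (ZFSet.rank_mono hy).trans_lt hn⟩
  · obtain ⟨n, hn⟩ := (hmem _).1 hx
    refine (hmem _).2 ⟨n + 1, ?_⟩
    rw [ZFSet.rank_powerset, hα]
    exact (Order.succ_lt_succ hn).trans_le (le_max_left _ _)
  · have h1 : {x | x ∈ ZFSet.vonNeumann (⨆ n, α n)} = ⋃ n, {x : ZFSet.{0} | x.rank < α n} := by
      ext x
      simp only [Set.mem_iUnion]
      exact hmem x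
    rw [h1] at hφ
    have hmono' : Monotone fun n => {x : ZFSet.{0} | x.rank < α n} :=
      fun m n hmn x hx => lt_of_lt_of_le hx (hmono hmn)
    obtain ⟨k, hk⟩ := over_iUnion hmono' φ hφ
    have h2 : ∃ l, ∀ i, (v i).rank < α l := by
      choose m hm using fun i => (hmem _).1 (hv i)
      refine ⟨Finset.univ.sup m, fun i => (hm i).trans_le (hmono ?_)⟩
      exact Finset.le_sup (f := m) (Finset.mem_univ i)
    obtain ⟨l, hl⟩ := h2
    obtain ⟨a, ha, h3⟩ := hb (α (max k l)) φ v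
      (Fml.Over.mono (fun x hx => lt_of_lt_of_le hx (hmono (le_max_left _ _))) hk)
      (fun i => (hl i).trans_le (hmono (le_max_right _ _))) h
    refine ⟨a, (hmem _).2 ⟨max k l + 1, ha.trans_le ?_⟩, h3⟩
    rw [hα]
    exact le_max_right _ _

namespace IsRefl

variable {W : ZFSet.{0}} (hW : IsRefl W)

include hW

theorem sat_iff : {n : ℕ} → (φ : Fml ZFSet.{0} n) → φ.Over {x | x ∈ W} →
    (v : Fin n → ZFSet.{0}) → (∀ i, v i ∈ W) → (Sat {x | x ∈ W} id φ v ↔ Sat Set.univ id φ v)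
  | _, .mem _ _, _, _, _ => Iff.rfl
  | _, .eq _ _, _, _, _ => Iff.rfl
  | _, .neg φ, hφ, v, hv => not_congr (sat_iff φ hφ v hv)
  | _, .and φ ψ, hφ, v, hv => and_congr (sat_iff φ hφ.1 v hv) (sat_iff ψ hφ.2 v hv)
  | n, .ex φ, hφ, v, hv => by
    simp only [Sat]
    constructor
    · rintro ⟨a, ha, h⟩
      exact ⟨a, trivial, (sat_iff φ hφ _ (Pool.Agent.W868.Pkg.cons_mem ha hv)).1 h⟩
    · rintro ⟨a, -, h⟩
      obtain ⟨b, hb, h1⟩ := hW.wit φ v hφ hv ⟨a, h⟩
      exact ⟨b, hb, (sat_iff φ hφ _ (Pool.Agent.W868.Pkg.cons_mem hb hv)).2 h1⟩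

theorem exists_W {Q : ZFSet.{0} → Prop}
    (h : Dfn {x | x ∈ W} Set.univ fun w : Fin 1 → ZFSet.{0} => Q (w 0)) (h' : ∃ a, Q a) :
    ∃ a ∈ W, Q a := by
  obtain ⟨φ, h1, h2⟩ := h
  obtain ⟨a, ha⟩ := h'
  obtain ⟨b, hb, h3⟩ := hW.wit (n := 0) φ Fin.elim0 h1 (fun i => i.elim0)
    ⟨a, (h2 _ fun _ => trivial).2 ha⟩
  exact ⟨b, hb, (h2 _ fun _ => trivial).1 h3⟩

/-- Collection. -/
theorem coll {φ : Fml ZFSet.{0} 2} (hφ : φ.Over {x | x ∈ W}) {x : ZFSet.{0}} (hx : x ∈ W)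
    (h : ∀ z ∈ x, ∃ w ∈ W, Sat {x | x ∈ W} id φ ![z, w]) :
    ∃ y ∈ W, ∀ z ∈ x, ∃ w ∈ y, Sat {x | x ∈ W} id φ ![z, w] := by
  have hB := isBase_univ
  have h0 : ∀ {z w : ZFSet.{0}}, z ∈ W → w ∈ W → (Sat {x | x ∈ W} id φ ![z, w] ↔
      Sat Set.univ id φ ![z, w]) := fun hz hw => hW.sat_iff φ hφ _ fun i => by
    refine Fin.cases ?_ (fun i => ?_) i
    · exact hz
    · rw [Fin.eq_zero i]
      exact hw
  have hd : Dfn {x | x ∈ W} Set.univ fun v : Fin 1 → ZFSet.{0} => ∀ z ∈ x, ∃ w ∈ v 0,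
      Sat Set.univ id φ ![z, w] := by
    apply hB.ball (DfnF.const' trivial hx)
    apply hB.bex (DfnF.proj 1)
    refine Dfn.comp2 (Q := fun a b => Sat Set.univ id φ ![a, b]) ⟨φ, hφ, fun v _ => ?_⟩
      (DfnF.proj 1) (DfnF.proj 0)
    have h6 : v = ![v 0, v 1] := by
      funext i
      fin_cases i <;> rfl
    rw [h6]
    rfl
  have h1 : ∃ y : ZFSet.{0}, ∀ z ∈ x, ∃ w ∈ y, Sat Set.univ id φ ![z, w] := by
    choose! f hf using h
    refine ⟨ZFSet.range fun z : {z // z ∈ x} => f z.1, fun z hz => ⟨f z,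
      ZFSet.mem_range.2 ⟨⟨z, hz⟩, rfl⟩, (h0 (hW.trans _ hx _ hz) (hf z hz).1).1 (hf z hz).2⟩⟩
  obtain ⟨y, hy, h2⟩ := hW.exists_W (Q := fun y => ∀ z ∈ x, ∃ w ∈ y,
    Sat Set.univ id φ ![z, w]) hd h1
  refine ⟨y, hy, fun z hz => ?_⟩
  obtain ⟨w, hw, h3⟩ := h2 z hz
  exact ⟨w, hw, (h0 (hW.trans _ hx _ hz) (hW.trans _ hy _ hw)).2 h3⟩

end IsRefl

end Pool.Agent.R597
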