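import Pool.Agent.R597.Am1

/-!
# A countable transitive model with an initial segment that is a model: the collapse
-/

set_option autoImplicit false
set_option linter.unreachableTactic false
set_option linter.unusedTactic false
set_option linter.unusedSectionVars false
set_option linter.unusedVariables false

namespace Pool.Agent.R597

open Pool.Agent.W868 Pool.Agent.W868.GM Pool.Agent.Y588
open ZFSet (pair)

section

variable {W : ZFSet.{0}} (hW : IsRefl W) (π : Pkg Unit) (hWZ : W ∈ π.Z)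

include hW hWZ

theorem mem_hatW {z : ZFSet.{0}} : z ∈ π.hat W ↔ ∃ a ∈ W, a ∈ π.Z ∧ π.hat a = z := π.mem_hat

theorem hatW_sub : ∀ z ∈ π.hat W, z ∈ π.V := by
  intro z hz
  obtain ⟨a, -, ha, rfl⟩ := π.mem_hat.1 hz
  exact π.of_hat_mem_V ha

theorem hatW_super {x y : ZFSet.{0}} (hx : x ∈ π.hat W) (hy : y ∈ π.V) (h : y ⊆ x) :
    y ∈ π.hat W := by
  obtain ⟨a, haW, ha, rfl⟩ := π.mem_hat.1 hx
  obtain ⟨b, hb, rfl⟩ := hy
  exact π.mem_hat.2 ⟨b, hW.sub a haW b (π.subset_of_hat ha hb h), hb, rfl⟩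

theorem sat_hatW {n : ℕ} {ψ : Fml ZFSet.{0} n} (hψ : ψ.Over π.Z) {v : Fin n → ZFSet.{0}}
    (hv : ∀ i, v i ∈ π.Z) :
    Sat {x | x ∈ π.hat W} π.hat ψ (π.hat ∘ v) ↔ Sat {x | x ∈ W} id ψ v := by
  have h1 : ∀ x ∈ π.hat W, x ∈ π.V := hatW_sub hW π hWZ
  rw [← sat_rel (K := π.V) (i := π.hat) (a := W) h1, π.sat_V (rel W ψ) (rel_over hWZ ψ hψ) v hv,
    sat_rel (K := Set.univ) (i := id) (a := W) fun _ _ => trivial]
  exact Iff.rfl

theorem fml_hatW {n : ℕ} (φ : Fml ZFSet.{0} n) (hφ : φ.Over {x | x ∈ π.hat W}) :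
    ∃ ψ : Fml ZFSet.{0} n, ψ.Over π.Z ∧ ψ.Over {x | x ∈ W} ∧
      ∀ v, Sat {x | x ∈ π.hat W} π.hat ψ v ↔ Sat {x | x ∈ π.hat W} id φ v := by
  have h : ∀ a : ZFSet.{0}, ∃ x : ZFSet.{0}, a ∈ π.hat W → x ∈ W ∧ x ∈ π.Z ∧ π.hat x = a := by
    intro a
    by_cases ha : a ∈ π.hat W
    · obtain ⟨x, hx, hxa⟩ := π.mem_hat.1 ha
      exact ⟨x, fun _ => ⟨hx, hxa⟩⟩
    · exact ⟨∅, fun h => absurd h ha⟩
  choose f hf using h
  refine ⟨φ.map f, (over_map f φ).2 (Fml.Over.mono (fun a ha => (hf a ha).2.1) hφ),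
    (over_map f φ).2 (Fml.Over.mono (fun a ha => (hf a ha).1) hφ), fun v => ?_⟩
  rw [sat_map]
  exact sat_congr _ (fun a ha => (hf a ha).2.2) φ hφ v

theorem isZF_hatW : IsZF {x | x ∈ π.hat W} where
  trans x hx y hy := by
    obtain ⟨a, haW, ha, rfl⟩ := π.mem_hat.1 hx
    obtain ⟨b, hba, hb, rfl⟩ := π.mem_hat.1 hy
    exact π.mem_hat.2 ⟨b, hW.trans a haW b hba, hb, rfl⟩
  pairing x hx y hy := by
    obtain ⟨a, haW, ha, rfl⟩ := π.mem_hat.1 hx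
    obtain ⟨b, hbW, hb, rfl⟩ := π.mem_hat.1 hy
    have h1 : ({a, b} : ZFSet.{0}) ∈ W := by
      have h2 : ∃ z ∈ W, z = ({a, b} : ZFSet.{0}) := by
        refine hW.exists_W (Q := fun z => z = ({a, b} : ZFSet.{0})) ?_ ⟨_, rfl⟩
        exact Dfn.eq (DfnF.proj 0) (isBase_univ.upair' (DfnF.const' trivial haW)
          (DfnF.const' trivial hbW))
      obtain ⟨z, hz, rfl⟩ := h2
      exact hz
    rw [← π.hat_pairset ha hb]
    exact π.mem_hat.2 ⟨_, h1, π.pair_Z ha hb, rfl⟩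
  union x hx := by
    obtain ⟨a, haW, ha, rfl⟩ := π.mem_hat.1 hx
    have h1 : ZFSet.sUnion a ∈ W := by
      have h2 : ∃ z ∈ W, z = ZFSet.sUnion a := by
        refine hW.exists_W (Q := fun z => z = ZFSet.sUnion a) ?_ ⟨_, rfl⟩
        exact Dfn.eq (DfnF.proj 0) (isBase_univ.sUnion' (DfnF.const' trivial haW))
      obtain ⟨z, hz, rfl⟩ := h2
      exact hz
    refine hatW_super hW π hWZ (π.mem_hat.2 ⟨_, h1, π.union_Z ha, rfl⟩)
      (π.isZF_V.union _ (π.of_hat_mem_V ha)) fun z hz => ?_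
    obtain ⟨u, hu, hzu⟩ := ZFSet.mem_sUnion.1 hz
    obtain ⟨u, hua, hu, rfl⟩ := π.mem_hat.1 hu
    obtain ⟨z, hzu', hz', rfl⟩ := π.mem_hat.1 hzu
    exact π.mem_hat.2 ⟨z, ZFSet.mem_sUnion.2 ⟨u, hua, hzu'⟩, hz', rfl⟩
  infinity := π.mem_hat.2 ⟨_, hW.omega, π.omega_Z, π.hat_omega⟩
  power x hx := by
    obtain ⟨a, haW, ha, rfl⟩ := π.mem_hat.1 hx
    refine ⟨π.hat (ZFSet.powerset a), π.mem_hat.2 ⟨_, hW.pow a haW, π.pow_Z ha, rfl⟩,
      fun z => ?_⟩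
    rw [π.mem_hat]
    constructor
    · rintro ⟨y, hy, hyZ, rfl⟩
      have h1 := ZFSet.mem_powerset.1 hy
      refine ⟨π.mem_hat.2 ⟨y, hW.sub a haW y h1, hyZ, rfl⟩, fun w hw => ?_⟩
      obtain ⟨w, hwy, hwZ, rfl⟩ := π.mem_hat.1 hw
      exact (π.hat_mem_hat hwZ ha).2 (h1 hwy)
    · rintro ⟨h1, h⟩
      obtain ⟨y, hyW, hyZ, rfl⟩ := π.mem_hat.1 h1
      exact ⟨y, ZFSet.mem_powerset.2 (π.subset_of_hat ha hyZ h), hyZ, rfl⟩
  separation φ hφ x hx := by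
    have hN := π.isZF_V
    have hK : π.hat W ∈ π.V := π.of_hat_mem_V hWZ
    have hd : Dfn π.V π.V fun w : Fin 1 → ZFSet.{0} => Sat {x | x ∈ π.hat W} id φ ![w 0] := by
      refine ⟨rel (π.hat W) φ, rel_over hK φ (Fml.Over.mono (hatW_sub hW π hWZ) hφ),
        fun v _ => ?_⟩
      rw [sat_rel (K := π.V) (i := id) (a := π.hat W) (hatW_sub hW π hWZ)]
      have h6 : v = ![v 0] := by
        funext i
        rw [Fin.eq_zero i]
        rfl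
      change Sat {x | x ∈ π.hat W} id φ v ↔ Sat {x | x ∈ π.hat W} id φ ![v 0]
      rw [← h6]
    refine ⟨_, hatW_super hW π hWZ hx (hN.sep_mem (Q := fun w => Sat {x | x ∈ π.hat W} id φ ![w])
      hd (hatW_sub hW π hWZ _ hx)) (fun z hz => (ZFSet.mem_sep.1 hz).1), fun z => ZFSet.mem_sep⟩
  replacement φ hφ x hx hf := by
    have hN := π.isZF_V
    have hK : π.hat W ∈ π.V := π.of_hat_mem_V hWZ
    have htr : ∀ x ∈ π.hat W, ∀ y ∈ x, y ∈ π.hat W := by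
      intro x hx y hy
      obtain ⟨a, haW, ha, rfl⟩ := π.mem_hat.1 hx
      obtain ⟨b, hba, hb, rfl⟩ := π.mem_hat.1 hy
      exact π.mem_hat.2 ⟨b, hW.trans a haW b hba, hb, rfl⟩
    obtain ⟨ψ, h1, h2, h3⟩ := fml_hatW hW π hWZ φ hφ
    have hvec : ∀ z w : ZFSet.{0}, π.hat ∘ (![z, w] : Fin 2 → ZFSet.{0}) =
        ![π.hat z, π.hat w] := by
      intro z w
      funext i
      fin_cases i <;> rfl
    have h4 : ∀ z ∈ π.Z, ∀ w ∈ π.Z, (Sat {x | x ∈ W} id ψ ![z, w] ↔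
        Sat {x | x ∈ π.hat W} id φ ![π.hat z, π.hat w]) := by
      intro z hz w hw
      rw [← h3, ← hvec, sat_hatW hW π hWZ h1]
      intro i
      refine Fin.cases ?_ (fun i => ?_) i
      · exact hz
      · rw [Fin.eq_zero i]
        exact hw
    obtain ⟨a, haW, ha, rfl⟩ := π.mem_hat.1 hx
    have hd0 : ∀ {n : ℕ} {F G : (Fin n → ZFSet.{0}) → ZFSet.{0}}, DfnF π.Z Set.univ F →
        DfnF π.Z Set.univ G → Dfn π.Z Set.univ fun v => Sat {x | x ∈ W} id ψ ![F v, G v] := by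
      intro n F G hF hG
      refine Dfn.comp2 (Q := fun a b => Sat {x | x ∈ W} id ψ ![a, b])
        ⟨rel W ψ, rel_over hWZ ψ h1, fun v _ => ?_⟩ hF hG
      have h6 : v = ![v 0, v 1] := by
        funext i
        fin_cases i <;> rfl
      rw [sat_rel (K := Set.univ) (i := id) (a := W) fun _ _ => trivial]
      change Sat {x | x ∈ W} id ψ v ↔ Sat {x | x ∈ W} id ψ ![v 0, v 1]
      rw [← h6]
    have hB := isBase_univ
    have h5 : ∀ z ∈ a, ∃ w ∈ W, Sat {x | x ∈ W} id ψ ![z, w] := by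
      have hd : Dfn π.Z Set.univ fun v : Fin 1 → ZFSet.{0} => v 0 ∈ a →
          ∃ w ∈ W, Sat {x | x ∈ W} id ψ ![v 0, w] := by
        apply Dfn.imp (Dfn.mem (DfnF.proj 0) (DfnF.const' (M := Set.univ) trivial ha))
        apply hB.bex (DfnF.const' trivial hWZ)
        exact hd0 (DfnF.proj 1) (DfnF.proj 0)
      refine π.forall_Z (Q := fun z => z ∈ a → ∃ w ∈ W, Sat {x | x ∈ W} id ψ ![z, w]) hd ?_
      intro z hz hza
      obtain ⟨w, ⟨hw, h6⟩, -⟩ := hf (π.hat z) ((π.hat_mem_hat hz ha).2 hza)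
      obtain ⟨w, hwW, hwZ, rfl⟩ := π.mem_hat.1 hw
      exact ⟨w, hwW, (h4 z hz w hwZ).2 h6⟩
    obtain ⟨y, ⟨hyW, h6⟩⟩ := hW.coll h2 haW h5
    have hd : Dfn π.Z Set.univ fun v : Fin 1 → ZFSet.{0} => v 0 ∈ W ∧
        ∀ z ∈ a, ∃ w ∈ v 0, Sat {x | x ∈ W} id ψ ![z, w] := by
      apply Dfn.and (Dfn.mem (DfnF.proj 0) (DfnF.const' (M := Set.univ) trivial hWZ))
      apply hB.ball (DfnF.const' trivial ha)
      apply hB.bex (DfnF.proj 1)
      exact hd0 (DfnF.proj 1) (DfnF.proj 0)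
    obtain ⟨y, hyZ, hyW, h6⟩ := π.exists_Z (Q := fun y => y ∈ W ∧
      ∀ z ∈ a, ∃ w ∈ y, Sat {x | x ∈ W} id ψ ![z, w]) hd ⟨y, hyW, h6⟩
    have hdN : Dfn π.V π.V fun w : Fin 1 → ZFSet.{0} => ∃ z ∈ π.hat a,
        Sat {x | x ∈ π.hat W} id φ ![z, w 0] := by
      apply hN.base.bex (DfnF.const (π.of_hat_mem_V ha))
      refine Dfn.comp2 (Q := fun a b => Sat {x | x ∈ π.hat W} id φ ![a, b])
        ⟨rel (π.hat W) φ, rel_over hK φ (Fml.Over.mono (hatW_sub hW π hWZ) hφ), fun v _ => ?_⟩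
        (DfnF.proj 0) (DfnF.proj 1)
      have h6 : v = ![v 0, v 1] := by
        funext i
        fin_cases i <;> rfl
      rw [sat_rel (K := π.V) (i := id) (a := π.hat W) (hatW_sub hW π hWZ)]
      change Sat {x | x ∈ π.hat W} id φ v ↔ Sat {x | x ∈ π.hat W} id φ ![v 0, v 1]
      rw [← h6]
    have hyh : π.hat y ∈ π.hat W := π.mem_hat.2 ⟨y, hyW, hyZ, rfl⟩
    refine ⟨_, hatW_super hW π hWZ hyh (hN.sep_mem (Q := fun w => ∃ z ∈ π.hat a,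
      Sat {x | x ∈ π.hat W} id φ ![z, w]) hdN (π.of_hat_mem_V hyZ))
      (fun z hz => (ZFSet.mem_sep.1 hz).1), fun w => ?_⟩
    rw [ZFSet.mem_sep]
    constructor
    · rintro ⟨h7, h8⟩
      exact ⟨htr _ hyh _ h7, h8⟩
    · rintro ⟨h7, z, hz, h8⟩
      refine ⟨?_, z, hz, h8⟩
      obtain ⟨w₁, -, h9⟩ := hf z hz
      obtain ⟨z, hza, hzZ, rfl⟩ := π.mem_hat.1 hz
      have hd : Dfn π.Z Set.univ fun v : Fin 1 → ZFSet.{0} => v 0 ∈ y ∧
          Sat {x | x ∈ W} id ψ ![z, v 0] :=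
        Dfn.and (Dfn.mem (DfnF.proj 0) (DfnF.const' (M := Set.univ) trivial hyZ))
          (hd0 (DfnF.const' trivial hzZ) (DfnF.proj 0))
      obtain ⟨w', hw', h10⟩ := h6 z hza
      obtain ⟨w', hwZ, hwy, h10⟩ := π.exists_Z (Q := fun w => w ∈ y ∧
        Sat {x | x ∈ W} id ψ ![z, w]) hd ⟨w', hw', h10⟩
      have h11 := (h4 z hzZ w' hwZ).1 h10
      have h12 : π.hat w' ∈ π.hat y := (π.hat_mem_hat hwZ hyZ).2 hwy
      have h13 := h9 (π.hat w') ⟨htr _ hyh _ h12, h11⟩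
      have h14 := h9 w ⟨h7, h8⟩
      rw [h14, ← h13]
      exact h12

end

/-- There is a countable transitive model `N` of ZFC and a transitive model `M` of ZFC that is an
element of `N` and contains all the subsets in `N` of its elements. -/
theorem exists_MN : ∃ N : Set ZFSet.{0}, N.Countable ∧ IsZFC N ∧ ∃ M ∈ N,
    IsZFC {x | x ∈ M} ∧ ∀ x ∈ M, ∀ y ∈ N, y ⊆ x → y ∈ M := by
  obtain ⟨W, hW⟩ := exists_refl
  obtain ⟨π, h1, -⟩ := exists_pkg' (P := Unit) {check W} (Set.countable_singleton _) ()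
  have hWZ : W ∈ π.Z := h1 rfl
  have hM := isZF_hatW hW π hWZ
  have hsup : ∀ x ∈ π.hat W, ∀ y ∈ π.V, y ⊆ x → y ∈ π.hat W :=
    fun x hx y hy => hatW_super hW π hWZ hx hy
  refine ⟨π.V, π.countable_W.mono π.V_subset_W, π.isZFC_V, π.hat W, π.of_hat_mem_V hWZ,
    ⟨hM, fun x hx hne hdis => ?_⟩, hsup⟩
  obtain ⟨c, hc, h2⟩ := π.isZFC_V.choice x (hatW_sub hW π hWZ _ hx) hne hdis
  have h3 : ZFSet.sUnion x ∩ c ∈ π.V := by
    have h4 := π.isZF_V.sep_mem (Q := fun w => w ∈ c) (Dfn.mem (DfnF.proj 0) (DfnF.const hc))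
      (π.isZF_V.union _ (hatW_sub hW π hWZ _ hx))
    have h5 : ZFSet.sUnion x ∩ c = ZFSet.sep (fun w => w ∈ c) (ZFSet.sUnion x) := by
      ext w
      rw [ZFSet.mem_inter, ZFSet.mem_sep]
    rw [h5]
    exact h4
  refine ⟨ZFSet.sUnion x ∩ c, hsup _ (hM.union x hx) _ h3 fun z hz => (ZFSet.mem_inter.1 hz).1,
    fun y hy => ?_⟩
  obtain ⟨z, ⟨hz, hzc⟩, h4⟩ := h2 y hy
  refine ⟨z, ⟨hz, ZFSet.mem_inter.2 ⟨ZFSet.mem_sUnion.2 ⟨y, hy, hz⟩, hzc⟩⟩, ?_⟩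
  rintro z' ⟨hz', hzc'⟩
  exact h4 z' ⟨hz', (ZFSet.mem_inter.1 hzc').2⟩

end Pool.Agent.R597
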