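import Pool.Agent.R597.Fr6


/-!
# Closed games in a transitive model, and the definable subsets of a set
-/

set_option autoImplicit false
set_option linter.unreachableTactic false
set_option linter.unusedTactic false
set_option linter.unusedSectionVars false
set_option linter.unusedVariables false

namespace Pool.Agent.R597

open Pool.Agent.W868 Pool.Agent.W868.GM Pool.Agent.Y588
open ZFSet (pair)

/-! ### Closed games -/

/-- The positions from which some challenge has only answers in `B`. -/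
noncomputable def Lam (L C : ZFSet.{0}) (R : ZFSet.{0} → ZFSet.{0} → ZFSet.{0} → Prop)
    (B : ZFSet.{0}) : ZFSet.{0} :=
  ZFSet.sep (fun s => ∃ c ∈ C, ∀ s' ∈ L, R s c s' → s' ∈ B) L

theorem mem_Lam {L C B s : ZFSet.{0}} {R : ZFSet.{0} → ZFSet.{0} → ZFSet.{0} → Prop} :
    s ∈ Lam L C R B ↔ s ∈ L ∧ ∃ c ∈ C, ∀ s' ∈ L, R s c s' → s' ∈ B := ZFSet.mem_sep

/-- The set of the positions that are lost in a closed game. -/
theorem exists_lost {N : Set ZFSet.{0}} (hN : IsZF N) {L C : ZFSet.{0}} (hL : L ∈ N)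
    (hC : C ∈ N) {R : ZFSet.{0} → ZFSet.{0} → ZFSet.{0} → Prop}
    (hR : Dfn N N fun w : Fin 3 → ZFSet.{0} => R (w 0) (w 1) (w 2)) :
    ∃ B ∈ N, (∀ s ∈ L, s ∉ B → ∀ c ∈ C, ∃ s' ∈ L, s' ∉ B ∧ R s c s') ∧
      ∀ S : Set ZFSet.{0}, (∀ s ∈ S, s ∈ L ∧ ∀ c ∈ C, ∃ s' ∈ S, R s c s') →
        ∀ s ∈ S, s ∉ B := by
  have hB := hN.base
  have hR' : ∀ {n : ℕ} {F F' F'' : (Fin n → ZFSet.{0}) → ZFSet.{0}}, DfnF N N F →
      DfnF N N F' → DfnF N N F'' → Dfn N N fun v => R (F v) (F' v) (F'' v) :=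
    fun h1 h2 h3 => Dfn.comp3 (Q := R) hR h1 h2 h3
  have hT : DfnF N N fun w : Fin 1 → ZFSet.{0} => Lam L C R (w 0) := by
    refine hN.sep' (Q := fun s w => ∃ c ∈ C, ∀ s' ∈ L, R s c s' → s' ∈ w 0) (DfnF.const hL) ?_
    apply hB.bex (DfnF.const hC)
    apply hB.ball (DfnF.const hL)
    apply Dfn.imp (hR' (DfnF.proj 2) (DfnF.proj 1) (DfnF.proj 0))
    exact Dfn.mem (DfnF.proj 0) (DfnF.proj 3)
  have hI := dfn_itr hN hN.empty_mem hT
  have hd : Dfn N N fun w : Fin 2 → ZFSet.{0} => w 0 ∈ itr (Lam L C R) ∅ (w 1) :=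
    Dfn.mem (DfnF.proj 0) (DfnF.comp1 (f := itr (Lam L C R) ∅) hI (DfnF.proj 1))
  set B : ZFSet.{0} := ZFSet.sep (fun s => ∃ z ∈ N, s ∈ itr (Lam L C R) ∅ z) L with hBdef
  have hBN : B ∈ N := hN.sep_mem (Q := fun s => ∃ z ∈ N, s ∈ itr (Lam L C R) ∅ z)
    (Dfn.ex (Dfn.comp2 (Q := fun a b => a ∈ itr (Lam L C R) ∅ b) hd (DfnF.proj 1)
      (DfnF.proj 0))) hL
  have hsub : ∀ z, ∀ s ∈ itr (Lam L C R) ∅ z, s ∈ L := by
    intro z s hs
    rcases mem_itr.1 hs with h | ⟨u, -, h⟩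
    · exact absurd h (ZFSet.notMem_empty _)
    · exact (mem_Lam.1 h).1
  refine ⟨B, hBN, fun s hs hsB c hc => ?_, fun S hS => ?_⟩
  · -- a bound for the ranks
    by_contra hcon
    push Not at hcon
    have h1 : ∀ s' ∈ L, R s c s' → s' ∈ B := fun s' hs' h => by
      by_contra h2
      exact hcon s' hs' h2 h
    obtain ⟨Z, hZ, h2⟩ : ∃ Z ∈ N, ∀ s ∈ B, s ∈ itr (Lam L C R) ∅ Z := by
      set Z := ZFSet.sUnion (ZFSet.sUnion (im (fun s => wt N fun z =>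
        s ∈ itr (Lam L C R) ∅ z) B)) with hZ
      have hZN : Z ∈ N := by
        refine hN.union _ (hN.union _ (hN.im_mem hBN ?_))
        refine wt' hN (Q := fun z w => w 0 ∈ itr (Lam L C R) ∅ z) ?_
        exact Dfn.comp2 (Q := fun a b => a ∈ itr (Lam L C R) ∅ b) hd (DfnF.proj 1)
          (DfnF.proj 0)
      refine ⟨Z, hZN, fun s hs => ?_⟩
      obtain ⟨-, z₀, hz₀, h3⟩ := ZFSet.mem_sep.1 hs
      obtain ⟨z, hz⟩ := wt_ne hN (Q := fun z => s ∈ itr (Lam L C R) ∅ z) ⟨z₀, hz₀, h3⟩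
      have h4 := (wt_spec hz).2
      rcases mem_itr.1 h4 with h5 | ⟨u, hu, h5⟩
      · exact absurd h5 (ZFSet.notMem_empty _)
      · refine mem_itr.2 (Or.inr ⟨u, ?_, h5⟩)
        exact ZFSet.mem_sUnion.2 ⟨z, ZFSet.mem_sUnion.2 ⟨_, mem_im.2 ⟨s, hs, rfl⟩, hz⟩, hu⟩
    refine hsB (ZFSet.mem_sep.2 ⟨hs, {Z}, hN.single_mem hZ, ?_⟩)
    refine mem_itr.2 (Or.inr ⟨Z, by simp, mem_Lam.2 ⟨hs, c, hc, fun s' hs' h => ?_⟩⟩)
    exact h2 s' (h1 s' hs' h)
  · have key : ∀ z : ZFSet.{0}, ∀ s ∈ S, s ∉ itr (Lam L C R) ∅ z := by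
      intro z
      induction z using ZFSet.inductionOn with
      | _ z ih =>
        intro s hs h
        rcases mem_itr.1 h with h | ⟨u, hu, h⟩
        · exact ZFSet.notMem_empty _ h
        · obtain ⟨-, c, hc, h1⟩ := mem_Lam.1 h
          obtain ⟨s', hs', h2⟩ := (hS s hs).2 c hc
          exact ih u hu s' hs' (h1 s' (hS s' hs').1 h2)
    intro s hs h
    obtain ⟨-, z, -, h1⟩ := ZFSet.mem_sep.1 h
    exact key z s hs h1

/-! ### The satisfaction relation of a set -/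

/-- The first level of the satisfaction relation. -/
noncomputable def T0 (M : ZFSet.{0}) : ZFSet.{0} :=
  ZFSet.sep (fun w => fs (fs w) = nat 0 ↔ AtR (fun x y => x ∈ y) (sn (fs w)) (sn w))
    (ZFSet.prod JJ (Sq M))

/-- The next level of the satisfaction relation. -/
noncomputable def HT (M T : ZFSet.{0}) : ZFSet.{0} :=
  ZFSet.sep (fun w => fs (fs w) = nat 0 ↔
    ((fs (sn (fs w)) = nat 0 ∧ (pair (fs (sn (sn (fs w)))) (sn w) ∈ T ∨
      pair (sn (sn (sn (fs w)))) (sn w) ∈ T)) ∨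
    (fs (sn (fs w)) ≠ nat 0 ∧ ∃ b ∈ M, pair (fs (sn (sn (fs w)))) (pair (sn w) b) ∈ T)))
    (ZFSet.prod JJ (Sq M))

theorem mem_levels (M : ZFSet.{0}) (m : ℕ) : ∀ u s, pair u s ∈ Iter (HT M) (T0 M) (nat m) ↔
    u ∈ JJ ∧ s ∈ Sq M ∧ SM {x | x ∈ M} m u s := by
  induction m with
  | zero =>
    intro u s
    rw [Iter_zero, T0, ZFSet.mem_sep, ZFSet.pair_mem_prod, fs_pair, sn_pair, and_assoc]
    rfl
  | succ m ih =>
    intro u s
    rw [Iter_succ, HT, ZFSet.mem_sep, ZFSet.pair_mem_prod, fs_pair, sn_pair, and_assoc]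
    refine and_congr_right fun hu => and_congr_right fun hs => ?_
    have h1 := fs_sn_JJ (fs_sn_JJ (fs_sn_JJ hu).2).2
    simp only [SM]
    refine iff_congr Iff.rfl (or_congr (and_congr_right fun _ => or_congr ?_ ?_)
      (and_congr_right fun _ => exists_congr fun b => and_congr_right fun hb => ?_))
    · rw [ih]
      exact ⟨fun h => h.2.2, fun h => ⟨h1.1, hs, h⟩⟩
    · rw [ih]
      exact ⟨fun h => h.2.2, fun h => ⟨h1.2, hs, h⟩⟩
    · rw [ih]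
      exact ⟨fun h => h.2.2, fun h => ⟨h1.1, pair_mem_Sq hs hb, h⟩⟩

section

variable {N : Set ZFSet.{0}} (hN : IsZF N) {M : ZFSet.{0}} (hM : M ∈ N)

include hN hM

theorem dfn_levels : DfnF N N fun w : Fin 1 → ZFSet.{0} => Iter (HT M) (T0 M) (w 0) := by
  have hB := hN.base
  have h0 := hN.nat_mem 0
  have hD : ZFSet.prod JJ (Sq M) ∈ N := hN.prod_mem (JJ_mem hN) (Sq_mem hN hM)
  have hT0 : T0 M ∈ N := by
    refine hN.sep_mem (Q := fun w => fs (fs w) = nat 0 ↔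
      AtR (fun x y => x ∈ y) (sn (fs w)) (sn w)) ?_ hD
    refine Dfn.iff (Dfn.eq (hN.fs' (hN.fs' (DfnF.proj 0))) (DfnF.const h0)) ?_
    exact Dfn.comp2 (Q := fun c s => AtR (fun x y => x ∈ y) c s) (dfn_AtM hN)
      (hN.sn' (hN.fs' (DfnF.proj 0))) (hN.sn' (DfnF.proj 0))
  refine dfn_Iter hN hT0 ?_
  refine hN.sep' (Q := fun w v => fs (fs w) = nat 0 ↔
    ((fs (sn (fs w)) = nat 0 ∧ (pair (fs (sn (sn (fs w)))) (sn w) ∈ v 0 ∨
      pair (sn (sn (sn (fs w)))) (sn w) ∈ v 0)) ∨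
    (fs (sn (fs w)) ≠ nat 0 ∧ ∃ b ∈ M, pair (fs (sn (sn (fs w)))) (pair (sn w) b) ∈ v 0)))
    (DfnF.const hD) ?_
  (repeat' first
      | assumption
      | exact DfnF.proj _
      | exact DfnF.const (by assumption)
      | apply Dfn.iff | apply Dfn.not | apply Dfn.and | apply Dfn.or
      | apply hB.bex
      | apply Dfn.eq | apply Dfn.mem | apply hB.pair' | apply hN.fs' | apply hN.sn')

theorem defC_eq (hM' : IsZF {x | x ∈ M}) : DefC M = im (fun t => ZFSet.sep (fun x =>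
    pair (fs (sn t)) (pair (sn (sn t)) x) ∈ Iter (HT M) (T0 M) (fs t)) M)
    (ZFSet.prod ZFSet.omega (ZFSet.prod JJ (Sq M))) := by
  ext D
  rw [mem_im, mem_DefC]
  constructor
  · rintro ⟨hD, φ, hφ, h⟩
    obtain ⟨l, hl, hφl⟩ := exists_params φ hφ
    obtain ⟨m₀, h1⟩ := exists_code {x | x ∈ M} (fun j => l.getD j ∅) l.length φ (by
      refine Fml.Over.mono ?_ hφl
      intro a ha
      obtain ⟨j, hj, rfl⟩ := List.mem_iff_getElem.1 ha
      exact ⟨j, hj, by rw [List.getD_eq_getElem _ _ hj]⟩)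
    obtain ⟨u, hu, h2⟩ := h1 m₀ le_rfl
    have hs : seq (fun j => l.getD j ∅) l.length ∈ Sq M := seq_mem_Sq fun j hj => by
      rw [List.getD_eq_getElem _ _ hj]
      exact hl _ (List.getElem_mem hj)
    refine ⟨pair (nat m₀) (pair u (seq (fun j => l.getD j ∅) l.length)),
      ZFSet.pair_mem_prod.2 ⟨nat_mem_omega _, ZFSet.pair_mem_prod.2 ⟨hu, hs⟩⟩, ?_⟩
    simp only [fs_pair, sn_pair]
    ext x
    rw [ZFSet.mem_sep, mem_levels]
    constructor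
    · intro hx
      refine ⟨hD hx, hu, pair_mem_Sq hs (hD hx), ?_⟩
      have h3 := (h2 ![x]).1 ((h x (hD hx)).1 hx)
      exact h3
    · rintro ⟨hx, -, -, h3⟩
      exact (h x hx).2 ((h2 ![x]).2 h3)
  · rintro ⟨t, ht, rfl⟩
    obtain ⟨z, hz, y, hy, rfl⟩ := ZFSet.mem_prod.1 ht
    obtain ⟨u, hu, s, hs, rfl⟩ := ZFSet.mem_prod.1 hy
    obtain ⟨m, rfl⟩ := mem_omega_iff.1 hz
    simp only [fs_pair, sn_pair]
    refine ⟨fun x hx => (ZFSet.mem_sep.1 hx).1, ?_⟩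
    have hsM : s ∈ M := by
      have h1 : ∀ s ∈ Sq M, s ∈ M := Sq_ind hM'.empty_mem fun t _ a ha ih => hM'.pair_mem ih ha
      exact h1 s hs
    have huM : u ∈ M := hM'.trans _ (JJ_mem hM') _ hu
    have hd : Dfn {x | x ∈ M} {x | x ∈ M} fun w : Fin 1 → ZFSet.{0} =>
        SM {x | x ∈ M} m u (pair s (w 0)) :=
      Dfn.comp2 (Q := SM {x | x ∈ M} m) (dfn_SM hM' m) (DfnF.const huM)
        (hM'.base.pair' (DfnF.const hsM) (DfnF.proj 0))
    obtain ⟨φ, h1, h2⟩ := hd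
    refine ⟨φ, h1, fun x hx => ?_⟩
    rw [ZFSet.mem_sep, mem_levels, h2 ![x] fun i => by
      rw [Fin.eq_zero i]
      exact hx]
    exact ⟨fun h => h.2.2.2, fun h => ⟨hx, hu, pair_mem_Sq hs hx, h⟩⟩

theorem defC_mem (hM' : IsZF {x | x ∈ M}) : DefC M ∈ N := by
  rw [defC_eq hN hM hM']
  have hB := hN.base
  refine hN.im_mem (hN.prod_mem hN.infinity (hN.prod_mem (JJ_mem hN) (Sq_mem hN hM))) ?_
  refine hN.sep' (Q := fun x w => pair (fs (sn (w 0))) (pair (sn (sn (w 0))) x) ∈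
    Iter (HT M) (T0 M) (fs (w 0))) (DfnF.const hM) ?_
  refine Dfn.mem ?_ (DfnF.comp1 (f := Iter (HT M) (T0 M)) (dfn_levels hN hM)
    (hN.fs' (DfnF.proj 1)))
  exact hB.pair' (hN.fs' (hN.sn' (DfnF.proj 1))) (hB.pair' (hN.sn' (hN.sn' (DfnF.proj 1)))
    (DfnF.proj 0))

end

end Pool.Agent.R597
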