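import Pool.Agent.R597.FrDefs

/-!
# Amenable forcing relations: the definitions

The formulas are without parameters. `DefC M` is the set of the subsets of `M` that are definable
over `(M, ∈)` with parameters from `M`.
-/

set_option autoImplicit false

namespace Pool.Agent.R597

open Pool.Agent.W868 Pool.Agent.W868.GM
open ZFSet (pair)

/-- The condition `p` forces `φ(v)` over `M`: the formula is true of the values of the names in
`Mext M P G`, for all filters `G` that contain `p` and meet all the dense subsets of `P` that are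
definable over `M`. -/
def FrcM (M P Le : ZFSet.{0}) {n : ℕ} (φ : Fml Empty n) (p : ZFSet.{0})
    (v : Fin n → ZFSet.{0}) : Prop :=
  ∀ G, IsGen (DefC M) P Le G → p ∈ G → Sat (Mext M P G) Empty.elim φ fun i => ev G (v i)

/-- The forcing relation is `M`-amenable: for all formulas `φ` and all `x ∈ M`, the set of the
elements of `x` of the form `(p, v)`, where `p ∈ P` forces `φ(v)` and `v` is a tuple of `P`-names
in `M`, is an element of `M`. -/
def Amenable (M P Le : ZFSet.{0}) : Prop :=
  ∀ (n : ℕ) (φ : Fml Empty n), ∀ x ∈ M, ∃ y ∈ M, ∀ u, u ∈ y ↔ u ∈ x ∧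
    ∃ p ∈ P, ∃ v : Fin n → ZFSet.{0}, (∀ i, v i ∈ M ∧ IsName P (v i)) ∧
      u = pair p (tup v) ∧ FrcM M P Le φ p v

end Pool.Agent.R597
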