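import Pool.Agent.R597.Am3
import Pool.Agent.R597.AmDefs

/-!
# Partial information about a generic filter and the truth in the extension
-/

set_option autoImplicit false
set_option linter.unreachableTactic false
set_option linter.unusedTactic false
set_option linter.unusedSectionVars false
set_option linter.unusedVariables false

namespace Pool.Agent.R597

open Pool.Agent.W868 Pool.Agent.W868.GM Pool.Agent.Y588
open ZFSet (pair)

/-! ### Atomic formulas -/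

/-- An atomic formula is true. -/
def At2 (Rm Re : ZFSet.{0} → ZFSet.{0} → Prop) (c h : ZFSet.{0}) : Prop :=
  (fs c = nat 0 ∧ ∃ w ∈ st h, ∃ w' ∈ st h, fs w = fs (sn c) ∧ fs w' = sn (sn c) ∧
    Rm (sn w) (sn w')) ∨
  (fs c ≠ nat 0 ∧ ∃ w ∈ st h, ∃ w' ∈ st h, fs w = fs (sn c) ∧ fs w' = sn (sn c) ∧
    Re (sn w) (sn w'))

/-- An atomic formula is false. -/
def Nt2 (Rm Re : ZFSet.{0} → ZFSet.{0} → Prop) (c h : ZFSet.{0}) : Prop :=
  ∀ w ∈ st h, ∀ w' ∈ st h, fs w = fs (sn c) → fs w' = sn (sn c) →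
    (fs c = nat 0 → Rm (sn w) (sn w')) ∧ (fs c ≠ nat 0 → Re (sn w) (sn w'))

theorem at2_gen {R R' : ZFSet.{0} → ZFSet.{0} → Prop} {h : ℕ → ZFSet.{0}} {N : ℕ}
    {c : ZFSet.{0}} : At2 R R' c (seq h N) ↔
      (fs c = nat 0 ∧ ∃ i < N, ∃ j < N, nat i = fs (sn c) ∧ nat j = sn (sn c) ∧
        R (h i) (h j)) ∨
      (fs c ≠ nat 0 ∧ ∃ i < N, ∃ j < N, nat i = fs (sn c) ∧ nat j = sn (sn c) ∧
        R' (h i) (h j)) := by
  have key : ∀ {Q : ZFSet.{0} → ZFSet.{0} → Prop} {x y : ZFSet.{0}},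
      (∃ w ∈ st (seq h N), ∃ w' ∈ st (seq h N), fs w = x ∧ fs w' = y ∧
        Q (sn w) (sn w')) ↔ ∃ i < N, ∃ j < N, nat i = x ∧ nat j = y ∧ Q (h i) (h j) := by
    intro Q x y
    constructor
    · rintro ⟨w, hw, w', hw', h1, h2, h3⟩
      obtain ⟨k, hk, rfl⟩ := mem_st.1 hw
      obtain ⟨l, hl, rfl⟩ := mem_st.1 hw'
      rw [fs_pair] at h1 h2
      rw [sn_pair, sn_pair] at h3
      exact ⟨k, hk, l, hl, h1, h2, h3⟩
    · rintro ⟨i, hi, j, hj, h1, h2, h3⟩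
      exact ⟨_, mem_st.2 ⟨i, hi, rfl⟩, _, mem_st.2 ⟨j, hj, rfl⟩, by rwa [fs_pair],
        by rwa [fs_pair], by rwa [sn_pair, sn_pair]⟩
  rw [At2, key, key (Q := R')]

theorem nt2_gen {R R' : ZFSet.{0} → ZFSet.{0} → Prop} {h : ℕ → ZFSet.{0}} {N : ℕ}
    {c : ZFSet.{0}} : Nt2 R R' c (seq h N) ↔
      ∀ i < N, ∀ j < N, nat i = fs (sn c) → nat j = sn (sn c) →
        (fs c = nat 0 → R (h i) (h j)) ∧ (fs c ≠ nat 0 → R' (h i) (h j)) := by
  constructor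
  · intro h1 i hi j hj h2 h3
    have h4 := h1 _ (mem_st.2 ⟨i, hi, rfl⟩) _ (mem_st.2 ⟨j, hj, rfl⟩) (by rwa [fs_pair])
      (by rwa [fs_pair])
    rwa [sn_pair, sn_pair] at h4
  · intro h1 w hw w' hw' h2 h3
    obtain ⟨i, hi, rfl⟩ := mem_st.1 hw
    obtain ⟨j, hj, rfl⟩ := mem_st.1 hw'
    rw [fs_pair] at h2 h3
    rw [sn_pair, sn_pair]
    exact h1 i hi j hj h2 h3

/-- The sequence of the values. -/
noncomputable def evs (G s : ZFSet.{0}) : ZFSet.{0} := fold (fun r a => pair r (ev G a)) ∅ s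

theorem evs_empty (G : ZFSet.{0}) : evs G ∅ = ∅ := fold_empty _ _

theorem evs_pair (G s a : ZFSet.{0}) : evs G (pair s a) = pair (evs G s) (ev G a) :=
  fold_pair _ _ _ _

theorem evs_seq (G : ZFSet.{0}) (h : ℕ → ZFSet.{0}) (k : ℕ) :
    evs G (seq h k) = seq (fun i => ev G (h i)) k := by
  induction k with
  | zero => exact evs_empty G
  | succ k ih => rw [seq, evs_pair, ih, seq]

/-! ### Immediate subformulas -/

noncomputable def chB (B w : ZFSet.{0}) : ZFSet.{0} := open Classical in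
  if fs (sn (fs w)) = nat 0 then
    {pair (fs (sn (sn (fs w)))) (sn w), pair (sn (sn (sn (fs w)))) (sn w)}
  else im (fun b => pair (fs (sn (sn (fs w)))) (pair (sn w) b)) B

theorem SM_chB {K : Set ZFSet.{0}} {B G : ZFSet.{0}} (hK : ∀ x, x ∈ K ↔ ∃ σ ∈ B, x = ev G σ)
    {m : ℕ} {u h : ZFSet.{0}} : SM K (m + 1) u (evs G h) ↔ (fs u = nat 0 ↔
      ∃ y ∈ chB B (pair u h), SM K m (fs y) (evs G (sn y))) := by
  simp only [SM]
  refine iff_congr Iff.rfl ?_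
  by_cases h0 : fs (sn u) = nat 0
  · have h1 : chB B (pair u h) = {pair (fs (sn (sn u))) h, pair (sn (sn (sn u))) h} := by
      rw [chB, fs_pair, sn_pair, if_pos h0]
    rw [h1]
    constructor
    · rintro (⟨-, h1 | h1⟩ | ⟨h1, -⟩)
      · exact ⟨_, ZFSet.mem_pair.2 (Or.inl rfl), by rwa [fs_pair, sn_pair]⟩
      · exact ⟨_, ZFSet.mem_pair.2 (Or.inr rfl), by rwa [fs_pair, sn_pair]⟩
      · exact absurd h0 h1
    · rintro ⟨y, hy, h1⟩
      rcases ZFSet.mem_pair.1 hy with rfl | rfl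
      · rw [fs_pair, sn_pair] at h1
        exact Or.inl ⟨h0, Or.inl h1⟩
      · rw [fs_pair, sn_pair] at h1
        exact Or.inl ⟨h0, Or.inr h1⟩
  · have h1 : chB B (pair u h) = im (fun b => pair (fs (sn (sn u))) (pair h b)) B := by
      rw [chB, fs_pair, sn_pair, if_neg h0]
    rw [h1]
    constructor
    · rintro (⟨h1, -⟩ | ⟨-, b, hb, h1⟩)
      · exact absurd h1 h0
      · obtain ⟨σ, hσ, rfl⟩ := (hK b).1 hb
        refine ⟨_, mem_im.2 ⟨σ, hσ, rfl⟩, ?_⟩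
        rw [fs_pair, sn_pair, evs_pair]
        exact h1
    · rintro ⟨y, hy, h1⟩
      obtain ⟨σ, hσ, rfl⟩ := mem_im.1 hy
      rw [fs_pair, sn_pair, evs_pair] at h1
      exact Or.inr ⟨h0, _, (hK _).2 ⟨σ, hσ, rfl⟩, h1⟩

theorem chB_mem {B u h : ZFSet.{0}} (hu : u ∈ JJ) (hs : h ∈ Sq B) :
    ∀ y ∈ chB B (pair u h), fs y ∈ JJ ∧ sn y ∈ Sq B ∧ pair (fs y) (sn y) = y := by
  intro y hy
  have h1 := (fs_sn_JJ (fs_sn_JJ (fs_sn_JJ hu).2).2)
  by_cases h : fs (sn u) = nat 0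
  · simp only [chB, fs_pair, sn_pair, h, if_true, ZFSet.mem_pair] at hy
    rcases hy with rfl | rfl
    · rw [fs_pair, sn_pair]
      exact ⟨h1.1, hs, rfl⟩
    · rw [fs_pair, sn_pair]
      exact ⟨h1.2, hs, rfl⟩
  · simp only [chB, fs_pair, sn_pair, h, if_false] at hy
    obtain ⟨b, hb, rfl⟩ := mem_im.1 hy
    rw [fs_pair, sn_pair]
    exact ⟨h1.1, pair_mem_Sq hs hb, rfl⟩

/-! ### The rules -/

/-- The rule for the fact `f` on the truth of a formula. -/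
def FR (B f y s t : ZFSet.{0}) : Prop :=
  (fs f = nat 0 →
    (fs (fs (sn f)) = nat 0 → At2 (fun x z => pair (nat 3) (pair x z) ∈ t)
      (fun x z => pair (nat 0) (pair x z) ∈ t) (sn (fs (sn f))) (sn (sn f))) ∧
    (fs (fs (sn f)) ≠ nat 0 → Nt2 (fun x z => pair (nat 2) (pair x z) ∈ t)
      (fun x z => pair (nat 1) (pair x z) ∈ t) (sn (fs (sn f))) (sn (sn f)))) ∧
  (fs f ≠ nat 0 →
    (fs (fs (sn f)) = nat 0 → ∃ y' ∈ chB B (sn f), pair (ZFSet.sUnion (fs f)) y' ∈ s) ∧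
    (fs (fs (sn f)) ≠ nat 0 → y ∈ chB B (sn f) →
      pair (ZFSet.sUnion (fs f)) (pair (fl (fs y)) (sn y)) ∈ s))

/-- The conditions are incompatible. -/
def Pp (P Le r q : ZFSet.{0}) : Prop := ¬ ∃ z ∈ P, pair z r ∈ Le ∧ pair z q ∈ Le

/-- The rule for the fact `a` on two names: `0` equal, `1` different, `2` not element, `3`
element. -/
def AR (P Le a w r t : ZFSet.{0}) : Prop :=
  ((fs a = nat 0 → w ∈ fs (sn a) → Pp P Le r (sn w) ∨ ∃ w' ∈ sn (sn a), pair r (sn w') ∈ Le ∧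
      pair (nat 0) (pair (fs w) (fs w')) ∈ t) ∧
    (fs a = nat 0 → w ∈ sn (sn a) → Pp P Le r (sn w) ∨ ∃ w' ∈ fs (sn a), pair r (sn w') ∈ Le ∧
      pair (nat 0) (pair (fs w') (fs w)) ∈ t)) ∧
  (fs a = nat 1 → (∃ w' ∈ fs (sn a), pair r (sn w') ∈ Le ∧
      pair (nat 2) (pair (fs w') (sn (sn a))) ∈ t) ∨
    ∃ w' ∈ sn (sn a), pair r (sn w') ∈ Le ∧ pair (nat 2) (pair (fs w') (fs (sn a))) ∈ t) ∧
  (fs a = nat 2 → w ∈ sn (sn a) → Pp P Le r (sn w) ∨
    pair (nat 1) (pair (fs (sn a)) (fs w)) ∈ t) ∧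
  (fs a = nat 3 → ∃ w' ∈ sn (sn a), pair r (sn w') ∈ Le ∧
    pair (nat 0) (pair (fs (sn a)) (fs w')) ∈ t)

/-- The rule for the dense class `D`. -/
def DR (P Le D r : ZFSet.{0}) : Prop :=
  (∀ z ∈ D, z ∈ P) → (∀ p ∈ P, ∃ q ∈ D, pair q p ∈ Le) → ∃ d ∈ D, pair r d ∈ Le

/-- The position `s'` is an answer to the challenge `c` at the position `s`. -/
def GR (P Le B s c s' : ZFSet.{0}) : Prop :=
  (pair (fs s') (fs s) ∈ Le ∧ (∀ z ∈ fs (sn s), z ∈ fs (sn s')) ∧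
    ∀ z ∈ sn (sn s), z ∈ sn (sn s')) ∧
  DR P Le (fs c) (fs s') ∧
  (fs (fs (sn c)) ∈ fs (sn s) →
    FR B (fs (fs (sn c))) (sn (fs (sn c))) (fs (sn s')) (sn (sn s'))) ∧
  (fs (sn (sn c)) ∈ sn (sn s) →
    AR P Le (fs (sn (sn c))) (sn (sn (sn c))) (fs s') (sn (sn s')))

section

variable {N : Set ZFSet.{0}} (hN : IsZF N) {P Le B : ZFSet.{0}} (hP : P ∈ N) (hL : Le ∈ N)
  (hB' : B ∈ N)

include hN hP hL hB'

omit hP hL hB' in
theorem dfn_At2 {i j : ℕ} : Dfn N N fun w : Fin 3 → ZFSet.{0} =>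
    At2 (fun x z => pair (nat i) (pair x z) ∈ w 0) (fun x z => pair (nat j) (pair x z) ∈ w 0)
      (w 1) (w 2) := by
  have hB := hN.base
  have h0 := hN.nat_mem 0
  have h1 := hN.nat_mem i
  have h2 := hN.nat_mem j
  have hst := dfn_st hN
  have hs : ∀ {n : ℕ} {F : (Fin n → ZFSet.{0}) → ZFSet.{0}}, DfnF N N F →
      DfnF N N fun v => st (F v) := fun hF => DfnF.comp1 (f := st) hst hF
  unfold At2
  (repeat' first
      | assumption
      | exact DfnF.proj _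
      | exact DfnF.const (by assumption)
      | apply Dfn.not | apply Dfn.and | apply Dfn.or
      | apply hB.bex
      | apply Dfn.eq | apply Dfn.mem | apply hB.pair' | apply hN.fs' | apply hs | apply hN.sn')

omit hP hL hB' in
theorem dfn_Nt2 {i j : ℕ} : Dfn N N fun w : Fin 3 → ZFSet.{0} =>
    Nt2 (fun x z => pair (nat i) (pair x z) ∈ w 0) (fun x z => pair (nat j) (pair x z) ∈ w 0)
      (w 1) (w 2) := by
  have hB := hN.base
  have h0 := hN.nat_mem 0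
  have h1 := hN.nat_mem i
  have h2 := hN.nat_mem j
  have hst := dfn_st hN
  have hs : ∀ {n : ℕ} {F : (Fin n → ZFSet.{0}) → ZFSet.{0}}, DfnF N N F →
      DfnF N N fun v => st (F v) := fun hF => DfnF.comp1 (f := st) hst hF
  unfold Nt2
  (repeat' first
      | assumption
      | exact DfnF.proj _
      | exact DfnF.const (by assumption)
      | apply Dfn.not | apply Dfn.and | apply Dfn.or | apply Dfn.imp
      | apply hB.ball
      | apply Dfn.eq | apply Dfn.mem | apply hB.pair' | apply hN.fs' | apply hs | apply hN.sn')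

omit hB' in
theorem dfn_Pp : Dfn N N fun w : Fin 2 → ZFSet.{0} => Pp P Le (w 0) (w 1) := by
  have hB := hN.base
  unfold Pp
  (repeat' first
      | assumption
      | exact DfnF.proj _
      | exact DfnF.const (by assumption)
      | apply Dfn.not | apply Dfn.and
      | apply hB.bex
      | apply Dfn.mem | apply hB.pair')

omit hB' in
theorem dfn_DR : Dfn N N fun w : Fin 2 → ZFSet.{0} => DR P Le (w 0) (w 1) := by
  have hB := hN.base
  unfold DR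
  (repeat' first
      | assumption
      | exact DfnF.proj _
      | exact DfnF.const (by assumption)
      | apply Dfn.and | apply Dfn.imp
      | apply hB.bex | apply hB.ball
      | apply Dfn.mem | apply hB.pair')

omit hB' in
theorem dfn_AR : Dfn N N fun w : Fin 4 → ZFSet.{0} => AR P Le (w 0) (w 1) (w 2) (w 3) := by
  have hB := hN.base
  have h0 := hN.nat_mem 0
  have h1 := hN.nat_mem 1
  have h2 := hN.nat_mem 2
  have h3 := hN.nat_mem 3
  have hp : ∀ {n : ℕ} {F F' : (Fin n → ZFSet.{0}) → ZFSet.{0}}, DfnF N N F → DfnF N N F' →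
      Dfn N N fun v => Pp P Le (F v) (F' v) := fun hF hF' =>
    Dfn.comp2 (Q := Pp P Le) (dfn_Pp hN hP hL) hF hF'
  unfold AR
  (repeat' first
      | assumption
      | exact DfnF.proj _
      | exact DfnF.const (by assumption)
      | apply hp
      | apply Dfn.and | apply Dfn.or | apply Dfn.imp
      | apply hB.bex
      | apply Dfn.eq | apply Dfn.mem | apply hB.pair' | apply hN.fs' | apply hN.sn')

omit hP hL in
theorem dfn_FR : Dfn N N fun w : Fin 4 → ZFSet.{0} => FR B (w 0) (w 1) (w 2) (w 3) := by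
  have hB := hN.base
  have h0 := hN.nat_mem 0
  have hfl : ∀ {n : ℕ} {F : (Fin n → ZFSet.{0}) → ZFSet.{0}}, DfnF N N F →
      DfnF N N fun v => fl (F v) := by
    intro n F hF
    exact hB.pair' (DfnF.ite (Dfn.eq (hN.fs' hF) (DfnF.const (hN.nat_mem 0)))
      (DfnF.const (hN.nat_mem 1)) (DfnF.const (hN.nat_mem 0))) (hN.sn' hF)
  have hch : ∀ {n : ℕ} {F : (Fin n → ZFSet.{0}) → ZFSet.{0}}, DfnF N N F →
      DfnF N N fun v => chB B (F v) := by
    intro n F hF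
    have h1 := hN.fs' hF
    have h2 := hN.sn' (hN.sn' h1)
    refine DfnF.ite (Dfn.eq (hN.fs' (hN.sn' h1)) (DfnF.const (hN.nat_mem 0)))
      (hB.upair' (hB.pair' (hN.fs' h2) (hN.sn' hF)) (hB.pair' (hN.sn' h2) (hN.sn' hF))) ?_
    refine hN.im' (h := fun b v => pair (fs (sn (sn (fs (F v))))) (pair (sn (F v)) b))
      (DfnF.const hB') ?_
    exact hB.pair' (hN.fs' h2).tail (hB.pair' (hN.sn' hF).tail (DfnF.proj 0))
  have e0 : DfnF N N fun w : Fin 4 → ZFSet.{0} => fs (fs (sn (w 0))) :=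
    hN.fs' (hN.fs' (hN.sn' (DfnF.proj 0)))
  have e1 : DfnF N N fun w : Fin 4 → ZFSet.{0} => sn (fs (sn (w 0))) :=
    hN.sn' (hN.fs' (hN.sn' (DfnF.proj 0)))
  have e2 : DfnF N N fun w : Fin 4 → ZFSet.{0} => sn (sn (w 0)) :=
    hN.sn' (hN.sn' (DfnF.proj 0))
  have e3 : Dfn N N fun w : Fin 4 → ZFSet.{0} => fs (w 0) = nat 0 :=
    Dfn.eq (hN.fs' (DfnF.proj 0)) (DfnF.const h0)
  have e4 : Dfn N N fun w : Fin 4 → ZFSet.{0} => fs (fs (sn (w 0))) = nat 0 :=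
    Dfn.eq e0 (DfnF.const h0)
  unfold FR
  refine Dfn.and (e3.imp (Dfn.and (e4.imp ?_) (e4.not.imp ?_)))
    (e3.not.imp (Dfn.and (e4.imp ?_) (e4.not.imp ?_)))
  · exact Dfn.comp3 (Q := fun a b c => At2 (fun x z => pair (nat 3) (pair x z) ∈ a)
      (fun x z => pair (nat 0) (pair x z) ∈ a) b c) (dfn_At2 hN) (DfnF.proj 3) e1 e2
  · exact Dfn.comp3 (Q := fun a b c => Nt2 (fun x z => pair (nat 2) (pair x z) ∈ a)
      (fun x z => pair (nat 1) (pair x z) ∈ a) b c) (dfn_Nt2 hN) (DfnF.proj 3) e1 e2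
  · apply hB.bex (hch (hN.sn' (DfnF.proj 0)))
    exact Dfn.mem (hB.pair' (hB.sUnion' (hN.fs' (DfnF.proj 1))) (DfnF.proj 0)) (DfnF.proj 3)
  · apply Dfn.imp (Dfn.mem (DfnF.proj 1) (hch (hN.sn' (DfnF.proj 0))))
    exact Dfn.mem (hB.pair' (hB.sUnion' (hN.fs' (DfnF.proj 0))) (hB.pair'
      (hfl (hN.fs' (DfnF.proj 1))) (hN.sn' (DfnF.proj 1)))) (DfnF.proj 2)

theorem dfn_GR : Dfn N N fun w : Fin 3 → ZFSet.{0} => GR P Le B (w 0) (w 1) (w 2) := by
  have hB := hN.base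
  have p0 : DfnF N N fun w : Fin 3 → ZFSet.{0} => w 0 := DfnF.proj 0
  have p1 : DfnF N N fun w : Fin 3 → ZFSet.{0} => w 1 := DfnF.proj 1
  have p2 : DfnF N N fun w : Fin 3 → ZFSet.{0} => w 2 := DfnF.proj 2
  unfold GR
  refine Dfn.and (Dfn.and (Dfn.mem (hB.pair' (hN.fs' p2) (hN.fs' p0)) (DfnF.const hL))
    (Dfn.and ?_ ?_)) (Dfn.and ?_ (Dfn.and (Dfn.imp ?_ ?_) (Dfn.imp ?_ ?_)))
  · apply hB.ball (hN.fs' (hN.sn' p0))
    exact Dfn.mem (DfnF.proj 0) (hN.fs' (hN.sn' (DfnF.proj 3)))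
  · apply hB.ball (hN.sn' (hN.sn' p0))
    exact Dfn.mem (DfnF.proj 0) (hN.sn' (hN.sn' (DfnF.proj 3)))
  · exact Dfn.comp2 (Q := DR P Le) (dfn_DR hN hP hL) (hN.fs' p1) (hN.fs' p2)
  · exact Dfn.mem (hN.fs' (hN.fs' (hN.sn' p1))) (hN.fs' (hN.sn' p0))
  · exact Dfn.comp4 (Q := FR B) (dfn_FR hN hB') (hN.fs' (hN.fs' (hN.sn' p1)))
      (hN.sn' (hN.fs' (hN.sn' p1))) (hN.fs' (hN.sn' p2)) (hN.sn' (hN.sn' p2))
  · exact Dfn.mem (hN.fs' (hN.sn' (hN.sn' p1))) (hN.sn' (hN.sn' p0))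
  · exact Dfn.comp4 (Q := AR P Le) (dfn_AR hN hP hL) (hN.fs' (hN.sn' (hN.sn' p1)))
      (hN.sn' (hN.sn' (hN.sn' p1))) (hN.fs' p2) (hN.sn' (hN.sn' p2))

end

end Pool.Agent.R597
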