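import Pool.Agent.R597.Am4

/-!
# The true positions
-/

set_option autoImplicit false
set_option linter.unreachableTactic false
set_option linter.unusedTactic false
set_option linter.unusedSectionVars false
set_option linter.unusedVariables false

namespace Pool.Agent.R597

open Pool.Agent.W868 Pool.Agent.W868.GM Pool.Agent.Y588
open ZFSet (pair)

/-- The facts on formulas. -/
noncomputable def FF (B : ZFSet.{0}) : ZFSet.{0} :=
  ZFSet.prod ZFSet.omega (ZFSet.prod JJ (Sq B))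

/-- The facts on names. -/
noncomputable def AF (B : ZFSet.{0}) : ZFSet.{0} := ZFSet.prod (nat 4) (ZFSet.prod B B)

/-- The positions. -/
noncomputable def LL (N : Set ZFSet.{0}) (P B : ZFSet.{0}) : ZFSet.{0} :=
  ZFSet.prod P (ZFSet.prod (pwM N (FF B)) (pwM N (AF B)))

/-- The challenges. -/
noncomputable def CC (M B : ZFSet.{0}) : ZFSet.{0} :=
  ZFSet.prod (DefC M) (ZFSet.prod (ZFSet.prod (FF B) (ZFSet.prod JJ (Sq B)))
    (ZFSet.prod (AF B) M))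

theorem mem_nms {P X x : ZFSet.{0}} : x ∈ nms P X ↔ x ∈ X ∧ IsName P x := ZFSet.mem_sep

/-- The fact on a formula is true. -/
def TrF (M P G f : ZFSet.{0}) : Prop :=
  ∀ (m : ℕ) (u h : ZFSet.{0}), f = pair (nat m) (pair u h) → SM (Mext M P G) m u (evs G h)

/-- The fact on two names is true. -/
def TrA (G a : ZFSet.{0}) : Prop := ∀ σ τ,
  (a = pair (nat 0) (pair σ τ) → ev G σ = ev G τ) ∧
  (a = pair (nat 1) (pair σ τ) → ev G σ ≠ ev G τ) ∧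
  (a = pair (nat 2) (pair σ τ) → ev G σ ∉ ev G τ) ∧
  (a = pair (nat 3) (pair σ τ) → ev G σ ∈ ev G τ)

theorem name_elem {P M σ w : ZFSet.{0}} (hM : IsZF {x | x ∈ M}) (hσ : σ ∈ nms P M)
    (hw : w ∈ σ) : fs w ∈ nms P M ∧ sn w ∈ P ∧ pair (fs w) (sn w) = w := by
  obtain ⟨h1, h2⟩ := mem_nms.1 hσ
  cases h2 with
  | mk _ h3 h4 =>
    obtain ⟨y, p, hp, rfl⟩ := h3 w hw
    rw [fs_pair, sn_pair]
    exact ⟨mem_nms.2 ⟨(hM.of_pair_mem (hM.trans _ h1 _ hw)).1, h4 _ _ hw⟩, hp, rfl⟩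

section

variable {M P Le : ZFSet.{0}} (hM : IsZF {x | x ∈ M}) (hC : IsClassForcing (DefC M) P Le)

include hC

theorem P_sub : ∀ p ∈ P, p ∈ M := fun p hp => (mem_DefC.1 hC.mem).1 hp

theorem dfn_Pc : Dfn {x | x ∈ M} {x | x ∈ M} fun w : Fin 1 → ZFSet.{0} => w 0 ∈ P := by
  obtain ⟨-, φ, h1, h2⟩ := mem_DefC.1 hC.mem
  refine ⟨φ, h1, fun v hv => ?_⟩
  have h3 := h2 (v 0) (hv 0)
  rw [← vec1] at h3
  exact h3.symm

theorem dfn_Lec : Dfn {x | x ∈ M} {x | x ∈ M} fun w : Fin 1 → ZFSet.{0} => w 0 ∈ Le := by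
  obtain ⟨-, φ, h1, h2⟩ := mem_DefC.1 hC.le_mem
  refine ⟨φ, h1, fun v hv => ?_⟩
  have h3 := h2 (v 0) (hv 0)
  rw [← vec1] at h3
  exact h3.symm

theorem Pp_mono {r r' q : ZFSet.{0}} (hr : r ∈ P) (hr' : r' ∈ P) (hq : q ∈ P)
    (h : pair r' r ∈ Le) (h1 : Pp P Le r q) : Pp P Le r' q := by
  rintro ⟨z, hz, h2, h3⟩
  exact h1 ⟨z, hz, hC.trans r hr r' hr' z hz h2 h, h3⟩

include hM

theorem dfn_Ppc {q : ZFSet.{0}} (hq : q ∈ M) :
    Dfn {x | x ∈ M} {x | x ∈ M} fun w : Fin 1 → ZFSet.{0} => Pp P Le (w 0) q := by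
  have hB := hM.base
  have hd : Dfn {x | x ∈ M} {x | x ∈ M} fun w : Fin 1 → ZFSet.{0} =>
      ¬ ∃ z ∈ {x | x ∈ M}, z ∈ P ∧ pair z (w 0) ∈ Le ∧ pair z q ∈ Le := by
    apply Dfn.not
    apply Dfn.ex
    refine Dfn.and ?_ (Dfn.and ?_ ?_)
    · exact Dfn.comp1 (Q := fun a => a ∈ P) (dfn_Pc hC) (DfnF.proj 0)
    · exact Dfn.comp1 (Q := fun a => a ∈ Le) (dfn_Lec hC) (hB.pair' (DfnF.proj 0)
        (DfnF.proj 1))
    · exact Dfn.comp1 (Q := fun a => a ∈ Le) (dfn_Lec hC) (hB.pair' (DfnF.proj 0)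
        (DfnF.const hq))
  refine hd.congr fun v _ => not_congr ⟨?_, ?_⟩
  · rintro ⟨z, -, hz, h⟩
    exact ⟨z, hz, h⟩
  · rintro ⟨z, hz, h⟩
    exact ⟨z, P_sub hC z hz, hz, h⟩

variable {G : ZFSet.{0}} (hG : IsGen (DefC M) P Le G)

include hG

theorem exists_perp {q : ZFSet.{0}} (hq : q ∈ P) (hqG : q ∉ G) : ∃ r ∈ G, Pp P Le r q := by
  have hB := hM.base
  have hqM := P_sub hC q hq
  have hd : Dfn {x | x ∈ M} {x | x ∈ M} fun w : Fin 1 → ZFSet.{0} =>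
      w 0 ∈ P ∧ (pair (w 0) q ∈ Le ∨ Pp P Le (w 0) q) := by
    refine Dfn.and (dfn_Pc hC) (Dfn.or ?_ (dfn_Ppc hM hC hqM))
    exact Dfn.comp1 (Q := fun a => a ∈ Le) (dfn_Lec hC) (hB.pair' (DfnF.proj 0)
      (DfnF.const hqM))
  obtain ⟨r, hr, hrG⟩ := hG.meet _ (defC_of (Q := fun z => z ∈ P ∧
    (pair z q ∈ Le ∨ Pp P Le z q)) hd) (fun z hz => (ZFSet.mem_sep.1 hz).2.1) (fun p hp => by
      by_cases h : Pp P Le p q
      · exact ⟨p, ZFSet.mem_sep.2 ⟨P_sub hC p hp, hp, Or.inr h⟩, hC.refl p hp⟩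
      · obtain ⟨z, hz, h1, h2⟩ := not_not.1 h
        exact ⟨z, ZFSet.mem_sep.2 ⟨P_sub hC z hz, hz, Or.inl h2⟩, h1⟩)
  obtain ⟨-, -, h | h⟩ := ZFSet.mem_sep.1 hr
  · exact absurd (hG.up r hrG q hq h) hqG
  · exact ⟨r, hrG, h⟩

end

/-! ### Positions -/

/-- The position is true. -/
structure Tp (N : Set ZFSet.{0}) (M P G r s t : ZFSet.{0}) : Prop where
  r : r ∈ G
  sN : s ∈ N
  sF : s ⊆ FF (nms P M)
  sT : ∀ f ∈ s, TrF M P G f
  tN : t ∈ N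
  tF : t ⊆ AF (nms P M)
  tT : ∀ a ∈ t, TrA G a

/-- The second position is an extension of the first one. -/
structure Ex (P Le r s t r' s' t' : ZFSet.{0}) : Prop where
  rP : r ∈ P
  rP' : r' ∈ P
  le : pair r' r ∈ Le
  hs : ∀ z ∈ s, z ∈ s'
  ht : ∀ z ∈ t, z ∈ t'

/-- The property is preserved by extensions. -/
def Mon (P Le : ZFSet.{0}) (Φ : ZFSet.{0} → ZFSet.{0} → ZFSet.{0} → Prop) : Prop :=
  ∀ r s t r' s' t', Ex P Le r s t r' s' t' → Φ r s t → Φ r' s' t'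

/-- Every true position has a true extension with the property. -/
def Ach (N : Set ZFSet.{0}) (M P Le G : ZFSet.{0})
    (Φ : ZFSet.{0} → ZFSet.{0} → ZFSet.{0} → Prop) : Prop :=
  ∀ r s t, Tp N M P G r s t → ∃ r' s' t', Tp N M P G r' s' t' ∧ Ex P Le r s t r' s' t' ∧
    Φ r' s' t'

section

variable {N : Set ZFSet.{0}} (hN : IsZF N) {M P Le : ZFSet.{0}} (hMN : M ∈ N)
  (hM : IsZF {x | x ∈ M}) (hC : IsClassForcing (DefC M) P Le) {G : ZFSet.{0}}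
  (hG : IsGen (DefC M) P Le G)
  {Φ Ψ : ZFSet.{0} → ZFSet.{0} → ZFSet.{0} → Prop}

theorem Mon.and (h : Mon P Le Φ) (h' : Mon P Le Ψ) :
    Mon P Le fun r s t => Φ r s t ∧ Ψ r s t :=
  fun r s t r' s' t' he h1 => ⟨h _ _ _ _ _ _ he h1.1, h' _ _ _ _ _ _ he h1.2⟩

theorem Mon.or (h : Mon P Le Φ) (h' : Mon P Le Ψ) :
    Mon P Le fun r s t => Φ r s t ∨ Ψ r s t :=
  fun r s t r' s' t' he h1 => h1.imp (h _ _ _ _ _ _ he) (h' _ _ _ _ _ _ he)

theorem Mon.imp {A : Prop} (h : A → Mon P Le Φ) : Mon P Le fun r s t => A → Φ r s t :=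
  fun r s t r' s' t' he h1 ha => h ha _ _ _ _ _ _ he (h1 ha)

theorem Mon.ex {Θ : ZFSet.{0} → ZFSet.{0} → ZFSet.{0} → ZFSet.{0} → Prop}
    (h : ∀ a, Mon P Le (Θ a)) : Mon P Le fun r s t => ∃ a, Θ a r s t :=
  fun r s t r' s' t' he ⟨a, h1⟩ => ⟨a, h a _ _ _ _ _ _ he h1⟩

theorem Mon.all {Θ : ZFSet.{0} → ZFSet.{0} → ZFSet.{0} → ZFSet.{0} → Prop}
    (h : ∀ a, Mon P Le (Θ a)) : Mon P Le fun r s t => ∀ a, Θ a r s t :=
  fun r s t r' s' t' he h1 a => h a _ _ _ _ _ _ he (h1 a)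

theorem Mon.const (A : Prop) : Mon P Le fun _ _ _ => A := fun _ _ _ _ _ _ _ h => h

theorem Mon.s {f : ZFSet.{0}} : Mon P Le fun _ s _ => f ∈ s := fun _ _ _ _ _ _ he h => he.hs _ h

theorem Mon.t {f : ZFSet.{0}} : Mon P Le fun _ _ t => f ∈ t := fun _ _ _ _ _ _ he h => he.ht _ h

include hC

theorem Mon.le {q : ZFSet.{0}} : Mon P Le fun r _ _ => pair r q ∈ Le := by
  intro r s t r' s' t' he h
  have hq := (ZFSet.pair_mem_prod.1 (hC.le_sub h)).2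
  exact hC.trans q hq r he.rP r' he.rP' he.le h

theorem Mon.perp {q : ZFSet.{0}} (hq : q ∈ P) : Mon P Le fun r _ _ => Pp P Le r q :=
  fun r s t r' s' t' he h => Pp_mono hC he.rP he.rP' hq he.le h

theorem Ex.trans {r s t r' s' t' r'' s'' t'' : ZFSet.{0}} (h : Ex P Le r s t r' s' t')
    (h' : Ex P Le r' s' t' r'' s'' t'') : Ex P Le r s t r'' s'' t'' :=
  ⟨h.rP, h'.rP', hC.trans r h.rP r' h.rP' r'' h'.rP' h'.le h.le,
    fun z hz => h'.hs z (h.hs z hz), fun z hz => h'.ht z (h.ht z hz)⟩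

include hG

theorem Tp.refl {r s t : ZFSet.{0}} (h : Tp N M P G r s t) : Ex P Le r s t r s t :=
  ⟨hG.sub h.r, hG.sub h.r, hC.refl _ (hG.sub h.r), fun _ h => h, fun _ h => h⟩

theorem Ach.triv (h : ∀ r s t, Φ r s t) : Ach N M P Le G Φ :=
  fun r s t ht => ⟨r, s, t, ht, ht.refl hC hG, h r s t⟩

theorem Ach.imp {A : Prop} (h : A → Ach N M P Le G Φ) :
    Ach N M P Le G fun r s t => A → Φ r s t := by
  by_cases ha : A
  · intro r s t ht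
    obtain ⟨r', s', t', h1, h2, h3⟩ := h ha r s t ht
    exact ⟨r', s', t', h1, h2, fun _ => h3⟩
  · exact Ach.triv hC hG fun _ _ _ h => absurd h ha

omit hG in
theorem Ach.and (h : Ach N M P Le G Φ) (hm : Mon P Le Φ) (h' : Ach N M P Le G Ψ) :
    Ach N M P Le G fun r s t => Φ r s t ∧ Ψ r s t := by
  intro r s t ht
  obtain ⟨r', s', t', h1, h2, h3⟩ := h r s t ht
  obtain ⟨r'', s'', t'', h4, h5, h6⟩ := h' r' s' t' h1
  exact ⟨r'', s'', t'', h4, h2.trans hC h5, hm _ _ _ _ _ _ h5 h3, h6⟩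

omit hC hG in
theorem Ach.of (h : Ach N M P Le G Φ) (h' : ∀ r s t, Φ r s t → Ψ r s t) :
    Ach N M P Le G Ψ := by
  intro r s t ht
  obtain ⟨r', s', t', h1, h2, h3⟩ := h r s t ht
  exact ⟨r', s', t', h1, h2, h' _ _ _ h3⟩

theorem Ach.le {q : ZFSet.{0}} (hq : q ∈ G) : Ach N M P Le G fun r _ _ => pair r q ∈ Le := by
  intro r s t ht
  obtain ⟨r', hr', h1, h2⟩ := hG.dir r ht.r q hq
  exact ⟨r', s, t, ⟨hr', ht.sN, ht.sF, ht.sT, ht.tN, ht.tF, ht.tT⟩, ⟨hG.sub ht.r, hG.sub hr', h1,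
    fun _ h => h, fun _ h => h⟩, h2⟩

include hM in
theorem Ach.perp {q : ZFSet.{0}} (hq : q ∈ P) (hqG : q ∉ G) :
    Ach N M P Le G fun r _ _ => Pp P Le r q := by
  obtain ⟨r₀, hr₀, h0⟩ := exists_perp hM hC hG hq hqG
  exact (Ach.le hC hG hr₀).of fun r s t h => by
    have h1 := ZFSet.pair_mem_prod.1 (hC.le_sub h)
    exact Pp_mono hC h1.2 h1.1 hq h h0

include hN

theorem Ach.f {f : ZFSet.{0}} (hfN : f ∈ N) (hf : f ∈ FF (nms P M)) (h : TrF M P G f) :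
    Ach N M P Le G fun _ s _ => f ∈ s := by
  intro r s t ht
  refine ⟨r, insert f s, t, ⟨ht.r, hN.insert_mem hfN ht.sN, fun z hz => ?_, fun z hz => ?_,
    ht.tN, ht.tF, ht.tT⟩, ⟨hG.sub ht.r, hG.sub ht.r, hC.refl _ (hG.sub ht.r),
      fun _ h => ZFSet.mem_insert_of_mem _ h, fun _ h => h⟩, ZFSet.mem_insert _ _⟩
  · rcases ZFSet.mem_insert_iff.1 hz with rfl | hz
    · exact hf
    · exact ht.sF hz
  · rcases ZFSet.mem_insert_iff.1 hz with rfl | hz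
    · exact h
    · exact ht.sT z hz

theorem Ach.a {a : ZFSet.{0}} (haN : a ∈ N) (ha : a ∈ AF (nms P M)) (h : TrA G a) :
    Ach N M P Le G fun _ _ t => a ∈ t := by
  intro r s t ht
  refine ⟨r, s, insert a t, ⟨ht.r, ht.sN, ht.sF, ht.sT, hN.insert_mem haN ht.tN,
    fun z hz => ?_, fun z hz => ?_⟩, ⟨hG.sub ht.r, hG.sub ht.r, hC.refl _ (hG.sub ht.r),
      fun _ h => h, fun _ h => ZFSet.mem_insert_of_mem _ h⟩, ZFSet.mem_insert _ _⟩
  · rcases ZFSet.mem_insert_iff.1 hz with rfl | hz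
    · exact ha
    · exact ht.tF hz
  · rcases ZFSet.mem_insert_iff.1 hz with rfl | hz
    · exact h
    · exact ht.tT z hz

end

end Pool.Agent.R597
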