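import Pool.Agent.R597.Am5

/-!
# There are answers to all challenges at the true positions
-/

set_option autoImplicit false
set_option linter.unreachableTactic false
set_option linter.unusedTactic false
set_option linter.unusedSectionVars false
set_option linter.unusedVariables false

namespace Pool.Agent.R597

open Pool.Agent.W868 Pool.Agent.W868.GM Pool.Agent.Y588
open ZFSet (pair)

theorem trF_mk {M P G u h : ZFSet.{0}} {m : ℕ} (h1 : SM (Mext M P G) m u (evs G h)) :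
    TrF M P G (pair (nat m) (pair u h)) := by
  intro m' u' h' e
  obtain ⟨e1, e2⟩ := ZFSet.pair_inj.1 e
  obtain ⟨rfl, rfl⟩ := ZFSet.pair_inj.1 e2
  obtain rfl := nat_injective e1
  exact h1

theorem trA_mk {G σ τ : ZFSet.{0}} {k : ℕ}
    (h : (k = 0 → ev G σ = ev G τ) ∧ (k = 1 → ev G σ ≠ ev G τ) ∧ (k = 2 → ev G σ ∉ ev G τ) ∧
      (k = 3 → ev G σ ∈ ev G τ)) : TrA G (pair (nat k) (pair σ τ)) := by
  intro σ' τ'
  have key : ∀ {j : ℕ}, pair (nat k) (pair σ τ) = pair (nat j) (pair σ' τ') →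
      k = j ∧ σ = σ' ∧ τ = τ' := by
    intro j e
    obtain ⟨e1, e2⟩ := ZFSet.pair_inj.1 e
    exact ⟨nat_injective e1, ZFSet.pair_inj.1 e2⟩
  refine ⟨fun e => ?_, fun e => ?_, fun e => ?_, fun e => ?_⟩ <;>
    obtain ⟨hk, rfl, rfl⟩ := key e
  · exact h.1 hk
  · exact h.2.1 hk
  · exact h.2.2.1 hk
  · exact h.2.2.2 hk

section

variable {N : Set ZFSet.{0}} (hN : IsZF N) {M P Le : ZFSet.{0}} (hMN : M ∈ N)
  (hM : IsZF {x | x ∈ M}) (hC : IsClassForcing (DefC M) P Le)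

include hN hMN hM hC

theorem P_mem : P ∈ N := hN.trans _ (defC_mem hN hMN hM) _ hC.mem

theorem Le_mem : Le ∈ N := hN.trans _ (defC_mem hN hMN hM) _ hC.le_mem

theorem nms_mem : nms P M ∈ N :=
  hN.sep_mem (Q := fun x => IsName P x) (dfn_isName hN (P_mem hN hMN hM hC)) hMN

theorem FF_mem : FF (nms P M) ∈ N :=
  hN.prod_mem hN.infinity (hN.prod_mem (JJ_mem hN) (Sq_mem hN (nms_mem hN hMN hM hC)))

theorem AF_mem : AF (nms P M) ∈ N :=
  hN.prod_mem (hN.nat_mem 4) (hN.prod_mem (nms_mem hN hMN hM hC) (nms_mem hN hMN hM hC))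

theorem LL_mem : LL N P (nms P M) ∈ N :=
  hN.prod_mem (P_mem hN hMN hM hC) (hN.prod_mem (pwM_mem hN (FF_mem hN hMN hM hC))
    (pwM_mem hN (AF_mem hN hMN hM hC)))

theorem CC_mem : CC M (nms P M) ∈ N :=
  hN.prod_mem (defC_mem hN hMN hM) (hN.prod_mem (hN.prod_mem (FF_mem hN hMN hM hC)
    (hN.prod_mem (JJ_mem hN) (Sq_mem hN (nms_mem hN hMN hM hC))))
    (hN.prod_mem (AF_mem hN hMN hM hC) hMN))

variable {G : ZFSet.{0}} (hG : IsGen (DefC M) P Le G)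

include hG

/-- Adding a fact on two names. -/
theorem ach_pair {k : ℕ} (hk : k < 4) {σ τ : ZFSet.{0}} (hσ : σ ∈ nms P M) (hτ : τ ∈ nms P M)
    (h : (k = 0 → ev G σ = ev G τ) ∧ (k = 1 → ev G σ ≠ ev G τ) ∧ (k = 2 → ev G σ ∉ ev G τ) ∧
      (k = 3 → ev G σ ∈ ev G τ)) :
    Ach N M P Le G fun _ _ t => pair (nat k) (pair σ τ) ∈ t := by
  have h1 : pair (nat k) (pair σ τ) ∈ AF (nms P M) := ZFSet.pair_mem_prod.2
    ⟨mem_nat_iff'.2 ⟨k, hk, rfl⟩, ZFSet.pair_mem_prod.2 ⟨hσ, hτ⟩⟩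
  exact Ach.a hN hC hG (hN.trans _ (AF_mem hN hMN hM hC) _ h1) h1 (trA_mk h)

theorem ach_eq {σ τ : ZFSet.{0}} (hσ : σ ∈ nms P M) (hτ : τ ∈ nms P M)
    (h : ev G σ = ev G τ) : Ach N M P Le G fun _ _ t => pair (nat 0) (pair σ τ) ∈ t :=
  ach_pair hN hMN hM hC hG (by omega) hσ hτ ⟨fun _ => h, fun h => by omega, fun h => by omega,
    fun h => by omega⟩

theorem ach_ne {σ τ : ZFSet.{0}} (hσ : σ ∈ nms P M) (hτ : τ ∈ nms P M)
    (h : ev G σ ≠ ev G τ) : Ach N M P Le G fun _ _ t => pair (nat 1) (pair σ τ) ∈ t :=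
  ach_pair hN hMN hM hC hG (by omega) hσ hτ ⟨fun h => by omega, fun _ => h, fun h => by omega,
    fun h => by omega⟩

theorem ach_nm {σ τ : ZFSet.{0}} (hσ : σ ∈ nms P M) (hτ : τ ∈ nms P M)
    (h : ev G σ ∉ ev G τ) : Ach N M P Le G fun _ _ t => pair (nat 2) (pair σ τ) ∈ t :=
  ach_pair hN hMN hM hC hG (by omega) hσ hτ ⟨fun h => by omega, fun h => by omega, fun _ => h,
    fun h => by omega⟩

theorem ach_mem {σ τ : ZFSet.{0}} (hσ : σ ∈ nms P M) (hτ : τ ∈ nms P M)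
    (h : ev G σ ∈ ev G τ) : Ach N M P Le G fun _ _ t => pair (nat 3) (pair σ τ) ∈ t :=
  ach_pair hN hMN hM hC hG (by omega) hσ hτ ⟨fun h => by omega, fun h => by omega,
    fun h => by omega, fun _ => h⟩

theorem ach_AR {a w : ZFSet.{0}} (ha : a ∈ AF (nms P M)) (hT : TrA G a) :
    (Ach N M P Le G fun r _ t => AR P Le a w r t) ∧ Mon P Le fun r _ t => AR P Le a w r t := by
  obtain ⟨k, hk, y, hy, rfl⟩ := ZFSet.mem_prod.1 ha
  obtain ⟨σ, hσ, τ, hτ, rfl⟩ := ZFSet.mem_prod.1 hy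
  have hw1 : w ∈ σ → fs w ∈ nms P M ∧ sn w ∈ P ∧ pair (fs w) (sn w) = w := name_elem hM hσ
  have hw2 : w ∈ τ → fs w ∈ nms P M ∧ sn w ∈ P ∧ pair (fs w) (sn w) = w := name_elem hM hτ
  -- the clauses
  have m0 : Mon P Le fun r _ t => k = nat 0 → w ∈ σ → Pp P Le r (sn w) ∨
      ∃ w' ∈ τ, pair r (sn w') ∈ Le ∧ pair (nat 0) (pair (fs w) (fs w')) ∈ t :=
    Mon.imp fun _ => Mon.imp fun h => Mon.or (Mon.perp hC (hw1 h).2.1)
      (Mon.ex fun _ => (Mon.const _).and ((Mon.le hC).and Mon.t))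
  have m1 : Mon P Le fun r _ t => k = nat 0 → w ∈ τ → Pp P Le r (sn w) ∨
      ∃ w' ∈ σ, pair r (sn w') ∈ Le ∧ pair (nat 0) (pair (fs w') (fs w)) ∈ t :=
    Mon.imp fun _ => Mon.imp fun h => Mon.or (Mon.perp hC (hw2 h).2.1)
      (Mon.ex fun _ => (Mon.const _).and ((Mon.le hC).and Mon.t))
  have m2 : Mon P Le fun r _ t => k = nat 1 → (∃ w' ∈ σ, pair r (sn w') ∈ Le ∧
      pair (nat 2) (pair (fs w') τ) ∈ t) ∨
      ∃ w' ∈ τ, pair r (sn w') ∈ Le ∧ pair (nat 2) (pair (fs w') σ) ∈ t :=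
    Mon.imp fun _ => Mon.or (Mon.ex fun _ => (Mon.const _).and ((Mon.le hC).and Mon.t))
      (Mon.ex fun _ => (Mon.const _).and ((Mon.le hC).and Mon.t))
  have m3 : Mon P Le fun r _ t => k = nat 2 → w ∈ τ → Pp P Le r (sn w) ∨
      pair (nat 1) (pair σ (fs w)) ∈ t :=
    Mon.imp fun _ => Mon.imp fun h => Mon.or (Mon.perp hC (hw2 h).2.1) Mon.t
  have m4 : Mon P Le fun r _ t => k = nat 3 → ∃ w' ∈ τ, pair r (sn w') ∈ Le ∧
      pair (nat 0) (pair σ (fs w')) ∈ t :=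
    Mon.imp fun _ => Mon.ex fun _ => (Mon.const _).and ((Mon.le hC).and Mon.t)
  have a0 : Ach N M P Le G fun r _ t => k = nat 0 → w ∈ σ → Pp P Le r (sn w) ∨
      ∃ w' ∈ τ, pair r (sn w') ∈ Le ∧ pair (nat 0) (pair (fs w) (fs w')) ∈ t := by
    refine Ach.imp hC hG fun hk => Ach.imp hC hG fun hw => ?_
    subst hk
    have h1 := (hT σ τ).1 rfl
    obtain ⟨h2, h3, h4⟩ := hw1 hw
    by_cases hq : sn w ∈ G
    · have h5 : ev G (fs w) ∈ ev G τ := by
        rw [← h1, mem_ev]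
        exact ⟨fs w, sn w, by rw [h4]; exact hw, hq, rfl⟩
      obtain ⟨y, p, h6, h7, h8⟩ := mem_ev.1 h5
      have h9 := name_elem hM hτ h6
      rw [fs_pair] at h9
      refine ((Ach.le hC hG h7).and hC (Mon.le hC)
        (ach_eq hN hMN hM hC hG h2 h9.1 h8.symm)).of fun r s t h => Or.inr
          ⟨pair y p, h6, ?_, ?_⟩
      · rw [sn_pair]
        exact h.1
      · rw [fs_pair]
        exact h.2
    · exact (Ach.perp hM hC hG h3 hq).of fun r s t h => Or.inl h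
  have a1 : Ach N M P Le G fun r _ t => k = nat 0 → w ∈ τ → Pp P Le r (sn w) ∨
      ∃ w' ∈ σ, pair r (sn w') ∈ Le ∧ pair (nat 0) (pair (fs w') (fs w)) ∈ t := by
    refine Ach.imp hC hG fun hk => Ach.imp hC hG fun hw => ?_
    subst hk
    have h1 := (hT σ τ).1 rfl
    obtain ⟨h2, h3, h4⟩ := hw2 hw
    by_cases hq : sn w ∈ G
    · have h5 : ev G (fs w) ∈ ev G σ := by
        rw [h1, mem_ev]
        exact ⟨fs w, sn w, by rw [h4]; exact hw, hq, rfl⟩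
      obtain ⟨y, p, h6, h7, h8⟩ := mem_ev.1 h5
      have h9 := name_elem hM hσ h6
      rw [fs_pair] at h9
      refine ((Ach.le hC hG h7).and hC (Mon.le hC)
        (ach_eq hN hMN hM hC hG h9.1 h2 h8)).of fun r s t h => Or.inr
          ⟨pair y p, h6, ?_, ?_⟩
      · rw [sn_pair]
        exact h.1
      · rw [fs_pair]
        exact h.2
    · exact (Ach.perp hM hC hG h3 hq).of fun r s t h => Or.inl h
  have aux : ∀ {σ τ : ZFSet.{0}}, σ ∈ nms P M → τ ∈ nms P M → ∀ z, z ∈ ev G σ → z ∉ ev G τ →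
      Ach N M P Le G fun r _ t => ∃ w' ∈ σ, pair r (sn w') ∈ Le ∧
        pair (nat 2) (pair (fs w') τ) ∈ t := by
    intro σ τ hσ hτ z hz hz'
    obtain ⟨y, p, h6, h7, rfl⟩ := mem_ev.1 hz
    have h9 := name_elem hM hσ h6
    rw [fs_pair] at h9
    refine ((Ach.le hC hG h7).and hC (Mon.le hC)
      (ach_nm hN hMN hM hC hG h9.1 hτ hz')).of fun r s t h => ⟨pair y p, h6, ?_, ?_⟩
    · rw [sn_pair]
      exact h.1
    · rw [fs_pair]
      exact h.2
  have a2 : Ach N M P Le G fun r _ t => k = nat 1 → (∃ w' ∈ σ, pair r (sn w') ∈ Le ∧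
      pair (nat 2) (pair (fs w') τ) ∈ t) ∨
      ∃ w' ∈ τ, pair r (sn w') ∈ Le ∧ pair (nat 2) (pair (fs w') σ) ∈ t := by
    refine Ach.imp hC hG fun hk => ?_
    subst hk
    have h1 := (hT σ τ).2.1 rfl
    by_cases h2 : ∃ z ∈ ev G σ, z ∉ ev G τ
    · obtain ⟨z, hz, hz'⟩ := h2
      exact (aux hσ hτ z hz hz').of fun r s t h => Or.inl h
    · have h3 : ∃ z ∈ ev G τ, z ∉ ev G σ := by
        by_contra h3
        push Not at h2 h3
        exact h1 (ZFSet.ext fun z => ⟨h2 z, h3 z⟩)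
      obtain ⟨z, hz, hz'⟩ := h3
      exact (aux hτ hσ z hz hz').of fun r s t h => Or.inr h
  have a3 : Ach N M P Le G fun r _ t => k = nat 2 → w ∈ τ → Pp P Le r (sn w) ∨
      pair (nat 1) (pair σ (fs w)) ∈ t := by
    refine Ach.imp hC hG fun hk => Ach.imp hC hG fun hw => ?_
    subst hk
    have h1 := (hT σ τ).2.2.1 rfl
    obtain ⟨h2, h3, h4⟩ := hw2 hw
    by_cases hq : sn w ∈ G
    · have h5 : ev G (fs w) ∈ ev G τ := by
        rw [mem_ev]
        exact ⟨fs w, sn w, by rw [h4]; exact hw, hq, rfl⟩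
      refine (ach_ne hN hMN hM hC hG hσ h2 fun h => h1 ?_).of fun r s t h => Or.inr h
      rw [h]
      exact h5
    · exact (Ach.perp hM hC hG h3 hq).of fun r s t h => Or.inl h
  have a4 : Ach N M P Le G fun r _ t => k = nat 3 → ∃ w' ∈ τ, pair r (sn w') ∈ Le ∧
      pair (nat 0) (pair σ (fs w')) ∈ t := by
    refine Ach.imp hC hG fun hk => ?_
    subst hk
    have h1 := (hT σ τ).2.2.2 rfl
    obtain ⟨y, p, h6, h7, h8⟩ := mem_ev.1 h1
    have h9 := name_elem hM hτ h6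
    rw [fs_pair] at h9
    refine ((Ach.le hC hG h7).and hC (Mon.le hC)
      (ach_eq hN hMN hM hC hG hσ h9.1 h8.symm)).of fun r s t h => ⟨pair y p, h6, ?_, ?_⟩
    · rw [sn_pair]
      exact h.1
    · rw [fs_pair]
      exact h.2
  simp only [AR, fs_pair, sn_pair]
  exact ⟨(a0.and hC m0 a1).and hC (m0.and m1) (a2.and hC m2 (a3.and hC m3 a4)),
    (m0.and m1).and (m2.and (m3.and m4))⟩

theorem mext_iff (x : ZFSet.{0}) : x ∈ Mext M P G ↔ ∃ σ ∈ nms P M, x = ev G σ := by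
  constructor
  · rintro ⟨σ, h1, h2, rfl⟩
    exact ⟨σ, mem_nms.2 ⟨h1, h2⟩, rfl⟩
  · rintro ⟨σ, h1, rfl⟩
    exact ⟨σ, (mem_nms.1 h1).1, (mem_nms.1 h1).2, rfl⟩

/-- Adding a fact on a formula. -/
theorem ach_SM {m : ℕ} {u h : ZFSet.{0}} (hu : u ∈ JJ) (hh : h ∈ Sq (nms P M))
    (h1 : SM (Mext M P G) m u (evs G h)) :
    Ach N M P Le G fun _ s _ => pair (nat m) (pair u h) ∈ s := by
  have h2 : pair (nat m) (pair u h) ∈ FF (nms P M) := ZFSet.pair_mem_prod.2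
    ⟨nat_mem_omega m, ZFSet.pair_mem_prod.2 ⟨hu, hh⟩⟩
  exact Ach.f hN hC hG (hN.trans _ (FF_mem hN hMN hM hC) _ h2) h2 (trF_mk h1)

theorem ach_FR {f y : ZFSet.{0}} (hf : f ∈ FF (nms P M)) (hT : TrF M P G f) :
    Ach N M P Le G fun _ s t => FR (nms P M) f y s t := by
  obtain ⟨z, hz, y', hy', rfl⟩ := ZFSet.mem_prod.1 hf
  obtain ⟨u, hu, h, hh, rfl⟩ := ZFSet.mem_prod.1 hy'
  obtain ⟨m, rfl⟩ := mem_omega_iff.1 hz
  have h1 := hT m u h rfl
  simp only [FR, fs_pair, sn_pair]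
  cases m with
  | zero =>
    refine Ach.of (Φ := fun _ _ t => (fs u = nat 0 → At2 (fun x z => pair (nat 3) (pair x z) ∈ t)
      (fun x z => pair (nat 0) (pair x z) ∈ t) (sn u) h) ∧ (fs u ≠ nat 0 →
        Nt2 (fun x z => pair (nat 2) (pair x z) ∈ t)
      (fun x z => pair (nat 1) (pair x z) ∈ t) (sn u) h)) ?_
      fun r s t h => ⟨fun _ => h, fun h' => absurd rfl h'⟩
    obtain ⟨g, k, hg, rfl⟩ := exists_seq hh
    rw [evs_seq] at h1
    simp only [SM] at h1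
    by_cases hsg : fs u = nat 0
    · refine Ach.of (Φ := fun _ _ t => At2 (fun x z => pair (nat 3) (pair x z) ∈ t)
        (fun x z => pair (nat 0) (pair x z) ∈ t) (sn u) (seq g k)) ?_
        fun r s t h => ⟨fun _ => h, fun h' => absurd hsg h'⟩
      rcases atR_gen.1 (h1.1 hsg) with ⟨h2, i, hi, j, hj, h3, h4, h5⟩ |
        ⟨h2, i, hi, j, hj, h3, h4, h5⟩
      · exact (ach_mem hN hMN hM hC hG (hg i hi) (hg j hj) h5).of fun r s t h =>
          at2_gen.2 (Or.inl ⟨h2, i, hi, j, hj, h3, h4, h⟩)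
      · exact (ach_eq hN hMN hM hC hG (hg i hi) (hg j hj) h5).of fun r s t h =>
          at2_gen.2 (Or.inr ⟨h2, i, hi, j, hj, h3, h4, h⟩)
    · refine Ach.of (Φ := fun _ _ t => Nt2 (fun x z => pair (nat 2) (pair x z) ∈ t)
        (fun x z => pair (nat 1) (pair x z) ∈ t) (sn u) (seq g k)) ?_
        fun r s t h => ⟨fun h' => absurd h' hsg, fun _ => h⟩
      have h2 : ¬ AtR (fun x y => x ∈ y) (sn u) (seq (fun i => ev G (g i)) k) :=
        fun h => hsg (h1.2 h)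
      by_cases hex : ∃ i < k, ∃ j < k, nat i = fs (sn (sn u)) ∧ nat j = sn (sn (sn u))
      · obtain ⟨i, hi, j, hj, h3, h4⟩ := hex
        by_cases h5 : fs (sn u) = nat 0
        · refine (ach_nm hN hMN hM hC hG (hg i hi) (hg j hj) fun h6 => h2
            (atR_gen.2 (Or.inl ⟨h5, i, hi, j, hj, h3, h4, h6⟩))).of fun r s t h =>
            nt2_gen.2 fun i' hi' j' hj' h7 h8 => ⟨fun _ => ?_, fun h9 => absurd h5 h9⟩
          obtain rfl := nat_injective (h3.trans h7.symm)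
          obtain rfl := nat_injective (h4.trans h8.symm)
          exact h
        · refine (ach_ne hN hMN hM hC hG (hg i hi) (hg j hj) fun h6 => h2
            (atR_gen.2 (Or.inr ⟨h5, i, hi, j, hj, h3, h4, h6⟩))).of fun r s t h =>
            nt2_gen.2 fun i' hi' j' hj' h7 h8 => ⟨fun h9 => absurd h9 h5, fun _ => ?_⟩
          obtain rfl := nat_injective (h3.trans h7.symm)
          obtain rfl := nat_injective (h4.trans h8.symm)
          exact h
      · exact Ach.triv hC hG fun r s t => nt2_gen.2 fun i hi j hj h3 h4 =>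
          absurd ⟨i, hi, j, hj, h3, h4⟩ hex
  | succ m =>
    rw [sUnion_nat_succ]
    have h2 := (SM_chB (mext_iff hN hMN hM hC hG)).1 h1
    refine Ach.of (Φ := fun _ s _ => (fs u = nat 0 → ∃ y' ∈ chB (nms P M) (pair u h),
      pair (nat m) y' ∈ s) ∧ (fs u ≠ nat 0 → y ∈ chB (nms P M) (pair u h) →
        pair (nat m) (pair (fl (fs y)) (sn y)) ∈ s)) ?_
      fun r s t h => ⟨fun h' => absurd h' (nat_succ_ne m), fun _ => h⟩
    by_cases hsg : fs u = nat 0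
    · obtain ⟨y', hy', h3⟩ := h2.1 hsg
      obtain ⟨h4, h5, h6⟩ := chB_mem hu hh y' hy'
      refine (ach_SM hN hMN hM hC hG h4 h5 h3).of fun r s t h =>
        ⟨fun _ => ⟨y', hy', ?_⟩, fun h' => absurd hsg h'⟩
      rwa [h6] at h
    · by_cases hy : y ∈ chB (nms P M) (pair u h)
      · obtain ⟨h4, h5, h6⟩ := chB_mem hu hh y hy
        refine (ach_SM hN hMN hM hC hG (fl_mem h4) h5 (SM_fl.2 fun h7 =>
          hsg (h2.2 ⟨y, hy, h7⟩))).of fun r s t h =>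
          ⟨fun h' => absurd h' hsg, fun _ _ => h⟩
      · exact Ach.triv hC hG fun r s t => ⟨fun h' => absurd h' hsg, fun _ h' => absurd h' hy⟩

theorem ach_DR {D : ZFSet.{0}} (hD : D ∈ DefC M) :
    (Ach N M P Le G fun r _ _ => DR P Le D r) ∧ Mon P Le fun r _ _ => DR P Le D r := by
  constructor
  · refine Ach.imp hC hG fun h1 => Ach.imp hC hG fun h2 => ?_
    obtain ⟨d, hd, hdG⟩ := hG.meet D hD (fun z hz => h1 z hz) h2
    exact (Ach.le hC hG hdG).of fun r s t h => ⟨d, hd, h⟩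
  · exact Mon.imp fun _ => Mon.imp fun _ => Mon.ex fun _ => (Mon.const _).and (Mon.le hC)

/-- The answers to the challenges. -/
theorem answer {x c : ZFSet.{0}} (hx : ∃ r s t, x = pair r (pair s t) ∧ Tp N M P G r s t)
    (hc : c ∈ CC M (nms P M)) : ∃ x', (∃ r s t, x' = pair r (pair s t) ∧ Tp N M P G r s t) ∧
      GR P Le (nms P M) x c x' := by
  obtain ⟨r, s, t, rfl, ht⟩ := hx
  obtain ⟨D, hD, c', hc', rfl⟩ := ZFSet.mem_prod.1 hc
  obtain ⟨fy, hfy, aw, haw, rfl⟩ := ZFSet.mem_prod.1 hc'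
  obtain ⟨f, hf, y, hy, rfl⟩ := ZFSet.mem_prod.1 hfy
  obtain ⟨a, ha, w, hw, rfl⟩ := ZFSet.mem_prod.1 haw
  have h1 := ach_DR hN hMN hM hC hG hD
  have h2 : Ach N M P Le G fun r' _ t' => a ∈ t → AR P Le a w r' t' :=
    Ach.imp hC hG fun h => (ach_AR hN hMN hM hC hG (w := w) ha (ht.tT a h)).1
  have h2' : Mon P Le fun r' _ t' => a ∈ t → AR P Le a w r' t' :=
    Mon.imp fun h => (ach_AR hN hMN hM hC hG (w := w) ha (ht.tT a h)).2
  have h3 : Ach N M P Le G fun _ s' t' => f ∈ s → FR (nms P M) f y s' t' :=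
    Ach.imp hC hG fun h => ach_FR hN hMN hM hC hG hf (ht.sT f h)
  obtain ⟨r', s', t', h4, h5, h6, h7, h8⟩ := (h1.1.and hC h1.2 (h2.and hC h2' h3)) r s t ht
  refine ⟨pair r' (pair s' t'), ⟨r', s', t', rfl, h4⟩, ?_⟩
  simp only [GR, fs_pair, sn_pair]
  exact ⟨⟨h5.le, h5.hs, h5.ht⟩, h6, h8, h7⟩

theorem tp_mem {r s t : ZFSet.{0}} (h : Tp N M P G r s t) :
    pair r (pair s t) ∈ LL N P (nms P M) :=
  ZFSet.pair_mem_prod.2 ⟨hG.sub h.r, ZFSet.pair_mem_prod.2 ⟨mem_pwM.2 ⟨h.sN, h.sF⟩,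
    mem_pwM.2 ⟨h.tN, h.tF⟩⟩⟩

end

end Pool.Agent.R597
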