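import Pool.Agent.R597.Am6

/-!
# The generic filter of a play
-/

set_option autoImplicit false
set_option linter.unreachableTactic false
set_option linter.unusedTactic false
set_option linter.unusedSectionVars false
set_option linter.unusedVariables false

namespace Pool.Agent.R597

open Pool.Agent.W868 Pool.Agent.W868.GM Pool.Agent.Y588
open ZFSet (pair)

/-- A play of the game in which all challenges have been answered. -/
structure Chn (M P Le : ZFSet.{0}) (r s t : ℕ → ZFSet.{0}) : Prop where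
  rP : ∀ n, r n ∈ P
  sF : ∀ n, s n ⊆ FF (nms P M)
  tF : ∀ n, t n ⊆ AF (nms P M)
  le : ∀ n, pair (r (n + 1)) (r n) ∈ Le
  hs : ∀ n, ∀ z ∈ s n, z ∈ s (n + 1)
  ht : ∀ n, ∀ z ∈ t n, z ∈ t (n + 1)
  chal : ∀ D ∈ DefC M, ∀ f ∈ FF (nms P M), ∀ y ∈ ZFSet.prod JJ (Sq (nms P M)),
    ∀ a ∈ AF (nms P M), ∀ w ∈ M, ∀ n, ∃ k ≥ n, DR P Le D (r (k + 1)) ∧
      (f ∈ s k → FR (nms P M) f y (s (k + 1)) (t (k + 1))) ∧
      (a ∈ t k → AR P Le a w (r (k + 1)) (t (k + 1)))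

/-- The filter generated by the play. -/
noncomputable def Gc (P Le : ZFSet.{0}) (r : ℕ → ZFSet.{0}) : ZFSet.{0} :=
  ZFSet.sep (fun q => ∃ n, pair (r n) q ∈ Le) P

section

variable {M P Le : ZFSet.{0}} (hM : IsZF {x | x ∈ M}) (hC : IsClassForcing (DefC M) P Le)
  {r s t : ℕ → ZFSet.{0}} (h : Chn M P Le r s t)

theorem mem_Gc {q : ZFSet.{0}} : q ∈ Gc P Le r ↔ q ∈ P ∧ ∃ n, pair (r n) q ∈ Le := ZFSet.mem_sep

include hM in
theorem empty_nms : ∅ ∈ nms P M := by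
  refine mem_nms.2 ⟨hM.empty_mem, IsName.mk _ (fun z hz => ?_) fun y p hyp => ?_⟩
  · exact absurd hz (ZFSet.notMem_empty _)
  · exact absurd hyp (ZFSet.notMem_empty _)

include hC h

theorem r_le {n m : ℕ} (hnm : n ≤ m) : pair (r m) (r n) ∈ Le := by
  induction m, hnm using Nat.le_induction with
  | base => exact hC.refl _ (h.rP n)
  | succ m _ ih => exact hC.trans _ (h.rP n) _ (h.rP m) _ (h.rP (m + 1)) (h.le m) ih

omit hC in
theorem s_mono {n m : ℕ} (hnm : n ≤ m) : ∀ z ∈ s n, z ∈ s m := by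
  induction m, hnm using Nat.le_induction with
  | base => exact fun _ h => h
  | succ m _ ih => exact fun z hz => h.hs m z (ih z hz)

omit hC in
theorem t_mono {n m : ℕ} (hnm : n ≤ m) : ∀ z ∈ t n, z ∈ t m := by
  induction m, hnm using Nat.le_induction with
  | base => exact fun _ h => h
  | succ m _ ih => exact fun z hz => h.ht m z (ih z hz)

theorem le_Gc {n : ℕ} {q : ZFSet.{0}} (hq : pair (r n) q ∈ Le) : q ∈ Gc P Le r :=
  mem_Gc.2 ⟨(ZFSet.pair_mem_prod.1 (hC.le_sub hq)).2, n, hq⟩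

theorem perp_Gc {n : ℕ} {q : ZFSet.{0}} (hq : Pp P Le (r n) q) : q ∉ Gc P Le r := by
  intro h1
  obtain ⟨h2, m, h3⟩ := mem_Gc.1 h1
  refine hq ⟨r (max n m), h.rP _, r_le hC h (le_max_left _ _), ?_⟩
  exact hC.trans q h2 (r m) (h.rP m) _ (h.rP _) (r_le hC h (le_max_right _ _)) h3

include hM

omit hC in
theorem chalF {f y : ZFSet.{0}} {n : ℕ} (hf : f ∈ s n)
    (hy : y ∈ ZFSet.prod JJ (Sq (nms P M))) (hC : IsClassForcing (DefC M) P Le) :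
    ∃ k, FR (nms P M) f y (s k) (t k) := by
  have he : ∅ ∈ nms P M := empty_nms hM
  obtain ⟨k, hk, -, h1, -⟩ := h.chal P hC.mem f (h.sF n hf) y hy (pair (nat 0) (pair ∅ ∅))
    (ZFSet.pair_mem_prod.2 ⟨mem_nat_iff'.2 ⟨0, by omega, rfl⟩, ZFSet.pair_mem_prod.2 ⟨he, he⟩⟩)
    ∅ hM.empty_mem n
  exact ⟨k + 1, h1 (s_mono h hk f hf)⟩

omit hC in
theorem chalA {a w : ZFSet.{0}} {n : ℕ} (ha : a ∈ t n) (hw : w ∈ M)
    (hC : IsClassForcing (DefC M) P Le) : ∃ k, AR P Le a w (r k) (t k) := by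
  have he : (∅ : ZFSet.{0}) ∈ Sq (nms P M) := empty_mem_Sq
  obtain ⟨k, hk, -, -, h1⟩ := h.chal P hC.mem (pair (nat 0) (pair (nat 0) ∅))
    (ZFSet.pair_mem_prod.2 ⟨nat_mem_omega 0, ZFSet.pair_mem_prod.2 ⟨nat_mem_JJ 0, he⟩⟩)
    (pair (nat 0) ∅) (ZFSet.pair_mem_prod.2 ⟨nat_mem_JJ 0, he⟩) a (h.tF n ha) w hw n
  exact ⟨k + 1, h1 (t_mono h hk a ha)⟩

omit hC in
theorem chalD {D : ZFSet.{0}} (hD : D ∈ DefC M) (hC : IsClassForcing (DefC M) P Le) :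
    ∃ k, DR P Le D (r k) := by
  have he : ∅ ∈ nms P M := empty_nms hM
  have he' : (∅ : ZFSet.{0}) ∈ Sq (nms P M) := empty_mem_Sq
  obtain ⟨k, -, h1, -, -⟩ := h.chal D hD (pair (nat 0) (pair (nat 0) ∅))
    (ZFSet.pair_mem_prod.2 ⟨nat_mem_omega 0, ZFSet.pair_mem_prod.2 ⟨nat_mem_JJ 0, he'⟩⟩)
    (pair (nat 0) ∅) (ZFSet.pair_mem_prod.2 ⟨nat_mem_JJ 0, he'⟩) (pair (nat 0) (pair ∅ ∅))
    (ZFSet.pair_mem_prod.2 ⟨mem_nat_iff'.2 ⟨0, by omega, rfl⟩, ZFSet.pair_mem_prod.2 ⟨he, he⟩⟩)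
    ∅ hM.empty_mem 0
  exact ⟨k + 1, h1⟩

/-- The filter is generic. -/
theorem isGen_Gc : IsGen (DefC M) P Le (Gc P Le r) where
  sub q hq := (mem_Gc.1 hq).1
  nonempty := ⟨r 0, mem_Gc.2 ⟨h.rP 0, 0, hC.refl _ (h.rP 0)⟩⟩
  up q hq p hp hqp := by
    obtain ⟨h1, n, h2⟩ := mem_Gc.1 hq
    exact mem_Gc.2 ⟨hp, n, hC.trans p hp q h1 _ (h.rP n) h2 hqp⟩
  dir p hp q hq := by
    obtain ⟨h1, n, h2⟩ := mem_Gc.1 hp
    obtain ⟨h3, m, h4⟩ := mem_Gc.1 hq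
    refine ⟨r (max n m), mem_Gc.2 ⟨h.rP _, _, hC.refl _ (h.rP _)⟩, ?_, ?_⟩
    · exact hC.trans p h1 (r n) (h.rP n) _ (h.rP _) (r_le hC h (le_max_left _ _)) h2
    · exact hC.trans q h3 (r m) (h.rP m) _ (h.rP _) (r_le hC h (le_max_right _ _)) h4
  meet D hD hDP hd := by
    obtain ⟨k, h1⟩ := chalD hM h hD hC
    obtain ⟨d, hd, h2⟩ := h1 (fun z hz => hDP hz) hd
    exact ⟨d, hd, le_Gc hC h h2⟩

/-- From facts of kind `1` to facts of kind `2`. -/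
theorem nm_of {ρ τ : ZFSet.{0}} (hρ : ρ ∈ nms P M) (hτ : τ ∈ nms P M) {n : ℕ}
    (h1 : pair (nat 2) (pair ρ τ) ∈ t n)
    (H : ∀ π q, pair π q ∈ τ → ∀ k, pair (nat 1) (pair ρ π) ∈ t k →
      ev (Gc P Le r) ρ ≠ ev (Gc P Le r) π) : ev (Gc P Le r) ρ ∉ ev (Gc P Le r) τ := by
  intro h2
  obtain ⟨π, q, h3, hq, h4⟩ := mem_ev.1 h2
  have hwM : pair π q ∈ M := hM.trans _ (mem_nms.1 hτ).1 _ h3
  obtain ⟨k, h5⟩ := chalA hM h h1 hwM hC
  simp only [AR, fs_pair, sn_pair] at h5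
  rcases h5.2.2.1 trivial h3 with h6 | h6
  · exact perp_Gc hC h h6 hq
  · exact H π q h3 k h6 h4.symm

theorem mem_ev_of {σ w : ZFSet.{0}} (hσ : σ ∈ nms P M) (hw : w ∈ σ) {n : ℕ}
    (h1 : pair (r n) (sn w) ∈ Le) : ev (Gc P Le r) (fs w) ∈ ev (Gc P Le r) σ := by
  obtain ⟨-, -, h2⟩ := name_elem hM hσ hw
  exact mem_ev.2 ⟨fs w, sn w, by rw [h2]; exact hw, le_Gc hC h h1, rfl⟩

theorem eq_ne : ∀ σ, IsName P σ → σ ∈ M → ∀ τ ∈ nms P M, ∀ n,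
    (pair (nat 0) (pair σ τ) ∈ t n → ev (Gc P Le r) σ = ev (Gc P Le r) τ) ∧
    (pair (nat 1) (pair σ τ) ∈ t n → ev (Gc P Le r) σ ≠ ev (Gc P Le r) τ) ∧
    (pair (nat 1) (pair τ σ) ∈ t n → ev (Gc P Le r) τ ≠ ev (Gc P Le r) σ) := by
  intro σ hσ
  induction hσ with
  | mk σ g1 g2 ih =>
    intro hσM τ hτ n
    have hσ : σ ∈ nms P M := mem_nms.2 ⟨hσM, IsName.mk σ g1 g2⟩
    have ih' : ∀ w ∈ σ, ∀ τ ∈ nms P M, ∀ n,
        (pair (nat 0) (pair (fs w) τ) ∈ t n → ev (Gc P Le r) (fs w) = ev (Gc P Le r) τ) ∧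
        (pair (nat 1) (pair (fs w) τ) ∈ t n → ev (Gc P Le r) (fs w) ≠ ev (Gc P Le r) τ) ∧
        (pair (nat 1) (pair τ (fs w)) ∈ t n → ev (Gc P Le r) τ ≠ ev (Gc P Le r) (fs w)) := by
      intro w hw
      obtain ⟨h1, h2, h3⟩ := name_elem hM hσ hw
      exact ih (fs w) (sn w) (by rw [h3]; exact hw) (mem_nms.1 h1).1
    have P1 : ∀ w' ∈ σ, ∀ k, pair (r k) (sn w') ∈ Le →
        pair (nat 2) (pair (fs w') τ) ∈ t k → ev (Gc P Le r) σ ≠ ev (Gc P Le r) τ := by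
      intro w' hw' k h1 h2 h3
      obtain ⟨h4, h5, h6⟩ := name_elem hM hσ hw'
      refine nm_of hM hC h h4 hτ h2 (fun π q hπ k' h7 => ?_) ?_
      · have h8 := name_elem hM hτ hπ
        rw [fs_pair] at h8
        exact (ih' w' hw' π h8.1 k').2.1 h7
      · rw [← h3]
        exact mem_ev_of hM hC h hσ hw' h1
    have P2 : ∀ w' ∈ τ, ∀ k, pair (r k) (sn w') ∈ Le →
        pair (nat 2) (pair (fs w') σ) ∈ t k → ev (Gc P Le r) σ ≠ ev (Gc P Le r) τ := by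
      intro w' hw' k h1 h2 h3
      obtain ⟨h4, h5, h6⟩ := name_elem hM hτ hw'
      refine nm_of hM hC h h4 hσ h2 (fun π q hπ k' h7 => ?_) ?_
      · have h8 := ih' _ hπ (fs w') h4 k'
        rw [fs_pair] at h8
        exact h8.2.2 h7
      · rw [h3]
        exact mem_ev_of hM hC h hτ hw' h1
    refine ⟨fun h1 => ?_, fun h1 => ?_, fun h1 => ?_⟩
    · ext z
      constructor
      · intro hz
        obtain ⟨ρ, q, h2, hq, rfl⟩ := mem_ev.1 hz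
        obtain ⟨k, h5⟩ := chalA hM h h1 (hM.trans _ hσM _ h2) hC
        simp only [AR, fs_pair, sn_pair] at h5
        rcases h5.1.1 (by trivial) h2 with h6 | ⟨w', hw', h6, h7⟩
        · exact absurd hq (perp_Gc hC h h6)
        · have h8 := ih' _ h2 (fs w') (name_elem hM hτ hw').1 k
          rw [fs_pair] at h8
          rw [h8.1 h7]
          exact mem_ev_of hM hC h hτ hw' h6
      · intro hz
        obtain ⟨ρ, q, h2, hq, rfl⟩ := mem_ev.1 hz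
        obtain ⟨k, h5⟩ := chalA hM h h1 (hM.trans _ (mem_nms.1 hτ).1 _ h2) hC
        simp only [AR, fs_pair, sn_pair] at h5
        have h9 := name_elem hM hτ h2
        rw [fs_pair] at h9
        rcases h5.1.2 (by trivial) h2 with h6 | ⟨w', hw', h6, h7⟩
        · exact absurd hq (perp_Gc hC h h6)
        · have h8 := ih' _ hw' ρ h9.1 k
          rw [← h8.1 h7]
          exact mem_ev_of hM hC h hσ hw' h6
    · obtain ⟨k, h5⟩ := chalA hM h h1 hM.empty_mem hC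
      simp only [AR, fs_pair, sn_pair] at h5
      rcases h5.2.1 (by trivial) with ⟨w', hw', h6, h7⟩ | ⟨w', hw', h6, h7⟩
      · exact P1 w' hw' k h6 h7
      · exact P2 w' hw' k h6 h7
    · obtain ⟨k, h5⟩ := chalA hM h h1 hM.empty_mem hC
      simp only [AR, fs_pair, sn_pair] at h5
      rcases h5.2.1 (by trivial) with ⟨w', hw', h6, h7⟩ | ⟨w', hw', h6, h7⟩
      · exact (P2 w' hw' k h6 h7).symm
      · exact (P1 w' hw' k h6 h7).symm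

theorem fact_eq {σ τ : ZFSet.{0}} (hσ : σ ∈ nms P M) (hτ : τ ∈ nms P M) {n : ℕ}
    (h1 : pair (nat 0) (pair σ τ) ∈ t n) : ev (Gc P Le r) σ = ev (Gc P Le r) τ :=
  (eq_ne hM hC h σ (mem_nms.1 hσ).2 (mem_nms.1 hσ).1 τ hτ n).1 h1

theorem fact_ne {σ τ : ZFSet.{0}} (hσ : σ ∈ nms P M) (hτ : τ ∈ nms P M) {n : ℕ}
    (h1 : pair (nat 1) (pair σ τ) ∈ t n) : ev (Gc P Le r) σ ≠ ev (Gc P Le r) τ :=
  (eq_ne hM hC h σ (mem_nms.1 hσ).2 (mem_nms.1 hσ).1 τ hτ n).2.1 h1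

theorem fact_nm {σ τ : ZFSet.{0}} (hσ : σ ∈ nms P M) (hτ : τ ∈ nms P M) {n : ℕ}
    (h1 : pair (nat 2) (pair σ τ) ∈ t n) : ev (Gc P Le r) σ ∉ ev (Gc P Le r) τ := by
  refine nm_of hM hC h hσ hτ h1 fun π q hπ k h2 => ?_
  have h3 := name_elem hM hτ hπ
  rw [fs_pair] at h3
  exact fact_ne hM hC h hσ h3.1 h2

theorem fact_mem {σ τ : ZFSet.{0}} (hσ : σ ∈ nms P M) (hτ : τ ∈ nms P M) {n : ℕ}
    (h1 : pair (nat 3) (pair σ τ) ∈ t n) : ev (Gc P Le r) σ ∈ ev (Gc P Le r) τ := by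
  obtain ⟨k, h5⟩ := chalA hM h h1 hM.empty_mem hC
  simp only [AR, fs_pair, sn_pair] at h5
  obtain ⟨w', hw', h6, h7⟩ := h5.2.2.2 (by trivial)
  rw [fact_eq hM hC h hσ (name_elem hM hτ hw').1 h7]
  exact mem_ev_of hM hC h hτ hw' h6

theorem mext_iff' (x : ZFSet.{0}) : x ∈ Mext M P (Gc P Le r) ↔
    ∃ σ ∈ nms P M, x = ev (Gc P Le r) σ := by
  constructor
  · rintro ⟨σ, h1, h2, rfl⟩
    exact ⟨σ, mem_nms.2 ⟨h1, h2⟩, rfl⟩
  · rintro ⟨σ, h1, rfl⟩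
    exact ⟨σ, (mem_nms.1 h1).1, (mem_nms.1 h1).2, rfl⟩

/-- The facts on formulas are true. -/
theorem fact_SM (m : ℕ) : ∀ u ∈ JJ, ∀ x ∈ Sq (nms P M), ∀ n, pair (nat m) (pair u x) ∈ s n →
    SM (Mext M P (Gc P Le r)) m u (evs (Gc P Le r) x) := by
  induction m with
  | zero =>
    intro u hu x hx n h1
    obtain ⟨k, h2⟩ := chalF hM h h1 (ZFSet.pair_mem_prod.2 ⟨nat_mem_JJ 0, empty_mem_Sq⟩ :
      pair (nat 0) ∅ ∈ _) hC
    simp only [FR, fs_pair, sn_pair] at h2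
    obtain ⟨h3, h4⟩ := h2.1 (by trivial)
    obtain ⟨g, l, hg, rfl⟩ := exists_seq hx
    rw [evs_seq]
    simp only [SM]
    constructor
    · intro h5
      rcases at2_gen.1 (h3 h5) with ⟨h6, i, hi, j, hj, h7, h8, h9⟩ |
        ⟨h6, i, hi, j, hj, h7, h8, h9⟩
      · exact atR_gen.2 (Or.inl ⟨h6, i, hi, j, hj, h7, h8,
          fact_mem hM hC h (hg i hi) (hg j hj) h9⟩)
      · exact atR_gen.2 (Or.inr ⟨h6, i, hi, j, hj, h7, h8,
          fact_eq hM hC h (hg i hi) (hg j hj) h9⟩)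
    · intro h5
      by_contra h6
      have h7 := nt2_gen.1 (h4 h6)
      rcases atR_gen.1 h5 with ⟨h8, i, hi, j, hj, h9, h10, h11⟩ |
        ⟨h8, i, hi, j, hj, h9, h10, h11⟩
      · exact fact_nm hM hC h (hg i hi) (hg j hj) ((h7 i hi j hj h9 h10).1 h8) h11
      · exact fact_ne hM hC h (hg i hi) (hg j hj) ((h7 i hi j hj h9 h10).2 h8) h11
  | succ m ih =>
    intro u hu x hx n h1
    rw [SM_chB (mext_iff' hM hC h)]
    constructor
    · intro h5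
      obtain ⟨k, h2⟩ := chalF hM h h1 (ZFSet.pair_mem_prod.2 ⟨nat_mem_JJ 0, empty_mem_Sq⟩ :
        pair (nat 0) ∅ ∈ _) hC
      simp only [FR, fs_pair, sn_pair] at h2
      obtain ⟨y', hy', h6⟩ := (h2.2 (nat_succ_ne m)).1 h5
      rw [sUnion_nat_succ] at h6
      obtain ⟨h7, h8, h9⟩ := chB_mem hu hx y' hy'
      rw [← h9] at h6
      exact ⟨y', hy', ih _ h7 _ h8 k h6⟩
    · rintro ⟨y, hy, h5⟩
      by_contra h6
      obtain ⟨h7, h8, h9⟩ := chB_mem hu hx y hy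
      obtain ⟨k, h2⟩ := chalF hM h h1 (y := y) (by
        rw [← h9]
        exact ZFSet.pair_mem_prod.2 ⟨h7, h8⟩) hC
      simp only [FR, fs_pair, sn_pair] at h2
      have h10 := (h2.2 (nat_succ_ne m)).2 h6 hy
      rw [sUnion_nat_succ] at h10
      exact SM_fl.1 (ih _ (fl_mem h7) _ h8 k h10) h5

end

end Pool.Agent.R597
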