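import Pool.Agent.R597.Am2
import Pool.Agent.R597.Am7

/-!
# The forcing relation of a definable forcing over `M` is in `N`
-/

set_option autoImplicit false
set_option linter.unreachableTactic false
set_option linter.unusedTactic false
set_option linter.unusedSectionVars false
set_option linter.unusedVariables false

namespace Pool.Agent.R597

open Pool.Agent.W868 Pool.Agent.W868.GM Pool.Agent.Y588
open ZFSet (pair)

/-! ### Codes of formulas without parameters -/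

theorem padU {m m' : ℕ} (h : m ≤ m') {u : ZFSet.{0}} (hu : u ∈ JJ) :
    ∃ u' ∈ JJ, ∀ (K : Set ZFSet.{0}) s, SM K m' u' s ↔ SM K m u s := by
  induction m', h using Nat.le_induction with
  | base => exact ⟨u, hu, fun _ _ => Iff.rfl⟩
  | succ m' _ ih =>
    obtain ⟨u', hu', h1⟩ := ih
    exact ⟨pd u', pd_mem hu', fun K s => SM_pd.trans (h1 K s)⟩

theorem exists_codeU : {n : ℕ} → (φ : Fml Empty n) →
    ∃ m₀, ∀ m ≥ m₀, ∃ u ∈ JJ, ∀ (K : Set ZFSet.{0}) (v : Fin n → ZFSet.{0}),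
      (Sat K Empty.elim φ v ↔ SM K m u (cd ∅ v)) := by
  have hterm : ∀ {n : ℕ} (t : Fin n ⊕ Empty),
      ∃ i, ∀ (v : Fin n → ZFSet.{0}) (h : ℕ → ZFSet.{0}),
        (∀ i : Fin n, h (0 + (n - 1 - i)) = v i) → i < 0 + n ∧ h i = Sum.elim v Empty.elim t := by
    intro n t
    cases t with
    | inl i =>
      refine ⟨0 + (n - 1 - i), fun v h h2 => ⟨?_, h2 i⟩⟩
      have := i.2
      omega
    | inr a => exact a.elim
  have hneg : ∀ {n : ℕ} {R : Set ZFSet.{0} → (Fin n → ZFSet.{0}) → Prop} {m₀ : ℕ},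
      (∀ m ≥ m₀, ∃ u ∈ JJ, ∀ (K : Set ZFSet.{0}) (v : Fin n → ZFSet.{0}),
        (R K v ↔ SM K m u (cd ∅ v))) →
      ∀ m ≥ m₀, ∃ u ∈ JJ, ∀ (K : Set ZFSet.{0}) (v : Fin n → ZFSet.{0}),
        (¬ R K v ↔ SM K m u (cd ∅ v)) := by
    intro n R m₀ h m hm
    obtain ⟨u, hu, h1⟩ := h m hm
    exact ⟨fl u, fl_mem hu, fun K v => by rw [SM_fl, h1]⟩
  have hatom : ∀ {n : ℕ} {R : Set ZFSet.{0} → (Fin n → ZFSet.{0}) → Prop},
      (∃ u ∈ JJ, ∀ (K : Set ZFSet.{0}) (v : Fin n → ZFSet.{0}),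
        (R K v ↔ SM K 0 u (cd ∅ v))) →
      ∃ m₀, ∀ m ≥ m₀, ∃ u ∈ JJ, ∀ (K : Set ZFSet.{0}) (v : Fin n → ZFSet.{0}),
        (R K v ↔ SM K m u (cd ∅ v)) := by
    rintro n R ⟨u, hu, h1⟩
    refine ⟨0, fun m hm => ?_⟩
    obtain ⟨u', hu', h2⟩ := padU (Nat.zero_le m) hu
    exact ⟨u', hu', fun K v => by rw [h2, h1]⟩
  intro n φ
  induction φ with
  | @mem n s t =>
    obtain ⟨i, hi⟩ := hterm s
    obtain ⟨j, hj⟩ := hterm t
    refine hatom ⟨pair (nat 0) (pair (nat 0) (pair (nat i) (nat j))), pair_mem_JJ (nat_mem_JJ 0)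
      (pair_mem_JJ (nat_mem_JJ 0) (pair_mem_JJ (nat_mem_JJ i) (nat_mem_JJ j))), fun K v => ?_⟩
    obtain ⟨h', h1, -, h3⟩ := cd_seq (fun _ => ∅) 0 v
    rw [show (∅ : ZFSet.{0}) = seq (fun _ => ∅) 0 from rfl, h1]
    obtain ⟨h4, h5⟩ := hi v h' h3
    obtain ⟨h6, h7⟩ := hj v h' h3
    simp only [SM, fs_pair, sn_pair, atR_seq, Sat, h4, h6, h5, h7]
    simp
  | @eq n s t =>
    obtain ⟨i, hi⟩ := hterm s
    obtain ⟨j, hj⟩ := hterm t
    refine hatom ⟨pair (nat 0) (pair (nat 1) (pair (nat i) (nat j))), pair_mem_JJ (nat_mem_JJ 0)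
      (pair_mem_JJ (nat_mem_JJ 1) (pair_mem_JJ (nat_mem_JJ i) (nat_mem_JJ j))), fun K v => ?_⟩
    obtain ⟨h', h1, -, h3⟩ := cd_seq (fun _ => ∅) 0 v
    rw [show (∅ : ZFSet.{0}) = seq (fun _ => ∅) 0 from rfl, h1]
    obtain ⟨h4, h5⟩ := hi v h' h3
    obtain ⟨h6, h7⟩ := hj v h' h3
    simp only [SM, fs_pair, sn_pair, atR_seq, Sat, h4, h6, h5, h7]
    simp [nat01]
  | neg φ ih =>
    obtain ⟨m₀, h1⟩ := ih
    exact ⟨m₀, hneg h1⟩
  | and φ ψ ih ih' =>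
    obtain ⟨m₀, h1⟩ := ih
    obtain ⟨m₁, h2⟩ := ih'
    refine ⟨max m₀ m₁ + 1, fun m hm => ?_⟩
    obtain ⟨l, rfl⟩ : ∃ l, m = l + 1 := ⟨m - 1, by omega⟩
    obtain ⟨u, hu, h3⟩ := hneg h1 l (by omega)
    obtain ⟨u', hu', h4⟩ := hneg h2 l (by omega)
    refine ⟨fl (orc u u'), fl_mem (orc_mem hu hu'), fun K v => ?_⟩
    rw [SM_fl, SM_orc, ← h3, ← h4]
    simp only [Sat]
    tauto
  | ex φ ih =>
    obtain ⟨m₀, h1⟩ := ih
    refine ⟨m₀ + 1, fun m hm => ?_⟩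
    obtain ⟨l, rfl⟩ : ∃ l, m = l + 1 := ⟨m - 1, by omega⟩
    obtain ⟨u, hu, h2⟩ := h1 l (by omega)
    refine ⟨exc u, exc_mem hu, fun K v => ?_⟩
    rw [SM_exc]
    simp only [Sat]
    refine exists_congr fun a => and_congr_right fun _ => ?_
    rw [h2, cd_cons]

theorem evs_cd (G : ZFSet.{0}) : {n : ℕ} → (v : Fin n → ZFSet.{0}) →
    evs G (cd ∅ v) = cd ∅ fun i => ev G (v i)
  | 0, _ => evs_empty G
  | n + 1, v => by
    rw [cd, evs_pair, evs_cd G (Fin.tail v)]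
    rfl

/-! ### Tuples -/

/-- The set of the tuples. -/
noncomputable def TT (B : ZFSet.{0}) : ℕ → ZFSet.{0}
  | 0 => {∅}
  | n + 1 => ZFSet.prod B (TT B n)

theorem mem_TT {B : ZFSet.{0}} : {n : ℕ} → {x : ZFSet.{0}} → (x ∈ TT B n ↔
    ∃ v : Fin n → ZFSet.{0}, (∀ i, v i ∈ B) ∧ x = tup v)
  | 0, x => by
    rw [TT, ZFSet.mem_singleton]
    exact ⟨fun h => ⟨Fin.elim0, fun i => i.elim0, h⟩, fun ⟨v, _, h⟩ => h⟩
  | n + 1, x => by
    rw [TT, ZFSet.mem_prod]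
    constructor
    · rintro ⟨a, ha, y, hy, rfl⟩
      obtain ⟨v, hv, rfl⟩ := mem_TT.1 hy
      refine ⟨Fin.cons a v, fun i => ?_, ?_⟩
      · refine Fin.cases ?_ (fun i => ?_) i
        · exact ha
        · exact hv i
      · rfl
    · rintro ⟨v, hv, rfl⟩
      exact ⟨v 0, hv 0, _, mem_TT.2 ⟨Fin.tail v, fun i => hv i.succ, rfl⟩, rfl⟩

/-- The sequence of a tuple. -/
noncomputable def tc : ℕ → ZFSet.{0} → ZFSet.{0}
  | 0, _ => ∅
  | n + 1, x => pair (tc n (sn x)) (fs x)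

theorem tc_tup : {n : ℕ} → (v : Fin n → ZFSet.{0}) → tc n (tup v) = cd ∅ v
  | 0, _ => rfl
  | n + 1, v => by
    rw [tup, tc, sn_pair, fs_pair, tc_tup (Fin.tail v), cd]

section

variable {N : Set ZFSet.{0}} (hN : IsZF N)

include hN

theorem TT_mem {B : ZFSet.{0}} (hB : B ∈ N) (n : ℕ) : TT B n ∈ N := by
  induction n with
  | zero => exact hN.single_mem hN.empty_mem
  | succ n ih => exact hN.prod_mem hB ih

theorem tc' (k : ℕ) : ∀ {n : ℕ} {F : (Fin n → ZFSet.{0}) → ZFSet.{0}}, DfnF N N F →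
    DfnF N N fun v => tc k (F v) := by
  induction k with
  | zero => exact fun _ => DfnF.const hN.empty_mem
  | succ k ih => exact fun hF => hN.base.pair' (ih (hN.sn' hF)) (hN.fs' hF)

variable {M P Le : ZFSet.{0}} (hMN : M ∈ N)
  (hM : IsZF {x | x ∈ M}) (hC : IsClassForcing (DefC M) P Le)

include hMN hM hC

/-- A play in which all challenges have been answered. -/
theorem exists_chain (hc : N.Countable) {B : ZFSet.{0}}
    (hB : ∀ s ∈ LL N P (nms P M), s ∉ B → ∀ c ∈ CC M (nms P M),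
      ∃ s' ∈ LL N P (nms P M), s' ∉ B ∧ GR P Le (nms P M) s c s')
    {x : ZFSet.{0}} (hx : x ∈ LL N P (nms P M)) (hxB : x ∉ B) :
    ∃ r s t, Chn M P Le r s t ∧ x = pair (r 0) (pair (s 0) (t 0)) := by
  have he : ∅ ∈ nms P M := empty_nms hM
  have he' : (∅ : ZFSet.{0}) ∈ Sq (nms P M) := empty_mem_Sq
  have hCN := CC_mem hN hMN hM hC
  have hcc : {c | c ∈ CC M (nms P M)}.Countable := hc.mono fun c hc => hN.trans _ hCN _ hc
  have hne : {c | c ∈ CC M (nms P M)}.Nonempty := by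
    refine ⟨pair P (pair (pair (pair (nat 0) (pair (nat 0) ∅)) (pair (nat 0) ∅))
      (pair (pair (nat 0) (pair ∅ ∅)) ∅)), ?_⟩
    exact ZFSet.pair_mem_prod.2 ⟨hC.mem, ZFSet.pair_mem_prod.2 ⟨ZFSet.pair_mem_prod.2
      ⟨ZFSet.pair_mem_prod.2 ⟨nat_mem_omega 0, ZFSet.pair_mem_prod.2 ⟨nat_mem_JJ 0, he'⟩⟩,
        ZFSet.pair_mem_prod.2 ⟨nat_mem_JJ 0, he'⟩⟩,
      ZFSet.pair_mem_prod.2 ⟨ZFSet.pair_mem_prod.2 ⟨mem_nat_iff'.2 ⟨0, by omega, rfl⟩,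
        ZFSet.pair_mem_prod.2 ⟨he, he⟩⟩, hM.empty_mem⟩⟩⟩
  obtain ⟨f, hf⟩ := hcc.exists_eq_range hne
  have hfC : ∀ n, f n ∈ CC M (nms P M) := fun n => by
    have h1 : f n ∈ {c | c ∈ CC M (nms P M)} := by
      rw [hf]
      exact ⟨n, rfl⟩
    exact h1
  have hnext : ∀ x : {x // x ∈ LL N P (nms P M) ∧ x ∉ B}, ∀ n : ℕ,
      ∃ x' : {x // x ∈ LL N P (nms P M) ∧ x ∉ B}, GR P Le (nms P M) x.1 (f n) x'.1 := by
    rintro ⟨x, h1, h2⟩ n
    obtain ⟨x', h3, h4, h5⟩ := hB x h1 h2 (f n) (hfC n)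
    exact ⟨⟨x', h3, h4⟩, h5⟩
  choose nx hnx using hnext
  let pos : ℕ → {x // x ∈ LL N P (nms P M) ∧ x ∉ B} := fun n =>
    Nat.rec ⟨x, hx, hxB⟩ (fun n y => nx y n.unpair.1) n
  have hpos : ∀ n, GR P Le (nms P M) (pos n).1 (f n.unpair.1) (pos (n + 1)).1 :=
    fun n => hnx (pos n) n.unpair.1
  have hdec : ∀ n, ∃ r ∈ P, ∃ s ∈ pwM N (FF (nms P M)), ∃ t ∈ pwM N (AF (nms P M)),
      (pos n).1 = pair r (pair s t) := by
    intro n
    obtain ⟨r, hr, y, hy, h1⟩ := ZFSet.mem_prod.1 (pos n).2.1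
    obtain ⟨s, hs, t, ht, rfl⟩ := ZFSet.mem_prod.1 hy
    exact ⟨r, hr, s, hs, t, ht, h1⟩
  choose r hr s hs t ht hrst using hdec
  simp only [GR, hrst, fs_pair, sn_pair] at hpos
  refine ⟨r, s, t, ⟨hr, fun n => (mem_pwM.1 (hs n)).2, fun n => (mem_pwM.1 (ht n)).2,
    fun n => (hpos n).1.1, fun n => (hpos n).1.2.1, fun n => (hpos n).1.2.2, ?_⟩, hrst 0⟩
  intro D hD g hg y hy a ha w hw n
  have h1 : pair D (pair (pair g y) (pair a w)) ∈ {c | c ∈ CC M (nms P M)} :=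
    ZFSet.pair_mem_prod.2 ⟨hD, ZFSet.pair_mem_prod.2 ⟨ZFSet.pair_mem_prod.2 ⟨hg, hy⟩,
      ZFSet.pair_mem_prod.2 ⟨ha, hw⟩⟩⟩
  rw [hf] at h1
  obtain ⟨i, hi⟩ := h1
  refine ⟨Nat.pair i n, Nat.right_le_pair i n, ?_⟩
  have h2 := (hpos (Nat.pair i n)).2
  rw [Nat.unpair_pair, hi] at h2
  simp only [fs_pair, sn_pair] at h2
  exact h2

/-- The set of the positions without a generic filter. -/
theorem exists_bad (hc : N.Countable) : ∃ B ∈ N, ∀ p ∈ P, ∀ (m : ℕ), ∀ u ∈ JJ,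
    ∀ x ∈ Sq (nms P M), (pair p (pair {pair (nat m) (pair u x)} ∅) ∈ B ↔
      ¬ ∃ G, IsGen (DefC M) P Le G ∧ p ∈ G ∧ SM (Mext M P G) m u (evs G x)) := by
  have hPN := P_mem hN hMN hM hC
  have hLN := Le_mem hN hMN hM hC
  have hnN := nms_mem hN hMN hM hC
  obtain ⟨B, hBN, h1, h2⟩ := exists_lost hN (LL_mem hN hMN hM hC) (CC_mem hN hMN hM hC)
    (R := GR P Le (nms P M)) (dfn_GR hN hPN hLN hnN)
  refine ⟨B, hBN, fun p hp m u hu x hx => ?_⟩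
  have hf : pair (nat m) (pair u x) ∈ FF (nms P M) := ZFSet.pair_mem_prod.2
    ⟨nat_mem_omega m, ZFSet.pair_mem_prod.2 ⟨hu, hx⟩⟩
  have hfN : pair (nat m) (pair u x) ∈ N := hN.trans _ (FF_mem hN hMN hM hC) _ hf
  have hsN : ({pair (nat m) (pair u x)} : ZFSet.{0}) ∈ N := hN.single_mem hfN
  have hsF : ({pair (nat m) (pair u x)} : ZFSet.{0}) ⊆ FF (nms P M) := fun z hz => by
    rw [ZFSet.mem_singleton.1 hz]
    exact hf
  rw [iff_not_comm]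
  constructor
  · rintro ⟨G, hG, hpG, h3⟩
    refine h2 {y | ∃ r s t, y = pair r (pair s t) ∧ Tp N M P G r s t} ?_ _
      ⟨_, _, _, rfl, ⟨hpG, hsN, hsF, fun f hf => ?_, hN.empty_mem, fun z hz => ?_,
        fun z hz => ?_⟩⟩
    · rintro y ⟨r, s, t, rfl, h4⟩
      refine ⟨tp_mem hN hMN hM hC hG h4, fun c hc => ?_⟩
      obtain ⟨y', h5, h6⟩ := answer hN hMN hM hC hG ⟨r, s, t, rfl, h4⟩ hc
      exact ⟨y', h5, h6⟩
    · rw [ZFSet.mem_singleton.1 hf]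
      exact trF_mk h3
    · exact absurd hz (ZFSet.notMem_empty _)
    · exact absurd hz (ZFSet.notMem_empty _)
  · intro h3
    have h4 : pair p (pair {pair (nat m) (pair u x)} ∅) ∈ LL N P (nms P M) :=
      ZFSet.pair_mem_prod.2 ⟨hp, ZFSet.pair_mem_prod.2 ⟨mem_pwM.2 ⟨hsN, hsF⟩,
        mem_pwM.2 ⟨hN.empty_mem, ZFSet.empty_subset _⟩⟩⟩
    obtain ⟨r, s, t, h5, h6⟩ := exists_chain hN hMN hM hC hc h1 h4 h3
    obtain ⟨e1, e2⟩ := ZFSet.pair_inj.1 h6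
    obtain ⟨e2, e3⟩ := ZFSet.pair_inj.1 e2
    refine ⟨Gc P Le r, isGen_Gc hM hC h5, ?_, ?_⟩
    · rw [e1]
      exact mem_Gc.2 ⟨h5.rP 0, 0, hC.refl _ (h5.rP 0)⟩
    · refine fact_SM hM hC h5 m u hu x hx 0 ?_
      rw [← e2]
      simp

/-- The forcing relation is amenable. -/
theorem amenable (hc : N.Countable) (hsup : ∀ x ∈ M, ∀ y ∈ N, y ⊆ x → y ∈ M) :
    Amenable M P Le := by
  intro n φ x hx
  have hB := hN.base
  obtain ⟨m, h1⟩ := exists_codeU φ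
  obtain ⟨u, hu, h2⟩ := h1 m le_rfl
  obtain ⟨B, hBN, h3⟩ := exists_bad hN hMN hM hC hc
  have hPN := P_mem hN hMN hM hC
  have hnN := nms_mem hN hMN hM hC
  have hfu := fl_mem hu
  have hfuN : fl u ∈ N := hN.trans _ (JJ_mem hN) _ hfu
  have key : ∀ p ∈ P, ∀ v : Fin n → ZFSet.{0}, (∀ i, v i ∈ nms P M) →
      (FrcM M P Le φ p v ↔ pair p (pair {pair (nat m) (pair (fl u) (cd ∅ v))} ∅) ∈ B) := by
    intro p hp v hv
    rw [h3 p hp m (fl u) hfu (cd ∅ v) (cd_mem empty_mem_Sq v hv)]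
    push Not
    constructor
    · intro h4 G hG hpG h5
      rw [SM_fl, evs_cd] at h5
      exact h5 ((h2 _ _).1 (h4 G hG hpG))
    · intro h4 G hG hpG
      have h5 := h4 G hG hpG
      rw [SM_fl, evs_cd, not_not] at h5
      exact (h2 _ _).2 h5
  set y : ZFSet.{0} := ZFSet.sep (fun z => (fs z ∈ P ∧ sn z ∈ TT (nms P M) n ∧
    z = pair (fs z) (sn z)) ∧
    pair (fs z) (pair {pair (nat m) (pair (fl u) (tc n (sn z)))} ∅) ∈ B) x with hy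
  have hyN : y ∈ N := by
    refine hN.sep_mem (Q := fun z => (fs z ∈ P ∧ sn z ∈ TT (nms P M) n ∧
      z = pair (fs z) (sn z)) ∧
      pair (fs z) (pair {pair (nat m) (pair (fl u) (tc n (sn z)))} ∅) ∈ B) ?_
      (hN.trans _ hMN _ hx)
    have f0 : DfnF N N fun w : Fin 1 → ZFSet.{0} => fs (w 0) := hN.fs' (DfnF.proj 0)
    have s0 : DfnF N N fun w : Fin 1 → ZFSet.{0} => sn (w 0) := hN.sn' (DfnF.proj 0)
    refine Dfn.and (Dfn.and (Dfn.mem f0 (DfnF.const hPN)) (Dfn.and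
      (Dfn.mem s0 (DfnF.const (TT_mem hN hnN n))) (Dfn.eq (DfnF.proj 0) (hB.pair' f0 s0))))
      (Dfn.mem (hB.pair' f0 (hB.pair' (hB.single' (hB.pair' (DfnF.const (hN.nat_mem m))
        (hB.pair' (DfnF.const hfuN) (tc' hN n s0)))) (DfnF.const hN.empty_mem)))
        (DfnF.const hBN))
  refine ⟨y, hsup x hx y hyN fun z hz => (ZFSet.mem_sep.1 hz).1, fun z => ?_⟩
  rw [hy, ZFSet.mem_sep]
  refine and_congr_right fun _ => ?_
  constructor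
  · rintro ⟨⟨h4, h5, h6⟩, h7⟩
    obtain ⟨v, hv, h8⟩ := mem_TT.1 h5
    refine ⟨fs z, h4, v, fun i => mem_nms.1 (hv i), by rw [← h8]; exact h6, ?_⟩
    rw [key _ h4 v hv, ← tc_tup, ← h8]
    exact h7
  · rintro ⟨p, hp, v, hv, rfl, h4⟩
    have hv' : ∀ i, v i ∈ nms P M := fun i => mem_nms.2 (hv i)
    rw [fs_pair, sn_pair, tc_tup]
    exact ⟨⟨hp, mem_TT.2 ⟨v, hv', rfl⟩, rfl⟩, (key p hp v hv').1 h4⟩

end

/-- There is a countable transitive model of ZFC over which all the definable forcings have an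
amenable forcing relation. -/
theorem exists_amenable : ∃ M : ZFSet.{0}, {x | x ∈ M}.Countable ∧ IsZFC {x | x ∈ M} ∧
    ∀ P Le : ZFSet.{0}, IsClassForcing (DefC M) P Le → Amenable M P Le := by
  obtain ⟨N, hc, hN, M, hMN, hM, hsup⟩ := exists_MN
  refine ⟨M, hc.mono fun x hx => hN.trans _ hMN _ hx, hM, fun P Le hC => ?_⟩
  exact amenable hN.toIsZF hMN hM.toIsZF hC hc hsup

end Pool.Agent.R597
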