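import Pool.Agent.R597.Game

/-!
# Games on covers in a transitive model: the definitions
-/

set_option autoImplicit false

namespace Pool.Agent.R597

open Pool.Agent.W868 Pool.Agent.W868.GM
open ZFSet (pair)

/-- `F` is a finite set. -/
def IsFin (F : ZFSet.{0}) : Prop := {x | x ∈ F}.Finite

/-- The sets in `𝒰` cover the set `K`. -/
def Covers (𝒰 K : ZFSet.{0}) : Prop := ∀ x ∈ K, ∃ O ∈ 𝒰, x ∈ O

/-- In the model `N`, `𝒰` is an open cover of `X`, for the topology generated by `τ`. -/
def IsCover (N : Set ZFSet.{0}) (X τ 𝒰 : ZFSet.{0}) : Prop :=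
  𝒰 ∈ N ∧ (∀ O ∈ 𝒰, IsOpenSet N X τ O) ∧ Covers 𝒰 X

/-- In the model `N`, `K` is a compact subset of `X`, for the topology generated by `τ`. -/
def IsComp (N : Set ZFSet.{0}) (X τ K : ZFSet.{0}) : Prop :=
  K ∈ N ∧ K ⊆ X ∧ ∀ 𝒰 ∈ N, (∀ O ∈ 𝒰, IsOpenSet N X τ O) → Covers 𝒰 K →
    ∃ F, F ⊆ 𝒰 ∧ IsFin F ∧ Covers F K

/-- Every compact subset of `X` in the model `N` is contained in a member of `𝒰`. -/
def KCovers (N : Set ZFSet.{0}) (X τ 𝒰 : ZFSet.{0}) : Prop :=
  ∀ K, IsComp N X τ K → ∃ O ∈ 𝒰, K ⊆ O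

/-- In the model `N`, `𝒰` is a `k`-cover of `X`, for the topology generated by `τ`. -/
def IsKCover (N : Set ZFSet.{0}) (X τ 𝒰 : ZFSet.{0}) : Prop :=
  𝒰 ∈ N ∧ (∀ O ∈ 𝒰, IsOpenSet N X τ O) ∧ KCovers N X τ 𝒰

/-- In the model `N`, the set `s` is a winning strategy for player II in the game of length `ω` in
which player I plays in round `n` a set `f n` in `A`, player II answers with a finite subset of
`f n`, and player II wins if the union of the answers is in `C`. The strategy assigns to each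
finite sequence `f 0, ..., f n` of sets in `A` exactly one answer. -/
structure WinFin (N : Set ZFSet.{0}) (A C : ZFSet.{0} → Prop) (s : ZFSet.{0}) : Prop where
  mem : s ∈ N
  legal : ∀ (f : ℕ → ZFSet.{0}) (n : ℕ), (∀ k ≤ n, A (f k)) →
    ∃ F, F ⊆ f n ∧ IsFin F ∧ ∀ z, pair (seq f (n + 1)) z ∈ s ↔ z = F
  win : ∀ f : ℕ → ZFSet.{0}, run f ∈ N → (∀ k, A (f k)) →
    ∀ B, (∀ z, z ∈ B ↔ ∃ n F, pair (seq f (n + 1)) F ∈ s ∧ z ∈ F) → C B

/-- In the model `N`, the set `s` is a winning strategy for player II in the game of length `ω` in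
which player I plays in round `n` a set `f n` in `A`, player II answers with an element of `f n`,
and player II wins if the set of the answers is in `C`. The strategy assigns to each finite
sequence `f 0, ..., f n` of sets in `A` exactly one answer. -/
structure WinOne (N : Set ZFSet.{0}) (A C : ZFSet.{0} → Prop) (s : ZFSet.{0}) : Prop where
  mem : s ∈ N
  legal : ∀ (f : ℕ → ZFSet.{0}) (n : ℕ), (∀ k ≤ n, A (f k)) →
    ∃ y ∈ f n, ∀ z, pair (seq f (n + 1)) z ∈ s ↔ z = y
  win : ∀ f : ℕ → ZFSet.{0}, run f ∈ N → (∀ k, A (f k)) →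
    ∀ B, (∀ z, z ∈ B ↔ ∃ n, pair (seq f (n + 1)) z ∈ s) → C B

/-- In the model `N`, player II has a winning strategy in the Menger game on `X` with the topology
generated by `τ`. -/
def MengerII (N : Set ZFSet.{0}) (X τ : ZFSet.{0}) : Prop :=
  ∃ s, WinFin N (IsCover N X τ) (fun B => Covers B X) s

/-- In the model `N`, player II has a winning strategy in the `k`-Menger game on `X` with the
topology generated by `τ`. -/
def KMengerII (N : Set ZFSet.{0}) (X τ : ZFSet.{0}) : Prop :=
  ∃ s, WinFin N (IsKCover N X τ) (KCovers N X τ) s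

/-- In the model `N`, player II has a winning strategy in the `k`-Rothberger game on `X` with the
topology generated by `τ`. -/
def KRothbergerII (N : Set ZFSet.{0}) (X τ : ZFSet.{0}) : Prop :=
  ∃ s, WinOne N (IsKCover N X τ) (KCovers N X τ) s

end Pool.Agent.R597
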