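import Pool.Agent.R597.Nonmg

/-!
# The Cohen real and the covers that avoid its finite modifications
-/

set_option autoImplicit false
set_option linter.unreachableTactic false
set_option linter.unusedTactic false
set_option linter.unusedSectionVars false

namespace Pool.Agent.R597

open Pool.Agent.W868 Pool.Agent.W868.GM Pool.Agent.Y588
open ZFSet (pair)

/-- The Cohen real. -/
noncomputable def cr (G : ZFSet.{0}) : ZFSet.{0} := ZFSet.sUnion (im st G)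

theorem mem_cr {G p : ZFSet.{0}} : p ∈ cr G ↔ ∃ t ∈ G, p ∈ st t := by
  rw [cr, ZFSet.mem_sUnion]
  constructor
  · rintro ⟨y, hy, hp⟩
    obtain ⟨t, ht, rfl⟩ := mem_im.1 hy
    exact ⟨t, ht, hp⟩
  · rintro ⟨t, ht, hp⟩
    exact ⟨_, mem_im.2 ⟨t, ht, rfl⟩, hp⟩

/-- The function that agrees with the finite function coded by `u` on its domain and with `c`
outside of it. -/
noncomputable def zz (c u : ZFSet.{0}) : ZFSet.{0} :=
  st u ∪ ZFSet.sep (fun p => ∀ q ∈ st u, ¬ fs q = fs p) c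

theorem zz_eq {c : ZFSet.{0}} {X : ZFSet.{0}} (hc : ZFSet.IsFunc ZFSet.omega X c)
    (f : ℕ → ZFSet.{0}) (n : ℕ) :
    zz c (seq f n) = run fun k => if k < n then f k else ap c (nat k) := by
  ext p
  rw [zz, ZFSet.mem_union, mem_st, ZFSet.mem_sep, mem_run]
  constructor
  · rintro (⟨k, hk, rfl⟩ | ⟨h1, h2⟩)
    · exact ⟨k, by simp [hk]⟩
    · obtain ⟨a, ha, b, hb, rfl⟩ := ZFSet.mem_prod.1 (hc.1 h1)
      obtain ⟨k, rfl⟩ := mem_omega_iff.1 ha
      refine ⟨k, ?_⟩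
      have h3 : ¬ k < n := fun hk => by
        refine h2 _ (mem_st.2 ⟨k, hk, rfl⟩) ?_
        rw [fs_pair, fs_pair]
      simp only [h3, if_false]
      rw [(func_pair_iff hc k).1 h1]
  · rintro ⟨k, rfl⟩
    by_cases hk : k < n
    · exact Or.inl ⟨k, hk, by simp [hk]⟩
    · simp only [hk, if_false]
      refine Or.inr ⟨(func_pair hc k).1, fun q hq h => ?_⟩
      obtain ⟨l, hl, rfl⟩ := mem_st.1 hq
      rw [fs_pair, fs_pair] at h
      exact hk (nat_injective h ▸ hl)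

theorem zz_func {c u : ZFSet.{0}} (hc : ZFSet.IsFunc ZFSet.omega (nat 2) c) (hu : u ∈ Pc) :
    ZFSet.IsFunc ZFSet.omega (nat 2) (zz c u) := by
  obtain ⟨f, n, hf, rfl⟩ := exists_seq2 hu
  rw [zz_eq hc]
  refine run_func fun k => ?_
  by_cases hk : k < n
  · simp only [hk, if_true]
    exact hf k
  · simp only [hk, if_false]
    exact (func_pair hc k).2

theorem st_sub_zz (c u : ZFSet.{0}) : st u ⊆ zz c u := fun _ h => ZFSet.mem_union.2 (Or.inl h)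

/-- The covers: the complements of the basic open neighbourhoods of `zz c u`. -/
noncomputable def Cv (M : Set ZFSet.{0}) (c u : ZFSet.{0}) : ZFSet.{0} :=
  im (fun t => ZFSet.sep (fun x => ¬ st t ⊆ x) (fnX M (nat 2)))
    (ZFSet.sep (fun t => st t ⊆ zz c u) Pc)

theorem mem_Cv {M : Set ZFSet.{0}} {c u O : ZFSet.{0}} : O ∈ Cv M c u ↔ ∃ t ∈ Pc,
    st t ⊆ zz c u ∧ O = ZFSet.sep (fun x => ¬ st t ⊆ x) (fnX M (nat 2)) := by
  rw [Cv, mem_im]
  constructor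
  · rintro ⟨t, ht, rfl⟩
    obtain ⟨h1, h2⟩ := ZFSet.mem_sep.1 ht
    exact ⟨t, h1, h2, rfl⟩
  · rintro ⟨t, h1, h2, rfl⟩
    exact ⟨t, ZFSet.mem_sep.2 ⟨h1, h2⟩, rfl⟩

/-- Finitely many members of a cover are disjoint from a neighbourhood. -/
theorem Cv_avoid {M : Set ZFSet.{0}} {c u : ZFSet.{0}}
    (hc : ZFSet.IsFunc ZFSet.omega (nat 2) c) (hu : u ∈ Pc) {S : Set ZFSet.{0}} (hS : S.Finite)
    (h : ∀ O ∈ S, O ∈ Cv M c u) :
    ∃ v ∈ Pc, st u ⊆ st v ∧ st v ⊆ zz c u ∧ ∀ O ∈ S, ∀ x ∈ O, ¬ st v ⊆ x := by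
  have hz := zz_func hc hu
  obtain ⟨n, hn⟩ := eq_ini hz hu (st_sub_zz c u)
  have key : ∃ m, n ≤ m ∧ ∀ O ∈ S, ∀ x ∈ O, ¬ st (ini (zz c u) m) ⊆ x := by
    induction S, hS using Set.Finite.induction_on with
    | empty => exact ⟨n, le_rfl, fun O hO => absurd hO (Set.notMem_empty _)⟩
    | @insert O S _ _ ih =>
      obtain ⟨m, hm, h1⟩ := ih fun O' hO' => h O' (Set.mem_insert_of_mem _ hO')
      obtain ⟨t, ht, h2, h3⟩ := mem_Cv.1 (h O (Set.mem_insert _ _))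
      obtain ⟨k, rfl⟩ := eq_ini hz ht h2
      refine ⟨max m k, by omega, fun O' hO' x hx h4 => ?_⟩
      rcases hO' with rfl | hO'
      · rw [h3, ZFSet.mem_sep] at hx
        exact hx.2 fun z hz' => h4 (st_ini_mono (le_max_right _ _) hz')
      · exact h1 O' hO' x hx fun z hz' => h4 (st_ini_mono (le_max_left _ _) hz')
  obtain ⟨m, hm, h1⟩ := key
  refine ⟨ini (zz c u) m, ini_mem hz m, ?_, st_ini_sub hz m, h1⟩
  intro z hz'
  rw [hn] at hz'
  exact st_ini_mono hm hz'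

theorem dfn_zz {N : Set ZFSet.{0}} (hN : IsZF N) {c : ZFSet.{0}} (hc : c ∈ N) :
    DfnF N N fun w : Fin 1 → ZFSet.{0} => zz c (w 0) := by
  have hB := hN.base
  have hst := dfn_st hN
  have hstd : ∀ {m : ℕ} (i : Fin m), DfnF N N fun w : Fin m → ZFSet.{0} => st (w i) := fun i =>
    DfnF.comp1 (f := st) hst (DfnF.proj i)
  refine hB.union' (hstd 0) (hN.sep' (Q := fun p w => ∀ q ∈ st (w 0), ¬ fs q = fs p)
    (DfnF.const hc) ?_)
  apply hB.ball (hstd 1)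
  exact (Dfn.eq (hN.fs' (DfnF.proj 0)) (hN.fs' (DfnF.proj 1))).not

theorem dfn_Cv {M N : Set ZFSet.{0}} (hM : IsZF M) (hN : IsZF N) (hMN : M ⊆ N) {c : ZFSet.{0}}
    (hc : c ∈ N) : DfnF N N fun w : Fin 1 → ZFSet.{0} => Cv M c (w 0) := by
  have hB := hN.base
  have hst := dfn_st hN
  have hX := hMN (Xc_mem hM)
  have hP := hMN (Pc_mem hM)
  have hstd : ∀ {m : ℕ} (i : Fin m), DfnF N N fun w : Fin m → ZFSet.{0} => st (w i) := fun i =>
    DfnF.comp1 (f := st) hst (DfnF.proj i)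
  refine hN.im' (h := fun t _ => ZFSet.sep (fun x => ¬ st t ⊆ x) (fnX M (nat 2)))
    (hN.sep' (Q := fun t w => st t ⊆ zz c (w 0)) (DfnF.const hP) ?_) ?_
  · exact hB.subset' (hstd 0) (DfnF.comp1 (f := zz c) (dfn_zz hN hc) (DfnF.proj 1))
  · refine hN.sep' (Q := fun x w => ¬ st (w 0) ⊆ x) (DfnF.const hX) ?_
    exact (hB.subset' (hstd 1) (DfnF.proj 0)).not

section

variable {M : Set ZFSet.{0}} (hM : IsZFC M) {G : ZFSet.{0}} (hG : IsGeneric M Pc Lc G)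

include hM hG

theorem cr_mem : cr G ∈ ext M G := by
  have hN := isZFC_ext hM (forcing_Pc hM.toIsZF) hG
  have hNZ := hN.toIsZF
  exact hNZ.union _ (hNZ.im_mem (gen_mem_ext hM.toIsZF (forcing_Pc hM.toIsZF) hG) (dfn_st hNZ))

theorem cr_func : ZFSet.IsFunc ZFSet.omega (nat 2) (cr G) := by
  have hZ := hM.toIsZF
  have hB := hZ.base
  have hst := dfn_st hZ
  have h2 := hZ.nat_mem 2
  constructor
  · intro p hp
    obtain ⟨t, ht, hp⟩ := mem_cr.1 hp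
    obtain ⟨f, n, hf, rfl⟩ := exists_seq2 (hG.sub ht)
    obtain ⟨k, -, rfl⟩ := mem_st.1 hp
    exact ZFSet.pair_mem_prod.2 ⟨nat_mem_omega k, hf k⟩
  · intro z hz
    obtain ⟨n, rfl⟩ := mem_omega_iff.1 hz
    have hn := hZ.nat_mem n
    obtain ⟨t, ht, htG⟩ := hG.meet (ZFSet.sep (fun t => ∃ a ∈ nat 2, pair (nat n) a ∈ st t) Pc)
      (by
        refine hZ.sep_mem (Q := fun t => ∃ a ∈ nat 2, pair (nat n) a ∈ st t) ?_ (Pc_mem hZ)
        apply hB.bex (DfnF.const h2)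
        exact Dfn.mem (hB.pair' (DfnF.const hn) (DfnF.proj 0))
          (DfnF.comp1 (f := st) hst (DfnF.proj 1)))
      (fun z hz => (ZFSet.mem_sep.1 hz).1) (by
        intro p hp
        obtain ⟨w, hw, h3, h4⟩ := exists_extend hp n
        exact ⟨w, ZFSet.mem_sep.2 ⟨hw, h4⟩, mem_Lc.2 ⟨hw, hp, h3⟩⟩)
    obtain ⟨-, a, ha, h3⟩ := ZFSet.mem_sep.1 ht
    refine ⟨a, mem_cr.2 ⟨t, htG, h3⟩, fun b hb => ?_⟩
    obtain ⟨t', ht', hb⟩ := mem_cr.1 hb
    obtain ⟨r, hr, h4, h5⟩ := hG.dir t htG t' ht'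
    have h6 := (mem_Lc.1 h4).2.2 h3
    have h7 := (mem_Lc.1 h5).2.2 hb
    obtain ⟨f, l, -, h8⟩ := exists_seq2 (hG.sub hr)
    rw [h8] at h6 h7
    rw [(pair_mem_st.1 h6).2, (pair_mem_st.1 h7).2]

/-- Finite modifications of the Cohen real are not in the ground model. -/
theorem zz_new {u : ZFSet.{0}} (hu : u ∈ Pc) : zz (cr G) u ∉ M := by
  have hZ := hM.toIsZF
  have hB := hZ.base
  have hst := dfn_st hZ
  have hc := cr_func hM hG
  have hz := zz_func hc hu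
  intro hzM
  have hstu : st u ∈ M := hst.1 (fun _ => u) fun _ => hZ.trans _ (Pc_mem hZ) _ hu
  obtain ⟨t, ht, htG⟩ := hG.meet (ZFSet.sep (fun t => ∃ p ∈ st t, (∀ q ∈ st u, ¬ fs q = fs p) ∧
      ¬ p ∈ zz (cr G) u) Pc) (by
      refine hZ.sep_mem (Q := fun t => ∃ p ∈ st t, (∀ q ∈ st u, ¬ fs q = fs p) ∧
        ¬ p ∈ zz (cr G) u) ?_ (Pc_mem hZ)
      apply hB.bex (DfnF.comp1 (f := st) hst (DfnF.proj 0))
      apply Dfn.and
      · apply hB.ball (DfnF.const hstu)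
        exact (Dfn.eq (hZ.fs' (DfnF.proj 0)) (hZ.fs' (DfnF.proj 1))).not
      · exact (Dfn.mem (DfnF.proj 0) (DfnF.const hzM)).not)
    (fun z hz => (ZFSet.mem_sep.1 hz).1) (by
      intro p hp
      obtain ⟨f, n, hf, rfl⟩ := exists_seq2 hp
      obtain ⟨g, m, hg, rfl⟩ := exists_seq2 hu
      set l := max n m with hl
      obtain ⟨y, hy, hy'⟩ := exists_other (x := ap (zz (cr G) (seq g m)) (nat l))
      set f' : ℕ → ZFSet.{0} := fun k => if k < n then f k else y with hf'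
      have hf2 : ∀ k, f' k ∈ nat 2 := by
        intro k
        by_cases hk : k < n
        · simp only [hf', hk, if_true]
          exact hf k
        · simp only [hf', hk, if_false]
          exact hy
      have hl' : f' l = y := by
        have h3 : ¬ l < n := by omega
        simp only [hf', h3, if_false]
      refine ⟨seq f' (l + 1), ZFSet.mem_sep.2 ⟨seq_mem_Pc hf2 _, pair (nat l) y, ?_, ?_, ?_⟩,
        mem_Lc.2 ⟨seq_mem_Pc hf2 _, hp, st_sub.2 ⟨by omega, fun k hk => by simp [hf', hk]⟩⟩⟩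
      · exact pair_mem_st.2 ⟨by omega, hl'.symm⟩
      · intro q hq h3
        obtain ⟨k, hk, rfl⟩ := mem_st.1 hq
        rw [fs_pair, fs_pair] at h3
        have h4 := nat_injective h3
        omega
      · intro h3
        exact hy' ((func_pair_iff hz l).1 h3))
  obtain ⟨-, p, h3, h4, h5⟩ := ZFSet.mem_sep.1 ht
  exact h5 (ZFSet.mem_union.2 (Or.inr (ZFSet.mem_sep.2 ⟨mem_cr.2 ⟨t, htG, h3⟩, h4⟩)))

/-- The covers are covers. -/
theorem Cv_covers {u : ZFSet.{0}} (hu : u ∈ Pc) {x : ZFSet.{0}} (hx : x ∈ fnX M (nat 2)) :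
    ∃ O ∈ Cv M (cr G) u, x ∈ O := by
  obtain ⟨hxM, hxf⟩ := mem_fnX.1 hx
  have hz := zz_func (cr_func hM hG) hu
  obtain ⟨n, hn⟩ := exists_diff hxf hz fun h => zz_new hM hG hu (h ▸ hxM)
  exact ⟨_, mem_Cv.2 ⟨_, ini_mem hz n, st_ini_sub hz n, rfl⟩,
    ZFSet.mem_sep.2 ⟨hx, hn n le_rfl⟩⟩

theorem Cv_open {u O : ZFSet.{0}} (hO : O ∈ Cv M (cr G) u) :
    IsOpenSet (ext M G) (fnX M (nat 2)) (Tc M) O := by
  have hZ := hM.toIsZF
  have hsub := sub_ext hZ (forcing_Pc hZ) hG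
  obtain ⟨t, ht, -, rfl⟩ := mem_Cv.1 hO
  have h1 := compl_mem_Tc hZ ht
  have h2 := hZ.trans _ (Tc_mem hZ) _ h1
  exact ⟨hsub h2, fun z hz => (ZFSet.mem_sep.1 hz).1, fun y hy => ⟨_, h1, hy, fun _ h => h⟩⟩

/-- The main lemma: each strategy of player II that answers to the covers `Cv M c u` with
sets whose points are covered only up to a neighbourhood loses a play. -/
theorem no_win {s : ZFSet.{0}} (hs : s ∈ ext M G) {h : ZFSet.{0} → ZFSet.{0}}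
    (hh : DfnF (ext M G) (ext M G) fun w : Fin 1 → ZFSet.{0} => h (w 0))
    (H : ∀ (g : ℕ → ZFSet.{0}) (n : ℕ), (∀ k, g k ∈ Pc) → ∃ ρ,
      (∀ z, pair (seq (fun k => Cv M (cr G) (g k)) (n + 1)) z ∈ s ↔ z = ρ) ∧
      ∃ v ∈ Pc, st (g n) ⊆ st v ∧ ∀ x ∈ h ρ, ¬ st v ⊆ x) :
    ∃ g : ℕ → ZFSet.{0}, (∀ k, g k ∈ Pc) ∧ run (fun k => Cv M (cr G) (g k)) ∈ ext M G ∧
      ∃ x ∈ fnX M (nat 2), ∀ n ρ, pair (seq (fun k => Cv M (cr G) (g k)) (n + 1)) ρ ∈ s →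
        x ∉ h ρ := by
  have hZ := hM.toIsZF
  have hN := isZFC_ext hM (forcing_Pc hZ) hG
  have hNZ := hN.toIsZF
  have hB := hNZ.base
  have hsub := sub_ext hZ (forcing_Pc hZ) hG
  have hc := cr_mem hM hG
  have hPN := hsub (Pc_mem hZ)
  have h0 := hNZ.empty_mem
  have hst := dfn_st hNZ
  have hSPM : Sq Pc ∈ M := Sq_mem hZ (Pc_mem hZ)
  have hSP := hsub hSPM
  have hCv := dfn_Cv hZ hNZ hsub hc
  -- the sequences of covers
  set Γ : ZFSet.{0} → ZFSet.{0} := fold (fun r a => pair r (Cv M (cr G) a)) ∅ with hΓ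
  have hΓd : DfnF (ext M G) (ext M G) fun w : Fin 1 → ZFSet.{0} => Γ (w 0) :=
    dfn_fold hNZ h0 (hB.pair' (DfnF.proj 0) (DfnF.comp1 (f := Cv M (cr G)) hCv (DfnF.proj 1)))
  have hΓs : ∀ (g : ℕ → ZFSet.{0}) (n : ℕ), Γ (seq g n) = seq (fun k => Cv M (cr G) (g k)) n := by
    intro g n
    induction n with
    | zero => exact fold_empty _ _
    | succ n ih =>
      rw [seq, hΓ, fold_pair, ← hΓ, ih]
      rfl
  -- the relation
  set d : ZFSet.{0} := ZFSet.sep (fun y => ∀ ρ ∈ ext M G,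
    pair (pair (Γ (fs y)) (Cv M (cr G) (fs (sn y)))) ρ ∈ s → ∀ x ∈ h ρ, ¬ st (sn (sn y)) ⊆ x)
    (ZFSet.prod (Sq Pc) (ZFSet.prod Pc Pc)) with hd
  have hdN : d ∈ ext M G := by
    refine hNZ.sep_mem (Q := fun y => ∀ ρ ∈ ext M G,
      pair (pair (Γ (fs y)) (Cv M (cr G) (fs (sn y)))) ρ ∈ s → ∀ x ∈ h ρ,
        ¬ st (sn (sn y)) ⊆ x) ?_ (hNZ.prod_mem hSP (hNZ.prod_mem hPN hPN))
    apply Dfn.all
    apply Dfn.imp
    · refine Dfn.mem (hB.pair' (hB.pair' ?_ ?_) (DfnF.proj 0)) (DfnF.const hs)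
      · exact DfnF.comp1 (f := Γ) hΓd (hNZ.fs' (DfnF.proj 1))
      · exact DfnF.comp1 (f := Cv M (cr G)) hCv (hNZ.fs' (hNZ.sn' (DfnF.proj 1)))
    · apply hB.ball (DfnF.comp1 (f := h) hh (DfnF.proj 0))
      exact (hB.subset' (DfnF.comp1 (f := st) hst (hNZ.sn' (hNZ.sn' (DfnF.proj 2))))
        (DfnF.proj 0)).not
  have hmd : ∀ w ∈ Sq Pc, ∀ u ∈ Pc, ∀ v ∈ Pc, (pair w (pair u v) ∈ d ↔ ∀ ρ ∈ ext M G,
      pair (pair (Γ w) (Cv M (cr G) u)) ρ ∈ s → ∀ x ∈ h ρ, ¬ st v ⊆ x) := by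
    intro w hw u hu v hv
    rw [hd, ZFSet.mem_sep, ZFSet.pair_mem_prod, ZFSet.pair_mem_prod]
    simp only [fs_pair, sn_pair]
    exact ⟨fun h => h.2, fun h => ⟨⟨hw, hu, hv⟩, h⟩⟩
  obtain ⟨x, hx, h1⟩ := nonmeager hM hG hSPM (Sq_countable hZ (Pc_mem hZ) (Pc_countable hZ)) hdN
    (by
      intro w hw u hu
      obtain ⟨g, n, hg, rfl⟩ := exists_seq hw
      obtain ⟨ρ, h2, v, hv, h3, h4⟩ := H (fun k => if k < n then g k else u) n (by
        intro k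
        by_cases hk : k < n
        · simp only [hk, if_true]
          exact hg k hk
        · simp only [hk, if_false]
          exact hu)
      simp only [lt_irrefl, if_false] at h3
      have h5 : seq (fun k => Cv M (cr G) (if k < n then g k else u)) (n + 1) =
          pair (Γ (seq g n)) (Cv M (cr G) u) := by
        rw [seq, hΓs, seq_congr (g := fun k => Cv M (cr G) (g k)) fun k hk => by simp [hk]]
        simp
      rw [h5] at h2
      refine ⟨v, hv, h3, (hmd _ hw _ hu _ hv).2 fun ρ' _ h6 => ?_⟩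
      rw [(h2 ρ').1 h6]
      exact h4)
  -- the play
  have hxN := hsub (mem_fnX.1 hx).1
  have hSN : ZFSet.sep (fun w => w = ∅ ∨ ∀ ρ ∈ ext M G, pair (Γ w) ρ ∈ s → ¬ x ∈ h ρ) (Sq Pc) ∈
      ext M G := by
    refine hNZ.sep_mem (Q := fun w => w = ∅ ∨ ∀ ρ ∈ ext M G, pair (Γ w) ρ ∈ s → ¬ x ∈ h ρ) ?_ hSP
    apply Dfn.or (Dfn.eq (DfnF.proj 0) (DfnF.const h0))
    apply Dfn.all
    apply Dfn.imp
    · exact Dfn.mem (hB.pair' (DfnF.comp1 (f := Γ) hΓd (DfnF.proj 1)) (DfnF.proj 0))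
        (DfnF.const hs)
    · exact (Dfn.mem (DfnF.const hxN) (DfnF.comp1 (f := h) hh (DfnF.proj 0))).not
  obtain ⟨g, hg, hgf, hgS⟩ := exists_branch hN hSN hPN
    (ZFSet.mem_sep.2 ⟨empty_mem_Sq, Or.inl rfl⟩) (by
      intro w hw
      have hw' := (ZFSet.mem_sep.1 hw).1
      obtain ⟨u, hu, v, hv, h2, h3⟩ := h1 w hw'
      refine ⟨u, hu, ZFSet.mem_sep.2 ⟨pair_mem_Sq hw' hu, Or.inr fun ρ hρ h4 h5 => ?_⟩⟩
      rw [hΓ, fold_pair, ← hΓ] at h4
      exact (hmd _ hw' _ hu _ hv).1 h2 ρ hρ h4 x h5 h3)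
  refine ⟨fun k => ap g (nat k), fun k => (func_pair hgf k).2, ?_, x, hx, fun n ρ h2 => ?_⟩
  · have h3 : run (fun k => Cv M (cr G) (ap g (nat k))) =
        im (fun z => pair z (Cv M (cr G) (ap g z))) ZFSet.omega := by
      ext p
      rw [mem_run, mem_im]
      constructor
      · rintro ⟨k, rfl⟩
        exact ⟨_, nat_mem_omega k, rfl⟩
      · rintro ⟨z, hz, rfl⟩
        obtain ⟨k, rfl⟩ := mem_omega_iff.1 hz
        exact ⟨k, rfl⟩
    rw [h3]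
    exact hNZ.im_mem (h := fun z => pair z (Cv M (cr G) (ap g z))) hNZ.infinity
      (hB.pair' (DfnF.proj 0) (DfnF.comp1 (f := Cv M (cr G)) hCv
        (hNZ.ap' (DfnF.const hg) (DfnF.proj 0))))
  · have h3 := (ZFSet.mem_sep.1 (hgS (n + 1))).2
    rcases h3 with h3 | h3
    · exact absurd h3 (pair_ne_empty _ _)
    · rw [hΓs] at h3
      have h4 : ρ ∈ ext M G :=
        (hNZ.of_pair_mem (hNZ.trans _ hs _ h2)).2
      exact h3 ρ h4 h2

end

end Pool.Agent.R597
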