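import Pool.Agent.W868.GM.Dfs

/-!
# The strong countable fan tightness game in a transitive model: the definitions

A class `M : Set ZFSet.{0}` of sets is viewed as the structure `(M, ∈)`, see
`Pool.Agent.W868.Defs` for `IsZF` and `IsZFC`, the transitive models of ZF and ZFC.
-/

set_option autoImplicit false

namespace Pool.Agent.R597

open Pool.Agent.W868 Pool.Agent.W868.GM
open ZFSet (pair)

/-- In the model `M`, the set `τ` is a topology on the set `X`. -/
structure IsTop (M : Set ZFSet.{0}) (X τ : ZFSet.{0}) : Prop where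
  set_mem : X ∈ M
  top_mem : τ ∈ M
  sub : ∀ U ∈ τ, U ⊆ X
  whole : X ∈ τ
  inter : ∀ U ∈ τ, ∀ V ∈ τ, U ∩ V ∈ τ
  union : ∀ s ∈ M, s ⊆ τ → ZFSet.sUnion s ∈ τ

/-- `O` is open in the topology on `X` that is generated by the base `τ` in the model `N`. -/
def IsOpenSet (N : Set ZFSet.{0}) (X τ O : ZFSet.{0}) : Prop :=
  O ∈ N ∧ O ⊆ X ∧ ∀ y ∈ O, ∃ U ∈ τ, y ∈ U ∧ U ⊆ O

/-- In the model `N`, the point `x` is in the closure of the set `A`, for the topology on `X` that
is generated by `τ`. -/
def InCl (N : Set ZFSet.{0}) (X τ x A : ZFSet.{0}) : Prop :=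
  ∀ O, IsOpenSet N X τ O → x ∈ O → ∃ y ∈ A, y ∈ O

/-- The legal moves of player I in the model `N`: the subsets `A` of `X` with `x` in the closure
of `A`. -/
def IsMove (N : Set ZFSet.{0}) (X τ x A : ZFSet.{0}) : Prop :=
  A ∈ N ∧ A ⊆ X ∧ InCl N X τ x A

/-- The code of the finite sequence `f 0, ..., f (n - 1)`. -/
noncomputable def seq (f : ℕ → ZFSet.{0}) : ℕ → ZFSet.{0}
  | 0 => ∅
  | n + 1 => pair (seq f n) (f n)

/-- The infinite sequence `f` as a set: the function on the natural numbers with the values
`f n`. -/
noncomputable def run (f : ℕ → ZFSet.{0}) : ZFSet.{0} := ZFSet.range fun n : ℕ => pair (nat n) (f n)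

/-- In the model `N`, the set `s` is a winning strategy for player II in the strong countable fan
tightness game at the point `x` of the space `X` with the topology that is generated by `τ`:
`s` is a set of pairs; it assigns to each finite sequence `f 0, ..., f n` of legal moves of player
I exactly one answer, and the answer is an element of `f n`; and for each infinite sequence `f` of
legal moves of player I that is in `N`, the point `x` is in the closure of the set of the
answers. -/
structure IsWin (N : Set ZFSet.{0}) (X τ x s : ZFSet.{0}) : Prop where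
  mem : s ∈ N
  legal : ∀ (f : ℕ → ZFSet.{0}) (n : ℕ), (∀ k ≤ n, IsMove N X τ x (f k)) →
    ∃ y ∈ f n, ∀ z, pair (seq f (n + 1)) z ∈ s ↔ z = y
  win : ∀ f : ℕ → ZFSet.{0}, run f ∈ N → (∀ k, IsMove N X τ x (f k)) →
    ∀ A, (∀ z, z ∈ A ↔ ∃ n, pair (seq f (n + 1)) z ∈ s) → InCl N X τ x A

/-- In the model `N`, player II has a winning strategy in the strong countable fan tightness game
at the point `x` of the space `X` with the topology that is generated by `τ`. -/
def IIWins (N : Set ZFSet.{0}) (X τ x : ZFSet.{0}) : Prop := ∃ s, IsWin N X τ x s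

end Pool.Agent.R597
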