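import Pool.Agent.Y588.Gen
import Pool.Agent.Y588.Asg
import Pool.Agent.R597.Game

/-!
# Choice functions, trees and branches in a transitive model of ZFC
-/

set_option autoImplicit false
set_option linter.unreachableTactic false
set_option linter.unusedTactic false

namespace Pool.Agent.R597

open Pool.Agent.W868 Pool.Agent.W868.GM Pool.Agent.Y588
open ZFSet (pair)

/-- Choice functions in a model of ZFC. -/
theorem exists_choice {M : Set ZFSet.{0}} (hM : IsZFC M) {x : ZFSet.{0}} (hx : x ∈ M)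
    {F : ZFSet.{0} → ZFSet.{0}} (hF : DfnF M M fun w : Fin 1 → ZFSet.{0} => F (w 0))
    (hne : ∀ y ∈ x, ∃ z, z ∈ F y) :
    ∃ c ∈ M, ZFSet.IsFunc x (ZFSet.sUnion (im F x)) c ∧ ∀ y ∈ x, ap c y ∈ F y := by
  have hZ := hM.toIsZF
  have hB := hZ.base
  set fam : ZFSet.{0} := im (fun y => ZFSet.prod {y} (F y)) x with hfam
  have hfamM : fam ∈ M := by
    refine hZ.im_mem hx ?_
    exact hZ.prod' (DfnF.comp1 (f := fun a => ({a} : ZFSet.{0})) hB.dfn_single (DfnF.proj 0)) hF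
  obtain ⟨c0, hc0, h1⟩ := hM.choice fam hfamM (by
    intro y hy
    obtain ⟨u, hu, rfl⟩ := mem_im.1 hy
    obtain ⟨z, hz⟩ := hne u hu
    exact ⟨pair u z, ZFSet.pair_mem_prod.2 ⟨by simp, hz⟩⟩) (by
    intro y hy y' hy' z hz hz'
    obtain ⟨u, hu, rfl⟩ := mem_im.1 hy
    obtain ⟨u', hu', rfl⟩ := mem_im.1 hy'
    obtain ⟨a, ha, b, hb, rfl⟩ := ZFSet.mem_prod.1 hz
    rw [ZFSet.mem_singleton] at ha
    have h2 := (ZFSet.pair_mem_prod.1 hz').1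
    rw [ZFSet.mem_singleton] at h2
    rw [← ha, h2])
  set c : ZFSet.{0} := ZFSet.sep (fun p => p ∈ c0) (ZFSet.sUnion fam) with hc
  have hcM : c ∈ M := hZ.sep_mem (Q := fun p => p ∈ c0)
    (Dfn.mem (DfnF.proj 0) (DfnF.const hc0)) (hZ.union _ hfamM)
  have hmem : ∀ y z, pair y z ∈ c ↔ y ∈ x ∧ z ∈ F y ∧ pair y z ∈ c0 := by
    intro y z
    rw [hc, ZFSet.mem_sep, ZFSet.mem_sUnion]
    constructor
    · rintro ⟨⟨w, hw, hp⟩, h3⟩
      obtain ⟨u, hu, rfl⟩ := mem_im.1 hw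
      obtain ⟨h4, h5⟩ := ZFSet.pair_mem_prod.1 hp
      rw [ZFSet.mem_singleton] at h4
      subst h4
      exact ⟨hu, h5, h3⟩
    · rintro ⟨h3, h4, h5⟩
      exact ⟨⟨_, mem_im.2 ⟨y, h3, rfl⟩, ZFSet.pair_mem_prod.2 ⟨by simp, h4⟩⟩, h5⟩
  have hfun : ZFSet.IsFunc x (ZFSet.sUnion (im F x)) c := by
    constructor
    · intro p hp
      obtain ⟨⟨w, hw, hp'⟩, h3⟩ := (by
        rw [hc, ZFSet.mem_sep, ZFSet.mem_sUnion] at hp
        exact hp)
      obtain ⟨u, hu, rfl⟩ := mem_im.1 hw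
      obtain ⟨a, ha, b, hb, rfl⟩ := ZFSet.mem_prod.1 hp'
      rw [ZFSet.mem_singleton] at ha
      subst ha
      exact ZFSet.pair_mem_prod.2 ⟨hu, ZFSet.mem_sUnion.2 ⟨_, mem_im.2 ⟨_, hu, rfl⟩, hb⟩⟩
    · intro y hy
      obtain ⟨p, ⟨hp1, hp2⟩, hp3⟩ := h1 _ (mem_im.2 ⟨y, hy, rfl⟩)
      obtain ⟨a, ha, b, hb, rfl⟩ := ZFSet.mem_prod.1 hp1
      rw [ZFSet.mem_singleton] at ha
      subst ha
      refine ⟨b, (hmem _ _).2 ⟨hy, hb, hp2⟩, fun b' hb' => ?_⟩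
      obtain ⟨-, h4, h5⟩ := (hmem _ _).1 hb'
      exact (ZFSet.pair_inj.1 (hp3 (pair a b') ⟨ZFSet.pair_mem_prod.2 ⟨by simp, h4⟩, h5⟩)).2
  refine ⟨c, hcM, hfun, fun y hy => ?_⟩
  obtain ⟨z, -, hz⟩ := fun_exists hfun hy
  rw [ap_func hfun hz]
  exact ((hmem _ _).1 hz).2.1

/-! ### Finite sequences -/

theorem pair_ne_empty (x y : ZFSet.{0}) : pair x y ≠ ∅ := by
  intro h
  have h1 : ({x} : ZFSet.{0}) ∈ pair x y := by simp [pair]
  rw [h] at h1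
  exact ZFSet.notMem_empty _ h1

theorem seq_congr {f g : ℕ → ZFSet.{0}} {n : ℕ} (h : ∀ k < n, f k = g k) : seq f n = seq g n := by
  induction n with
  | zero => rfl
  | succ n ih => rw [seq, seq, ih fun k hk => h k (by omega), h n (by omega)]

theorem seq_inj {f g : ℕ → ZFSet.{0}} : ∀ {n m : ℕ}, seq f n = seq g m →
    n = m ∧ ∀ k < n, f k = g k
  | 0, 0, _ => ⟨rfl, fun k hk => by omega⟩
  | 0, m + 1, h => absurd h.symm (pair_ne_empty _ _)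
  | n + 1, 0, h => absurd h (pair_ne_empty _ _)
  | n + 1, m + 1, h => by
    obtain ⟨h1, h2⟩ := ZFSet.pair_inj.1 h
    obtain ⟨rfl, h3⟩ := seq_inj h1
    refine ⟨rfl, fun k hk => ?_⟩
    rcases Nat.lt_succ_iff_lt_or_eq.1 hk with h4 | rfl
    · exact h3 k h4
    · exact h2

theorem itr_ind {T : ZFSet.{0} → ZFSet.{0}} {a : ZFSet.{0}} {Q : ZFSet.{0} → Prop}
    (h0 : ∀ x ∈ a, Q x) (h1 : ∀ z, (∀ x ∈ z, Q x) → ∀ x ∈ T z, Q x) (z : ZFSet.{0}) :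
    ∀ x ∈ itr T a z, Q x := by
  induction z using ZFSet.inductionOn with
  | _ z ih =>
    intro x hx
    rcases mem_itr.1 hx with h | ⟨u, hu, h⟩
    · exact h0 x h
    · exact h1 _ (ih u hu) x h

/-- The set of the codes of the finite sequences from `W`. -/
noncomputable def Sq (W : ZFSet.{0}) : ZFSet.{0} :=
  itr (fun z => ZFSet.prod z W) {∅} ZFSet.omega

theorem Sq_mem {M : Set ZFSet.{0}} (hM : IsZF M) {W : ZFSet.{0}} (hW : W ∈ M) : Sq W ∈ M :=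
  itr_mem_M hM (hM.single_mem hM.empty_mem) hM.infinity
    (hM.prod' (DfnF.proj 0) (DfnF.const hW))

theorem empty_mem_Sq {W : ZFSet.{0}} : ∅ ∈ Sq W := itr_base (by simp)

theorem pair_mem_Sq {W t a : ZFSet.{0}} (ht : t ∈ Sq W) (ha : a ∈ W) : pair t a ∈ Sq W := by
  obtain ⟨k, hk⟩ := mem_itr_omega ht
  exact mem_itr.2 (Or.inr ⟨nat k, nat_mem_omega k, ZFSet.pair_mem_prod.2 ⟨hk, ha⟩⟩)

theorem mem_Sq_cases {W t : ZFSet.{0}} (ht : t ∈ Sq W) :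
    t = ∅ ∨ ∃ u ∈ Sq W, ∃ a ∈ W, t = pair u a := by
  rcases mem_itr.1 ht with h | ⟨u, hu, h⟩
  · exact Or.inl (by simpa using h)
  · obtain ⟨a, ha, b, hb, rfl⟩ := ZFSet.mem_prod.1 h
    obtain ⟨k, rfl⟩ := mem_omega_iff.1 hu
    exact Or.inr ⟨a, itr_mono nat_subset_omega ha, b, hb, rfl⟩

theorem Sq_ind {W : ZFSet.{0}} {Q : ZFSet.{0} → Prop} (h0 : Q ∅)
    (h1 : ∀ t ∈ Sq W, ∀ a ∈ W, Q t → Q (pair t a)) : ∀ t ∈ Sq W, Q t := by
  intro t ht
  obtain ⟨k, hk⟩ := mem_itr_omega ht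
  clear ht
  induction k using Nat.strong_induction_on generalizing t with
  | _ k ih =>
    rcases mem_itr.1 hk with h | ⟨u, hu, h⟩
    · have h2 : t = ∅ := by simpa using h
      exact h2 ▸ h0
    · obtain ⟨a, ha, b, hb, rfl⟩ := ZFSet.mem_prod.1 h
      obtain ⟨l, rfl⟩ := mem_omega_iff.1 ((nat_subset_omega (k := k)) hu)
      have hl : l < k := by
        rw [nat_eq, nat_eq, Ordinal.toZFSet_mem_toZFSet_iff] at hu
        exact_mod_cast hu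
      exact h1 a (itr_mono nat_subset_omega ha) b hb (ih l hl a ha)

theorem seq_mem_Sq {W : ZFSet.{0}} {f : ℕ → ZFSet.{0}} : ∀ {n : ℕ}, (∀ k < n, f k ∈ W) →
    seq f n ∈ Sq W
  | 0, _ => empty_mem_Sq
  | n + 1, h => pair_mem_Sq (seq_mem_Sq fun k hk => h k (by omega)) (h n (by omega))

theorem exists_seq {W : ZFSet.{0}} {t : ZFSet.{0}} (ht : t ∈ Sq W) :
    ∃ (f : ℕ → ZFSet.{0}) (n : ℕ), (∀ k < n, f k ∈ W) ∧ t = seq f n := by
  refine Sq_ind (Q := fun t => ∃ (f : ℕ → ZFSet.{0}) (n : ℕ), (∀ k < n, f k ∈ W) ∧ t = seq f n)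
    ⟨fun _ => ∅, 0, fun k hk => by omega, rfl⟩ ?_ t ht
  rintro t - a ha ⟨f, n, h1, rfl⟩
  refine ⟨fun k => if k < n then f k else a, n + 1, fun k hk => ?_, ?_⟩
  · by_cases h : k < n
    · simp only [h, if_true]
      exact h1 k h
    · simp only [h, if_false]
      exact ha
  · rw [seq]
    simp only [lt_irrefl, if_false]
    congr 1
    exact seq_congr fun k hk => by simp [hk]

end Pool.Agent.R597
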