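import Pool.Agent.R597.CReal
import Pool.Agent.R597.CGame

/-!
# Finite sets, compactness of the Cantor space, and the games on it
-/

set_option autoImplicit false
set_option linter.unreachableTactic false
set_option linter.unusedTactic false
set_option linter.unusedSectionVars false

namespace Pool.Agent.R597

open Pool.Agent.W868 Pool.Agent.W868.GM Pool.Agent.Y588
open ZFSet (pair)

/-- `F` is finite in the model. -/
def FinM (M : Set ZFSet.{0}) (F : ZFSet.{0}) : Prop :=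
  ∃ n ∈ ZFSet.omega, ∃ f ∈ M, IsInj F n f

theorem FinM.isFin {M : Set ZFSet.{0}} {F : ZFSet.{0}} (h : FinM M F) : IsFin F := by
  obtain ⟨n, hn, f, -, hf⟩ := h
  obtain ⟨n, rfl⟩ := mem_omega_iff.1 hn
  have h1 : {x | x ∈ nat n}.Finite := by
    refine (Set.finite_range fun k : Fin n => nat k).subset fun x hx => ?_
    obtain ⟨k, hk, rfl⟩ := mem_nat_iff'.1 hx
    exact ⟨⟨k, hk⟩, rfl⟩
  refine Set.Finite.of_injOn (f := ap f) (t := {x | x ∈ nat n}) ?_ ?_ h1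
  · intro a ha
    obtain ⟨b, hb, h2⟩ := fun_exists hf.1 ha
    rw [ap_func hf.1 h2]
    exact hb
  · intro a ha b hb h2
    obtain ⟨c, hc, h3⟩ := fun_exists hf.1 ha
    obtain ⟨d, hd, h4⟩ := fun_exists hf.1 hb
    rw [ap_func hf.1 h3, ap_func hf.1 h4] at h2
    subst h2
    exact hf.2 _ _ _ h3 h4

theorem finM_of_finite {M : Set ZFSet.{0}} (hM : IsZF M) {S : Set ZFSet.{0}} (hS : S.Finite)
    (h : S ⊆ M) : ∃ F ∈ M, (∀ x, x ∈ F ↔ x ∈ S) ∧ FinM M F := by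
  induction S, hS using Set.Finite.induction_on with
  | empty =>
    refine ⟨∅, hM.empty_mem, fun x => ⟨fun h => absurd h (ZFSet.notMem_empty _), fun h =>
      absurd h (Set.notMem_empty _)⟩, nat 0, nat_mem_omega 0, ∅, hM.empty_mem, ⟨⟨?_, ?_⟩, ?_⟩⟩
    · exact fun p hp => absurd hp (ZFSet.notMem_empty _)
    · exact fun z hz => absurd hz (ZFSet.notMem_empty _)
    · exact fun a b c ha => absurd ha (ZFSet.notMem_empty _)
  | @insert a S haS hSf ih =>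
    obtain ⟨F, hF, h1, n, hn, f, hf, hfi⟩ := ih fun x hx => h (Set.mem_insert_of_mem _ hx)
    obtain ⟨n, rfl⟩ := mem_omega_iff.1 hn
    have ha : a ∈ M := h (Set.mem_insert _ _)
    have haF : a ∉ F := fun h2 => haS ((h1 a).1 h2)
    have hnn : ∀ x ∈ nat n, x ≠ nat n := by
      rintro x hx rfl
      exact ZFSet.mem_irrefl _ hx
    refine ⟨insert a F, hM.insert_mem ha hF, fun x => ?_, nat (n + 1), nat_mem_omega _,
      insert (pair a (nat n)) f, hM.insert_mem (hM.pair_mem ha (hM.nat_mem n)) hf,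
      ⟨⟨?_, ?_⟩, ?_⟩⟩
    · rw [ZFSet.mem_insert_iff, h1, Set.mem_insert_iff]
    · intro p hp
      rcases ZFSet.mem_insert_iff.1 hp with rfl | hp
      · exact ZFSet.pair_mem_prod.2 ⟨ZFSet.mem_insert _ _, ZFSet.mem_insert _ _⟩
      · obtain ⟨x, hx, y, hy, rfl⟩ := ZFSet.mem_prod.1 (hfi.1.1 hp)
        exact ZFSet.pair_mem_prod.2 ⟨ZFSet.mem_insert_of_mem _ hx, ZFSet.mem_insert_of_mem _ hy⟩
    · intro z hz
      rcases ZFSet.mem_insert_iff.1 hz with rfl | hz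
      · refine ⟨nat n, ZFSet.mem_insert _ _, fun y hy => ?_⟩
        rcases ZFSet.mem_insert_iff.1 hy with h2 | h2
        · exact (ZFSet.pair_inj.1 h2).2
        · exact absurd (ZFSet.pair_mem_prod.1 (hfi.1.1 h2)).1 haF
      · obtain ⟨y, hy, hy'⟩ := hfi.1.2 z hz
        refine ⟨y, ZFSet.mem_insert_of_mem _ hy, fun y' h2 => ?_⟩
        rcases ZFSet.mem_insert_iff.1 h2 with h2 | h2
        · exact absurd ((ZFSet.pair_inj.1 h2).1 ▸ hz) haF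
        · exact hy' y' h2
    · intro x y z hx hy
      rcases ZFSet.mem_insert_iff.1 hx with h2 | h2 <;>
        rcases ZFSet.mem_insert_iff.1 hy with h3 | h3
      · rw [(ZFSet.pair_inj.1 h2).1, (ZFSet.pair_inj.1 h3).1]
      · exact absurd (ZFSet.pair_inj.1 h2).2 (hnn _ (ZFSet.pair_mem_prod.1 (hfi.1.1 h3)).2)
      · exact absurd (ZFSet.pair_inj.1 h3).2 (hnn _ (ZFSet.pair_mem_prod.1 (hfi.1.1 h2)).2)
      · exact hfi.2 _ _ _ h2 h3

theorem finM_iff {M : Set ZFSet.{0}} (hM : IsZF M) {F : ZFSet.{0}} (hF : F ∈ M) :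
    FinM M F ↔ IsFin F := by
  refine ⟨FinM.isFin, fun h => ?_⟩
  obtain ⟨F', -, h1, h2⟩ := finM_of_finite hM h fun x hx => hM.trans _ hF _ hx
  have h3 : F' = F := by
    ext x
    exact h1 x
  exact h3 ▸ h2

theorem dfn_finM {M : Set ZFSet.{0}} (hM : IsZF M) {n : ℕ}
    {F : (Fin n → ZFSet.{0}) → ZFSet.{0}} (hF : DfnF M M F) : Dfn M M fun v => FinM M (F v) := by
  have hB := hM.base
  apply hB.bex (DfnF.const hM.infinity)
  apply Dfn.ex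
  exact hB.isInj' hF.tail.tail (DfnF.proj 1) (DfnF.proj 0)

theorem dfn_covers {M : Set ZFSet.{0}} (hM : IsZF M) {n : ℕ}
    {F K : (Fin n → ZFSet.{0}) → ZFSet.{0}} (hF : DfnF M M F) (hK : DfnF M M K) :
    Dfn M M fun v => Covers (F v) (K v) := by
  have hB := hM.base
  apply hB.ball hK
  apply hB.bex hF.tail
  exact Dfn.mem (DfnF.proj 1) (DfnF.proj 0)

/-- The Cantor space is compact. -/
theorem compact {M : Set ZFSet.{0}} (hM : IsZFC M) :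
    IsComp M (fnX M (nat 2)) (Tc M) (fnX M (nat 2)) := by
  have hZ := hM.toIsZF
  have hB := hZ.base
  have hst := dfn_st hZ
  have hX := Xc_mem hZ
  have hP := Pc_mem hZ
  have h0 := hZ.empty_mem
  refine ⟨hX, fun _ h => h, fun 𝒰 h𝒰 hO hcov => ?_⟩
  by_contra hc
  -- the conditions whose neighbourhood is not covered by a finite subfamily
  set S : ZFSet.{0} := ZFSet.sep (fun t => ¬ ∃ F ∈ M, F ⊆ 𝒰 ∧ FinM M F ∧
    Covers F (box (fnX M (nat 2)) t)) Pc with hS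
  have hSM : S ∈ M := by
    refine hZ.sep_mem (Q := fun t => ¬ ∃ F ∈ M, F ⊆ 𝒰 ∧ FinM M F ∧
      Covers F (box (fnX M (nat 2)) t)) ?_ hP
    apply Dfn.not
    apply Dfn.ex
    refine (hB.subset' (DfnF.proj 0) (DfnF.const h𝒰)).and
      ((dfn_finM hZ (DfnF.proj 0)).and (dfn_covers hZ (DfnF.proj 0) ?_))
    refine hZ.sep' (Q := fun x w => st (w 1) ⊆ x) (DfnF.const hX) ?_
    exact hB.subset' (DfnF.comp1 (f := st) hst (DfnF.proj 2)) (DfnF.proj 0)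
  have h0S : ∅ ∈ S := by
    refine ZFSet.mem_sep.2 ⟨empty_mem_Sq, ?_⟩
    rintro ⟨F, -, hF1, hF2, hF3⟩
    refine hc ⟨F, hF1, hF2.isFin, fun x hx => hF3 x (ZFSet.mem_sep.2 ⟨hx, ?_⟩)⟩
    rw [st_empty]
    exact fun z hz => absurd hz (ZFSet.notMem_empty _)
  have hprune : ∀ t ∈ S, ∃ a ∈ nat 2, pair t a ∈ S := by
    intro t ht
    obtain ⟨htP, ht⟩ := ZFSet.mem_sep.1 ht
    by_contra hcon
    push Not at hcon
    apply ht
    have h1 : ∀ a ∈ nat 2, ∃ F ∈ M, F ⊆ 𝒰 ∧ FinM M F ∧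
        Covers F (box (fnX M (nat 2)) (pair t a)) := by
      intro a ha
      by_contra h2
      exact hcon a ha (ZFSet.mem_sep.2 ⟨pair_mem_Sq htP ha, h2⟩)
    obtain ⟨F0, hF0, s0, f0, c0⟩ := h1 _ zero_two
    obtain ⟨F1, hF1, s1, f1, c1⟩ := h1 _ one_two
    have hU := hZ.union_mem hF0 hF1
    refine ⟨F0 ∪ F1, hU, ?_, (finM_iff hZ hU).2 ?_, ?_⟩
    · intro z hz
      rcases ZFSet.mem_union.1 hz with h | h
      · exact s0 h
      · exact s1 h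
    · have h3 : {x | x ∈ F0 ∪ F1} = {x | x ∈ F0} ∪ {x | x ∈ F1} := by
        ext x
        exact ZFSet.mem_union
      rw [IsFin, h3]
      exact f0.isFin.union f1.isFin
    · intro x hx
      obtain ⟨hxX, hxt⟩ := ZFSet.mem_sep.1 hx
      have hxf := (mem_fnX.1 hxX).2
      obtain ⟨n, hn⟩ := eq_ini hxf htP hxt
      have h4 : st (pair t (ap x (nat n))) ⊆ x := by
        rw [hn]
        exact st_ini_sub hxf (n + 1)
      rcases mem_two.1 (func_pair hxf n).2 with h5 | h5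
      · rw [h5] at h4
        obtain ⟨O, hO, hxO⟩ := c0 x (ZFSet.mem_sep.2 ⟨hxX, h4⟩)
        exact ⟨O, ZFSet.mem_union.2 (Or.inl hO), hxO⟩
      · rw [h5] at h4
        obtain ⟨O, hO, hxO⟩ := c1 x (ZFSet.mem_sep.2 ⟨hxX, h4⟩)
        exact ⟨O, ZFSet.mem_union.2 (Or.inr hO), hxO⟩
  obtain ⟨g, hg, hgf, hgS⟩ := exists_branch hM hSM (hZ.nat_mem 2) h0S hprune
  have hgX : g ∈ fnX M (nat 2) := mem_fnX.2 ⟨hg, hgf⟩
  obtain ⟨O, hO𝒰, hgO⟩ := hcov g hgX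
  obtain ⟨hOM, -, h1⟩ := hO O hO𝒰
  obtain ⟨U, hU, hgU, hUO⟩ := h1 g hgO
  obtain ⟨t, ht, htg, h2⟩ := (ZFSet.mem_sep.1 hU).2 g hgU
  obtain ⟨n, rfl⟩ := eq_ini hgf ht htg
  refine (ZFSet.mem_sep.1 (hgS n)).2 ⟨{O}, hZ.single_mem hOM, ?_,
    (finM_iff hZ (hZ.single_mem hOM)).2 ?_, ?_⟩
  · intro z hz
    rw [ZFSet.mem_singleton.1 hz]
    exact hO𝒰
  · have h3 : {x | x ∈ ({O} : ZFSet.{0})} = {O} := by
      ext x
      exact ZFSet.mem_singleton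
    rw [IsFin, h3]
    exact Set.finite_singleton _
  · intro x hx
    obtain ⟨hxX, hxt⟩ := ZFSet.mem_sep.1 hx
    exact ⟨O, by simp, hUO (h2 x hxX hxt)⟩

/-- A point is compact. -/
theorem comp_single {N : Set ZFSet.{0}} (hN : IsZF N) {X τ x : ZFSet.{0}} (hx : x ∈ X)
    (hxN : x ∈ N) : IsComp N X τ {x} := by
  refine ⟨hN.single_mem hxN, fun z hz => by rwa [ZFSet.mem_singleton.1 hz],
    fun 𝒰 _ _ hcov => ?_⟩
  obtain ⟨O, hO, hxO⟩ := hcov x (by simp)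
  refine ⟨{O}, fun z hz => by rwa [ZFSet.mem_singleton.1 hz], ?_, fun y hy => ?_⟩
  · have h3 : {x | x ∈ ({O} : ZFSet.{0})} = {O} := by
      ext x
      exact ZFSet.mem_singleton
    rw [IsFin, h3]
    exact Set.finite_singleton _
  · rw [ZFSet.mem_singleton.1 hy]
    exact ⟨O, by simp, hxO⟩

/-! ### Winning strategies on the Cantor space in the ground model -/

section

variable {M : Set ZFSet.{0}} (hM : IsZFC M)

include hM

theorem pair_seq_mem {W : ZFSet.{0}} {k : ZFSet.{0} → ZFSet.{0}} {f : ℕ → ZFSet.{0}} {n : ℕ}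
    (hf : ∀ i ≤ n, f i ∈ W) {z : ZFSet.{0}} :
    pair (seq f (n + 1)) z ∈ im (fun t => pair t (k (sn t))) (Sq W) ↔ z = k (f n) := by
  rw [mem_im]
  constructor
  · rintro ⟨t, ht, h⟩
    obtain ⟨rfl, rfl⟩ := ZFSet.pair_inj.1 h
    rw [seq, sn_pair]
  · rintro rfl
    exact ⟨seq f (n + 1), seq_mem_Sq fun i hi => hf i (by omega), by rw [seq, sn_pair]⟩

theorem cover_sub {𝒰 : ZFSet.{0}} (h𝒰 : 𝒰 ∈ M)
    (h : ∀ O ∈ 𝒰, IsOpenSet M (fnX M (nat 2)) (Tc M) O) :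
    𝒰 ∈ pwM M (pwM M (fnX M (nat 2))) :=
  mem_pwM.2 ⟨h𝒰, fun O hO => mem_pwM.2 ⟨(h O hO).1, (h O hO).2.1⟩⟩

theorem menger_ground : MengerII M (fnX M (nat 2)) (Tc M) := by
  have hZ := hM.toIsZF
  have hB := hZ.base
  have hX := Xc_mem hZ
  set X := fnX M (nat 2) with hXdef
  set Q := pwM M (pwM M X) with hQdef
  have hQ : Q ∈ M := pwM_mem hZ (pwM_mem hZ hX)
  have hFd : DfnF M M fun w : Fin 1 → ZFSet.{0} =>
      ZFSet.sep (fun F => FinM M F ∧ Covers F X) (pwM M (w 0)) := by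
    refine hZ.sep' (Q := fun F w => FinM M F ∧ Covers F X) (pwM' hZ (DfnF.proj 0)) ?_
    exact (dfn_finM hZ (DfnF.proj 0)).and (dfn_covers hZ (DfnF.proj 0) (DfnF.const hX))
  obtain ⟨c, hc, -, hcF⟩ := exists_choice hM
    (x := ZFSet.sep (fun 𝒰 => ∃ F ∈ pwM M 𝒰, FinM M F ∧ Covers F X) Q) (by
      refine hZ.sep_mem (Q := fun 𝒰 => ∃ F ∈ pwM M 𝒰, FinM M F ∧ Covers F X) ?_ hQ
      apply hB.bex (pwM' hZ (DfnF.proj 0))
      exact (dfn_finM hZ (DfnF.proj 0)).and (dfn_covers hZ (DfnF.proj 0) (DfnF.const hX)))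
    (F := fun 𝒰 => ZFSet.sep (fun F => FinM M F ∧ Covers F X) (pwM M 𝒰)) hFd (by
      intro 𝒰 h𝒰
      obtain ⟨-, F, hF, h1⟩ := ZFSet.mem_sep.1 h𝒰
      exact ⟨F, ZFSet.mem_sep.2 ⟨hF, h1⟩⟩)
  have hcc : ∀ 𝒰, IsCover M X (Tc M) 𝒰 → 𝒰 ∈ Q ∧ ap c 𝒰 ⊆ 𝒰 ∧ IsFin (ap c 𝒰) ∧
      Covers (ap c 𝒰) X := by
    rintro 𝒰 ⟨h1, h2, h3⟩
    have h4 := cover_sub hM h1 h2
    obtain ⟨F, hF1, hF2, hF3⟩ := (compact hM).2.2 𝒰 h1 h2 h3
    have hFM : ∀ x ∈ {x | x ∈ F}, x ∈ M := fun x hx => hZ.trans _ h1 _ (hF1 hx)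
    obtain ⟨F', hF', h5, h6⟩ := finM_of_finite hZ hF2 hFM
    have h7 : F' = F := by
      ext x
      exact h5 x
    subst h7
    have h8 := hcF 𝒰 (ZFSet.mem_sep.2 ⟨h4, F', mem_pwM.2 ⟨hF', hF1⟩, h6, hF3⟩)
    obtain ⟨h9, h10, h11⟩ := ZFSet.mem_sep.1 h8
    exact ⟨h4, (mem_pwM.1 h9).2, h10.isFin, h11⟩
  refine ⟨im (fun t => pair t (ap c (sn t))) (Sq Q), ?_, ?_, ?_⟩
  · exact hZ.im_mem (Sq_mem hZ hQ) (hB.pair' (DfnF.proj 0)
      (hZ.ap' (DfnF.const hc) (hZ.sn' (DfnF.proj 0))))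
  · intro f n hf
    obtain ⟨-, h1, h2, -⟩ := hcc (f n) (hf n le_rfl)
    exact ⟨ap c (f n), h1, h2, fun z => pair_seq_mem hM (k := ap c) fun i hi =>
      (hcc _ (hf i hi)).1⟩
  · intro f _ hf B hB' x hx
    obtain ⟨-, -, -, h3⟩ := hcc (f 0) (hf 0)
    obtain ⟨O, hO, hxO⟩ := h3 x hx
    refine ⟨O, (hB' O).2 ⟨0, ap c (f 0), ?_, hO⟩, hxO⟩
    exact (pair_seq_mem hM (k := ap c) fun i _ => (hcc _ (hf i)).1).2 rfl

theorem kcover_univ {𝒰 : ZFSet.{0}} (h : IsKCover M (fnX M (nat 2)) (Tc M) 𝒰) :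
    𝒰 ∈ pwM M (pwM M (fnX M (nat 2))) ∧ fnX M (nat 2) ∈ 𝒰 := by
  obtain ⟨h1, h2, h3⟩ := h
  refine ⟨cover_sub hM h1 h2, ?_⟩
  obtain ⟨O, hO, hXO⟩ := h3 _ (compact hM)
  have h4 : O = fnX M (nat 2) := by
    apply ZFSet.ext
    intro z
    exact ⟨fun hz => (h2 O hO).2.1 hz, fun hz => hXO hz⟩
  exact h4 ▸ hO

theorem krothberger_ground : KRothbergerII M (fnX M (nat 2)) (Tc M) := by
  have hZ := hM.toIsZF
  have hB := hZ.base
  have hX := Xc_mem hZ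
  refine ⟨im (fun t => pair t ((fun _ => fnX M (nat 2)) (sn t)))
    (Sq (pwM M (pwM M (fnX M (nat 2))))), ?_, ?_, ?_⟩
  · exact hZ.im_mem (Sq_mem hZ (pwM_mem hZ (pwM_mem hZ hX)))
      (hB.pair' (DfnF.proj 0) (DfnF.const hX))
  · intro f n hf
    exact ⟨fnX M (nat 2), (kcover_univ hM (hf n le_rfl)).2, fun z =>
      pair_seq_mem hM (k := fun _ => fnX M (nat 2)) fun i hi => (kcover_univ hM (hf i hi)).1⟩
  · intro f _ hf B hB' K hK
    refine ⟨fnX M (nat 2), (hB' _).2 ⟨0, ?_⟩, hK.2.1⟩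
    exact (pair_seq_mem hM (k := fun _ => fnX M (nat 2)) fun i _ =>
      (kcover_univ hM (hf i)).1).2 rfl

theorem kmenger_ground : KMengerII M (fnX M (nat 2)) (Tc M) := by
  have hZ := hM.toIsZF
  have hB := hZ.base
  have hX := Xc_mem hZ
  refine ⟨im (fun t => pair t ((fun _ => {fnX M (nat 2)}) (sn t)))
    (Sq (pwM M (pwM M (fnX M (nat 2))))), ?_, ?_, ?_⟩
  · exact hZ.im_mem (Sq_mem hZ (pwM_mem hZ (pwM_mem hZ hX)))
      (hB.pair' (DfnF.proj 0) (DfnF.const (hZ.single_mem hX)))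
  · intro f n hf
    refine ⟨{fnX M (nat 2)}, fun z hz => ?_, ?_, fun z =>
      pair_seq_mem hM (k := fun _ => {fnX M (nat 2)}) fun i hi => (kcover_univ hM (hf i hi)).1⟩
    · rw [ZFSet.mem_singleton.1 hz]
      exact (kcover_univ hM (hf n le_rfl)).2
    · have h3 : {x | x ∈ ({fnX M (nat 2)} : ZFSet.{0})} = {fnX M (nat 2)} := by
        ext x
        exact ZFSet.mem_singleton
      rw [IsFin, h3]
      exact Set.finite_singleton _
  · intro f _ hf B hB' K hK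
    refine ⟨fnX M (nat 2), (hB' _).2 ⟨0, {fnX M (nat 2)}, ?_, by simp⟩, hK.2.1⟩
    exact (pair_seq_mem hM (k := fun _ => {fnX M (nat 2)}) fun i _ =>
      (kcover_univ hM (hf i)).1).2 rfl

end

/-! ### No winning strategies in the extension -/

section

variable {M : Set ZFSet.{0}} (hM : IsZFC M) {G : ZFSet.{0}} (hG : IsGeneric M Pc Lc G)

include hM hG

theorem Cv_mem {u : ZFSet.{0}} (hu : u ∈ Pc) : Cv M (cr G) u ∈ ext M G := by
  have hZ := hM.toIsZF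
  have hN := (isZFC_ext hM (forcing_Pc hZ) hG).toIsZF
  have hsub := sub_ext hZ (forcing_Pc hZ) hG
  exact (dfn_Cv hZ hN hsub (cr_mem hM hG)).1 (fun _ => u) fun _ =>
    hsub (hZ.trans _ (Pc_mem hZ) _ hu)

theorem Cv_isCover {u : ZFSet.{0}} (hu : u ∈ Pc) :
    IsCover (ext M G) (fnX M (nat 2)) (Tc M) (Cv M (cr G) u) :=
  ⟨Cv_mem hM hG hu, fun _ hO => Cv_open hM hG hO, fun _ hx => Cv_covers hM hG hu hx⟩

theorem Cv_isKCover {u : ZFSet.{0}} (hu : u ∈ Pc) :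
    IsKCover (ext M G) (fnX M (nat 2)) (Tc M) (Cv M (cr G) u) := by
  obtain ⟨h1, h2, h3⟩ := Cv_isCover hM hG hu
  refine ⟨h1, h2, fun K hK => ?_⟩
  obtain ⟨F, hF, hFf, hFc⟩ := hK.2.2 _ h1 h2 fun x hx => h3 x (hK.2.1 hx)
  obtain ⟨v, hv, -, h4, h5⟩ := Cv_avoid (M := M) (cr_func hM hG) hu hFf fun O hO => hF hO
  refine ⟨_, mem_Cv.2 ⟨v, hv, h4, rfl⟩, fun x hx => ZFSet.mem_sep.2 ⟨hK.2.1 hx, ?_⟩⟩
  obtain ⟨O, hO, hxO⟩ := hFc x hx
  exact h5 O hO x hxO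

theorem no_winFin {A : ZFSet.{0} → Prop} {C : ZFSet.{0} → Prop}
    (hA : ∀ u ∈ Pc, A (Cv M (cr G) u)) (hC : ∀ B, C B → Covers B (fnX M (nat 2))) :
    ¬ ∃ s, WinFin (ext M G) A C s := by
  rintro ⟨s, hs, hlegal, hwin⟩
  have hZ := hM.toIsZF
  have hN := (isZFC_ext hM (forcing_Pc hZ) hG).toIsZF
  have hB := hN.base
  obtain ⟨g, hg, hrun, x, hx, h1⟩ := no_win hM hG hs (h := fun ρ => ZFSet.sUnion ρ)
    (hB.sUnion' (DfnF.proj 0)) (by
      intro g n hg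
      obtain ⟨F, hF, hFf, h2⟩ := hlegal (fun k => Cv M (cr G) (g k)) n fun k _ => hA _ (hg k)
      refine ⟨F, h2, ?_⟩
      obtain ⟨v, hv, h3, -, h4⟩ := Cv_avoid (M := M) (cr_func hM hG) (hg n) hFf
        fun O hO => hF hO
      refine ⟨v, hv, h3, fun x hx => ?_⟩
      obtain ⟨O, hO, hxO⟩ := ZFSet.mem_sUnion.1 hx
      exact h4 O hO x hxO)
  -- the union of the answers
  have hBset : ∃ B : ZFSet.{0}, ∀ z, z ∈ B ↔ ∃ n F,
      pair (seq (fun k => Cv M (cr G) (g k)) (n + 1)) F ∈ s ∧ z ∈ F := by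
    choose F hF1 hF2 hF3 using fun n => hlegal (fun k => Cv M (cr G) (g k)) n
      fun k _ => hA _ (hg k)
    refine ⟨ZFSet.sUnion (ZFSet.range F), fun z => ?_⟩
    rw [ZFSet.mem_sUnion]
    constructor
    · rintro ⟨y, hy, hz⟩
      obtain ⟨n, rfl⟩ := ZFSet.mem_range.1 hy
      exact ⟨n, F n, (hF3 n _).2 rfl, hz⟩
    · rintro ⟨n, F', h2, hz⟩
      rw [(hF3 n F').1 h2] at hz
      exact ⟨F n, ZFSet.mem_range.2 ⟨n, rfl⟩, hz⟩
  obtain ⟨B, hBs⟩ := hBset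
  obtain ⟨O, hO, hxO⟩ := hC B (hwin _ hrun (fun k => hA _ (hg k)) B hBs) x hx
  obtain ⟨n, F, h2, h3⟩ := (hBs O).1 hO
  exact h1 n F h2 (ZFSet.mem_sUnion.2 ⟨O, h3, hxO⟩)

theorem no_winOne {A : ZFSet.{0} → Prop} {C : ZFSet.{0} → Prop}
    (hA : ∀ u ∈ Pc, A (Cv M (cr G) u)) (hC : ∀ B, C B → Covers B (fnX M (nat 2))) :
    ¬ ∃ s, WinOne (ext M G) A C s := by
  rintro ⟨s, hs, hlegal, hwin⟩
  obtain ⟨g, hg, hrun, x, hx, h1⟩ := no_win hM hG hs (h := fun ρ => ρ)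
    (DfnF.proj 0) (by
      intro g n hg
      obtain ⟨U, hU, h2⟩ := hlegal (fun k => Cv M (cr G) (g k)) n fun k _ => hA _ (hg k)
      refine ⟨U, h2, ?_⟩
      obtain ⟨v, hv, h3, -, h4⟩ := Cv_avoid (M := M) (cr_func hM hG) (hg n)
        (Set.finite_singleton U) fun O hO => by
          rw [Set.mem_singleton_iff.1 hO]
          exact hU
      exact ⟨v, hv, h3, fun x hx => h4 U rfl x hx⟩)
  have hBset : ∃ B : ZFSet.{0}, ∀ z, z ∈ B ↔ ∃ n,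
      pair (seq (fun k => Cv M (cr G) (g k)) (n + 1)) z ∈ s := by
    choose F hF1 hF2 using fun n => hlegal (fun k => Cv M (cr G) (g k)) n
      fun k _ => hA _ (hg k)
    refine ⟨ZFSet.range F, fun z => ?_⟩
    rw [ZFSet.mem_range]
    exact exists_congr fun n => by rw [hF2 n z]; exact eq_comm
  obtain ⟨B, hBs⟩ := hBset
  obtain ⟨O, hO, hxO⟩ := hC B (hwin _ hrun (fun k => hA _ (hg k)) B hBs) x hx
  obtain ⟨n, h2⟩ := (hBs O).1 hO
  exact h1 n O h2 hxO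

theorem kcovers_covers {B : ZFSet.{0}} (h : KCovers (ext M G) (fnX M (nat 2)) (Tc M) B) :
    Covers B (fnX M (nat 2)) := by
  intro x hx
  have hZ := hM.toIsZF
  have hN := (isZFC_ext hM (forcing_Pc hZ) hG).toIsZF
  have hsub := sub_ext hZ (forcing_Pc hZ) hG
  obtain ⟨O, hO, h1⟩ := h {x} (comp_single hN hx (hsub (mem_fnX.1 hx).1))
  exact ⟨O, hO, h1 (by simp)⟩

theorem not_menger : ¬ MengerII (ext M G) (fnX M (nat 2)) (Tc M) :=
  no_winFin hM hG (fun _ hu => Cv_isCover hM hG hu) fun _ h => h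

theorem not_kmenger : ¬ KMengerII (ext M G) (fnX M (nat 2)) (Tc M) :=
  no_winFin hM hG (fun _ hu => Cv_isKCover hM hG hu) fun _ h => kcovers_covers hM hG h

theorem not_krothberger : ¬ KRothbergerII (ext M G) (fnX M (nat 2)) (Tc M) :=
  no_winOne hM hG (fun _ hu => Cv_isKCover hM hG hu) fun _ h => kcovers_covers hM hG h

end

end Pool.Agent.R597
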