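import Pool.Agent.R597.Fold

/-!
# Cohen forcing and the Cantor space of a transitive model
-/

set_option autoImplicit false
set_option linter.unreachableTactic false
set_option linter.unusedTactic false
set_option linter.unusedSectionVars false

namespace Pool.Agent.R597

open Pool.Agent.W868 Pool.Agent.W868.GM Pool.Agent.Y588
open ZFSet (pair)

theorem mem_nat_iff' {n : ℕ} {x : ZFSet.{0}} : x ∈ nat n ↔ ∃ k < n, x = nat k := by
  rw [nat_eq, Ordinal.mem_toZFSet_iff]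
  constructor
  · rintro ⟨a, ha, rfl⟩
    obtain ⟨k, rfl⟩ := Ordinal.lt_omega0.1 (ha.trans (Ordinal.natCast_lt_omega0 n))
    exact ⟨k, by exact_mod_cast ha, (nat_eq k).symm⟩
  · rintro ⟨k, hk, rfl⟩
    exact ⟨k, by exact_mod_cast hk, (nat_eq k).symm⟩

theorem mem_two {x : ZFSet.{0}} : x ∈ nat 2 ↔ x = nat 0 ∨ x = nat 1 := by
  rw [mem_nat_iff']
  constructor
  · rintro ⟨k, hk, rfl⟩
    interval_cases k
    · exact Or.inl rfl
    · exact Or.inr rfl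
  · rintro (rfl | rfl)
    · exact ⟨0, by omega, rfl⟩
    · exact ⟨1, by omega, rfl⟩

theorem zero_two : nat 0 ∈ nat 2 := mem_two.2 (Or.inl rfl)

theorem one_two : nat 1 ∈ nat 2 := mem_two.2 (Or.inr rfl)

/-- For each element of `{0, 1}` there is a different one. -/
theorem exists_other {x : ZFSet.{0}} : ∃ y ∈ nat 2, y ≠ x := by
  by_cases h : nat 0 = x
  · refine ⟨nat 1, one_two, fun h1 => ?_⟩
    have h2 : (1 : ℕ) = 0 := nat_injective (h1.trans h.symm)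
    omega
  · exact ⟨nat 0, zero_two, h⟩

/-! ### The partial function coded by a sequence -/

noncomputable def stp (r a : ZFSet.{0}) : ZFSet.{0} :=
  pair (sc (fs r)) (insert (pair (fs r) a) (sn r))

/-- The finite function coded by a finite sequence. -/
noncomputable def st (t : ZFSet.{0}) : ZFSet.{0} := sn (fold stp (pair ∅ ∅) t)

theorem dfn_st {M : Set ZFSet.{0}} (hM : IsZF M) :
    DfnF M M fun w : Fin 1 → ZFSet.{0} => st (w 0) := by
  have hB := hM.base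
  have h0 := hM.empty_mem
  refine hM.sn' ?_
  refine dfn_fold hM (hM.pair_mem h0 h0) ?_
  have h1 : DfnF M M fun w : Fin 2 → ZFSet.{0} => fs (w 0) := hM.fs' (DfnF.proj 0)
  exact hB.pair' (hB.insert' h1 h1) (hB.insert' (hB.pair' h1 (DfnF.proj 1))
    (hM.sn' (DfnF.proj 0)))

theorem fold_stp (f : ℕ → ZFSet.{0}) (n : ℕ) :
    ∃ s, fold stp (pair ∅ ∅) (seq f n) = pair (nat n) s ∧
      ∀ p, p ∈ s ↔ ∃ k < n, p = pair (nat k) (f k) := by
  induction n with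
  | zero =>
    refine ⟨∅, ?_, fun p => ?_⟩
    · rw [seq, fold_empty]
      rfl
    · constructor
      · exact fun h => absurd h (ZFSet.notMem_empty _)
      · rintro ⟨k, hk, -⟩
        omega
  | succ n ih =>
    obtain ⟨s, h1, h2⟩ := ih
    refine ⟨insert (pair (nat n) (f n)) s, ?_, fun p => ?_⟩
    · rw [seq, fold_pair, h1, stp, fs_pair, sn_pair]
      rfl
    · rw [ZFSet.mem_insert_iff, h2]
      constructor
      · rintro (h | ⟨k, hk, h⟩)
        · exact ⟨n, by omega, h⟩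
        · exact ⟨k, by omega, h⟩
      · rintro ⟨k, hk, h⟩
        rcases Nat.lt_succ_iff_lt_or_eq.1 hk with h3 | rfl
        · exact Or.inr ⟨k, h3, h⟩
        · exact Or.inl h

theorem mem_st {f : ℕ → ZFSet.{0}} {n : ℕ} {p : ZFSet.{0}} :
    p ∈ st (seq f n) ↔ ∃ k < n, p = pair (nat k) (f k) := by
  obtain ⟨s, h1, h2⟩ := fold_stp f n
  rw [st, h1, sn_pair]
  exact h2 p

theorem st_empty : st ∅ = ∅ := by
  ext p
  rw [show (∅ : ZFSet.{0}) = seq (fun _ => ∅) 0 from rfl, mem_st]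
  constructor
  · rintro ⟨k, hk, -⟩
    omega
  · intro h
    exact absurd h (ZFSet.notMem_empty _)

theorem pair_mem_st {f : ℕ → ZFSet.{0}} {n k : ℕ} {a : ZFSet.{0}} :
    pair (nat k) a ∈ st (seq f n) ↔ k < n ∧ a = f k := by
  rw [mem_st]
  constructor
  · rintro ⟨l, hl, h⟩
    obtain ⟨h1, rfl⟩ := ZFSet.pair_inj.1 h
    rw [nat_injective h1]
    exact ⟨hl, rfl⟩
  · rintro ⟨h, rfl⟩
    exact ⟨k, h, rfl⟩

theorem st_sub {f g : ℕ → ZFSet.{0}} {n m : ℕ} :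
    st (seq f n) ⊆ st (seq g m) ↔ n ≤ m ∧ ∀ k < n, f k = g k := by
  constructor
  · intro h
    have h1 : ∀ k < n, k < m ∧ f k = g k := fun k hk => pair_mem_st.1 (h (pair_mem_st.2 ⟨hk, rfl⟩))
    refine ⟨?_, fun k hk => (h1 k hk).2⟩
    by_contra hc
    have h2 := (h1 m (by omega)).1
    omega
  · rintro ⟨h1, h2⟩ p hp
    obtain ⟨k, hk, rfl⟩ := mem_st.1 hp
    exact mem_st.2 ⟨k, by omega, by rw [h2 k hk]⟩

/-! ### Cohen forcing -/

/-- The set of the conditions. -/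
noncomputable def Pc : ZFSet.{0} := Sq (nat 2)

/-- The order. -/
noncomputable def Lc : ZFSet.{0} := ZFSet.sep (fun p => st (sn p) ⊆ st (fs p)) (ZFSet.prod Pc Pc)

theorem mem_Lc {q p : ZFSet.{0}} : pair q p ∈ Lc ↔ q ∈ Pc ∧ p ∈ Pc ∧ st p ⊆ st q := by
  rw [Lc, ZFSet.mem_sep, ZFSet.pair_mem_prod, fs_pair, sn_pair]
  exact and_assoc

theorem exists_seq2 {t : ZFSet.{0}} (ht : t ∈ Pc) :
    ∃ (f : ℕ → ZFSet.{0}) (n : ℕ), (∀ k, f k ∈ nat 2) ∧ t = seq f n := by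
  obtain ⟨f, n, h1, rfl⟩ := exists_seq ht
  refine ⟨fun k => if k < n then f k else nat 0, n, fun k => ?_, seq_congr fun k hk => by simp [hk]⟩
  by_cases h : k < n
  · simp only [h, if_true]
    exact h1 k h
  · simp only [h, if_false]
    exact zero_two

theorem seq_mem_Pc {f : ℕ → ZFSet.{0}} (h : ∀ k, f k ∈ nat 2) (n : ℕ) : seq f n ∈ Pc :=
  seq_mem_Sq fun k _ => h k

section

variable {M : Set ZFSet.{0}} (hM : IsZF M)

include hM

theorem Pc_mem : Pc ∈ M := Sq_mem hM (hM.nat_mem 2)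

theorem Lc_mem : Lc ∈ M := by
  have hB := hM.base
  have hst := dfn_st hM
  refine hM.sep_mem (Q := fun p => st (sn p) ⊆ st (fs p)) ?_ (hM.prod_mem (Pc_mem hM) (Pc_mem hM))
  exact hB.subset' (DfnF.comp1 (f := st) hst (hM.sn' (DfnF.proj 0)))
    (DfnF.comp1 (f := st) hst (hM.fs' (DfnF.proj 0)))

theorem forcing_Pc : IsForcing M Pc Lc where
  mem := Pc_mem hM
  le_mem := Lc_mem hM
  refl p hp := mem_Lc.2 ⟨hp, hp, fun _ h => h⟩
  trans p hp q hq r hr h1 h2 := mem_Lc.2 ⟨hr, hp, fun _ h =>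
    (mem_Lc.1 h1).2.2 ((mem_Lc.1 h2).2.2 h)⟩
  top := ⟨∅, empty_mem_Sq, fun p hp => mem_Lc.2 ⟨hp, empty_mem_Sq, by
    rw [st_empty]
    exact fun z hz => absurd hz (ZFSet.notMem_empty _)⟩⟩

theorem Pc_countable : Inj M Pc ZFSet.omega := by
  refine Sq_countable hM (hM.nat_mem 2) ?_
  refine Inj.of_subset hM (hM.nat_mem 2) hM.infinity ?_
  exact nat_subset_omega

end

/-! ### Functions from the natural numbers to `{0, 1}` -/

/-- The initial segment of length `n` of the function `x`. -/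
noncomputable def ini (x : ZFSet.{0}) (n : ℕ) : ZFSet.{0} := seq (fun k => ap x (nat k)) n

theorem ini_mem {X x : ZFSet.{0}} (hx : ZFSet.IsFunc ZFSet.omega X x) (n : ℕ) : ini x n ∈ Sq X :=
  seq_mem_Sq fun k _ => (func_pair hx k).2

theorem st_sub_iff {f : ℕ → ZFSet.{0}} {n : ℕ} {X x : ZFSet.{0}}
    (hx : ZFSet.IsFunc ZFSet.omega X x) : st (seq f n) ⊆ x ↔ ∀ k < n, f k = ap x (nat k) := by
  constructor
  · intro h k hk
    exact (func_pair_iff hx k).1 (h (pair_mem_st.2 ⟨hk, rfl⟩))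
  · intro h p hp
    obtain ⟨k, hk, rfl⟩ := mem_st.1 hp
    exact (func_pair_iff hx k).2 (h k hk)

theorem st_ini_sub {X x : ZFSet.{0}} (hx : ZFSet.IsFunc ZFSet.omega X x) (n : ℕ) :
    st (ini x n) ⊆ x := (st_sub_iff hx).2 fun _ _ => rfl

theorem eq_ini {X x t : ZFSet.{0}} (hx : ZFSet.IsFunc ZFSet.omega X x) (ht : t ∈ Pc)
    (h : st t ⊆ x) : ∃ n, t = ini x n := by
  obtain ⟨f, n, -, rfl⟩ := exists_seq2 ht
  exact ⟨n, seq_congr ((st_sub_iff hx).1 h)⟩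

theorem st_ini_mono {x : ZFSet.{0}} {n m : ℕ} (h : n ≤ m) : st (ini x n) ⊆ st (ini x m) :=
  st_sub.2 ⟨h, fun _ _ => rfl⟩

/-- Two different functions differ at an initial segment. -/
theorem exists_diff {X x z : ZFSet.{0}} (hx : ZFSet.IsFunc ZFSet.omega X x)
    (hz : ZFSet.IsFunc ZFSet.omega X z) (h : z ≠ x) : ∃ n, ∀ m ≥ n, ¬ st (ini z m) ⊆ x := by
  by_contra hc
  push Not at hc
  apply h
  apply func_ext hz hx
  intro i
  obtain ⟨m, hm, h1⟩ := hc (i + 1)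
  exact (st_sub_iff hx).1 h1 i (by omega)

/-- Compatible conditions are comparable. -/
theorem st_comparable {X x t t' : ZFSet.{0}} (hx : ZFSet.IsFunc ZFSet.omega X x) (ht : t ∈ Pc)
    (ht' : t' ∈ Pc) (h : st t ⊆ x) (h' : st t' ⊆ x) : st t ⊆ st t' ∨ st t' ⊆ st t := by
  obtain ⟨n, rfl⟩ := eq_ini hx ht h
  obtain ⟨m, rfl⟩ := eq_ini hx ht' h'
  rcases le_total n m with h1 | h1
  · exact Or.inl (st_ini_mono h1)
  · exact Or.inr (st_ini_mono h1)

/-! ### The Cantor space -/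

/-- The functions from the natural numbers to `{0, 1}` that extend `t`. -/
noncomputable def box (X t : ZFSet.{0}) : ZFSet.{0} := ZFSet.sep (fun x => st t ⊆ x) X

/-- The topology of the Cantor space. -/
noncomputable def Tc (M : Set ZFSet.{0}) : ZFSet.{0} :=
  ZFSet.sep (fun O => ∀ x ∈ O, ∃ t ∈ Pc, st t ⊆ x ∧ ∀ y ∈ fnX M (nat 2), st t ⊆ y → y ∈ O)
    (pwM M (fnX M (nat 2)))

section

variable {M : Set ZFSet.{0}} (hM : IsZF M)

include hM

theorem Xc_mem : fnX M (nat 2) ∈ M := fnX_mem hM (hM.nat_mem 2)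

theorem Tc_mem : Tc M ∈ M := by
  have hB := hM.base
  have hX := Xc_mem hM
  have hP := Pc_mem hM
  have hst := dfn_st hM
  refine hM.sep_mem (Q := fun O => ∀ x ∈ O, ∃ t ∈ Pc, st t ⊆ x ∧
    ∀ y ∈ fnX M (nat 2), st t ⊆ y → y ∈ O) ?_ (pwM_mem hM hX)
  apply hB.ball (DfnF.proj 0)
  apply hB.bex (DfnF.const hP)
  apply Dfn.and
  · exact hB.subset' (DfnF.comp1 (f := st) hst (DfnF.proj 0)) (DfnF.proj 1)
  · apply hB.ball (DfnF.const hX)
    exact (hB.subset' (DfnF.comp1 (f := st) hst (DfnF.proj 1)) (DfnF.proj 0)).imp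
      (Dfn.mem (DfnF.proj 0) (DfnF.proj 3))

theorem isTop_Tc : IsTop M (fnX M (nat 2)) (Tc M) where
  set_mem := Xc_mem hM
  top_mem := Tc_mem hM
  sub U hU := (mem_pwM.1 (ZFSet.mem_sep.1 hU).1).2
  whole := ZFSet.mem_sep.2 ⟨mem_pwM.2 ⟨Xc_mem hM, fun _ h => h⟩, fun x _ =>
    ⟨∅, empty_mem_Sq, by
      rw [st_empty]
      exact fun z hz => absurd hz (ZFSet.notMem_empty _), fun y hy _ => hy⟩⟩
  inter U hU V hV := by
    obtain ⟨h1, h2⟩ := ZFSet.mem_sep.1 hU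
    obtain ⟨h3, h4⟩ := ZFSet.mem_sep.1 hV
    rw [mem_pwM] at h1 h3
    refine ZFSet.mem_sep.2 ⟨mem_pwM.2 ⟨?_, fun z hz => h1.2 (ZFSet.mem_inter.1 hz).1⟩, ?_⟩
    · exact hM.sep_mem (Q := fun z => z ∈ V) (Dfn.mem (DfnF.proj 0) (DfnF.const h3.1)) h1.1
    · intro x hx
      obtain ⟨hxU, hxV⟩ := ZFSet.mem_inter.1 hx
      have hxf := (mem_fnX.1 (h1.2 hxU)).2
      obtain ⟨t, ht, h5, h6⟩ := h2 x hxU
      obtain ⟨t', ht', h7, h8⟩ := h4 x hxV
      rcases st_comparable hxf ht ht' h5 h7 with h | h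
      · exact ⟨t', ht', h7, fun y hy h9 => ZFSet.mem_inter.2
          ⟨h6 y hy fun z hz => h9 (h hz), h8 y hy h9⟩⟩
      · exact ⟨t, ht, h5, fun y hy h9 => ZFSet.mem_inter.2
          ⟨h6 y hy h9, h8 y hy fun z hz => h9 (h hz)⟩⟩
  union s hs hsub := by
    refine ZFSet.mem_sep.2 ⟨mem_pwM.2 ⟨hM.union _ hs, fun z hz => ?_⟩, fun x hx => ?_⟩
    · obtain ⟨U, hU, hz⟩ := ZFSet.mem_sUnion.1 hz
      exact (mem_pwM.1 (ZFSet.mem_sep.1 (hsub hU)).1).2 hz
    · obtain ⟨U, hU, hx⟩ := ZFSet.mem_sUnion.1 hx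
      obtain ⟨t, ht, h1, h2⟩ := (ZFSet.mem_sep.1 (hsub hU)).2 x hx
      exact ⟨t, ht, h1, fun y hy h3 => ZFSet.mem_sUnion.2 ⟨U, hU, h2 y hy h3⟩⟩

/-- The complements of the basic open sets are open. -/
theorem compl_mem_Tc {t : ZFSet.{0}} (ht : t ∈ Pc) :
    ZFSet.sep (fun x => ¬ st t ⊆ x) (fnX M (nat 2)) ∈ Tc M := by
  have hB := hM.base
  have hst := dfn_st hM
  have hstM : st t ∈ M := hst.1 (fun _ => t) fun _ => hM.trans _ (Pc_mem hM) _ ht
  refine ZFSet.mem_sep.2 ⟨mem_pwM.2 ⟨?_, fun z hz => (ZFSet.mem_sep.1 hz).1⟩, fun x hx => ?_⟩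
  · exact hM.sep_mem (Q := fun x => ¬ st t ⊆ x)
      (hB.subset' (DfnF.const hstM) (DfnF.proj 0)).not (Xc_mem hM)
  · obtain ⟨h1, h2⟩ := ZFSet.mem_sep.1 hx
    have hxf := (mem_fnX.1 h1).2
    obtain ⟨f, n, hf, rfl⟩ := exists_seq2 ht
    refine ⟨ini x n, ini_mem hxf n, st_ini_sub hxf n, fun y hy h3 =>
      ZFSet.mem_sep.2 ⟨hy, fun h4 => h2 ?_⟩⟩
    have hyf := (mem_fnX.1 hy).2
    rw [st_sub_iff hxf]
    rw [st_sub_iff hyf] at h4
    rw [ini, st_sub_iff hyf] at h3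
    intro k hk
    rw [h4 k hk, h3 k hk]

/-- The basic open sets are open. -/
theorem box_mem_Tc {t : ZFSet.{0}} (ht : t ∈ Pc) : box (fnX M (nat 2)) t ∈ Tc M := by
  have hB := hM.base
  have hst := dfn_st hM
  have hstM : st t ∈ M := hst.1 (fun _ => t) fun _ => hM.trans _ (Pc_mem hM) _ ht
  refine ZFSet.mem_sep.2 ⟨mem_pwM.2 ⟨?_, fun z hz => (ZFSet.mem_sep.1 hz).1⟩, fun x hx => ?_⟩
  · exact hM.sep_mem (Q := fun x => st t ⊆ x)
      (hB.subset' (DfnF.const hstM) (DfnF.proj 0)) (Xc_mem hM)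
  · obtain ⟨h1, h2⟩ := ZFSet.mem_sep.1 hx
    exact ⟨t, ht, h2, fun y hy h3 => ZFSet.mem_sep.2 ⟨hy, h3⟩⟩

end

end Pool.Agent.R597
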