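import Pool.Agent.R597.Fr9

/-!
# Class forcings from games: the conditions
-/

set_option autoImplicit false
set_option linter.unreachableTactic false
set_option linter.unusedTactic false
set_option linter.unusedSectionVars false
set_option linter.unusedVariables false

namespace Pool.Agent.R597.Ex

open Pool.Agent.W868 Pool.Agent.W868.GM Pool.Agent.Y588 Pool.Agent.R597
open ZFSet (pair)

/-- The child relation of the nodes with ranks. -/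
def ChR (Ch : ZFSet.{0} → ZFSet.{0} → Prop) (z z' : ZFSet.{0}) : Prop :=
  (fs z = ∅ ∧ fs z' = ∅) ∨ (fs z ≠ ∅ ∧ fs z = sc (fs z') ∧ Ch (sn z) (sn z'))

/-- The hidden conditions. -/
def Hid (K : Set ZFSet.{0}) (d : ZFSet.{0}) (A : ZFSet.{0} → Prop)
    (Ch : ZFSet.{0} → ZFSet.{0} → Prop) (s : ZFSet.{0}) : Prop :=
  s ≠ ∅ ∧ (∃ X ∈ K, s ∈ Sq X) ∧
  (∀ u ∈ st s, fs (sn u) ∈ ZFSet.omega ∧ sn u = pair (fs (sn u)) (sn (sn u)) ∧
    A (sn (sn u))) ∧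
  ∀ u ∈ st s, fs u ≠ ∅ → ∀ u' ∈ st s, fs u' = ap d (fs u) → ChR Ch (sn u') (sn u)

/-- The conditions. -/
noncomputable def PP (M d : ZFSet.{0}) (A : ZFSet.{0} → Prop)
    (Ch : ZFSet.{0} → ZFSet.{0} → Prop) : ZFSet.{0} :=
  ZFSet.sep (fun p => p ∈ ZFSet.omega ∨ Hid {x | x ∈ M} d A Ch p) M

/-- The order. -/
def LeR (L : ZFSet.{0} → Prop) (q p : ZFSet.{0}) : Prop :=
  p = ∅ ∨ q = p ∨ (q ∉ ZFSet.omega ∧ ((p ∉ ZFSet.omega ∧ st p ⊆ st q) ∨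
    (p ∈ ZFSet.omega ∧ ∃ u ∈ st q, p = sc (fs u) ∧ fs (sn u) = ∅ ∧ L (sn (sn u)))))

/-- The order as a set. -/
noncomputable def LL (L : ZFSet.{0} → Prop) (P : ZFSet.{0}) : ZFSet.{0} :=
  ZFSet.sep (fun u => LeR L (fs u) (sn u)) (ZFSet.prod P P)

theorem mem_LL {L : ZFSet.{0} → Prop} {P q p : ZFSet.{0}} :
    pair q p ∈ LL L P ↔ q ∈ P ∧ p ∈ P ∧ LeR L q p := by
  rw [LL, ZFSet.mem_sep, ZFSet.pair_mem_prod, fs_pair, sn_pair, and_assoc]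

/-- The finite sequences that are conditions. -/
structure Vld (A : ZFSet.{0} → Prop) (Ch : ZFSet.{0} → ZFSet.{0} → Prop) (π : ℕ → ℕ)
    (h : ℕ → ZFSet.{0}) (k : ℕ) : Prop where
  pos : 1 ≤ k
  ent : ∀ i < k, ∃ (m : ℕ) (y : ZFSet.{0}), A y ∧ h i = pair (nat m) y
  ch : ∀ i < k, 1 ≤ i → ChR Ch (h (π i)) (h i)

/-! ### Sequences are not natural numbers -/

theorem pair_notMem_omega {a b : ZFSet.{0}} : pair a b ∉ (ZFSet.omega : ZFSet.{0}) := by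
  intro h
  obtain ⟨n, hn⟩ := mem_omega_iff.1 h
  cases n with
  | zero => exact pair_ne_empty _ _ hn
  | succ n =>
    have h1 : (∅ : ZFSet.{0}) ∈ nat (n + 1) := mem_nat_iff'.2 ⟨0, by omega, rfl⟩
    rw [← hn] at h1
    simp only [pair, ZFSet.mem_pair] at h1
    rcases h1 with h1 | h1
    · have h2 : a ∈ (∅ : ZFSet.{0}) := by
        rw [h1]
        simp
      exact ZFSet.notMem_empty _ h2
    · have h2 : a ∈ (∅ : ZFSet.{0}) := by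
        rw [h1]
        simp
      exact ZFSet.notMem_empty _ h2

theorem seq_notMem_omega {h : ℕ → ZFSet.{0}} {k : ℕ} (hk : 1 ≤ k) :
    seq h k ∉ (ZFSet.omega : ZFSet.{0}) := by
  obtain ⟨l, rfl⟩ : ∃ l, k = l + 1 := ⟨k - 1, by omega⟩
  exact pair_notMem_omega

theorem seq_ne_empty {h : ℕ → ZFSet.{0}} {k : ℕ} (hk : 1 ≤ k) : seq h k ≠ ∅ := by
  intro h1
  apply seq_notMem_omega (h := h) hk
  rw [h1]
  exact nat_mem_omega 0

theorem nat_eq_empty {n : ℕ} : nat n = ∅ ↔ n = 0 := by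
  constructor
  · intro h
    exact nat_injective (h.trans (show ∅ = nat 0 from rfl))
  · rintro rfl
    rfl

theorem sc_nat (n : ℕ) : sc (nat n) = nat (n + 1) := rfl

theorem seq_inj {h h' : ℕ → ZFSet.{0}} {k k' : ℕ} (he : seq h k = seq h' k') :
    k = k' ∧ ∀ i < k, h i = h' i := by
  have h1 := st_sub.1 (show st (seq h k) ⊆ st (seq h' k') by rw [he])
  have h2 := st_sub.1 (show st (seq h' k') ⊆ st (seq h k) by rw [he])
  exact ⟨le_antisymm h1.1 h2.1, h1.2⟩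

/-! ### The order -/

section

variable {L : ZFSet.{0} → Prop}

theorem leR_refl (q : ZFSet.{0}) : LeR L q q := Or.inr (Or.inl rfl)

theorem leR_top (q : ZFSet.{0}) : LeR L q ∅ := Or.inl rfl

theorem leR_seq_seq {h h' : ℕ → ZFSet.{0}} {k k' : ℕ} (hk : 1 ≤ k) (hk' : 1 ≤ k') :
    LeR L (seq h k) (seq h' k') ↔ k' ≤ k ∧ ∀ i < k', h' i = h i := by
  constructor
  · rintro (h1 | h1 | ⟨-, ⟨-, h1⟩ | ⟨h1, -⟩⟩)
    · exact absurd h1 (seq_ne_empty hk')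
    · obtain ⟨rfl, h2⟩ := seq_inj h1
      exact ⟨le_rfl, fun i hi => (h2 i hi).symm⟩
    · exact st_sub.1 h1
    · exact absurd h1 (seq_notMem_omega hk')
  · intro h1
    exact Or.inr (Or.inr ⟨seq_notMem_omega hk, Or.inl ⟨seq_notMem_omega hk', st_sub.2 h1⟩⟩)

theorem leR_seq_vis {h : ℕ → ZFSet.{0}} {k i : ℕ} (hk : 1 ≤ k) :
    LeR L (seq h k) (nat (i + 1)) ↔ i < k ∧ fs (h i) = ∅ ∧ L (sn (h i)) := by
  constructor
  · rintro (h1 | h1 | ⟨-, ⟨h1, -⟩ | ⟨-, u, hu, h1, h2, h3⟩⟩)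
    · rw [nat_eq_empty] at h1
      omega
    · exact absurd (h1 ▸ nat_mem_omega (i + 1)) (seq_notMem_omega hk)
    · exact absurd (nat_mem_omega _) h1
    · obtain ⟨j, hj, rfl⟩ := mem_st.1 hu
      rw [fs_pair, sc_nat] at h1
      have h4 := nat_injective h1
      obtain rfl : i = j := by omega
      rw [sn_pair] at h2 h3
      exact ⟨hj, h2, h3⟩
  · rintro ⟨h1, h2, h3⟩
    refine Or.inr (Or.inr ⟨seq_notMem_omega hk, Or.inr ⟨nat_mem_omega _, _,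
      mem_st.2 ⟨i, h1, rfl⟩, ?_, ?_, ?_⟩⟩)
    · rw [fs_pair, sc_nat]
    · rwa [sn_pair]
    · rwa [sn_pair]

theorem leR_trans {r q p : ZFSet.{0}} (h1 : LeR L r q) (h2 : LeR L q p) : LeR L r p := by
  rcases h2 with h2 | rfl | ⟨hq, h2⟩
  · exact Or.inl h2
  · exact h1
  · rcases h1 with rfl | rfl | ⟨hr, h1⟩
    · exact absurd (nat_mem_omega 0) hq
    · exact Or.inr (Or.inr ⟨hq, h2⟩)
    · rcases h1 with ⟨-, h1⟩ | ⟨h1, -⟩
      · refine Or.inr (Or.inr ⟨hr, ?_⟩)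
        rcases h2 with ⟨hp, h2⟩ | ⟨hp, u, hu, h3⟩
        · exact Or.inl ⟨hp, fun _ h => h1 (h2 h)⟩
        · exact Or.inr ⟨hp, u, h1 hu, h3⟩
      · exact absurd h1 hq

/-- What is below a hidden condition is hidden. -/
theorem hidden_of_le {r q : ZFSet.{0}} (h : LeR L r q) (hq : q ∉ (ZFSet.omega : ZFSet.{0})) :
    r ∉ (ZFSet.omega : ZFSet.{0}) := by
  rcases h with rfl | rfl | ⟨h, -⟩
  · exact absurd (nat_mem_omega 0) hq
  · exact hq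
  · exact h

theorem vis_of_vis_le {r q : ZFSet.{0}} (h : LeR L r q) (hr : r ∈ (ZFSet.omega : ZFSet.{0})) :
    q = ∅ ∨ q = r := by
  rcases h with rfl | rfl | ⟨h, -⟩
  · exact Or.inl rfl
  · exact Or.inr rfl
  · exact absurd hr h

end

/-! ### The conditions as sequences -/

section

variable {M d : ZFSet.{0}} (hM : IsZF {x | x ∈ M}) {π : ℕ → ℕ}
  (hd : ∀ i, ap d (nat i) = nat (π i)) (hπ : ∀ i, 1 ≤ i → π i < i)
  {A : ZFSet.{0} → Prop} {Ch : ZFSet.{0} → ZFSet.{0} → Prop}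

include hM hd hπ

theorem hid_iff {s : ZFSet.{0}} : Hid {x | x ∈ M} d A Ch s ↔
    ∃ h k, Vld (fun y => y ∈ M ∧ A y) Ch π h k ∧ s = seq h k := by
  constructor
  · rintro ⟨h1, ⟨X, hX, hs⟩, h3, h4⟩
    obtain ⟨h, k, hh, rfl⟩ := exists_seq hs
    have hk : 1 ≤ k := by
      by_contra hk
      obtain rfl : k = 0 := by omega
      exact h1 rfl
    refine ⟨h, k, ⟨hk, fun i hi => ?_, fun i hi hi1 => ?_⟩, rfl⟩
    · obtain ⟨h5, h6, h7⟩ := h3 _ (mem_st.2 ⟨i, hi, rfl⟩)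
      rw [sn_pair] at h5 h6 h7
      obtain ⟨m, hm⟩ := mem_omega_iff.1 h5
      refine ⟨m, sn (h i), ⟨?_, h7⟩, by rw [← hm]; exact h6⟩
      have h8 : h i ∈ {x | x ∈ M} := hM.trans _ hX _ (hh i hi)
      rw [h6] at h8
      exact (hM.of_pair_mem h8).2
    · have h5 := h4 _ (mem_st.2 ⟨i, hi, rfl⟩) (by
        rw [fs_pair]
        intro h
        rw [nat_eq_empty] at h
        omega) _ (mem_st.2 ⟨π i, (hπ i hi1).trans hi, rfl⟩) (by
        rw [fs_pair, fs_pair, hd])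
      rwa [sn_pair, sn_pair] at h5
  · rintro ⟨h, k, hv, rfl⟩
    refine ⟨seq_ne_empty hv.pos, ?_, ?_, ?_⟩
    · have h1 : ∀ i < k, h i ∈ {x | x ∈ M} := by
        intro i hi
        obtain ⟨m, y, hy, h2⟩ := hv.ent i hi
        rw [h2]
        exact hM.pair_mem (hM.nat_mem m) hy.1
      have hr : rng (Finset.range k) h ∈ {x | x ∈ M} :=
        (IsZF.cls hM).fin_mem (rng_fin _ _) fun y hy => by
          obtain ⟨i, hi, rfl⟩ := mem_rng.1 hy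
          exact h1 i (by simpa using hi)
      exact ⟨_, hr, seq_mem_Sq fun i hi => mem_rng.2 ⟨i, by simpa using hi, rfl⟩⟩
    · intro u hu
      obtain ⟨i, hi, rfl⟩ := mem_st.1 hu
      obtain ⟨m, y, hy, h2⟩ := hv.ent i hi
      rw [sn_pair, h2, fs_pair, sn_pair]
      exact ⟨nat_mem_omega m, rfl, hy.2⟩
    · intro u hu hne u' hu' h1
      obtain ⟨i, hi, rfl⟩ := mem_st.1 hu
      obtain ⟨j, hj, rfl⟩ := mem_st.1 hu'
      rw [fs_pair] at hne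
      rw [fs_pair, fs_pair, hd] at h1
      rw [sn_pair, sn_pair, nat_injective h1]
      refine hv.ch i hi ?_
      by_contra hc
      exact hne (nat_eq_empty.2 (by omega))

theorem mem_PP {p : ZFSet.{0}} : p ∈ PP M d A Ch ↔ p ∈ ZFSet.omega ∨
    ∃ h k, Vld (fun y => y ∈ M ∧ A y) Ch π h k ∧ p = seq h k := by
  rw [PP, ZFSet.mem_sep, hid_iff hM hd hπ]
  constructor
  · exact fun h => h.2
  · intro h
    refine ⟨?_, h⟩
    rcases h with h | ⟨h, k, hv, rfl⟩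
    · exact hM.trans _ hM.infinity _ h
    · obtain ⟨-, ⟨X, hX, hs⟩, -⟩ := (hid_iff hM hd hπ (A := A) (Ch := Ch)).2 ⟨h, k, hv, rfl⟩
      exact hM.trans _ (Sq_mem hM hX) _ hs

end

/-! ### Definability -/

section

variable {M d : ZFSet.{0}} (hM : IsZF {x | x ∈ M}) (hdM : d ∈ M)
  {A : ZFSet.{0} → Prop} {Ch : ZFSet.{0} → ZFSet.{0} → Prop} {L : ZFSet.{0} → Prop}
  (hA : Dfn {x | x ∈ M} {x | x ∈ M} fun w : Fin 1 → ZFSet.{0} => A (w 0))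
  (hCh : Dfn {x | x ∈ M} {x | x ∈ M} fun w : Fin 2 → ZFSet.{0} => Ch (w 0) (w 1))
  (hL : Dfn {x | x ∈ M} {x | x ∈ M} fun w : Fin 1 → ZFSet.{0} => L (w 0))

include hM

theorem st' {n : ℕ} {F : (Fin n → ZFSet.{0}) → ZFSet.{0}} (hF : DfnF {x | x ∈ M} {x | x ∈ M} F) :
    DfnF {x | x ∈ M} {x | x ∈ M} fun v => st (F v) := DfnF.comp1 (f := st) (dfn_st hM) hF

theorem dfn_ChR {Ch : ZFSet.{0} → ZFSet.{0} → Prop}
    (hCh : Dfn {x | x ∈ M} {x | x ∈ M} fun w : Fin 2 → ZFSet.{0} => Ch (w 0) (w 1)) :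
    Dfn {x | x ∈ M} {x | x ∈ M} fun w : Fin 2 → ZFSet.{0} => ChR Ch (w 0) (w 1) := by
  have hB := hM.base
  have h0 : (∅ : ZFSet.{0}) ∈ {x | x ∈ M} := hM.empty_mem
  have h1 : ∀ {n : ℕ} {F G : (Fin n → ZFSet.{0}) → ZFSet.{0}}, DfnF {x | x ∈ M} {x | x ∈ M} F →
      DfnF {x | x ∈ M} {x | x ∈ M} G → Dfn {x | x ∈ M} {x | x ∈ M} fun v => Ch (F v) (G v) :=
    fun hF hG => Dfn.comp2 (Q := Ch) hCh hF hG
  unfold ChR
  refine ((Dfn.eq (hM.fs' (DfnF.proj 0)) (DfnF.const h0)).and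
    (Dfn.eq (hM.fs' (DfnF.proj 1)) (DfnF.const h0))).or
    ((Dfn.eq (hM.fs' (DfnF.proj 0)) (DfnF.const h0)).not.and
    ((Dfn.eq (hM.fs' (DfnF.proj 0)) (hB.insert' (hM.fs' (DfnF.proj 1))
      (hM.fs' (DfnF.proj 1)))).and (h1 (hM.sn' (DfnF.proj 0)) (hM.sn' (DfnF.proj 1)))))

include hdM hA hCh

theorem dfn_Hid : Dfn {x | x ∈ M} {x | x ∈ M} fun w : Fin 1 → ZFSet.{0} =>
    Hid {x | x ∈ M} d A Ch (w 0) := by
  have hB := hM.base
  have h0 : (∅ : ZFSet.{0}) ∈ {x | x ∈ M} := hM.empty_mem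
  have hω : (ZFSet.omega : ZFSet.{0}) ∈ {x | x ∈ M} := hM.infinity
  have hdK : d ∈ {x | x ∈ M} := hdM
  have h1 : ∀ {n : ℕ} {F G : (Fin n → ZFSet.{0}) → ZFSet.{0}}, DfnF {x | x ∈ M} {x | x ∈ M} F →
      DfnF {x | x ∈ M} {x | x ∈ M} G → Dfn {x | x ∈ M} {x | x ∈ M} fun v => ChR Ch (F v) (G v) :=
    fun hF hG => Dfn.comp2 (Q := ChR Ch) (dfn_ChR hM hCh) hF hG
  have h2 : ∀ {n : ℕ} {F : (Fin n → ZFSet.{0}) → ZFSet.{0}}, DfnF {x | x ∈ M} {x | x ∈ M} F →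
      Dfn {x | x ∈ M} {x | x ∈ M} fun v => A (F v) := fun hF => Dfn.comp1 (Q := A) hA hF
  unfold Hid
  refine (Dfn.eq (DfnF.proj 0) (DfnF.const h0)).not.and (Dfn.and ?_ (Dfn.and ?_ ?_))
  · apply Dfn.ex
    exact Dfn.mem (DfnF.proj 1) (Sq' hM (DfnF.proj 0))
  · apply hB.ball (st' hM (DfnF.proj 0))
    refine (Dfn.mem (hM.fs' (hM.sn' (DfnF.proj 0))) (DfnF.const hω)).and (Dfn.and ?_ ?_)
    · exact Dfn.eq (hM.sn' (DfnF.proj 0)) (hB.pair' (hM.fs' (hM.sn' (DfnF.proj 0)))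
        (hM.sn' (hM.sn' (DfnF.proj 0))))
    · exact h2 (hM.sn' (hM.sn' (DfnF.proj 0)))
  · apply hB.ball (st' hM (DfnF.proj 0))
    apply Dfn.imp (Dfn.eq (hM.fs' (DfnF.proj 0)) (DfnF.const h0)).not
    apply hB.ball (st' hM (DfnF.proj 1))
    apply Dfn.imp (Dfn.eq (hM.fs' (DfnF.proj 0)) (hM.ap' (DfnF.const hdK)
      (hM.fs' (DfnF.proj 1))))
    exact h1 (hM.sn' (DfnF.proj 0)) (hM.sn' (DfnF.proj 1))

theorem dfn_PP : Dfn {x | x ∈ M} {x | x ∈ M} fun w : Fin 1 → ZFSet.{0} =>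
    w 0 ∈ PP M d A Ch := by
  have hω : (ZFSet.omega : ZFSet.{0}) ∈ {x | x ∈ M} := hM.infinity
  refine ((Dfn.mem (DfnF.proj 0) (DfnF.const hω)).or (dfn_Hid hM hdM hA hCh)).congr
    fun v hv => ?_
  rw [PP, ZFSet.mem_sep]
  exact ⟨fun h => ⟨hv 0, h⟩, fun h => h.2⟩

theorem PP_def : PP M d A Ch ∈ DefC M := by
  have hω : (ZFSet.omega : ZFSet.{0}) ∈ {x | x ∈ M} := hM.infinity
  exact defC_of ((Dfn.mem (DfnF.proj 0) (DfnF.const hω)).or (dfn_Hid hM hdM hA hCh))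

omit hA hCh hdM in
include hL in
theorem dfn_LeR : Dfn {x | x ∈ M} {x | x ∈ M} fun w : Fin 2 → ZFSet.{0} =>
    LeR L (w 0) (w 1) := by
  have hB := hM.base
  have h0 : (∅ : ZFSet.{0}) ∈ {x | x ∈ M} := hM.empty_mem
  have hω : (ZFSet.omega : ZFSet.{0}) ∈ {x | x ∈ M} := hM.infinity
  have h2 : ∀ {n : ℕ} {F : (Fin n → ZFSet.{0}) → ZFSet.{0}}, DfnF {x | x ∈ M} {x | x ∈ M} F →
      Dfn {x | x ∈ M} {x | x ∈ M} fun v => L (F v) := fun hF => Dfn.comp1 (Q := L) hL hF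
  unfold LeR
  refine (Dfn.eq (DfnF.proj 1) (DfnF.const h0)).or ((Dfn.eq (DfnF.proj 0) (DfnF.proj 1)).or
    ((Dfn.mem (DfnF.proj 0) (DfnF.const hω)).not.and (Dfn.or (Dfn.and ?_ ?_)
    (Dfn.and ?_ ?_))))
  · exact (Dfn.mem (DfnF.proj 1) (DfnF.const hω)).not
  · exact hB.subset' (st' hM (DfnF.proj 1)) (st' hM (DfnF.proj 0))
  · exact Dfn.mem (DfnF.proj 1) (DfnF.const hω)
  · apply hB.bex (st' hM (DfnF.proj 0))
    refine (Dfn.eq (DfnF.proj 2) (hB.insert' (hM.fs' (DfnF.proj 0))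
      (hM.fs' (DfnF.proj 0)))).and (Dfn.and ?_ ?_)
    · exact Dfn.eq (hM.fs' (hM.sn' (DfnF.proj 0))) (DfnF.const h0)
    · exact h2 (hM.sn' (hM.sn' (DfnF.proj 0)))

include hL in
theorem dfn_LL : Dfn {x | x ∈ M} {x | x ∈ M} fun w : Fin 2 → ZFSet.{0} =>
    pair (w 0) (w 1) ∈ LL L (PP M d A Ch) := by
  have h1 := dfn_PP hM hdM hA hCh
  have h2 : Dfn {x | x ∈ M} {x | x ∈ M} fun w : Fin 2 → ZFSet.{0} =>
      w 0 ∈ PP M d A Ch ∧ w 1 ∈ PP M d A Ch ∧ LeR L (w 0) (w 1) :=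
    (h1.comp ![0]).and ((h1.comp ![1]).and (dfn_LeR hM hL))
  exact h2.congr fun v _ => mem_LL.symm

include hL in
theorem LL_def : LL L (PP M d A Ch) ∈ DefC M := by
  have hd : Dfn {x | x ∈ M} {x | x ∈ M} fun w : Fin 1 → ZFSet.{0} =>
      w 0 ∈ LL L (PP M d A Ch) := by
    have h1 : Dfn {x | x ∈ M} {x | x ∈ M} fun w : Fin 1 → ZFSet.{0} => ∃ a ∈ {x | x ∈ M},
        ∃ b ∈ {x | x ∈ M}, w 0 = pair a b ∧ pair a b ∈ LL L (PP M d A Ch) := by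
      apply Dfn.ex
      apply Dfn.ex
      apply Dfn.and
      · exact Dfn.eq (DfnF.proj 2) (hM.base.pair' (DfnF.proj 1) (DfnF.proj 0))
      · exact (dfn_LL hM hdM hA hCh hL).comp ![1, 0]
    refine h1.congr fun w _ => ?_
    constructor
    · rintro ⟨a, -, b, -, h2, h3⟩
      rw [h2]
      exact h3
    · intro h
      obtain ⟨a, ha, b, hb, h2⟩ := ZFSet.mem_prod.1 (ZFSet.mem_sep.1 h).1
      rw [h2] at h ⊢
      exact ⟨a, (ZFSet.mem_sep.1 ha).1, b, (ZFSet.mem_sep.1 hb).1, rfl, h⟩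
  have h1 := defC_of hd
  have h2 : ZFSet.sep (fun x => x ∈ LL L (PP M d A Ch)) M = LL L (PP M d A Ch) := by
    ext z
    rw [ZFSet.mem_sep]
    refine ⟨fun h => h.2, fun h => ⟨?_, h⟩⟩
    obtain ⟨a, ha, b, hb, rfl⟩ := ZFSet.mem_prod.1 (ZFSet.mem_sep.1 h).1
    exact hM.pair_mem (ZFSet.mem_sep.1 ha).1 (ZFSet.mem_sep.1 hb).1
  rwa [h2] at h1

end

/-! ### The order is a partial order -/

theorem classForcing_of {M P : ZFSet.{0}} {π : ℕ → ℕ}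
    {A : ZFSet.{0} → Prop} {Ch : ZFSet.{0} → ZFSet.{0} → Prop} {L : ZFSet.{0} → Prop}
    (hmem : ∀ p, p ∈ P ↔ p ∈ ZFSet.omega ∨ ∃ h k, Vld A Ch π h k ∧ p = seq h k)
    (hP : P ∈ DefC M) (hL : LL L P ∈ DefC M) : IsClassForcing (DefC M) P (LL L P) where
  mem := hP
  le_mem := hL
  le_sub := fun u hu => (ZFSet.mem_sep.1 hu).1
  refl p hp := mem_LL.2 ⟨hp, hp, leR_refl p⟩
  trans p hp q hq r hr h1 h2 := mem_LL.2 ⟨hr, hp, leR_trans (mem_LL.1 h1).2.2 (mem_LL.1 h2).2.2⟩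
  antisymm p hp q hq h1 h2 := by
    have h3 := (mem_LL.1 h1).2.2
    have h4 := (mem_LL.1 h2).2.2
    rcases (hmem p).1 hp with hp' | ⟨h, k, hv, rfl⟩
    · rcases vis_of_vis_le h4 hp' with rfl | rfl
      · rcases vis_of_vis_le h3 (nat_mem_omega 0) with rfl | h5
        · rfl
        · exact h5
      · rfl
    · have hq' := hidden_of_le h3 (seq_notMem_omega hv.pos)
      rcases (hmem q).1 hq with h5 | ⟨h', k', hv', rfl⟩
      · exact absurd h5 hq'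
      · obtain ⟨h5, h6⟩ := (leR_seq_seq hv'.pos hv.pos).1 h3
        obtain ⟨h7, -⟩ := (leR_seq_seq hv.pos hv'.pos).1 h4
        obtain rfl : k = k' := le_antisymm h5 h7
        exact seq_congr h6

end Pool.Agent.R597.Ex
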