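import Pool.Agent.R597.Ex9

/-!
# The forcing theorem fails for the forcing of the game of the formulas
-/

set_option autoImplicit false
set_option linter.unreachableTactic false
set_option linter.unusedTactic false
set_option linter.unusedSectionVars false
set_option linter.unusedVariables false

namespace Pool.Agent.R597.Ex

open Pool.Agent.W868 Pool.Agent.W868.GM Pool.Agent.Y588 Pool.Agent.R597
open ZFSet (pair)

/-! ### The names -/

/-- The names of level `0`, and the two values. -/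
noncomputable def Z0 : ZFSet.{0} :=
  pair (im (fun i => pair i {pair ∅ (sc i)}) ZFSet.omega) (pair ∅ {∅})

/-- The names and the values of the next level. -/
noncomputable def ZH (d S : ZFSet.{0}) : ZFSet.{0} :=
  pair (im (fun i => pair i (insert (pair (chk ∅ (sn (sn S))) ∅)
    (im (fun j => pair (ap (fs S) j) ∅)
      (ZFSet.sep (fun j => j ≠ ∅ ∧ ap d j = i) ZFSet.omega)))) ZFSet.omega)
    (pair {sn (sn S)} {fs (sn S), sn (sn S)})

/-- The names and the values of level `m`. -/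
noncomputable def ZS (d : ZFSet.{0}) : ZFSet.{0} → ZFSet.{0} := Iter (ZH d) Z0

theorem ZS_zero (d : ZFSet.{0}) : ZS d (nat 0) = Z0 := Iter_zero _ _

theorem ZS_succ (d : ZFSet.{0}) (m : ℕ) : ZS d (nat (m + 1)) = ZH d (ZS d (nat m)) :=
  Iter_succ _ _ _

noncomputable def En (d : ZFSet.{0}) (m i : ℕ) : ZFSet.{0} := ap (fs (ZS d (nat m))) (nat i)

noncomputable def X0n (d : ZFSet.{0}) (m : ℕ) : ZFSet.{0} := fs (sn (ZS d (nat m)))

noncomputable def X1n (d : ZFSet.{0}) (m : ℕ) : ZFSet.{0} := sn (sn (ZS d (nat m)))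

theorem En_zero (d : ZFSet.{0}) (i : ℕ) : En d 0 i = {pair ∅ (nat (i + 1))} := by
  rw [En, ZS_zero, Z0, fs_pair, ap_im (nat_mem_omega i)]
  rfl

theorem X_zero (d : ZFSet.{0}) : X0n d 0 = ∅ ∧ X1n d 0 = {∅} := by
  rw [X0n, X1n, ZS_zero, Z0, sn_pair, fs_pair, sn_pair]
  exact ⟨rfl, rfl⟩

theorem En_succ (d : ZFSet.{0}) (m i : ℕ) : En d (m + 1) i =
    insert (pair (chk ∅ (X1n d m)) ∅) (im (fun j => pair (ap (fs (ZS d (nat m))) j) ∅)
      (ZFSet.sep (fun j => j ≠ ∅ ∧ ap d j = nat i) ZFSet.omega)) := by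
  rw [En, ZS_succ, ZH, fs_pair, ap_im (nat_mem_omega i)]
  rfl

theorem X_succ (d : ZFSet.{0}) (m : ℕ) : X0n d (m + 1) = {X1n d m} ∧
    X1n d (m + 1) = {X0n d m, X1n d m} := by
  refine ⟨?_, ?_⟩
  · rw [X0n, ZS_succ, ZH, sn_pair, fs_pair]
    rfl
  · rw [X1n, ZS_succ, ZH, sn_pair, sn_pair]
    rfl

theorem Xn_ne (d : ZFSet.{0}) (m : ℕ) : X0n d m ≠ X1n d m := by
  induction m with
  | zero =>
    rw [(X_zero d).1, (X_zero d).2]
    intro h
    have h1 : (∅ : ZFSet.{0}) ∈ ({∅} : ZFSet.{0}) := ZFSet.mem_singleton.2 rfl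
    rw [← h] at h1
    exact ZFSet.notMem_empty _ h1
  | succ m ih =>
    rw [(X_succ d m).1, (X_succ d m).2]
    exact level_ne ih

theorem mem_En_succ {d : ZFSet.{0}} {π : ℕ → ℕ} (hd : ∀ i, ap d (nat i) = nat (π i))
    {m i : ℕ} {z : ZFSet.{0}} :
    z ∈ En d (m + 1) i ↔ z = pair (chk ∅ (X1n d m)) ∅ ∨
      ∃ j, 1 ≤ j ∧ π j = i ∧ z = pair (En d m j) ∅ := by
  rw [En_succ, ZFSet.mem_insert_iff]
  refine or_congr Iff.rfl ?_
  rw [mem_im]
  constructor
  · rintro ⟨a, ha, rfl⟩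
    obtain ⟨h1, h2, h3⟩ := ZFSet.mem_sep.1 ha
    obtain ⟨j, rfl⟩ := mem_omega_iff.1 h1
    rw [Ne, nat_eq_empty] at h2
    rw [hd] at h3
    exact ⟨j, by omega, nat_injective h3, rfl⟩
  · rintro ⟨j, h1, h2, rfl⟩
    refine ⟨nat j, ZFSet.mem_sep.2 ⟨nat_mem_omega j, ?_, ?_⟩, rfl⟩
    · rw [Ne, nat_eq_empty]
      omega
    · rw [hd, h2]

theorem isName_En {P d : ZFSet.{0}} {π : ℕ → ℕ} (hd : ∀ i, ap d (nat i) = nat (π i))
    (hP : ∀ p ∈ (ZFSet.omega : ZFSet.{0}), p ∈ P) (m i : ℕ) : IsName P (En d m i) := by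
  have h0 : ∅ ∈ P := hP _ (nat_mem_omega 0)
  induction m generalizing i with
  | zero =>
    rw [En_zero]
    refine IsName.mk _ (fun z hz => ?_) fun y p hyp => ?_
    · rw [ZFSet.mem_singleton] at hz
      exact ⟨∅, _, hP _ (nat_mem_omega _), hz⟩
    · rw [ZFSet.mem_singleton] at hyp
      rw [(ZFSet.pair_inj.1 hyp).1]
      exact IsName.mk _ (fun z hz => absurd hz (ZFSet.notMem_empty _)) fun y p h =>
        absurd h (ZFSet.notMem_empty _)
  | succ m ih =>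
    refine IsName.mk _ (fun z hz => ?_) fun y p hyp => ?_
    · rcases (mem_En_succ hd).1 hz with h | ⟨j, -, -, h⟩
      · exact ⟨_, _, h0, h⟩
      · exact ⟨_, _, h0, h⟩
    · rcases (mem_En_succ hd).1 hyp with h | ⟨j, -, -, h⟩
      · rw [(ZFSet.pair_inj.1 h).1]
        exact isName_chk_of h0 _
      · rw [(ZFSet.pair_inj.1 h).1]
        exact ih j

section

variable {K : Set ZFSet.{0}} (hK : IsZF K) {d : ZFSet.{0}} (hd : d ∈ K)

include hK hd

theorem dfn_ZS : DfnF K K fun w : Fin 1 → ZFSet.{0} => ZS d (w 0) := by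
  have hB := hK.base
  have hω := hK.infinity
  have h0 := hK.empty_mem
  refine dfn_Iter hK ?_ ?_
  · refine hK.pair_mem (hK.im_mem hω (h := fun i => pair i {pair ∅ (sc i)}) ?_)
      (hK.pair_mem h0 (hK.single_mem h0))
    exact hB.pair' (DfnF.proj 0) (hB.single' (hB.pair' (DfnF.const h0)
      (hB.insert' (DfnF.proj 0) (DfnF.proj 0))))
  · have hc : ∀ {n : ℕ} {F : (Fin n → ZFSet.{0}) → ZFSet.{0}}, DfnF K K F →
        DfnF K K fun v => chk ∅ (F v) := fun hF => DfnF.comp1 (f := chk ∅) (dfn_chk hK h0) hF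
    unfold ZH
    refine hB.pair' (hK.im' (h := fun i w => pair i (insert (pair (chk ∅ (sn (sn (w 0)))) ∅)
      (im (fun j => pair (ap (fs (w 0)) j) ∅)
        (ZFSet.sep (fun j => j ≠ ∅ ∧ ap d j = i) ZFSet.omega)))) (DfnF.const hω) ?_) ?_
    · refine hB.pair' (DfnF.proj 0) (hB.insert' (hB.pair' (hc (hK.sn' (hK.sn' (DfnF.proj 1))))
        (DfnF.const h0)) ?_)
      refine hK.im' (h := fun j w => pair (ap (fs (w 1)) j) ∅)
        (hK.sep' (Q := fun j w => j ≠ ∅ ∧ ap d j = w 0) (DfnF.const hω) ?_) ?_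
      · exact (Dfn.eq (DfnF.proj 0) (DfnF.const h0)).not.and
          (Dfn.eq (hK.ap' (DfnF.const hd) (DfnF.proj 0)) (DfnF.proj 1))
      · exact hB.pair' (hK.ap' (hK.fs' (DfnF.proj 2)) (DfnF.proj 0)) (DfnF.const h0)
    · exact hB.pair' (hB.single' (hK.sn' (hK.sn' (DfnF.proj 0))))
        (hB.upair' (hK.fs' (hK.sn' (DfnF.proj 0))) (hK.sn' (hK.sn' (DfnF.proj 0))))

end

section

variable {M d : ZFSet.{0}} (hM : IsZF {x | x ∈ M}) {π : ℕ → ℕ} (hπ : Par M d π)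
  {Ch : ZFSet.{0} → ZFSet.{0} → Prop} {L : ZFSet.{0} → Prop} (hG : Gm {x | x ∈ M} Ch L)

include hM hπ hG

/-- A node of type 1 of a generic branch has a child of type 0. -/
theorem exists_child0 {H : ℕ → ZFSet.{0}} (hH : Br (fun y => y ∈ {x | x ∈ M}) Ch π H)
    (hgen : IsGeneric {D | D ∈ DefC M} (PG M d Ch) (LL L (PG M d Ch)) (GG L (PG M d Ch) H))
    {i m : ℕ} {y : ZFSet.{0}} (hi : H i = pair (nat (m + 1)) y)
    (hw : Wt {x | x ∈ M} Ch L (m + 1) y) : ∃ j, 1 ≤ j ∧ π j = i ∧ ∃ y', H j = pair (nat m) y' ∧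
      ¬ Wt {x | x ∈ M} Ch L m y' := by
  set K : Set ZFSet.{0} := {x | x ∈ M} with hK
  have hFR := frg_RR hM hπ
  have hB := hM.base
  have h0 : (∅ : ZFSet.{0}) ∈ K := hM.empty_mem
  have hdK : d ∈ K := hπ.mem
  have hiK : nat i ∈ K := hM.nat_mem i
  obtain ⟨hBr, hgen'⟩ := gen_down hM hπ hG hH hgen
  obtain ⟨r, hr, h1, u, hu, h2, h3⟩ := meet_def hFR hgen' (Q := fun r => r ∉ ZFSet.omega ∧
    ∃ u ∈ st r, fs u = nat i ∧ (fs (sn u) = ∅ ∨ sn (sn u) = ∅ ∨
      ∃ u' ∈ st r, fs u' ≠ ∅ ∧ ap d (fs u') = nat i ∧ sn (sn u') = ∅)) (by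
      refine (Dfn.mem (DfnF.proj 0) (DfnF.const hM.infinity)).not.and ?_
      apply hB.bex (st' hM (DfnF.proj 0))
      refine (Dfn.eq (hM.fs' (DfnF.proj 0)) (DfnF.const hiK)).and (Dfn.or ?_ (Dfn.or ?_ ?_))
      · exact Dfn.eq (hM.fs' (hM.sn' (DfnF.proj 0))) (DfnF.const h0)
      · exact Dfn.eq (hM.sn' (hM.sn' (DfnF.proj 0))) (DfnF.const h0)
      · apply hB.bex (st' hM (DfnF.proj 1))
        refine (Dfn.eq (hM.fs' (DfnF.proj 0)) (DfnF.const h0)).not.and (Dfn.and ?_ ?_)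
        · exact Dfn.eq (hM.ap' (DfnF.const hdK) (hM.fs' (DfnF.proj 0))) (DfnF.const hiK)
        · exact Dfn.eq (hM.sn' (hM.sn' (DfnF.proj 0))) (DfnF.const h0)) (by
      intro p hp
      obtain ⟨h, k, hv, hk, hle⟩ := exists_below hFR hp (i + 1)
      obtain ⟨m', ε, hε, h1⟩ := hv.ent i (by omega)
      by_cases hc : m' = 0 ∨ ε = ∅
      · refine ⟨_, seq_mem hFR hv, hle, seq_notMem_omega hv.pos, _,
          mem_st.2 ⟨i, by omega, rfl⟩, fs_pair _ _, ?_⟩
        rw [sn_pair, h1, fs_pair, sn_pair]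
        rcases hc with rfl | rfl
        · exact Or.inl rfl
        · exact Or.inr (Or.inl rfl)
      · push Not at hc
        obtain ⟨l, rfl⟩ : ∃ l, m' = l + 1 := ⟨m' - 1, by omega⟩
        obtain ⟨j, hj, hj1, hji⟩ := hπ.inf i k
        obtain ⟨e, rfl⟩ : ∃ e, j = k + e := ⟨j - k, by omega⟩
        obtain ⟨h', hv', h4⟩ := vld_long hFR hv e
        have h5 : ChR Chv (h' (π (k + e))) (pair (nat l) ∅) := by
          rw [hji, h4 i (by omega), h1, chR_pair]
          exact Or.inr ⟨rfl, Or.inl hc.2⟩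
        have hv'' := vld_one hFR hv' ⟨l, ∅, zero_two, rfl⟩ h5
        refine ⟨_, seq_mem hFR hv'', leR_trans ((leR_seq_seq hv''.pos hv.pos).2 ⟨by omega,
          fun i hi => by simp only [show i < k + e by omega, if_true]; exact (h4 i hi).symm⟩) hle,
          seq_notMem_omega hv''.pos, _, mem_st.2 ⟨i, by omega, rfl⟩, fs_pair _ _,
          Or.inr (Or.inr ⟨_, mem_st.2 ⟨k + e, by omega, rfl⟩, ?_, ?_, ?_⟩)⟩
        · rw [fs_pair, Ne, nat_eq_empty]
          omega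
        · rw [fs_pair, hπ.val, hji]
        · rw [sn_pair]
          simp only [lt_irrefl, if_false, sn_pair])
  rcases (mem_GG hFR hBr).1 hr with rfl | ⟨i, rfl, -⟩ | ⟨k, hk, rfl⟩
  · exact absurd (nat_mem_omega 0) h1
  · exact absurd (nat_mem_omega _) h1
  · obtain ⟨i', hi', rfl⟩ := mem_st.1 hu
    rw [fs_pair] at h2
    obtain rfl : i' = i := nat_injective h2
    rw [sn_pair] at h3
    simp only [hi, tz_pair, fs_pair, sn_pair] at h3
    rcases h3 with h3 | h3 | ⟨u', hu', h4, h5, h6⟩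
    · rw [nat_eq_empty] at h3
      omega
    · exact absurd h3 (bit_ne.2 hw)
    · obtain ⟨j, hj, rfl⟩ := mem_st.1 hu'
      rw [fs_pair, Ne, nat_eq_empty] at h4
      rw [fs_pair, hπ.val] at h5
      have h7 : π j = i' := nat_injective h5
      obtain ⟨m', y', hy', h8⟩ := (hH (j + 1) (by omega)).ent j (by omega)
      have h9 := (hH (j + 1) (by omega)).ch j (by omega) (by omega)
      rw [h7, hi, h8, chR_pair] at h9
      obtain rfl : m' = m := by omega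
      refine ⟨j, by omega, h7, y', h8, fun h10 => ?_⟩
      rw [sn_pair, h8, tz_pair, sn_pair] at h6
      exact bit_ne.2 h10 h6

/-- The values of the names. -/
theorem ev_En {H : ℕ → ZFSet.{0}} (hH : Br (fun y => y ∈ {x | x ∈ M}) Ch π H)
    (hgen : IsGeneric {D | D ∈ DefC M} (PG M d Ch) (LL L (PG M d Ch)) (GG L (PG M d Ch) H))
    (m : ℕ) : ∀ i y, H i = pair (nat m) y →
      (Wt {x | x ∈ M} Ch L m y → ev (GG L (PG M d Ch) H) (En d m i) = X1n d m) ∧
      (¬ Wt {x | x ∈ M} Ch L m y → ev (GG L (PG M d Ch) H) (En d m i) = X0n d m) := by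
  have hFP := frg_PG hM hπ hG
  have htop := top_mem_GG hFP hH
  induction m with
  | zero =>
    intro i y hi
    rw [En_zero, (X_zero d).1, (X_zero d).2]
    have h1 : nat (i + 1) ∈ GG L (PG M d Ch) H ↔ Wt {x | x ∈ M} Ch L 0 y := by
      rw [vis_mem_GG hFP hH, hi, fs_pair, sn_pair]
      exact ⟨fun h => h.2, fun h => ⟨rfl, h⟩⟩
    have hee : ev (GG L (PG M d Ch) H) ∅ = ∅ := by
      rw [ZFSet.eq_empty]
      intro z hz
      obtain ⟨a, b, h2, -⟩ := mem_ev.1 hz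
      exact ZFSet.notMem_empty _ h2
    constructor
    · intro h2
      ext z
      rw [mem_ev, ZFSet.mem_singleton]
      constructor
      · rintro ⟨a, b, h3, -, rfl⟩
        rw [ZFSet.mem_singleton] at h3
        rw [(ZFSet.pair_inj.1 h3).1, hee]
      · rintro rfl
        exact ⟨∅, _, ZFSet.mem_singleton.2 rfl, h1.2 h2, hee⟩
    · intro h2
      rw [ZFSet.eq_empty]
      intro z hz
      obtain ⟨a, b, h3, h4, -⟩ := mem_ev.1 hz
      rw [ZFSet.mem_singleton] at h3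
      rw [(ZFSet.pair_inj.1 h3).2] at h4
      exact h2 (h1.1 h4)
  | succ m ih =>
    intro i y hi
    have hmem : ∀ z, z ∈ ev (GG L (PG M d Ch) H) (En d (m + 1) i) ↔ z = X1n d m ∨
        ∃ j, 1 ≤ j ∧ π j = i ∧ z = ev (GG L (PG M d Ch) H) (En d m j) := by
      intro z
      rw [mem_ev]
      constructor
      · rintro ⟨a, b, h3, h4, rfl⟩
        rcases (mem_En_succ hπ.val).1 h3 with h5 | ⟨j, h5, h6, h7⟩
        · rw [(ZFSet.pair_inj.1 h5).1, ev_chk htop]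
          exact Or.inl rfl
        · rw [(ZFSet.pair_inj.1 h7).1]
          exact Or.inr ⟨j, h5, h6, rfl⟩
      · rintro (rfl | ⟨j, h5, h6, rfl⟩)
        · exact ⟨_, _, (mem_En_succ hπ.val).2 (Or.inl rfl), htop, ev_chk htop _⟩
        · exact ⟨_, _, (mem_En_succ hπ.val).2 (Or.inr ⟨j, h5, h6, rfl⟩), htop, rfl⟩
    have hchild : ∀ j, 1 ≤ j → π j = i → ∃ y', y' ∈ {x | x ∈ M} ∧ H j = pair (nat m) y' ∧
        Ch y y' := by
      intro j hj hji
      obtain ⟨m', y', hy', h8⟩ := (hH (j + 1) (by omega)).ent j (by omega)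
      have h9 := (hH (j + 1) (by omega)).ch j (by omega) hj
      rw [hji, hi, h8, chR_pair] at h9
      rcases h9 with h9 | ⟨h9, h10⟩
      · omega
      · obtain rfl : m = m' := by omega
        exact ⟨y', hy', h8, h10⟩
    rw [(X_succ d m).1, (X_succ d m).2]
    constructor
    · intro hw
      obtain ⟨j, hj, hji, y', hy', hw'⟩ := exists_child0 hM hπ hG hH hgen hi hw
      ext z
      rw [hmem, ZFSet.mem_pair]
      constructor
      · rintro (rfl | ⟨j, h5, h6, rfl⟩)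
        · exact Or.inr rfl
        · obtain ⟨y₂, -, h7, -⟩ := hchild j h5 h6
          by_cases h8 : Wt {x | x ∈ M} Ch L m y₂
          · exact Or.inr ((ih j y₂ h7).1 h8)
          · exact Or.inl ((ih j y₂ h7).2 h8)
      · rintro (rfl | rfl)
        · exact Or.inr ⟨j, hj, hji, ((ih j y' hy').2 hw').symm⟩
        · exact Or.inl rfl
    · intro hw
      ext z
      rw [hmem, ZFSet.mem_singleton]
      constructor
      · rintro (rfl | ⟨j, h5, h6, rfl⟩)
        · rfl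
        · obtain ⟨y₂, hy₂, h7, h8⟩ := hchild j h5 h6
          refine (ih j y₂ h7).1 ?_
          by_contra h9
          exact hw ⟨y₂, hy₂, h8, h9⟩
      · exact fun h => Or.inl h

/-- If the forcing relation for the formula `v 0 = v 1` is definable, then the types are
definable. -/
theorem dfn_Ty_of (hc : {x | x ∈ M}.Countable)
    (hFT : ∃ X ∈ DefC M, ∀ x, x ∈ X ↔ ∃ p ∈ PG M d Ch, ∃ v : Fin 2 → ZFSet.{0},
      (∀ i, v i ∈ M ∧ IsName (PG M d Ch) (v i)) ∧ x = pair p (tup v) ∧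
      Forces M (DefC M) (PG M d Ch) (LL L (PG M d Ch)) (.eq (.inl 0) (.inl 1)) v p) :
    Dfn {x | x ∈ M} {x | x ∈ M} fun w : Fin 1 → ZFSet.{0} => Ty {x | x ∈ M} Ch L (w 0) := by
  set K : Set ZFSet.{0} := {x | x ∈ M} with hK
  have hFP := frg_PG hM hπ hG
  have hCF := cf_PG hM hπ hG hc
  have hB := hM.base
  have h0 : (∅ : ZFSet.{0}) ∈ K := hM.empty_mem
  obtain ⟨X, hX, hXm⟩ := hFT
  have hZS := dfn_ZS hM (show d ∈ K from hπ.mem)
  -- the names
  set N1 : ZFSet.{0} → ZFSet.{0} := fun m => ap (fs (ZS d m)) ∅ with hN1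
  set N2 : ZFSet.{0} → ZFSet.{0} := fun m => chk ∅ (sn (sn (ZS d m))) with hN2
  have hN1d : DfnF K K fun w : Fin 1 → ZFSet.{0} => N1 (w 0) :=
    hM.ap' (hM.fs' hZS) (DfnF.const h0)
  have hN2d : DfnF K K fun w : Fin 1 → ZFSet.{0} => N2 (w 0) :=
    DfnF.comp1 (f := chk ∅) (dfn_chk hM h0) (hM.sn' (hM.sn' hZS))
  have key : ∀ (m : ℕ) (y : ZFSet.{0}), y ∈ K →
      (Wt K Ch L m y ↔ pair (pair ∅ (pair (nat m) y)) (pair (N1 (nat m))
        (pair (N2 (nat m)) ∅)) ∈ X) := by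
    intro m y hy
    have hv : Vld (fun y => y ∈ K) Ch π (fun _ => pair (nat m) y) 1 :=
      ⟨le_rfl, fun i _ => ⟨m, y, hy, rfl⟩, fun i hi hi1 => by omega⟩
    have hp : pair ∅ (pair (nat m) y) = seq (fun _ => pair (nat m) y) 1 := rfl
    have hpP : pair ∅ (pair (nat m) y) ∈ PG M d Ch := by
      rw [hp]
      exact seq_mem hFP hv
    have hn1 : N1 (nat m) = En d m 0 := rfl
    have hn2 : N2 (nat m) = chk ∅ (X1n d m) := rfl
    have hnm : ∀ i, (![N1 (nat m), N2 (nat m)] : Fin 2 → ZFSet.{0}) i ∈ M ∧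
        IsName (PG M d Ch) ((![N1 (nat m), N2 (nat m)] : Fin 2 → ZFSet.{0}) i) := by
      intro i
      refine Fin.cases ?_ (fun i => ?_) i
      · refine ⟨hN1d.1 (fun _ => nat m) fun _ => hM.nat_mem m, ?_⟩
        show IsName (PG M d Ch) (N1 (nat m))
        rw [hn1]
        exact isName_En hπ.val (fun p hp => om_mem hFP hp) m 0
      · rw [Fin.eq_zero i]
        refine ⟨hN2d.1 (fun _ => nat m) fun _ => hM.nat_mem m, ?_⟩
        show IsName (PG M d Ch) (N2 (nat m))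
        rw [hn2]
        exact isName_chk_of (om_mem hFP (nat_mem_omega 0)) _
    have htup : tup (![N1 (nat m), N2 (nat m)] : Fin 2 → ZFSet.{0}) =
        pair (N1 (nat m)) (pair (N2 (nat m)) ∅) := rfl
    have hval : ∀ G, IsGen (DefC M) (PG M d Ch) (LL L (PG M d Ch)) G →
        pair ∅ (pair (nat m) y) ∈ G →
        (ev G (N1 (nat m)) = ev G (N2 (nat m)) ↔ Wt K Ch L m y) := by
      intro G hGen hpG
      obtain ⟨H, hH, rfl⟩ := branch_of_gen hFP hGen
      rw [hp, seq_mem_GG hFP hH le_rfl] at hpG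
      have h1 := ev_En hM hπ hG hH hGen m 0 y (hpG 0 (by omega)).symm
      rw [hn1, hn2, ev_chk (top_mem_GG hFP hH)]
      by_cases h2 : Wt K Ch L m y
      · exact ⟨fun _ => h2, fun _ => h1.1 h2⟩
      · rw [h1.2 h2]
        exact ⟨fun h3 => absurd h3 (Xn_ne d m), fun h3 => absurd h3 h2⟩
    rw [← htup, hXm]
    constructor
    · intro h1
      refine ⟨_, hpP, _, hnm, rfl, fun G hGen hpG => ?_⟩
      exact (hval G hGen hpG).2 h1
    · rintro ⟨p, hpP', v, hv', h2, h3⟩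
      obtain ⟨h4, h5⟩ := ZFSet.pair_inj.1 h2
      obtain ⟨G, hGen, hpG⟩ := hCF.gen hpP
      have h6 := h3 G hGen (h4 ▸ hpG)
      rw [← tup_inj h5] at h6
      exact (hval G hGen hpG).1 h6
  have hdX : Dfn K K fun w : Fin 1 → ZFSet.{0} => w 0 ∈ X := dfn_of_defC hX
  have h1 : Dfn K K fun w : Fin 1 → ZFSet.{0} => fs (w 0) ∈ ZFSet.omega ∧
      pair (pair ∅ (pair (fs (w 0)) (sn (w 0)))) (pair (N1 (fs (w 0)))
        (pair (N2 (fs (w 0))) ∅)) ∈ X := by
    refine (Dfn.mem (hM.fs' (DfnF.proj 0)) (DfnF.const hM.infinity)).and ?_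
    refine Dfn.comp1 (Q := fun x => x ∈ X) hdX (hB.pair' (hB.pair' (DfnF.const h0)
      (hB.pair' (hM.fs' (DfnF.proj 0)) (hM.sn' (DfnF.proj 0)))) (hB.pair'
      (DfnF.comp1 (f := N1) hN1d (hM.fs' (DfnF.proj 0))) (hB.pair'
      (DfnF.comp1 (f := N2) hN2d (hM.fs' (DfnF.proj 0))) (DfnF.const h0))))
  refine h1.congr fun w hw => ?_
  have hsn : sn (w 0) ∈ K := (hM.sn' (DfnF.proj (0 : Fin 1))).1 w hw
  constructor
  · rintro ⟨h2, h3⟩
    obtain ⟨m, hm⟩ := mem_omega_iff.1 h2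
    rw [hm] at h3
    exact ⟨m, hm, (key m _ hsn).2 h3⟩
  · rintro ⟨m, hm, h3⟩
    rw [hm]
    exact ⟨nat_mem_omega m, (key m _ hsn).1 h3⟩

end

/-! ### The counterexample -/

/-- The definable classes of a model of ZF. -/
theorem counter {M : ZFSet.{0}} (hM : IsZF {x | x ∈ M}) (hc : {x | x ∈ M}.Countable) :
    ∃ P LP Q LQ : ZFSet.{0},
      IsClassForcing (DefC M) P LP ∧ (∃ t ∈ P, ∀ p ∈ P, pair p t ∈ LP) ∧
      IsClassForcing (DefC M) Q LQ ∧ (∃ t ∈ Q, ∀ q ∈ Q, pair q t ∈ LQ) ∧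
      {V | ∃ G, IsGen (DefC M) P LP G ∧ V = Mext M P G} =
        {V | ∃ H, IsGen (DefC M) Q LQ H ∧ V = Mext M Q H} ∧
      ForcingThm M (DefC M) P LP ∧ ¬ ForcingThm M (DefC M) Q LQ ∧
      ¬ ∃ X ∈ DefC M, ∀ x, x ∈ X ↔ ∃ q ∈ Q, ∃ v : Fin 2 → ZFSet.{0},
        (∀ i, v i ∈ M ∧ IsName Q (v i)) ∧ x = pair q (tup v) ∧
        Forces M (DefC M) Q LQ (.eq (.inl 0) (.inl 1)) v q := by
  obtain ⟨d, π, hπ⟩ := exists_par hM
  have hG1 := gm_triv hM
  have hG2 := gm_fml hM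
  have h1 := cf_PG hM hπ hG1 hc
  have h2 := cf_PG hM hπ hG2 hc
  refine ⟨_, _, _, _, h1.cf, h1.top, h2.cf, h2.top, ?_, forcingThm_triv hM hπ hc, fun h => ?_,
    fun h => ?_⟩
  · rw [mext_set hM hπ hG1 hc, mext_set hM hπ hG2 hc]
  · exact not_dfn_Ty hM (dfn_Ty_of hM hπ hG2 hc (h.definability 2
      (.eq (.inl 0) (.inl 1) : Fml ZFSet.{0} 2) ⟨TOver.inl _, TOver.inl _⟩))
  · exact not_dfn_Ty hM (dfn_Ty_of hM hπ hG2 hc h)

end Pool.Agent.R597.Ex
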