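import Pool.Agent.R597.Fr9

/-!
# The definable classes form a model of `GB⁻`
-/

set_option autoImplicit false
set_option linter.unreachableTactic false
set_option linter.unusedTactic false
set_option linter.unusedSectionVars false
set_option linter.unusedVariables false

namespace Pool.Agent.R597.Ex

open Pool.Agent.W868 Pool.Agent.W868.GM Pool.Agent.Y588 Pool.Agent.R597
open ZFSet (pair)

section

variable {M : ZFSet.{0}} (hM : IsZF {x | x ∈ M})

include hM

theorem dfn_cls {X : ZFSet.{0}} (hX : X ∈ DefC M) :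
    Dfn {x | x ∈ M} {x | x ∈ M} fun w : Fin 1 → ZFSet.{0} => w 0 ∈ X := by
  obtain ⟨-, φ, h1, h2⟩ := mem_DefC.1 hX
  refine ⟨φ, h1, fun v hv => ?_⟩
  rw [vec1 (v := v)]
  exact (h2 _ (hv 0)).symm

/-- Formulas with class parameters define definable relations. -/
theorem dfn_sat_cls : {n : ℕ} → (φ : Fml ZFSet.{0} n) → φ.Over {X | X ∈ DefC M} →
    Dfn {x | x ∈ M} {x | x ∈ M} fun v : Fin n → ZFSet.{0} => Sat {x | x ∈ M} id φ v
  | _, .mem (.inl i) (.inl j), _ => Dfn.mem (DfnF.proj i) (DfnF.proj j)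
  | _, .mem (.inl i) (.inr X), h => (dfn_cls hM (h.2 X rfl)).comp fun _ => i
  | _, .mem (.inr X) (.inl j), h => by
    by_cases hX : X ∈ {x | x ∈ M}
    · exact Dfn.mem (DfnF.const hX) (DfnF.proj j)
    · refine (Dfn.prop False).congr fun v hv => ⟨fun h => h.elim, fun h1 => hX ?_⟩
      exact hM.trans _ (hv j) _ h1
  | _, .mem (.inr X) (.inr Y), _ => (Dfn.prop (X ∈ Y)).congr fun _ _ => Iff.rfl
  | _, .eq (.inl i) (.inl j), _ => Dfn.eq (DfnF.proj i) (DfnF.proj j)
  | _, .eq (.inl i) (.inr X), _ => by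
    by_cases hX : X ∈ {x | x ∈ M}
    · exact Dfn.eq (DfnF.proj i) (DfnF.const hX)
    · refine (Dfn.prop False).congr fun v hv => ⟨fun h => h.elim, fun h1 => hX ?_⟩
      have h2 : v i = X := h1
      rw [← h2]
      exact hv i
  | _, .eq (.inr X) (.inl j), _ => by
    by_cases hX : X ∈ {x | x ∈ M}
    · exact Dfn.eq (DfnF.const hX) (DfnF.proj j)
    · refine (Dfn.prop False).congr fun v hv => ⟨fun h => h.elim, fun h1 => hX ?_⟩
      have h2 : X = v j := h1
      rw [h2]
      exact hv j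
  | _, .eq (.inr X) (.inr Y), _ => (Dfn.prop (X = Y)).congr fun _ _ => Iff.rfl
  | _, .neg φ, h => (dfn_sat_cls φ h).not
  | _, .and φ ψ, h => (dfn_sat_cls φ h.1).and (dfn_sat_cls ψ h.2)
  | _, .ex φ, h => by
    have h1 := dfn_sat_cls φ h
    refine Dfn.ex (Q := fun a v => Sat {x | x ∈ M} id φ (Fin.cons a v)) ?_
    refine h1.congr fun w _ => ?_
    rw [Fin.cons_self_tail]

theorem isGB_DefC : IsGB M (DefC M) where
  trans x hx y hy := hM.trans x hx y hy
  classes X hX := (mem_DefC.1 hX).1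
  sets x hx := by
    have hxK : x ∈ {x | x ∈ M} := hx
    have h1 := defC_of (M := M) (Q := fun z => z ∈ x) (Dfn.mem (DfnF.proj 0) (DfnF.const hxK))
    have h2 : ZFSet.sep (fun z => z ∈ x) M = x := by
      ext z
      rw [ZFSet.mem_sep]
      exact ⟨fun h => h.2, fun h => ⟨hM.trans _ hx _ h, h⟩⟩
    rwa [h2] at h1
  pairing x hx y hy := hM.pairing x hx y hy
  union x hx := hM.union x hx
  infinity := hM.infinity
  separation φ hφ x hx := by
    have h1 := dfn_sat_cls hM φ hφ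
    refine ⟨ZFSet.sep (fun z => Sat {x | x ∈ M} id φ ![z]) x, ?_, fun z => ZFSet.mem_sep⟩
    refine hM.sep_mem (Q := fun z => Sat {x | x ∈ M} id φ ![z]) ?_ hx
    refine h1.congr fun v _ => ?_
    rw [← vec1]
  collection φ hφ x hx h := by
    have h1 := dfn_sat_cls hM φ hφ
    have h2 : DfnF {x | x ∈ M} {x | x ∈ M} fun w : Fin 1 → ZFSet.{0} =>
        wt {x | x ∈ M} fun b => Sat {x | x ∈ M} id φ ![w 0, b] := by
      refine wt' hM (Q := fun b w => Sat {x | x ∈ M} id φ ![w 0, b]) ?_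
      refine (h1.comp ![1, 0]).congr fun v _ => ?_
      have h3 : (fun i => v ((![1, 0] : Fin 2 → Fin 2) i)) = ![Fin.tail v 0, v 0] := by
        funext i
        fin_cases i
        · rfl
        · rfl
      rw [h3]
    refine ⟨ZFSet.sUnion (im (fun z => wt {x | x ∈ M} fun b => Sat {x | x ∈ M} id φ ![z, b]) x),
      hM.union _ (hM.im_mem hx h2), fun z hz => ?_⟩
    obtain ⟨b, hb⟩ := wt_ne hM (h z hz)
    exact ⟨b, ZFSet.mem_sUnion.2 ⟨_, mem_im.2 ⟨z, hz, rfl⟩, hb⟩, (wt_spec hb).2⟩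
  comprehension φ hφ := by
    have h1 := dfn_sat_cls hM φ hφ
    refine ⟨_, defC_of (M := M) (Q := fun z => Sat {x | x ∈ M} id φ ![z]) ?_,
      fun z => ZFSet.mem_sep⟩
    refine h1.congr fun v _ => ?_
    rw [← vec1]

end

end Pool.Agent.R597.Ex
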