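import Pool.Agent.R597.Ex10
import Pool.Agent.R597.Ex11

/-!
# The forcing theorem is not determined by the generic extensions
-/

set_option autoImplicit false

namespace Pool.Agent.R597.Ex

open Pool.Agent.W868 Pool.Agent.W868.GM Pool.Agent.R597
open ZFSet (pair)

theorem main_theorem {M : ZFSet.{0}} (hc : {x | x ∈ M}.Countable) (hM : IsZF {x | x ∈ M}) :
    IsGB M (DefC M) ∧ ∃ P LP Q LQ : ZFSet.{0},
      IsClassForcing (DefC M) P LP ∧ (∃ t ∈ P, ∀ p ∈ P, pair p t ∈ LP) ∧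
      IsClassForcing (DefC M) Q LQ ∧ (∃ t ∈ Q, ∀ q ∈ Q, pair q t ∈ LQ) ∧
      {V | ∃ G, IsGen (DefC M) P LP G ∧ V = Mext M P G} =
        {V | ∃ H, IsGen (DefC M) Q LQ H ∧ V = Mext M Q H} ∧
      ForcingThm M (DefC M) P LP ∧ ¬ ForcingThm M (DefC M) Q LQ ∧
      ¬ ∃ X ∈ DefC M, ∀ x, x ∈ X ↔ ∃ q ∈ Q, ∃ v : Fin 2 → ZFSet.{0},
        (∀ i, v i ∈ M ∧ IsName Q (v i)) ∧ x = pair q (tup v) ∧
        Forces M (DefC M) Q LQ (.eq (.inl 0) (.inl 1)) v q :=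
  ⟨isGB_DefC hM, counter hM hc⟩

end Pool.Agent.R597.Ex
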