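import Pool.Agent.R597.Ex1

/-!
# Class forcings from games: generic filters are branches
-/

set_option autoImplicit false
set_option linter.unreachableTactic false
set_option linter.unusedTactic false
set_option linter.unusedSectionVars false
set_option linter.unusedVariables false

namespace Pool.Agent.R597.Ex

open Pool.Agent.W868 Pool.Agent.W868.GM Pool.Agent.Y588 Pool.Agent.R597
open ZFSet (pair)

/-- The forcing notions with the conditions given by sequences. `D` is the set of the sets that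
the generic filters have to meet. -/
structure Frg (K D : Set ZFSet.{0}) (A : ZFSet.{0} → Prop) (Ch : ZFSet.{0} → ZFSet.{0} → Prop)
    (L : ZFSet.{0} → Prop) (π : ℕ → ℕ) (P : ZFSet.{0}) : Prop where
  zf : IsZF K
  lt : ∀ i, 1 ≤ i → π i < i
  mem : ∀ p, p ∈ P ↔ p ∈ ZFSet.omega ∨ ∃ h k, Vld A Ch π h k ∧ p = seq h k
  sep : ∀ Q : ZFSet.{0} → Prop, Dfn K K (fun w : Fin 1 → ZFSet.{0} => Q (w 0)) →
    ZFSet.sep Q P ∈ D
  next : ∀ y, A y → ∃ y', A y' ∧ Ch y y'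
  one : ∃ y, A y ∧ L y

/-- The filter given by a branch. -/
noncomputable def GG (L : ZFSet.{0} → Prop) (P : ZFSet.{0}) (H : ℕ → ZFSet.{0}) : ZFSet.{0} :=
  ZFSet.sep (fun p => p = ∅ ∨ (∃ i, p = nat (i + 1) ∧ fs (H i) = ∅ ∧ L (sn (H i))) ∨
    ∃ k ≥ 1, p = seq H k) P

/-- A branch. -/
def Br (A : ZFSet.{0} → Prop) (Ch : ZFSet.{0} → ZFSet.{0} → Prop) (π : ℕ → ℕ)
    (H : ℕ → ZFSet.{0}) : Prop := ∀ k ≥ 1, Vld A Ch π H k

theorem vld_congr {A : ZFSet.{0} → Prop} {Ch : ZFSet.{0} → ZFSet.{0} → Prop} {π : ℕ → ℕ}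
    (hπ : ∀ i, 1 ≤ i → π i < i)
    {h h' : ℕ → ZFSet.{0}} {k : ℕ} (hv : Vld A Ch π h k) (he : ∀ i < k, h' i = h i) :
    Vld A Ch π h' k where
  pos := hv.pos
  ent i hi := by
    rw [he i hi]
    exact hv.ent i hi
  ch i hi h1 := by
    rw [he i hi, he _ ((hπ i h1).trans hi)]
    exact hv.ch i hi h1

theorem Vld.mono {A : ZFSet.{0} → Prop} {Ch : ZFSet.{0} → ZFSet.{0} → Prop} {π : ℕ → ℕ}
    {h : ℕ → ZFSet.{0}} {k l : ℕ} (hv : Vld A Ch π h k) (hl : 1 ≤ l) (hlk : l ≤ k) :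
    Vld A Ch π h l where
  pos := hl
  ent i hi := hv.ent i (by omega)
  ch i hi h1 := hv.ch i (by omega) h1

section

variable {K D : Set ZFSet.{0}} {A : ZFSet.{0} → Prop} {Ch : ZFSet.{0} → ZFSet.{0} → Prop}
  {L : ZFSet.{0} → Prop} {π : ℕ → ℕ} {P : ZFSet.{0}} (hF : Frg K D A Ch L π P)

include hF

theorem om_mem {p : ZFSet.{0}} (hp : p ∈ (ZFSet.omega : ZFSet.{0})) : p ∈ P :=
  (hF.mem p).2 (Or.inl hp)

theorem seq_mem {h : ℕ → ZFSet.{0}} {k : ℕ} (hv : Vld A Ch π h k) : seq h k ∈ P :=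
  (hF.mem _).2 (Or.inr ⟨h, k, hv, rfl⟩)

theorem seq_mem_iff {h : ℕ → ZFSet.{0}} {k : ℕ} (hk : 1 ≤ k) : seq h k ∈ P ↔ Vld A Ch π h k := by
  refine ⟨fun h1 => ?_, fun h1 => seq_mem hF h1⟩
  rcases (hF.mem _).1 h1 with h2 | ⟨h', k', hv, h2⟩
  · exact absurd h2 (seq_notMem_omega hk)
  · obtain ⟨rfl, h3⟩ := seq_inj h2
    exact vld_congr hF.lt hv h3

/-- One more element. -/
theorem vld_one {h : ℕ → ZFSet.{0}} {k : ℕ} (hv : Vld A Ch π h k) {z : ZFSet.{0}}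
    (hz : ∃ (m : ℕ) (y : ZFSet.{0}), A y ∧ z = pair (nat m) y) (hc : ChR Ch (h (π k)) z) :
    Vld A Ch π (fun i => if i < k then h i else z) (k + 1) where
  pos := by omega
  ent i hi := by
    by_cases h1 : i < k
    · simp only [h1, if_true]
      exact hv.ent i h1
    · simp only [h1, if_false]
      exact hz
  ch i hi h1 := by
    have h2 := hF.lt i h1
    by_cases h3 : i < k
    · simp only [h3, if_true, show π i < k by omega]
      exact hv.ch i h3 h1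
    · obtain rfl : i = k := by omega
      simp only [h3, if_false, h2, if_true]
      exact hc

theorem vld_next {h : ℕ → ZFSet.{0}} {k : ℕ} (hv : Vld A Ch π h k) :
    ∃ h', Vld A Ch π h' (k + 1) ∧ ∀ i < k, h' i = h i := by
  obtain ⟨y₁, hy₁, -⟩ := hF.one
  obtain ⟨m, y, hy, h1⟩ := hv.ent (π k) (hF.lt k hv.pos)
  obtain ⟨z, hz, hc⟩ : ∃ z, (∃ (m : ℕ) (y : ZFSet.{0}), A y ∧ z = pair (nat m) y) ∧
      ChR Ch (h (π k)) z := by
    cases m with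
    | zero =>
      refine ⟨pair (nat 0) y₁, ⟨0, y₁, hy₁, rfl⟩, Or.inl ⟨?_, ?_⟩⟩
      · rw [h1, fs_pair]
        rfl
      · rw [fs_pair]
        rfl
    | succ m =>
      obtain ⟨y', hy', hc⟩ := hF.next y hy
      refine ⟨pair (nat m) y', ⟨m, y', hy', rfl⟩, Or.inr ⟨?_, ?_, ?_⟩⟩
      · rw [h1, fs_pair, Ne, nat_eq_empty]
        omega
      · rw [h1, fs_pair, fs_pair]
        rfl
      · rwa [h1, sn_pair, sn_pair]
  exact ⟨_, vld_one hF hv hz hc, fun i hi => by simp [hi]⟩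

theorem vld_long {h : ℕ → ZFSet.{0}} {k : ℕ} (hv : Vld A Ch π h k) (l : ℕ) :
    ∃ h', Vld A Ch π h' (k + l) ∧ ∀ i < k, h' i = h i := by
  induction l with
  | zero => exact ⟨h, hv, fun _ _ => rfl⟩
  | succ l ih =>
    obtain ⟨h', h1, h2⟩ := ih
    obtain ⟨h'', h3, h4⟩ := vld_next hF h1
    exact ⟨h'', h3, fun i hi => by rw [h4 i (by omega), h2 i hi]⟩

/-- Below each condition there is a hidden condition of length at least `n`. -/
theorem exists_below {p : ZFSet.{0}} (hp : p ∈ P) (n : ℕ) : ∃ h k, Vld A Ch π h k ∧ n ≤ k ∧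
    LeR L (seq h k) p := by
  have key : ∃ h k, Vld A Ch π h k ∧ LeR L (seq h k) p := by
    rcases (hF.mem p).1 hp with h1 | ⟨h, k, hv, rfl⟩
    · obtain ⟨i, rfl⟩ := mem_omega_iff.1 h1
      obtain ⟨y₁, hy₁, hL⟩ := hF.one
      have hv : Vld A Ch π (fun _ => pair (nat 0) y₁) (i + 1) :=
        ⟨by omega, fun j _ => ⟨0, y₁, hy₁, rfl⟩, fun j _ _ => Or.inl ⟨by rw [fs_pair]; rfl,
          by rw [fs_pair]; rfl⟩⟩
      refine ⟨_, _, hv, ?_⟩
      cases i with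
      | zero => exact leR_top _
      | succ i =>
        refine (leR_seq_vis (by omega)).2 ⟨by omega, ?_, ?_⟩
        · rw [fs_pair]
          rfl
        · rwa [sn_pair]
    · exact ⟨h, k, hv, leR_refl _⟩
  obtain ⟨h, k, hv, h1⟩ := key
  obtain ⟨h', h2, h3⟩ := vld_long hF hv n
  exact ⟨h', k + n, h2, by omega, leR_trans ((leR_seq_seq h2.pos hv.pos).2
    ⟨by omega, fun i hi => (h3 i hi).symm⟩) h1⟩

/-! ### The filter of a branch -/

theorem mem_GG {H : ℕ → ZFSet.{0}} (hH : Br A Ch π H) {p : ZFSet.{0}} : p ∈ GG L P H ↔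
    p = ∅ ∨ (∃ i, p = nat (i + 1) ∧ fs (H i) = ∅ ∧ L (sn (H i))) ∨ ∃ k ≥ 1, p = seq H k := by
  rw [GG, ZFSet.mem_sep]
  refine ⟨fun h => h.2, fun h => ⟨?_, h⟩⟩
  rcases h with rfl | ⟨i, rfl, -⟩ | ⟨k, hk, rfl⟩
  · exact om_mem hF (nat_mem_omega 0)
  · exact om_mem hF (nat_mem_omega _)
  · exact seq_mem hF (hH k hk)

theorem seq_mem_GG {H : ℕ → ZFSet.{0}} (hH : Br A Ch π H) {h : ℕ → ZFSet.{0}} {k : ℕ}
    (hk : 1 ≤ k) : seq h k ∈ GG L P H ↔ ∀ i < k, h i = H i := by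
  rw [mem_GG hF hH]
  constructor
  · rintro (h1 | ⟨i, h1, -⟩ | ⟨l, hl, h1⟩)
    · exact absurd h1 (seq_ne_empty hk)
    · exact absurd (h1 ▸ nat_mem_omega (i + 1)) (seq_notMem_omega hk)
    · exact (seq_inj h1).2
  · intro h1
    exact Or.inr (Or.inr ⟨k, hk, seq_congr h1⟩)

theorem vis_mem_GG {H : ℕ → ZFSet.{0}} (hH : Br A Ch π H) {i : ℕ} :
    nat (i + 1) ∈ GG L P H ↔ fs (H i) = ∅ ∧ L (sn (H i)) := by
  rw [mem_GG hF hH]
  constructor
  · rintro (h1 | ⟨j, h1, h2⟩ | ⟨l, hl, h1⟩)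
    · rw [nat_eq_empty] at h1
      omega
    · have h3 := nat_injective h1
      obtain rfl : i = j := by omega
      exact h2
    · exact absurd (h1 ▸ nat_mem_omega (i + 1)) (seq_notMem_omega hl)
  · exact fun h1 => Or.inr (Or.inl ⟨i, rfl, h1⟩)

theorem top_mem_GG {H : ℕ → ZFSet.{0}} (hH : Br A Ch π H) : ∅ ∈ GG L P H :=
  (mem_GG hF hH).2 (Or.inl rfl)

/-- A condition is in the filter if and only if an initial segment of the branch is below it. -/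
theorem mem_GG_iff {H : ℕ → ZFSet.{0}} (hH : Br A Ch π H) {p : ZFSet.{0}} (hp : p ∈ P) :
    p ∈ GG L P H ↔ ∃ k ≥ 1, LeR L (seq H k) p := by
  rcases (hF.mem p).1 hp with h1 | ⟨h, k, hv, rfl⟩
  · obtain ⟨i, rfl⟩ := mem_omega_iff.1 h1
    cases i with
    | zero => exact ⟨fun _ => ⟨1, le_rfl, leR_top _⟩, fun _ => top_mem_GG hF hH⟩
    | succ i =>
      rw [vis_mem_GG hF hH]
      constructor
      · intro h2
        exact ⟨i + 1, by omega, (leR_seq_vis (by omega)).2 ⟨by omega, h2⟩⟩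
      · rintro ⟨k, hk, h2⟩
        exact ((leR_seq_vis hk).1 h2).2
  · rw [seq_mem_GG hF hH hv.pos]
    constructor
    · intro h2
      exact ⟨k, hv.pos, (leR_seq_seq hv.pos hv.pos).2 ⟨le_rfl, h2⟩⟩
    · rintro ⟨l, hl, h2⟩
      exact ((leR_seq_seq hl hv.pos).1 h2).2

theorem seq_le_seq {H : ℕ → ZFSet.{0}} {k l : ℕ} (hk : 1 ≤ k) (hkl : k ≤ l) :
    LeR L (seq H l) (seq H k) :=
  (leR_seq_seq (by omega) hk).2 ⟨hkl, fun _ _ => rfl⟩

theorem gen_of_branch {H : ℕ → ZFSet.{0}} (hH : Br A Ch π H)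
    (hm : ∀ E ∈ D, E ⊆ P → (∀ p ∈ P, ∃ q ∈ E, pair q p ∈ LL L P) →
      ∃ k ≥ 1, ∃ q ∈ E, LeR L (seq H k) q) : IsGeneric D P (LL L P) (GG L P H) where
  sub := fun z hz => (ZFSet.mem_sep.1 hz).1
  nonempty := ⟨∅, top_mem_GG hF hH⟩
  up q hq p hp hqp := by
    obtain ⟨k, hk, h1⟩ := (mem_GG_iff hF hH (ZFSet.mem_sep.1 hq).1).1 hq
    exact (mem_GG_iff hF hH hp).2 ⟨k, hk, leR_trans h1 (mem_LL.1 hqp).2.2⟩
  dir p hp q hq := by
    have hpP := (ZFSet.mem_sep.1 hp).1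
    have hqP := (ZFSet.mem_sep.1 hq).1
    obtain ⟨k, hk, h1⟩ := (mem_GG_iff hF hH hpP).1 hp
    obtain ⟨l, hl, h2⟩ := (mem_GG_iff hF hH hqP).1 hq
    have hkl : 1 ≤ max k l := le_trans hk (le_max_left _ _)
    refine ⟨seq H (max k l), (seq_mem_GG hF hH hkl).2 fun _ _ => rfl, ?_, ?_⟩
    · exact mem_LL.2 ⟨seq_mem hF (hH _ hkl), hpP, leR_trans (seq_le_seq hF hk (le_max_left _ _)) h1⟩
    · exact mem_LL.2 ⟨seq_mem hF (hH _ hkl), hqP, leR_trans (seq_le_seq hF hl (le_max_right _ _)) h2⟩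
  meet E hE hEP hd := by
    obtain ⟨k, hk, q, hq, h1⟩ := hm E hE hEP hd
    exact ⟨q, hq, (mem_GG_iff hF hH (hEP hq)).2 ⟨k, hk, h1⟩⟩

/-- A dense definable set is met. -/
theorem meet_def {G : ZFSet.{0}} (hG : IsGeneric D P (LL L P) G) {Q : ZFSet.{0} → Prop}
    (hQ : Dfn K K fun w : Fin 1 → ZFSet.{0} => Q (w 0))
    (h : ∀ p ∈ P, ∃ q ∈ P, LeR L q p ∧ Q q) : ∃ q ∈ G, Q q := by
  obtain ⟨q, hq, hqG⟩ := hG.meet (ZFSet.sep Q P) (hF.sep Q hQ)
    (fun z hz => (ZFSet.mem_sep.1 hz).1) (by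
      intro p hp
      obtain ⟨q, hq, hqp, hQq⟩ := h p hp
      exact ⟨q, ZFSet.mem_sep.2 ⟨hq, hQq⟩, mem_LL.2 ⟨hq, hp, hqp⟩⟩)
  exact ⟨q, hqG, (ZFSet.mem_sep.1 hq).2⟩

/-- The generic filters are given by branches. -/
theorem branch_of_gen {G : ZFSet.{0}} (hG : IsGeneric D P (LL L P) G) :
    ∃ H, Br A Ch π H ∧ G = GG L P H := by
  have hK := hF.zf
  have hB := hK.base
  have hst : DfnF K K fun w : Fin 1 → ZFSet.{0} => st (w 0) := dfn_st hK
  have h1 : ∀ n : ℕ, ∃ h k, Vld A Ch π h k ∧ n ≤ k ∧ seq h k ∈ G := by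
    intro n
    have hn : nat n ∈ K := hK.nat_mem n
    obtain ⟨q, hq, hq1, u, hu, hq2⟩ := meet_def hF hG (Q := fun p => p ∉ ZFSet.omega ∧
      ∃ u ∈ st p, fs u = nat n)
      ((Dfn.mem (DfnF.proj 0) (DfnF.const hK.infinity)).not.and (hB.bex hst
        (Dfn.eq (hK.fs' (DfnF.proj 0)) (DfnF.const hn)))) (by
        intro p hp
        obtain ⟨h, k, hv, hk, h1⟩ := exists_below hF hp (n + 1)
        exact ⟨_, seq_mem hF hv, h1, seq_notMem_omega hv.pos, _,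
          mem_st.2 ⟨n, by omega, rfl⟩, fs_pair _ _⟩)
    rcases (hF.mem q).1 (hG.sub hq) with h2 | ⟨h, k, hv, rfl⟩
    · exact absurd h2 hq1
    · obtain ⟨i, hi, rfl⟩ := mem_st.1 hu
      rw [fs_pair] at hq2
      have h3 := nat_injective hq2
      exact ⟨h, k, hv, by omega, hq⟩
  choose h k hv hk hm using h1
  have hcomp : ∀ {g g' : ℕ → ZFSet.{0}} {l l' : ℕ}, Vld A Ch π g l → Vld A Ch π g' l' →
      seq g l ∈ G → seq g' l' ∈ G → ∀ i, i < l → i < l' → g i = g' i := by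
    intro g g' l l' hg hg' h1 h2 i hi hi'
    obtain ⟨r, hr, h3, h4⟩ := hG.dir _ h1 _ h2
    have h5 := (mem_LL.1 h3).2.2
    rcases (hF.mem r).1 (hG.sub hr) with h6 | ⟨f, j, hf, rfl⟩
    · exact absurd h6 (hidden_of_le h5 (seq_notMem_omega hg.pos))
    · rw [((leR_seq_seq hf.pos hg.pos).1 h5).2 i hi,
        ((leR_seq_seq hf.pos hg'.pos).1 (mem_LL.1 h4).2.2).2 i hi']
  set H : ℕ → ZFSet.{0} := fun i => h (i + 1) i with hH
  have hHeq : ∀ {g : ℕ → ZFSet.{0}} {l : ℕ}, Vld A Ch π g l → seq g l ∈ G →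
      ∀ i < l, H i = g i := by
    intro g l hg h1 i hi
    exact hcomp (hv (i + 1)) hg (hm (i + 1)) h1 i (lt_of_lt_of_le (Nat.lt_succ_self i)
      (hk (i + 1))) hi
  have hBr : Br A Ch π H := by
    intro l hl
    have h2 : Vld A Ch π (h l) l := (hv l).mono hl (hk l)
    exact vld_congr hF.lt h2 fun i hi => hHeq (hv l) (hm l) i (lt_of_lt_of_le hi (hk l))
  have hseq : ∀ l ≥ 1, seq H l ∈ G := by
    intro l hl
    refine hG.up _ (hm l) _ (seq_mem hF (hBr l hl)) (mem_LL.2 ⟨seq_mem hF (hv l),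
      seq_mem hF (hBr l hl), ?_⟩)
    exact (leR_seq_seq (hv l).pos hl).2 ⟨hk l, fun i hi =>
      hHeq (hv l) (hm l) i (lt_of_lt_of_le hi (hk l))⟩
  refine ⟨H, hBr, ?_⟩
  ext p
  constructor
  · intro hp
    have hpP := hG.sub hp
    rcases (hF.mem p).1 hpP with h2 | ⟨g, l, hg, rfl⟩
    · obtain ⟨i, rfl⟩ := mem_omega_iff.1 h2
      cases i with
      | zero => exact top_mem_GG hF hBr
      | succ i =>
        obtain ⟨r, hr, h3, h4⟩ := hG.dir _ hp _ (hseq (i + 1) (by omega))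
        have h5 := (mem_LL.1 h4).2.2
        rcases (hF.mem r).1 (hG.sub hr) with h6 | ⟨f, j, hf, rfl⟩
        · exact absurd h6 (hidden_of_le h5 (seq_notMem_omega (by omega)))
        · obtain ⟨h7, h8, h9⟩ := (leR_seq_vis hf.pos).1 (mem_LL.1 h3).2.2
          rw [vis_mem_GG hF hBr, hHeq hf hr i h7]
          exact ⟨h8, h9⟩
    · exact (seq_mem_GG hF hBr hg.pos).2 fun i hi => (hHeq hg hp i hi).symm
  · intro hp
    have hpP := (ZFSet.mem_sep.1 hp).1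
    obtain ⟨l, hl, h2⟩ := (mem_GG_iff hF hBr hpP).1 hp
    exact hG.up _ (hseq l hl) _ hpP (mem_LL.2 ⟨seq_mem hF (hBr l hl), hpP, h2⟩)

end

end Pool.Agent.R597.Ex
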