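import Pool.Agent.R597.Ex2

/-!
# Class forcings from games: the types of the nodes
-/

set_option autoImplicit false
set_option linter.unreachableTactic false
set_option linter.unusedTactic false
set_option linter.unusedSectionVars false
set_option linter.unusedVariables false

namespace Pool.Agent.R597.Ex

open Pool.Agent.W868 Pool.Agent.W868.GM Pool.Agent.Y588 Pool.Agent.R597
open ZFSet (pair)

/-- The truth of level `m`. -/
def Wt (K : Set ZFSet.{0}) (Ch : ZFSet.{0} → ZFSet.{0} → Prop) (L : ZFSet.{0} → Prop) :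
    ℕ → ZFSet.{0} → Prop
  | 0, y => L y
  | m + 1, y => ∃ y' ∈ K, Ch y y' ∧ ¬ Wt K Ch L m y'

/-- The games. -/
structure Gm (K : Set ZFSet.{0}) (Ch : ZFSet.{0} → ZFSet.{0} → Prop) (L : ZFSet.{0} → Prop) :
    Prop where
  dCh : Dfn K K fun w : Fin 2 → ZFSet.{0} => Ch (w 0) (w 1)
  dL : Dfn K K fun w : Fin 1 → ZFSet.{0} => L (w 0)
  one : ∀ m, ∀ y ∈ K, ∀ b ∈ K, ∃ y' ∈ K, y' ∉ b ∧ Ch y y' ∧ Wt K Ch L m y'
  zero : ∀ m, ∃ y ∈ K, ¬ Wt K Ch L m y

/-- The type of a node. -/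
def Ty (K : Set ZFSet.{0}) (Ch : ZFSet.{0} → ZFSet.{0} → Prop) (L : ZFSet.{0} → Prop)
    (z : ZFSet.{0}) : Prop := ∃ m, fs z = nat m ∧ Wt K Ch L m (sn z)

/-- The type of a node of level at most `N`. -/
def TyN (K : Set ZFSet.{0}) (Ch : ZFSet.{0} → ZFSet.{0} → Prop) (L : ZFSet.{0} → Prop)
    (N : ℕ) (z : ZFSet.{0}) : Prop := ∃ m ≤ N, fs z = nat m ∧ Wt K Ch L m (sn z)

noncomputable def bit (Q : Prop) : ZFSet.{0} := open Classical in if Q then nat 1 else nat 0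

theorem bit_mem (Q : Prop) : bit Q ∈ nat 2 := by
  unfold bit
  split_ifs
  · exact one_two
  · exact zero_two

theorem bit_ne {Q : Prop} : bit Q ≠ ∅ ↔ Q := by
  unfold bit
  split_ifs with h
  · rw [Ne, nat_eq_empty]
    simp [h]
  · simp [h, nat_eq_empty]

theorem bit_eq_of {Q : Prop} {ε : ZFSet.{0}} (hε : ε ∈ nat 2) (h : ε ≠ ∅ ↔ Q) : bit Q = ε := by
  unfold bit
  rcases mem_two.1 hε with rfl | rfl
  · rw [if_neg]
    intro hQ
    exact (h.2 hQ) rfl
  · rw [if_pos]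
    rw [← h, Ne, nat_eq_empty]
    omega

/-- The node with its type. -/
noncomputable def tz (K : Set ZFSet.{0}) (Ch : ZFSet.{0} → ZFSet.{0} → Prop)
    (L : ZFSet.{0} → Prop) (z : ZFSet.{0}) : ZFSet.{0} := pair (fs z) (bit (Ty K Ch L z))

/-- The child relation for the types. -/
def Chv (y y' : ZFSet.{0}) : Prop := y ≠ ∅ ∨ y' ≠ ∅

/-- The label of a type. -/
def Lv (y : ZFSet.{0}) : Prop := y ≠ ∅

section

variable {K : Set ZFSet.{0}} {Ch : ZFSet.{0} → ZFSet.{0} → Prop} {L : ZFSet.{0} → Prop}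

theorem ty_pair {m : ℕ} {y : ZFSet.{0}} : Ty K Ch L (pair (nat m) y) ↔ Wt K Ch L m y := by
  unfold Ty
  rw [fs_pair, sn_pair]
  constructor
  · rintro ⟨l, h1, h2⟩
    rwa [nat_injective h1]
  · exact fun h => ⟨m, rfl, h⟩

theorem tyN_pair {N m : ℕ} (hm : m ≤ N) {y : ZFSet.{0}} :
    TyN K Ch L N (pair (nat m) y) ↔ Wt K Ch L m y := by
  unfold TyN
  rw [fs_pair, sn_pair]
  constructor
  · rintro ⟨l, -, h1, h2⟩
    rwa [nat_injective h1]
  · exact fun h => ⟨m, hm, rfl, h⟩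

theorem tz_pair {m : ℕ} {y : ZFSet.{0}} :
    tz K Ch L (pair (nat m) y) = pair (nat m) (bit (Wt K Ch L m y)) := by
  rw [tz, fs_pair, ty_pair]

theorem chR_pair {C : ZFSet.{0} → ZFSet.{0} → Prop} {m m' : ℕ} {y y' : ZFSet.{0}} :
    ChR C (pair (nat m) y) (pair (nat m') y') ↔ (m = 0 ∧ m' = 0) ∨ (m = m' + 1 ∧ C y y') := by
  unfold ChR
  rw [fs_pair, fs_pair, sn_pair, sn_pair, nat_eq_empty, nat_eq_empty, sc_nat]
  constructor
  · rintro (h | ⟨h1, h2, h3⟩)
    · exact Or.inl h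
    · exact Or.inr ⟨nat_injective h2, h3⟩
  · rintro (h | ⟨rfl, h3⟩)
    · exact Or.inl h
    · refine Or.inr ⟨?_, rfl, h3⟩
      rw [Ne, nat_eq_empty]
      omega

theorem chR_tz {m m' : ℕ} {y y' : ZFSet.{0}} (hy' : y' ∈ K)
    (h : ChR Ch (pair (nat m) y) (pair (nat m') y')) :
    ChR Chv (tz K Ch L (pair (nat m) y)) (tz K Ch L (pair (nat m') y')) := by
  rw [tz_pair, tz_pair, chR_pair]
  rcases chR_pair.1 h with h1 | ⟨rfl, h1⟩
  · exact Or.inl h1
  · refine Or.inr ⟨rfl, ?_⟩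
    unfold Chv
    rw [bit_ne, bit_ne]
    by_cases h2 : Wt K Ch L m' y'
    · exact Or.inr h2
    · exact Or.inl ⟨y', hy', h1, h2⟩

variable {π : ℕ → ℕ}

theorem vld_tz (hπ : ∀ i, 1 ≤ i → π i < i) {h : ℕ → ZFSet.{0}} {k : ℕ}
    (hv : Vld (fun y => y ∈ K) Ch π h k) :
    Vld (fun y => y ∈ nat 2) Chv π (fun i => tz K Ch L (h i)) k where
  pos := hv.pos
  ent i hi := by
    obtain ⟨m, y, hy, h1⟩ := hv.ent i hi
    rw [h1, tz_pair]
    exact ⟨m, _, bit_mem _, rfl⟩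
  ch i hi h1 := by
    obtain ⟨m, y, hy, h2⟩ := hv.ent i hi
    obtain ⟨m', y', hy', h3⟩ := hv.ent (π i) ((hπ i h1).trans hi)
    have h4 := hv.ch i hi h1
    rw [h2, h3] at h4 ⊢
    exact chR_tz hy h4

variable (hG : Gm K Ch L) (hπ : ∀ i, 1 ≤ i → π i < i)

include hG

theorem Gm.exists_ty (hK : K.Nonempty) (m : ℕ) {ε : ZFSet.{0}} (hε : ε ∈ nat 2) :
    ∃ y ∈ K, bit (Wt K Ch L m y) = ε := by
  rcases mem_two.1 hε with rfl | rfl
  · obtain ⟨y, hy, h1⟩ := hG.zero m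
    exact ⟨y, hy, bit_eq_of zero_two ⟨fun h => absurd rfl h, fun h => absurd h h1⟩⟩
  · obtain ⟨y₀, hy₀⟩ := hK
    obtain ⟨y, hy, -, -, h1⟩ := hG.one m y₀ hy₀ y₀ hy₀
    refine ⟨y, hy, bit_eq_of one_two ⟨fun _ => h1, fun _ => ?_⟩⟩
    rw [Ne, nat_eq_empty]
    omega

theorem Gm.exists_child {m : ℕ} {y : ZFSet.{0}} (hy : y ∈ K) {m' : ℕ} {ε : ZFSet.{0}}
    (hε : ε ∈ nat 2) (hc : ChR Chv (tz K Ch L (pair (nat m) y)) (pair (nat m') ε)) :
    ∃ y' ∈ K, ChR Ch (pair (nat m) y) (pair (nat m') y') ∧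
      tz K Ch L (pair (nat m') y') = pair (nat m') ε := by
  rw [tz_pair, chR_pair] at hc
  rcases hc with ⟨rfl, rfl⟩ | ⟨rfl, hc⟩
  · obtain ⟨y', hy', h1⟩ := hG.exists_ty ⟨y, hy⟩ 0 hε
    exact ⟨y', hy', chR_pair.2 (Or.inl ⟨rfl, rfl⟩), by rw [tz_pair, h1]⟩
  · unfold Chv at hc
    rw [bit_ne] at hc
    rcases mem_two.1 hε with rfl | rfl
    · obtain ⟨y', hy', h1, h2⟩ := hc.resolve_right fun h => h rfl
      refine ⟨y', hy', chR_pair.2 (Or.inr ⟨rfl, h1⟩), ?_⟩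
      rw [tz_pair, bit_eq_of zero_two ⟨fun h => absurd rfl h, fun h => absurd h h2⟩]
    · obtain ⟨y', hy', -, h1, h2⟩ := hG.one m' y hy y hy
      refine ⟨y', hy', chR_pair.2 (Or.inr ⟨rfl, h1⟩), ?_⟩
      rw [tz_pair, bit_eq_of one_two ⟨fun _ => h2, fun _ => ?_⟩]
      rw [Ne, nat_eq_empty]
      omega

include hπ

/-- Sequences of types are the types of sequences of nodes. -/
theorem proj {h : ℕ → ZFSet.{0}} {k : ℕ} (hv : Vld (fun y => y ∈ K) Ch π h k)
    {h' : ℕ → ZFSet.{0}} {l : ℕ} (hv' : Vld (fun y => y ∈ nat 2) Chv π h' (k + l))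
    (he : ∀ i < k, tz K Ch L (h i) = h' i) :
    ∃ h'', Vld (fun y => y ∈ K) Ch π h'' (k + l) ∧ (∀ i < k, h'' i = h i) ∧
      ∀ i < k + l, tz K Ch L (h'' i) = h' i := by
  induction l with
  | zero => exact ⟨h, hv, fun _ _ => rfl, he⟩
  | succ l ih =>
    obtain ⟨g, h1, h2, h3⟩ := ih (hv'.mono (by have := hv.pos; omega) (by omega))
    have hkl : 1 ≤ k + l := h1.pos
    have hlt := hπ (k + l) hkl
    obtain ⟨m, y, hy, h4⟩ := h1.ent (π (k + l)) hlt
    obtain ⟨m', ε, hε, h5⟩ := hv'.ent (k + l) (by omega)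
    have h6 := hv'.ch (k + l) (by omega) hkl
    rw [← h3 _ hlt, h4, h5] at h6
    obtain ⟨y', hy', h7, h8⟩ := hG.exists_child hy hε h6
    refine ⟨fun i => if i < k + l then g i else pair (nat m') y', ?_, ?_, ?_⟩
    · refine ⟨by omega, fun i hi => ?_, fun i hi hi1 => ?_⟩
      · by_cases h9 : i < k + l
        · simp only [h9, if_true]
          exact h1.ent i h9
        · simp only [h9, if_false]
          exact ⟨m', y', hy', rfl⟩
      · have h10 := hπ i hi1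
        by_cases h9 : i < k + l
        · simp only [h9, if_true, show π i < k + l by omega]
          exact h1.ch i h9 hi1
        · obtain rfl : i = k + l := by omega
          simp only [h9, if_false, h10, if_true]
          rw [h4]
          exact h7
    · intro i hi
      simp only [show i < k + l by omega, if_true]
      exact h2 i hi
    · intro i hi
      by_cases h9 : i < k + l
      · simp only [h9, if_true]
        exact h3 i h9
      · obtain rfl : i = k + l := by omega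
        simp only [h9, if_false]
        rw [h8, h5]

theorem proj_start (hne : K.Nonempty) {h' : ℕ → ZFSet.{0}} {k : ℕ}
    (hv' : Vld (fun y => y ∈ nat 2) Chv π h' k) :
    ∃ h, Vld (fun y => y ∈ K) Ch π h k ∧ ∀ i < k, tz K Ch L (h i) = h' i := by
  obtain ⟨m, ε, hε, h1⟩ := hv'.ent 0 hv'.pos
  obtain ⟨y, hy, h2⟩ := hG.exists_ty hne m hε
  have hv : Vld (fun y => y ∈ K) Ch π (fun _ => pair (nat m) y) 1 :=
    ⟨le_rfl, fun i _ => ⟨m, y, hy, rfl⟩, fun i hi hi1 => by omega⟩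
  obtain ⟨l, hl⟩ : ∃ l, k = 1 + l := ⟨k - 1, by have := hv'.pos; omega⟩
  subst hl
  obtain ⟨g, h3, h4, h5⟩ := proj hG hπ hv hv' (fun i hi => by
    obtain rfl : i = 0 := by omega
    rw [tz_pair, h2, h1])
  exact ⟨g, h3, h5⟩

omit hG in
/-- The ranks of the nodes are at most the rank of the first one. -/
theorem rk_le {A : ZFSet.{0} → Prop} {C : ZFSet.{0} → ZFSet.{0} → Prop} {h : ℕ → ZFSet.{0}}
    {k N : ℕ} (hv : Vld A C π h k) (hN : fs (h 0) = nat N) :
    ∀ i < k, ∃ m ≤ N, ∃ y, A y ∧ h i = pair (nat m) y := by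
  intro i
  induction i using Nat.strong_induction_on with
  | _ i ih =>
    intro hi
    obtain ⟨m, y, hy, h1⟩ := hv.ent i hi
    by_cases h0 : i = 0
    · subst h0
      rw [h1, fs_pair] at hN
      exact ⟨m, (nat_injective hN).le, y, hy, h1⟩
    · have h2 := hπ i (by omega)
      obtain ⟨m', hm', y', hy', h3⟩ := ih _ h2 (h2.trans hi)
      have h4 := hv.ch i hi (by omega)
      rw [h1, h3, chR_pair] at h4
      exact ⟨m, by omega, y, hy, h1⟩

end

/-! ### Definability of the types of bounded rank -/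

section

variable {K : Set ZFSet.{0}} (hK : IsZF K) {Ch : ZFSet.{0} → ZFSet.{0} → Prop}
  {L : ZFSet.{0} → Prop} (hG : Gm K Ch L)

include hK hG

theorem dfn_Wt (m : ℕ) : Dfn K K fun w : Fin 1 → ZFSet.{0} => Wt K Ch L m (w 0) := by
  induction m with
  | zero => exact hG.dL
  | succ m ih =>
    simp only [Wt]
    apply Dfn.ex
    exact (hG.dCh.comp ![1, 0]).and (ih.comp ![0]).not

theorem dfn_TyN (N : ℕ) : Dfn K K fun w : Fin 1 → ZFSet.{0} => TyN K Ch L N (w 0) := by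
  have h1 : ∀ m : ℕ, Dfn K K fun w : Fin 1 → ZFSet.{0} => fs (w 0) = nat m ∧
      Wt K Ch L m (sn (w 0)) := fun m =>
    (Dfn.eq (hK.fs' (DfnF.proj 0)) (DfnF.const (hK.nat_mem m))).and
      (Dfn.comp1 (Q := Wt K Ch L m) (dfn_Wt hK hG m) (hK.sn' (DfnF.proj 0)))
  induction N with
  | zero =>
    refine (h1 0).congr fun w _ => ?_
    unfold TyN
    constructor
    · exact fun h => ⟨0, le_rfl, h⟩
    · rintro ⟨m, hm, h⟩
      obtain rfl : m = 0 := by omega
      exact h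
  | succ N ih =>
    refine (ih.or (h1 (N + 1))).congr fun w _ => ?_
    unfold TyN
    constructor
    · rintro (⟨m, hm, h⟩ | h)
      · exact ⟨m, by omega, h⟩
      · exact ⟨N + 1, le_rfl, h⟩
    · rintro ⟨m, hm, h⟩
      rcases Nat.lt_or_ge N m with h2 | h2
      · obtain rfl : m = N + 1 := by omega
        exact Or.inr h
      · exact Or.inl ⟨m, h2, h⟩

omit hK hG in
/-- The sequence of the types. -/
noncomputable def tN (K : Set ZFSet.{0}) (Ch : ZFSet.{0} → ZFSet.{0} → Prop)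
    (L : ZFSet.{0} → Prop) (N : ℕ) : ZFSet.{0} → ZFSet.{0} :=
  fold (fun r a => pair r (pair (fs a) (bit (TyN K Ch L N a)))) ∅

theorem dfn_tN (N : ℕ) : DfnF K K fun w : Fin 1 → ZFSet.{0} => tN K Ch L N (w 0) := by
  have hB := hK.base
  refine dfn_fold hK hK.empty_mem ?_
  refine hB.pair' (DfnF.proj 0) (hB.pair' (hK.fs' (DfnF.proj 1)) ?_)
  unfold bit
  exact DfnF.ite ((dfn_TyN hK hG N).comp ![1]) (DfnF.const (hK.nat_mem 1))
    (DfnF.const (hK.nat_mem 0))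

omit hK hG in
theorem tN_seq {π : ℕ → ℕ} (hπ : ∀ i, 1 ≤ i → π i < i) {h : ℕ → ZFSet.{0}} {k N : ℕ}
    {A : ZFSet.{0} → Prop}
    (hv : Vld A Ch π h k) (hN : fs (h 0) = nat N) :
    tN K Ch L N (seq h k) = seq (fun i => tz K Ch L (h i)) k := by
  have h1 := rk_le hπ hv hN
  have h2 : ∀ l ≤ k, tN K Ch L N (seq h l) = seq (fun i => tz K Ch L (h i)) l := by
    intro l
    induction l with
    | zero => exact fun _ => fold_empty _ _
    | succ l ih =>
      intro hl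
      rw [seq, tN, fold_pair, ← tN, ih (by omega), seq]
      obtain ⟨m, hm, y, hy, h3⟩ := h1 l (by omega)
      rw [h3, tz_pair, fs_pair, tyN_pair hm]
  exact h2 k le_rfl

end

end Pool.Agent.R597.Ex
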