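import Pool.Agent.R597.Ex3

/-!
# Class forcings from games: genericity of the types
-/

set_option autoImplicit false
set_option linter.unreachableTactic false
set_option linter.unusedTactic false
set_option linter.unusedSectionVars false
set_option linter.unusedVariables false

namespace Pool.Agent.R597.Ex

open Pool.Agent.W868 Pool.Agent.W868.GM Pool.Agent.Y588 Pool.Agent.R597
open ZFSet (pair)

/-- The class forcing of a game. -/
noncomputable def PG (M d : ZFSet.{0}) (Ch : ZFSet.{0} → ZFSet.{0} → Prop) : ZFSet.{0} :=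
  PP M d (fun _ => True) Ch

/-- The set forcing that adds the types. -/
noncomputable def RR (M d : ZFSet.{0}) : ZFSet.{0} := PP M d (fun y => y ∈ nat 2) Chv

/-- The parent function. -/
structure Par (M d : ZFSet.{0}) (π : ℕ → ℕ) : Prop where
  mem : d ∈ M
  val : ∀ i, ap d (nat i) = nat (π i)
  lt : ∀ i, 1 ≤ i → π i < i
  inf : ∀ j N : ℕ, ∃ i ≥ N, 1 ≤ i ∧ π i = j

theorem dfn_of_defC {M E : ZFSet.{0}} (hE : E ∈ DefC M) :
    Dfn {x | x ∈ M} {x | x ∈ M} fun w : Fin 1 → ZFSet.{0} => w 0 ∈ E := by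
  obtain ⟨-, φ, h1, h2⟩ := mem_DefC.1 hE
  refine ⟨φ, h1, fun v hv => ?_⟩
  rw [vec1 (v := v)]
  exact (h2 _ (hv 0)).symm

section

variable {M d : ZFSet.{0}} (hM : IsZF {x | x ∈ M}) {π : ℕ → ℕ} (hπ : Par M d π)
  {Ch : ZFSet.{0} → ZFSet.{0} → Prop} {L : ZFSet.{0} → Prop} (hG : Gm {x | x ∈ M} Ch L)

include hM

theorem dfn_Chv : Dfn {x | x ∈ M} {x | x ∈ M} fun w : Fin 2 → ZFSet.{0} => Chv (w 0) (w 1) := by
  have h0 : (∅ : ZFSet.{0}) ∈ {x | x ∈ M} := hM.empty_mem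
  exact (Dfn.eq (DfnF.proj 0) (DfnF.const h0)).not.or (Dfn.eq (DfnF.proj 1) (DfnF.const h0)).not

theorem dfn_Lv : Dfn {x | x ∈ M} {x | x ∈ M} fun w : Fin 1 → ZFSet.{0} => Lv (w 0) := by
  have h0 : (∅ : ZFSet.{0}) ∈ {x | x ∈ M} := hM.empty_mem
  exact (Dfn.eq (DfnF.proj 0) (DfnF.const h0)).not

theorem dfn_two : Dfn {x | x ∈ M} {x | x ∈ M} fun w : Fin 1 → ZFSet.{0} => w 0 ∈ nat 2 :=
  Dfn.mem (DfnF.proj 0) (DfnF.const (hM.nat_mem 2))

include hπ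

theorem RR_mem : RR M d ∈ M := by
  have hω := hM.infinity
  have h2 := hM.nat_mem 2
  have hS : Sq (ZFSet.prod ZFSet.omega (nat 2)) ∈ {x | x ∈ M} :=
    Sq_mem hM (hM.prod_mem hω h2)
  have h1 : ZFSet.sep (fun p => p ∈ ZFSet.omega ∨ Hid {x | x ∈ M} d (fun y => y ∈ nat 2) Chv p)
      (ZFSet.omega ∪ Sq (ZFSet.prod ZFSet.omega (nat 2))) ∈ {x | x ∈ M} := by
    refine hM.sep_mem (Q := fun p => p ∈ ZFSet.omega ∨
      Hid {x | x ∈ M} d (fun y => y ∈ nat 2) Chv p) ?_ (hM.union_mem hω hS)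
    exact (Dfn.mem (DfnF.proj 0) (DfnF.const hω)).or (dfn_Hid hM hπ.mem (dfn_two hM) (dfn_Chv hM))
  have h3 : RR M d = ZFSet.sep (fun p => p ∈ ZFSet.omega ∨
      Hid {x | x ∈ M} d (fun y => y ∈ nat 2) Chv p)
      (ZFSet.omega ∪ Sq (ZFSet.prod ZFSet.omega (nat 2))) := by
    ext p
    rw [RR, PP, ZFSet.mem_sep, ZFSet.mem_sep]
    constructor
    · rintro ⟨-, h⟩
      refine ⟨?_, h⟩
      rw [ZFSet.mem_union]
      rcases h with h | h
      · exact Or.inl h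
      · right
        obtain ⟨f, k, hv, rfl⟩ := (hid_iff hM hπ.val hπ.lt).1 h
        refine seq_mem_Sq fun i hi => ?_
        obtain ⟨m, y, hy, h4⟩ := hv.ent i hi
        rw [h4]
        exact ZFSet.pair_mem_prod.2 ⟨nat_mem_omega m, hy.2⟩
    · rintro ⟨h4, h⟩
      refine ⟨?_, h⟩
      rcases ZFSet.mem_union.1 h4 with h5 | h5
      · exact hM.trans _ hω _ h5
      · exact hM.trans _ hS _ h5
  rw [h3]
  exact h1

theorem frg_RR : Frg {x | x ∈ M} {x | x ∈ M} (fun y => y ∈ nat 2) Chv Lv π (RR M d) where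
  zf := hM
  lt := hπ.lt
  mem p := by
    rw [RR, mem_PP hM hπ.val hπ.lt]
    have h2 : (nat 2 : ZFSet.{0}) ∈ {x | x ∈ M} := hM.nat_mem 2
    have h1 : (fun y : ZFSet.{0} => y ∈ M ∧ y ∈ nat 2) = fun y => y ∈ nat 2 := by
      funext y
      exact propext ⟨fun h => h.2, fun h => ⟨hM.trans _ h2 _ h, h⟩⟩
    rw [h1]
  sep Q hQ := hM.sep_mem hQ (RR_mem hM hπ)
  next y hy := ⟨nat 1, one_two, Or.inr (by
    rw [Ne, nat_eq_empty]
    omega)⟩
  one := ⟨nat 1, one_two, by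
    unfold Lv
    rw [Ne, nat_eq_empty]
    omega⟩

include hG

theorem frg_PG : Frg {x | x ∈ M} {D | D ∈ DefC M} (fun y => y ∈ {x | x ∈ M}) Ch L π
    (PG M d Ch) where
  zf := hM
  lt := hπ.lt
  mem p := by
    rw [PG, mem_PP hM hπ.val hπ.lt]
    have h1 : (fun y : ZFSet.{0} => y ∈ M ∧ True) = fun y => y ∈ {x | x ∈ M} := by
      funext y
      exact propext ⟨fun h => h.1, fun h => ⟨h, trivial⟩⟩
    rw [h1]
  sep Q hQ := by
    have hd := dfn_PP hM hπ.mem (A := fun _ => True) Dfn.tt hG.dCh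
    have h1 := defC_of (Q := fun x => x ∈ PP M d (fun _ => True) Ch ∧ Q x) (hd.and hQ)
    have h2 : ZFSet.sep Q (PG M d Ch) = ZFSet.sep (fun x => x ∈ PP M d (fun _ => True) Ch ∧ Q x)
        M := by
      ext z
      rw [ZFSet.mem_sep, ZFSet.mem_sep, PG]
      exact ⟨fun h => ⟨(ZFSet.mem_sep.1 h.1).1, h⟩, fun h => h.2⟩
    show ZFSet.sep Q (PG M d Ch) ∈ DefC M
    rw [h2]
    exact h1
  next y hy := by
    obtain ⟨y', h1, -, h2, -⟩ := hG.one 0 y hy y hy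
    exact ⟨y', h1, h2⟩
  one := by
    have h0 : (∅ : ZFSet.{0}) ∈ {x | x ∈ M} := hM.empty_mem
    obtain ⟨y', h1, -, -, h2⟩ := hG.one 0 ∅ h0 ∅ h0
    exact ⟨y', h1, h2⟩

theorem dfn_PG : Dfn {x | x ∈ M} {x | x ∈ M} fun w : Fin 1 → ZFSet.{0} => w 0 ∈ PG M d Ch :=
  dfn_PP hM hπ.mem (A := fun _ => True) Dfn.tt hG.dCh

/-- The types of a generic branch form a generic branch. -/
theorem gen_down {H : ℕ → ZFSet.{0}} (hH : Br (fun y => y ∈ {x | x ∈ M}) Ch π H)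
    (hgen : IsGeneric {D | D ∈ DefC M} (PG M d Ch) (LL L (PG M d Ch)) (GG L (PG M d Ch) H)) :
    Br (fun y => y ∈ nat 2) Chv π (fun i => tz {x | x ∈ M} Ch L (H i)) ∧
    IsGeneric {x | x ∈ M} (RR M d) (LL Lv (RR M d)) (GG Lv (RR M d)
      fun i => tz {x | x ∈ M} Ch L (H i)) := by
  set K : Set ZFSet.{0} := {x | x ∈ M} with hK
  have hFP := frg_PG hM hπ hG
  have hFR := frg_RR hM hπ
  have hB := hM.base
  have h0 : (∅ : ZFSet.{0}) ∈ K := hM.empty_mem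
  have hBr : Br (fun y => y ∈ nat 2) Chv π (fun i => tz K Ch L (H i)) :=
    fun k hk => vld_tz hπ.lt (hH k hk)
  refine ⟨hBr, gen_of_branch hFR hBr fun E hE hER hdense => ?_⟩
  obtain ⟨N, y₀, hy₀, hN⟩ := (hH 1 le_rfl).ent 0 (by omega)
  have hN' : fs (H 0) = nat N := by rw [hN, fs_pair]
  have hNK : nat N ∈ K := hM.nat_mem N
  obtain ⟨q, hq, h1, h2⟩ := meet_def hFP hgen (Q := fun p => p ∉ ZFSet.omega ∧
    ((¬ ∃ u ∈ st p, fs u = ∅ ∧ fs (sn u) = nat N) ∨ ∃ r ∈ E, LeR Lv (tN K Ch L N p) r)) (by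
      refine (Dfn.mem (DfnF.proj 0) (DfnF.const hM.infinity)).not.and (Dfn.or (Dfn.not ?_) ?_)
      · apply hB.bex (st' hM (DfnF.proj 0))
        exact (Dfn.eq (hM.fs' (DfnF.proj 0)) (DfnF.const h0)).and
          (Dfn.eq (hM.fs' (hM.sn' (DfnF.proj 0))) (DfnF.const hNK))
      · apply hB.bex (DfnF.const hE)
        exact Dfn.comp2 (Q := LeR Lv) (dfn_LeR hM (dfn_Lv hM))
          (DfnF.comp1 (f := tN K Ch L N) (dfn_tN hM hG N) (DfnF.proj 1)) (DfnF.proj 0)) (by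
      intro p hp
      obtain ⟨h, k, hv, -, hle⟩ := exists_below hFP hp 1
      by_cases hr : fs (h 0) = nat N
      · have hv' := vld_tz (L := L) hπ.lt hv
        obtain ⟨r, hrE, hrle⟩ := hdense _ (seq_mem hFR hv')
        have hrle' := (mem_LL.1 hrle).2.2
        rcases (hFR.mem r).1 (hER hrE) with hr1 | ⟨h', k', hv₂, rfl⟩
        · exact absurd hr1 (hidden_of_le hrle' (seq_notMem_omega hv.pos))
        · obtain ⟨h3, h4⟩ := (leR_seq_seq hv₂.pos hv'.pos).1 hrle'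
          obtain ⟨l, rfl⟩ : ∃ l, k' = k + l := ⟨k' - k, by omega⟩
          obtain ⟨h'', h5, h6, h7⟩ := proj hG hπ.lt hv hv₂ h4
          refine ⟨seq h'' (k + l), seq_mem hFP h5, leR_trans ((leR_seq_seq h5.pos hv.pos).2
            ⟨by omega, fun i hi => (h6 i hi).symm⟩) hle, seq_notMem_omega h5.pos,
            Or.inr ⟨_, hrE, ?_⟩⟩
          rw [tN_seq hπ.lt h5 (by rw [h6 0 hv.pos]; exact hr), seq_congr h7]
          exact leR_refl _
      · refine ⟨seq h k, seq_mem hFP hv, hle, seq_notMem_omega hv.pos, Or.inl ?_⟩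
        rintro ⟨u, hu, h3, h4⟩
        obtain ⟨i, hi, rfl⟩ := mem_st.1 hu
        rw [fs_pair, nat_eq_empty] at h3
        subst h3
        rw [sn_pair] at h4
        exact hr h4)
  rcases (mem_GG hFP hH).1 hq with rfl | ⟨i, rfl, -⟩ | ⟨k, hk, rfl⟩
  · exact absurd (nat_mem_omega 0) h1
  · exact absurd (nat_mem_omega _) h1
  · rcases h2 with h2 | ⟨r, hr, h2⟩
    · exact absurd ⟨_, mem_st.2 ⟨0, hk, rfl⟩, by rw [fs_pair]; rfl, by rw [sn_pair]; exact hN'⟩ h2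
    · rw [tN_seq hπ.lt (hH k hk) hN'] at h2
      exact ⟨k, hk, r, hr, h2⟩

/-- The main step of the construction of a generic branch with given types. -/
theorem up_step {H' : ℕ → ZFSet.{0}} (hH' : Br (fun y => y ∈ nat 2) Chv π H')
    (hgen : IsGeneric {x | x ∈ M} (RR M d) (LL Lv (RR M d)) (GG Lv (RR M d) H'))
    {h : ℕ → ZFSet.{0}} {k : ℕ} (hv : Vld (fun y => y ∈ {x | x ∈ M}) Ch π h k)
    (hh : ∀ i < k, tz {x | x ∈ M} Ch L (h i) = H' i) {E : ZFSet.{0}} (hE : E ∈ DefC M)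
    (hEP : E ⊆ PG M d Ch)
    (hdense : ∀ p ∈ PG M d Ch, ∃ q ∈ E, pair q p ∈ LL L (PG M d Ch)) :
    ∃ h₂ k₂, Vld (fun y => y ∈ {x | x ∈ M}) Ch π h₂ k₂ ∧ k ≤ k₂ ∧ (∀ i < k, h₂ i = h i) ∧
      (∀ i < k₂, tz {x | x ∈ M} Ch L (h₂ i) = H' i) ∧ ∃ q ∈ E, LeR L (seq h₂ k₂) q := by
  set K : Set ZFSet.{0} := {x | x ∈ M} with hK
  have hFP := frg_PG hM hπ hG
  have hFR := frg_RR hM hπ
  have hB := hM.base
  have h0 : (∅ : ZFSet.{0}) ∈ K := hM.empty_mem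
  obtain ⟨N, y₀, hy₀, hN⟩ := hv.ent 0 hv.pos
  have hN' : fs (h 0) = nat N := by rw [hN, fs_pair]
  have hsK : ∀ {f : ℕ → ZFSet.{0}} {l : ℕ}, Vld (fun y => y ∈ K) Ch π f l → seq f l ∈ K :=
    fun hf => by
      have h1 := seq_mem hFP hf
      rw [PG, PP, ZFSet.mem_sep] at h1
      exact h1.1
  have hshK : seq h k ∈ K := hsK hv
  have hRK : RR M d ∈ K := RR_mem hM hπ
  have hsHK : seq H' k ∈ K := hM.trans _ hRK _ (seq_mem hFR (hH' k hv.pos))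
  have hdE : Dfn K K fun w : Fin 1 → ZFSet.{0} => w 0 ∈ E := dfn_of_defC hE
  have hlL : ∀ {n : ℕ} {F G : (Fin n → ZFSet.{0}) → ZFSet.{0}}, DfnF K K F →
      DfnF K K G → Dfn K K fun v => LeR L (F v) (G v) :=
    fun hF hG' => Dfn.comp2 (Q := LeR L) (dfn_LeR hM hG.dL) hF hG'
  have hlv : ∀ {n : ℕ} {F G : (Fin n → ZFSet.{0}) → ZFSet.{0}}, DfnF K K F →
      DfnF K K G → Dfn K K fun v => LeR Lv (F v) (G v) :=
    fun hF hG' => Dfn.comp2 (Q := LeR Lv) (dfn_LeR hM (dfn_Lv hM)) hF hG'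
  obtain ⟨r, hr, h1⟩ := meet_def hFR hgen (Q := fun r => (∃ q ∈ K, q ∈ PG M d Ch ∧
    LeR L q (seq h k) ∧ (∃ e ∈ K, e ∈ E ∧ LeR L q e) ∧ r = tN K Ch L N q) ∨
    ¬ ∃ r' ∈ RR M d, LeR Lv r' r ∧ LeR Lv r' (seq H' k)) (by
      refine Dfn.or ?_ (Dfn.not ?_)
      · apply Dfn.ex
        refine ((dfn_PG hM hπ hG).comp ![0]).and (Dfn.and ?_ (Dfn.and ?_ ?_))
        · exact hlL (DfnF.proj 0) (DfnF.const hshK)
        · apply Dfn.ex
          exact (hdE.comp ![0]).and (hlL (DfnF.proj 1) (DfnF.proj 0))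
        · exact Dfn.eq (DfnF.proj 1) (DfnF.comp1 (f := tN K Ch L N) (dfn_tN hM hG N) (DfnF.proj 0))
      · apply hB.bex (DfnF.const hRK)
        exact (hlv (DfnF.proj 0) (DfnF.proj 1)).and (hlv (DfnF.proj 0) (DfnF.const hsHK))) (by
      intro p hp
      by_cases hc : ∃ r' ∈ RR M d, LeR Lv r' p ∧ LeR Lv r' (seq H' k)
      · obtain ⟨r', hr', h2, h3⟩ := hc
        rcases (hFR.mem r').1 hr' with h4 | ⟨g, l, hg, rfl⟩
        · exact absurd h4 (hidden_of_le h3 (seq_notMem_omega hv.pos))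
        · obtain ⟨h5, h6⟩ := (leR_seq_seq hg.pos hv.pos).1 h3
          obtain ⟨j, rfl⟩ : ∃ j, l = k + j := ⟨l - k, by omega⟩
          obtain ⟨h₁, h7, h8, h9⟩ := proj hG hπ.lt hv hg fun i hi => by
            rw [hh i hi, h6 i hi]
          obtain ⟨e, he, hle⟩ := hdense _ (seq_mem hFP h7)
          have hle' := (mem_LL.1 hle).2.2
          rcases (hFP.mem e).1 (hEP he) with h10 | ⟨h₂, l₂, hv₂, rfl⟩
          · exact absurd h10 (hidden_of_le hle' (seq_notMem_omega h7.pos))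
          · obtain ⟨h11, h12⟩ := (leR_seq_seq hv₂.pos h7.pos).1 hle'
            have h13 : tN K Ch L N (seq h₂ l₂) = seq (fun i => tz K Ch L (h₂ i)) l₂ :=
              tN_seq hπ.lt hv₂ (by rw [← h12 0 (by have := hv.pos; omega), h8 0 hv.pos]; exact hN')
            refine ⟨tN K Ch L N (seq h₂ l₂), ?_, ?_, Or.inl ⟨seq h₂ l₂, hsK hv₂,
              seq_mem hFP hv₂, ?_, ⟨seq h₂ l₂, hsK hv₂, he, leR_refl _⟩, rfl⟩⟩
            · rw [h13]
              exact seq_mem hFR (vld_tz hπ.lt hv₂)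
            · refine leR_trans ?_ h2
              rw [h13]
              refine (leR_seq_seq hv₂.pos hg.pos).2 ⟨h11, fun i hi => ?_⟩
              rw [← h12 i hi, h9 i hi]
            · refine leR_trans hle' ((leR_seq_seq h7.pos hv.pos).2 ⟨by omega, fun i hi =>
                (h8 i hi).symm⟩)
      · exact ⟨p, hp, leR_refl _, Or.inr hc⟩)
  have hsG : seq H' k ∈ GG Lv (RR M d) H' := (seq_mem_GG hFR hH' hv.pos).2 fun _ _ => rfl
  rcases h1 with ⟨q, -, hqP, h2, ⟨e, -, he, h3⟩, h4⟩ | h1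
  · rcases (hFP.mem q).1 hqP with h5 | ⟨h₂, k₂, hv₂, rfl⟩
    · exact absurd h5 (hidden_of_le h2 (seq_notMem_omega hv.pos))
    · obtain ⟨h6, h7⟩ := (leR_seq_seq hv₂.pos hv.pos).1 h2
      rw [tN_seq hπ.lt hv₂ (by rw [← h7 0 hv.pos]; exact hN')] at h4
      rw [h4, seq_mem_GG hFR hH' hv₂.pos] at hr
      exact ⟨h₂, k₂, hv₂, h6, fun i hi => (h7 i hi).symm, hr, e, he, h3⟩
  · exfalso
    apply h1
    obtain ⟨r', hr', h2, h3⟩ := hgen.dir _ hr _ hsG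
    exact ⟨r', hgen.sub hr', (mem_LL.1 h2).2.2, (mem_LL.1 h3).2.2⟩

/-- Each generic branch of types is the branch of the types of a generic branch of nodes. -/
theorem gen_up (hc : {x | x ∈ M}.Countable) {H' : ℕ → ZFSet.{0}}
    (hH' : Br (fun y => y ∈ nat 2) Chv π H')
    (hgen : IsGeneric {x | x ∈ M} (RR M d) (LL Lv (RR M d)) (GG Lv (RR M d) H'))
    {h : ℕ → ZFSet.{0}} {k : ℕ} (hv : Vld (fun y => y ∈ {x | x ∈ M}) Ch π h k)
    (hh : ∀ i < k, tz {x | x ∈ M} Ch L (h i) = H' i) :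
    ∃ H, Br (fun y => y ∈ {x | x ∈ M}) Ch π H ∧ (∀ i < k, H i = h i) ∧
      (∀ i, tz {x | x ∈ M} Ch L (H i) = H' i) ∧
      IsGeneric {D | D ∈ DefC M} (PG M d Ch) (LL L (PG M d Ch)) (GG L (PG M d Ch) H) := by
  classical
  have hFP := frg_PG hM hπ hG
  have hFR := frg_RR hM hπ
  obtain ⟨f, hf⟩ := (defC_countable hc).exists_eq_range ⟨_, PP_def hM hπ.mem
    (A := fun _ => True) Dfn.tt hG.dCh⟩
  set St : Type 1 := {x : (ℕ → ZFSet.{0}) × ℕ // Vld (fun y => y ∈ {x | x ∈ M}) Ch π x.1 x.2 ∧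
    ∀ i < x.2, tz {x | x ∈ M} Ch L (x.1 i) = H' i} with hSt
  have step : ∀ (n : ℕ) (x : St), ∃ y : St, x.1.2 < y.1.2 ∧ (∀ i < x.1.2, y.1.1 i = x.1.1 i) ∧
      (f n ⊆ PG M d Ch → (∀ p ∈ PG M d Ch, ∃ q ∈ f n, pair q p ∈ LL L (PG M d Ch)) →
        ∃ q ∈ f n, LeR L (seq y.1.1 y.1.2) q) := by
    rintro n ⟨⟨g, l⟩, hg, hgt⟩
    have hfn : f n ∈ DefC M := by
      have h1 : f n ∈ {D | D ∈ DefC M} := by
        rw [hf]
        exact ⟨n, rfl⟩
      exact h1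
    obtain ⟨g₁, l₁, h1, h2, h3, h4, h5⟩ : ∃ g₁ l₁, Vld (fun y => y ∈ {x | x ∈ M}) Ch π g₁ l₁ ∧
        l ≤ l₁ ∧ (∀ i < l, g₁ i = g i) ∧
        (∀ i < l₁, tz {x | x ∈ M} Ch L (g₁ i) = H' i) ∧
        (f n ⊆ PG M d Ch → (∀ p ∈ PG M d Ch, ∃ q ∈ f n, pair q p ∈ LL L (PG M d Ch)) →
          ∃ q ∈ f n, LeR L (seq g₁ l₁) q) := by
      by_cases hd : f n ⊆ PG M d Ch ∧ ∀ p ∈ PG M d Ch, ∃ q ∈ f n, pair q p ∈ LL L (PG M d Ch)
      · obtain ⟨g₁, l₁, h1, h2, h3, h4, h5⟩ := up_step hM hπ hG hH' hgen hg hgt hfn hd.1 hd.2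
        exact ⟨g₁, l₁, h1, h2, h3, h4, fun _ _ => h5⟩
      · exact ⟨g, l, hg, le_rfl, fun _ _ => rfl, hgt, fun h6 h7 => absurd ⟨h6, h7⟩ hd⟩
    obtain ⟨g₂, h6, h7, h8⟩ := proj hG hπ.lt h1 (l := 1) (hH' (l₁ + 1) (by omega)) h4
    refine ⟨⟨⟨g₂, l₁ + 1⟩, h6, h8⟩, ?_, fun i hi => ?_, fun h9 h10 => ?_⟩
    · show l < l₁ + 1
      omega
    · show g₂ i = g i
      have hi' : i < l := hi
      rw [h7 i (by omega), h3 i hi']
    · obtain ⟨q, hq, h11⟩ := h5 h9 h10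
      exact ⟨q, hq, leR_trans ((leR_seq_seq h6.pos h1.pos).2 ⟨by omega, fun i hi =>
        (h7 i hi).symm⟩) h11⟩
  choose nx hn1 hn2 hn3 using step
  let x : ℕ → St := fun n => Nat.rec ⟨⟨h, k⟩, hv, hh⟩ (fun n y => nx n y) n
  have hx0 : x 0 = ⟨⟨h, k⟩, hv, hh⟩ := rfl
  have hxs : ∀ n, x (n + 1) = nx n (x n) := fun n => rfl
  have hlen : ∀ n, n < (x n).1.2 := by
    intro n
    induction n with
    | zero => exact (x 0).2.1.pos
    | succ n ih =>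
      have := hn1 n (x n)
      rw [hxs]
      omega
  have hmono : ∀ n m, n ≤ m → (x n).1.2 ≤ (x m).1.2 ∧ ∀ i < (x n).1.2,
      (x m).1.1 i = (x n).1.1 i := by
    intro n m hnm
    induction m, hnm using Nat.le_induction with
    | base => exact ⟨le_rfl, fun _ _ => rfl⟩
    | succ m _ ih =>
      have h1 := hn1 m (x m)
      rw [hxs]
      refine ⟨by omega, fun i hi => ?_⟩
      rw [hn2 m (x m) i (by omega), ih.2 i hi]
  set H : ℕ → ZFSet.{0} := fun i => (x i).1.1 i with hH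
  have hHeq : ∀ n, ∀ i < (x n).1.2, H i = (x n).1.1 i := by
    intro n i hi
    rcases le_total n i with h1 | h1
    · exact (hmono n i h1).2 i hi
    · exact ((hmono i n h1).2 i (hlen i)).symm
  have hBr : Br (fun y => y ∈ {x | x ∈ M}) Ch π H := by
    intro l hl
    exact vld_congr hπ.lt ((x l).2.1.mono hl (hlen l).le) fun i hi =>
      hHeq l i (hi.trans (hlen l))
  refine ⟨H, hBr, fun i hi => hHeq 0 i hi, fun i => ?_, gen_of_branch hFP hBr ?_⟩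
  · rw [hHeq i i (hlen i)]
    exact (x i).2.2 i (hlen i)
  · intro E hE hEP hdense
    rw [hf] at hE
    obtain ⟨n, rfl⟩ := hE
    obtain ⟨q, hq, h1⟩ := hn3 n (x n) hEP hdense
    refine ⟨(x (n + 1)).1.2, (x (n + 1)).2.1.pos, q, hq, ?_⟩
    rw [seq_congr (hHeq (n + 1)), hxs]
    exact h1

end

end Pool.Agent.R597.Ex
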