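import Pool.Agent.Y588.SDefs
import Pool.Agent.R597.CGame

/-!
# Strongly proper forcing in a transitive model: the definitions

`Pool.Agent.Y588.HM M θ` is the class `H(θ)` of the model `M`: the sets in `M` whose transitive
closure has in `M` size less than `θ`.
-/

set_option autoImplicit false

namespace Pool.Agent.R597

open Pool.Agent.W868 Pool.Agent.W868.GM Pool.Agent.Y588
open ZFSet (pair)

/-- In the model `M`, `θ` is an uncountable regular cardinal: an ordinal larger than `ω` such that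
all functions in `M` from smaller ordinals to `θ` are bounded. -/
def IsRegular (M : Set ZFSet.{0}) (θ : ZFSet.{0}) : Prop :=
  θ ∈ M ∧ θ.IsOrdinal ∧ ZFSet.omega ∈ θ ∧
    ∀ β ∈ θ, ∀ f ∈ M, ZFSet.IsFunc β θ f → ∃ γ ∈ θ, ∀ x y, pair x y ∈ f → y ∈ γ

/-- `f` is a function that assigns to each finite sequence of elements of `H` an element
of `H`. -/
def IsOp (H f : ZFSet.{0}) : Prop :=
  ∀ (g : ℕ → ZFSet.{0}) (n : ℕ), (∀ k < n, g k ∈ H) →
    ∃ y ∈ H, ∀ z, pair (seq g n) z ∈ f ↔ z = y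

/-- The set `N` is closed under the function `f` on finite sequences. -/
def ClosedUnder (N f : ZFSet.{0}) : Prop :=
  ∀ (g : ℕ → ZFSet.{0}) (n : ℕ), (∀ k < n, g k ∈ N) → ∀ z, pair (seq g n) z ∈ f → z ∈ N

/-- The structure `(N, ∈)` is an elementary substructure of `(H, ∈)`. -/
def IsElem (N H : ZFSet.{0}) : Prop :=
  N ⊆ H ∧ ∀ (n : ℕ) (φ : Fml Empty n) (v : Fin n → ZFSet.{0}), (∀ i, v i ∈ N) →
    (Sat {x | x ∈ N} Empty.elim φ v ↔ Sat {x | x ∈ H} Empty.elim φ v)

/-- The condition `q` is strongly `(N, P)`-generic: every `r ≤ q` has some `r' ∈ N ∩ P` such that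
every `s ≤ r'` in `N ∩ P` is compatible with `r`. -/
def IsStrGeneric (P Le N q : ZFSet.{0}) : Prop :=
  ∀ r ∈ P, pair r q ∈ Le → ∃ r' ∈ P, r' ∈ N ∧ ∀ s ∈ P, s ∈ N → pair s r' ∈ Le →
    ∃ t ∈ P, pair t s ∈ Le ∧ pair t r ∈ Le

/-- `P` is strongly proper for `N`: every condition in `N` has a strongly `(N, P)`-generic
extension. -/
def StrProperFor (P Le N : ZFSet.{0}) : Prop :=
  ∀ p ∈ P, p ∈ N → ∃ q ∈ P, pair q p ∈ Le ∧ IsStrGeneric P Le N q

/-- In the model `M`, the notion of forcing `P` is strongly proper for stationarily many models: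
for all large enough regular cardinals `θ`, the set of the countable elementary submodels `N` of
`H(θ)` that contain `P` and for which `P` is strongly proper is stationary, that is, for each
function `f` on the finite sequences of elements of `H(θ)` there is such an `N` that is closed
under `f`. -/
def StrProper (M : Set ZFSet.{0}) (P Le : ZFSet.{0}) : Prop :=
  ∃ θ₀ ∈ M, ∀ θ, IsRegular M θ → θ₀ ∈ θ → ∀ H ∈ M, (∀ z, z ∈ H ↔ z ∈ HM M θ) →
    ∀ f ∈ M, IsOp H f → ∃ N ∈ M, (∃ g ∈ M, IsInj N ZFSet.omega g) ∧ IsElem N H ∧ P ∈ N ∧ Le ∈ N ∧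
      ClosedUnder N f ∧ StrProperFor P Le N

end Pool.Agent.R597
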