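import Pool.Agent.R597.LS
import Pool.Agent.R597.Cmp
import Pool.Agent.R597.SPDefs

/-!
# Cohen forcing is strongly proper for stationarily many models
-/

set_option autoImplicit false
set_option linter.unreachableTactic false
set_option linter.unusedTactic false
set_option linter.unusedSectionVars false

namespace Pool.Agent.R597

open Pool.Agent.W868 Pool.Agent.W868.GM Pool.Agent.Y588
open ZFSet (pair)

theorem Vh_mono {M : Set ZFSet.{0}} {z z' : ZFSet.{0}} (h : z ⊆ z') : Vh M z ⊆ Vh M z' := by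
  intro x hx
  obtain ⟨u, hu, h1⟩ := mem_Vh.1 hx
  exact mem_Vh.2 ⟨u, h hu, h1⟩

theorem Vh_trans {M : Set ZFSet.{0}} {ξ : ZFSet.{0}} (hξ : ξ.IsOrdinal) :
    ∀ x ∈ Vh M ξ, ∀ y ∈ x, y ∈ Vh M ξ := by
  intro x hx y hy
  obtain ⟨u, hu, -, h1⟩ := mem_Vh.1 hx
  exact Vh_mono (hξ.subset_of_mem hu) (h1 hy)

/-- Every element of a model is an element of a transitive set in the model. -/
theorem exists_trans {M : Set ZFSet.{0}} (hM : IsZF M) {x : ZFSet.{0}} (hx : x ∈ M) :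
    ∃ T ∈ M, (∀ y ∈ T, ∀ z ∈ y, z ∈ T) ∧ x ∈ T :=
  ⟨Vh M (sc (rk x)), Vh_mem hM (hM.sc_mem (rk_mem hM hx)), Vh_trans (isOrdinal_sc
    (isOrdinal_rk x)), mem_Vh_of_rk hM _ hx (ZFSet.mem_insert _ _)⟩

/-- Cohen forcing is strongly proper for stationarily many models. -/
theorem strProper_Pc {M : Set ZFSet.{0}} (hM : IsZFC M) : StrProper M Pc Lc := by
  have hZ := hM.toIsZF
  have hB := hZ.base
  have hω := hZ.infinity
  have hP := Pc_mem hZ
  have hL := Lc_mem hZ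
  obtain ⟨T, hT, hTt, hPT⟩ := exists_trans hZ (hZ.pair_mem hP hL)
  obtain ⟨α, hα, -, i, hi, hii⟩ := exists_wo hM hT
  have h1 : ({Pc, Lc} : ZFSet.{0}) ∈ T := hTt _ hPT _ (by simp [pair])
  have hPT' : Pc ∈ T := hTt _ h1 _ (by simp)
  have hLT' : Lc ∈ T := hTt _ h1 _ (by simp)
  refine ⟨α, hα, ?_⟩
  intro θ _ hαθ H hH hHm f hf hop
  have hTH : ∀ y ∈ T, y ∈ H := fun y hy => (hHm y).2
    ⟨hZ.trans _ hT _ hy, T, hT, hTt, fun z hz => hTt y hy z hz, α, hαθ, i, hi, hii⟩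
  have hPH : Pc ∈ H := hTH _ hPT'
  have hLH : Lc ∈ H := hTH _ hLT'
  have hPsub : ∀ p ∈ Pc, p ∈ H := fun p hp => hTH _ (hTt _ hPT' _ hp)
  -- an enumeration of the conditions
  obtain ⟨d, hd, hd'⟩ := exists_enum_inf hZ hP (Pc_countable hZ)
  have h0M := hZ.nat_mem 0
  have h1M := hZ.nat_mem 1
  classical
  set k : ZFSet.{0} → ZFSet.{0} := fun z => if z = nat 0 then Pc else if z = nat 1 then Lc else
    if ap d z ∈ Pc then ap d z else Pc with hk
  have hkd : DfnF M M fun w : Fin 1 → ZFSet.{0} => k (w 0) := by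
    have h2 : DfnF M M fun w : Fin 1 → ZFSet.{0} => ap d (w 0) :=
      hZ.ap' (DfnF.const hd) (DfnF.proj 0)
    have h3 := DfnF.ite (Dfn.eq (DfnF.proj (0 : Fin 1)) (DfnF.const h0M)) (DfnF.const hP)
      (DfnF.ite (Dfn.eq (DfnF.proj (0 : Fin 1)) (DfnF.const h1M)) (DfnF.const hL)
        (DfnF.ite (Dfn.mem h2 (DfnF.const hP)) h2 (DfnF.const hP)))
    refine h3.congr fun w _ => ?_
    simp only [hk]
  set e : ZFSet.{0} := im (fun z => pair z (k z)) ZFSet.omega with he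
  have heM : e ∈ M := hZ.im_mem hω (hB.pair' (DfnF.proj 0) hkd)
  have hap : ∀ n : ℕ, ap e (nat n) = k (nat n) := by
    intro n
    refine ap_unique (mem_im.2 ⟨_, nat_mem_omega n, rfl⟩) ?_
    intro q hq h2
    obtain ⟨z, -, rfl⟩ := mem_im.1 hq
    rw [fs_pair] at h2
    rw [sn_pair, h2]
  have hkH : ∀ n : ℕ, k (nat n) ∈ H := by
    intro n
    simp only [hk]
    split_ifs with c1 c2 c3
    · exact hPH
    · exact hLH
    · exact hPsub _ c3
    · exact hPH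
  -- the function
  set f' : ZFSet.{0} := ZFSet.sep (fun p => p ∈ f) (ZFSet.prod (Sq H) H) with hf'
  have hf'M : f' ∈ M := hZ.sep_mem (Q := fun p => p ∈ f) (Dfn.mem (DfnF.proj 0) (DfnF.const hf))
    (hZ.prod_mem (Sq_mem hZ hH) hH)
  have hf'f : ZFSet.IsFunc (Sq H) H f' := by
    refine ⟨fun p hp => (ZFSet.mem_sep.1 hp).1, fun t ht => ?_⟩
    obtain ⟨g, n, hg, rfl⟩ := exists_seq ht
    obtain ⟨y, hy, h2⟩ := hop g n hg
    refine ⟨y, ZFSet.mem_sep.2 ⟨ZFSet.pair_mem_prod.2 ⟨ht, hy⟩, (h2 y).2 rfl⟩, fun z hz => ?_⟩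
    exact (h2 z).1 (ZFSet.mem_sep.1 hz).2
  obtain ⟨N, hN, hNH, ⟨g, hg, hgi⟩, hNe, hNf, hNs⟩ := exists_csub hM hH heM hf'M (fun n => by
    rw [hap]; exact hkH n) (fun t ht => by
      obtain ⟨b, hb, h2⟩ := fun_exists hf'f ht
      rw [ap_func hf'f h2]
      exact hb)
  have hPN : Pc ∈ N := by
    have h2 := hNe 0
    rw [hap] at h2
    simpa [hk] using h2
  have hLN : Lc ∈ N := by
    have h2 := hNe 1
    rw [hap] at h2
    have h3 : nat 1 ≠ nat 0 := fun h => by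
      have := nat_injective h
      omega
    simpa [hk, h3] using h2
  have hsub : ∀ p ∈ Pc, p ∈ N := by
    intro p hp
    obtain ⟨n, hn, h2⟩ := hd' p hp 2
    have h3 := hNe n
    rw [hap] at h3
    have h4 : nat n ≠ nat 0 := fun h => by
      have := nat_injective h
      omega
    have h5 : nat n ≠ nat 1 := fun h => by
      have := nat_injective h
      omega
    simp only [hk, h4, h5, if_false, h2, hp, if_true] at h3
    exact h3
  refine ⟨N, hN, ⟨g, hg, hgi⟩, ⟨hNH, fun n φ v hv => hNs φ v hv⟩, hPN, hLN, ?_, ?_⟩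
  · intro g' n hg' z hz
    have ht : seq g' n ∈ Sq N := seq_mem_Sq hg'
    have ht' : seq g' n ∈ Sq H := seq_mem_Sq fun k hk => hNH (hg' k hk)
    obtain ⟨y, hy, h2⟩ := hop g' n fun k hk => hNH (hg' k hk)
    have h3 : z = y := (h2 z).1 hz
    have h4 : pair (seq g' n) z ∈ f' :=
      ZFSet.mem_sep.2 ⟨ZFSet.pair_mem_prod.2 ⟨ht', h3 ▸ hy⟩, hz⟩
    rw [← ap_func hf'f h4]
    exact hNf _ ht
  · intro p hp _
    refine ⟨p, hp, (forcing_Pc hZ).refl p hp, fun r hr _ => ⟨r, hr, hsub r hr, fun s hs _ hsr =>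
      ⟨s, hs, (forcing_Pc hZ).refl s hs, hsr⟩⟩⟩

/-- Cohen forcing and the Cantor space of the ground model. -/
theorem cohen_facts {M : Set ZFSet.{0}} (hM : IsZFC M) : IsForcing M Pc Lc ∧ StrProper M Pc Lc ∧
    IsTop M (fnX M (nat 2)) (Tc M) ∧ (M.Countable → ∃ G, IsGeneric M Pc Lc G) := by
  have hF := forcing_Pc hM.toIsZF
  refine ⟨hF, strProper_Pc hM, isTop_Tc hM.toIsZF, fun hc => ?_⟩
  obtain ⟨G, hG, -⟩ := exists_gen hc hF (p₀ := ∅) empty_mem_Sq
  exact ⟨G, hG⟩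

end Pool.Agent.R597
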