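import Pool.Agent.R597.Ex4
import Pool.Agent.R597.SP

/-!
# Class forcings from games: names
-/

set_option autoImplicit false
set_option linter.unreachableTactic false
set_option linter.unusedTactic false
set_option linter.unusedSectionVars false
set_option linter.unusedVariables false

namespace Pool.Agent.R597.Ex

open Pool.Agent.W868 Pool.Agent.W868.GM Pool.Agent.Y588 Pool.Agent.R597
open ZFSet (pair)

/-! ### Removing the hidden conditions from a name -/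

noncomputable def prd (z : ZFSet.{0}) : ZFSet.{0} := im (fun y => pair (fs z) y) (dm (sn z))

theorem prd_wf : WellFounded fun u z : ZFSet.{0} => u ∈ prd z :=
  Subrelation.wf (fun {u z} h => by
    obtain ⟨y, hy, rfl⟩ := mem_im.1 h
    show (sn (pair (fs z) y)).rank < (sn z).rank
    rw [sn_pair]
    exact rank_dm_lt hy) (InvImage.wf (fun q : ZFSet.{0} => (sn q).rank) Ordinal.lt_wf)

/-- The name without hidden conditions that has the same value as the name `σ` for filters that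
contain `p`, as a function of the pair of `p` and `σ`. -/
noncomputable def prn : ZFSet.{0} → ZFSet.{0} :=
  wfF prd prd_wf fun z g => im (fun e => pair (ap g (pair (fs z) (fs e)))
    (open Classical in if sn e ∈ ZFSet.omega then sn e else ∅))
    (ZFSet.sep (fun e => sn e ∈ ZFSet.omega ∨ st (sn e) ⊆ st (fs z)) (sn z))

theorem prn_eq (z : ZFSet.{0}) : prn z = im (fun e => pair (ap (gr prn (prd z))
    (pair (fs z) (fs e))) (open Classical in if sn e ∈ ZFSet.omega then sn e else ∅))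
    (ZFSet.sep (fun e => sn e ∈ ZFSet.omega ∨ st (sn e) ⊆ st (fs z)) (sn z)) := wfF_eq _ _ _ _

theorem dfn_prn {K : Set ZFSet.{0}} (hK : IsZF K) :
    DfnF K K fun w : Fin 1 → ZFSet.{0} => prn (w 0) := by
  have hB := hK.base
  have hst := dfn_st hK
  have h0 := hK.empty_mem
  have hω := hK.infinity
  have hs : ∀ {n : ℕ} {F : (Fin n → ZFSet.{0}) → ZFSet.{0}}, DfnF K K F →
      DfnF K K fun v => st (F v) := fun hF => DfnF.comp1 (f := st) hst hF
  refine hK.wfrec prd_wf ?_ (G := fun z g => im (fun e => pair (ap g (pair (fs z) (fs e)))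
    (open Classical in if sn e ∈ ZFSet.omega then sn e else ∅))
    (ZFSet.sep (fun e => sn e ∈ ZFSet.omega ∨ st (sn e) ⊆ st (fs z)) (sn z))) ?_ prn_eq
  · refine hK.im' (h := fun y w => pair (fs (w 0)) y) (dm' hK (hK.sn' (DfnF.proj 0))) ?_
    exact hB.pair' (hK.fs' (DfnF.proj 1)) (DfnF.proj 0)
  · refine hK.im' (h := fun e w => pair (ap (w 1) (pair (fs (w 0)) (fs e)))
      (open Classical in if sn e ∈ ZFSet.omega then sn e else ∅))
      (hK.sep' (Q := fun e w => sn e ∈ ZFSet.omega ∨ st (sn e) ⊆ st (fs (w 0)))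
        (hK.sn' (DfnF.proj 0)) ?_) ?_
    · exact (Dfn.mem (hK.sn' (DfnF.proj 0)) (DfnF.const hω)).or
        (hB.subset' (hs (hK.sn' (DfnF.proj 0))) (hs (hK.fs' (DfnF.proj 1))))
    · refine hB.pair' (hK.ap' (DfnF.proj 2) (hB.pair' (hK.fs' (DfnF.proj 1))
        (hK.fs' (DfnF.proj 0)))) ?_
      exact DfnF.ite (Dfn.mem (hK.sn' (DfnF.proj 0)) (DfnF.const hω)) (hK.sn' (DfnF.proj 0))
        (DfnF.const h0)

theorem prn' {K : Set ZFSet.{0}} (hK : IsZF K) {n : ℕ} {F G : (Fin n → ZFSet.{0}) → ZFSet.{0}}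
    (hF : DfnF K K F) (hG : DfnF K K G) : DfnF K K fun v => prn (pair (F v) (G v)) :=
  DfnF.comp1 (f := prn) (dfn_prn hK) (hK.base.pair' hF hG)

theorem prn_mem {K : Set ZFSet.{0}} (hK : IsZF K) {p σ : ZFSet.{0}} (hp : p ∈ K) (hσ : σ ∈ K) :
    prn (pair p σ) ∈ K := (dfn_prn hK).1 (fun _ => pair p σ) fun _ => hK.pair_mem hp hσ

theorem mem_prn {P p σ x : ZFSet.{0}} (hσ : IsName P σ) : x ∈ prn (pair p σ) ↔
    ∃ τ r, pair τ r ∈ σ ∧ ((r ∈ ZFSet.omega ∧ x = pair (prn (pair p τ)) r) ∨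
      (r ∉ ZFSet.omega ∧ st r ⊆ st p ∧ x = pair (prn (pair p τ)) ∅)) := by
  have hap : ∀ τ r, pair τ r ∈ σ → ap (gr prn (prd (pair p σ))) (pair p τ) =
      prn (pair p τ) := by
    intro τ r h
    rw [ap_gr]
    refine mem_im.2 ⟨τ, ?_, ?_⟩
    · rw [sn_pair]
      exact mem_dm h
    · rw [fs_pair]
  rw [prn_eq, mem_im]
  constructor
  · rintro ⟨e, he, rfl⟩
    obtain ⟨h1, h2⟩ := ZFSet.mem_sep.1 he
    rw [sn_pair] at h1
    rw [fs_pair] at h2
    obtain ⟨τ, -, r, hr, rfl, hτ⟩ := isName_iff.1 hσ e h1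
    rw [sn_pair] at h2
    refine ⟨τ, r, h1, ?_⟩
    rw [fs_pair, fs_pair, sn_pair, hap τ r h1]
    by_cases h3 : r ∈ (ZFSet.omega : ZFSet.{0})
    · rw [if_pos h3]
      exact Or.inl ⟨h3, rfl⟩
    · rw [if_neg h3]
      exact Or.inr ⟨h3, h2.resolve_left h3, rfl⟩
  · rintro ⟨τ, r, h1, h2⟩
    refine ⟨pair τ r, ZFSet.mem_sep.2 ⟨by rwa [sn_pair], ?_⟩, ?_⟩
    · rw [sn_pair, fs_pair]
      rcases h2 with ⟨h2, -⟩ | ⟨-, h2, -⟩
      · exact Or.inl h2
      · exact Or.inr h2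
    · rw [fs_pair, fs_pair, sn_pair, hap τ r h1]
      rcases h2 with ⟨h2, h3⟩ | ⟨h2, -, h3⟩
      · rw [if_pos h2, h3]
      · rw [if_neg h2, h3]

theorem isName_prn {P p σ : ZFSet.{0}} (hσ : IsName P σ) :
    IsName ZFSet.omega (prn (pair p σ)) := by
  induction σ using dm_ind with
  | _ σ ih =>
    have h1 : ∀ τ r, pair τ r ∈ σ → IsName P τ := by
      intro τ r h
      obtain ⟨τ', -, r', -, h2, h3⟩ := isName_iff.1 hσ _ h
      rw [(ZFSet.pair_inj.1 h2).1]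
      exact h3
    refine isName_iff.2 fun z hz => ?_
    obtain ⟨τ, r, h2, h3⟩ := (mem_prn hσ).1 hz
    have h4 := ih τ (mem_dm h2) (h1 τ r h2)
    rcases h3 with ⟨h5, rfl⟩ | ⟨-, -, rfl⟩
    · exact ⟨_, mem_dm hz, r, h5, rfl, h4⟩
    · exact ⟨_, mem_dm hz, ∅, nat_mem_omega 0, rfl, h4⟩

theorem isName_mono {P Q σ : ZFSet.{0}} (h : P ⊆ Q) (hσ : IsName P σ) : IsName Q σ := by
  induction σ using dm_ind with
  | _ σ ih =>
    refine isName_iff.2 fun z hz => ?_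
    obtain ⟨τ, h1, r, h2, h3, h4⟩ := isName_iff.1 hσ z hz
    exact ⟨τ, h1, r, h h2, h3, ih τ h1 h4⟩

/-- The value of a name depends only on the conditions that appear in it. -/
theorem ev_congr {P G G' σ : ZFSet.{0}} (hσ : IsName P σ) (h : ∀ p ∈ P, p ∈ G ↔ p ∈ G') :
    ev G σ = ev G' σ := by
  induction σ using dm_ind with
  | _ σ ih =>
    have h1 : ∀ τ r, pair τ r ∈ σ → r ∈ P ∧ IsName P τ := by
      intro τ r h
      obtain ⟨τ', -, r', hr', h2, h3⟩ := isName_iff.1 hσ _ h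
      obtain ⟨h4, h5⟩ := ZFSet.pair_inj.1 h2
      rw [h4, h5]
      exact ⟨hr', h3⟩
    ext z
    rw [mem_ev, mem_ev]
    constructor
    · rintro ⟨τ, r, h2, h3, rfl⟩
      exact ⟨τ, r, h2, (h r (h1 τ r h2).1).1 h3, (ih τ (mem_dm h2) (h1 τ r h2).2).symm⟩
    · rintro ⟨τ, r, h2, h3, rfl⟩
      exact ⟨τ, r, h2, (h r (h1 τ r h2).1).2 h3, ih τ (mem_dm h2) (h1 τ r h2).2⟩

theorem of_pair_mem_trans {b x y : ZFSet.{0}} (hb : ∀ z ∈ b, ∀ u ∈ z, u ∈ b)
    (h : pair x y ∈ b) : x ∈ b ∧ y ∈ b := by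
  have h1 : ({x, y} : ZFSet.{0}) ∈ b := hb _ h _ (by simp [pair])
  exact ⟨hb _ h1 _ (by simp), hb _ h1 _ (by simp)⟩

theorem seq_mem_trans {b : ZFSet.{0}} (hb : ∀ z ∈ b, ∀ u ∈ z, u ∈ b) {H : ℕ → ZFSet.{0}}
    {l : ℕ} (h : seq H l ∈ b) : ∀ k ≤ l, seq H k ∈ b := by
  induction l with
  | zero =>
    intro k hk
    obtain rfl : k = 0 := by omega
    exact h
  | succ l ih =>
    intro k hk
    by_cases h1 : k = l + 1
    · rw [h1]
      exact h
    · exact ih (of_pair_mem_trans hb (show pair (seq H l) (H l) ∈ b from h)).1 k (by omega)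

section

variable {K D : Set ZFSet.{0}} {A : ZFSet.{0} → Prop} {Ch : ZFSet.{0} → ZFSet.{0} → Prop}
  {L : ZFSet.{0} → Prop} {π : ℕ → ℕ} {P : ZFSet.{0}} (hF : Frg K D A Ch L π P)

include hF

theorem ev_prn {H : ℕ → ZFSet.{0}} (hH : Br A Ch π H) {k : ℕ} (hk : 1 ≤ k) {b : ZFSet.{0}}
    (hb : ∀ z ∈ b, ∀ u ∈ z, u ∈ b) (hkb : seq H k ∉ b) {σ : ZFSet.{0}} (hσ : IsName P σ)
    (hσb : σ ∈ b) : ev (GG L P H) (prn (pair (seq H k) σ)) = ev (GG L P H) σ := by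
  induction σ using dm_ind with
  | _ σ ih =>
    have h1 : ∀ τ r, pair τ r ∈ σ → r ∈ P ∧ IsName P τ ∧ τ ∈ b ∧ r ∈ b := by
      intro τ r h
      obtain ⟨τ', -, r', hr', h2, h3⟩ := isName_iff.1 hσ _ h
      obtain ⟨h4, h5⟩ := ZFSet.pair_inj.1 h2
      have h6 := of_pair_mem_trans hb (hb _ hσb _ h)
      rw [h4, h5] at h6 ⊢
      exact ⟨hr', h3, h6⟩
    have hev : ∀ τ r, pair τ r ∈ σ → ev (GG L P H) (prn (pair (seq H k) τ)) =
        ev (GG L P H) τ := fun τ r h => ih τ (mem_dm h) (h1 τ r h).2.1 (h1 τ r h).2.2.1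
    ext z
    rw [mem_ev, mem_ev]
    constructor
    · rintro ⟨y, c, h2, h3, rfl⟩
      obtain ⟨τ, r, h4, h5⟩ := (mem_prn hσ).1 h2
      rcases h5 with ⟨h5, h6⟩ | ⟨h5, h6, h7⟩
      · obtain ⟨rfl, rfl⟩ := ZFSet.pair_inj.1 h6
        exact ⟨τ, c, h4, h3, (hev τ c h4).symm⟩
      · obtain ⟨rfl, rfl⟩ := ZFSet.pair_inj.1 h7
        refine ⟨τ, r, h4, ?_, (hev τ r h4).symm⟩
        rcases (hF.mem r).1 (h1 τ r h4).1 with h8 | ⟨h, l, hv, rfl⟩
        · exact absurd h8 h5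
        · exact (seq_mem_GG hF hH hv.pos).2 (st_sub.1 h6).2
    · rintro ⟨τ, r, h4, h3, rfl⟩
      by_cases h5 : r ∈ (ZFSet.omega : ZFSet.{0})
      · exact ⟨_, r, (mem_prn hσ).2 ⟨τ, r, h4, Or.inl ⟨h5, rfl⟩⟩, h3, hev τ r h4⟩
      · refine ⟨_, ∅, (mem_prn hσ).2 ⟨τ, r, h4, Or.inr ⟨h5, ?_, rfl⟩⟩, top_mem_GG hF hH,
          hev τ r h4⟩
        rcases (mem_GG hF hH).1 h3 with rfl | ⟨i, rfl, -⟩ | ⟨l, hl, rfl⟩
        · exact absurd (nat_mem_omega 0) h5
        · exact absurd (nat_mem_omega _) h5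
        · refine st_sub.2 ⟨?_, fun _ _ => rfl⟩
          by_contra hc
          exact hkb (seq_mem_trans hb (h1 τ _ h4).2.2.2 k (by omega))

end

section

variable {M d : ZFSet.{0}} (hM : IsZF {x | x ∈ M}) {π : ℕ → ℕ} (hπ : Par M d π)
  {Ch : ZFSet.{0} → ZFSet.{0} → Prop} {L : ZFSet.{0} → Prop} (hG : Gm {x | x ∈ M} Ch L)

include hM hπ hG

/-- The elements of a generic branch are not in a given set. -/
theorem exists_notMem {H : ℕ → ZFSet.{0}} (hH : Br (fun y => y ∈ {x | x ∈ M}) Ch π H)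
    (hgen : IsGeneric {D | D ∈ DefC M} (PG M d Ch) (LL L (PG M d Ch)) (GG L (PG M d Ch) H))
    {b : ZFSet.{0}} (hbM : b ∈ M) (hb : ∀ z ∈ b, ∀ u ∈ z, u ∈ b) :
    ∃ k₀, ∀ k ≥ k₀, seq H k ∉ b := by
  set K : Set ZFSet.{0} := {x | x ∈ M} with hK
  have hFP := frg_PG hM hπ hG
  have hB := hM.base
  have h0 : (∅ : ZFSet.{0}) ∈ K := hM.empty_mem
  have hbK : b ∈ K := hbM
  obtain ⟨q, hq, h1, u, hu, h2⟩ := meet_def hFP hgen (Q := fun p => p ∉ ZFSet.omega ∧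
    ∃ u ∈ st p, sn u ∉ b) (by
      refine (Dfn.mem (DfnF.proj 0) (DfnF.const hM.infinity)).not.and ?_
      apply hB.bex (st' hM (DfnF.proj 0))
      exact (Dfn.mem (hM.sn' (DfnF.proj 0)) (DfnF.const hbK)).not) (by
      intro p hp
      obtain ⟨h, k, hv, -, hle⟩ := exists_below hFP hp 1
      obtain ⟨m, y, hy, h1⟩ := hv.ent (π k) (hπ.lt k hv.pos)
      obtain ⟨z, hz, hc, hzb⟩ : ∃ z, (∃ (m : ℕ) (y : ZFSet.{0}), y ∈ K ∧ z = pair (nat m) y) ∧
          ChR Ch (h (π k)) z ∧ z ∉ b := by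
        cases m with
        | zero =>
          obtain ⟨y', hy', h2, h3, h4⟩ := hG.one 0 y hy b hbK
          refine ⟨pair (nat 0) y', ⟨0, y', hy', rfl⟩, ?_, fun h5 =>
            h2 (of_pair_mem_trans hb h5).2⟩
          rw [h1, chR_pair]
          exact Or.inl ⟨rfl, rfl⟩
        | succ m =>
          obtain ⟨y', hy', h2, h3, h4⟩ := hG.one m y hy b hbK
          refine ⟨pair (nat m) y', ⟨m, y', hy', rfl⟩, ?_, fun h5 =>
            h2 (of_pair_mem_trans hb h5).2⟩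
          rw [h1, chR_pair]
          exact Or.inr ⟨rfl, h3⟩
      have hv' := vld_one hFP hv hz hc
      refine ⟨_, seq_mem hFP hv', leR_trans ((leR_seq_seq hv'.pos hv.pos).2 ⟨by omega,
        fun i hi => by simp [hi]⟩) hle, seq_notMem_omega hv'.pos, _,
        mem_st.2 ⟨k, by omega, rfl⟩, ?_⟩
      rw [sn_pair]
      simpa using hzb)
  rcases (mem_GG hFP hH).1 hq with rfl | ⟨i, rfl, -⟩ | ⟨k, hk, rfl⟩
  · exact absurd (nat_mem_omega 0) h1
  · exact absurd (nat_mem_omega _) h1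
  · obtain ⟨i, hi, rfl⟩ := mem_st.1 hu
    rw [sn_pair] at h2
    refine ⟨k, fun l hl hc => h2 ?_⟩
    have h3 := seq_mem_trans hb hc (i + 1) (by omega)
    exact (of_pair_mem_trans hb (show pair (seq H i) (H i) ∈ b from h3)).2

/-- The filters of a branch and of its types contain the same visible conditions. -/
theorem vis_iff {H : ℕ → ZFSet.{0}} (hH : Br (fun y => y ∈ {x | x ∈ M}) Ch π H)
    {p : ZFSet.{0}} (hp : p ∈ (ZFSet.omega : ZFSet.{0})) :
    p ∈ GG L (PG M d Ch) H ↔ p ∈ GG Lv (RR M d) fun i => tz {x | x ∈ M} Ch L (H i) := by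
  have hFP := frg_PG hM hπ hG
  have hFR := frg_RR hM hπ
  have hBr : Br (fun y => y ∈ nat 2) Chv π (fun i => tz {x | x ∈ M} Ch L (H i)) :=
    fun k hk => vld_tz hπ.lt (hH k hk)
  obtain ⟨i, rfl⟩ := mem_omega_iff.1 hp
  cases i with
  | zero => exact ⟨fun _ => top_mem_GG hFR hBr, fun _ => top_mem_GG hFP hH⟩
  | succ i =>
    rw [vis_mem_GG hFP hH, vis_mem_GG hFR hBr]
    obtain ⟨m, y, hy, h1⟩ := (hH (i + 1) (by omega)).ent i (by omega)
    rw [h1, tz_pair, fs_pair, fs_pair, sn_pair, sn_pair, Lv, bit_ne]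
    refine and_congr_right fun h2 => ?_
    rw [nat_eq_empty] at h2
    subst h2
    exact Iff.rfl

/-- The extension is given by the types. -/
theorem mext_eq {H : ℕ → ZFSet.{0}} (hH : Br (fun y => y ∈ {x | x ∈ M}) Ch π H)
    (hgen : IsGeneric {D | D ∈ DefC M} (PG M d Ch) (LL L (PG M d Ch)) (GG L (PG M d Ch) H)) :
    Mext M (PG M d Ch) (GG L (PG M d Ch) H) = Mext M ZFSet.omega
      (GG Lv (RR M d) fun i => tz {x | x ∈ M} Ch L (H i)) := by
  have hFP := frg_PG hM hπ hG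
  have hωP : (ZFSet.omega : ZFSet.{0}) ⊆ PG M d Ch := fun z hz => om_mem hFP hz
  ext x
  constructor
  · rintro ⟨σ, hσ, hn, rfl⟩
    obtain ⟨b, hbM, hb, hσb⟩ := exists_trans hM hσ
    obtain ⟨k₀, hk₀⟩ := exists_notMem hM hπ hG hH hgen hbM hb
    have hk : 1 ≤ max k₀ 1 := le_max_right _ _
    have h1 := ev_prn hFP hH hk hb (hk₀ _ (le_max_left _ _)) hn hσb
    refine ⟨prn (pair (seq H (max k₀ 1)) σ), ?_, isName_prn hn, ?_⟩
    · have h2 := seq_mem hFP (hH _ hk)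
      rw [PG, PP, ZFSet.mem_sep] at h2
      exact prn_mem hM h2.1 hσ
    · rw [← h1]
      exact ev_congr (isName_prn hn) fun p hp => vis_iff hM hπ hG hH hp
  · rintro ⟨σ, hσ, hn, rfl⟩
    exact ⟨σ, hσ, isName_mono hωP hn, (ev_congr hn fun p hp => vis_iff hM hπ hG hH hp).symm⟩

/-- The generic extensions do not depend on the game. -/
theorem mext_set (hc : {x | x ∈ M}.Countable) :
    {V | ∃ G, IsGen (DefC M) (PG M d Ch) (LL L (PG M d Ch)) G ∧ V = Mext M (PG M d Ch) G} =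
    {V | ∃ H', Br (fun y => y ∈ nat 2) Chv π H' ∧
      IsGeneric {x | x ∈ M} (RR M d) (LL Lv (RR M d)) (GG Lv (RR M d) H') ∧
      V = Mext M ZFSet.omega (GG Lv (RR M d) H')} := by
  have hFP := frg_PG hM hπ hG
  ext V
  constructor
  · rintro ⟨G, hgen, rfl⟩
    obtain ⟨H, hH, rfl⟩ := branch_of_gen hFP hgen
    obtain ⟨h1, h2⟩ := gen_down hM hπ hG hH hgen
    exact ⟨_, h1, h2, mext_eq hM hπ hG hH hgen⟩
  · rintro ⟨H', hH', hgen', rfl⟩
    obtain ⟨h, hv, hh⟩ := proj_start hG hπ.lt ⟨∅, hM.empty_mem⟩ (hH' 1 le_rfl)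
    obtain ⟨H, h1, -, h3, h4⟩ := gen_up hM hπ hG hc hH' hgen' hv hh
    refine ⟨_, h4, ?_⟩
    rw [mext_eq hM hπ hG h1 h4]
    have h5 : (fun i => tz {x | x ∈ M} Ch L (H i)) = H' := funext h3
    rw [h5]

end

end Pool.Agent.R597.Ex
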