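import Pool.Agent.R597.Ex5
import Pool.Agent.R597.Ex7

/-!
# The forcing theorem for the forcing of the trivial game
-/

set_option autoImplicit false
set_option linter.unreachableTactic false
set_option linter.unusedTactic false
set_option linter.unusedSectionVars false
set_option linter.unusedVariables false

namespace Pool.Agent.R597.Ex

open Pool.Agent.W868 Pool.Agent.W868.GM Pool.Agent.Y588 Pool.Agent.R597
open ZFSet (pair)

/-! ### The trivial game -/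

theorem wt_triv {K : Set ZFSet.{0}} (h0 : ∅ ∈ K) (m : ℕ) (y : ZFSet.{0}) :
    Wt K Chv Lv m y ↔ y ≠ ∅ := by
  induction m generalizing y with
  | zero => exact Iff.rfl
  | succ m ih =>
    simp only [Wt, ih]
    constructor
    · rintro ⟨y', -, h1, h2⟩
      exact h1.resolve_right h2
    · intro h1
      exact ⟨∅, h0, Or.inl h1, fun h2 => h2 rfl⟩

theorem sc_notMem (b : ZFSet.{0}) : sc b ∉ b := fun h =>
  ZFSet.mem_asymm h (ZFSet.mem_insert _ _)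

theorem gm_triv {M : ZFSet.{0}} (hM : IsZF {x | x ∈ M}) : Gm {x | x ∈ M} Chv Lv where
  dCh := dfn_Chv hM
  dL := dfn_Lv hM
  one m y hy b hb := by
    have h1 : sc b ≠ ∅ := fun h => ZFSet.notMem_empty b (h ▸ ZFSet.mem_insert _ _)
    exact ⟨sc b, hM.sc_mem hb, sc_notMem b, Or.inr h1, (wt_triv hM.empty_mem m _).2 h1⟩
  zero m := ⟨∅, hM.empty_mem, fun h => (wt_triv hM.empty_mem m _).1 h rfl⟩

/-- The sequence of the types. -/
noncomputable def tv : ZFSet.{0} → ZFSet.{0} :=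
  fold (fun r a => pair r (pair (fs a) (bit (sn a ≠ ∅)))) ∅

theorem dfn_tv {K : Set ZFSet.{0}} (hK : IsZF K) :
    DfnF K K fun w : Fin 1 → ZFSet.{0} => tv (w 0) := by
  have hB := hK.base
  refine dfn_fold hK hK.empty_mem ?_
  refine hB.pair' (DfnF.proj 0) (hB.pair' (hK.fs' (DfnF.proj 1)) ?_)
  unfold bit
  exact DfnF.ite (Dfn.eq (hK.sn' (DfnF.proj 1)) (DfnF.const hK.empty_mem)).not
    (DfnF.const (hK.nat_mem 1)) (DfnF.const (hK.nat_mem 0))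

theorem tv_seq {K : Set ZFSet.{0}} (h0 : ∅ ∈ K) {A : ZFSet.{0} → Prop}
    {Ch : ZFSet.{0} → ZFSet.{0} → Prop} {π : ℕ → ℕ}
    {h : ℕ → ZFSet.{0}} {k : ℕ} (hv : Vld A Ch π h k) :
    tv (seq h k) = seq (fun i => tz K Chv Lv (h i)) k := by
  have h2 : ∀ l ≤ k, tv (seq h l) = seq (fun i => tz K Chv Lv (h i)) l := by
    intro l
    induction l with
    | zero => exact fun _ => fold_empty _ _
    | succ l ih =>
      intro hl
      rw [seq, tv, fold_pair, ← tv, ih (by omega), seq]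
      obtain ⟨m, y, hy, h3⟩ := hv.ent l (by omega)
      have h4 : (Wt K Chv Lv m y) = (y ≠ ∅) := propext (wt_triv h0 m y)
      rw [h3, tz_pair, fs_pair, sn_pair, h4]
  exact h2 k le_rfl

section

variable {M d : ZFSet.{0}} (hM : IsZF {x | x ∈ M}) {π : ℕ → ℕ} (hπ : Par M d π)

include hM hπ

theorem LR_mem : LL Lv (RR M d) ∈ {x | x ∈ M} := by
  have hR : RR M d ∈ {x | x ∈ M} := RR_mem hM hπ
  refine hM.sep_mem (Q := fun u => LeR Lv (fs u) (sn u)) ?_ (hM.prod_mem hR hR)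
  exact Dfn.comp2 (Q := LeR Lv) (dfn_LeR hM (dfn_Lv hM)) (hM.fs' (DfnF.proj 0))
    (hM.sn' (DfnF.proj 0))

theorem forcing_RR : IsForcing {x | x ∈ M} (RR M d) (LL Lv (RR M d)) where
  mem := RR_mem hM hπ
  le_mem := LR_mem hM hπ
  refl p hp := mem_LL.2 ⟨hp, hp, leR_refl p⟩
  trans p hp q hq r hr h1 h2 := mem_LL.2 ⟨hr, hp, leR_trans (mem_LL.1 h1).2.2 (mem_LL.1 h2).2.2⟩
  top := ⟨∅, om_mem (frg_RR hM hπ) (nat_mem_omega 0), fun p hp => mem_LL.2 ⟨hp,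
    om_mem (frg_RR hM hπ) (nat_mem_omega 0), leR_top p⟩⟩

/-- The forcing of a game is a class forcing. -/
theorem cf_PG {Ch : ZFSet.{0} → ZFSet.{0} → Prop} {L : ZFSet.{0} → Prop}
    (hG : Gm {x | x ∈ M} Ch L) (hc : {x | x ∈ M}.Countable) :
    CF M (PG M d Ch) (LL L (PG M d Ch)) where
  zf := hM
  ctbl := hc
  cf := classForcing_of (frg_PG hM hπ hG).mem (PP_def hM hπ.mem (A := fun _ => True) Dfn.tt hG.dCh)
    (LL_def hM hπ.mem (A := fun _ => True) Dfn.tt hG.dCh hG.dL)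
  top := ⟨∅, om_mem (frg_PG hM hπ hG) (nat_mem_omega 0), fun p hp => mem_LL.2 ⟨hp,
    om_mem (frg_PG hM hπ hG) (nat_mem_omega 0), leR_top p⟩⟩

/-- Equality is forced if it is true in all the extensions. -/
theorem qeq_of {x y r : ZFSet.{0}} (hc : {x | x ∈ M}.Countable) (hx : x ∈ M) (hy : y ∈ M)
    (hr : r ∈ RR M d) (h : ∀ G, IsGeneric {x | x ∈ M} (RR M d) (LL Lv (RR M d)) G → r ∈ G →
      ev G x = ev G y) : Qeq (RR M d) (LL Lv (RR M d)) x y r := by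
  have h1 := frc_iff (forcing_RR hM hπ) hM hc (.eq (.inl 0) (.inl 1) : Fml ZFSet.{0} 2)
    ⟨TOver.inl _, TOver.inl _⟩ (v := ![x, y]) (fun i => by
      refine Fin.cases ?_ (fun i => ?_) i
      · exact hx
      · rw [Fin.eq_zero i]
        exact hy) hr
  exact h1.1 h

/-- The value of a name in terms of the types. -/
theorem ev_types {Ch : ZFSet.{0} → ZFSet.{0} → Prop} {L : ZFSet.{0} → Prop}
    (hG : Gm {x | x ∈ M} Ch L) {H : ℕ → ZFSet.{0}}
    (hH : Br (fun y => y ∈ {x | x ∈ M}) Ch π H) {k : ℕ} (hk : 1 ≤ k) {b : ZFSet.{0}}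
    (hb : ∀ z ∈ b, ∀ u ∈ z, u ∈ b) (hkb : seq H k ∉ b) {σ : ZFSet.{0}}
    (hσ : IsName (PG M d Ch) σ) (hσb : σ ∈ b) :
    ev (GG L (PG M d Ch) H) σ = ev (GG Lv (RR M d) fun i => tz {x | x ∈ M} Ch L (H i))
      (prn (pair (seq H k) σ)) := by
  rw [← ev_prn (frg_PG hM hπ hG) hH hk hb hkb hσ hσb]
  exact ev_congr (isName_prn hσ) fun p hp => vis_iff hM hπ hG hH hp

theorem seq_PG_mem {Ch : ZFSet.{0} → ZFSet.{0} → Prop} {L : ZFSet.{0} → Prop}
    (hG : Gm {x | x ∈ M} Ch L) {H : ℕ → ZFSet.{0}} {k : ℕ}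
    (hv : Vld (fun y => y ∈ {x | x ∈ M}) Ch π H k) : seq H k ∈ {x | x ∈ M} := by
  have h2 := seq_mem (frg_PG hM hπ hG) hv
  rw [PG, PP, ZFSet.mem_sep] at h2
  exact h2.1

/-- The forcing theorem for equality. -/
theorem good_triv (hc : {x | x ∈ M}.Countable) :
    Good M (PG M d Chv) (LL Lv (PG M d Chv)) 2 fun v G => ev G (v 0) = ev G (v 1) := by
  have hG := gm_triv hM
  set K : Set ZFSet.{0} := {x | x ∈ M} with hK
  set P := PG M d Chv with hP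
  have hFP : Frg K {D | D ∈ DefC M} (fun y => y ∈ K) Chv Lv π P := frg_PG hM hπ hG
  have hFR := frg_RR hM hπ
  have hB := hM.base
  have h0 : (∅ : ZFSet.{0}) ∈ K := hM.empty_mem
  have h := cf_PG hM hπ hG hc
  have key : ∀ σ τ : ZFSet.{0}, σ ∈ M → τ ∈ M → IsName P σ → IsName P τ → ∀ p ∈ P,
      (Fo M P (LL Lv P) (fun G => ev G σ = ev G τ) p ↔ ∀ q ∈ K, (q ∈ P ∧ LeR Lv q p ∧
        q ∉ ZFSet.omega ∧ ∃ b ∈ K, (∀ z ∈ b, ∀ u ∈ z, u ∈ b) ∧ σ ∈ b ∧ τ ∈ b ∧ q ∉ b) →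
        Qeq (RR M d) (LL Lv (RR M d)) (prn (pair q σ)) (prn (pair q τ)) (tv q)) := by
    intro σ τ hσ hτ hnσ hnτ p hp
    constructor
    · rintro h1 q hqK ⟨hqP, hqp, hqω, b, hbK, hb, hσb, hτb, hqb⟩
      rcases (hFP.mem q).1 hqP with h2 | ⟨f, k, hv, rfl⟩
      · exact absurd h2 hqω
      · rw [tv_seq h0 hv]
        refine qeq_of hM hπ hc (prn_mem hM hqK hσ) (prn_mem hM hqK hτ)
          (seq_mem hFR (vld_tz hπ.lt hv)) fun G' hG' hr => ?_
        obtain ⟨H', hH', rfl⟩ := branch_of_gen hFR hG'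
        rw [seq_mem_GG hFR hH' hv.pos] at hr
        obtain ⟨H, hH, h3, h4, h5⟩ := gen_up hM hπ hG hc hH' hG' hv hr
        have h6 : seq f k = seq H k := seq_congr fun i hi => (h3 i hi).symm
        have h7 : (fun i => tz K Chv Lv (H i)) = H' := funext h4
        have h8 : seq f k ∈ GG Lv P H := (seq_mem_GG hFP hH hv.pos).2 fun i hi => (h3 i hi).symm
        have h9 := h1 _ h5 (h5.up _ h8 p hp (mem_LL.2 ⟨hqP, hp, hqp⟩))
        have h10 := ev_types hM hπ hG hH hv.pos hb (h6 ▸ hqb) hnσ hσb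
        have h11 := ev_types hM hπ hG hH hv.pos hb (h6 ▸ hqb) hnτ hτb
        rw [← h6, h7] at h10 h11
        rw [← h10, ← h11]
        exact h9
    · intro h1 G hGen hpG
      obtain ⟨H, hH, rfl⟩ := branch_of_gen hFP hGen
      obtain ⟨b, hbM, hb, hστb⟩ := exists_trans hM (hM.pair_mem hσ hτ)
      obtain ⟨hσb, hτb⟩ := of_pair_mem_trans hb hστb
      obtain ⟨k₀, hk₀⟩ := exists_notMem hM hπ hG hH hGen hbM hb
      obtain ⟨k₁, hk₁, h2⟩ := (mem_GG_iff hFP hH hp).1 hpG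
      set k := max k₀ k₁ with hk
      have hk1 : 1 ≤ k := hk₁.trans (le_max_right _ _)
      have hv := hH k hk1
      have hkb := hk₀ k (le_max_left _ _)
      have h3 := h1 (seq H k) (seq_PG_mem hM hπ hG hv) ⟨seq_mem hFP hv,
        leR_trans (seq_le_seq hFP hk₁ (le_max_right _ _)) h2, seq_notMem_omega hk1, b, hbM, hb,
        hσb, hτb, hkb⟩
      rw [tv_seq h0 hv] at h3
      obtain ⟨hBr, hgen⟩ := gen_down hM hπ hG hH hGen
      rw [ev_types hM hπ hG hH hk1 hb hkb hnσ hσb, ev_types hM hπ hG hH hk1 hb hkb hnτ hτb]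
      exact (ev_eq_iff hM (forcing_RR hM hπ) hgen (prn_mem hM (seq_PG_mem hM hπ hG hv) hσ)
        (prn_mem hM (seq_PG_mem hM hπ hG hv) hτ)).2 ⟨_, (seq_mem_GG hFR hBr hk1).2
        (fun _ _ => rfl), h3⟩
  constructor
  · have hP' : ∀ {n : ℕ} (i : Fin n), Dfn K K fun w : Fin n → ZFSet.{0} => w i ∈ P :=
      fun i => (h.dP).comp fun _ => i
    have hRK : RR M d ∈ K := RR_mem hM hπ
    have h1 : Dfn K K fun w : Fin 3 → ZFSet.{0} => (∀ i : Fin 2, IsName P (w i.succ)) ∧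
        w 0 ∈ P ∧ ∀ q ∈ K, (q ∈ P ∧ LeR Lv q (w 0) ∧
        q ∉ ZFSet.omega ∧ ∃ b ∈ K, (∀ z ∈ b, ∀ u ∈ z, u ∈ b) ∧ w 1 ∈ b ∧ w 2 ∈ b ∧ q ∉ b) →
        Qeq (RR M d) (LL Lv (RR M d)) (prn (pair q (w 1))) (prn (pair q (w 2))) (tv q) := by
      refine (h.dNs 2).and ((hP' 0).and ?_)
      apply Dfn.all
      refine Dfn.imp ((hP' 0).and (Dfn.and ?_ (Dfn.and ?_ ?_))) ?_
      · exact Dfn.comp2 (Q := LeR Lv) (dfn_LeR hM (dfn_Lv hM)) (DfnF.proj 0) (DfnF.proj 1)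
      · exact (Dfn.mem (DfnF.proj 0) (DfnF.const hM.infinity)).not
      · apply Dfn.ex
        refine Dfn.and ?_ (Dfn.and ?_ (Dfn.and ?_ ?_))
        · apply hB.ball (DfnF.proj 0)
          apply hB.ball (DfnF.proj 0)
          exact Dfn.mem (DfnF.proj 0) (DfnF.proj 2)
        · exact Dfn.mem (DfnF.proj 3) (DfnF.proj 0)
        · exact Dfn.mem (DfnF.proj 4) (DfnF.proj 0)
        · exact (Dfn.mem (DfnF.proj 1) (DfnF.proj 0)).not
      · exact dfn_qeq hM hRK (LR_mem hM hπ) (prn' hM (DfnF.proj 0) (DfnF.proj 2))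
          (prn' hM (DfnF.proj 0) (DfnF.proj 3)) (DfnF.comp1 (f := tv) (dfn_tv hM) (DfnF.proj 0))
    refine h1.congr fun w hw => and_congr_right fun h2 => and_congr_right fun h3 => ?_
    exact (key (w 1) (w 2) (hw 1) (hw 2) (h2 0) (h2 1) (w 0) h3).symm
  · intro v hv G hGen hev
    obtain ⟨hσ, hnσ⟩ := hv 0
    obtain ⟨hτ, hnτ⟩ := hv 1
    obtain ⟨H, hH, rfl⟩ := branch_of_gen hFP hGen
    obtain ⟨b, hbM, hb, hστb⟩ := exists_trans hM (hM.pair_mem hσ hτ)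
    obtain ⟨hσb, hτb⟩ := of_pair_mem_trans hb hστb
    obtain ⟨k₀, hk₀⟩ := exists_notMem hM hπ hG hH hGen hbM hb
    set k := max k₀ 1 with hk
    have hk1 : 1 ≤ k := le_max_right _ _
    have hvk := hH k hk1
    have hkb := hk₀ k (le_max_left _ _)
    have hqK := seq_PG_mem hM hπ hG hvk
    obtain ⟨hBr, hgen⟩ := gen_down hM hπ hG hH hGen
    rw [ev_types hM hπ hG hH hk1 hb hkb hnσ hσb, ev_types hM hπ hG hH hk1 hb hkb hnτ hτb] at hev
    obtain ⟨r, hr, h1⟩ := (ev_eq_iff hM (forcing_RR hM hπ) hgen (prn_mem hM hqK hσ)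
      (prn_mem hM hqK hτ)).1 hev
    obtain ⟨l, hl, h2⟩ := (mem_GG_iff hFR hBr (hgen.sub hr)).1 hr
    set l' := max l k with hl'
    have hl1 : 1 ≤ l' := hl.trans (le_max_left _ _)
    have h3 : Qeq (RR M d) (LL Lv (RR M d)) (prn (pair (seq H k) (v 0)))
        (prn (pair (seq H k) (v 1))) (seq (fun i => tz K Chv Lv (H i)) l') :=
      h1.mono (forcing_RR hM hπ) (seq_mem hFR (hBr l' hl1)) (mem_LL.2 ⟨seq_mem hFR (hBr l' hl1),
        hgen.sub hr, leR_trans (seq_le_seq hFR hl (le_max_left _ _)) h2⟩)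
    refine ⟨seq H l', (seq_mem_GG hFP hH hl1).2 fun _ _ => rfl, fun G₁ hGen₁ hp₁ => ?_⟩
    obtain ⟨H₁, hH₁, rfl⟩ := branch_of_gen hFP hGen₁
    rw [seq_mem_GG hFP hH₁ hl1] at hp₁
    have h4 : seq H k = seq H₁ k := seq_congr fun i hi => hp₁ i (by omega)
    obtain ⟨hBr₁, hgen₁⟩ := gen_down hM hπ hG hH₁ hGen₁
    have hkb₁ : seq H₁ k ∉ b := h4 ▸ hkb
    show ev (GG Lv P H₁) (v 0) = ev (GG Lv P H₁) (v 1)
    rw [ev_types hM hπ hG hH₁ hk1 hb hkb₁ hnσ hσb, ev_types hM hπ hG hH₁ hk1 hb hkb₁ hnτ hτb]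
    rw [← h4]
    refine (ev_eq_iff hM (forcing_RR hM hπ) hgen₁ (prn_mem hM hqK hσ)
      (prn_mem hM hqK hτ)).2 ⟨_, (seq_mem_GG hFR hBr₁ hl1).2 fun i hi => ?_, h3⟩
    rw [hp₁ i hi]

/-- The forcing of the trivial game satisfies the forcing theorem. -/
theorem forcingThm_triv (hc : {x | x ∈ M}.Countable) :
    ForcingThm M (DefC M) (PG M d Chv) (LL Lv (PG M d Chv)) :=
  forcingThm_of_eq (cf_PG hM hπ (gm_triv hM) hc) (good_triv hM hπ hc)

end

end Pool.Agent.R597.Ex
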