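import Pool.Agent.R597.Ex8

/-!
# The game of the formulas
-/

set_option autoImplicit false
set_option linter.unreachableTactic false
set_option linter.unusedTactic false
set_option linter.unusedSectionVars false
set_option linter.unusedVariables false

namespace Pool.Agent.R597.Ex

open Pool.Agent.W868 Pool.Agent.W868.GM Pool.Agent.Y588 Pool.Agent.R597
open ZFSet (pair)

/-! ### The parent function -/

theorem exists_par {M : ZFSet.{0}} (hM : IsZF {x | x ∈ M}) : ∃ d π, Par M d π := by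
  classical
  have hB := hM.base
  have hω := hM.infinity
  have h0 := hM.empty_mem
  obtain ⟨d₀, hd₀, h1⟩ := exists_enum_inf hM hω (Inj.of_subset hM hω hω fun _ h => h)
  set F : ZFSet.{0} → ZFSet.{0} := fun i => if ap d₀ i ∈ i then ap d₀ i else ∅ with hF
  have hFd : DfnF {x | x ∈ M} {x | x ∈ M} fun w : Fin 1 → ZFSet.{0} => pair (w 0) (F (w 0)) := by
    refine hB.pair' (DfnF.proj 0) ?_
    have h2 : DfnF {x | x ∈ M} {x | x ∈ M} fun w : Fin 1 → ZFSet.{0} => ap d₀ (w 0) :=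
      hM.ap' (DfnF.const hd₀) (DfnF.proj 0)
    exact DfnF.ite (Dfn.mem h2 (DfnF.proj 0)) h2 (DfnF.const h0)
  have hap : ∀ i : ℕ, ap (im (fun i => pair i (F i)) ZFSet.omega) (nat i) = F (nat i) := by
    intro i
    refine ap_unique (mem_im.2 ⟨nat i, nat_mem_omega i, rfl⟩) ?_
    intro q hq h2
    obtain ⟨j, -, rfl⟩ := mem_im.1 hq
    rw [fs_pair] at h2
    rw [h2, sn_pair]
  have h3 : ∀ i : ℕ, ∃ j : ℕ, F (nat i) = nat j ∧ (1 ≤ i → j < i) := by
    intro i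
    by_cases h4 : ap d₀ (nat i) ∈ nat i
    · obtain ⟨j, hj, h5⟩ := mem_nat_iff'.1 h4
      refine ⟨j, ?_, fun _ => hj⟩
      rw [hF]
      simp only [h4, if_true]
      exact h5
    · refine ⟨0, ?_, fun h => h⟩
      rw [hF]
      simp only [h4, if_false]
      rfl
  choose π hπ1 hπ2 using h3
  refine ⟨im (fun i => pair i (F i)) ZFSet.omega, π, hM.im_mem hω hFd, fun i => ?_, hπ2,
    fun j N => ?_⟩
  · rw [hap, hπ1]
  · obtain ⟨n, hn, h4⟩ := h1 (nat j) (nat_mem_omega j) (max N (j + 1))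
    have h5 : j < n := by omega
    have h6 : ap d₀ (nat n) ∈ nat n := by
      rw [h4]
      exact nat_mem_nat.2 h5
    refine ⟨n, by omega, by omega, ?_⟩
    have h7 := hπ1 n
    rw [hF] at h7
    simp only [h6, if_true] at h7
    rw [h4] at h7
    exact (nat_injective h7).symm

/-! ### The game -/

/-- The set is a pair. -/
def IsPr (y : ZFSet.{0}) : Prop := y = pair (fs y) (sn y)

theorem isPr_pair (a b : ZFSet.{0}) : IsPr (pair a b) := by rw [IsPr, fs_pair, sn_pair]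

theorem not_isPr_empty : ¬ IsPr ∅ := fun h => pair_ne_empty _ _ h.symm

theorem not_isPr_of {y : ZFSet.{0}} (h : ∅ ∈ y) : ¬ IsPr y := by
  intro h1
  rw [h1] at h
  simp only [pair, ZFSet.mem_pair] at h
  rcases h with h | h
  · have h2 : fs y ∈ (∅ : ZFSet.{0}) := by
      rw [h]
      simp
    exact ZFSet.notMem_empty _ h2
  · have h2 : fs y ∈ (∅ : ZFSet.{0}) := by
      rw [h]
      simp
    exact ZFSet.notMem_empty _ h2

/-- The child relation. -/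
def ChF (y y' : ZFSet.{0}) : Prop :=
  (¬ IsPr y' ∧ y' ≠ ∅) ∨ (y ≠ ∅ ∧ ¬ IsPr y ∧ y' = ∅) ∨ (IsPr y ∧ IsPr y' ∧
    ((fs (fs y) = ∅ ∧ sn y' = sn y ∧ (fs y' = fs (sn (fs y)) ∨ fs y' = sn (sn (fs y)))) ∨
      (fs (fs y) ≠ ∅ ∧ fs y' = sn (fs y) ∧ sn y' = pair (sn y) (sn (sn y')))))

/-- The labels. -/
def LF (y : ZFSet.{0}) : Prop :=
  (IsPr y ∧ (fs (fs y) = ∅ ↔ AtR (fun x z => x ∈ z) (sn (fs y)) (sn y))) ∨ (¬ IsPr y ∧ y ≠ ∅)

section

variable {K : Set ZFSet.{0}} (hK : IsZF K)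

include hK

theorem wt_dummy (m : ℕ) : (¬ Wt K ChF LF m ∅) ∧ ∀ y, ¬ IsPr y → y ≠ ∅ → Wt K ChF LF m y := by
  induction m with
  | zero =>
    refine ⟨?_, fun y h1 h2 => Or.inr ⟨h1, h2⟩⟩
    rintro (⟨h, -⟩ | ⟨-, h⟩)
    · exact not_isPr_empty h
    · exact h rfl
  | succ m ih =>
    refine ⟨?_, fun y h1 h2 => ⟨∅, hK.empty_mem, Or.inr (Or.inl ⟨h2, h1, rfl⟩), ih.1⟩⟩
    rintro ⟨y', -, h | ⟨h, -⟩ | ⟨h, -⟩, h'⟩
    · exact h' (ih.2 y' h.1 h.2)
    · exact h rfl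
    · exact not_isPr_empty h

theorem wt_zero {u s : ZFSet.{0}} : Wt K ChF LF 0 (pair u s) ↔
    (fs u = ∅ ↔ AtR (fun x z => x ∈ z) (sn u) s) := by
  simp only [Wt, LF]
  constructor
  · rintro (⟨-, h⟩ | ⟨h, -⟩)
    · rw [fs_pair, sn_pair] at h
      exact h
    · exact absurd (isPr_pair _ _) h
  · intro h
    refine Or.inl ⟨isPr_pair _ _, ?_⟩
    rw [fs_pair, sn_pair]
    exact h

theorem wt_succ {m : ℕ} {u s : ZFSet.{0}} (hu : u ∈ K) (hs : s ∈ K) :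
    Wt K ChF LF (m + 1) (pair u s) ↔
    (fs u = ∅ ∧ (¬ Wt K ChF LF m (pair (fs (sn u)) s) ∨
      ¬ Wt K ChF LF m (pair (sn (sn u)) s))) ∨
    (fs u ≠ ∅ ∧ ∃ b ∈ K, ¬ Wt K ChF LF m (pair (sn u) (pair s b))) := by
  have hfs : ∀ {x : ZFSet.{0}}, x ∈ K → fs x ∈ K := fun {x} hx =>
    (hK.fs' (DfnF.proj (0 : Fin 1))).1 (fun _ => x) fun _ => hx
  have hsn : ∀ {x : ZFSet.{0}}, x ∈ K → sn x ∈ K := fun {x} hx =>
    (hK.sn' (DfnF.proj (0 : Fin 1))).1 (fun _ => x) fun _ => hx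
  simp only [Wt]
  constructor
  · rintro ⟨y', hy', h, h'⟩
    rcases h with h | ⟨-, h, -⟩ | ⟨-, h1, h2⟩
    · exact absurd ((wt_dummy hK m).2 y' h.1 h.2) h'
    · exact absurd (isPr_pair _ _) h
    · rw [fs_pair, sn_pair] at h2
      rw [h1] at h'
      rcases h2 with ⟨h2, h3, h4⟩ | ⟨h2, h3, h4⟩
      · rw [h3] at h'
        rcases h4 with h4 | h4
        · rw [h4] at h'
          exact Or.inl ⟨h2, Or.inl h'⟩
        · rw [h4] at h'
          exact Or.inl ⟨h2, Or.inr h'⟩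
      · rw [h3, h4] at h'
        exact Or.inr ⟨h2, sn (sn y'), hsn (hsn hy'), h'⟩
  · rintro (⟨h1, h2 | h2⟩ | ⟨h1, b, hb, h2⟩)
    · refine ⟨_, hK.pair_mem (hfs (hsn hu)) hs, Or.inr (Or.inr ⟨isPr_pair _ _, isPr_pair _ _,
        Or.inl ?_⟩), h2⟩
      simp only [fs_pair, sn_pair]
      exact ⟨h1, trivial, Or.inl trivial⟩
    · refine ⟨_, hK.pair_mem (hsn (hsn hu)) hs, Or.inr (Or.inr ⟨isPr_pair _ _, isPr_pair _ _,
        Or.inl ?_⟩), h2⟩
      simp only [fs_pair, sn_pair]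
      exact ⟨h1, trivial, Or.inr trivial⟩
    · refine ⟨_, hK.pair_mem (hsn hu) (hK.pair_mem hs hb), Or.inr (Or.inr ⟨isPr_pair _ _,
        isPr_pair _ _, Or.inr ?_⟩), h2⟩
      simp only [fs_pair, sn_pair]
      exact ⟨h1, trivial, trivial⟩

theorem gm_fml : Gm K ChF LF where
  dCh := by
    have hB := hK.base
    have h0 := hK.empty_mem
    have hp : ∀ {n : ℕ} (i : Fin n), Dfn K K fun w : Fin n → ZFSet.{0} => IsPr (w i) :=
      fun i => Dfn.eq (DfnF.proj i) (hB.pair' (hK.fs' (DfnF.proj i)) (hK.sn' (DfnF.proj i)))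
    unfold ChF
    (repeat' first
      | assumption
      | apply hp
      | exact DfnF.proj _
      | exact DfnF.const (by assumption)
      | apply Dfn.iff | apply Dfn.not | apply Dfn.and | apply Dfn.or
      | apply Dfn.eq | apply Dfn.mem | apply hB.pair' | apply hK.fs' | apply hK.sn')
  dL := by
    have hB := hK.base
    have h0 := hK.empty_mem
    have hp : ∀ {n : ℕ} (i : Fin n), Dfn K K fun w : Fin n → ZFSet.{0} => IsPr (w i) :=
      fun i => Dfn.eq (DfnF.proj i) (hB.pair' (hK.fs' (DfnF.proj i)) (hK.sn' (DfnF.proj i)))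
    have ha : ∀ {n : ℕ} {F G : (Fin n → ZFSet.{0}) → ZFSet.{0}}, DfnF K K F → DfnF K K G →
        Dfn K K fun v => AtR (fun x z => x ∈ z) (F v) (G v) := fun hF hG =>
      Dfn.comp2 (Q := fun c s => AtR (fun x y => x ∈ y) c s) (dfn_AtM hK) hF hG
    unfold LF
    refine ((hp 0).and ((Dfn.eq (hK.fs' (hK.fs' (DfnF.proj 0))) (DfnF.const h0)).iff
      (ha (hK.sn' (hK.fs' (DfnF.proj 0))) (hK.sn' (DfnF.proj 0))))).or ((hp 0).not.and
      (Dfn.eq (DfnF.proj 0) (DfnF.const h0)).not)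
  one m y hy b hb := by
    have h1 : (∅ : ZFSet.{0}) ∈ ({∅, b} : ZFSet.{0}) := by simp
    have h2 : ({∅, b} : ZFSet.{0}) ≠ ∅ := fun h => ZFSet.notMem_empty _ (h ▸ h1)
    have h3 := not_isPr_of h1
    refine ⟨{∅, b}, hK.pairing _ hK.empty_mem _ hb, fun h => ?_, Or.inl ⟨h3, h2⟩,
      (wt_dummy hK m).2 _ h3 h2⟩
    exact ZFSet.mem_asymm h (by simp)
  zero m := ⟨∅, hK.empty_mem, (wt_dummy hK m).1⟩

/-! ### Codes of formulas -/

omit hK in
/-- The relation `R` and its negation have codes of level `m`. -/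
def Both (K : Set ZFSet.{0}) (g : ℕ → ZFSet.{0}) (k m : ℕ) {n : ℕ}
    (R : (Fin n → ZFSet.{0}) → Prop) : Prop :=
  (∃ u ∈ JJ, ∀ v : Fin n → ZFSet.{0}, (∀ i, v i ∈ K) →
    (R v ↔ Wt K ChF LF m (pair u (cd (seq g k) v)))) ∧
  ∃ u ∈ JJ, ∀ v : Fin n → ZFSet.{0}, (∀ i, v i ∈ K) →
    (¬ R v ↔ Wt K ChF LF m (pair u (cd (seq g k) v)))

variable {g : ℕ → ZFSet.{0}} {k : ℕ} (hg : ∀ j < k, g j ∈ K)

include hg

theorem cd_mem_K {n : ℕ} {v : Fin n → ZFSet.{0}} (hv : ∀ i, v i ∈ K) :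
    cd (seq g k) v ∈ K := by
  have h0 : seq g k ∈ K := by
    have : ∀ l ≤ k, seq g l ∈ K := by
      intro l
      induction l with
      | zero => exact fun _ => hK.empty_mem
      | succ l ih => exact fun h => hK.pair_mem (ih (by omega)) (hg l (by omega))
    exact this k le_rfl
  induction n with
  | zero => exact h0
  | succ n ih => exact hK.pair_mem (ih (v := Fin.tail v) fun i => hv i.succ) (hv 0)

theorem neg_code {m n : ℕ} {R : (Fin n → ZFSet.{0}) → Prop} {u : ZFSet.{0}} (hu : u ∈ JJ)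
    (h : ∀ v : Fin n → ZFSet.{0}, (∀ i, v i ∈ K) →
      (R v ↔ Wt K ChF LF m (pair u (cd (seq g k) v)))) :
    ∃ u' ∈ JJ, ∀ v : Fin n → ZFSet.{0}, (∀ i, v i ∈ K) →
      (¬ R v ↔ Wt K ChF LF (m + 1) (pair u' (cd (seq g k) v))) := by
  have hJ := hK.trans _ (JJ_mem hK)
  refine ⟨pair (nat 0) (pair u u), pair_mem_JJ (nat_mem_JJ 0) (pair_mem_JJ hu hu),
    fun v hv => ?_⟩
  rw [wt_succ hK (hJ _ (pair_mem_JJ (nat_mem_JJ 0) (pair_mem_JJ hu hu))) (cd_mem_K hK hg hv),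
    h v hv]
  simp only [fs_pair, sn_pair]
  have h0 : (nat 0 : ZFSet.{0}) = ∅ := rfl
  simp [h0]

theorem Both.succ {m n : ℕ} {R : (Fin n → ZFSet.{0}) → Prop} (h : Both K g k m R) :
    Both K g k (m + 1) R := by
  obtain ⟨⟨u, hu, h1⟩, u', hu', h2⟩ := h
  obtain ⟨w, hw, h3⟩ := neg_code hK hg hu' h2
  obtain ⟨w', hw', h4⟩ := neg_code hK hg hu h1
  exact ⟨⟨w, hw, fun v hv => by rw [← h3 v hv, not_not]⟩, w', hw', h4⟩

theorem Both.mono {m m' n : ℕ} (hm : m ≤ m') {R : (Fin n → ZFSet.{0}) → Prop}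
    (h : Both K g k m R) : Both K g k m' R := by
  induction m', hm using Nat.le_induction with
  | base => exact h
  | succ m' _ ih => exact ih.succ hK hg

/-- The formulas have codes. -/
theorem exists_both : {n : ℕ} → (φ : Fml ZFSet.{0} n) → φ.Over {a | ∃ j < k, a = g j} →
    ∃ m, Both K g k m (Sat K id φ) := by
  have hJ := hK.trans _ (JJ_mem hK)
  have hterm : ∀ {n : ℕ} (t : Fin n ⊕ ZFSet.{0}), TOver {a | ∃ j < k, a = g j} t →
      ∃ i, ∀ (v : Fin n → ZFSet.{0}) (h : ℕ → ZFSet.{0}), (∀ j < k, h j = g j) →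
        (∀ i : Fin n, h (k + (n - 1 - i)) = v i) → i < k + n ∧ h i = Sum.elim v id t := by
    intro n t ht
    cases t with
    | inl i =>
      refine ⟨k + (n - 1 - i), fun v h h1 h2 => ⟨?_, h2 i⟩⟩
      have := i.2
      omega
    | inr a =>
      obtain ⟨j, hj, rfl⟩ := ht a rfl
      exact ⟨j, fun v h h1 h2 => ⟨by omega, h1 j hj⟩⟩
  have hatom : ∀ {n : ℕ} {R : (Fin n → ZFSet.{0}) → Prop} {c : ZFSet.{0}}, c ∈ JJ →
      (∀ v : Fin n → ZFSet.{0}, (R v ↔ AtR (fun x z => x ∈ z) c (cd (seq g k) v))) →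
      Both K g k 0 R := by
    intro n R c hc h
    refine ⟨⟨pair (nat 0) c, pair_mem_JJ (nat_mem_JJ 0) hc, fun v _ => ?_⟩,
      pair (nat 1) c, pair_mem_JJ (nat_mem_JJ 1) hc, fun v _ => ?_⟩
    · rw [wt_zero hK, h v, fs_pair, sn_pair]
      have h0 : (nat 0 : ZFSet.{0}) = ∅ := rfl
      simp [h0]
    · rw [wt_zero hK, h v, fs_pair, sn_pair]
      have h0 : ¬ (nat 1 : ZFSet.{0}) = ∅ := fun h => nat01 h
      simp [h0]
  intro n φ
  induction φ with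
  | @mem n s t =>
    intro h
    obtain ⟨i, hi⟩ := hterm s h.1
    obtain ⟨j, hj⟩ := hterm t h.2
    refine ⟨0, hatom (c := pair (nat 0) (pair (nat i) (nat j))) (pair_mem_JJ (nat_mem_JJ 0)
      (pair_mem_JJ (nat_mem_JJ i) (nat_mem_JJ j))) fun v => ?_⟩
    obtain ⟨h', h1, h2, h3⟩ := cd_seq g k v
    rw [h1]
    obtain ⟨h4, h5⟩ := hi v h' h2 h3
    obtain ⟨h6, h7⟩ := hj v h' h2 h3
    simp only [atR_seq, Sat, h4, h6, h5, h7]
    simp
  | @eq n s t =>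
    intro h
    obtain ⟨i, hi⟩ := hterm s h.1
    obtain ⟨j, hj⟩ := hterm t h.2
    refine ⟨0, hatom (c := pair (nat 1) (pair (nat i) (nat j))) (pair_mem_JJ (nat_mem_JJ 1)
      (pair_mem_JJ (nat_mem_JJ i) (nat_mem_JJ j))) fun v => ?_⟩
    obtain ⟨h', h1, h2, h3⟩ := cd_seq g k v
    rw [h1]
    obtain ⟨h4, h5⟩ := hi v h' h2 h3
    obtain ⟨h6, h7⟩ := hj v h' h2 h3
    simp only [atR_seq, Sat, h4, h6, h5, h7]
    simp [nat01]
  | neg φ ih =>
    intro h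
    obtain ⟨m, ⟨u, hu, h1⟩, u', hu', h2⟩ := ih h
    exact ⟨m, ⟨u', hu', h2⟩, u, hu, fun v hv => by
      rw [← h1 v hv]
      simp only [Sat, not_not]⟩
  | and φ ψ ih ih' =>
    intro h
    obtain ⟨m₁, h1⟩ := ih h.1
    obtain ⟨m₂, h2⟩ := ih' h.2
    have key : ∀ m ≥ max m₁ m₂, ∃ u ∈ JJ, ∀ v : Fin _ → ZFSet.{0}, (∀ i, v i ∈ K) →
        (¬ Sat K id (φ.and ψ) v ↔ Wt K ChF LF (m + 1) (pair u (cd (seq g k) v))) := by
      intro m hm
      obtain ⟨⟨u, hu, h3⟩, -⟩ := h1.mono hK hg (show m₁ ≤ m by omega)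
      obtain ⟨⟨u', hu', h4⟩, -⟩ := h2.mono hK hg (show m₂ ≤ m by omega)
      have hJ1 := pair_mem_JJ (nat_mem_JJ 0) (pair_mem_JJ hu hu')
      refine ⟨_, hJ1, fun v hv => ?_⟩
      rw [wt_succ hK (hJ _ hJ1) (cd_mem_K hK hg hv)]
      simp only [fs_pair, sn_pair]
      rw [← h3 v hv, ← h4 v hv]
      have h0 : (nat 0 : ZFSet.{0}) = ∅ := rfl
      simp only [Sat, h0]
      tauto
    obtain ⟨u, hu, h3⟩ := key (max m₁ m₂) le_rfl
    obtain ⟨u', hu', h4⟩ := key (max m₁ m₂ + 1) (by omega)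
    obtain ⟨w, hw, h5⟩ := neg_code hK hg hu h3
    exact ⟨max m₁ m₂ + 2, ⟨w, hw, fun v hv => by rw [← h5 v hv, not_not]⟩, u', hu', h4⟩
  | @ex n φ ih =>
    intro h
    obtain ⟨m₁, h1⟩ := ih h
    have key : ∀ m ≥ m₁, ∃ u ∈ JJ, ∀ v : Fin n → ZFSet.{0}, (∀ i, v i ∈ K) →
        (Sat K id (Fml.ex φ) v ↔ Wt K ChF LF (m + 1) (pair u (cd (seq g k) v))) := by
      intro m hm
      obtain ⟨-, u, hu, h3⟩ := h1.mono hK hg hm
      have hJ1 := pair_mem_JJ (nat_mem_JJ 1) hu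
      refine ⟨_, hJ1, fun v hv => ?_⟩
      rw [wt_succ hK (hJ _ hJ1) (cd_mem_K hK hg hv)]
      simp only [fs_pair, sn_pair]
      have h0 : ¬ (nat 1 : ZFSet.{0}) = ∅ := fun h => nat01 h
      simp only [Sat, h0]
      have h4 : (∃ a ∈ K, Sat K id φ (Fin.cons a v)) ↔
          ∃ b ∈ K, ¬ Wt K ChF LF m (pair u (pair (cd (seq g k) v) b)) := by
        refine exists_congr fun a => and_congr_right fun ha => ?_
        have h5 := h3 (Fin.cons a v) (fun i => by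
          refine Fin.cases ?_ (fun i => ?_) i
          · exact ha
          · exact hv i)
        rw [cd_cons] at h5
        rw [← h5, not_not]
      rw [h4]
      simp [h0]
    obtain ⟨u, hu, h3⟩ := key m₁ le_rfl
    obtain ⟨u', hu', h4⟩ := key (m₁ + 1) (by omega)
    obtain ⟨w, hw, h5⟩ := neg_code hK hg hu h3
    exact ⟨m₁ + 2, ⟨u', hu', h4⟩, w, hw, h5⟩

omit hg in
/-- The types of the nodes are not definable. -/
theorem not_dfn_Ty : ¬ Dfn K K fun w : Fin 1 → ZFSet.{0} => Ty K ChF LF (w 0) := by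
  intro hT
  have hB := hK.base
  have hA : Dfn K K fun w : Fin 1 → ZFSet.{0} =>
      ¬ Ty K ChF LF (pair (fs (w 0)) (pair (fs (sn (w 0))) (pair (sn (sn (w 0))) (w 0)))) := by
    refine Dfn.not (Dfn.comp1 (Q := Ty K ChF LF) hT ?_)
    (repeat' first
      | exact DfnF.proj _
      | apply hB.pair' | apply hK.fs' | apply hK.sn')
  obtain ⟨φ, h1, h2⟩ := hA
  obtain ⟨l, hl, hφl⟩ := exists_params φ h1
  set g₀ : ℕ → ZFSet.{0} := fun j => l.getD j ∅ with hg₀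
  have hlg : {a | a ∈ l} ⊆ {a | ∃ j < l.length, a = g₀ j} := by
    intro a ha
    obtain ⟨j, hj, h1⟩ := List.mem_iff_getElem.1 ha
    refine ⟨j, hj, ?_⟩
    rw [hg₀]
    simp only
    rw [List.getD_eq_getElem _ _ hj, h1]
  have hg₀K : ∀ j < l.length, g₀ j ∈ K := by
    intro j hj
    rw [hg₀]
    simp only
    rw [List.getD_eq_getElem _ _ hj]
    exact hl _ (List.getElem_mem hj)
  obtain ⟨m, ⟨u, hu, h3⟩, -⟩ := exists_both hK hg₀K φ (hφl.mono hlg)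
  have hsK : seq g₀ l.length ∈ K := cd_mem_K hK hg₀K (n := 0) (v := Fin.elim0) fun i => i.elim0
  have huK : u ∈ K := hK.trans _ (JJ_mem hK) _ hu
  set x : ZFSet.{0} := pair (nat m) (pair u (seq g₀ l.length)) with hx
  have hxK : x ∈ K := hK.pair_mem (hK.nat_mem m) (hK.pair_mem huK hsK)
  have h4 := h3 ![x] (fun i => by rw [Fin.eq_zero i]; exact hxK)
  have h5 : Sat K id φ ![x] ↔
      ¬ Ty K ChF LF (pair (fs x) (pair (fs (sn x)) (pair (sn (sn x)) x))) :=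
    h2 ![x] (fun i => by rw [Fin.eq_zero i]; exact hxK)
  have h6 : cd (seq g₀ l.length) ![x] = pair (seq g₀ l.length) x := rfl
  rw [h6] at h4
  rw [h4] at h5
  have h8 : pair (fs x) (pair (fs (sn x)) (pair (sn (sn x)) x)) =
      pair (nat m) (pair u (pair (seq g₀ l.length) x)) := by
    rw [hx, fs_pair, sn_pair, fs_pair, sn_pair]
  rw [h8, ty_pair] at h5
  by_cases h9 : Wt K ChF LF m (pair u (pair (seq g₀ l.length) x))
  · exact h5.1 h9 h9
  · exact h9 (h5.2 h9)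

end

end Pool.Agent.R597.Ex
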