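import Pool.Agent.R597.Cho

/-!
# Absoluteness of the existence of branches
-/

set_option autoImplicit false
set_option linter.unreachableTactic false
set_option linter.unusedTactic false

namespace Pool.Agent.R597

open Pool.Agent.W868 Pool.Agent.W868.GM Pool.Agent.Y588
open ZFSet (pair)

/-! ### The derivatives of a tree -/

/-- The derivatives of the set `T`: `t` is in `Ed T W z` if it has for all `y ∈ z` an immediate
successor in `Ed T W y`. -/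
noncomputable def Ed (T W : ZFSet.{0}) : ZFSet.{0} → ZFSet.{0} :=
  wfF (fun z => z) ZFSet.mem_wf fun _ g =>
    ZFSet.sep (fun t => ∀ p ∈ g, ∃ a ∈ W, pair t a ∈ sn p) T

theorem Ed_eq (T W z : ZFSet.{0}) :
    Ed T W z = ZFSet.sep (fun t => ∀ p ∈ gr (Ed T W) z, ∃ a ∈ W, pair t a ∈ sn p) T :=
  wfF_eq _ _ _ _

theorem mem_Ed {T W z t : ZFSet.{0}} :
    t ∈ Ed T W z ↔ t ∈ T ∧ ∀ y ∈ z, ∃ a ∈ W, pair t a ∈ Ed T W y := by
  rw [Ed_eq, ZFSet.mem_sep]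
  refine and_congr_right fun _ => ?_
  constructor
  · intro h y hy
    obtain ⟨a, ha, h1⟩ := h _ (mem_gr.2 ⟨y, hy, rfl⟩)
    rw [sn_pair] at h1
    exact ⟨a, ha, h1⟩
  · intro h p hp
    obtain ⟨u, hu, rfl⟩ := mem_gr.1 hp
    rw [sn_pair]
    exact h u hu

theorem Ed_anti {T W z z' : ZFSet.{0}} (h : z ⊆ z') : Ed T W z' ⊆ Ed T W z := by
  intro t ht
  obtain ⟨h1, h2⟩ := mem_Ed.1 ht
  exact mem_Ed.2 ⟨h1, fun y hy => h2 y (h hy)⟩

theorem dfn_Ed {M : Set ZFSet.{0}} (hM : IsZF M) {T W : ZFSet.{0}} (hT : T ∈ M) (hW : W ∈ M) :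
    DfnF M M fun w : Fin 1 → ZFSet.{0} => Ed T W (w 0) := by
  refine hM.memrec (G := fun _ g =>
    ZFSet.sep (fun t => ∀ p ∈ g, ∃ a ∈ W, pair t a ∈ sn p) T) ?_ (Ed_eq T W)
  have hB := hM.base
  refine hM.sep' (Q := fun t w => ∀ p ∈ w 1, ∃ a ∈ W, pair t a ∈ sn p) (DfnF.const hT) ?_
  apply hB.ball (DfnF.proj 2)
  apply hB.bex (DfnF.const hW)
  exact Dfn.mem (hB.pair' (DfnF.proj 2) (DfnF.proj 0)) (hM.sn' (DfnF.proj 1))

/-- An external branch stays in all derivatives. -/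
theorem branch_Ed {T W : ZFSet.{0}} {f : ℕ → ZFSet.{0}} (hf : ∀ n, f n ∈ W)
    (h : ∀ n, seq f n ∈ T) (z : ZFSet.{0}) : ∀ n, seq f n ∈ Ed T W z := by
  induction z using ZFSet.inductionOn with
  | _ z ih => exact fun n => mem_Ed.2 ⟨h n, fun y hy => ⟨f n, hf n, ih y hy (n + 1)⟩⟩

/-- If `T` has an external branch, then `M` contains a subset of `T` without end nodes that
contains the empty sequence. -/
theorem exists_pruned {M : Set ZFSet.{0}} (hM : IsZF M) {T W : ZFSet.{0}} (hT : T ∈ M)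
    (hW : W ∈ M) {f : ℕ → ZFSet.{0}} (hf : ∀ n, f n ∈ W) (h : ∀ n, seq f n ∈ T) :
    ∃ S ∈ M, S ⊆ T ∧ ∅ ∈ S ∧ ∀ t ∈ S, ∃ a ∈ W, pair t a ∈ S := by
  have hB := hM.base
  have hE := dfn_Ed hM hT hW
  have hl : DfnF M M fun w : Fin 1 → ZFSet.{0} => lo M fun ζ => w 0 ∉ Ed T W ζ := by
    refine hM.lo' (Q := fun ζ w => w 0 ∉ Ed T W ζ) ?_
    exact (Dfn.mem (DfnF.proj 1) (DfnF.comp1 (f := Ed T W) hE (DfnF.proj 0))).not
  set δ : ZFSet.{0} := ZFSet.sUnion (im (fun t => lo M fun ζ => t ∉ Ed T W ζ) T) with hδ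
  have hδM : δ ∈ M := hM.union _ (hM.im_mem (h := fun t => lo M fun ζ => t ∉ Ed T W ζ) hT hl)
  have hδo : δ.IsOrdinal := by
    refine isOrdinal_sUnion ?_
    intro x hx
    obtain ⟨t, -, rfl⟩ := mem_im.1 hx
    exact lo_isOrdinal
  have key : ∀ t ∈ Ed T W δ, ∀ ζ ∈ M, ζ.IsOrdinal → t ∈ Ed T W ζ := by
    intro t ht ζ hζ hζo
    by_contra hc
    obtain ⟨-, -, h2⟩ := lo_spec (M := M) (P := fun ζ => t ∉ Ed T W ζ) ⟨ζ, hζ, hζo, hc⟩
    apply h2
    refine Ed_anti ?_ ht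
    intro z hz
    exact ZFSet.mem_sUnion.2 ⟨_, mem_im.2 ⟨t, (mem_Ed.1 ht).1, rfl⟩, hz⟩
  refine ⟨Ed T W δ, hE.1 (fun _ => δ) fun _ => hδM, fun t ht => (mem_Ed.1 ht).1,
    branch_Ed hf h δ 0, fun t ht => ?_⟩
  have h1 := key t ht (sc δ) (hM.sc_mem hδM) (isOrdinal_sc hδo)
  exact (mem_Ed.1 h1).2 δ (ZFSet.mem_insert _ _)

/-! ### Recursion on the natural numbers -/

/-- The sequence of nodes that is given by the choice function `c`. -/
noncomputable def Nd (c : ZFSet.{0}) : ZFSet.{0} → ZFSet.{0} :=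
  wfF (fun z => z) ZFSet.mem_wf fun z g =>
    open Classical in
    if z = ∅ then ∅ else pair (ap g (ZFSet.sUnion z)) (ap c (ap g (ZFSet.sUnion z)))

theorem Nd_eq (c z : ZFSet.{0}) : Nd c z =
    open Classical in
    if z = ∅ then ∅ else pair (ap (gr (Nd c) z) (ZFSet.sUnion z))
      (ap c (ap (gr (Nd c) z) (ZFSet.sUnion z))) := wfF_eq _ _ _ _

theorem sUnion_nat_succ (n : ℕ) : ZFSet.sUnion (nat (n + 1)) = nat n := by
  ext z
  rw [ZFSet.mem_sUnion]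
  constructor
  · rintro ⟨y, hy, hz⟩
    rcases ZFSet.mem_insert_iff.1 hy with rfl | hy
    · exact hz
    · have h : (nat n).IsOrdinal := by
        rw [nat_eq]
        exact ZFSet.isOrdinal_toZFSet _
      exact h.mem_trans hz hy
  · exact fun hz => ⟨nat n, ZFSet.mem_insert _ _, hz⟩

theorem Nd_zero (c : ZFSet.{0}) : Nd c (nat 0) = ∅ := by
  rw [Nd_eq, if_pos (show nat 0 = ∅ from rfl)]

theorem nat_succ_ne (n : ℕ) : nat (n + 1) ≠ ∅ := by
  intro h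
  have h1 : nat n ∈ nat (n + 1) := ZFSet.mem_insert _ _
  rw [h] at h1
  exact ZFSet.notMem_empty _ h1

theorem Nd_succ (c : ZFSet.{0}) (n : ℕ) :
    Nd c (nat (n + 1)) = pair (Nd c (nat n)) (ap c (Nd c (nat n))) := by
  rw [Nd_eq, if_neg (nat_succ_ne n), sUnion_nat_succ,
    ap_gr (show nat n ∈ nat (n + 1) from ZFSet.mem_insert _ _)]

theorem dfn_Nd {M : Set ZFSet.{0}} (hM : IsZF M) {c : ZFSet.{0}} (hc : c ∈ M) :
    DfnF M M fun w : Fin 1 → ZFSet.{0} => Nd c (w 0) := by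
  have hB := hM.base
  have h0 := hM.empty_mem
  refine hM.memrec (G := fun z g => open Classical in
    if z = ∅ then ∅ else pair (ap g (ZFSet.sUnion z)) (ap c (ap g (ZFSet.sUnion z)))) ?_ (Nd_eq c)
  refine DfnF.ite (Dfn.eq (DfnF.proj 0) (DfnF.const h0)) (DfnF.const h0) ?_
  have h1 : DfnF M M fun w : Fin 2 → ZFSet.{0} => ap (w 1) (ZFSet.sUnion (w 0)) :=
    hM.ap' (DfnF.proj 1) (hB.sUnion' (DfnF.proj 0))
  exact hB.pair' h1 (hM.ap' (DfnF.const hc) h1)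

/-- A pruned tree in a model of ZFC has a branch in the model. -/
theorem exists_branch {M : Set ZFSet.{0}} (hM : IsZFC M) {S W : ZFSet.{0}} (hS : S ∈ M)
    (hW : W ∈ M) (h0 : ∅ ∈ S) (h : ∀ t ∈ S, ∃ a ∈ W, pair t a ∈ S) :
    ∃ g ∈ M, ZFSet.IsFunc ZFSet.omega W g ∧ ∀ n, seq (fun k => ap g (nat k)) n ∈ S := by
  have hZ := hM.toIsZF
  have hB := hZ.base
  obtain ⟨c, hc, -, hc2⟩ := exists_choice hM hS
    (F := fun t => ZFSet.sep (fun a => pair t a ∈ S) W) (by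
      refine hZ.sep' (Q := fun a w => pair (w 0) a ∈ S) (DfnF.const hW) ?_
      exact Dfn.mem (hB.pair' (DfnF.proj 1) (DfnF.proj 0)) (DfnF.const hS)) (by
      intro t ht
      obtain ⟨a, ha, h1⟩ := h t ht
      exact ⟨a, ZFSet.mem_sep.2 ⟨ha, h1⟩⟩)
  have hS' : ∀ n, Nd c (nat n) ∈ S := by
    intro n
    induction n with
    | zero => rw [Nd_zero]; exact h0
    | succ n ih => rw [Nd_succ]; exact (ZFSet.mem_sep.1 (hc2 _ ih)).2
  have hd : DfnF M M fun w : Fin 1 → ZFSet.{0} => pair (w 0) (ap c (Nd c (w 0))) :=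
    hB.pair' (DfnF.proj 0) (hZ.ap' (DfnF.const hc) (dfn_Nd hZ hc))
  have hmem : ∀ p, p ∈ im (fun z => pair z (ap c (Nd c z))) ZFSet.omega ↔
      ∃ n : ℕ, p = pair (nat n) (ap c (Nd c (nat n))) := by
    intro p
    rw [mem_im]
    constructor
    · rintro ⟨z, hz, rfl⟩
      obtain ⟨n, rfl⟩ := mem_omega_iff.1 hz
      exact ⟨n, rfl⟩
    · rintro ⟨n, rfl⟩
      exact ⟨_, nat_mem_omega n, rfl⟩
  have hf : ZFSet.IsFunc ZFSet.omega W (im (fun z => pair z (ap c (Nd c z))) ZFSet.omega) := by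
    constructor
    · intro p hp
      obtain ⟨n, rfl⟩ := (hmem p).1 hp
      exact ZFSet.pair_mem_prod.2 ⟨nat_mem_omega n, (ZFSet.mem_sep.1 (hc2 _ (hS' n))).1⟩
    · intro z hz
      obtain ⟨n, rfl⟩ := mem_omega_iff.1 hz
      refine ⟨_, (hmem _).2 ⟨n, rfl⟩, fun y hy => ?_⟩
      obtain ⟨m, h1⟩ := (hmem _).1 hy
      obtain ⟨h2, rfl⟩ := ZFSet.pair_inj.1 h1
      rw [nat_injective h2]
  refine ⟨_, hZ.im_mem (h := fun z => pair z (ap c (Nd c z))) hZ.infinity hd, hf, fun n => ?_⟩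
  have h1 : ∀ n, ap (im (fun z => pair z (ap c (Nd c z))) ZFSet.omega) (nat n) =
      ap c (Nd c (nat n)) := fun n => ap_func hf ((hmem _).2 ⟨n, rfl⟩)
  have h2 : ∀ n, seq (fun k => ap (im (fun z => pair z (ap c (Nd c z))) ZFSet.omega) (nat k)) n =
      Nd c (nat n) := by
    intro n
    induction n with
    | zero => rw [Nd_zero]; rfl
    | succ n ih => rw [Nd_succ, seq, ih, h1]
  rw [h2]
  exact hS' n

/-- Absoluteness of the existence of branches. -/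
theorem branch_abs {M : Set ZFSet.{0}} (hM : IsZFC M) {T W : ZFSet.{0}} (hT : T ∈ M)
    (hW : W ∈ M) {f : ℕ → ZFSet.{0}} (hf : ∀ n, f n ∈ W) (h : ∀ n, seq f n ∈ T) :
    ∃ g ∈ M, ZFSet.IsFunc ZFSet.omega W g ∧ ∀ n, seq (fun k => ap g (nat k)) n ∈ T := by
  obtain ⟨S, h1, h2, h3, h4⟩ := exists_pruned hM.toIsZF hT hW hf h
  obtain ⟨g, h5, h6, h7⟩ := exists_branch hM h1 hW h3 h4
  exact ⟨g, h5, h6, fun n => h2 (h7 n)⟩

end Pool.Agent.R597
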