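import Pool.Agent.R597.Wo
import Pool.Agent.R597.Tree

/-!
# Recursion on codes of finite sequences
-/

set_option autoImplicit false
set_option linter.unreachableTactic false
set_option linter.unusedTactic false
set_option linter.unusedSectionVars false

namespace Pool.Agent.R597

open Pool.Agent.W868 Pool.Agent.W868.GM Pool.Agent.Y588
open ZFSet (pair)

/-- The set that contains the first component of a pair. -/
noncomputable def prs (t : ZFSet.{0}) : ZFSet.{0} :=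
  ZFSet.sep (fun u => ∃ a ∈ ZFSet.sUnion t, t = pair u a) (ZFSet.sUnion t)

theorem mem_prs {t u : ZFSet.{0}} : u ∈ prs t ↔ ∃ a, t = pair u a := by
  rw [prs, ZFSet.mem_sep]
  constructor
  · rintro ⟨-, a, -, h⟩
    exact ⟨a, h⟩
  · rintro ⟨a, rfl⟩
    have h1 : u ∈ ZFSet.sUnion (pair u a) :=
      ZFSet.mem_sUnion.2 ⟨{u, a}, by simp [pair], by simp⟩
    have h2 : a ∈ ZFSet.sUnion (pair u a) :=
      ZFSet.mem_sUnion.2 ⟨{u, a}, by simp [pair], by simp⟩
    exact ⟨h1, a, h2, rfl⟩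

theorem rank_fst_lt {u a : ZFSet.{0}} : u.rank < (pair u a).rank := by
  have h1 : u.rank < ({u} : ZFSet.{0}).rank := ZFSet.rank_lt_of_mem (by simp)
  have h2 : ({u} : ZFSet.{0}).rank < (pair u a).rank := ZFSet.rank_lt_of_mem (by simp [pair])
  exact h1.trans h2

theorem prs_wf : WellFounded fun u t : ZFSet.{0} => u ∈ prs t :=
  Subrelation.wf (fun {u t} h => by
    obtain ⟨a, rfl⟩ := mem_prs.1 h
    exact rank_fst_lt) (InvImage.wf ZFSet.rank Ordinal.lt_wf)

theorem dfn_prs {M : Set ZFSet.{0}} (hM : IsZF M) :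
    DfnF M M fun w : Fin 1 → ZFSet.{0} => prs (w 0) := by
  have hB := hM.base
  refine hM.sep' (Q := fun u w => ∃ a ∈ ZFSet.sUnion (w 0), w 0 = pair u a)
    (hB.sUnion' (DfnF.proj 0)) ?_
  apply hB.bex (hB.sUnion' (DfnF.proj 1))
  exact Dfn.eq (DfnF.proj 2) (hB.pair' (DfnF.proj 1) (DfnF.proj 0))

/-- The function with the value `b` at the empty sequence and the value `G (F u) a` at the
sequence `u` followed by `a`. -/
noncomputable def fold (G : ZFSet.{0} → ZFSet.{0} → ZFSet.{0}) (b : ZFSet.{0}) :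
    ZFSet.{0} → ZFSet.{0} :=
  wfF prs prs_wf fun t g => open Classical in
    if prs t = ∅ then b else G (ap g (fs t)) (sn t)

theorem fold_eq (G : ZFSet.{0} → ZFSet.{0} → ZFSet.{0}) (b t : ZFSet.{0}) : fold G b t =
    open Classical in
    if prs t = ∅ then b else G (ap (gr (fold G b) (prs t)) (fs t)) (sn t) := wfF_eq _ _ _ _

theorem fold_empty (G : ZFSet.{0} → ZFSet.{0} → ZFSet.{0}) (b : ZFSet.{0}) :
    fold G b ∅ = b := by
  rw [fold_eq, if_pos]
  rw [ZFSet.eq_empty]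
  intro y hy
  obtain ⟨a, h⟩ := mem_prs.1 hy
  exact pair_ne_empty _ _ h.symm

theorem fold_pair (G : ZFSet.{0} → ZFSet.{0} → ZFSet.{0}) (b u a : ZFSet.{0}) :
    fold G b (pair u a) = G (fold G b u) a := by
  have hu : u ∈ prs (pair u a) := mem_prs.2 ⟨a, rfl⟩
  rw [fold_eq, if_neg, fs_pair, sn_pair, ap_gr hu]
  intro h
  rw [h] at hu
  exact ZFSet.notMem_empty _ hu

theorem dfn_fold {M : Set ZFSet.{0}} (hM : IsZF M) {G : ZFSet.{0} → ZFSet.{0} → ZFSet.{0}}
    {b : ZFSet.{0}} (hb : b ∈ M) (hG : DfnF M M fun w : Fin 2 → ZFSet.{0} => G (w 0) (w 1)) :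
    DfnF M M fun w : Fin 1 → ZFSet.{0} => fold G b (w 0) := by
  have hB := hM.base
  have h0 := hM.empty_mem
  refine hM.wfrec prs_wf (dfn_prs hM) (G := fun t g => open Classical in
    if prs t = ∅ then b else G (ap g (fs t)) (sn t)) ?_ (fold_eq G b)
  refine DfnF.ite (Dfn.eq (DfnF.comp1 (f := prs) (dfn_prs hM) (DfnF.proj 0)) (DfnF.const h0))
    (DfnF.const hb) ?_
  exact DfnF.comp2 (f := G) hG (hM.ap' (DfnF.proj 1) (hM.fs' (DfnF.proj 0)))
    (hM.sn' (DfnF.proj 0))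

/-- The set of finite sequences of elements of a countable set is countable. -/
theorem Sq_countable {M : Set ZFSet.{0}} (hM : IsZF M) {W : ZFSet.{0}} (hW : W ∈ M)
    (h : Inj M W ZFSet.omega) : Inj M (Sq W) ZFSet.omega := by
  obtain ⟨j, hj, hji⟩ := h
  have hω := hM.infinity
  have hB := hM.base
  obtain ⟨J, hJ, hJi⟩ := sq_inj hM hω isOrdinal_omega fun _ h => h
  have hG : DfnF M M fun w : Fin 2 → ZFSet.{0} => sc (ap J (pair (w 0) (ap j (w 1)))) := by
    have h1 : DfnF M M fun w : Fin 2 → ZFSet.{0} => ap J (pair (w 0) (ap j (w 1))) :=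
      hM.ap' (DfnF.const hJ) (hB.pair' (DfnF.proj 0) (hM.ap' (DfnF.const hj) (DfnF.proj 1)))
    exact hB.insert' h1 h1
  have hd := dfn_fold hM (G := fun r a => sc (ap J (pair r (ap j a)))) (nat_mem_omega 0 |>
    hM.trans _ hω _) hG
  set F := fold (fun r a => sc (ap J (pair r (ap j a)))) (nat 0) with hF
  have hjW : ∀ a ∈ W, pair a (ap j a) ∈ j ∧ ap j a ∈ ZFSet.omega := by
    intro a ha
    obtain ⟨b, hb, h1⟩ := fun_exists hji.1 ha
    rw [ap_func hji.1 h1]
    exact ⟨h1, hb⟩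
  have hJW : ∀ x ∈ ZFSet.omega, ∀ y ∈ ZFSet.omega, pair (pair x y) (ap J (pair x y)) ∈ J ∧
      ap J (pair x y) ∈ ZFSet.omega := by
    intro x hx y hy
    obtain ⟨b, hb, h1⟩ := fun_exists hJi.1 (ZFSet.pair_mem_prod.2 ⟨hx, hy⟩)
    rw [ap_func hJi.1 h1]
    exact ⟨h1, hb⟩
  have hFω : ∀ t ∈ Sq W, F t ∈ ZFSet.omega := by
    refine Sq_ind ?_ ?_
    · rw [hF, fold_empty]
      exact nat_mem_omega 0
    · intro t _ a ha ih
      rw [hF, fold_pair, ← hF]
      exact ZFSet.omega_succ (hJW _ ih _ (hjW a ha).2).2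
  have hsc : ∀ x ∈ ZFSet.omega, ∀ y ∈ ZFSet.omega, sc x = sc y → x = y := by
    intro x hx y hy h
    obtain ⟨n, rfl⟩ := mem_omega_iff.1 hx
    obtain ⟨m, rfl⟩ := mem_omega_iff.1 hy
    have h1 : nat (n + 1) = nat (m + 1) := h
    have h2 := nat_injective h1
    have h3 : n = m := by omega
    rw [h3]
  have hsc0 : ∀ x, nat 0 ≠ sc x := by
    intro x h
    have h1 : x ∈ nat 0 := h ▸ ZFSet.mem_insert _ _
    exact ZFSet.notMem_empty _ h1
  refine Inj.of_fun hM (Sq_mem hM hW) hω (h := F) hd hFω ?_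
  have key : ∀ t ∈ Sq W, ∀ t' ∈ Sq W, F t = F t' → t = t' := by
    refine Sq_ind ?_ ?_
    · intro t' ht' h1
      rcases mem_Sq_cases ht' with rfl | ⟨u, hu, a, ha, rfl⟩
      · rfl
      · rw [hF, fold_empty, fold_pair] at h1
        exact absurd h1 (hsc0 _)
    · intro t ht a ha ih t' ht' h1
      rcases mem_Sq_cases ht' with rfl | ⟨u, hu, a', ha', rfl⟩
      · rw [hF, fold_empty, fold_pair] at h1
        exact absurd h1.symm (hsc0 _)
      · rw [hF, fold_pair, fold_pair, ← hF] at h1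
        obtain ⟨m1, m2⟩ := hJW _ (hFω t ht) _ (hjW a ha).2
        obtain ⟨m3, m4⟩ := hJW _ (hFω u hu) _ (hjW a' ha').2
        have h2 := hsc _ m2 _ m4 h1
        rw [h2] at m1
        obtain ⟨h3, h4⟩ := ZFSet.pair_inj.1 (hJi.2 _ _ _ m1 m3)
        have m5 := (hjW a ha).1
        rw [h4] at m5
        rw [ih u hu h3, hji.2 _ _ _ m5 (hjW a' ha').1]
  exact key

/-! ### Recursion on the natural numbers -/

/-- The sequence with the first element `a` in which the element after `x` with the index `n` is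
the value of the function `c` at `(n, x)`. -/
noncomputable def Rc (c a : ZFSet.{0}) : ZFSet.{0} → ZFSet.{0} :=
  wfF (fun z => z) ZFSet.mem_wf fun z g => open Classical in
    if z = ∅ then a else ap c (pair (ZFSet.sUnion z) (ap g (ZFSet.sUnion z)))

theorem Rc_eq (c a z : ZFSet.{0}) : Rc c a z = open Classical in
    if z = ∅ then a else ap c (pair (ZFSet.sUnion z) (ap (gr (Rc c a) z) (ZFSet.sUnion z))) :=
  wfF_eq _ _ _ _

theorem Rc_zero (c a : ZFSet.{0}) : Rc c a (nat 0) = a := by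
  rw [Rc_eq, if_pos (show nat 0 = ∅ from rfl)]

theorem Rc_succ (c a : ZFSet.{0}) (n : ℕ) :
    Rc c a (nat (n + 1)) = ap c (pair (nat n) (Rc c a (nat n))) := by
  rw [Rc_eq, if_neg (nat_succ_ne n), sUnion_nat_succ,
    ap_gr (show nat n ∈ nat (n + 1) from ZFSet.mem_insert _ _)]

theorem dfn_Rc {M : Set ZFSet.{0}} (hM : IsZF M) {c a : ZFSet.{0}} (hc : c ∈ M) (ha : a ∈ M) :
    DfnF M M fun w : Fin 1 → ZFSet.{0} => Rc c a (w 0) := by
  have hB := hM.base
  have h0 := hM.empty_mem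
  refine hM.memrec (G := fun z g => open Classical in
    if z = ∅ then a else ap c (pair (ZFSet.sUnion z) (ap g (ZFSet.sUnion z)))) ?_ (Rc_eq c a)
  refine DfnF.ite (Dfn.eq (DfnF.proj 0) (DfnF.const h0)) (DfnF.const ha) ?_
  exact hM.ap' (DfnF.const hc) (hB.pair' (hB.sUnion' (DfnF.proj 0))
    (hM.ap' (DfnF.proj 1) (hB.sUnion' (DfnF.proj 0))))

/-! ### Subsets of the ground model in the extension -/

/-- A subset of a ground model set in the extension is given by a relation between conditions and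
elements that is in the ground model. -/
theorem exists_rel {M : Set ZFSet.{0}} (hM : IsZF M) {P Le : ZFSet.{0}} (hP : IsForcing M P Le)
    {G : ZFSet.{0}} (hG : IsGeneric M P Le G) {d A : ZFSet.{0}} (hd : d ∈ ext M G) (hA : A ∈ M) :
    ∃ R ∈ M, (∀ a ∈ A, (a ∈ d ↔ ∃ p ∈ G, pair p a ∈ R)) ∧
      ∀ p ∈ P, ∀ q ∈ P, pair q p ∈ Le → ∀ a, pair p a ∈ R → pair q a ∈ R := by
  obtain ⟨δ, hδ, rfl⟩ := hd
  obtain ⟨t, ht, htP, htM, -⟩ := top_mem hM hP hG
  have hB := hM.base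
  have hPM := hP.mem
  have hLM := hP.le_mem
  refine ⟨ZFSet.sep (fun u => Qmem P Le (chk t (sn u)) δ (fs u)) (ZFSet.prod P A), ?_, ?_, ?_⟩
  · refine hM.sep_mem (Q := fun u => Qmem P Le (chk t (sn u)) δ (fs u)) ?_ (hM.prod_mem hPM hA)
    exact dfn_qmem hM hPM hLM (DfnF.comp1 (f := chk t) (dfn_chk hM htM) (hM.sn' (DfnF.proj 0)))
      (DfnF.const hδ) (hM.fs' (DfnF.proj 0))
  · intro a ha
    have haM := hM.trans _ hA _ ha
    have h1 := ev_mem_iff hM hP hG (chk_mem hM htM haM) hδ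
    rw [ev_chk ht] at h1
    rw [h1]
    refine exists_congr fun p => and_congr_right fun hp => ?_
    rw [ZFSet.mem_sep, ZFSet.pair_mem_prod, fs_pair, sn_pair]
    exact ⟨fun h => ⟨⟨hG.sub hp, ha⟩, h⟩, fun h => h.2⟩
  · intro p hp q hq hqp a h
    rw [ZFSet.mem_sep, ZFSet.pair_mem_prod, fs_pair, sn_pair] at h ⊢
    exact ⟨⟨hq, h.1.2⟩, h.2.mono hP hp hq hqp⟩

end Pool.Agent.R597
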