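import Pool.Agent.R597.LS
import Pool.Agent.R597.Coh

/-!
# Codes of formulas, and their truth in a transitive model
-/

set_option autoImplicit false
set_option linter.unreachableTactic false
set_option linter.unusedTactic false
set_option linter.unusedSectionVars false
set_option linter.unusedVariables false

namespace Pool.Agent.R597

open Pool.Agent.W868 Pool.Agent.W868.GM Pool.Agent.Y588
open ZFSet (pair)

/-! ### Iteration with a parameter -/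

theorem dfn_itrp {K : Set ZFSet.{0}} (hK : IsZF K) {T : ZFSet.{0} → ZFSet.{0} → ZFSet.{0}}
    {a : ZFSet.{0}} (ha : a ∈ K) (hT : DfnF K K fun w : Fin 2 → ZFSet.{0} => T (w 0) (w 1)) :
    DfnF K K fun w : Fin 2 → ZFSet.{0} => itr (T (w 0)) a (w 1) := by
  have hB := hK.base
  have hwf : WellFounded fun u z : ZFSet.{0} => u ∈ ZFSet.prod {fs z} (sn z) := by
    refine Subrelation.wf (r := fun u z : ZFSet.{0} => sn u ∈ sn z) ?_
      (InvImage.wf sn ZFSet.mem_wf)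
    intro u z h
    obtain ⟨a, -, b, hb, rfl⟩ := ZFSet.mem_prod.1 h
    rw [sn_pair]
    exact hb
  have h1 : DfnF K K fun w : Fin 1 → ZFSet.{0} => itr (T (fs (w 0))) a (sn (w 0)) := by
    refine hK.wfrec hwf ?_ (G := fun z g => a ∪ ZFSet.sUnion (im (fun p => T (fs z) (sn p)) g))
      ?_ (F := fun z => itr (T (fs z)) a (sn z)) ?_
    · exact hK.prod' (hB.single' (hK.fs' (DfnF.proj 0))) (hK.sn' (DfnF.proj 0))
    · refine hB.union' (DfnF.const ha) (hB.sUnion' (hK.im' (h := fun p w =>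
        T (fs (w 0)) (sn p)) (DfnF.proj 1) ?_))
      exact DfnF.comp2 (f := T) hT (hK.fs' (DfnF.proj 1)) (hK.sn' (DfnF.proj 0))
    · intro z
      ext y
      rw [mem_itr, ZFSet.mem_union, ZFSet.mem_sUnion]
      refine or_congr Iff.rfl ?_
      constructor
      · rintro ⟨u, hu, hy⟩
        refine ⟨T (fs z) (itr (T (fs z)) a u), mem_im.2 ⟨pair (pair (fs z) u)
          (itr (T (fs z)) a u), ?_, by rw [sn_pair]⟩, hy⟩
        rw [pair_mem_gr, fs_pair, sn_pair]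
        exact ⟨ZFSet.pair_mem_prod.2 ⟨by simp, hu⟩, rfl⟩
      · rintro ⟨c, hc, hy⟩
        obtain ⟨p, hp, rfl⟩ := mem_im.1 hc
        obtain ⟨q, hq, rfl⟩ := mem_gr.1 hp
        obtain ⟨b, hb, u, hu, rfl⟩ := ZFSet.mem_prod.1 hq
        rw [ZFSet.mem_singleton] at hb
        subst hb
        rw [sn_pair, fs_pair, sn_pair] at hy
        exact ⟨u, hu, hy⟩
  have h2 := DfnF.comp1 (f := fun z => itr (T (fs z)) a (sn z)) h1
    (F := fun w : Fin 2 → ZFSet.{0} => pair (w 0) (w 1)) (hB.pair' (DfnF.proj 0) (DfnF.proj 1))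
  simpa only [fs_pair, sn_pair] using h2

theorem Sq' {K : Set ZFSet.{0}} (hK : IsZF K) {n : ℕ} {F : (Fin n → ZFSet.{0}) → ZFSet.{0}}
    (hF : DfnF K K F) : DfnF K K fun v => Sq (F v) := by
  have h1 := dfn_itrp hK (T := fun W z => ZFSet.prod z W) (a := {∅})
    (hK.single_mem hK.empty_mem) (hK.prod' (DfnF.proj 1) (DfnF.proj 0))
  exact DfnF.comp2 (f := fun W z => itr (fun y => ZFSet.prod y W) {∅} z) h1 hF
    (DfnF.const hK.infinity)

/-! ### Codes -/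

/-- The set of the codes. -/
noncomputable def JJ : ZFSet.{0} := itr (fun z => ZFSet.prod z z) ZFSet.omega ZFSet.omega

theorem nat_mem_JJ (n : ℕ) : nat n ∈ JJ := itr_base (nat_mem_omega n)

theorem pair_mem_JJ {x y : ZFSet.{0}} (hx : x ∈ JJ) (hy : y ∈ JJ) : pair x y ∈ JJ := by
  obtain ⟨k, hk⟩ := mem_itr_omega hx
  obtain ⟨l, hl⟩ := mem_itr_omega hy
  refine mem_itr.2 (Or.inr ⟨nat (max k l), nat_mem_omega _, ZFSet.pair_mem_prod.2
    ⟨itr_mono (nat_subset (le_max_left _ _)) hk, itr_mono (nat_subset (le_max_right _ _)) hl⟩⟩)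

theorem of_pair_mem_JJ {x y : ZFSet.{0}} (h : pair x y ∈ JJ) : x ∈ JJ ∧ y ∈ JJ := by
  rcases mem_itr.1 h with h1 | ⟨u, hu, h1⟩
  · have ht : ∀ a ∈ (ZFSet.omega : ZFSet.{0}), ∀ b ∈ a, b ∈ (ZFSet.omega : ZFSet.{0}) :=
      fun a ha b hb => isOrdinal_omega.mem_trans hb ha
    have h2 : ({x, y} : ZFSet.{0}) ∈ (ZFSet.omega : ZFSet.{0}) :=
      ht _ h1 _ (by simp [pair])
    exact ⟨itr_base (ht _ h2 _ (by simp)), itr_base (ht _ h2 _ (by simp))⟩
  · obtain ⟨h2, h3⟩ := ZFSet.pair_mem_prod.1 h1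
    obtain ⟨k, rfl⟩ := mem_omega_iff.1 hu
    exact ⟨itr_mono nat_subset_omega h2, itr_mono nat_subset_omega h3⟩

theorem fs_sn_JJ {c : ZFSet.{0}} (hc : c ∈ JJ) : fs c ∈ JJ ∧ sn c ∈ JJ := by
  by_cases h : ∃ a b, c = pair a b
  · obtain ⟨a, b, rfl⟩ := h
    rw [fs_pair, sn_pair]
    exact of_pair_mem_JJ hc
  · have h1 : fs c = ∅ := by rw [fs, dif_neg h]
    have h2 : sn c = ∅ := by
      rw [sn, dif_neg]
      rintro ⟨b, a, hab⟩
      exact h ⟨_, _, hab⟩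
    rw [h1, h2]
    exact ⟨nat_mem_JJ 0, nat_mem_JJ 0⟩

/-! ### Truth -/

/-- Truth of the atomic formula `c` at the sequence `s`. -/
def AtR (R : ZFSet.{0} → ZFSet.{0} → Prop) (c s : ZFSet.{0}) : Prop :=
  (fs c = nat 0 ∧ ∃ w ∈ st s, ∃ w' ∈ st s, fs w = fs (sn c) ∧ fs w' = sn (sn c) ∧
    R (sn w) (sn w')) ∨
  (fs c ≠ nat 0 ∧ ∃ w ∈ st s, ∃ w' ∈ st s, fs w = fs (sn c) ∧ fs w' = sn (sn c) ∧ sn w = sn w')

/-- Truth of the formula with the signed code `u` of level `m` at the sequence `s`. -/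
def SM (K : Set ZFSet.{0}) : ℕ → ZFSet.{0} → ZFSet.{0} → Prop
  | 0, u, s => fs u = nat 0 ↔ AtR (fun x y => x ∈ y) (sn u) s
  | m + 1, u, s => fs u = nat 0 ↔
      ((fs (sn u) = nat 0 ∧ (SM K m (fs (sn (sn u))) s ∨ SM K m (sn (sn (sn u))) s)) ∨
        (fs (sn u) ≠ nat 0 ∧ ∃ b ∈ K, SM K m (fs (sn (sn u))) (pair s b)))

/-- The negated code. -/
noncomputable def fl (u : ZFSet.{0}) : ZFSet.{0} := open Classical in
  pair (if fs u = nat 0 then nat 1 else nat 0) (sn u)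

theorem fl_mem {u : ZFSet.{0}} (hu : u ∈ JJ) : fl u ∈ JJ := by
  unfold fl
  refine pair_mem_JJ ?_ (fs_sn_JJ hu).2
  split_ifs
  · exact nat_mem_JJ 1
  · exact nat_mem_JJ 0

theorem nat01 : nat 1 ≠ nat 0 := fun h => by
  have h1 : (1 : ℕ) = 0 := nat_injective h
  omega

theorem fs_fl {u : ZFSet.{0}} : fs (fl u) = nat 0 ↔ ¬ fs u = nat 0 := by
  rw [fl, fs_pair]
  split_ifs with h
  · exact ⟨fun h1 => absurd h1 nat01, fun h1 => absurd h h1⟩
  · exact ⟨fun _ => h, fun _ => rfl⟩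

theorem sn_fl {u : ZFSet.{0}} : sn (fl u) = sn u := by rw [fl, sn_pair]

theorem SM_fl {K : Set ZFSet.{0}} {m : ℕ} {u s : ZFSet.{0}} :
    SM K m (fl u) s ↔ ¬ SM K m u s := by
  have key : ∀ a b : Prop, (¬ a ↔ b) ↔ ¬ (a ↔ b) := fun a b => by
    by_cases h1 : a <;> by_cases h2 : b <;> simp [h1, h2]
  cases m with
  | zero =>
    simp only [SM, fs_fl, sn_fl]
    exact key _ _
  | succ m =>
    simp only [SM, fs_fl, sn_fl]
    exact key _ _

/-- The same formula at the next level. -/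
noncomputable def pd (u : ZFSet.{0}) : ZFSet.{0} := pair (nat 0) (pair (nat 0) (pair u u))

theorem pd_mem {u : ZFSet.{0}} (hu : u ∈ JJ) : pd u ∈ JJ :=
  pair_mem_JJ (nat_mem_JJ 0) (pair_mem_JJ (nat_mem_JJ 0) (pair_mem_JJ hu hu))

theorem SM_pd {K : Set ZFSet.{0}} {m : ℕ} {u s : ZFSet.{0}} :
    SM K (m + 1) (pd u) s ↔ SM K m u s := by
  simp only [SM, pd, fs_pair, sn_pair]
  simp

/-- Disjunction. -/
noncomputable def orc (u v : ZFSet.{0}) : ZFSet.{0} := pair (nat 0) (pair (nat 0) (pair u v))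

theorem orc_mem {u v : ZFSet.{0}} (hu : u ∈ JJ) (hv : v ∈ JJ) : orc u v ∈ JJ :=
  pair_mem_JJ (nat_mem_JJ 0) (pair_mem_JJ (nat_mem_JJ 0) (pair_mem_JJ hu hv))

theorem SM_orc {K : Set ZFSet.{0}} {m : ℕ} {u v s : ZFSet.{0}} :
    SM K (m + 1) (orc u v) s ↔ SM K m u s ∨ SM K m v s := by
  simp only [SM, orc, fs_pair, sn_pair]
  simp

/-- Existential quantification. -/
noncomputable def exc (u : ZFSet.{0}) : ZFSet.{0} := pair (nat 0) (pair (nat 1) (pair u u))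

theorem exc_mem {u : ZFSet.{0}} (hu : u ∈ JJ) : exc u ∈ JJ :=
  pair_mem_JJ (nat_mem_JJ 0) (pair_mem_JJ (nat_mem_JJ 1) (pair_mem_JJ hu hu))

theorem SM_exc {K : Set ZFSet.{0}} {m : ℕ} {u s : ZFSet.{0}} :
    SM K (m + 1) (exc u) s ↔ ∃ b ∈ K, SM K m u (pair s b) := by
  simp only [SM, exc, fs_pair, sn_pair]
  simp [nat01]

theorem atR_seq {R : ZFSet.{0} → ZFSet.{0} → Prop} {h : ℕ → ZFSet.{0}} {N i j : ℕ}
    {t : ZFSet.{0}} : AtR R (pair t (pair (nat i) (nat j))) (seq h N) ↔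
      i < N ∧ j < N ∧ ((t = nat 0 ∧ R (h i) (h j)) ∨ (t ≠ nat 0 ∧ h i = h j)) := by
  have key : ∀ {Q : ZFSet.{0} → ZFSet.{0} → Prop},
      (∃ w ∈ st (seq h N), ∃ w' ∈ st (seq h N), fs w = nat i ∧ fs w' = nat j ∧
        Q (sn w) (sn w')) ↔ i < N ∧ j < N ∧ Q (h i) (h j) := by
    intro Q
    constructor
    · rintro ⟨w, hw, w', hw', h1, h2, h3⟩
      obtain ⟨k, hk, rfl⟩ := mem_st.1 hw
      obtain ⟨l, hl, rfl⟩ := mem_st.1 hw'
      rw [fs_pair] at h1 h2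
      rw [sn_pair, sn_pair] at h3
      rw [nat_injective h1] at hk h3
      rw [nat_injective h2] at hl h3
      exact ⟨hk, hl, h3⟩
    · rintro ⟨h1, h2, h3⟩
      exact ⟨_, mem_st.2 ⟨i, h1, rfl⟩, _, mem_st.2 ⟨j, h2, rfl⟩, fs_pair _ _, fs_pair _ _, by
        rwa [sn_pair, sn_pair]⟩
  rw [AtR, fs_pair, sn_pair, fs_pair, sn_pair, key, key (Q := fun x y => x = y)]
  tauto

/-! ### Definability of truth at a fixed level -/

section

variable {K : Set ZFSet.{0}} (hK : IsZF K)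

include hK

theorem JJ_mem : JJ ∈ K :=
  itr_mem_M hK hK.infinity hK.infinity (hK.prod' (DfnF.proj 0) (DfnF.proj 0))

theorem dfn_AtM : Dfn K K fun w : Fin 2 → ZFSet.{0} => AtR (fun x y => x ∈ y) (w 0) (w 1) := by
  have hB := hK.base
  have hst := dfn_st hK
  have h0 := hK.nat_mem 0
  have hs : ∀ {n : ℕ} {F : (Fin n → ZFSet.{0}) → ZFSet.{0}}, DfnF K K F →
      DfnF K K fun v => st (F v) := fun hF => DfnF.comp1 (f := st) hst hF
  unfold AtR
  (repeat' first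
      | assumption
      | exact DfnF.proj _
      | exact DfnF.const (by assumption)
      | apply Dfn.not | apply Dfn.and | apply Dfn.or
      | apply hB.bex
      | apply Dfn.eq | apply Dfn.mem | apply hB.pair' | apply hK.fs' | apply hs | apply hK.sn')

theorem dfn_AtE : Dfn K K fun w : Fin 3 → ZFSet.{0} =>
    AtR (fun x y => pair x y ∈ w 0) (w 1) (w 2) := by
  have hB := hK.base
  have hst := dfn_st hK
  have h0 := hK.nat_mem 0
  have hs : ∀ {n : ℕ} {F : (Fin n → ZFSet.{0}) → ZFSet.{0}}, DfnF K K F →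
      DfnF K K fun v => st (F v) := fun hF => DfnF.comp1 (f := st) hst hF
  unfold AtR
  (repeat' first
      | assumption
      | exact DfnF.proj _
      | exact DfnF.const (by assumption)
      | apply Dfn.not | apply Dfn.and | apply Dfn.or
      | apply hB.bex
      | apply Dfn.eq | apply Dfn.mem | apply hB.pair' | apply hK.fs' | apply hs | apply hK.sn')

theorem dfn_SM (m : ℕ) : Dfn K K fun w : Fin 2 → ZFSet.{0} => SM K m (w 0) (w 1) := by
  have hB := hK.base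
  have h0 := hK.nat_mem 0
  induction m with
  | zero =>
    simp only [SM]
    refine (Dfn.eq (hK.fs' (DfnF.proj 0)) (DfnF.const h0)).iff ?_
    exact Dfn.comp2 (Q := fun c s => AtR (fun x y => x ∈ y) c s) (dfn_AtM hK)
      (hK.sn' (DfnF.proj 0)) (DfnF.proj 1)
  | succ m ih =>
    simp only [SM]
    have h1 : ∀ {n : ℕ} {F G : (Fin n → ZFSet.{0}) → ZFSet.{0}}, DfnF K K F → DfnF K K G →
        Dfn K K fun v => SM K m (F v) (G v) := fun hF hG => Dfn.comp2 (Q := SM K m) ih hF hG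
    (repeat' first
      | assumption
      | exact DfnF.proj _
      | exact DfnF.const (by assumption)
      | apply Dfn.iff | apply Dfn.not | apply Dfn.and | apply Dfn.or
      | apply Dfn.ex
      | apply h1
      | apply Dfn.eq | apply Dfn.mem | apply hB.pair' | apply hK.fs' | apply hK.sn')

end

/-! ### Reflecting sets -/

/-- The set `x` reflects the existential statements of level `n` with parameters from `x`. -/
def Kn (K : Set ZFSet.{0}) (n : ℕ) (x : ZFSet.{0}) : Prop :=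
  ∀ u ∈ JJ, ∀ s ∈ Sq x, (∃ b ∈ K, SM K n u (pair s b)) → ∃ b ∈ x, SM K n u (pair s b)

theorem Kn_succ {K : Set ZFSet.{0}} {n : ℕ} {x : ZFSet.{0}} (h : Kn K (n + 1) x) : Kn K n x := by
  intro u hu s hs h1
  have h2 := h (pd u) (pd_mem hu) s hs
  simp only [SM_pd] at h2
  exact h2 h1

theorem Kn_mono {K : Set ZFSet.{0}} {n m : ℕ} (hnm : n ≤ m) {x : ZFSet.{0}} (h : Kn K m x) :
    Kn K n x := by
  induction m, hnm using Nat.le_induction with
  | base => exact h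
  | succ m _ ih => exact ih (Kn_succ h)

theorem Sq_mono {x y : ZFSet.{0}} (h : x ⊆ y) : Sq x ⊆ Sq y := by
  have h1 : ∀ s ∈ Sq x, s ∈ Sq y :=
    Sq_ind empty_mem_Sq fun t _ a ha ih => pair_mem_Sq ih (h ha)
  exact fun s hs => h1 s hs

theorem exists_Kn {K : Set ZFSet.{0}} (hK : IsZF K) (n : ℕ) {y : ZFSet.{0}} (hy : y ∈ K) :
    ∃ x ∈ K, y ⊆ x ∧ Kn K n x := by
  have hB := hK.base
  have hJ := JJ_mem hK
  set T : ZFSet.{0} → ZFSet.{0} := fun z => ZFSet.sUnion (im (fun w =>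
    wt K fun b => SM K n (fs w) (pair (sn w) b)) (ZFSet.prod JJ (Sq z))) with hT
  have hd : DfnF K K fun w : Fin 1 → ZFSet.{0} => T (w 0) := by
    refine hB.sUnion' (hK.im' (h := fun w _ => wt K fun b => SM K n (fs w) (pair (sn w) b))
      (hK.prod' (DfnF.const hJ) (Sq' hK (DfnF.proj 0))) ?_)
    refine wt' hK (Q := fun b w => SM K n (fs (w 0)) (pair (sn (w 0)) b)) ?_
    exact Dfn.comp2 (Q := SM K n) (dfn_SM hK n) (hK.fs' (DfnF.proj 1))
      (hB.pair' (hK.sn' (DfnF.proj 1)) (DfnF.proj 0))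
  refine ⟨itr T y ZFSet.omega, itr_mem_M hK hy hK.infinity hd, itr_base, ?_⟩
  intro u hu s hs h1
  have h2 : ∀ s ∈ Sq (itr T y ZFSet.omega), ∃ k : ℕ, s ∈ Sq (itr T y (nat k)) := by
    refine Sq_ind ⟨0, empty_mem_Sq⟩ ?_
    rintro t - a ha ⟨k, hk⟩
    obtain ⟨l, hl⟩ := mem_itr_omega ha
    refine ⟨max k l, pair_mem_Sq (Sq_mono (itr_mono (nat_subset (le_max_left _ _))) hk)
      (itr_mono (nat_subset (le_max_right _ _)) hl)⟩
  obtain ⟨k, hk⟩ := h2 s hs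
  obtain ⟨b, hb⟩ := wt_ne hK h1
  refine ⟨b, mem_itr.2 (Or.inr ⟨nat k, nat_mem_omega k, ?_⟩), (wt_spec hb).2⟩
  rw [hT, ZFSet.mem_sUnion]
  refine ⟨_, mem_im.2 ⟨pair u s, ZFSet.pair_mem_prod.2 ⟨hu, hk⟩, rfl⟩, ?_⟩
  rw [fs_pair, sn_pair]
  exact hb

/-! ### Codes for formulas -/

/-- The sequence `s` followed by the tuple `v`. -/
noncomputable def cd (s : ZFSet.{0}) : {n : ℕ} → (Fin n → ZFSet.{0}) → ZFSet.{0}
  | 0, _ => s
  | _ + 1, v => pair (cd s (Fin.tail v)) (v 0)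

theorem cd_cons (s b : ZFSet.{0}) {n : ℕ} (v : Fin n → ZFSet.{0}) :
    cd s (Fin.cons b v : Fin (n + 1) → ZFSet.{0}) = pair (cd s v) b := rfl

theorem cd_seq (g : ℕ → ZFSet.{0}) (k : ℕ) : {n : ℕ} → (v : Fin n → ZFSet.{0}) →
    ∃ h : ℕ → ZFSet.{0}, cd (seq g k) v = seq h (k + n) ∧ (∀ j < k, h j = g j) ∧
      ∀ i : Fin n, h (k + (n - 1 - i)) = v i
  | 0, v => ⟨g, rfl, fun _ _ => rfl, fun i => i.elim0⟩
  | n + 1, v => by
    obtain ⟨h, h1, h2, h3⟩ := cd_seq g k (Fin.tail v)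
    refine ⟨fun j => if j = k + n then v 0 else h j, ?_, ?_, ?_⟩
    · rw [cd, h1, ← add_assoc, seq]
      simp only [if_true]
      rw [seq_congr]
      intro j hj
      rw [if_neg (by omega)]
    · intro j hj
      simp only
      rw [if_neg (by omega), h2 j hj]
    · intro i
      refine Fin.cases ?_ (fun i => ?_) i
      · simp
      · have h4 := h3 i
        simp only [Fin.val_succ]
        have h5 := i.2
        have h6 : k + (n + 1 - 1 - (i.1 + 1)) = k + (n - 1 - i.1) := by omega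
        rw [h6, if_neg (by omega)]
        exact h4

theorem cd_mem {x s : ZFSet.{0}} (hs : s ∈ Sq x) : {n : ℕ} → (v : Fin n → ZFSet.{0}) →
    (∀ i, v i ∈ x) → cd s v ∈ Sq x
  | 0, _, _ => hs
  | n + 1, v, h => pair_mem_Sq (cd_mem hs (Fin.tail v) fun i => h i.succ) (h 0)

theorem pad {K : Set ZFSet.{0}} {m m' : ℕ} (h : m ≤ m') {u : ZFSet.{0}} (hu : u ∈ JJ) :
    ∃ u' ∈ JJ, ∀ s, SM K m' u' s ↔ SM K m u s := by
  induction m', h using Nat.le_induction with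
  | base => exact ⟨u, hu, fun _ => Iff.rfl⟩
  | succ m' _ ih =>
    obtain ⟨u', hu', h1⟩ := ih
    exact ⟨pd u', pd_mem hu', fun s => SM_pd.trans (h1 s)⟩

/-- The formulas with parameters `g j`, `j < k`, have codes. -/
theorem exists_code (K : Set ZFSet.{0}) (g : ℕ → ZFSet.{0}) (k : ℕ) : {n : ℕ} →
    (φ : Fml ZFSet.{0} n) → φ.Over {a | ∃ j < k, a = g j} →
    ∃ m₀, ∀ m ≥ m₀, ∃ u ∈ JJ, ∀ v : Fin n → ZFSet.{0},
      (Sat K id φ v ↔ SM K m u (cd (seq g k) v)) := by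
  have hterm : ∀ {n : ℕ} (t : Fin n ⊕ ZFSet.{0}), TOver {a | ∃ j < k, a = g j} t →
      ∃ i, ∀ (v : Fin n → ZFSet.{0}) (h : ℕ → ZFSet.{0}), (∀ j < k, h j = g j) →
        (∀ i : Fin n, h (k + (n - 1 - i)) = v i) → i < k + n ∧ h i = Sum.elim v id t := by
    intro n t ht
    cases t with
    | inl i =>
      refine ⟨k + (n - 1 - i), fun v h h1 h2 => ⟨?_, h2 i⟩⟩
      have := i.2
      omega
    | inr a =>
      obtain ⟨j, hj, rfl⟩ := ht a rfl
      exact ⟨j, fun v h h1 h2 => ⟨by omega, h1 j hj⟩⟩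
  have hneg : ∀ {n : ℕ} {R : (Fin n → ZFSet.{0}) → Prop} {m₀ : ℕ},
      (∀ m ≥ m₀, ∃ u ∈ JJ, ∀ v : Fin n → ZFSet.{0}, (R v ↔ SM K m u (cd (seq g k) v))) →
      ∀ m ≥ m₀, ∃ u ∈ JJ, ∀ v : Fin n → ZFSet.{0}, (¬ R v ↔ SM K m u (cd (seq g k) v)) := by
    intro n R m₀ h m hm
    obtain ⟨u, hu, h1⟩ := h m hm
    exact ⟨fl u, fl_mem hu, fun v => by rw [SM_fl, h1]⟩
  have hatom : ∀ {n : ℕ} {R : (Fin n → ZFSet.{0}) → Prop},
      (∃ u ∈ JJ, ∀ v : Fin n → ZFSet.{0}, (R v ↔ SM K 0 u (cd (seq g k) v))) →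
      ∃ m₀, ∀ m ≥ m₀, ∃ u ∈ JJ, ∀ v : Fin n → ZFSet.{0},
        (R v ↔ SM K m u (cd (seq g k) v)) := by
    rintro n R ⟨u, hu, h1⟩
    refine ⟨0, fun m hm => ?_⟩
    obtain ⟨u', hu', h2⟩ := pad (K := K) (Nat.zero_le m) hu
    exact ⟨u', hu', fun v => by rw [h2, h1]⟩
  intro n φ
  induction φ with
  | @mem n s t =>
    intro h
    obtain ⟨i, hi⟩ := hterm s h.1
    obtain ⟨j, hj⟩ := hterm t h.2
    refine hatom ⟨pair (nat 0) (pair (nat 0) (pair (nat i) (nat j))), pair_mem_JJ (nat_mem_JJ 0)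
      (pair_mem_JJ (nat_mem_JJ 0) (pair_mem_JJ (nat_mem_JJ i) (nat_mem_JJ j))), fun v => ?_⟩
    obtain ⟨h', h1, h2, h3⟩ := cd_seq g k v
    rw [h1]
    obtain ⟨h4, h5⟩ := hi v h' h2 h3
    obtain ⟨h6, h7⟩ := hj v h' h2 h3
    simp only [SM, fs_pair, sn_pair, atR_seq, Sat, h4, h6, h5, h7]
    simp
  | @eq n s t =>
    intro h
    obtain ⟨i, hi⟩ := hterm s h.1
    obtain ⟨j, hj⟩ := hterm t h.2
    refine hatom ⟨pair (nat 0) (pair (nat 1) (pair (nat i) (nat j))), pair_mem_JJ (nat_mem_JJ 0)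
      (pair_mem_JJ (nat_mem_JJ 1) (pair_mem_JJ (nat_mem_JJ i) (nat_mem_JJ j))), fun v => ?_⟩
    obtain ⟨h', h1, h2, h3⟩ := cd_seq g k v
    rw [h1]
    obtain ⟨h4, h5⟩ := hi v h' h2 h3
    obtain ⟨h6, h7⟩ := hj v h' h2 h3
    simp only [SM, fs_pair, sn_pair, atR_seq, Sat, h4, h6, h5, h7]
    simp [nat01]
  | neg φ ih =>
    intro h
    obtain ⟨m₀, h1⟩ := ih h
    exact ⟨m₀, hneg h1⟩
  | and φ ψ ih ih' =>
    intro h
    obtain ⟨m₀, h1⟩ := ih h.1
    obtain ⟨m₁, h2⟩ := ih' h.2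
    refine ⟨max m₀ m₁ + 1, fun m hm => ?_⟩
    obtain ⟨l, rfl⟩ : ∃ l, m = l + 1 := ⟨m - 1, by omega⟩
    obtain ⟨u, hu, h3⟩ := hneg h1 l (by omega)
    obtain ⟨u', hu', h4⟩ := hneg h2 l (by omega)
    refine ⟨fl (orc u u'), fl_mem (orc_mem hu hu'), fun v => ?_⟩
    rw [SM_fl, SM_orc, ← h3, ← h4]
    simp only [Sat]
    tauto
  | ex φ ih =>
    intro h
    obtain ⟨m₀, h1⟩ := ih h
    refine ⟨m₀ + 1, fun m hm => ?_⟩
    obtain ⟨l, rfl⟩ : ∃ l, m = l + 1 := ⟨m - 1, by omega⟩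
    obtain ⟨u, hu, h2⟩ := h1 l (by omega)
    refine ⟨exc u, exc_mem hu, fun v => ?_⟩
    rw [SM_exc]
    simp only [Sat]
    refine exists_congr fun a => and_congr_right fun _ => ?_
    rw [h2, cd_cons]

/-- Sets that reflect the statements of high level reflect a given formula. -/
theorem reflect (K : Set ZFSet.{0}) (g : ℕ → ZFSet.{0}) (k : ℕ) {n : ℕ}
    (φ : Fml ZFSet.{0} (n + 1)) (hφ : φ.Over {a | ∃ j < k, a = g j}) :
    ∃ m₀, ∀ m ≥ m₀, ∀ x, Kn K m x → (∀ j < k, g j ∈ x) → ∀ v : Fin n → ZFSet.{0},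
      (∀ i, v i ∈ x) → (∃ b ∈ K, Sat K id φ (Fin.cons b v)) → ∃ b ∈ x,
        Sat K id φ (Fin.cons b v) := by
  obtain ⟨m₀, h⟩ := exists_code K g k φ hφ
  refine ⟨m₀, fun m hm x hx hg v hv h1 => ?_⟩
  obtain ⟨u, hu, h2⟩ := h m hm
  have h3 := hx u hu (cd (seq g k) v) (cd_mem (seq_mem_Sq hg) v hv)
  simp only [h2, cd_cons] at h1 ⊢
  exact h3 h1

end Pool.Agent.R597
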