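import Pool.Agent.R597.GBDefs

/-!
# Friedman's class forcing `F`, and the truth lemma for class forcings: the definitions

A countable transitive model is given by a set `M`, it is viewed as the structure `(M, ∈)`. The
definable classes of it are sets as well.
-/

set_option autoImplicit false

namespace Pool.Agent.R597

open Pool.Agent.W868 Pool.Agent.W868.GM
open ZFSet (pair)

/-- The set of the subsets of `M` that are definable over `(M, ∈)` with parameters from `M`. -/
noncomputable def DefC (M : ZFSet.{0}) : ZFSet.{0} :=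
  ZFSet.sep (fun D => ∃ φ : Fml ZFSet.{0} 1, φ.Over {x | x ∈ M} ∧
    ∀ x ∈ M, x ∈ D ↔ Sat {x | x ∈ M} id φ ![x]) (ZFSet.powerset M)

/-- The truth lemma for the formula `φ` without parameters and the class forcing `P` with the
order `Le` over `M`. The generic filters are those that meet all the definable dense classes. -/
def TruthLemma (M P Le : ZFSet.{0}) {n : ℕ} (φ : Fml Empty n) : Prop :=
  ∀ v : Fin n → ZFSet.{0}, (∀ i, v i ∈ M ∧ IsName P (v i)) → ∀ G, IsGen (DefC M) P Le G →
    Sat (Mext M P G) Empty.elim φ (fun i => ev G (v i)) →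
    ∃ p ∈ G, ∀ G', IsGen (DefC M) P Le G' → p ∈ G' →
      Sat (Mext M P G') Empty.elim φ fun i => ev G' (v i)

/-- `(d, e, f)` is a condition of Friedman's forcing: `d` is a finite set of natural numbers, `e`
is an acyclic relation on `d`, `f` is an injective function with domain `∅` or `d` and values in
`M`, and if the domain is `d` then `i e j` if and only if `f i ∈ f j`. -/
structure IsCond (M : Set ZFSet.{0}) (d e f : ZFSet.{0}) : Prop where
  sub : d ⊆ ZFSet.omega
  fin : {i | i ∈ d}.Finite
  rel : e ⊆ ZFSet.prod d d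
  acyclic : ∀ i, ¬ Relation.TransGen (fun i j => pair i j ∈ e) i i
  func : ∀ w ∈ f, ∃ i, ∃ a ∈ M, w = pair i a
  inj : ∀ i a j b, pair i a ∈ f → pair j b ∈ f → (i = j ↔ a = b)
  dom : f = ∅ ∨ ∀ i, i ∈ d ↔ ∃ a, pair i a ∈ f
  coh : (∀ i, i ∈ d ↔ ∃ a, pair i a ∈ f) →
    ∀ i a j b, pair i a ∈ f → pair j b ∈ f → (pair i j ∈ e ↔ a ∈ b)

/-- The conditions of Friedman's forcing. -/
noncomputable def FP (M : ZFSet.{0}) : ZFSet.{0} :=
  ZFSet.sep (fun p => ∃ d e f, p = pair d (pair e f) ∧ IsCond {x | x ∈ M} d e f) M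

/-- The order of Friedman's forcing. -/
noncomputable def FL (M : ZFSet.{0}) : ZFSet.{0} :=
  ZFSet.sep (fun u => ∃ d e f d' e' f', u = pair (pair d' (pair e' f')) (pair d (pair e f)) ∧
    d ⊆ d' ∧ e' ∩ ZFSet.prod d d = e ∧ f ⊆ f') (ZFSet.prod (FP M) (FP M))

end Pool.Agent.R597
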