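import Pool.Agent.R597.Fr1
import Pool.Agent.R597.FrDefs

/-!
# The conditions of Friedman's forcing
-/

set_option autoImplicit false
set_option linter.unreachableTactic false
set_option linter.unusedTactic false
set_option linter.unusedSectionVars false
set_option linter.unusedVariables false

namespace Pool.Agent.R597

open Pool.Agent.W868 Pool.Agent.W868.GM Pool.Agent.Y588
open ZFSet (pair)

/-! ### Finite sets -/

/-- The class `S` contains `∅` and is closed under `insert`. -/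
structure Cls (S : Set ZFSet.{0}) : Prop where
  zero : ∅ ∈ S
  ins : ∀ a ∈ S, ∀ b ∈ S, (insert a b : ZFSet.{0}) ∈ S

theorem IsZF.cls {K : Set ZFSet.{0}} (hK : IsZF K) : Cls K :=
  ⟨hK.empty_mem, fun _ ha _ hb => hK.insert_mem ha hb⟩

namespace Cls

variable {S : Set ZFSet.{0}} (hS : Cls S)

include hS

theorem fin_mem {Y : ZFSet.{0}} (hf : {y | y ∈ Y}.Finite) (hY : ∀ y ∈ Y, y ∈ S) : Y ∈ S := by
  have h : ∀ A : Set ZFSet.{0}, A.Finite → (∀ y ∈ A, y ∈ S) → ∃ X ∈ S, ∀ z, z ∈ X ↔ z ∈ A := by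
    intro A hA
    refine Set.Finite.induction_on (motive := fun A _ => (∀ y ∈ A, y ∈ S) →
      ∃ X ∈ S, ∀ z, z ∈ X ↔ z ∈ A) A hA ?_ ?_
    · intro _
      exact ⟨∅, hS.zero, fun z => by simp⟩
    · intro a s _ _ ih h1
      obtain ⟨X, hX, h2⟩ := ih fun y hy => h1 y (Set.mem_insert_of_mem _ hy)
      refine ⟨insert a X, hS.ins a (h1 a (Set.mem_insert _ _)) X hX, fun z => ?_⟩
      rw [ZFSet.mem_insert_iff, Set.mem_insert_iff, h2]
  obtain ⟨X, hX, h1⟩ := h _ hf hY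
  have h2 : Y = X := by
    ext z
    rw [h1]
    rfl
  rw [h2]
  exact hX

theorem single {a : ZFSet.{0}} (ha : a ∈ S) : ({a} : ZFSet.{0}) ∈ S := by
  have h := hS.ins a ha ∅ hS.zero
  have h1 : (insert a ∅ : ZFSet.{0}) = {a} := by
    ext z
    simp
  rwa [h1] at h

theorem upair {a b : ZFSet.{0}} (ha : a ∈ S) (hb : b ∈ S) : ({a, b} : ZFSet.{0}) ∈ S :=
  hS.ins a ha _ (hS.single hb)

theorem pair {a b : ZFSet.{0}} (ha : a ∈ S) (hb : b ∈ S) : ZFSet.pair a b ∈ S :=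
  hS.upair (hS.single ha) (hS.upair ha hb)

theorem nat (n : ℕ) : W868.nat n ∈ S := by
  induction n with
  | zero => exact hS.zero
  | succ n ih => exact hS.ins _ ih _ ih

end Cls

/-- The set of the `F i` for `i ∈ d`. -/
noncomputable def rng (d : Finset ℕ) (F : ℕ → ZFSet.{0}) : ZFSet.{0} :=
  ZFSet.range fun i : {i // i ∈ d} => F i.1

theorem mem_rng {d : Finset ℕ} {F : ℕ → ZFSet.{0}} {z : ZFSet.{0}} :
    z ∈ rng d F ↔ ∃ i ∈ d, z = F i := by
  rw [rng, ZFSet.mem_range]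
  constructor
  · rintro ⟨⟨i, hi⟩, rfl⟩
    exact ⟨i, hi, rfl⟩
  · rintro ⟨i, hi, rfl⟩
    exact ⟨⟨i, hi⟩, rfl⟩

theorem rng_fin (d : Finset ℕ) (F : ℕ → ZFSet.{0}) : {z | z ∈ rng d F}.Finite := by
  have h : {z | z ∈ rng d F} ⊆ F '' (d : Set ℕ) := by
    intro z hz
    obtain ⟨i, hi, rfl⟩ := mem_rng.1 hz
    exact ⟨i, hi, rfl⟩
  exact (d.finite_toSet.image F).subset h

/-! ### Full conditions -/

/-- The relation of the condition given by `d` and `g`. -/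
noncomputable def eR (d : Finset ℕ) (g : ℕ → ZFSet.{0}) : ZFSet.{0} :=
  ZFSet.sep (fun w => ∃ i ∈ d, ∃ j ∈ d, w = pair (nat i) (nat j) ∧ g i ∈ g j)
    (ZFSet.prod (rng d nat) (rng d nat))

theorem mem_eR {d : Finset ℕ} {g : ℕ → ZFSet.{0}} {w : ZFSet.{0}} :
    w ∈ eR d g ↔ ∃ i ∈ d, ∃ j ∈ d, w = pair (nat i) (nat j) ∧ g i ∈ g j := by
  rw [eR, ZFSet.mem_sep]
  refine ⟨fun h => h.2, fun h => ⟨?_, h⟩⟩
  obtain ⟨i, hi, j, hj, rfl, -⟩ := h
  exact ZFSet.pair_mem_prod.2 ⟨mem_rng.2 ⟨i, hi, rfl⟩, mem_rng.2 ⟨j, hj, rfl⟩⟩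

theorem pair_mem_eR {d : Finset ℕ} {g : ℕ → ZFSet.{0}} {i j : ℕ} :
    pair (nat i) (nat j) ∈ eR d g ↔ i ∈ d ∧ j ∈ d ∧ g i ∈ g j := by
  rw [mem_eR]
  constructor
  · rintro ⟨i', hi, j', hj, h, h1⟩
    obtain ⟨h2, h3⟩ := ZFSet.pair_inj.1 h
    rw [nat_injective h2, nat_injective h3]
    exact ⟨hi, hj, h1⟩
  · rintro ⟨hi, hj, h⟩
    exact ⟨i, hi, j, hj, rfl, h⟩

/-- The condition given by a finite set `d` and an injective function `g` on `d`. -/
noncomputable def cnd (d : Finset ℕ) (g : ℕ → ZFSet.{0}) : ZFSet.{0} :=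
  pair (rng d nat) (pair (eR d g) (rng d fun i => pair (nat i) (g i)))

theorem cnd_cls {S : Set ZFSet.{0}} (hS : Cls S) {d : Finset ℕ} {g : ℕ → ZFSet.{0}}
    (hg : ∀ i ∈ d, g i ∈ S) : cnd d g ∈ S := by
  refine hS.pair (hS.fin_mem (rng_fin _ _) fun y hy => ?_) (hS.pair (hS.fin_mem ?_ fun y hy => ?_)
    (hS.fin_mem (rng_fin _ _) fun y hy => ?_))
  · obtain ⟨i, hi, rfl⟩ := mem_rng.1 hy
    exact hS.nat i
  · have h : {y | y ∈ eR d g} ⊆ (fun p : ℕ × ℕ => pair (nat p.1) (nat p.2)) ''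
        ((d ×ˢ d : Finset (ℕ × ℕ)) : Set (ℕ × ℕ)) := by
      intro y hy
      obtain ⟨i, hi, j, hj, rfl, -⟩ := mem_eR.1 hy
      exact ⟨(i, j), by simp [hi, hj], rfl⟩
    exact ((Finset.finite_toSet _).image _).subset h
  · obtain ⟨i, hi, j, hj, rfl, -⟩ := mem_eR.1 hy
    exact hS.pair (hS.nat i) (hS.nat j)
  · obtain ⟨i, hi, rfl⟩ := mem_rng.1 hy
    exact hS.pair (hS.nat i) (hg i hi)

/-- `g` is injective on `d` and has values in `K`. -/
structure Ok (K : Set ZFSet.{0}) (d : Finset ℕ) (g : ℕ → ZFSet.{0}) : Prop where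
  inj : ∀ i ∈ d, ∀ j ∈ d, g i = g j → i = j
  mem : ∀ i ∈ d, g i ∈ K

theorem cnd_isCond {K : Set ZFSet.{0}} {d : Finset ℕ} {g : ℕ → ZFSet.{0}} (h : Ok K d g) :
    IsCond K (rng d nat) (eR d g) (rng d fun i => pair (nat i) (g i)) where
  sub z hz := by
    obtain ⟨i, hi, rfl⟩ := mem_rng.1 hz
    exact nat_mem_omega i
  fin := rng_fin _ _
  rel w hw := (ZFSet.mem_sep.1 hw).1
  acyclic := by
    have key : ∀ x y, Relation.TransGen (fun i j => pair i j ∈ eR d g) x y →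
        ∃ i ∈ d, ∃ j ∈ d, x = nat i ∧ y = nat j ∧ (g i).rank < (g j).rank := by
      intro x y hxy
      induction hxy with
      | single h1 =>
        obtain ⟨i, hi, j, hj, h2, h3⟩ := mem_eR.1 h1
        obtain ⟨rfl, rfl⟩ := ZFSet.pair_inj.1 h2
        exact ⟨i, hi, j, hj, rfl, rfl, ZFSet.rank_lt_of_mem h3⟩
      | tail _ h1 ih =>
        obtain ⟨i, hi, j, hj, h4, h5, h6⟩ := ih
        obtain ⟨i', hi', j', hj', h2, h3⟩ := mem_eR.1 h1
        obtain ⟨h7, rfl⟩ := ZFSet.pair_inj.1 h2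
        rw [h7] at h5
        rw [nat_injective h5] at h3
        exact ⟨i, hi, j', hj', h4, rfl, h6.trans (ZFSet.rank_lt_of_mem h3)⟩
    intro x hx
    obtain ⟨i, hi, j, hj, h1, h2, h3⟩ := key x x hx
    rw [h1] at h2
    rw [nat_injective h2] at h3
    exact lt_irrefl _ h3
  func w hw := by
    obtain ⟨i, hi, rfl⟩ := mem_rng.1 hw
    exact ⟨nat i, g i, h.mem i hi, rfl⟩
  inj x a y b hxa hyb := by
    obtain ⟨i, hi, h1⟩ := mem_rng.1 hxa
    obtain ⟨j, hj, h2⟩ := mem_rng.1 hyb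
    obtain ⟨rfl, rfl⟩ := ZFSet.pair_inj.1 h1
    obtain ⟨rfl, rfl⟩ := ZFSet.pair_inj.1 h2
    constructor
    · intro h3
      rw [nat_injective h3]
    · intro h3
      rw [h.inj i hi j hj h3]
  dom := Or.inr fun x => by
    constructor
    · intro hx
      obtain ⟨i, hi, rfl⟩ := mem_rng.1 hx
      exact ⟨g i, mem_rng.2 ⟨i, hi, rfl⟩⟩
    · rintro ⟨a, ha⟩
      obtain ⟨i, hi, h1⟩ := mem_rng.1 ha
      rw [(ZFSet.pair_inj.1 h1).1]
      exact mem_rng.2 ⟨i, hi, rfl⟩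
  coh _ x a y b hxa hyb := by
    obtain ⟨i, hi, h1⟩ := mem_rng.1 hxa
    obtain ⟨j, hj, h2⟩ := mem_rng.1 hyb
    obtain ⟨rfl, rfl⟩ := ZFSet.pair_inj.1 h1
    obtain ⟨rfl, rfl⟩ := ZFSet.pair_inj.1 h2
    rw [pair_mem_eR]
    exact ⟨fun h3 => h3.2.2, fun h3 => ⟨hi, hj, h3⟩⟩

theorem mem_FP {M p : ZFSet.{0}} : p ∈ FP M ↔ p ∈ M ∧ ∃ d e f, p = pair d (pair e f) ∧
    IsCond {x | x ∈ M} d e f := ZFSet.mem_sep

theorem mem_FL {M d e f d' e' f' : ZFSet.{0}} :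
    pair (pair d' (pair e' f')) (pair d (pair e f)) ∈ FL M ↔
      pair d' (pair e' f') ∈ FP M ∧ pair d (pair e f) ∈ FP M ∧
      d ⊆ d' ∧ e' ∩ ZFSet.prod d d = e ∧ f ⊆ f' := by
  rw [FL, ZFSet.mem_sep, ZFSet.pair_mem_prod]
  constructor
  · rintro ⟨⟨h1, h2⟩, d₁, e₁, f₁, d₂, e₂, f₂, h3, h4⟩
    obtain ⟨h5, h6⟩ := ZFSet.pair_inj.1 h3
    obtain ⟨rfl, h7⟩ := ZFSet.pair_inj.1 h5
    obtain ⟨rfl, h8⟩ := ZFSet.pair_inj.1 h6
    obtain ⟨rfl, rfl⟩ := ZFSet.pair_inj.1 h7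
    obtain ⟨rfl, rfl⟩ := ZFSet.pair_inj.1 h8
    exact ⟨h1, h2, h4⟩
  · rintro ⟨h1, h2, h3⟩
    exact ⟨⟨h1, h2⟩, d, e, f, d', e', f', rfl, h3⟩

section

variable {M : ZFSet.{0}} (hM : IsZF {x | x ∈ M})

include hM

theorem cnd_mem {d : Finset ℕ} {g : ℕ → ZFSet.{0}} (h : Ok {x | x ∈ M} d g) :
    cnd d g ∈ FP M :=
  mem_FP.2 ⟨cnd_cls (IsZF.cls hM) h.mem, _, _, _, rfl, cnd_isCond h⟩

theorem cnd_le {d d' : Finset ℕ} {g g' : ℕ → ZFSet.{0}} (h : Ok {x | x ∈ M} d g)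
    (h' : Ok {x | x ∈ M} d' g') (hd : d ⊆ d') (hg : ∀ i ∈ d, g' i = g i) :
    pair (cnd d' g') (cnd d g) ∈ FL M := by
  refine mem_FL.2 ⟨cnd_mem hM h', cnd_mem hM h, fun z hz => ?_, ?_, fun z hz => ?_⟩
  · obtain ⟨i, hi, rfl⟩ := mem_rng.1 hz
    exact mem_rng.2 ⟨i, hd hi, rfl⟩
  · ext w
    rw [ZFSet.mem_inter]
    constructor
    · rintro ⟨h1, h2⟩
      obtain ⟨x, hx, y, hy, rfl⟩ := ZFSet.mem_prod.1 h2
      obtain ⟨i, hi, rfl⟩ := mem_rng.1 hx
      obtain ⟨j, hj, rfl⟩ := mem_rng.1 hy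
      rw [pair_mem_eR] at h1 ⊢
      rw [hg i hi, hg j hj] at h1
      exact ⟨hi, hj, h1.2.2⟩
    · intro h1
      refine ⟨?_, (ZFSet.mem_sep.1 h1).1⟩
      obtain ⟨i, hi, j, hj, rfl, h2⟩ := mem_eR.1 h1
      rw [pair_mem_eR, hg i hi, hg j hj]
      exact ⟨hd hi, hd hj, h2⟩
  · obtain ⟨i, hi, rfl⟩ := mem_rng.1 hz
    exact mem_rng.2 ⟨i, hd hi, by rw [hg i hi]⟩

/-- Conditions whose function is total are given by a finite set and a function. -/
theorem full_eq {d e f : ZFSet.{0}} (h : IsCond {x | x ∈ M} d e f)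
    (hd : ∀ i, i ∈ d ↔ ∃ a, pair i a ∈ f) :
    ∃ (d' : Finset ℕ) (g : ℕ → ZFSet.{0}), Ok {x | x ∈ M} d' g ∧
      pair d (pair e f) = cnd d' g := by
  classical
  have hfin : {i : ℕ | nat i ∈ d}.Finite := h.fin.preimage nat_injective.injOn
  have hval : ∀ i : ℕ, ∃ a, nat i ∈ d → pair (nat i) a ∈ f := by
    intro i
    by_cases hi : nat i ∈ d
    · obtain ⟨a, ha⟩ := (hd _).1 hi
      exact ⟨a, fun _ => ha⟩
    · exact ⟨∅, fun h => absurd h hi⟩
  choose g hg using hval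
  have hmem : ∀ i, i ∈ hfin.toFinset ↔ nat i ∈ d := fun i => by simp
  have hgM : ∀ i ∈ hfin.toFinset, g i ∈ M := by
    intro i hi
    obtain ⟨j, a, ha, h1⟩ := h.func _ (hg i ((hmem i).1 hi))
    rw [(ZFSet.pair_inj.1 h1).2]
    exact ha
  refine ⟨hfin.toFinset, g, ⟨fun i hi j hj hij => ?_, hgM⟩, ?_⟩
  · exact nat_injective ((h.inj _ _ _ _ (hg i ((hmem i).1 hi)) (hg j ((hmem j).1 hj))).2 hij)
  · have h1 : d = rng hfin.toFinset nat := by
      ext z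
      rw [mem_rng]
      constructor
      · intro hz
        obtain ⟨i, rfl⟩ := mem_omega_iff.1 (h.sub hz)
        exact ⟨i, (hmem i).2 hz, rfl⟩
      · rintro ⟨i, hi, rfl⟩
        exact (hmem i).1 hi
    have h2 : f = rng hfin.toFinset fun i => pair (nat i) (g i) := by
      ext z
      rw [mem_rng]
      constructor
      · intro hz
        obtain ⟨x, a, ha, rfl⟩ := h.func z hz
        have hx : x ∈ d := (hd x).2 ⟨a, hz⟩
        obtain ⟨i, rfl⟩ := mem_omega_iff.1 (h.sub hx)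
        exact ⟨i, (hmem i).2 hx, by rw [(h.inj _ _ _ _ hz (hg i hx)).1 rfl]⟩
      · rintro ⟨i, hi, rfl⟩
        exact hg i ((hmem i).1 hi)
    have h3 : e = eR hfin.toFinset g := by
      ext w
      rw [mem_eR]
      constructor
      · intro hw
        obtain ⟨x, hx, y, hy, rfl⟩ := ZFSet.mem_prod.1 (h.rel hw)
        obtain ⟨i, rfl⟩ := mem_omega_iff.1 (h.sub hx)
        obtain ⟨j, rfl⟩ := mem_omega_iff.1 (h.sub hy)
        exact ⟨i, (hmem i).2 hx, j, (hmem j).2 hy, rfl, (h.coh hd _ _ _ _ (hg i hx) (hg j hy)).1 hw⟩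
      · rintro ⟨i, hi, j, hj, rfl, h4⟩
        rw [hmem] at hi hj
        exact (h.coh hd _ _ _ _ (hg i hi) (hg j hj)).2 h4
    rw [cnd, ← h1, ← h2, ← h3]

/-- A condition below a nonempty total one is total. -/
theorem full_of_le {d : Finset ℕ} {g : ℕ → ZFSet.{0}} (hne : d.Nonempty)
    {q : ZFSet.{0}} (hq : pair q (cnd d g) ∈ FL M) :
    ∃ (d' : Finset ℕ) (g' : ℕ → ZFSet.{0}), Ok {x | x ∈ M} d' g' ∧ q = cnd d' g' ∧ d ⊆ d' ∧
      ∀ i ∈ d, g' i = g i := by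
  have h0 := (ZFSet.pair_mem_prod.1 (ZFSet.mem_sep.1 hq).1).1
  obtain ⟨-, d₁, e₁, f₁, rfl, h1⟩ := mem_FP.1 h0
  obtain ⟨h2, h3, h4, h5, h6⟩ := mem_FL.1 hq
  obtain ⟨i₀, hi₀⟩ := hne
  have h7 : f₁ ≠ ∅ := by
    rintro rfl
    exact ZFSet.notMem_empty _ (h6 (mem_rng.2 ⟨i₀, hi₀, rfl⟩))
  obtain ⟨d', g', h8, h9⟩ := full_eq hM h1 (h1.dom.resolve_left h7)
  obtain ⟨h10, h11⟩ := ZFSet.pair_inj.1 h9
  obtain ⟨h12, h13⟩ := ZFSet.pair_inj.1 h11
  refine ⟨d', g', h8, h9, fun i hi => ?_, fun i hi => ?_⟩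
  · have h14 : nat i ∈ rng d' nat := h10 ▸ h4 (mem_rng.2 ⟨i, hi, rfl⟩)
    obtain ⟨j, hj, h15⟩ := mem_rng.1 h14
    rw [nat_injective h15]
    exact hj
  · have h14 : pair (nat i) (g i) ∈ rng d' fun i => pair (nat i) (g' i) :=
      h13 ▸ h6 (mem_rng.2 ⟨i, hi, rfl⟩)
    obtain ⟨j, hj, h15⟩ := mem_rng.1 h14
    obtain ⟨h16, h17⟩ := ZFSet.pair_inj.1 h15
    rw [h17, nat_injective h16]

/-- A finite acyclic relation is isomorphic to the membership relation on a finite set. -/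
theorem realize (d : Finset ℕ) (R : ℕ → ℕ → Prop) (hR : ∀ i j, R i j → i ∈ d)
    (hac : ∀ i, ¬ Relation.TransGen R i i) :
    ∃ g : ℕ → ZFSet.{0}, Ok {x | x ∈ M} d g ∧ ∀ i j, (g i ∈ g j ↔ R i j) := by
  classical
  have hwf : WellFounded R := by
    refine Subrelation.wf (r := InvImage (· < ·) fun i =>
      (d.filter fun k => Relation.TransGen R k i).card) ?_ (InvImage.wf _ Nat.lt_wfRel.wf)
    intro i j hij
    refine Finset.card_lt_card ⟨fun k hk => ?_, fun h => ?_⟩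
    · rw [Finset.mem_filter] at hk ⊢
      exact ⟨hk.1, hk.2.tail hij⟩
    · have h1 := h (Finset.mem_filter.2 ⟨hR i j hij, Relation.TransGen.single hij⟩)
      exact hac i (Finset.mem_filter.1 h1).2
  set g : ℕ → ZFSet.{0} := hwf.fix fun i ih => insert ({ZFSet.omega, nat i} : ZFSet.{0})
    (ZFSet.range fun j : {j // R j i} => ih j.1 j.2) with hg
  have hg' : ∀ i, g i = insert ({ZFSet.omega, nat i} : ZFSet.{0})
      (ZFSet.range fun j : {j // R j i} => g j.1) := fun i => hwf.fix_eq _ i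
  have hmem : ∀ i z, z ∈ g i ↔ z = {ZFSet.omega, nat i} ∨ ∃ j, R j i ∧ z = g j := by
    intro i z
    rw [hg' i, ZFSet.mem_insert_iff, ZFSet.mem_range]
    refine or_congr Iff.rfl ⟨?_, ?_⟩
    · rintro ⟨⟨j, hj⟩, rfl⟩
      exact ⟨j, hj, rfl⟩
    · rintro ⟨j, hj, rfl⟩
      exact ⟨⟨j, hj⟩, rfl⟩
  have hω : ∀ n : ℕ, (ZFSet.omega : ZFSet.{0}) ∉ nat n := by
    intro n h
    obtain ⟨k, -, h1⟩ := mem_nat_iff'.1 h
    have h2 : nat k ∈ (ZFSet.omega : ZFSet.{0}) := nat_mem_omega k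
    rw [← h1] at h2
    exact ZFSet.mem_irrefl _ h2
  have hne : ∀ i j, g i ≠ {ZFSet.omega, nat j} := by
    intro i j h
    have h1 : ({ZFSet.omega, nat i} : ZFSet.{0}) ∈ g i := (hmem i _).2 (Or.inl rfl)
    rw [h, ZFSet.mem_pair] at h1
    have h3 : (ZFSet.omega : ZFSet.{0}) ∈ ({ZFSet.omega, nat i} : ZFSet.{0}) := by simp
    rcases h1 with h1 | h1
    · rw [h1] at h3
      exact ZFSet.mem_irrefl _ h3
    · rw [h1] at h3
      exact hω j h3
  have hpair : ∀ i j : ℕ, ({ZFSet.omega, nat i} : ZFSet.{0}) = {ZFSet.omega, nat j} → i = j := by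
    intro i j h
    have h1 : nat i ∈ ({ZFSet.omega, nat j} : ZFSet.{0}) := by
      rw [← h]
      simp
    rcases ZFSet.mem_pair.1 h1 with h2 | h2
    · have h3 := nat_mem_omega i
      rw [h2] at h3
      exact absurd h3 (ZFSet.mem_irrefl _)
    · exact nat_injective h2
  have hinj : ∀ i j, g i = g j → i = j := by
    intro i j h
    have h1 : ({ZFSet.omega, nat i} : ZFSet.{0}) ∈ g j := h ▸ (hmem i _).2 (Or.inl rfl)
    rcases (hmem j _).1 h1 with h2 | ⟨k, -, h2⟩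
    · exact hpair i j h2
    · exact absurd h2.symm (hne k i)
  refine ⟨g, ⟨fun i _ j _ h => hinj i j h, ?_⟩, fun i j => ?_⟩
  · intro i _
    induction i using hwf.induction with
    | _ i ih =>
      refine (IsZF.cls hM).fin_mem (S := {x | x ∈ M}) ?_ fun y hy => ?_
      · have h1 : {y | y ∈ g i} ⊆ insert {ZFSet.omega, nat i} (g '' (d : Set ℕ)) := by
          intro y hy
          rcases (hmem i y).1 hy with rfl | ⟨j, hj, rfl⟩
          · exact Set.mem_insert _ _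
          · exact Set.mem_insert_of_mem _ ⟨j, hR j i hj, rfl⟩
        exact ((d.finite_toSet.image g).insert _).subset h1
      · rcases (hmem i y).1 hy with rfl | ⟨j, hj, rfl⟩
        · exact hM.pairing _ hM.infinity _ (hM.nat_mem i)
        · exact ih j hj (hR j i hj)
  · rw [hmem]
    constructor
    · rintro (h | ⟨k, hk, h⟩)
      · exact absurd h (hne i j)
      · rw [hinj i k h]
        exact hk
    · intro h
      exact Or.inr ⟨i, h, rfl⟩

/-- Every condition has a total extension. -/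
theorem exists_full {p : ZFSet.{0}} (hp : p ∈ FP M) : ∃ (d : Finset ℕ) (g : ℕ → ZFSet.{0}),
    Ok {x | x ∈ M} d g ∧ pair (cnd d g) p ∈ FL M := by
  classical
  obtain ⟨-, d, e, f, rfl, h⟩ := mem_FP.1 hp
  rcases h.dom with rfl | h1
  · have hfin : {i : ℕ | nat i ∈ d}.Finite := h.fin.preimage nat_injective.injOn
    have hmem : ∀ i, i ∈ hfin.toFinset ↔ nat i ∈ d := fun i => by simp
    obtain ⟨g, hg, h2⟩ := realize hM hfin.toFinset (fun i j => pair (nat i) (nat j) ∈ e)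
      (fun i j hij => (hmem i).2 (ZFSet.pair_mem_prod.1 (h.rel hij)).1) (by
        intro i hi
        refine h.acyclic (nat i) ?_
        exact hi.lift nat fun a b h => h)
    refine ⟨hfin.toFinset, g, hg, mem_FL.2 ⟨cnd_mem hM hg, hp, fun z hz => ?_, ?_,
      fun z hz => absurd hz (ZFSet.notMem_empty _)⟩⟩
    · obtain ⟨i, rfl⟩ := mem_omega_iff.1 (h.sub hz)
      exact mem_rng.2 ⟨i, (hmem i).2 hz, rfl⟩
    · ext w
      rw [ZFSet.mem_inter]
      constructor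
      · rintro ⟨h3, h4⟩
        obtain ⟨i, hi, j, hj, rfl, h5⟩ := mem_eR.1 h3
        exact (h2 i j).1 h5
      · intro hw
        have h3 := h.rel hw
        refine ⟨?_, h3⟩
        obtain ⟨x, hx, y, hy, rfl⟩ := ZFSet.mem_prod.1 h3
        obtain ⟨i, rfl⟩ := mem_omega_iff.1 (h.sub hx)
        obtain ⟨j, rfl⟩ := mem_omega_iff.1 (h.sub hy)
        exact pair_mem_eR.2 ⟨(hmem i).2 hx, (hmem j).2 hy, (h2 i j).2 hw⟩
  · obtain ⟨d', g, hg, h2⟩ := full_eq hM h h1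
    refine ⟨d', g, hg, ?_⟩
    rw [h2]
    exact cnd_le hM hg hg (fun _ h => h) fun _ _ => rfl

/-- The gaps of a total condition can be filled by sets that do not contain `a`. -/
theorem fill {d : Finset ℕ} {g : ℕ → ZFSet.{0}} (h : Ok {x | x ∈ M} d g) (a : ZFSet.{0}) :
    ∃ g' : ℕ → ZFSet.{0}, (∀ N, d ⊆ Finset.range N → Ok {x | x ∈ M} (Finset.range N) g') ∧
      (∀ i ∈ d, g' i = g i) ∧ ∀ i, i ∉ d → a ∉ g' i := by
  classical
  have hinj : Function.Injective fun k : ℕ => ({nat k} : ZFSet.{0}) := fun i j hij =>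
    nat_injective (ZFSet.singleton_injective hij)
  have hfin : ({k : ℕ | ({nat k} : ZFSet.{0}) ∈ g '' (d : Set ℕ)} ∪ {k : ℕ | nat k = a}).Finite :=
    ((d.finite_toSet.image g).preimage hinj.injOn).union
      ((Set.finite_singleton a).preimage nat_injective.injOn)
  obtain ⟨L, hL⟩ := hfin.bddAbove
  have h1 : ∀ k > L, ({nat k} : ZFSet.{0}) ∉ g '' (d : Set ℕ) ∧ nat k ≠ a := by
    intro k hk
    constructor
    · intro h2
      exact absurd (hL (Or.inl h2)) (by omega)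
    · intro h2
      exact absurd (hL (Or.inr h2)) (by omega)
  refine ⟨fun i => if i ∈ d then g i else {nat (L + 1 + i)}, fun N hN => ⟨?_, ?_⟩, ?_, ?_⟩
  · intro i _ j _ hij
    split_ifs at hij with hi hj hj
    · exact h.inj i hi j hj hij
    · exact absurd ⟨i, hi, hij⟩ (h1 (L + 1 + j) (by omega)).1
    · exact absurd ⟨j, hj, hij.symm⟩ (h1 (L + 1 + i) (by omega)).1
    · have := hinj hij
      omega
  · intro i _
    split_ifs with hi
    · exact h.mem i hi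
    · exact hM.single_mem (hM.nat_mem _)
  · intro i hi
    simp only [hi, if_true]
  · intro i hi
    simp only [hi, if_false, ZFSet.mem_singleton]
    exact fun h2 => (h1 (L + 1 + i) (by omega)).2 h2.symm

end

end Pool.Agent.R597
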