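import Pool.Agent.R597.Fr2
import Pool.Agent.Y588.Ust

/-!
# Friedman's forcing is a uniformly definable partial order
-/

set_option autoImplicit false
set_option linter.unreachableTactic false
set_option linter.unusedTactic false
set_option linter.unusedSectionVars false
set_option linter.unusedVariables false

namespace Pool.Agent.R597

open Pool.Agent.W868 Pool.Agent.W868.GM Pool.Agent.Y588
open ZFSet (pair)

/-- `p` is a condition. -/
def IsC (K : Set ZFSet.{0}) (p : ZFSet.{0}) : Prop :=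
  ∃ d e f, p = pair d (pair e f) ∧ IsCond K d e f

/-- The order of the conditions. -/
def OrdR (q p : ZFSet.{0}) : Prop :=
  ∃ d e f d' e' f', q = pair d' (pair e' f') ∧ p = pair d (pair e f) ∧
    d ⊆ d' ∧ e' ∩ ZFSet.prod d d = e ∧ f ⊆ f'

theorem mem_FP' {M p : ZFSet.{0}} : p ∈ FP M ↔ p ∈ M ∧ IsC {x | x ∈ M} p := mem_FP

theorem mem_FL' {M q p : ZFSet.{0}} : pair q p ∈ FL M ↔ q ∈ FP M ∧ p ∈ FP M ∧ OrdR q p := by
  rw [FL, ZFSet.mem_sep, ZFSet.pair_mem_prod, and_assoc]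
  refine and_congr_right fun _ => and_congr_right fun _ => ?_
  constructor
  · rintro ⟨d, e, f, d', e', f', h, h1⟩
    obtain ⟨h2, h3⟩ := ZFSet.pair_inj.1 h
    exact ⟨d, e, f, d', e', f', h2, h3, h1⟩
  · rintro ⟨d, e, f, d', e', f', rfl, rfl, h1⟩
    exact ⟨d, e, f, d', e', f', rfl, h1⟩

/-! ### Acyclic relations -/

theorem acyclic_wf {d e : ZFSet.{0}} (hfin : {i | i ∈ d}.Finite) (hrel : e ⊆ ZFSet.prod d d)
    (hac : ∀ i, ¬ Relation.TransGen (fun i j => pair i j ∈ e) i i) :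
    WellFounded fun i j => pair i j ∈ e := by
  refine Subrelation.wf (r := InvImage (· < ·) fun i =>
    ({k | k ∈ d ∧ Relation.TransGen (fun i j => pair i j ∈ e) k i} : Set ZFSet.{0}).ncard) ?_
    (InvImage.wf _ Nat.lt_wfRel.wf)
  intro i j hij
  refine Set.ncard_lt_ncard ⟨fun k hk => ?_, fun h => ?_⟩ (hfin.subset fun k hk => hk.1)
  · exact ⟨hk.1, hk.2.tail hij⟩
  · have h1 := h ⟨(ZFSet.pair_mem_prod.1 (hrel hij)).1, Relation.TransGen.single hij⟩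
    exact hac i h1.2

theorem fin_iff {d : ZFSet.{0}} : (d ⊆ ZFSet.omega ∧ {i | i ∈ d}.Finite) ↔
    ∃ n ∈ (ZFSet.omega : ZFSet.{0}), d ⊆ n := by
  constructor
  · rintro ⟨h1, h2⟩
    have h3 : {i : ℕ | nat i ∈ d}.Finite := h2.preimage nat_injective.injOn
    obtain ⟨L, hL⟩ := h3.bddAbove
    refine ⟨nat (L + 1), nat_mem_omega _, fun z hz => ?_⟩
    obtain ⟨i, rfl⟩ := mem_omega_iff.1 (h1 hz)
    have h4 := hL hz
    exact mem_nat_iff'.2 ⟨i, by omega, rfl⟩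
  · rintro ⟨n, hn, h1⟩
    obtain ⟨k, rfl⟩ := mem_omega_iff.1 hn
    refine ⟨fun z hz => nat_subset_omega (h1 hz), ?_⟩
    have h2 : {z | z ∈ d} ⊆ nat '' (Finset.range k : Set ℕ) := by
      intro z hz
      obtain ⟨i, hi, rfl⟩ := mem_nat_iff'.1 (h1 hz)
      exact ⟨i, by simpa using hi, rfl⟩
    exact ((Finset.finite_toSet _).image _).subset h2

theorem acyclic_iff {K : Set ZFSet.{0}} (hK : IsZF K) {d e : ZFSet.{0}} (hd : d ∈ K)
    (hfin : {i | i ∈ d}.Finite) (hrel : e ⊆ ZFSet.prod d d) :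
    (∀ i, ¬ Relation.TransGen (fun i j => pair i j ∈ e) i i) ↔
      ∀ s ∈ K, s ⊆ d → (∃ i ∈ s, i = i) → ∃ i ∈ s, ∀ j ∈ s, ¬ pair j i ∈ e := by
  constructor
  · intro hac s _ hsd hne
    have hwf := acyclic_wf hfin hrel hac
    obtain ⟨i₀, hi₀, -⟩ := hne
    obtain ⟨i, hi, h1⟩ := hwf.has_min {i | i ∈ s} ⟨i₀, hi₀⟩
    exact ⟨i, hi, fun j hj => h1 j hj⟩
  · intro h i hi
    have hid : ∀ {x y}, Relation.TransGen (fun i j => pair i j ∈ e) x y → x ∈ d := by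
      intro x y hxy
      obtain ⟨z, hz, -⟩ := Relation.TransGen.head'_iff.1 hxy
      exact (ZFSet.pair_mem_prod.1 (hrel hz)).1
    set s : ZFSet.{0} := ZFSet.sep (fun j => Relation.TransGen (fun i j => pair i j ∈ e) j i ∧
      Relation.TransGen (fun i j => pair i j ∈ e) i j) d with hs
    have hsK : s ∈ K := (IsZF.cls hK).fin_mem (hfin.subset fun z hz => (ZFSet.mem_sep.1 hz).1)
      fun y hy => hK.trans _ hd _ (ZFSet.mem_sep.1 hy).1
    obtain ⟨j, hj, h1⟩ := h s hsK (fun z hz => (ZFSet.mem_sep.1 hz).1)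
      ⟨i, ZFSet.mem_sep.2 ⟨hid hi, hi, hi⟩, rfl⟩
    obtain ⟨hjd, h2, h3⟩ := ZFSet.mem_sep.1 hj
    obtain ⟨k, h4, h5⟩ := Relation.TransGen.tail'_iff.1 h3
    refine h1 k (ZFSet.mem_sep.2 ⟨(ZFSet.pair_mem_prod.1 (hrel h5)).1,
      Relation.TransGen.head h5 h2, ?_⟩) h5
    rcases (Relation.reflTransGen_iff_eq_or_transGen.1 h4) with h6 | h6
    · rw [h6]
      exact hi
    · exact h6

/-! ### Definability -/

theorem ur_IsC : UR fun K (v : Fin 1 → ZFSet.{0}) => IsC K (v 0) := by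
  have h1 : UR fun K (v : Fin 1 → ZFSet.{0}) => ∃ o ∈ K, o = ZFSet.omega ∧
      ∃ n ∈ o, ∃ d y, v 0 = pair d y ∧ d ⊆ n := by
    apply UR.ex
    apply UR.of_d0
    apply D0.and
    · exact d0_omega.comp ![0]
    · (repeat' first
      | assumption
      | exact D0v.proj _
      | apply D0.not | apply D0.and | apply D0.expair | apply D0.or | apply D0.isPair | apply D0.pairMem
      | apply D0.bex | apply D0.ball | apply D0.imp | apply D0.iff | apply D0.subset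
      | apply D0.eq | apply D0.mem)
  have h2 : UR fun K (v : Fin 1 → ZFSet.{0}) => ∃ d y, v 0 = pair d y ∧ ∃ e f, y = pair e f ∧
      (∀ w ∈ e, ∃ i ∈ d, ∃ j ∈ d, w = pair i j) ∧ (∀ w ∈ f, ∃ i a, w = pair i a ∧ i ∈ d) ∧
      (∀ w ∈ f, ∀ w' ∈ f, ∃ i a, w = pair i a ∧ ∃ j b, w' = pair j b ∧ (i = j ↔ a = b) ∧
        (pair i j ∈ e ↔ a ∈ b)) ∧
      ((∀ w ∈ f, ¬ w = w) ∨ ∀ i ∈ d, ∃ w ∈ f, ∃ x a, w = pair x a ∧ x = i) := by
    apply UR.of_d0
    (repeat' first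
      | assumption
      | exact D0v.proj _
      | apply D0.not | apply D0.and | apply D0.expair | apply D0.or | apply D0.isPair | apply D0.pairMem
      | apply D0.bex | apply D0.ball | apply D0.imp | apply D0.iff | apply D0.subset
      | apply D0.eq | apply D0.mem)
  have h3 : UR fun K (v : Fin 1 → ZFSet.{0}) => ∀ s ∈ K, ∃ d y, v 0 = pair d y ∧
      ∃ e f, y = pair e f ∧ (s ⊆ d → (∃ i ∈ s, i = i) → ∃ i ∈ s, ∀ j ∈ s, ¬ pair j i ∈ e) := by
    apply UR.all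
    apply UR.of_d0
    (repeat' first
      | assumption
      | exact D0v.proj _
      | apply D0.not | apply D0.and | apply D0.expair | apply D0.or | apply D0.isPair | apply D0.pairMem
      | apply D0.bex | apply D0.ball | apply D0.imp | apply D0.iff | apply D0.subset
      | apply D0.eq | apply D0.mem)
  refine (h1.and (h2.and h3)).congr fun K hK v hv => ?_
  constructor
  · rintro ⟨⟨o, -, rfl, n, hn, d, y, h4, h5⟩, ⟨d', y', h6, e, f, rfl, h7, h8, h9, h10⟩, h11⟩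
    rw [h4] at h6
    obtain ⟨rfl, rfl⟩ := ZFSet.pair_inj.1 h6
    have hvK := hv 0
    rw [h4] at hvK
    obtain ⟨hdK, hyK⟩ := hK.of_pair_mem hvK
    obtain ⟨-, hfK⟩ := hK.of_pair_mem hyK
    obtain ⟨hsub, hfin⟩ := fin_iff.2 ⟨n, hn, h5⟩
    have hrel : e ⊆ ZFSet.prod d d := by
      intro w hw
      obtain ⟨i, hi, j, hj, rfl⟩ := h7 w hw
      exact ZFSet.pair_mem_prod.2 ⟨hi, hj⟩
    refine ⟨d, e, f, h4, hsub, hfin, hrel, ?_, ?_, ?_, ?_, ?_⟩
    · rw [acyclic_iff hK hdK hfin hrel]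
      intro s hs
      obtain ⟨d', y', h12, e', f', rfl, h13⟩ := h11 s hs
      rw [h4] at h12
      obtain ⟨rfl, h14⟩ := ZFSet.pair_inj.1 h12
      obtain ⟨rfl, rfl⟩ := ZFSet.pair_inj.1 h14
      exact h13
    · intro w hw
      obtain ⟨i, a, rfl, hi⟩ := h8 w hw
      exact ⟨i, a, (hK.of_pair_mem (hK.trans _ hfK _ hw)).2, rfl⟩
    · intro i a j b hia hjb
      obtain ⟨i', a', h12, j', b', h13, h14, -⟩ := h9 _ hia _ hjb
      obtain ⟨rfl, rfl⟩ := ZFSet.pair_inj.1 h12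
      obtain ⟨rfl, rfl⟩ := ZFSet.pair_inj.1 h13
      exact h14
    · rcases h10 with h10 | h10
      · left
        rw [ZFSet.eq_empty]
        exact fun w hw => h10 w hw rfl
      · right
        intro i
        constructor
        · intro hi
          obtain ⟨w, hw, x, a, rfl, rfl⟩ := h10 i hi
          exact ⟨a, hw⟩
        · rintro ⟨a, ha⟩
          obtain ⟨i', a', h12, hi'⟩ := h8 _ ha
          rw [(ZFSet.pair_inj.1 h12).1]
          exact hi'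
    · intro _ i a j b hia hjb
      obtain ⟨i', a', h12, j', b', h13, -, h14⟩ := h9 _ hia _ hjb
      obtain ⟨rfl, rfl⟩ := ZFSet.pair_inj.1 h12
      obtain ⟨rfl, rfl⟩ := ZFSet.pair_inj.1 h13
      exact h14
  · rintro ⟨d, e, f, h4, hc⟩
    have hvK := hv 0
    rw [h4] at hvK
    obtain ⟨hdK, hyK⟩ := hK.of_pair_mem hvK
    obtain ⟨n, hn, h5⟩ := fin_iff.1 ⟨hc.sub, hc.fin⟩
    have hpair : ∀ w ∈ f, ∃ i a, w = pair i a := fun w hw => by
      obtain ⟨i, a, -, h⟩ := hc.func w hw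
      exact ⟨i, a, h⟩
    refine ⟨⟨_, hK.infinity, rfl, n, hn, d, _, h4, h5⟩, ⟨d, _, h4, e, f, rfl, ?_, ?_, ?_, ?_⟩, ?_⟩
    · intro w hw
      obtain ⟨i, hi, j, hj, rfl⟩ := ZFSet.mem_prod.1 (hc.rel hw)
      exact ⟨i, hi, j, hj, rfl⟩
    · intro w hw
      obtain ⟨i, a, rfl⟩ := hpair w hw
      refine ⟨i, a, rfl, ?_⟩
      rcases hc.dom with rfl | h6
      · exact absurd hw (ZFSet.notMem_empty _)
      · exact (h6 i).2 ⟨a, hw⟩
    · intro w hw w' hw'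
      obtain ⟨i, a, rfl⟩ := hpair w hw
      obtain ⟨j, b, rfl⟩ := hpair w' hw'
      refine ⟨i, a, rfl, j, b, rfl, hc.inj _ _ _ _ hw hw', ?_⟩
      rcases hc.dom with rfl | h6
      · exact absurd hw (ZFSet.notMem_empty _)
      · exact hc.coh h6 _ _ _ _ hw hw'
    · rcases hc.dom with rfl | h6
      · left
        exact fun w hw => absurd hw (ZFSet.notMem_empty _)
      · right
        intro i hi
        obtain ⟨a, ha⟩ := (h6 i).1 hi
        exact ⟨_, ha, i, a, rfl, rfl⟩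
    · intro s hs
      exact ⟨d, _, h4, e, f, rfl, (acyclic_iff hK hdK hc.fin hc.rel).1 hc.acyclic s hs⟩

theorem d0_OrdR : D0 fun v : Fin 2 → ZFSet.{0} => OrdR (v 0) (v 1) := by
  have h : D0 fun v : Fin 2 → ZFSet.{0} => ∃ d y, v 1 = pair d y ∧ ∃ e f, y = pair e f ∧
      ∃ d' y', v 0 = pair d' y' ∧ ∃ e' f', y' = pair e' f' ∧ d ⊆ d' ∧
      ((∀ w ∈ e, w ∈ e' ∧ ∃ x ∈ d, ∃ y ∈ d, w = pair x y) ∧
        ∀ w ∈ e', (∃ x ∈ d, ∃ y ∈ d, w = pair x y) → w ∈ e) ∧ f ⊆ f' := by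
    (repeat' first
      | assumption
      | exact D0v.proj _
      | apply D0.not | apply D0.and | apply D0.expair | apply D0.or | apply D0.isPair | apply D0.pairMem
      | apply D0.bex | apply D0.ball | apply D0.imp | apply D0.iff | apply D0.subset
      | apply D0.eq | apply D0.mem)
  refine h.congr fun v => ?_
  have key : ∀ d e e' : ZFSet.{0}, ((∀ w ∈ e, w ∈ e' ∧ ∃ x ∈ d, ∃ y ∈ d, w = pair x y) ∧
      ∀ w ∈ e', (∃ x ∈ d, ∃ y ∈ d, w = pair x y) → w ∈ e) ↔ e' ∩ ZFSet.prod d d = e := by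
    intro d e e'
    constructor
    · rintro ⟨h1, h2⟩
      ext w
      rw [ZFSet.mem_inter, ZFSet.mem_prod]
      exact ⟨fun h => h2 w h.1 h.2, fun h => h1 w h⟩
    · rintro rfl
      refine ⟨fun w hw => ?_, fun w hw h => ?_⟩
      · rw [ZFSet.mem_inter, ZFSet.mem_prod] at hw
        exact hw
      · rw [ZFSet.mem_inter, ZFSet.mem_prod]
        exact ⟨hw, h⟩
  constructor
  · rintro ⟨d, y, h1, e, f, rfl, d', y', h2, e', f', rfl, h3, h4, h5⟩
    exact ⟨d, e, f, d', e', f', h2, h1, h3, (key _ _ _).1 h4, h5⟩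
  · rintro ⟨d, e, f, d', e', f', h2, h1, h3, h4, h5⟩
    exact ⟨d, _, h1, e, f, rfl, d', _, h2, e', f', rfl, h3, (key _ _ _).2 h4, h5⟩

/-- The order, as a uniformly definable relation. -/
theorem ur_FL : UR fun K (v : Fin 2 → ZFSet.{0}) => IsC K (v 0) ∧ IsC K (v 1) ∧
    OrdR (v 0) (v 1) :=
  (ur_IsC.comp ![0]).and ((ur_IsC.comp ![1]).and (UR.of_d0 d0_OrdR))

/-! ### The partial order -/

section

variable {M : ZFSet.{0}} (hM : IsZF {x | x ∈ M})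

theorem FL_refl {p : ZFSet.{0}} (hp : p ∈ FP M) : pair p p ∈ FL M := by
  obtain ⟨-, d, e, f, rfl, h⟩ := mem_FP.1 hp
  refine mem_FL.2 ⟨hp, hp, fun _ h => h, ?_, fun _ h => h⟩
  ext w
  rw [ZFSet.mem_inter]
  exact ⟨fun h => h.1, fun h1 => ⟨h1, h.rel h1⟩⟩

theorem FL_trans {p q r : ZFSet.{0}} (h1 : pair r q ∈ FL M) (h2 : pair q p ∈ FL M) :
    pair r p ∈ FL M := by
  obtain ⟨hq, hp, -⟩ := mem_FL'.1 h2
  obtain ⟨hr, -, -⟩ := mem_FL'.1 h1
  obtain ⟨-, d, e, f, rfl, -⟩ := mem_FP.1 hp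
  obtain ⟨-, d', e', f', rfl, -⟩ := mem_FP.1 hq
  obtain ⟨-, d'', e'', f'', rfl, -⟩ := mem_FP.1 hr
  obtain ⟨-, -, h3, h4, h5⟩ := mem_FL.1 h1
  obtain ⟨-, -, h6, h7, h8⟩ := mem_FL.1 h2
  refine mem_FL.2 ⟨hr, hp, fun z hz => h3 (h6 hz), ?_, fun z hz => h5 (h8 hz)⟩
  rw [← h7, ← h4]
  ext w
  simp only [ZFSet.mem_inter]
  constructor
  · rintro ⟨h9, h10⟩
    refine ⟨⟨h9, ?_⟩, h10⟩
    obtain ⟨x, hx, y, hy, rfl⟩ := ZFSet.mem_prod.1 h10
    exact ZFSet.pair_mem_prod.2 ⟨h6 hx, h6 hy⟩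
  · rintro ⟨⟨h9, -⟩, h10⟩
    exact ⟨h9, h10⟩

theorem FL_antisymm {p q : ZFSet.{0}} (h1 : pair q p ∈ FL M) (h2 : pair p q ∈ FL M) :
    p = q := by
  obtain ⟨hq, hp, -⟩ := mem_FL'.1 h1
  obtain ⟨-, d, e, f, rfl, hc⟩ := mem_FP.1 hp
  obtain ⟨-, d', e', f', rfl, hc'⟩ := mem_FP.1 hq
  obtain ⟨-, -, h3, h4, h5⟩ := mem_FL.1 h1
  obtain ⟨-, -, h6, h7, h8⟩ := mem_FL.1 h2
  have h9 : d = d' := by
    ext z
    exact ⟨fun h => h3 h, fun h => h6 h⟩
  subst h9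
  have h10 : f = f' := by
    ext z
    exact ⟨fun h => h5 h, fun h => h8 h⟩
  subst h10
  have h11 : e = e' := by
    rw [← h4]
    ext w
    rw [ZFSet.mem_inter]
    exact ⟨fun h => h.1, fun h => ⟨h, hc'.rel h⟩⟩
  rw [h11]

end

end Pool.Agent.R597
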