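import Pool.Agent.R597.Fr3

/-!
# Generic filters for Friedman's forcing
-/

set_option autoImplicit false
set_option linter.unreachableTactic false
set_option linter.unusedTactic false
set_option linter.unusedSectionVars false
set_option linter.unusedVariables false

namespace Pool.Agent.R597

open Pool.Agent.W868 Pool.Agent.W868.GM Pool.Agent.Y588
open ZFSet (pair)

theorem mem_DefC {M D : ZFSet.{0}} : D ∈ DefC M ↔ D ⊆ M ∧ ∃ φ : Fml ZFSet.{0} 1,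
    φ.Over {x | x ∈ M} ∧ ∀ x ∈ M, x ∈ D ↔ Sat {x | x ∈ M} id φ ![x] := by
  rw [DefC, ZFSet.mem_sep, ZFSet.mem_powerset]

theorem vec1 {v : Fin 1 → ZFSet.{0}} : v = ![v 0] := by
  funext i
  fin_cases i
  rfl

theorem defC_of {M : ZFSet.{0}} {Q : ZFSet.{0} → Prop}
    (hQ : Dfn {x | x ∈ M} {x | x ∈ M} fun w : Fin 1 → ZFSet.{0} => Q (w 0)) :
    ZFSet.sep Q M ∈ DefC M := by
  obtain ⟨φ, h1, h2⟩ := hQ
  refine mem_DefC.2 ⟨fun z hz => (ZFSet.mem_sep.1 hz).1, φ, h1, fun x hx => ?_⟩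
  rw [ZFSet.mem_sep]
  have h3 := h2 ![x] (by
    intro i
    fin_cases i
    exact hx)
  rw [h3]
  exact ⟨fun h => h.2, fun h => ⟨hx, h⟩⟩

theorem defC_countable {M : ZFSet.{0}} (hc : {x | x ∈ M}.Countable) :
    {D | D ∈ DefC M}.Countable := by
  have h1 := countable_fml hc 1
  refine (h1.image fun φ : Fml ZFSet.{0} 1 =>
    ZFSet.sep (fun x => Sat {x | x ∈ M} id φ ![x]) M).mono ?_
  intro D hD
  obtain ⟨h2, φ, h3, h4⟩ := mem_DefC.1 hD
  refine ⟨φ, h3, ?_⟩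
  ext x
  rw [ZFSet.mem_sep]
  exact ⟨fun h => (h4 x h.1).2 h.2, fun h => ⟨h2 h, (h4 x (h2 h)).1 h⟩⟩

section

variable {M : ZFSet.{0}} (hM : IsZF {x | x ∈ M})

include hM

theorem FP_eq : FP M = ZFSet.sep (IsC {x | x ∈ M}) M := rfl

theorem FP_def : FP M ∈ DefC M := by
  refine defC_of (Q := IsC {x | x ∈ M}) ?_
  exact ur_IsC.dfn hM

theorem dfn_FP : Dfn {x | x ∈ M} {x | x ∈ M} fun w : Fin 1 → ZFSet.{0} => w 0 ∈ FP M := by
  refine Dfn.congr (R := fun w => IsC {x | x ∈ M} (w 0)) (ur_IsC.dfn hM) fun w hw => ?_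
  rw [mem_FP']
  exact ⟨fun h => ⟨hw 0, h⟩, fun h => h.2⟩

theorem dfn_FL {S : Set ZFSet.{0}} :
    Dfn S {x | x ∈ M} fun w : Fin 2 → ZFSet.{0} => pair (w 0) (w 1) ∈ FL M := by
  refine Dfn.congr (R := fun w : Fin 2 → ZFSet.{0} => IsC {x | x ∈ M} (w 0) ∧
    IsC {x | x ∈ M} (w 1) ∧ OrdR (w 0) (w 1)) (ur_FL.dfn hM) fun w hw => ?_
  rw [mem_FL', mem_FP', mem_FP']
  exact ⟨fun h => ⟨⟨hw 0, h.1⟩, ⟨hw 1, h.2.1⟩, h.2.2⟩, fun h => ⟨h.1.2, h.2.1.2, h.2.2⟩⟩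

theorem FL_def : FL M ∈ DefC M := by
  have hd : Dfn {x | x ∈ M} {x | x ∈ M} fun w : Fin 1 → ZFSet.{0} => w 0 ∈ FL M := by
    have h1 : Dfn {x | x ∈ M} {x | x ∈ M} fun w : Fin 1 → ZFSet.{0} => ∃ a ∈ {x | x ∈ M},
        ∃ b ∈ {x | x ∈ M}, w 0 = pair a b ∧ pair a b ∈ FL M := by
      apply Dfn.ex
      apply Dfn.ex
      apply Dfn.and
      · exact Dfn.eq (DfnF.proj 2) (hM.base.pair' (DfnF.proj 1) (DfnF.proj 0))
      · exact (dfn_FL hM).comp ![1, 0]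
    refine h1.congr fun w _ => ?_
    constructor
    · rintro ⟨a, -, b, -, h2, h3⟩
      rw [h2]
      exact h3
    · intro h
      obtain ⟨a, ha, b, hb, h2⟩ := ZFSet.mem_prod.1 (ZFSet.mem_sep.1 h).1
      rw [h2] at h ⊢
      exact ⟨a, (mem_FP.1 ha).1, b, (mem_FP.1 hb).1, rfl, h⟩
  have h1 := defC_of hd
  have h2 : ZFSet.sep (fun x => x ∈ FL M) M = FL M := by
    ext z
    rw [ZFSet.mem_sep]
    refine ⟨fun h => h.2, fun h => ⟨?_, h⟩⟩
    obtain ⟨a, ha, b, hb, rfl⟩ := ZFSet.mem_prod.1 (ZFSet.mem_sep.1 h).1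
    exact hM.pair_mem (mem_FP.1 ha).1 (mem_FP.1 hb).1
  rwa [h2] at h1

/-- The greatest condition. -/
theorem top_le {p : ZFSet.{0}} (hp : p ∈ FP M) (g : ℕ → ZFSet.{0}) :
    pair p (cnd ∅ g) ∈ FL M := by
  have h0 : Ok {x | x ∈ M} ∅ g := ⟨fun i hi => absurd hi (by simp), fun i hi =>
    absurd hi (by simp)⟩
  obtain ⟨-, d, e, f, rfl, h⟩ := mem_FP.1 hp
  refine mem_FL.2 ⟨hp, cnd_mem hM h0, fun z hz => ?_, ?_, fun z hz => ?_⟩
  · obtain ⟨i, hi, -⟩ := mem_rng.1 hz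
    simp at hi
  · ext w
    rw [ZFSet.mem_inter, ZFSet.mem_prod]
    constructor
    · rintro ⟨-, x, hx, -⟩
      obtain ⟨i, hi, -⟩ := mem_rng.1 hx
      simp at hi
    · intro hw
      obtain ⟨i, hi, -⟩ := mem_eR.1 hw
      simp at hi
  · obtain ⟨i, hi, -⟩ := mem_rng.1 hz
    simp at hi

theorem cnd_empty (g g' : ℕ → ZFSet.{0}) : cnd ∅ g = cnd ∅ g' := by
  have h1 : (rng ∅ fun i => pair (nat i) (g i)) = rng ∅ fun i => pair (nat i) (g' i) := by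
    ext z
    rw [mem_rng, mem_rng]
    simp
  have h2 : eR ∅ g = eR ∅ g' := by
    ext z
    rw [mem_eR, mem_eR]
    simp
  rw [cnd, cnd, h1, h2]

theorem forcing_F : IsForcing {D | D ∈ DefC M} (FP M) (FL M) where
  mem := FP_def hM
  le_mem := FL_def hM
  refl p hp := FL_refl hp
  trans p hp q hq r hr h1 h2 := FL_trans h1 h2
  top := ⟨cnd ∅ fun _ => ∅, cnd_mem hM ⟨fun i hi => absurd hi (by simp), fun i hi =>
    absurd hi (by simp)⟩, fun p hp => top_le hM hp _⟩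

theorem exists_genF (hc : {x | x ∈ M}.Countable) {p : ZFSet.{0}} (hp : p ∈ FP M) :
    ∃ G, IsGen (DefC M) (FP M) (FL M) G ∧ p ∈ G :=
  exists_gen (defC_countable hc) (forcing_F hM) hp

end

/-! ### The generic bijection -/

section

variable {M : ZFSet.{0}} (hM : IsZF {x | x ∈ M}) {G : ZFSet.{0}}
  (hG : IsGen (DefC M) (FP M) (FL M) G)

include hM hG

theorem gen_meet {Q : ZFSet.{0} → Prop}
    (hQ : Dfn {x | x ∈ M} {x | x ∈ M} fun w : Fin 1 → ZFSet.{0} => Q (w 0))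
    (h : ∀ p ∈ FP M, ∃ q ∈ FP M, pair q p ∈ FL M ∧ Q q) : ∃ q ∈ G, Q q := by
  obtain ⟨q, hq, hqG⟩ := hG.meet (ZFSet.sep (fun x => x ∈ FP M ∧ Q x) M)
    (defC_of ((dfn_FP hM).and hQ)) (fun z hz => (ZFSet.mem_sep.1 hz).2.1) (by
      intro p hp
      obtain ⟨q, hq, hqp, hQq⟩ := h p hp
      exact ⟨q, ZFSet.mem_sep.2 ⟨(mem_FP.1 hq).1, hq, hQq⟩, hqp⟩)
  exact ⟨q, hqG, (ZFSet.mem_sep.1 hq).2.2⟩

/-- Every condition has an extension of the form `cnd (range N) g` with `N ≥ n`. -/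
theorem exists_init {p : ZFSet.{0}} (hp : p ∈ FP M) (n : ℕ) : ∃ N ≥ n, ∃ g,
    Ok {x | x ∈ M} (Finset.range N) g ∧ pair (cnd (Finset.range N) g) p ∈ FL M := by
  obtain ⟨d, g, hg, h1⟩ := exists_full hM hp
  obtain ⟨g', h2, h3, -⟩ := fill hM hg ∅
  have hd : d ⊆ Finset.range (max n (d.sup id + 1)) := by
    intro i hi
    rw [Finset.mem_range]
    have h4 : i ≤ d.sup id := Finset.le_sup (f := id) hi
    omega
  exact ⟨_, le_max_left _ _, g', h2 _ hd, FL_trans (cnd_le hM hg (h2 _ hd) hd h3) h1⟩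

theorem exists_long (n : ℕ) : ∃ d g, Ok {x | x ∈ M} d g ∧ cnd d g ∈ G ∧
    Finset.range n ⊆ d := by
  have hB := hM.base
  have hn : nat (n + 1) ∈ {x | x ∈ M} := hM.nat_mem (n + 1)
  have hd : Dfn {x | x ∈ M} {x | x ∈ M} fun w : Fin 1 → ZFSet.{0} =>
      ∀ i ∈ nat (n + 1), ∃ u ∈ sn (sn (w 0)), fs u = i := by
    apply hB.ball (DfnF.const hn)
    apply hB.bex (hM.sn' (hM.sn' (DfnF.proj 1)))
    exact Dfn.eq (hM.fs' (DfnF.proj 0)) (DfnF.proj 1)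
  obtain ⟨q, hq, h1⟩ := gen_meet hM hG (Q := fun p => ∀ i ∈ nat (n + 1),
    ∃ u ∈ sn (sn p), fs u = i) hd (by
      intro p hp
      obtain ⟨N, hN, g, hg, h1⟩ := exists_init hM hG hp (n + 1)
      refine ⟨_, cnd_mem hM hg, h1, fun i hi => ?_⟩
      obtain ⟨k, hk, rfl⟩ := mem_nat_iff'.1 hi
      rw [cnd, sn_pair, sn_pair]
      exact ⟨_, mem_rng.2 ⟨k, by simpa using by omega, rfl⟩, fs_pair _ _⟩)
  obtain ⟨-, d, e, f, rfl, h2⟩ := mem_FP.1 (hG.sub hq)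
  rw [sn_pair, sn_pair] at h1
  have h3 : f ≠ ∅ := by
    rintro rfl
    obtain ⟨u, hu, -⟩ := h1 (nat 0) (mem_nat_iff'.2 ⟨0, by omega, rfl⟩)
    exact ZFSet.notMem_empty _ hu
  obtain ⟨d', g, h4, h5⟩ := full_eq hM h2 (h2.dom.resolve_left h3)
  refine ⟨d', g, h4, h5 ▸ hq, fun i hi => ?_⟩
  rw [Finset.mem_range] at hi
  obtain ⟨u, hu, h6⟩ := h1 (nat i) (mem_nat_iff'.2 ⟨i, by omega, rfl⟩)
  obtain ⟨h7, h8⟩ := ZFSet.pair_inj.1 h5
  obtain ⟨h9, h10⟩ := ZFSet.pair_inj.1 h8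
  rw [h10] at hu
  obtain ⟨j, hj, rfl⟩ := mem_rng.1 hu
  rw [fs_pair] at h6
  rwa [← nat_injective h6]

/-- Elements of the filter are compatible. -/
theorem compat {d d' : Finset ℕ} {g g' : ℕ → ZFSet.{0}} (h : cnd d g ∈ G)
    (h' : cnd d' g' ∈ G) {i : ℕ} (hi : i ∈ d) (hi' : i ∈ d') : g i = g' i := by
  obtain ⟨r, hr, h1, h2⟩ := hG.dir _ h _ h'
  obtain ⟨d₁, g₁, h3, rfl, h4, h5⟩ := full_of_le hM ⟨i, hi⟩ h1
  obtain ⟨d₂, g₂, h6, h7, h8, h9⟩ := full_of_le hM ⟨i, hi'⟩ h2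
  obtain ⟨h10, h11⟩ := ZFSet.pair_inj.1 h7
  obtain ⟨h12, h13⟩ := ZFSet.pair_inj.1 h11
  have h14 : pair (nat i) (g₁ i) ∈ rng d₂ fun i => pair (nat i) (g₂ i) :=
    h13 ▸ mem_rng.2 ⟨i, h4 hi, rfl⟩
  obtain ⟨j, hj, h15⟩ := mem_rng.1 h14
  obtain ⟨h16, h17⟩ := ZFSet.pair_inj.1 h15
  rw [← h5 i hi, h17, ← nat_injective h16, h9 i hi']

/-- The generic bijection. -/
theorem exists_F : ∃ F : ℕ → ZFSet.{0},
    (∀ d g, cnd d g ∈ G → ∀ i ∈ d, g i = F i) ∧ (∀ i, F i ∈ M) ∧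
    (∀ i j, F i = F j → i = j) ∧ (∀ a ∈ M, ∃ i, F i = a) := by
  have h1 := fun i : ℕ => exists_long hM hG (i + 1)
  choose d g hok hcG hsub using h1
  have hmem : ∀ i, i ∈ d i := fun i => hsub i (by simp)
  have key : ∀ d' g', cnd d' g' ∈ G → ∀ i ∈ d', g' i = g i i := fun d' g' h i hi =>
    compat hM hG h (hcG i) hi (hmem i)
  refine ⟨fun i => g i i, key, fun i => (hok i).mem i (hmem i), fun i j h => ?_, fun a ha => ?_⟩
  · obtain ⟨d', g', h1, h2, h3⟩ := exists_long hM hG (max i j + 1)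
    have hi : i ∈ d' := h3 (by simp)
    have hj : j ∈ d' := h3 (by simp)
    have h4 := key d' g' h2 i hi
    have h5 := key d' g' h2 j hj
    refine h1.inj i hi j hj ?_
    rw [h4, h5]
    exact h
  · have hB := hM.base
    have haK : a ∈ {x | x ∈ M} := ha
    have hd : Dfn {x | x ∈ M} {x | x ∈ M} fun w : Fin 1 → ZFSet.{0} =>
        ∃ u ∈ sn (sn (w 0)), sn u = a := by
      apply hB.bex (hM.sn' (hM.sn' (DfnF.proj 0)))
      exact Dfn.eq (hM.sn' (DfnF.proj 0)) (DfnF.const haK)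
    obtain ⟨q, hq, h1⟩ := gen_meet hM hG (Q := fun p => ∃ u ∈ sn (sn p), sn u = a) hd (by
      intro p hp
      obtain ⟨N, -, g, hg, h1⟩ := exists_init hM hG hp 0
      by_cases h2 : ∃ i < N, g i = a
      · obtain ⟨i, hi, h2⟩ := h2
        refine ⟨_, cnd_mem hM hg, h1, ?_⟩
        rw [cnd, sn_pair, sn_pair]
        exact ⟨_, mem_rng.2 ⟨i, by simpa using hi, rfl⟩, by rw [sn_pair]; exact h2⟩
      · push Not at h2
        set g' : ℕ → ZFSet.{0} := fun i => if i < N then g i else a with hg'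
        have h3 : Ok {x | x ∈ M} (Finset.range (N + 1)) g' := by
          constructor
          · intro i hi j hj hij
            rw [Finset.mem_range] at hi hj
            simp only [hg'] at hij
            split_ifs at hij with h4 h5 h5
            · exact hg.inj i (by simpa using h4) j (by simpa using h5) hij
            · exact absurd hij (h2 i h4)
            · exact absurd hij.symm (h2 j h5)
            · omega
          · intro i hi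
            simp only [hg']
            split_ifs with h4
            · exact hg.mem i (by simpa using h4)
            · exact ha
        refine ⟨_, cnd_mem hM h3, FL_trans (cnd_le hM hg h3 (fun i hi => ?_) fun i hi => ?_) h1,
          ?_⟩
        · rw [Finset.mem_range] at hi ⊢
          omega
        · rw [Finset.mem_range] at hi
          simp [hg', hi]
        · rw [cnd, sn_pair, sn_pair]
          exact ⟨_, mem_rng.2 ⟨N, by simp, rfl⟩, by rw [sn_pair]; simp [hg']⟩)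
    obtain ⟨u, hu, h2⟩ := h1
    obtain ⟨-, d₁, e, f, rfl, h3⟩ := mem_FP.1 (hG.sub hq)
    rw [sn_pair, sn_pair] at hu
    have h4 : f ≠ ∅ := by
      rintro rfl
      exact ZFSet.notMem_empty _ hu
    obtain ⟨d', g', h5, h6⟩ := full_eq hM h3 (h3.dom.resolve_left h4)
    obtain ⟨h7, h8⟩ := ZFSet.pair_inj.1 h6
    obtain ⟨h9, h10⟩ := ZFSet.pair_inj.1 h8
    rw [h10] at hu
    obtain ⟨j, hj, rfl⟩ := mem_rng.1 hu
    rw [sn_pair] at h2
    refine ⟨j, ?_⟩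
    rw [← h2, key d' g' (h6 ▸ hq) j hj]

/-- The relations of the conditions in the filter. -/
theorem rel_iff {F : ℕ → ZFSet.{0}} (hF : ∀ d g, cnd d g ∈ G → ∀ i ∈ d, g i = F i)
    {d e f : ZFSet.{0}} (hp : pair d (pair e f) ∈ G) {i j : ℕ} (hi : nat i ∈ d)
    (hj : nat j ∈ d) : pair (nat i) (nat j) ∈ e ↔ F i ∈ F j := by
  obtain ⟨d₁, g₁, h1, h2, h3⟩ := exists_long hM hG 1
  obtain ⟨r, hr, h4, h5⟩ := hG.dir _ hp _ h2
  obtain ⟨d₂, g₂, h6, rfl, h8, h9⟩ := full_of_le hM ⟨0, h3 (by simp)⟩ h5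
  obtain ⟨-, -, h10, h11, -⟩ := mem_FL.1 h4
  have hi' : i ∈ d₂ := by
    obtain ⟨k, hk, h12⟩ := mem_rng.1 (h10 hi)
    rwa [nat_injective h12]
  have hj' : j ∈ d₂ := by
    obtain ⟨k, hk, h12⟩ := mem_rng.1 (h10 hj)
    rwa [nat_injective h12]
  rw [← h11, ZFSet.mem_inter, pair_mem_eR, hF _ _ hr i hi', hF _ _ hr j hj']
  exact ⟨fun h => h.1.2.2, fun h => ⟨⟨hi', hj', h⟩, ZFSet.pair_mem_prod.2 ⟨hi, hj⟩⟩⟩

/-- The hidden part of a condition in the filter is in the filter. -/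
theorem hidden_mem {d e f : ZFSet.{0}} (hp : pair d (pair e f) ∈ G) :
    pair d (pair e ∅) ∈ G := by
  obtain ⟨hpM, d', e', f', h1, h2⟩ := mem_FP.1 (hG.sub hp)
  obtain ⟨rfl, h3⟩ := ZFSet.pair_inj.1 h1
  obtain ⟨rfl, rfl⟩ := ZFSet.pair_inj.1 h3
  obtain ⟨hd, hef⟩ := hM.of_pair_mem hpM
  obtain ⟨he, hf⟩ := hM.of_pair_mem hef
  have h4 : pair d (pair e ∅) ∈ FP M := by
    refine mem_FP.2 ⟨hM.pair_mem hd (hM.pair_mem he hM.empty_mem), d, e, ∅, rfl, h2.sub, h2.fin,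
      h2.rel, h2.acyclic, ?_, ?_, Or.inl rfl, ?_⟩
    · exact fun w hw => absurd hw (ZFSet.notMem_empty _)
    · exact fun _ _ _ _ hw => absurd hw (ZFSet.notMem_empty _)
    · exact fun _ _ _ _ _ hw => absurd hw (ZFSet.notMem_empty _)
  refine hG.up _ hp _ h4 (mem_FL.2 ⟨hG.sub hp, h4, fun _ h => h, ?_,
    fun z hz => absurd hz (ZFSet.notMem_empty _)⟩)
  ext w
  rw [ZFSet.mem_inter]
  exact ⟨fun h => h.1, fun h => ⟨h, h2.rel h⟩⟩

end

end Pool.Agent.R597
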