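import Pool.Agent.R597.Fr4

/-!
# The wild generic filter for Friedman's forcing
-/

set_option autoImplicit false
set_option linter.unreachableTactic false
set_option linter.unusedTactic false
set_option linter.unusedSectionVars false
set_option linter.unusedVariables false

namespace Pool.Agent.R597

open Pool.Agent.W868 Pool.Agent.W868.GM Pool.Agent.Y588
open ZFSet (pair)

/-! ### Closure properties of reflecting sets -/

theorem dfn_code {K S : Set ZFSet.{0}} {n : ℕ} {R : (Fin n → ZFSet.{0}) → Prop}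
    (h : Dfn S K R) : ∃ φ : Fml ZFSet.{0} n, φ.Over S ∧ ∀ v, (∀ i, v i ∈ K) →
      (Sat K id φ v ↔ R v) := h

/-- Reflection of definable relations. -/
theorem reflect' (K : Set ZFSet.{0}) (g : ℕ → ZFSet.{0}) (k : ℕ) {n : ℕ}
    {R : (Fin (n + 1) → ZFSet.{0}) → Prop} (hR : Dfn {a | ∃ j < k, a = g j} K R) :
    ∃ m₀, ∀ m ≥ m₀, ∀ x, (∀ y ∈ x, y ∈ K) → Kn K m x → (∀ j < k, g j ∈ x) →
      ∀ v : Fin n → ZFSet.{0},
      (∀ i, v i ∈ x) → (∃ b ∈ K, R (Fin.cons b v)) → ∃ b ∈ x, R (Fin.cons b v) := by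
  obtain ⟨φ, h1, h2⟩ := hR
  obtain ⟨m₀, h⟩ := reflect K g k φ h1
  refine ⟨m₀, fun m hm x hxK hx hg v hv h3 => ?_⟩
  obtain ⟨b, hb, h4⟩ := h3
  obtain ⟨b', hb', h5⟩ := h m hm x hx hg v hv
    ⟨b, hb, (h2 _ (cons_mem hb fun i => hxK _ (hv i))).2 h4⟩
  exact ⟨b', hb', (h2 _ (cons_mem (hxK _ hb') fun i => hxK _ (hv i))).1 h5⟩

theorem closure {K : Set ZFSet.{0}} (hK : IsZF K) : ∃ m₀, ∀ m ≥ m₀, ∀ x ∈ K, Kn K m x →
    Cls {z | z ∈ x} ∧ ∀ q ∈ x, ∀ i ∈ x, ∀ b ∈ K,
      (∃ d e f, q = pair d (pair e f) ∧ pair i b ∈ f ∧ ∀ c, pair i c ∈ f → c = b) → b ∈ x := by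
  have hsub : ∀ x ∈ K, ∀ y ∈ x, y ∈ K := fun x hx y hy => hK.trans _ hx _ hy
  obtain ⟨m₁, h1⟩ := reflect' K (fun _ => ∅) 0 (n := 0) (R := fun v => ∀ z ∈ v 0, ¬ z = z) (by
    apply D0.dfn _ hK.trans
    apply D0.ball (D0v.proj 0)
    exact (D0.eq (D0v.proj 0) (D0v.proj 0)).not)
  obtain ⟨m₂, h2⟩ := reflect' K (fun _ => ∅) 0 (n := 2) (R := fun v => v 1 ∈ v 0 ∧
    (∀ z ∈ v 2, z ∈ v 0) ∧ ∀ z ∈ v 0, z = v 1 ∨ z ∈ v 2) (by
    apply D0.dfn _ hK.trans
    (repeat' first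
      | assumption
      | exact D0v.proj _
      | apply D0.not | apply D0.and | apply D0.expair | apply D0.or | apply D0.isPair | apply D0.pairMem
      | apply D0.bex | apply D0.ball | apply D0.imp | apply D0.iff | apply D0.subset
      | apply D0.eq | apply D0.mem))
  obtain ⟨m₃, h3⟩ := reflect' K (fun _ => ∅) 0 (n := 2) (R := fun v =>
    ∃ d y, v 1 = pair d y ∧ ∃ e f, y = pair e f ∧ pair (v 2) (v 0) ∈ f) (by
    apply D0.dfn _ hK.trans
    (repeat' first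
      | assumption
      | exact D0v.proj _
      | apply D0.not | apply D0.and | apply D0.expair | apply D0.or | apply D0.isPair | apply D0.pairMem
      | apply D0.bex | apply D0.ball | apply D0.imp | apply D0.iff | apply D0.subset
      | apply D0.eq | apply D0.mem))
  refine ⟨max m₁ (max m₂ m₃), fun m hm x hx hKn => ⟨⟨?_, ?_⟩, ?_⟩⟩
  · obtain ⟨b, hb, h4⟩ := h1 m (by omega) x (hsub x hx) hKn (fun j hj => by omega) Fin.elim0
      (fun i => i.elim0) ⟨∅, hK.empty_mem, fun z hz => absurd hz (ZFSet.notMem_empty _)⟩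
    have h5 : b = ∅ := by
      rw [ZFSet.eq_empty]
      exact fun z hz => h4 z hz rfl
    rw [← h5]
    exact hb
  · intro a ha b hb
    obtain ⟨c, hc, h4, h5, h6⟩ := h2 m (by omega) x (hsub x hx) hKn (fun j hj => by omega)
      ![a, b] (by
        intro i
        fin_cases i
        · exact ha
        · exact hb) ⟨insert a b, hK.insert_mem (hsub x hx a ha) (hsub x hx b hb), by
        refine ⟨?_, ?_, ?_⟩
        · exact ZFSet.mem_insert _ _
        · intro z hz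
          exact ZFSet.mem_insert_of_mem _ hz
        · intro z hz
          exact ZFSet.mem_insert_iff.1 hz⟩
    have h7 : c = insert a b := by
      ext z
      rw [ZFSet.mem_insert_iff]
      constructor
      · exact h6 z
      · rintro (rfl | hz)
        · exact h4
        · exact h5 z hz
    rw [← h7]
    exact hc
  · rintro q hq i hi b hb ⟨d, e, f, rfl, hib, huniq⟩
    obtain ⟨c, hc, d', y, h4, e', f', rfl, h5⟩ := h3 m (by omega) x (hsub x hx) hKn
      (fun j hj => by omega) ![pair d (pair e f), i] (by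
        intro j
        fin_cases j
        · exact hq
        · exact hi) ⟨b, hb, d, pair e f, rfl, e, f, rfl, hib⟩
    have h4 : pair d (pair e f) = pair d' (pair e' f') := h4
    have h5 : pair i c ∈ f' := h5
    obtain ⟨rfl, h6⟩ := ZFSet.pair_inj.1 h4
    obtain ⟨rfl, rfl⟩ := ZFSet.pair_inj.1 h6
    rw [← huniq c h5]
    exact hc

/-! ### Parameters of formulas -/

theorem exists_params {A : Set ZFSet.{0}} : {n : ℕ} → (φ : Fml ZFSet.{0} n) → φ.Over A →
    ∃ l : List ZFSet.{0}, (∀ a ∈ l, a ∈ A) ∧ φ.Over {a | a ∈ l} := by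
  have hterm : ∀ {n : ℕ} (t : Fin n ⊕ ZFSet.{0}), TOver A t →
      ∃ l : List ZFSet.{0}, (∀ a ∈ l, a ∈ A) ∧ TOver {a | a ∈ l} t := by
    intro n t ht
    cases t with
    | inl i => exact ⟨[], by simp, TOver.inl _⟩
    | inr a =>
      refine ⟨[a], fun b hb => ?_, tOver_inr.2 (by simp)⟩
      rw [List.mem_singleton] at hb
      rw [hb]
      exact ht a rfl
  intro n φ
  induction φ with
  | mem s t =>
    intro h
    obtain ⟨l, h1, h2⟩ := hterm s h.1
    obtain ⟨l', h3, h4⟩ := hterm t h.2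
    refine ⟨l ++ l', fun a ha => ?_, h2.mono fun a ha => ?_, h4.mono fun a ha => ?_⟩
    · rcases List.mem_append.1 ha with h | h
      · exact h1 a h
      · exact h3 a h
    · exact List.mem_append.2 (Or.inl ha)
    · exact List.mem_append.2 (Or.inr ha)
  | eq s t =>
    intro h
    obtain ⟨l, h1, h2⟩ := hterm s h.1
    obtain ⟨l', h3, h4⟩ := hterm t h.2
    refine ⟨l ++ l', fun a ha => ?_, h2.mono fun a ha => ?_, h4.mono fun a ha => ?_⟩
    · rcases List.mem_append.1 ha with h | h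
      · exact h1 a h
      · exact h3 a h
    · exact List.mem_append.2 (Or.inl ha)
    · exact List.mem_append.2 (Or.inr ha)
  | neg φ ih => exact ih
  | and φ ψ ih ih' =>
    intro h
    obtain ⟨l, h1, h2⟩ := ih h.1
    obtain ⟨l', h3, h4⟩ := ih' h.2
    refine ⟨l ++ l', fun a ha => ?_, h2.mono fun a ha => ?_, h4.mono fun a ha => ?_⟩
    · rcases List.mem_append.1 ha with h | h
      · exact h1 a h
      · exact h3 a h
    · exact List.mem_append.2 (Or.inl ha)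
    · exact List.mem_append.2 (Or.inr ha)
  | ex φ ih => exact ih

/-! ### Safe conditions -/

/-- The function `g` on `{0, ..., N - 1}` is safe. -/
structure Sf (K : Set ZFSet.{0}) (N : ℕ) (g : ℕ → ZFSet.{0}) : Prop where
  ok : Ok K (Finset.range N) g
  safe : ∀ n, 1 ≤ n → n < N → ¬ (Kn K n (g n) ∧ ∀ i < n, g i ∈ g n)

section

variable {M : ZFSet.{0}} (hM : IsZF {x | x ∈ M})

include hM

theorem sf_one {N : ℕ} {g : ℕ → ZFSet.{0}} (h : Sf {x | x ∈ M} N g) : ∃ N' ≥ 1, N ≤ N' ∧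
    ∃ g', Sf {x | x ∈ M} N' g' ∧ ∀ i < N, g' i = g i := by
  by_cases hN : N = 0
  · subst hN
    refine ⟨1, le_rfl, by omega, fun _ => ∅, ⟨⟨fun i hi j hj _ => ?_, fun i hi => ?_⟩,
      fun n h1 h2 => by omega⟩, fun i hi => by omega⟩
    · rw [Finset.mem_range] at hi hj
      omega
    · exact hM.empty_mem
  · exact ⟨N, by omega, le_rfl, g, h, fun _ _ => rfl⟩

theorem sf_fill {N N' : ℕ} {g : ℕ → ZFSet.{0}} (hN : 1 ≤ N) (hNN : N ≤ N')
    (h : Sf {x | x ∈ M} N g) : ∃ g', Sf {x | x ∈ M} N' g' ∧ ∀ i < N, g' i = g i := by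
  obtain ⟨g', h1, h2, h3⟩ := fill hM h.ok (g 0)
  have h2' : ∀ i < N, g' i = g i := fun i hi => h2 i (by simpa using hi)
  refine ⟨g', ⟨h1 N' fun i hi => ?_, fun n hn hnN hc => ?_⟩, h2'⟩
  · rw [Finset.mem_range] at hi ⊢
    omega
  · by_cases h4 : n < N
    · apply h.safe n hn h4
      rw [← h2' n h4]
      refine ⟨hc.1, fun i hi => ?_⟩
      rw [← h2' i (by omega)]
      exact hc.2 i hi
    · have h5 := hc.2 0 (by omega)
      rw [h2' 0 (by omega)] at h5
      exact h3 n (by simpa using h4) h5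

theorem sf_add {N : ℕ} {g : ℕ → ZFSet.{0}} (hN : 1 ≤ N) (h : Sf {x | x ∈ M} N g)
    {a : ZFSet.{0}} (ha : a ∈ M) : ∃ N' ≥ N, ∃ g', Sf {x | x ∈ M} N' g' ∧
      (∀ i < N, g' i = g i) ∧ ∃ i < N', g' i = a := by
  by_cases h1 : ∃ i < N, g i = a
  · obtain ⟨i, hi, h1⟩ := h1
    exact ⟨N, le_rfl, g, h, fun _ _ => rfl, i, hi, h1⟩
  push Not at h1
  by_cases h2 : ∃ i < N, g i ∉ a
  · obtain ⟨i₀, hi₀, h2⟩ := h2
    refine ⟨N + 1, by omega, fun i => if i < N then g i else a, ⟨⟨?_, ?_⟩, ?_⟩, ?_, N, by omega,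
      by simp⟩
    · intro i hi j hj hij
      rw [Finset.mem_range] at hi hj
      split_ifs at hij with h4 h5 h5
      · exact h.ok.inj i (by simpa using h4) j (by simpa using h5) hij
      · exact absurd hij (h1 i h4)
      · exact absurd hij.symm (h1 j h5)
      · omega
    · intro i hi
      split_ifs with h4
      · exact h.ok.mem i (by simpa using h4)
      · exact ha
    · intro n hn hnN hc
      by_cases h4 : n < N
      · apply h.safe n hn h4
        have h5 := hc.1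
        have h6 := hc.2
        simp only [h4, if_true] at h5 h6
        refine ⟨h5, fun i hi => ?_⟩
        have h7 := h6 i hi
        rwa [if_pos (by omega)] at h7
      · have h7 := hc.2 i₀ (by omega)
        simp only [h4, if_false, hi₀, if_true] at h7
        exact h2 h7
    · intro i hi
      simp [hi]
  · push Not at h2
    have hne : ∀ i < N, g i ≠ {a} := by
      intro i hi h3
      have h4 := h2 i hi
      rw [h3] at h4
      exact ZFSet.mem_asymm h4 (ZFSet.mem_singleton.2 rfl)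
    have haa : a ≠ ({a} : ZFSet.{0}) := by
      intro h3
      have h4 : a ∈ ({a} : ZFSet.{0}) := ZFSet.mem_singleton.2 rfl
      rw [← h3] at h4
      exact ZFSet.mem_irrefl _ h4
    refine ⟨N + 2, by omega, fun i => if i < N then g i else if i = N then {a} else a,
      ⟨⟨?_, ?_⟩, ?_⟩, ?_, N + 1, by omega, by simp⟩
    · intro i hi j hj hij
      rw [Finset.mem_range] at hi hj
      split_ifs at hij with h4 h5 h6 h5 h6 h7 h7 h8
      · exact h.ok.inj i (by simpa using h4) j (by simpa using h5) hij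
      · exact absurd hij (hne i h4)
      · exact absurd hij (h1 i h4)
      · exact absurd hij.symm (hne j h6)
      · omega
      · exact absurd hij.symm haa
      · exact absurd hij.symm (h1 j h7)
      · exact absurd hij haa
      · omega
    · intro i hi
      split_ifs with h4 h5
      · exact h.ok.mem i (by simpa using h4)
      · exact hM.single_mem ha
      · exact ha
    · intro n hn hnN hc
      by_cases h4 : n < N
      · apply h.safe n hn h4
        have h5 := hc.1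
        have h6 := hc.2
        simp only [h4, if_true] at h5 h6
        refine ⟨h5, fun i hi => ?_⟩
        have h7 := h6 i hi
        rwa [if_pos (by omega)] at h7
      · by_cases h5 : n = N
        · have h7 := hc.2 0 (by omega)
          rw [if_pos (show 0 < N by omega), if_neg h4, if_pos h5, ZFSet.mem_singleton] at h7
          exact h1 0 (by omega) h7
        · have h7 := hc.2 N (by omega)
          rw [if_neg (lt_irrefl N), if_pos rfl, if_neg h4, if_neg h5] at h7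
          exact ZFSet.mem_asymm h7 (ZFSet.mem_singleton.2 rfl)
    · intro i hi
      simp [hi]

theorem sf_params {N : ℕ} {g : ℕ → ZFSet.{0}} (hN : 1 ≤ N) (h : Sf {x | x ∈ M} N g) :
    (l : List ZFSet.{0}) → (∀ a ∈ l, a ∈ M) → ∃ N' ≥ N, ∃ g', Sf {x | x ∈ M} N' g' ∧
      (∀ i < N, g' i = g i) ∧ ∀ a ∈ l, ∃ i < N', g' i = a
  | [], _ => ⟨N, le_rfl, g, h, fun _ _ => rfl, by simp⟩
  | a :: l, hl => by
    obtain ⟨N₁, hN₁, g₁, h1, h2, h3⟩ := sf_params hN h l fun b hb =>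
      hl b (List.mem_cons_of_mem _ hb)
    obtain ⟨N₂, hN₂, g₂, h4, h5, h6⟩ := sf_add hM (by omega) h1 (hl a (by simp))
    refine ⟨N₂, by omega, g₂, h4, fun i hi => ?_, fun b hb => ?_⟩
    · rw [h5 i (by omega), h2 i hi]
    · rcases List.mem_cons.1 hb with rfl | hb
      · exact h6
      · obtain ⟨i, hi, h7⟩ := h3 b hb
        exact ⟨i, by omega, by rw [h5 i hi, h7]⟩

/-- The main step of the construction of the wild filter. -/
theorem sf_step {N : ℕ} {g : ℕ → ZFSet.{0}} (h : Sf {x | x ∈ M} N g) {D : ZFSet.{0}}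
    (hD : D ∈ DefC M) (hDP : D ⊆ FP M) (hdense : ∀ p ∈ FP M, ∃ q ∈ D, pair q p ∈ FL M) :
    ∃ N' ≥ N, ∃ g', Sf {x | x ∈ M} N' g' ∧ (∀ i < N, g' i = g i) ∧
      ∃ q ∈ D, pair (cnd (Finset.range N') g') q ∈ FL M := by
  set K : Set ZFSet.{0} := {x | x ∈ M} with hK
  obtain ⟨-, φ, hφ, hφ'⟩ := mem_DefC.1 hD
  obtain ⟨l, hl, hφl⟩ := exists_params φ hφ
  set g₀ : ℕ → ZFSet.{0} := fun j => l.getD j ∅ with hg₀
  have hlg : {a | a ∈ l} ⊆ {a | ∃ j < l.length, a = g₀ j} := by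
    intro a ha
    obtain ⟨j, hj, h1⟩ := List.mem_iff_getElem.1 ha
    refine ⟨j, hj, ?_⟩
    rw [hg₀]
    simp only
    rw [List.getD_eq_getElem _ _ hj, h1]
  have hg₀l : ∀ j < l.length, g₀ j ∈ l := by
    intro j hj
    rw [hg₀]
    simp only
    rw [List.getD_eq_getElem _ _ hj]
    exact List.getElem_mem hj
  -- the relation
  have hR : Dfn {a | ∃ j < l.length, a = g₀ j} K fun w : Fin 2 → ZFSet.{0} =>
      w 0 ∈ D ∧ pair (w 0) (w 1) ∈ FL M := by
    apply Dfn.and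
    · have h1 : Dfn {a | ∃ j < l.length, a = g₀ j} K fun w : Fin 1 → ZFSet.{0} => w 0 ∈ D := by
        refine ⟨φ, hφl.mono hlg, fun v hv => ?_⟩
        rw [vec1 (v := v)]
        exact (hφ' _ (hv 0)).symm
      exact h1.comp ![0]
    · exact dfn_FL hM
  obtain ⟨m₁, h1⟩ := reflect' K g₀ l.length (n := 1) hR
  obtain ⟨m₂, h2⟩ := closure hM
  -- enlarge the condition
  obtain ⟨N₁, hN₁, hNN₁, g₁, h3, h4⟩ := sf_one hM h
  obtain ⟨N₂, hN₂, g₂, h5, h6, h7⟩ := sf_params hM hN₁ h3 l fun a ha => hl a ha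
  obtain ⟨g₃, h8, h9⟩ := sf_fill hM (N := N₂) (N' := max N₂ (max m₁ m₂)) (by omega)
    (le_max_left _ _) h5
  set N₃ := max N₂ (max m₁ m₂) with hN₃
  have hN₃1 : 1 ≤ N₃ := by omega
  have hN₃2 : N₂ ≤ N₃ := le_max_left _ _
  have hg₃ : ∀ i < N₃, g₃ i ∈ K := fun i hi => h8.ok.mem i (by simpa using hi)
  -- the reflecting set
  have hex : ∃ x ∈ K, Kn K N₃ x ∧ ∀ i < N₃, g₃ i ∈ x := by
    have hr : rng (Finset.range N₃) g₃ ∈ K := (IsZF.cls hM).fin_mem (rng_fin _ _) fun y hy => by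
      obtain ⟨i, hi, rfl⟩ := mem_rng.1 hy
      exact hg₃ i (by simpa using hi)
    obtain ⟨x, hx, h10, h11⟩ := exists_Kn hM N₃ hr
    exact ⟨x, hx, h11, fun i hi => h10 (mem_rng.2 ⟨i, by simpa using hi, rfl⟩)⟩
  have hne : {x : ZFSet.{0} | x ∈ K ∧ Kn K N₃ x ∧ ∀ i < N₃, g₃ i ∈ x}.Nonempty := hex
  set x := ZFSet.mem_wf.min _ hne with hx
  obtain ⟨hxK, hxKn, hxg⟩ : x ∈ {x : ZFSet.{0} | x ∈ K ∧ Kn K N₃ x ∧ ∀ i < N₃, g₃ i ∈ x} :=
    ZFSet.mem_wf.min_mem _ hne
  have hmin : ∀ y ∈ x, ¬ (Kn K N₃ y ∧ ∀ i < N₃, g₃ i ∈ y) := by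
    intro y hy hc
    exact ZFSet.mem_wf.not_lt_min {x : ZFSet.{0} | x ∈ K ∧ Kn K N₃ x ∧ ∀ i < N₃, g₃ i ∈ x}
      (show y ∈ _ from ⟨hM.trans _ hxK _ hy, hc⟩) hy
  have hxsub : ∀ y ∈ x, y ∈ K := fun y hy => hM.trans _ hxK _ hy
  obtain ⟨hcls, hval⟩ := h2 N₃ (by omega) x hxK hxKn
  have hpx : cnd (Finset.range N₃) g₃ ∈ x :=
    cnd_cls hcls fun i hi => hxg i (by simpa using hi)
  obtain ⟨q₀, hq₀, hq₀p⟩ := hdense _ (cnd_mem hM h8.ok)
  obtain ⟨q, hqx, hqD, hqp⟩ := h1 N₃ (by omega) x hxsub hxKn (fun j hj => by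
    obtain ⟨i, hi, h10⟩ := h7 _ (hg₀l j hj)
    have h11 := hxg i (by omega)
    rw [h9 i hi, h10] at h11
    exact h11) ![cnd (Finset.range N₃) g₃] (by
      intro i
      fin_cases i
      exact hpx) ⟨q₀, (mem_FP.1 (hDP hq₀)).1, hq₀, hq₀p⟩
  have hqD : q ∈ D := hqD
  have hqp : pair q (cnd (Finset.range N₃) g₃) ∈ FL M := hqp
  obtain ⟨d', g', h10, rfl, h11, h12⟩ := full_of_le hM ⟨0, Finset.mem_range.2 hN₃1⟩ hqp
  have h12' : ∀ i < N₃, g' i = g₃ i := fun i hi => h12 i (by simpa using hi)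
  have hd' : ∀ i < N₃, i ∈ d' := fun i hi => h11 (by simpa using hi)
  have hg'x : ∀ j ∈ d', g' j ∈ x := by
    intro j hj
    refine hval _ hqx (nat j) (hcls.nat j) _ (h10.mem j hj) ⟨_, _, _, rfl, mem_rng.2 ⟨j, hj, rfl⟩,
      fun c hc => ?_⟩
    obtain ⟨i, hi, h13⟩ := mem_rng.1 hc
    obtain ⟨h14, h15⟩ := ZFSet.pair_inj.1 h13
    rw [h15, nat_injective h14]
  -- fill the gaps
  obtain ⟨g'', h13, h14, h15⟩ := fill hM h10 (g' 0)
  have hdN : d' ⊆ Finset.range (max N₃ (d'.sup id + 1)) := by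
    intro i hi
    rw [Finset.mem_range]
    have h4 : i ≤ d'.sup id := Finset.le_sup (f := id) hi
    omega
  refine ⟨max N₃ (d'.sup id + 1), by omega, g'', ⟨h13 _ hdN, fun n hn hnN hc => ?_⟩, fun i hi => ?_,
    _, hqD, cnd_le hM h10 (h13 _ hdN) hdN h14⟩
  · by_cases hnd : n ∈ d'
    · by_cases hn3 : n < N₃
      · apply h8.safe n hn hn3
        rw [← h12' n hn3, ← h14 n hnd]
        refine ⟨hc.1, fun i hi => ?_⟩
        rw [← h12' i (by omega), ← h14 i (hd' i (by omega))]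
        exact hc.2 i hi
      · rw [h14 n hnd] at hc
        refine hmin _ (hg'x n hnd) ⟨Kn_mono (by omega) hc.1, fun i hi => ?_⟩
        rw [← h12' i hi, ← h14 i (hd' i hi)]
        exact hc.2 i (by omega)
    · have h16 := hc.2 0 (by omega)
      rw [h14 0 (hd' 0 (by omega))] at h16
      exact h15 n hnd h16
  · rw [h14 i (hd' i (by omega)), h12' i (by omega), h9 i (by omega), h6 i (by omega),
      h4 i hi]

theorem cnd_inj {d d' : Finset ℕ} {g g' : ℕ → ZFSet.{0}} (h : cnd d g = cnd d' g') :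
    d = d' ∧ ∀ i ∈ d, g i = g' i := by
  obtain ⟨h1, h2⟩ := ZFSet.pair_inj.1 h
  obtain ⟨h3, h4⟩ := ZFSet.pair_inj.1 h2
  have h5 : ∀ i ∈ d, i ∈ d' ∧ g i = g' i := by
    intro i hi
    have h6 : pair (nat i) (g i) ∈ rng d' fun i => pair (nat i) (g' i) :=
      h4 ▸ mem_rng.2 ⟨i, hi, rfl⟩
    obtain ⟨j, hj, h7⟩ := mem_rng.1 h6
    obtain ⟨h8, h9⟩ := ZFSet.pair_inj.1 h7
    rw [h9, nat_injective h8]
    exact ⟨hj, rfl⟩
  refine ⟨?_, fun i hi => (h5 i hi).2⟩
  ext i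
  refine ⟨fun hi => (h5 i hi).1, fun hi => ?_⟩
  have h6 : nat i ∈ rng d nat := h1 ▸ mem_rng.2 ⟨i, hi, rfl⟩
  obtain ⟨j, hj, h7⟩ := mem_rng.1 h6
  rw [nat_injective h7]
  exact hj

/-- The wild generic filter. -/
theorem exists_wild (hc : {x | x ∈ M}.Countable) : ∃ G, IsGen (DefC M) (FP M) (FL M) G ∧
    ∀ F : ℕ → ZFSet.{0}, (∀ d g, cnd d g ∈ G → ∀ i ∈ d, g i = F i) →
      ∀ n ≥ 1, ¬ (Kn {x | x ∈ M} n (F n) ∧ ∀ i < n, F i ∈ F n) := by
  classical
  set K : Set ZFSet.{0} := {x | x ∈ M} with hK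
  set P' : ZFSet.{0} := ZFSet.sep (fun p => ∃ N g, Sf K N g ∧ p = cnd (Finset.range N) g)
    (FP M) with hP'
  have hmem : ∀ p, p ∈ P' ↔ ∃ N g, Sf K N g ∧ p = cnd (Finset.range N) g := by
    intro p
    rw [hP', ZFSet.mem_sep]
    refine ⟨fun h => h.2, fun h => ⟨?_, h⟩⟩
    obtain ⟨N, g, h, rfl⟩ := h
    exact cnd_mem hM h.ok
  have hsub : ∀ p ∈ P', p ∈ FP M := fun p hp => (ZFSet.mem_sep.1 hp).1
  set D' : ZFSet.{0} → ZFSet.{0} := fun D => ZFSet.sep (fun p => ∃ q ∈ D, pair p q ∈ FL M) P'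
    with hD'
  set V' : Set ZFSet.{0} := insert P' (insert (FL M) (D' '' {D | D ∈ DefC M})) with hV'
  have hcV : V'.Countable := (((defC_countable hc).image D').insert _).insert _
  have hforce : IsForcing V' P' (FL M) := by
    refine ⟨Set.mem_insert _ _, Set.mem_insert_of_mem _ (Set.mem_insert _ _),
      fun p hp => FL_refl (hsub p hp), fun p hp q hq r hr h1 h2 => FL_trans h1 h2,
      cnd (Finset.range 0) fun _ => ∅, (hmem _).2 ⟨0, fun _ => ∅, ⟨⟨fun i hi => ?_, fun i hi => ?_⟩,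
      fun n h1 h2 => by omega⟩, rfl⟩, fun p hp => ?_⟩
    · simp at hi
    · simp at hi
    · exact top_le hM (hsub p hp) _
  have h0 : cnd (Finset.range 0) (fun _ => ∅) ∈ P' := (hmem _).2 ⟨0, fun _ => ∅,
    ⟨⟨fun i hi => by simp at hi, fun i hi => by simp at hi⟩, fun n h1 h2 => by omega⟩, rfl⟩
  obtain ⟨G', hG', -⟩ := exists_gen hcV hforce h0
  set G : ZFSet.{0} := ZFSet.sep (fun p => ∃ r ∈ G', pair r p ∈ FL M) (FP M) with hG
  have hmG : ∀ p, p ∈ G ↔ p ∈ FP M ∧ ∃ r ∈ G', pair r p ∈ FL M := fun p => ZFSet.mem_sep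
  have hGG : ∀ r ∈ G', r ∈ G := fun r hr => (hmG r).2 ⟨hsub r (hG'.sub hr), r, hr,
    FL_refl (hsub r (hG'.sub hr))⟩
  have hgen : IsGen (DefC M) (FP M) (FL M) G := by
    refine ⟨fun p hp => ((hmG p).1 hp).1, ?_, ?_, ?_, ?_⟩
    · obtain ⟨r, hr⟩ := hG'.nonempty
      exact ⟨r, hGG r hr⟩
    · intro q hq p hp hqp
      obtain ⟨-, r, hr, h1⟩ := (hmG q).1 hq
      exact (hmG p).2 ⟨hp, r, hr, FL_trans h1 hqp⟩
    · intro p hp q hq
      obtain ⟨-, r, hr, h1⟩ := (hmG p).1 hp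
      obtain ⟨-, s, hs, h2⟩ := (hmG q).1 hq
      obtain ⟨t, ht, h3, h4⟩ := hG'.dir r hr s hs
      exact ⟨t, hGG t ht, FL_trans h3 h1, FL_trans h4 h2⟩
    · intro D hD hDP hdense
      obtain ⟨t, ht, htG⟩ := hG'.meet (D' D) (Set.mem_insert_of_mem _
        (Set.mem_insert_of_mem _ ⟨D, hD, rfl⟩)) (fun z hz => (ZFSet.mem_sep.1 hz).1) (by
          intro p hp
          obtain ⟨N, g, h1, rfl⟩ := (hmem p).1 hp
          obtain ⟨N', hN', g', h2, h3, q, hq, h4⟩ := sf_step hM h1 hD hDP hdense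
          refine ⟨cnd (Finset.range N') g', ZFSet.mem_sep.2 ⟨(hmem _).2 ⟨N', g', h2, rfl⟩,
            q, hq, h4⟩, cnd_le hM h1.ok h2.ok (fun i hi => ?_) fun i hi => h3 i (by
              simpa using hi)⟩
          rw [Finset.mem_range] at hi ⊢
          omega)
      obtain ⟨-, q, hq, h1⟩ := ZFSet.mem_sep.1 ht
      exact ⟨q, hq, (hmG q).2 ⟨hDP hq, t, htG, h1⟩⟩
  refine ⟨G, hgen, fun F hF n hn hcon => ?_⟩
  obtain ⟨d, g, h1, h2, h3⟩ := exists_long hM hgen (n + 1)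
  obtain ⟨-, r, hr, h4⟩ := (hmG _).1 h2
  obtain ⟨N, g', h5, rfl⟩ := (hmem r).1 (hG'.sub hr)
  obtain ⟨d₁, g₁, -, h6, h7, h8⟩ := full_of_le hM ⟨n, h3 (by simp)⟩ h4
  obtain ⟨h9, h10⟩ := cnd_inj hM h6
  have hnN : n < N := by
    have h11 := h7 (h3 (show n ∈ Finset.range (n + 1) by simp))
    rw [← h9, Finset.mem_range] at h11
    exact h11
  have h11 : ∀ i ≤ n, g' i = F i := fun i hi =>
    hF _ _ (hGG _ hr) i (by simpa using by omega)
  apply h5.safe n hn hnN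
  rw [h11 n le_rfl]
  refine ⟨hcon.1, fun i hi => ?_⟩
  rw [h11 i hi.le]
  exact hcon.2 i hi

/-- Below every condition there is a generic filter that is not wild. -/
theorem exists_tame (hc : {x | x ∈ M}.Countable) {p : ZFSet.{0}} (hp : p ∈ FP M) :
    ∃ G, IsGen (DefC M) (FP M) (FL M) G ∧ p ∈ G ∧
    ∀ F : ℕ → ZFSet.{0}, (∀ d g, cnd d g ∈ G → ∀ i ∈ d, g i = F i) →
      ∃ n ≥ 1, Kn {x | x ∈ M} n (F n) ∧ ∀ i < n, F i ∈ F n := by
  obtain ⟨d, g, hg, h1⟩ := exists_full hM hp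
  obtain ⟨g', h2, h3, -⟩ := fill hM hg ∅
  set N := d.sup id + 1 with hN
  have hd : d ⊆ Finset.range N := by
    intro i hi
    rw [Finset.mem_range]
    have h4 : i ≤ d.sup id := Finset.le_sup (f := id) hi
    omega
  have h4 := h2 N hd
  have hr : rng (Finset.range N) g' ∈ {x | x ∈ M} :=
    (IsZF.cls hM).fin_mem (rng_fin _ _) fun y hy => by
      obtain ⟨i, hi, rfl⟩ := mem_rng.1 hy
      exact h4.mem i hi
  obtain ⟨x, hx, h5, h6⟩ := exists_Kn hM N hr
  have h7 : ∀ i < N, g' i ∈ x := fun i hi => h5 (mem_rng.2 ⟨i, by simpa using hi, rfl⟩)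
  set g₁ : ℕ → ZFSet.{0} := fun i => if i < N then g' i else x with hg₁
  have h8 : Ok {x | x ∈ M} (Finset.range (N + 1)) g₁ := by
    constructor
    · intro i hi j hj hij
      rw [Finset.mem_range] at hi hj
      simp only [hg₁] at hij
      split_ifs at hij with h8 h9 h9
      · exact h4.inj i (by simpa using h8) j (by simpa using h9) hij
      · have h10 := h7 i h8
        rw [hij] at h10
        exact absurd h10 (ZFSet.mem_irrefl _)
      · have h10 := h7 j h9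
        rw [← hij] at h10
        exact absurd h10 (ZFSet.mem_irrefl _)
      · omega
    · intro i hi
      simp only [hg₁]
      split_ifs with h8
      · exact h4.mem i (by simpa using h8)
      · exact hx
  have h9 : pair (cnd (Finset.range (N + 1)) g₁) p ∈ FL M := by
    refine FL_trans (cnd_le hM h4 h8 (fun i hi => ?_) fun i hi => ?_)
      (FL_trans (cnd_le hM hg h4 hd h3) h1)
    · rw [Finset.mem_range] at hi ⊢
      omega
    · rw [Finset.mem_range] at hi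
      simp [hg₁, hi]
  obtain ⟨G, hG, hpG⟩ := exists_genF hM hc (cnd_mem hM h8)
  refine ⟨G, hG, hG.up _ hpG _ hp h9, fun F hF => ⟨N, by omega, ?_⟩⟩
  have h10 : ∀ i ≤ N, g₁ i = F i := fun i hi => hF _ _ hpG i (by simpa using by omega)
  rw [← h10 N le_rfl]
  refine ⟨?_, fun i hi => ?_⟩
  · simpa [hg₁] using h6
  · rw [← h10 i hi.le]
    simpa [hg₁, hi] using h7 i hi

end

end Pool.Agent.R597
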