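import Pool.Agent.W868.GM.Dfs
import Pool.Agent.W868.Clo

/-!
# Class forcing over transitive models of `GB⁻`: the definitions

Everything takes place inside the type `ZFSet.{0}` of all sets. As the models are countable, the
sets and the classes of a model are sets in this sense. `Pool.Agent.W868.Defs` contains the
formulas of set theory with parameters (`Fml`, `Fml.Over`) and their truth (`Sat`), and
`Pool.Agent.W868.GM.Dfs` the generic filters (`IsGeneric`) and the values of names (`ev`).
-/

set_option autoImplicit false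

namespace Pool.Agent.R597

open Pool.Agent.W868 Pool.Agent.W868.GM
open ZFSet (pair)

/-- `(M, C)` is a transitive model of `GB⁻`: `M` is transitive, the elements of `C` are subsets
of `M`, all the elements of `M` are in `C`, and the axioms of pairing, union and infinity, the
schemes of separation and collection with class parameters, and first order class comprehension
with class parameters hold. The formulas have parameters from `C` (sets and classes), and their
quantifiers range over `M`. Extensionality and foundation hold for sets and for classes as the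
membership relation of the model is the real one. -/
structure IsGB (M C : ZFSet.{0}) : Prop where
  trans : ∀ x ∈ M, ∀ y ∈ x, y ∈ M
  classes : ∀ X ∈ C, X ⊆ M
  sets : ∀ x ∈ M, x ∈ C
  pairing : ∀ x ∈ M, ∀ y ∈ M, ({x, y} : ZFSet.{0}) ∈ M
  union : ∀ x ∈ M, ZFSet.sUnion x ∈ M
  infinity : ZFSet.omega ∈ M
  separation : ∀ φ : Fml ZFSet.{0} 1, φ.Over {X | X ∈ C} → ∀ x ∈ M, ∃ y ∈ M, ∀ z,
    z ∈ y ↔ z ∈ x ∧ Sat {x | x ∈ M} id φ ![z]
  collection : ∀ φ : Fml ZFSet.{0} 2, φ.Over {X | X ∈ C} → ∀ x ∈ M,
    (∀ z ∈ x, ∃ w ∈ M, Sat {x | x ∈ M} id φ ![z, w]) →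
      ∃ y ∈ M, ∀ z ∈ x, ∃ w ∈ y, Sat {x | x ∈ M} id φ ![z, w]
  comprehension : ∀ φ : Fml ZFSet.{0} 1, φ.Over {X | X ∈ C} → ∃ X ∈ C, ∀ z,
    z ∈ X ↔ z ∈ M ∧ Sat {x | x ∈ M} id φ ![z]

/-- `P` with the relation `Le` is a notion of class forcing for a model with the classes `C`: a
partial order such that `P` and `Le` are classes (`pair q p ∈ Le` means `q ≤ p`). -/
structure IsClassForcing (C P Le : ZFSet.{0}) : Prop where
  mem : P ∈ C
  le_mem : Le ∈ C
  le_sub : Le ⊆ ZFSet.prod P P
  refl : ∀ p ∈ P, pair p p ∈ Le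
  trans : ∀ p ∈ P, ∀ q ∈ P, ∀ r ∈ P, pair r q ∈ Le → pair q p ∈ Le → pair r p ∈ Le
  antisymm : ∀ p ∈ P, ∀ q ∈ P, pair q p ∈ Le → pair p q ∈ Le → p = q

/-- The `P`-names: sets of pairs `(y, p)` where `y` is a `P`-name and `p ∈ P`. -/
inductive IsName (P : ZFSet.{0}) : ZFSet.{0} → Prop
  | mk (x : ZFSet.{0}) (h : ∀ z ∈ x, ∃ y, ∃ p ∈ P, z = pair y p)
      (h' : ∀ y p, pair y p ∈ x → IsName P y) : IsName P x

/-- `G` is a filter on `P` that meets all dense subsets of `P` that are in `C`. -/
def IsGen (C P Le G : ZFSet.{0}) : Prop := IsGeneric {X | X ∈ C} P Le G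

/-- The set of the values of the `P`-names in `M`. -/
noncomputable def Mext (M P G : ZFSet.{0}) : Set ZFSet.{0} :=
  {x | ∃ σ ∈ M, IsName P σ ∧ x = ev G σ}

/-- The condition `p` forces `φ(v)`: for all generic filters `G` that contain `p`, the formula is
true in `Mext M P G`, where the names `v` are replaced by their values. The parameters of the
formula are class names, they are replaced by their values as well. -/
def Forces (M C P Le : ZFSet.{0}) {n : ℕ} (φ : Fml ZFSet.{0} n) (v : Fin n → ZFSet.{0})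
    (p : ZFSet.{0}) : Prop :=
  ∀ G, IsGen C P Le G → p ∈ G → Sat (Mext M P G) (ev G) φ fun i => ev G (v i)

/-- The notion of class forcing satisfies the forcing theorem over `(M, C)`. Here `φ` is a
formula whose parameters are class names, and `v` is a tuple of names in `M`. -/
structure ForcingThm (M C P Le : ZFSet.{0}) : Prop where
  definability : ∀ (n : ℕ) (φ : Fml ZFSet.{0} n), φ.Over {Γ | Γ ∈ C ∧ IsName P Γ} →
    ∃ X ∈ C, ∀ x, x ∈ X ↔ ∃ p ∈ P, ∃ v : Fin n → ZFSet.{0}, (∀ i, v i ∈ M ∧ IsName P (v i)) ∧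
      x = pair p (tup v) ∧ Forces M C P Le φ v p
  truth : ∀ (n : ℕ) (φ : Fml ZFSet.{0} n), φ.Over {Γ | Γ ∈ C ∧ IsName P Γ} →
    ∀ v : Fin n → ZFSet.{0}, (∀ i, v i ∈ M ∧ IsName P (v i)) → ∀ G, IsGen C P Le G →
      Sat (Mext M P G) (ev G) φ (fun i => ev G (v i)) → ∃ p ∈ G, Forces M C P Le φ v p

end Pool.Agent.R597
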