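import Pool.Agent.R597.Fold
import Pool.Agent.R597.GBDefs

/-!
# The forcing theorem over `(M, C)`, where `C` is the set of the subsets of `M` in a model of ZF
-/

set_option autoImplicit false
set_option linter.unreachableTactic false
set_option linter.unusedTactic false
set_option linter.unusedSectionVars false

namespace Pool.Agent.R597

open Pool.Agent.W868 Pool.Agent.W868.GM Pool.Agent.Y588
open ZFSet (pair)

/-! ### Relativization -/

/-- The quantifiers are restricted to the elements of the parameter `a`. -/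
def rel (a : ZFSet.{0}) : {n : ℕ} → Fml ZFSet.{0} n → Fml ZFSet.{0} n
  | _, .mem s t => .mem s t
  | _, .eq s t => .eq s t
  | _, .neg φ => .neg (rel a φ)
  | _, .and φ ψ => .and (rel a φ) (rel a ψ)
  | _, .ex φ => .ex (.and (.mem (Sum.inl 0) (Sum.inr a)) (rel a φ))

theorem rel_over {S : Set ZFSet.{0}} {a : ZFSet.{0}} (ha : a ∈ S) : {n : ℕ} →
    (φ : Fml ZFSet.{0} n) → φ.Over S → (rel a φ).Over S
  | _, .mem _ _, h => h
  | _, .eq _ _, h => h
  | _, .neg φ, h => rel_over ha φ h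
  | _, .and φ ψ, h => ⟨rel_over ha φ h.1, rel_over ha ψ h.2⟩
  | _, .ex φ, h => ⟨⟨TOver.inl _, tOver_inr.2 ha⟩, rel_over ha φ h⟩

theorem sat_rel {K : Set ZFSet.{0}} {i : ZFSet.{0} → ZFSet.{0}} {a : ZFSet.{0}}
    (h : ∀ x ∈ i a, x ∈ K) : {n : ℕ} → (φ : Fml ZFSet.{0} n) → (v : Fin n → ZFSet.{0}) →
    (Sat K i (rel a φ) v ↔ Sat {x | x ∈ i a} i φ v)
  | _, .mem _ _, _ => Iff.rfl
  | _, .eq _ _, _ => Iff.rfl
  | _, .neg φ, v => not_congr (sat_rel h φ v)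
  | _, .and φ ψ, v => and_congr (sat_rel h φ v) (sat_rel h ψ v)
  | _, .ex φ, v => by
    simp only [rel, Sat]
    constructor
    · rintro ⟨x, _, hx, h1⟩
      exact ⟨x, hx, (sat_rel h φ _).1 h1⟩
    · rintro ⟨x, hx, h1⟩
      exact ⟨x, h x hx, hx, (sat_rel h φ _).2 h1⟩

/-! ### The forcing relation -/

section

variable {M : Set ZFSet.{0}} {P Le : ZFSet.{0}} (hP : IsForcing M P Le)

include hP

theorem qeq_dense {x y p : ZFSet.{0}} (hp : p ∈ P)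
    (h : ∀ q ∈ P, pair q p ∈ Le → ∃ r ∈ P, pair r q ∈ Le ∧ Qeq P Le x y r) :
    Qeq P Le x y p := by
  refine qeq_iff.2 ⟨hp, fun a c hac hc q hq hqp hqc => ?_, fun b d hbd hd q hq hqp hqd => ?_⟩
  · obtain ⟨r, hr, hrq, h1⟩ := h q hq hqp
    obtain ⟨s, hs, hsr, h2⟩ := (qeq_iff.1 h1).2.1 a c hac hc r hr (hP.refl r hr)
      (hP.trans _ hc _ hq _ hr hrq hqc)
    exact ⟨s, hs, hP.trans _ hq _ hr _ hs hsr hrq, h2⟩
  · obtain ⟨r, hr, hrq, h1⟩ := h q hq hqp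
    obtain ⟨s, hs, hsr, h2⟩ := (qeq_iff.1 h1).2.2 b d hbd hd r hr (hP.refl r hr)
      (hP.trans _ hd _ hq _ hr hrq hqd)
    exact ⟨s, hs, hP.trans _ hq _ hr _ hs hsr hrq, h2⟩

/-- A formula that is forced by densely many conditions is forced. -/
theorem frc_dense : {n : ℕ} → (φ : Fml ZFSet.{0} n) →
    {v : Fin n → ZFSet.{0}} →
    {p : ZFSet.{0}} → p ∈ P → (∀ q ∈ P, pair q p ∈ Le → ∃ r ∈ P, pair r q ∈ Le ∧
      Frc P Le M φ v r) → Frc P Le M φ v p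
  | _, .mem s t, v, p, hp, h => by
    intro q hq hqp
    obtain ⟨r, hr, hrq, h1⟩ := h q hq hqp
    obtain ⟨s, hs, hsr, h2⟩ := h1 r hr (hP.refl r hr)
    exact ⟨s, hs, hP.trans _ hq _ hr _ hs hsr hrq, h2⟩
  | _, .eq s t, v, p, hp, h => qeq_dense hP hp h
  | _, .neg φ, v, p, hp, h => by
    intro q hq hqp h1
    obtain ⟨r, hr, hrq, h2⟩ := h q hq hqp
    exact h2 r hr (hP.refl r hr) (h1.mono hP hq hr hrq)
  | _, .and φ ψ, v, p, hp, h => by
    refine ⟨frc_dense φ hp fun q hq hqp => ?_, frc_dense ψ hp fun q hq hqp => ?_⟩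
    · obtain ⟨r, hr, hrq, h1⟩ := h q hq hqp
      exact ⟨r, hr, hrq, h1.1⟩
    · obtain ⟨r, hr, hrq, h1⟩ := h q hq hqp
      exact ⟨r, hr, hrq, h1.2⟩
  | _, .ex φ, v, p, hp, h => by
    intro q hq hqp
    obtain ⟨r, hr, hrq, h1⟩ := h q hq hqp
    obtain ⟨s, hs, hsr, h2⟩ := h1 r hr (hP.refl r hr)
    exact ⟨s, hs, hP.trans _ hq _ hr _ hs hsr hrq, h2⟩

/-- The semantic and the syntactic forcing relation agree. -/
theorem frc_iff (hM : IsZF M) (hc : M.Countable) {n : ℕ} (φ : Fml ZFSet.{0} n) (hφ : φ.Over M)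
    {v : Fin n → ZFSet.{0}} (hv : ∀ i, v i ∈ M) {p : ZFSet.{0}} (hp : p ∈ P) :
    (∀ G, IsGeneric M P Le G → p ∈ G → Sat (ext M G) (ev G) φ (ev G ∘ v)) ↔
      Frc P Le M φ v p := by
  constructor
  · intro h
    by_contra h1
    have h2 : ∃ q ∈ P, pair q p ∈ Le ∧ ∀ r ∈ P, pair r q ∈ Le → ¬ Frc P Le M φ v r := by
      by_contra h3
      push Not at h3
      exact h1 (frc_dense hP φ hp h3)
    obtain ⟨q, hq, hqp, h3⟩ := h2
    obtain ⟨G, hG, hqG⟩ := exists_gen hc hP hq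
    have h4 := h G hG (hG.up q hqG p hp hqp)
    obtain ⟨r, hr, h5⟩ := (truth hM hP hG φ hφ v hv).1 h4
    obtain ⟨s, hs, hsq, hsr⟩ := hG.dir q hqG r hr
    exact h3 s (hG.sub hs) hsq (h5.mono hP (hG.sub hr) (hG.sub hs) hsr)
  · intro h G hG hpG
    exact (truth hM hP hG φ hφ v hv).2 ⟨p, hpG, h⟩

end

/-! ### Names -/

theorem isName_iff {P x : ZFSet.{0}} : IsName P x ↔
    ∀ z ∈ x, ∃ y ∈ dm x, ∃ p ∈ P, z = pair y p ∧ IsName P y := by
  constructor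
  · intro hx z hz
    cases hx with
    | mk _ h h' =>
      obtain ⟨y, p, hp, rfl⟩ := h z hz
      exact ⟨y, mem_dm hz, p, hp, rfl, h' _ _ hz⟩
  · intro h
    refine IsName.mk x (fun z hz => ?_) fun y p hyp => ?_
    · obtain ⟨y, -, p, hp, h1, -⟩ := h z hz
      exact ⟨y, p, hp, h1⟩
    · obtain ⟨y', -, p', -, h1, h2⟩ := h _ hyp
      rwa [(ZFSet.pair_inj.1 h1).1]

/-- The characteristic function of the class of the names. -/
noncomputable def nmf (P : ZFSet.{0}) : ZFSet.{0} → ZFSet.{0} :=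
  wfF dm dm_wf fun x g => open Classical in
    if ∀ z ∈ x, ∃ y ∈ dm x, ∃ p ∈ P, z = pair y p ∧ ap g y = nat 1 then nat 1 else nat 0

theorem nmf_eq (P x : ZFSet.{0}) : nmf P x = open Classical in
    if ∀ z ∈ x, ∃ y ∈ dm x, ∃ p ∈ P, z = pair y p ∧ ap (gr (nmf P) (dm x)) y = nat 1
    then nat 1 else nat 0 := wfF_eq _ _ _ _

theorem nmf_iff (P x : ZFSet.{0}) : nmf P x = nat 1 ↔ IsName P x := by
  induction x using dm_ind with
  | _ x ih =>
    rw [nmf_eq, isName_iff]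
    have h1 : (∀ z ∈ x, ∃ y ∈ dm x, ∃ p ∈ P, z = pair y p ∧ ap (gr (nmf P) (dm x)) y = nat 1) ↔
        ∀ z ∈ x, ∃ y ∈ dm x, ∃ p ∈ P, z = pair y p ∧ IsName P y := by
      refine forall_congr' fun z => imp_congr_right fun _ => exists_congr fun y =>
        and_congr_right fun hy => exists_congr fun p => and_congr_right fun _ =>
        and_congr_right fun _ => ?_
      rw [ap_gr hy, ih y hy]
    by_cases h : ∀ z ∈ x, ∃ y ∈ dm x, ∃ p ∈ P, z = pair y p ∧ IsName P y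
    · rw [if_pos (h1.2 h)]
      exact ⟨fun _ => h, fun _ => rfl⟩
    · rw [if_neg (fun h2 => h (h1.1 h2))]
      refine ⟨fun h2 => ?_, fun h2 => absurd h2 h⟩
      have h3 : (0 : ℕ) = 1 := nat_injective h2
      omega

theorem dfn_isName {M : Set ZFSet.{0}} (hM : IsZF M) {P : ZFSet.{0}} (hP : P ∈ M) :
    Dfn M M fun w : Fin 1 → ZFSet.{0} => IsName P (w 0) := by
  have hB := hM.base
  have h1 := hM.nat_mem 1
  have h0 := hM.nat_mem 0
  have hd : DfnF M M fun w : Fin 1 → ZFSet.{0} => nmf P (w 0) := by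
    refine hM.wfrec dm_wf (dm' hM (DfnF.proj 0)) (G := fun x g => open Classical in
      if ∀ z ∈ x, ∃ y ∈ dm x, ∃ p ∈ P, z = pair y p ∧ ap g y = nat 1 then nat 1 else nat 0) ?_
      (nmf_eq P)
    refine DfnF.ite ?_ (DfnF.const h1) (DfnF.const h0)
    apply hB.ball (DfnF.proj 0)
    apply hB.bex (dm' hM (DfnF.proj 1))
    apply hB.bex (DfnF.const hP)
    apply Dfn.and
    · exact Dfn.eq (DfnF.proj 2) (hB.pair' (DfnF.proj 1) (DfnF.proj 0))
    · exact Dfn.eq (hM.ap' (DfnF.proj 4) (DfnF.proj 1)) (DfnF.const h1)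
  exact (Dfn.eq hd (DfnF.const h1)).congr fun w _ => nmf_iff P (w 0)

/-- The set of the names in `X`. -/
noncomputable def nms (P X : ZFSet.{0}) : ZFSet.{0} := ZFSet.sep (fun x => IsName P x) X

/-- The name of the set of the values of the names in `X`. -/
noncomputable def nmn (P X t : ZFSet.{0}) : ZFSet.{0} := im (fun x => pair x t) (nms P X)

theorem mem_ev_nmn {P X t G x : ZFSet.{0}} (ht : t ∈ G) :
    x ∈ ev G (nmn P X t) ↔ x ∈ Mext X P G := by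
  rw [mem_ev]
  constructor
  · rintro ⟨y, p, h1, -, rfl⟩
    obtain ⟨z, hz, h2⟩ := mem_im.1 h1
    obtain ⟨h5, -⟩ := ZFSet.pair_inj.1 h2
    subst h5
    obtain ⟨h3, h4⟩ := ZFSet.mem_sep.1 hz
    exact ⟨_, h3, h4, rfl⟩
  · rintro ⟨σ, h1, h2, rfl⟩
    exact ⟨σ, t, mem_im.2 ⟨σ, ZFSet.mem_sep.2 ⟨h1, h2⟩, rfl⟩, ht, rfl⟩

/-! ### The forcing theorem -/

theorem tup_mem_of {X : ZFSet.{0}} (h0 : ∅ ∈ X) (hp : ∀ x ∈ X, ∀ y ∈ X, pair x y ∈ X) :
    {n : ℕ} → (v : Fin n → ZFSet.{0}) → (∀ i, v i ∈ X) → tup v ∈ X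
  | 0, _, _ => h0
  | n + 1, v, hv => hp _ (hv 0) _ (tup_mem_of h0 hp (Fin.tail v) fun i => hv i.succ)

theorem forcingThm {N : Set ZFSet.{0}} (hN : IsZF N) (hc : N.Countable) {M P Le : ZFSet.{0}}
    (hM : M ∈ N) (h0 : ∅ ∈ M) (hp : ∀ x ∈ M, ∀ y ∈ M, pair x y ∈ M) (hPM : P ⊆ M)
    (hP : IsForcing N P Le) : ForcingThm M (pwM N M) P Le := by
  have hB := hN.base
  have hPN := hP.mem
  have hLN := hP.le_mem
  obtain ⟨t, ht, htop⟩ := hP.top
  have htN := hN.trans _ hPN _ ht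
  -- generic filters
  have hgen : ∀ G, IsGen (pwM N M) P Le G ↔ IsGeneric N P Le G := by
    intro G
    constructor
    · intro h
      exact ⟨h.sub, h.nonempty, h.up, h.dir, fun D hD hDP hd =>
        h.meet D (mem_pwM.2 ⟨hD, fun z hz => hPM (hDP hz)⟩) hDP hd⟩
    · intro h
      exact ⟨h.sub, h.nonempty, h.up, h.dir, fun D hD hDP hd =>
        h.meet D (mem_pwM.1 hD).1 hDP hd⟩
  have htG : ∀ G, IsGeneric N P Le G → t ∈ G := by
    intro G hG
    obtain ⟨p, hp⟩ := hG.nonempty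
    exact hG.up p hp t ht (htop p (hG.sub hp))
  set Nm := nmn P M t with hNm
  have hnms : nms P M ∈ N := hN.sep_mem (Q := fun x => IsName P x) (dfn_isName hN hPN) hM
  have hNmN : Nm ∈ N := hN.im_mem (h := fun x => pair x t) hnms
    (hB.pair' (DfnF.proj 0) (DfnF.const htN))
  have hMext : ∀ G, IsGeneric N P Le G → {x | x ∈ ev G Nm} = Mext M P G := by
    intro G hG
    ext x
    exact mem_ev_nmn (htG G hG)
  have hsub : ∀ G, ∀ x ∈ ev G Nm, x ∈ ext N G := fun G x hx => by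
    obtain ⟨y, p, h1, -, rfl⟩ := mem_ev.1 hx
    exact ⟨y, (hN.of_pair_mem (hN.trans _ hNmN _ h1)).1, rfl⟩
  have hover : ∀ {n : ℕ} {φ : Fml ZFSet.{0} n}, φ.Over {Γ | Γ ∈ pwM N M ∧ IsName P Γ} →
      φ.Over N := fun h => h.mono fun x hx => (mem_pwM.1 hx.1).1
  have hvN : ∀ {n : ℕ} {v : Fin n → ZFSet.{0}}, (∀ i, v i ∈ M ∧ IsName P (v i)) →
      ∀ i, v i ∈ N := fun h i => hN.trans _ hM _ (h i).1
  -- the truth
  have hsat : ∀ {n : ℕ} (φ : Fml ZFSet.{0} n) (v : Fin n → ZFSet.{0}) (G : ZFSet.{0}),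
      IsGeneric N P Le G → (Sat (Mext M P G) (ev G) φ (fun i => ev G (v i)) ↔
        Sat (ext N G) (ev G) (rel Nm φ) (ev G ∘ v)) := by
    intro _ φ v G hG
    rw [sat_rel (hsub G), hMext G hG]
    rfl
  have hforces : ∀ {n : ℕ} {φ : Fml ZFSet.{0} n}, φ.Over {Γ | Γ ∈ pwM N M ∧ IsName P Γ} →
      ∀ {v : Fin n → ZFSet.{0}}, (∀ i, v i ∈ M ∧ IsName P (v i)) → ∀ p ∈ P,
      (Forces M (pwM N M) P Le φ v p ↔ Frc P Le N (rel Nm φ) v p) := by
    intro n φ hφ v hv p hp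
    rw [← frc_iff hP hN hc (rel Nm φ) (rel_over hNmN φ (hover hφ)) (hvN hv) hp]
    unfold Forces
    refine forall_congr' fun G => ?_
    rw [hgen]
    exact forall_congr' fun hG => imp_congr_right fun _ => hsat φ v G hG
  constructor
  · intro n φ hφ
    have hpw : pw (nms P M) n ∈ N := (dfn_pw hN n (DfnF.proj (0 : Fin 1))).1
      (fun _ => nms P M) fun _ => hnms
    have hd : Dfn N N fun w : Fin 1 → ZFSet.{0} =>
        Frc P Le N (rel Nm φ) (fun i => ut n (sn (w 0)) i) (fs (w 0)) :=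
      dfn_frc hN hPN hLN (rel Nm φ) (rel_over hNmN φ (hover hφ))
        (fun i w => ut n (sn (w 0)) i) (fun i => dfn_ut hN (hN.sn' (DfnF.proj 0)) n i)
        (hN.fs' (DfnF.proj 0))
    have hX := hN.sep_mem (Q := fun x => Frc P Le N (rel Nm φ) (fun i => ut n (sn x) i) (fs x))
      hd (hN.prod_mem hPN hpw)
    have hmem : ∀ x, x ∈ ZFSet.sep (fun x => Frc P Le N (rel Nm φ) (fun i => ut n (sn x) i)
        (fs x)) (ZFSet.prod P (pw (nms P M) n)) ↔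
        ∃ p ∈ P, ∃ v : Fin n → ZFSet.{0}, (∀ i, v i ∈ M ∧ IsName P (v i)) ∧
          x = pair p (tup v) ∧ Forces M (pwM N M) P Le φ v p := by
      intro x
      rw [ZFSet.mem_sep, ZFSet.mem_prod]
      constructor
      · rintro ⟨⟨p, hp, u, hu, rfl⟩, h⟩
        obtain ⟨v, hv, rfl⟩ := mem_pw.1 hu
        rw [fs_pair, sn_pair, ut_tup] at h
        have hv' : ∀ i, v i ∈ M ∧ IsName P (v i) := fun i => ZFSet.mem_sep.1 (hv i)
        exact ⟨p, hp, v, hv', rfl, (hforces hφ hv' p hp).2 h⟩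
      · rintro ⟨p, hp, v, hv, rfl, h⟩
        refine ⟨⟨p, hp, tup v, mem_pw.2 ⟨v, fun i => ZFSet.mem_sep.2 (hv i), rfl⟩, rfl⟩, ?_⟩
        rw [fs_pair, sn_pair, ut_tup]
        exact (hforces hφ hv p hp).1 h
    refine ⟨_, mem_pwM.2 ⟨hX, fun x hx => ?_⟩, hmem⟩
    obtain ⟨p, hp', v, hv, rfl, -⟩ := (hmem x).1 hx
    exact hp _ (hPM hp') _ (tup_mem_of h0 hp v fun i => (hv i).1)
  · intro n φ hφ v hv G hG h
    have hG' := (hgen G).1 hG
    rw [hsat φ v G hG'] at h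
    obtain ⟨p, hp, h1⟩ := (truth hN hP hG' (rel Nm φ) (rel_over hNmN φ (hover hφ)) v (hvN hv)).1 h
    exact ⟨p, hp, (hforces hφ hv p (hG'.sub hp)).2 h1⟩

end Pool.Agent.R597
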