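import Pool.Agent.R597.Fr5
import Pool.Agent.R597.GBF

/-!
# Names for the truth of formulas in the generic copy of the model
-/

set_option autoImplicit false
set_option linter.unreachableTactic false
set_option linter.unusedTactic false
set_option linter.unusedSectionVars false
set_option linter.unusedVariables false

namespace Pool.Agent.R597

open Pool.Agent.W868 Pool.Agent.W868.GM Pool.Agent.Y588
open ZFSet (pair)

/-! ### Iteration of a definable function -/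

noncomputable def Iter (H : ZFSet.{0} → ZFSet.{0}) (a : ZFSet.{0}) : ZFSet.{0} → ZFSet.{0} :=
  wfF (fun z => z) ZFSet.mem_wf fun z g => open Classical in
    if z = ∅ then a else H (ap g (ZFSet.sUnion z))

theorem Iter_eq (H : ZFSet.{0} → ZFSet.{0}) (a z : ZFSet.{0}) : Iter H a z =
    open Classical in if z = ∅ then a else H (ap (gr (Iter H a) z) (ZFSet.sUnion z)) :=
  wfF_eq _ _ _ _

theorem Iter_zero (H : ZFSet.{0} → ZFSet.{0}) (a : ZFSet.{0}) : Iter H a (nat 0) = a := by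
  rw [Iter_eq, if_pos (show nat 0 = ∅ from rfl)]

theorem Iter_succ (H : ZFSet.{0} → ZFSet.{0}) (a : ZFSet.{0}) (n : ℕ) :
    Iter H a (nat (n + 1)) = H (Iter H a (nat n)) := by
  rw [Iter_eq, if_neg (nat_succ_ne n), sUnion_nat_succ,
    ap_gr (show nat n ∈ nat (n + 1) from ZFSet.mem_insert _ _)]

theorem dfn_Iter {K : Set ZFSet.{0}} (hK : IsZF K) {H : ZFSet.{0} → ZFSet.{0}} {a : ZFSet.{0}}
    (ha : a ∈ K) (hH : DfnF K K fun w : Fin 1 → ZFSet.{0} => H (w 0)) :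
    DfnF K K fun w : Fin 1 → ZFSet.{0} => Iter H a (w 0) := by
  have hB := hK.base
  have h0 := hK.empty_mem
  refine hK.memrec (G := fun z g => open Classical in
    if z = ∅ then a else H (ap g (ZFSet.sUnion z))) ?_ (Iter_eq H a)
  refine DfnF.ite (Dfn.eq (DfnF.proj 0) (DfnF.const h0)) (DfnF.const ha) ?_
  exact DfnF.comp1 (f := H) hH (hK.ap' (DfnF.proj 1) (hB.sUnion' (DfnF.proj 0)))

/-! ### Values of names -/

/-- The greatest condition. -/
noncomputable def tF : ZFSet.{0} := pair ∅ (pair ∅ ∅)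

/-- The name of the negated conjunction. -/
noncomputable def nd (T S : ZFSet.{0}) : ZFSet.{0} :=
  insert (pair T tF) (im (fun x => pair x tF) S)

/-- The set `a` is one of the two values, and it is the second one if and only if `Q` holds. -/
def Vl (x0 x1 a : ZFSet.{0}) (Q : Prop) : Prop := (a = x0 ∨ a = x1) ∧ (a = x1 ↔ Q)

theorem Vl.congr {x0 x1 a : ZFSet.{0}} {Q Q' : Prop} (h : Vl x0 x1 a Q) (h' : Q ↔ Q') :
    Vl x0 x1 a Q' := ⟨h.1, h.2.trans h'⟩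

theorem Vl.eq_left {x0 x1 a : ZFSet.{0}} {Q : Prop} (h : Vl x0 x1 a Q) (hQ : ¬ Q) : a = x0 :=
  h.1.resolve_right fun h1 => hQ (h.2.1 h1)

theorem level_ne {x0 x1 : ZFSet.{0}} (h : x0 ≠ x1) : ({x1} : ZFSet.{0}) ≠ {x0, x1} := by
  intro h1
  have h2 : x0 ∈ ({x1} : ZFSet.{0}) := by
    rw [h1]
    simp
  exact h (ZFSet.mem_singleton.1 h2)

section

variable {G : ZFSet.{0}} (ht : tF ∈ G) {x0 x1 : ZFSet.{0}} (hx : x0 ≠ x1)

include ht

theorem mem_ev_nd {S z : ZFSet.{0}} : z ∈ ev G (nd (chk tF x1) S) ↔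
    z = x1 ∨ ∃ x ∈ S, z = ev G x := by
  rw [mem_ev]
  constructor
  · rintro ⟨y, p, h1, -, rfl⟩
    rcases ZFSet.mem_insert_iff.1 h1 with h2 | h2
    · rw [(ZFSet.pair_inj.1 h2).1, ev_chk ht]
      exact Or.inl rfl
    · obtain ⟨x, hx, h3⟩ := mem_im.1 h2
      rw [(ZFSet.pair_inj.1 h3).1]
      exact Or.inr ⟨x, hx, rfl⟩
  · rintro (rfl | ⟨x, hx, rfl⟩)
    · exact ⟨chk tF z, tF, ZFSet.mem_insert _ _, ht, ev_chk ht _⟩
    · exact ⟨x, tF, ZFSet.mem_insert_of_mem _ (mem_im.2 ⟨x, hx, rfl⟩), ht, rfl⟩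

include hx

theorem ev_nd {S : ZFSet.{0}} (h : ∀ x ∈ S, ev G x = x0 ∨ ev G x = x1) :
    Vl {x1} {x0, x1} (ev G (nd (chk tF x1) S)) (∃ x ∈ S, ev G x ≠ x1) := by
  by_cases h1 : ∃ x ∈ S, ev G x ≠ x1
  · obtain ⟨x, hxS, h2⟩ := h1
    have h3 : ev G x = x0 := (h x hxS).resolve_right h2
    have h4 : ev G (nd (chk tF x1) S) = {x0, x1} := by
      ext z
      rw [mem_ev_nd ht, ZFSet.mem_pair]
      constructor
      · rintro (rfl | ⟨y, hy, rfl⟩)
        · exact Or.inr rfl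
        · exact h y hy
      · rintro (rfl | rfl)
        · exact Or.inr ⟨x, hxS, h3.symm⟩
        · exact Or.inl rfl
    exact ⟨Or.inr h4, fun _ => ⟨x, hxS, h2⟩, fun _ => h4⟩
  · have h4 : ev G (nd (chk tF x1) S) = {x1} := by
      push Not at h1
      ext z
      rw [mem_ev_nd ht, ZFSet.mem_singleton]
      constructor
      · rintro (rfl | ⟨y, hy, rfl⟩)
        · rfl
        · exact h1 y hy
      · exact fun h => Or.inl h
    refine ⟨Or.inl h4, fun h5 => ?_, fun h5 => absurd h5 h1⟩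
    rw [h4] at h5
    exact absurd h5 (level_ne hx)

theorem nd_im {T : ZFSet.{0}} {f : ZFSet.{0} → ZFSet.{0}} {Q : ZFSet.{0} → Prop}
    (h : ∀ y ∈ T, Vl x0 x1 (ev G (f y)) (Q y)) :
    Vl {x1} {x0, x1} (ev G (nd (chk tF x1) (im f T))) (∃ y ∈ T, ¬ Q y) := by
  refine (ev_nd ht hx ?_).congr ?_
  · intro x hx
    obtain ⟨y, hy, rfl⟩ := mem_im.1 hx
    exact (h y hy).1
  · constructor
    · rintro ⟨x, hx, h1⟩
      obtain ⟨y, hy, rfl⟩ := mem_im.1 hx
      exact ⟨y, hy, fun h2 => h1 ((h y hy).2.2 h2)⟩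
    · rintro ⟨y, hy, h1⟩
      exact ⟨_, mem_im.2 ⟨y, hy, rfl⟩, fun h2 => h1 ((h y hy).2.1 h2)⟩

theorem nd_single {a : ZFSet.{0}} {Q : Prop} (h : Vl x0 x1 (ev G a) Q) :
    Vl {x1} {x0, x1} (ev G (nd (chk tF x1) {a})) (¬ Q) := by
  refine (ev_nd ht hx ?_).congr ?_
  · intro x hx
    rw [ZFSet.mem_singleton] at hx
    rw [hx]
    exact h.1
  · constructor
    · rintro ⟨x, hx, h1⟩
      rw [ZFSet.mem_singleton] at hx
      rw [hx] at h1
      exact fun h2 => h1 (h.2.2 h2)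
    · intro h1
      exact ⟨a, by simp, fun h2 => h1 (h.2.1 h2)⟩

theorem nd_pair {a b : ZFSet.{0}} {Q R : Prop} (h : Vl x0 x1 (ev G a) Q)
    (h' : Vl x0 x1 (ev G b) R) :
    Vl {x1} {x0, x1} (ev G (nd (chk tF x1) {a, b})) (¬ Q ∨ ¬ R) := by
  refine (ev_nd ht hx ?_).congr ?_
  · intro x hx
    rcases ZFSet.mem_pair.1 hx with rfl | rfl
    · exact h.1
    · exact h'.1
  · constructor
    · rintro ⟨x, hx, h1⟩
      rcases ZFSet.mem_pair.1 hx with rfl | rfl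
      · exact Or.inl fun h2 => h1 (h.2.2 h2)
      · exact Or.inr fun h2 => h1 (h'.2.2 h2)
    · rintro (h1 | h1)
      · exact ⟨a, by simp, fun h2 => h1 (h.2.1 h2)⟩
      · exact ⟨b, by simp, fun h2 => h1 (h'.2.1 h2)⟩

theorem nd_union {S S' : ZFSet.{0}} (h : ∀ x ∈ S, ev G x = x0 ∨ ev G x = x1)
    (h' : ∀ x ∈ S', ev G x = x0 ∨ ev G x = x1) :
    Vl {x1} {x0, x1} (ev G (nd (chk tF x1) (S ∪ S')))
      ((∃ x ∈ S, ev G x ≠ x1) ∨ ∃ x ∈ S', ev G x ≠ x1) := by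
  refine (ev_nd ht hx ?_).congr ?_
  · intro x hx
    rcases ZFSet.mem_union.1 hx with hx | hx
    · exact h x hx
    · exact h' x hx
  · constructor
    · rintro ⟨x, hx, h1⟩
      rcases ZFSet.mem_union.1 hx with hx | hx
      · exact Or.inl ⟨x, hx, h1⟩
      · exact Or.inr ⟨x, hx, h1⟩
    · rintro (⟨x, hx, h1⟩ | ⟨x, hx, h1⟩)
      · exact ⟨x, ZFSet.mem_union.2 (Or.inl hx), h1⟩
      · exact ⟨x, ZFSet.mem_union.2 (Or.inr hx), h1⟩

end

/-! ### The names at the first level -/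

/-- The set of the conditions without function. -/
noncomputable def Hd (M : ZFSet.{0}) : ZFSet.{0} :=
  ZFSet.sep (fun p => p ∈ FP M) (ZFSet.prod (pwM {x | x ∈ M} ZFSet.omega)
    (ZFSet.prod (pwM {x | x ∈ M} (ZFSet.prod ZFSet.omega ZFSet.omega)) {∅}))

/-- The conditions without function that decide that the literal `u` is true at `s`. -/
noncomputable def VC (M w : ZFSet.{0}) : ZFSet.{0} :=
  ZFSet.sep (fun p => (∀ a ∈ st (sn w), sn a ∈ fs p) ∧ (fs (fs w) = nat 0 ↔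
    AtR (fun x y => pair x y ∈ fs (sn p)) (sn (fs w)) (sn w))) (Hd M)

/-- The names at the first level. -/
noncomputable def n0 (M w : ZFSet.{0}) : ZFSet.{0} := im (fun p => pair ∅ p) (VC M w)

/-- The function on the natural numbers. -/
noncomputable def Fz (F : ℕ → ZFSet.{0}) (a : ZFSet.{0}) : ZFSet.{0} := open Classical in
  if h : ∃ i, a = nat i then F h.choose else ∅

theorem Fz_nat (F : ℕ → ZFSet.{0}) (i : ℕ) : Fz F (nat i) = F i := by
  have h : ∃ j, nat i = nat j := ⟨i, rfl⟩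
  rw [Fz, dif_pos h]
  rw [← nat_injective h.choose_spec]

/-- The sequence of the values. -/
noncomputable def trs (F : ℕ → ZFSet.{0}) (s : ZFSet.{0}) : ZFSet.{0} :=
  fold (fun r a => pair r (Fz F a)) ∅ s

theorem trs_empty (F : ℕ → ZFSet.{0}) : trs F ∅ = ∅ := fold_empty _ _

theorem trs_pair (F : ℕ → ZFSet.{0}) (s a : ZFSet.{0}) :
    trs F (pair s a) = pair (trs F s) (Fz F a) := fold_pair _ _ _ _

theorem trs_seq (F : ℕ → ZFSet.{0}) (h : ℕ → ZFSet.{0}) (k : ℕ) :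
    trs F (seq h k) = seq (fun i => Fz F (h i)) k := by
  induction k with
  | zero => exact trs_empty F
  | succ k ih => rw [seq, trs_pair, ih, seq]

theorem atR_gen {R : ZFSet.{0} → ZFSet.{0} → Prop} {h : ℕ → ZFSet.{0}} {N : ℕ}
    {c : ZFSet.{0}} : AtR R c (seq h N) ↔
      (fs c = nat 0 ∧ ∃ i < N, ∃ j < N, nat i = fs (sn c) ∧ nat j = sn (sn c) ∧
        R (h i) (h j)) ∨
      (fs c ≠ nat 0 ∧ ∃ i < N, ∃ j < N, nat i = fs (sn c) ∧ nat j = sn (sn c) ∧
        h i = h j) := by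
  have key : ∀ {Q : ZFSet.{0} → ZFSet.{0} → Prop} {x y : ZFSet.{0}},
      (∃ w ∈ st (seq h N), ∃ w' ∈ st (seq h N), fs w = x ∧ fs w' = y ∧
        Q (sn w) (sn w')) ↔ ∃ i < N, ∃ j < N, nat i = x ∧ nat j = y ∧ Q (h i) (h j) := by
    intro Q x y
    constructor
    · rintro ⟨w, hw, w', hw', h1, h2, h3⟩
      obtain ⟨k, hk, rfl⟩ := mem_st.1 hw
      obtain ⟨l, hl, rfl⟩ := mem_st.1 hw'
      rw [fs_pair] at h1 h2
      rw [sn_pair, sn_pair] at h3
      exact ⟨k, hk, l, hl, h1, h2, h3⟩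
    · rintro ⟨i, hi, j, hj, h1, h2, h3⟩
      exact ⟨_, mem_st.2 ⟨i, hi, rfl⟩, _, mem_st.2 ⟨j, hj, rfl⟩, by rwa [fs_pair],
        by rwa [fs_pair], by rwa [sn_pair, sn_pair]⟩
  rw [AtR, key, key (Q := fun x y => x = y)]

theorem atR_map {R R' : ZFSet.{0} → ZFSet.{0} → Prop} {h h' : ℕ → ZFSet.{0}} {N : ℕ}
    {c : ZFSet.{0}} (h1 : ∀ i < N, ∀ j < N, (R (h i) (h j) ↔ R' (h' i) (h' j)))
    (h2 : ∀ i < N, ∀ j < N, (h i = h j ↔ h' i = h' j)) :
    AtR R c (seq h N) ↔ AtR R' c (seq h' N) := by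
  rw [atR_gen, atR_gen]
  refine or_congr (and_congr_right fun _ => ?_) (and_congr_right fun _ => ?_)
  · refine exists_congr fun i => and_congr_right fun hi => exists_congr fun j =>
      and_congr_right fun hj => ?_
    rw [h1 i hi j hj]
  · refine exists_congr fun i => and_congr_right fun hi => exists_congr fun j =>
      and_congr_right fun hj => ?_
    rw [h2 i hi j hj]

/-- The generic bijection `F` of the filter `G`. -/
structure IsBi (M G : ZFSet.{0}) (F : ℕ → ZFSet.{0}) : Prop where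
  val : ∀ d g, cnd d g ∈ G → ∀ i ∈ d, g i = F i
  mem : ∀ i, F i ∈ M
  inj : ∀ i j, F i = F j → i = j
  surj : ∀ a ∈ M, ∃ i, F i = a

section

variable {M : ZFSet.{0}} (hM : IsZF {x | x ∈ M})

include hM

theorem mem_Hd {p : ZFSet.{0}} : p ∈ Hd M ↔ ∃ d e, p = pair d (pair e ∅) ∧ p ∈ FP M := by
  rw [Hd, ZFSet.mem_sep]
  constructor
  · rintro ⟨h1, h2⟩
    obtain ⟨d, hd, y, hy, rfl⟩ := ZFSet.mem_prod.1 h1
    obtain ⟨e, he, f, hf, rfl⟩ := ZFSet.mem_prod.1 hy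
    rw [ZFSet.mem_singleton] at hf
    subst hf
    exact ⟨d, e, rfl, h2⟩
  · rintro ⟨d, e, rfl, h⟩
    refine ⟨?_, h⟩
    obtain ⟨hpM, d', e', f', h1, h2⟩ := mem_FP.1 h
    obtain ⟨rfl, h3⟩ := ZFSet.pair_inj.1 h1
    obtain ⟨rfl, -⟩ := ZFSet.pair_inj.1 h3
    obtain ⟨hd, hef⟩ := hM.of_pair_mem hpM
    obtain ⟨he, -⟩ := hM.of_pair_mem hef
    refine ZFSet.pair_mem_prod.2 ⟨mem_pwM.2 ⟨hd, h2.sub⟩, ZFSet.pair_mem_prod.2
      ⟨mem_pwM.2 ⟨he, fun w hw => ?_⟩, by simp⟩⟩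
    obtain ⟨x, hx, y, hy, rfl⟩ := ZFSet.mem_prod.1 (h2.rel hw)
    exact ZFSet.pair_mem_prod.2 ⟨h2.sub hx, h2.sub hy⟩

theorem tF_mem : tF ∈ FP M ∧ ∀ p ∈ FP M, pair p tF ∈ FL M := by
  have h : cnd ∅ (fun _ => ∅) = tF := by
    rw [cnd, tF]
    have h1 : ∀ F : ℕ → ZFSet.{0}, rng ∅ F = ∅ := fun F => by
      rw [ZFSet.eq_empty]
      intro z hz
      obtain ⟨i, hi, -⟩ := mem_rng.1 hz
      simp at hi
    have h2 : eR ∅ (fun _ => ∅) = ∅ := by
      rw [ZFSet.eq_empty]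
      intro z hz
      obtain ⟨i, hi, -⟩ := mem_eR.1 hz
      simp at hi
    rw [h1, h1, h2]
  rw [← h]
  exact ⟨cnd_mem hM ⟨fun i hi => absurd hi (by simp), fun i hi => absurd hi (by simp)⟩,
    fun p hp => top_le hM hp _⟩

variable {G : ZFSet.{0}} (hG : IsGen (DefC M) (FP M) (FL M) G)

include hG

theorem exists_bi : ∃ F, IsBi M G F := by
  obtain ⟨F, h1, h2, h3, h4⟩ := exists_F hM hG
  exact ⟨F, h1, h2, h3, h4⟩

theorem tF_G : tF ∈ G := by
  obtain ⟨p, hp⟩ := hG.nonempty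
  exact hG.up p hp tF (tF_mem hM).1 ((tF_mem hM).2 p (hG.sub hp))

theorem ev_n0 {F : ℕ → ZFSet.{0}} (hF : IsBi M G F) {u s : ZFSet.{0}}
    (hs : s ∈ Sq ZFSet.omega) :
    Vl ∅ {∅} (ev G (n0 M (pair u s))) (SM {x | x ∈ M} 0 u (trs F s)) := by
  obtain ⟨h, k, hh, rfl⟩ := exists_seq hs
  have hh' : ∀ i < k, ∃ j, h i = nat j := fun i hi => mem_omega_iff.1 (hh i hi)
  rw [trs_seq]
  have hval : ∀ d e f, pair d (pair e f) ∈ G → (∀ i < k, h i ∈ d) →
      (AtR (fun x y => pair x y ∈ e) (sn u) (seq h k) ↔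
        AtR (fun x y => x ∈ y) (sn u) (seq (fun i => Fz F (h i)) k)) := by
    intro d e f hp hd
    refine atR_map (fun i hi j hj => ?_) fun i hi j hj => ?_
    · obtain ⟨a, ha⟩ := hh' i hi
      obtain ⟨b, hb⟩ := hh' j hj
      have h1 := hd i hi
      have h2 := hd j hj
      rw [ha] at h1 ⊢
      rw [hb] at h2 ⊢
      rw [Fz_nat, Fz_nat]
      exact rel_iff hM hG hF.val hp h1 h2
    · obtain ⟨a, ha⟩ := hh' i hi
      obtain ⟨b, hb⟩ := hh' j hj
      rw [ha, hb, Fz_nat, Fz_nat]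
      exact ⟨fun h => by rw [nat_injective h], fun h => by rw [hF.inj _ _ h]⟩
  have key : (∃ p ∈ G, p ∈ VC M (pair u (seq h k))) ↔
      SM {x | x ∈ M} 0 u (seq (fun i => Fz F (h i)) k) := by
    simp only [SM]
    constructor
    · rintro ⟨p, hp, h1⟩
      rw [VC, ZFSet.mem_sep, fs_pair, sn_pair] at h1
      obtain ⟨h2, h3, h4⟩ := h1
      obtain ⟨d, e, rfl, -⟩ := (mem_Hd hM).1 h2
      rw [fs_pair] at h3
      rw [sn_pair, fs_pair] at h4
      rw [h4]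
      exact hval d e ∅ hp fun i hi => by
        have h5 := h3 _ (mem_st.2 ⟨i, hi, rfl⟩)
        rwa [sn_pair] at h5
    · intro h1
      have hbd : ∃ L : ℕ, ∀ i < k, ∃ j < L, h i = nat j := by
        clear h1 hval hs
        induction k with
        | zero => exact ⟨0, fun i hi => by omega⟩
        | succ k ih =>
          obtain ⟨L, hL⟩ := ih (fun i hi => hh i (by omega)) fun i hi => hh' i (by omega)
          obtain ⟨j, hj⟩ := hh' k (by omega)
          refine ⟨max L (j + 1), fun i hi => ?_⟩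
          by_cases h2 : i < k
          · obtain ⟨l, hl, h3⟩ := hL i h2
            exact ⟨l, by omega, h3⟩
          · have h3 : i = k := by omega
            subst h3
            exact ⟨j, by omega, hj⟩
      obtain ⟨L, hL⟩ := hbd
      obtain ⟨d, g, hg, h2, h3⟩ := exists_long hM hG L
      have h4 := hidden_mem hM hG h2
      have h5 : ∀ i < k, h i ∈ rng d nat := fun i hi => by
        obtain ⟨j, hj, h6⟩ := hL i hi
        rw [h6]
        exact mem_rng.2 ⟨j, h3 (by simpa using hj), rfl⟩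
      refine ⟨_, h4, ?_⟩
      simp only [VC, ZFSet.mem_sep, fs_pair, sn_pair]
      refine ⟨(mem_Hd hM).2 ⟨_, _, rfl, hG.sub h4⟩, fun a ha => ?_, ?_⟩
      · obtain ⟨i, hi, rfl⟩ := mem_st.1 ha
        rw [sn_pair]
        exact h5 i hi
      · rw [h1]
        exact (hval _ _ _ h4 h5).symm
  have hev : ∀ z, z ∈ ev G (n0 M (pair u (seq h k))) ↔ z = ∅ ∧
      ∃ p ∈ G, p ∈ VC M (pair u (seq h k)) := by
    intro z
    rw [mem_ev]
    constructor
    · rintro ⟨y, p, h1, hp, rfl⟩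
      obtain ⟨q, hq, h2⟩ := mem_im.1 h1
      obtain ⟨rfl, rfl⟩ := ZFSet.pair_inj.1 h2
      refine ⟨?_, p, hp, hq⟩
      rw [ZFSet.eq_empty]
      intro a ha
      obtain ⟨b, c, h3, -⟩ := mem_ev.1 ha
      exact ZFSet.notMem_empty _ h3
    · rintro ⟨rfl, p, hp, hq⟩
      refine ⟨∅, p, mem_im.2 ⟨p, hq, rfl⟩, hp, ?_⟩
      rw [ZFSet.eq_empty]
      intro a ha
      obtain ⟨b, c, h3, -⟩ := mem_ev.1 ha
      exact ZFSet.notMem_empty _ h3
  rw [← key]
  by_cases h1 : ∃ p ∈ G, p ∈ VC M (pair u (seq h k))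
  · have h2 : ev G (n0 M (pair u (seq h k))) = {∅} := by
      ext z
      rw [hev, ZFSet.mem_singleton]
      exact ⟨fun h => h.1, fun h => ⟨h, h1⟩⟩
    exact ⟨Or.inr h2, fun _ => h1, fun _ => h2⟩
  · have h2 : ev G (n0 M (pair u (seq h k))) = ∅ := by
      rw [ZFSet.eq_empty]
      intro z hz
      exact h1 ((hev z).1 hz).2
    refine ⟨Or.inl h2, fun h3 => ?_, fun h3 => absurd h3 h1⟩
    rw [h2] at h3
    exact absurd h3.symm (by
      intro h4
      have h5 : (∅ : ZFSet.{0}) ∈ ({∅} : ZFSet.{0}) := by simp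
      rw [h4] at h5
      exact ZFSet.notMem_empty _ h5)

end

end Pool.Agent.R597
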