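import Pool.Agent.R597.Fr6

/-!
# Names for the truth of formulas in the generic copy of the model, all levels
-/

set_option autoImplicit false
set_option linter.unreachableTactic false
set_option linter.unusedTactic false
set_option linter.unusedSectionVars false
set_option linter.unusedVariables false

namespace Pool.Agent.R597

open Pool.Agent.W868 Pool.Agent.W868.GM Pool.Agent.Y588
open ZFSet (pair)

/-! ### The recursion -/

/-- The immediate subformulas. -/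
noncomputable def chd (w : ZFSet.{0}) : ZFSet.{0} := open Classical in
  if fs (sn (fs w)) = nat 0 then
    {pair (fs (sn (sn (fs w)))) (sn w), pair (sn (sn (sn (fs w)))) (sn w)}
  else im (fun b => pair (fs (sn (sn (fs w)))) (pair (sn w) b)) ZFSet.omega

/-- The two values of the names at a level, and at the next level. -/
noncomputable def X0 (S : ZFSet.{0}) : ZFSet.{0} := fs (sn S)
noncomputable def X1 (S : ZFSet.{0}) : ZFSet.{0} := sn (sn S)
noncomputable def Y0 (S : ZFSet.{0}) : ZFSet.{0} := {X1 S}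
noncomputable def Y1 (S : ZFSet.{0}) : ZFSet.{0} := {X0 S, X1 S}
noncomputable def Z0 (S : ZFSet.{0}) : ZFSet.{0} := {Y1 S}
noncomputable def Z1 (S : ZFSet.{0}) : ZFSet.{0} := {Y0 S, Y1 S}

/-- The name of `w` at the next level. -/
noncomputable def stepN (S w : ZFSet.{0}) : ZFSet.{0} := open Classical in
  if fs (fs w) = nat 0 then
    nd (chk tF (Y1 S)) (im (fun y => nd (chk tF (X1 S)) {ap (fs S) y}) (chd w))
  else nd (chk tF (Y1 S)) {nd (chk tF (X1 S))
    (im (fun y => ap (fs S) (pair (fl (fs y)) (sn y))) (chd w))}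

/-- The next state. -/
noncomputable def HH (S : ZFSet.{0}) : ZFSet.{0} :=
  pair (im (fun w => pair w (stepN S w)) (ZFSet.prod JJ (Sq ZFSet.omega))) (pair (Z0 S) (Z1 S))

/-- The first state. -/
noncomputable def S0 (M : ZFSet.{0}) : ZFSet.{0} :=
  pair (im (fun w => pair w (n0 M w)) (ZFSet.prod JJ (Sq ZFSet.omega))) (pair ∅ {∅})

theorem ap_im {f : ZFSet.{0} → ZFSet.{0}} {D w : ZFSet.{0}} (hw : w ∈ D) :
    ap (im (fun w => pair w (f w)) D) w = f w := by
  refine ap_unique (mem_im.2 ⟨w, hw, rfl⟩) fun q hq hqw => ?_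
  obtain ⟨v, hv, rfl⟩ := mem_im.1 hq
  rw [fs_pair] at hqw
  rw [sn_pair, hqw]

section

variable {K : Set ZFSet.{0}} (hK : IsZF K) {n : ℕ} {F F' : (Fin n → ZFSet.{0}) → ZFSet.{0}}

include hK

theorem tF_K : tF ∈ K := hK.pair_mem hK.empty_mem (hK.pair_mem hK.empty_mem hK.empty_mem)

theorem nd' (hF : DfnF K K F) (hF' : DfnF K K F') : DfnF K K fun v => nd (F v) (F' v) :=
  hK.base.insert' (hK.base.pair' hF (DfnF.const (tF_K hK)))
    (hK.im' (h := fun x _ => pair x tF) hF'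
      (hK.base.pair' (DfnF.proj 0) (DfnF.const (tF_K hK))))

theorem chk' (hF : DfnF K K F) : DfnF K K fun v => chk tF (F v) :=
  DfnF.comp1 (f := chk tF) (dfn_chk hK (tF_K hK)) hF

theorem fl' (hF : DfnF K K F) : DfnF K K fun v => fl (F v) :=
  hK.base.pair' (DfnF.ite (Dfn.eq (hK.fs' hF) (DfnF.const (hK.nat_mem 0)))
    (DfnF.const (hK.nat_mem 1)) (DfnF.const (hK.nat_mem 0))) (hK.sn' hF)

theorem X0' (hF : DfnF K K F) : DfnF K K fun v => X0 (F v) := hK.fs' (hK.sn' hF)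
theorem X1' (hF : DfnF K K F) : DfnF K K fun v => X1 (F v) := hK.sn' (hK.sn' hF)
theorem Y0' (hF : DfnF K K F) : DfnF K K fun v => Y0 (F v) := hK.base.single' (X1' hK hF)
theorem Y1' (hF : DfnF K K F) : DfnF K K fun v => Y1 (F v) :=
  hK.base.upair' (X0' hK hF) (X1' hK hF)
theorem Z0' (hF : DfnF K K F) : DfnF K K fun v => Z0 (F v) := hK.base.single' (Y1' hK hF)
theorem Z1' (hF : DfnF K K F) : DfnF K K fun v => Z1 (F v) :=
  hK.base.upair' (Y0' hK hF) (Y1' hK hF)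

theorem chd' (hF : DfnF K K F) : DfnF K K fun v => chd (F v) := by
  have hB := hK.base
  have h1 := hK.fs' hF
  have h2 := hK.sn' (hK.sn' h1)
  refine DfnF.ite (Dfn.eq (hK.fs' (hK.sn' h1)) (DfnF.const (hK.nat_mem 0)))
    (hB.upair' (hB.pair' (hK.fs' h2) (hK.sn' hF)) (hB.pair' (hK.sn' h2) (hK.sn' hF))) ?_
  refine hK.im' (h := fun b v => pair (fs (sn (sn (fs (F v))))) (pair (sn (F v)) b))
    (DfnF.const hK.infinity) ?_
  exact hB.pair' (hK.fs' h2).tail (hB.pair' (hK.sn' hF).tail (DfnF.proj 0))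

theorem stepN' (hF : DfnF K K F) (hF' : DfnF K K F') :
    DfnF K K fun v => stepN (F v) (F' v) := by
  have hB := hK.base
  refine DfnF.ite (Dfn.eq (hK.fs' (hK.fs' hF')) (DfnF.const (hK.nat_mem 0)))
    (nd' hK (chk' hK (Y1' hK hF)) ?_) (nd' hK (chk' hK (Y1' hK hF)) (hB.single'
      (nd' hK (chk' hK (X1' hK hF)) ?_)))
  · refine hK.im' (h := fun y v => nd (chk tF (X1 (F v))) {ap (fs (F v)) y}) (chd' hK hF') ?_
    exact nd' hK (chk' hK (X1' hK hF)).tail (hB.single' (hK.ap' (hK.fs' hF).tail (DfnF.proj 0)))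
  · refine hK.im' (h := fun y v => ap (fs (F v)) (pair (fl (fs y)) (sn y))) (chd' hK hF') ?_
    exact hK.ap' (hK.fs' hF).tail (hB.pair' (fl' hK (hK.fs' (DfnF.proj 0)))
      (hK.sn' (DfnF.proj 0)))

theorem DD_mem : ZFSet.prod JJ (Sq ZFSet.omega) ∈ K :=
  hK.prod_mem (JJ_mem hK) (Sq_mem hK hK.infinity)

theorem dfn_HH : DfnF K K fun w : Fin 1 → ZFSet.{0} => HH (w 0) := by
  have hB := hK.base
  refine hB.pair' (hK.im' (h := fun w v => pair w (stepN (v 0) w)) (DfnF.const (DD_mem hK)) ?_)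
    (hB.pair' (Z0' hK (DfnF.proj 0)) (Z1' hK (DfnF.proj 0)))
  exact hB.pair' (DfnF.proj 0) (stepN' hK (DfnF.proj 1) (DfnF.proj 0))

end

section

variable {M : ZFSet.{0}} (hM : IsZF {x | x ∈ M})

include hM

theorem Hd_mem : Hd M ∈ M := by
  have h0 := hM.empty_mem
  exact hM.sep_mem (Q := fun p => p ∈ FP M) (dfn_FP hM)
    (hM.prod_mem (pwM_mem hM hM.infinity) (hM.prod_mem
      (pwM_mem hM (hM.prod_mem hM.infinity hM.infinity)) (hM.single_mem h0)))

theorem n0' {n : ℕ} {F : (Fin n → ZFSet.{0}) → ZFSet.{0}}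
    (hF : DfnF {x | x ∈ M} {x | x ∈ M} F) : DfnF {x | x ∈ M} {x | x ∈ M} fun v => n0 M (F v) := by
  have hB := hM.base
  have hst := dfn_st hM
  have h0 := hM.nat_mem 0
  have hH : Hd M ∈ {x | x ∈ M} := Hd_mem hM
  refine hM.im' (h := fun p _ => pair ∅ p) ?_ (hB.pair' (DfnF.const hM.empty_mem) (DfnF.proj 0))
  refine hM.sep' (Q := fun p v => (∀ a ∈ st (sn (F v)), sn a ∈ fs p) ∧
    (fs (fs (F v)) = nat 0 ↔ AtR (fun x y => pair x y ∈ fs (sn p)) (sn (fs (F v))) (sn (F v))))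
    (DfnF.const hH) ?_
  apply Dfn.and
  · apply hB.ball (DfnF.comp1 (f := st) hst (hM.sn' hF.tail))
    exact Dfn.mem (hM.sn' (DfnF.proj 0)) (hM.fs' (DfnF.proj 1))
  · apply Dfn.iff
    · exact Dfn.eq (hM.fs' (hM.fs' hF.tail)) (DfnF.const h0)
    · exact Dfn.comp3 (Q := fun e c s => AtR (fun x y => pair x y ∈ e) c s) (dfn_AtE hM)
        (hM.fs' (hM.sn' (DfnF.proj 0))) (hM.sn' (hM.fs' hF.tail)) (hM.sn' hF.tail)

theorem S0_mem : S0 M ∈ M := by
  have h0 := hM.empty_mem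
  refine hM.pair_mem (hM.im_mem (DD_mem hM) ?_) (hM.pair_mem h0 (hM.single_mem h0))
  exact hM.base.pair' (DfnF.proj 0) (n0' hM (DfnF.proj 0))

/-- The states. -/
noncomputable def Stt (M : ZFSet.{0}) : ZFSet.{0} → ZFSet.{0} := Iter HH (S0 M)

theorem Stt' {n : ℕ} {F : (Fin n → ZFSet.{0}) → ZFSet.{0}}
    (hF : DfnF {x | x ∈ M} {x | x ∈ M} F) : DfnF {x | x ∈ M} {x | x ∈ M} fun v => Stt M (F v) :=
  DfnF.comp1 (f := Stt M) (dfn_Iter hM (S0_mem hM) (dfn_HH hM)) hF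

omit hM in
theorem Stt_zero : Stt M (nat 0) = S0 M := Iter_zero _ _

omit hM in
theorem Stt_succ (m : ℕ) : Stt M (nat (m + 1)) = HH (Stt M (nat m)) := Iter_succ _ _ _

omit hM in
theorem X_succ (m : ℕ) : X0 (Stt M (nat (m + 1))) = Z0 (Stt M (nat m)) ∧
    X1 (Stt M (nat (m + 1))) = Z1 (Stt M (nat m)) := by
  rw [Stt_succ]
  simp only [X0, X1, HH, fs_pair, sn_pair]
  exact ⟨trivial, trivial⟩

omit hM in
theorem X_ne (m : ℕ) : X0 (Stt M (nat m)) ≠ X1 (Stt M (nat m)) := by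
  induction m with
  | zero =>
    rw [Stt_zero]
    simp only [X0, X1, S0, fs_pair, sn_pair]
    intro h4
    have h5 : (∅ : ZFSet.{0}) ∈ ({∅} : ZFSet.{0}) := by simp
    rw [← h4] at h5
    exact ZFSet.notMem_empty _ h5
  | succ m ih =>
    obtain ⟨h1, h2⟩ := X_succ (M := M) m
    rw [h1, h2]
    exact level_ne (level_ne ih)

variable {G : ZFSet.{0}} (hG : IsGen (DefC M) (FP M) (FL M) G) {F : ℕ → ZFSet.{0}}
  (hF : IsBi M G F)

include hG hF

theorem SM_chd {m : ℕ} {u s : ZFSet.{0}} :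
    SM {x | x ∈ M} (m + 1) u (trs F s) ↔ (fs u = nat 0 ↔
      ∃ y ∈ chd (pair u s), SM {x | x ∈ M} m (fs y) (trs F (sn y))) := by
  simp only [SM]
  refine iff_congr Iff.rfl ?_
  by_cases h : fs (sn u) = nat 0
  · simp only [chd, fs_pair, sn_pair, h, if_true, ZFSet.mem_pair]
    constructor
    · rintro (⟨-, h1 | h1⟩ | ⟨h1, -⟩)
      · exact ⟨_, Or.inl rfl, by rwa [fs_pair, sn_pair]⟩
      · exact ⟨_, Or.inr rfl, by rwa [fs_pair, sn_pair]⟩
      · exact absurd rfl h1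
    · rintro ⟨y, rfl | rfl, h1⟩
      · rw [fs_pair, sn_pair] at h1
        exact Or.inl ⟨trivial, Or.inl h1⟩
      · rw [fs_pair, sn_pair] at h1
        exact Or.inl ⟨trivial, Or.inr h1⟩
  · simp only [chd, fs_pair, sn_pair, h, if_false]
    constructor
    · rintro (⟨h1, -⟩ | ⟨-, b, hb, h1⟩)
      · exact absurd h1 id
      · obtain ⟨i, rfl⟩ := hF.surj b hb
        refine ⟨_, mem_im.2 ⟨nat i, nat_mem_omega i, rfl⟩, ?_⟩
        rw [fs_pair, sn_pair, trs_pair, Fz_nat]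
        exact h1
    · rintro ⟨y, hy, h1⟩
      obtain ⟨b, hb, rfl⟩ := mem_im.1 hy
      obtain ⟨i, rfl⟩ := mem_omega_iff.1 hb
      rw [fs_pair, sn_pair, trs_pair, Fz_nat] at h1
      exact Or.inr ⟨h, F i, hF.mem i, h1⟩

theorem chd_mem {u s : ZFSet.{0}} (hu : u ∈ JJ) (hs : s ∈ Sq ZFSet.omega) :
    ∀ y ∈ chd (pair u s), fs y ∈ JJ ∧ sn y ∈ Sq ZFSet.omega ∧
      pair (fs y) (sn y) = y := by
  intro y hy
  have h1 := (fs_sn_JJ (fs_sn_JJ (fs_sn_JJ hu).2).2)
  by_cases h : fs (sn u) = nat 0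
  · simp only [chd, fs_pair, sn_pair, h, if_true, ZFSet.mem_pair] at hy
    rcases hy with rfl | rfl
    · rw [fs_pair, sn_pair]
      exact ⟨h1.1, hs, rfl⟩
    · rw [fs_pair, sn_pair]
      exact ⟨h1.2, hs, rfl⟩
  · simp only [chd, fs_pair, sn_pair, h, if_false] at hy
    obtain ⟨b, hb, rfl⟩ := mem_im.1 hy
    rw [fs_pair, sn_pair]
    exact ⟨h1.1, pair_mem_Sq hs hb, rfl⟩

/-- The values of the names. -/
theorem ev_Stt (m : ℕ) : ∀ u ∈ JJ, ∀ s ∈ Sq ZFSet.omega,
    Vl (X0 (Stt M (nat m))) (X1 (Stt M (nat m))) (ev G (ap (fs (Stt M (nat m))) (pair u s)))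
      (SM {x | x ∈ M} m u (trs F s)) := by
  have ht := tF_G hM hG
  induction m with
  | zero =>
    intro u hu s hs
    have h1 := ev_n0 hM hG hF (u := u) hs
    rw [Stt_zero]
    simp only [X0, X1, S0, fs_pair, sn_pair]
    rw [ap_im (ZFSet.pair_mem_prod.2 ⟨hu, hs⟩)]
    exact h1
  | succ m ih =>
    intro u hu s hs
    obtain ⟨h1, h2⟩ := X_succ (M := M) m
    rw [h1, h2, Stt_succ]
    have hne := X_ne (M := M) m
    set S := Stt M (nat m) with hS
    have h3 : ap (fs (HH S)) (pair u s) = stepN S (pair u s) := by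
      rw [HH, fs_pair, ap_im (ZFSet.pair_mem_prod.2 ⟨hu, hs⟩)]
    rw [h3]
    have hch := chd_mem hM hG hF hu hs
    have hQ : ∀ y ∈ chd (pair u s), Vl (X0 S) (X1 S) (ev G (ap (fs S) y))
        (SM {x | x ∈ M} m (fs y) (trs F (sn y))) := by
      intro y hy
      obtain ⟨h4, h5, h6⟩ := hch y hy
      have h7 := ih (fs y) h4 (sn y) h5
      rwa [h6] at h7
    have hQ' : ∀ y ∈ chd (pair u s), Vl (X0 S) (X1 S)
        (ev G (ap (fs S) (pair (fl (fs y)) (sn y))))
        (¬ SM {x | x ∈ M} m (fs y) (trs F (sn y))) := by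
      intro y hy
      obtain ⟨h4, h5, h6⟩ := hch y hy
      exact (ih (fl (fs y)) (fl_mem h4) (sn y) h5).congr SM_fl
    by_cases hsg : fs u = nat 0
    · have h4 : stepN S (pair u s) = nd (chk tF (Y1 S))
          (im (fun y => nd (chk tF (X1 S)) {ap (fs S) y}) (chd (pair u s))) := by
        rw [stepN, if_pos (by rw [fs_pair]; exact hsg)]
      rw [h4]
      refine (nd_im ht (x0 := Y0 S) (x1 := Y1 S) (level_ne hne) (fun y hy =>
        nd_single ht hne (hQ y hy))).congr ?_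
      rw [SM_chd hM hG hF]
      simp only [not_not, hsg, true_iff]
    · have h4 : stepN S (pair u s) = nd (chk tF (Y1 S)) {nd (chk tF (X1 S))
          (im (fun y => ap (fs S) (pair (fl (fs y)) (sn y))) (chd (pair u s)))} := by
        rw [stepN, if_neg (by rw [fs_pair]; exact hsg)]
      rw [h4]
      refine (nd_single ht (x0 := Y0 S) (x1 := Y1 S) (level_ne hne)
        (nd_im ht hne hQ')).congr ?_
      rw [SM_chd hM hG hF]
      simp only [not_not, hsg, false_iff]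

end

end Pool.Agent.R597
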