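import Pool.Agent.R597.Fr7

/-!
# Failure of the truth lemma for Friedman's forcing
-/

set_option autoImplicit false
set_option linter.unreachableTactic false
set_option linter.unusedTactic false
set_option linter.unusedSectionVars false
set_option linter.unusedVariables false

namespace Pool.Agent.R597

open Pool.Agent.W868 Pool.Agent.W868.GM Pool.Agent.Y588
open ZFSet (pair)

/-! ### All these sets are names -/

theorem isName_chk_of {P t : ZFSet.{0}} (ht : t ∈ P) (x : ZFSet.{0}) : IsName P (chk t x) := by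
  induction x using ZFSet.inductionOn with
  | _ x ih =>
    refine IsName.mk _ (fun z hz => ?_) fun y p hyp => ?_
    · obtain ⟨y, hy, rfl⟩ := mem_chk.1 hz
      exact ⟨_, t, ht, rfl⟩
    · obtain ⟨y', hy, h1⟩ := mem_chk.1 hyp
      obtain ⟨rfl, rfl⟩ := ZFSet.pair_inj.1 h1
      exact ih y' hy

theorem isName_im {P p : ZFSet.{0}} (hp : p ∈ P) {f : ZFSet.{0} → ZFSet.{0}} {S : ZFSet.{0}}
    (hS : ∀ x ∈ S, IsName P (f x)) : IsName P (im (fun x => pair (f x) p) S) := by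
  refine IsName.mk _ (fun z hz => ?_) fun y q hyq => ?_
  · obtain ⟨x, hx, rfl⟩ := mem_im.1 hz
    exact ⟨_, p, hp, rfl⟩
  · obtain ⟨x, hx, h1⟩ := mem_im.1 hyq
    obtain ⟨rfl, rfl⟩ := ZFSet.pair_inj.1 h1
    exact hS x hx

theorem isName_nd {P T S : ZFSet.{0}} (ht : tF ∈ P) (hT : IsName P T)
    (hS : ∀ x ∈ S, IsName P x) : IsName P (nd T S) := by
  refine IsName.mk _ (fun z hz => ?_) fun y q hyq => ?_
  · rcases ZFSet.mem_insert_iff.1 hz with rfl | hz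
    · exact ⟨_, _, ht, rfl⟩
    · obtain ⟨x, hx, rfl⟩ := mem_im.1 hz
      exact ⟨_, _, ht, rfl⟩
  · rcases ZFSet.mem_insert_iff.1 hyq with h1 | h1
    · rw [(ZFSet.pair_inj.1 h1).1]
      exact hT
    · obtain ⟨x, hx, h1⟩ := mem_im.1 h1
      rw [(ZFSet.pair_inj.1 h1).1]
      exact hS x hx

theorem isName_nd_chk {P x S : ZFSet.{0}} (ht : tF ∈ P)
    (hS : ∀ x ∈ S, IsName P x) : IsName P (nd (chk tF x) S) :=
  isName_nd ht (isName_chk_of ht x) hS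

theorem isName_n0 (M w : ZFSet.{0}) : IsName (FP M) (n0 M w) := by
  refine IsName.mk _ (fun z hz => ?_) fun y q hyq => ?_
  · obtain ⟨x, hx, rfl⟩ := mem_im.1 hz
    exact ⟨_, x, (ZFSet.mem_sep.1 (ZFSet.mem_sep.1 hx).1).2, rfl⟩
  · obtain ⟨x, hx, h1⟩ := mem_im.1 hyq
    obtain ⟨rfl, rfl⟩ := ZFSet.pair_inj.1 h1
    refine IsName.mk _ (fun z hz => ?_) fun y p hyp => ?_
    · exact absurd hz (ZFSet.notMem_empty _)
    · exact absurd hyp (ZFSet.notMem_empty _)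

/-! ### The code of the atomic formula -/

/-- The code of the formula `v 0 ∈ v 1` at the level `z`. -/
noncomputable def ac (z : ZFSet.{0}) : ZFSet.{0} :=
  Iter pd (pair (nat 0) (pair (nat 0) (pair (nat 0) (nat 1)))) z

theorem ac_mem (n : ℕ) : ac (nat n) ∈ JJ := by
  induction n with
  | zero =>
    rw [ac, Iter_zero]
    exact pair_mem_JJ (nat_mem_JJ 0) (pair_mem_JJ (nat_mem_JJ 0) (pair_mem_JJ (nat_mem_JJ 0)
      (nat_mem_JJ 1)))
  | succ n ih =>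
    rw [ac, Iter_succ]
    exact pd_mem ih

/-- The sequence with two terms. -/
noncomputable def lst (i j : ZFSet.{0}) : ZFSet.{0} := pair (pair ∅ i) j

theorem SM_ac {K : Set ZFSet.{0}} {x y : ZFSet.{0}} (n : ℕ) :
    SM K n (ac (nat n)) (lst x y) ↔ x ∈ y := by
  induction n with
  | zero =>
    have h1 : lst x y = seq (fun k => if k = 0 then x else y) 2 := by
      simp [lst, seq]
    rw [ac, Iter_zero]
    simp only [SM, fs_pair, sn_pair]
    rw [h1, atR_seq]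
    simp
  | succ n ih =>
    have h1 : ac (nat (n + 1)) = pd (ac (nat n)) := by
      rw [ac, Iter_succ]
      rfl
    rw [h1, SM_pd, ih]

theorem lst_mem {W i j : ZFSet.{0}} (hi : i ∈ W) (hj : j ∈ W) : lst i j ∈ Sq W :=
  pair_mem_Sq (pair_mem_Sq empty_mem_Sq hi) hj

theorem trs_lst (F : ℕ → ZFSet.{0}) (i j : ℕ) : trs F (lst (nat i) (nat j)) = lst (F i) (F j) := by
  rw [lst, trs_pair, trs_pair, trs_empty, Fz_nat, Fz_nat, lst]

/-! ### The names for the reflection statements -/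

noncomputable def nE (S z i : ZFSet.{0}) : ZFSet.{0} :=
  nd (chk tF (X1 S)) {ap (fs S) (pair (fl (ac z)) (lst i z))}

noncomputable def nD (S z i : ZFSet.{0}) : ZFSet.{0} :=
  nd (chk tF (Y1 S)) {nd (chk tF (X1 S)) {ap (fs S) (pair (ac z) (lst i z))}}

noncomputable def nB (S w : ZFSet.{0}) : ZFSet.{0} :=
  nd (chk tF (X1 S)) (im (fun b => ap (fs S) (pair (fl (fs w)) (pair (sn w) b))) ZFSet.omega)

noncomputable def nC (S z w b : ZFSet.{0}) : ZFSet.{0} :=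
  nd (chk tF (X1 S)) {ap (fs S) (pair (ac z) (lst b z)), ap (fs S) (pair (fs w) (pair (sn w) b))}

noncomputable def nA (S z w : ZFSet.{0}) : ZFSet.{0} :=
  nd (chk tF (Y1 S)) (im (fun a => nE S z (sn a)) (st (sn w)) ∪
    ({nB S w} ∪ im (nC S z w) ZFSet.omega))

noncomputable def nT (S z : ZFSet.{0}) : ZFSet.{0} :=
  nd (chk tF (Z1 S)) (im (nD S z) z ∪ im (nA S z) (ZFSet.prod JJ (Sq ZFSet.omega)))

section

variable {K : Set ZFSet.{0}} (hK : IsZF K) {n : ℕ} {F₀ F₁ F₂ F₃ : (Fin n → ZFSet.{0}) → ZFSet.{0}}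

include hK

theorem ac' (hF : DfnF K K F₀) : DfnF K K fun v => ac (F₀ v) := by
  have hB := hK.base
  have h1 : pair (nat 0) (pair (nat 0) (pair (nat 0) (nat 1))) ∈ K :=
    hK.pair_mem (hK.nat_mem 0) (hK.pair_mem (hK.nat_mem 0) (hK.pair_mem (hK.nat_mem 0)
      (hK.nat_mem 1)))
  refine DfnF.comp1 (f := fun z => Iter pd (pair (nat 0) (pair (nat 0) (pair (nat 0)
    (nat 1)))) z) (dfn_Iter hK h1 ?_) hF
  exact hB.pair' (DfnF.const (hK.nat_mem 0)) (hB.pair' (DfnF.const (hK.nat_mem 0))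
    (hB.pair' (DfnF.proj 0) (DfnF.proj 0)))

theorem lst' (hF : DfnF K K F₀) (hF' : DfnF K K F₁) : DfnF K K fun v => lst (F₀ v) (F₁ v) :=
  hK.base.pair' (hK.base.pair' (DfnF.const hK.empty_mem) hF) hF'

theorem nE' (h0 : DfnF K K F₀) (h1 : DfnF K K F₁) (h2 : DfnF K K F₂) :
    DfnF K K fun v => nE (F₀ v) (F₁ v) (F₂ v) :=
  nd' hK (chk' hK (X1' hK h0)) (hK.base.single' (hK.ap' (hK.fs' h0)
    (hK.base.pair' (fl' hK (ac' hK h1)) (lst' hK h2 h1))))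

theorem nD' (h0 : DfnF K K F₀) (h1 : DfnF K K F₁) (h2 : DfnF K K F₂) :
    DfnF K K fun v => nD (F₀ v) (F₁ v) (F₂ v) :=
  nd' hK (chk' hK (Y1' hK h0)) (hK.base.single' (nd' hK (chk' hK (X1' hK h0))
    (hK.base.single' (hK.ap' (hK.fs' h0) (hK.base.pair' (ac' hK h1) (lst' hK h2 h1))))))

theorem nB' (h0 : DfnF K K F₀) (h1 : DfnF K K F₁) :
    DfnF K K fun v => nB (F₀ v) (F₁ v) := by
  have hB := hK.base
  refine nd' hK (chk' hK (X1' hK h0)) (hK.im' (h := fun b v =>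
    ap (fs (F₀ v)) (pair (fl (fs (F₁ v))) (pair (sn (F₁ v)) b))) (DfnF.const hK.infinity) ?_)
  exact hK.ap' (hK.fs' h0.tail) (hB.pair' (fl' hK (hK.fs' h1.tail))
    (hB.pair' (hK.sn' h1.tail) (DfnF.proj 0)))

theorem nC' (h0 : DfnF K K F₀) (h1 : DfnF K K F₁) (h2 : DfnF K K F₂) (h3 : DfnF K K F₃) :
    DfnF K K fun v => nC (F₀ v) (F₁ v) (F₂ v) (F₃ v) := by
  have hB := hK.base
  exact nd' hK (chk' hK (X1' hK h0)) (hB.upair'
    (hK.ap' (hK.fs' h0) (hB.pair' (ac' hK h1) (lst' hK h3 h1)))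
    (hK.ap' (hK.fs' h0) (hB.pair' (hK.fs' h2) (hB.pair' (hK.sn' h2) h3))))

theorem nA' (h0 : DfnF K K F₀) (h1 : DfnF K K F₁) (h2 : DfnF K K F₂) :
    DfnF K K fun v => nA (F₀ v) (F₁ v) (F₂ v) := by
  have hB := hK.base
  refine nd' hK (chk' hK (Y1' hK h0)) (hB.union' ?_ (hB.union' (hB.single' (nB' hK h0 h2)) ?_))
  · refine hK.im' (h := fun a v => nE (F₀ v) (F₁ v) (sn a))
      (DfnF.comp1 (f := st) (dfn_st hK) (hK.sn' h2)) ?_
    exact nE' hK h0.tail h1.tail (hK.sn' (DfnF.proj 0))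
  · refine hK.im' (h := fun b v => nC (F₀ v) (F₁ v) (F₂ v) b) (DfnF.const hK.infinity) ?_
    exact nC' hK h0.tail h1.tail h2.tail (DfnF.proj 0)

theorem nT' (h0 : DfnF K K F₀) (h1 : DfnF K K F₁) :
    DfnF K K fun v => nT (F₀ v) (F₁ v) := by
  have hB := hK.base
  refine nd' hK (chk' hK (Z1' hK h0)) (hB.union' ?_ ?_)
  · refine hK.im' (h := fun a v => nD (F₀ v) (F₁ v) a) h1 ?_
    exact nD' hK h0.tail h1.tail (DfnF.proj 0)
  · refine hK.im' (h := fun w v => nA (F₀ v) (F₁ v) w) (DfnF.const (DD_mem hK)) ?_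
    exact nA' hK h0.tail h1.tail (DfnF.proj 0)

end

theorem Vl.neg_iff {x0 x1 a : ZFSet.{0}} {Q : Prop} (h : Vl x0 x1 a Q) : a ≠ x1 ↔ ¬ Q :=
  not_congr h.2

section

variable {M : ZFSet.{0}} (hM : IsZF {x | x ∈ M}) {G : ZFSet.{0}}
  (hG : IsGen (DefC M) (FP M) (FL M) G) {F : ℕ → ZFSet.{0}} (hF : IsBi M G F)

include hM hG hF

theorem ev_at (n i : ℕ) : Vl (X0 (Stt M (nat n))) (X1 (Stt M (nat n)))
    (ev G (ap (fs (Stt M (nat n))) (pair (ac (nat n)) (lst (nat i) (nat n))))) (F i ∈ F n) := by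
  refine (ev_Stt hM hG hF n _ (ac_mem n) _ (lst_mem (nat_mem_omega i) (nat_mem_omega n))).congr ?_
  rw [trs_lst, SM_ac]

theorem ev_nE (n i : ℕ) : Vl (Y0 (Stt M (nat n))) (Y1 (Stt M (nat n)))
    (ev G (nE (Stt M (nat n)) (nat n) (nat i))) (F i ∈ F n) := by
  refine (nd_single (tF_G hM hG) (X_ne n) (ev_Stt hM hG hF n _ (fl_mem (ac_mem n)) _
    (lst_mem (nat_mem_omega i) (nat_mem_omega n)))).congr ?_
  rw [SM_fl, not_not, trs_lst, SM_ac]

theorem ev_nD (n i : ℕ) : Vl (Z0 (Stt M (nat n))) (Z1 (Stt M (nat n)))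
    (ev G (nD (Stt M (nat n)) (nat n) (nat i))) (F i ∈ F n) := by
  refine (nd_single (tF_G hM hG) (x0 := Y0 (Stt M (nat n))) (x1 := Y1 (Stt M (nat n)))
    (level_ne (X_ne n)) (nd_single (tF_G hM hG) (X_ne n) (ev_at hM hG hF n i))).congr ?_
  rw [not_not]

theorem ev_nB (n : ℕ) {u s : ZFSet.{0}} (hu : u ∈ JJ) (hs : s ∈ Sq ZFSet.omega) :
    Vl (Y0 (Stt M (nat n))) (Y1 (Stt M (nat n)))
    (ev G (nB (Stt M (nat n)) (pair u s)))
    (∃ i : ℕ, SM {x | x ∈ M} n u (pair (trs F s) (F i))) := by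
  have h1 : ∀ b ∈ (ZFSet.omega : ZFSet.{0}), Vl (X0 (Stt M (nat n))) (X1 (Stt M (nat n)))
      (ev G (ap (fs (Stt M (nat n))) (pair (fl (fs (pair u s))) (pair (sn (pair u s)) b))))
      (¬ SM {x | x ∈ M} n u (trs F (pair s b))) := by
    intro b hb
    rw [fs_pair, sn_pair]
    exact (ev_Stt hM hG hF n _ (fl_mem hu) _ (pair_mem_Sq hs hb)).congr SM_fl
  refine (nd_im (tF_G hM hG) (X_ne n) h1).congr ?_
  simp only [not_not]
  constructor
  · rintro ⟨b, hb, h2⟩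
    obtain ⟨i, rfl⟩ := mem_omega_iff.1 hb
    rw [trs_pair, Fz_nat] at h2
    exact ⟨i, h2⟩
  · rintro ⟨i, h2⟩
    refine ⟨nat i, nat_mem_omega i, ?_⟩
    rw [trs_pair, Fz_nat]
    exact h2

theorem ev_nC (n i : ℕ) {u s : ZFSet.{0}} (hu : u ∈ JJ) (hs : s ∈ Sq ZFSet.omega) :
    Vl (Y0 (Stt M (nat n))) (Y1 (Stt M (nat n)))
    (ev G (nC (Stt M (nat n)) (nat n) (pair u s) (nat i)))
    (¬ F i ∈ F n ∨ ¬ SM {x | x ∈ M} n u (pair (trs F s) (F i))) := by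
  have h1 := ev_Stt hM hG hF n u hu _ (pair_mem_Sq hs (nat_mem_omega i))
  rw [trs_pair, Fz_nat] at h1
  rw [nC, fs_pair, sn_pair]
  exact nd_pair (tF_G hM hG) (X_ne n) (ev_at hM hG hF n i) h1

theorem ev_nA (n : ℕ) {u s : ZFSet.{0}} (hu : u ∈ JJ) (hs : s ∈ Sq ZFSet.omega) :
    Vl (Z0 (Stt M (nat n))) (Z1 (Stt M (nat n)))
    (ev G (nA (Stt M (nat n)) (nat n) (pair u s)))
    ((∃ a ∈ st s, ¬ Fz F (sn a) ∈ F n) ∨
      ¬ (∃ i : ℕ, SM {x | x ∈ M} n u (pair (trs F s) (F i))) ∨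
      ∃ i, F i ∈ F n ∧ SM {x | x ∈ M} n u (pair (trs F s) (F i))) := by
  have hst : ∀ a ∈ st s, ∃ i, sn a = nat i := by
    intro a ha
    obtain ⟨h, k, hh, rfl⟩ := exists_seq hs
    obtain ⟨j, hj, rfl⟩ := mem_st.1 ha
    rw [sn_pair]
    exact mem_omega_iff.1 (hh j hj)
  have hE : ∀ a ∈ st s, Vl (Y0 (Stt M (nat n))) (Y1 (Stt M (nat n)))
      (ev G (nE (Stt M (nat n)) (nat n) (sn a))) (Fz F (sn a) ∈ F n) := by
    intro a ha
    obtain ⟨i, hi⟩ := hst a ha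
    rw [hi, Fz_nat]
    exact ev_nE hM hG hF n i
  have hB := ev_nB hM hG hF n hu hs
  have hC := fun i => ev_nC hM hG hF n i hu hs
  refine (ev_nd (tF_G hM hG) (x0 := Y0 (Stt M (nat n))) (x1 := Y1 (Stt M (nat n)))
    (level_ne (X_ne n)) ?_).congr ?_
  · intro x hx
    rw [sn_pair] at hx
    rcases ZFSet.mem_union.1 hx with hx | hx
    · obtain ⟨a, ha, rfl⟩ := mem_im.1 hx
      exact (hE a ha).1
    · rcases ZFSet.mem_union.1 hx with hx | hx
      · rw [ZFSet.mem_singleton.1 hx]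
        exact hB.1
      · obtain ⟨b, hb, rfl⟩ := mem_im.1 hx
        obtain ⟨i, rfl⟩ := mem_omega_iff.1 hb
        exact (hC i).1
  · rw [sn_pair]
    constructor
    · rintro ⟨x, hx, h1⟩
      rcases ZFSet.mem_union.1 hx with hx | hx
      · obtain ⟨a, ha, rfl⟩ := mem_im.1 hx
        exact Or.inl ⟨a, ha, (hE a ha).neg_iff.1 h1⟩
      · rcases ZFSet.mem_union.1 hx with hx | hx
        · rw [ZFSet.mem_singleton.1 hx] at h1
          exact Or.inr (Or.inl (hB.neg_iff.1 h1))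
        · obtain ⟨b, hb, rfl⟩ := mem_im.1 hx
          obtain ⟨i, rfl⟩ := mem_omega_iff.1 hb
          have h2 := (hC i).neg_iff.1 h1
          push Not at h2
          exact Or.inr (Or.inr ⟨i, h2⟩)
    · rintro (⟨a, ha, h1⟩ | h1 | ⟨i, h1⟩)
      · exact ⟨_, ZFSet.mem_union.2 (Or.inl (mem_im.2 ⟨a, ha, rfl⟩)), (hE a ha).neg_iff.2 h1⟩
      · exact ⟨_, ZFSet.mem_union.2 (Or.inr (ZFSet.mem_union.2 (Or.inl
          (ZFSet.mem_singleton.2 rfl)))), hB.neg_iff.2 h1⟩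
      · refine ⟨_, ZFSet.mem_union.2 (Or.inr (ZFSet.mem_union.2 (Or.inr
          (mem_im.2 ⟨nat i, nat_mem_omega i, rfl⟩)))), (hC i).neg_iff.2 ?_⟩
        push Not
        exact h1

/-- The formula that says that `F n` reflects. -/
theorem Kn_iff (n : ℕ) : Kn {x | x ∈ M} n (F n) ↔ ∀ u ∈ JJ, ∀ s ∈ Sq ZFSet.omega,
    (∃ a ∈ st s, ¬ Fz F (sn a) ∈ F n) ∨
      ¬ (∃ i : ℕ, SM {x | x ∈ M} n u (pair (trs F s) (F i))) ∨
      ∃ i, F i ∈ F n ∧ SM {x | x ∈ M} n u (pair (trs F s) (F i)) := by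
  have hmem : ∀ b ∈ F n, ∃ i, F i = b := fun b hb => hF.surj b (hM.trans _ (hF.mem n) _ hb)
  constructor
  · intro hKn u hu s hs
    by_contra hcon
    push Not at hcon
    obtain ⟨h1, ⟨i, h2⟩, h3⟩ := hcon
    have h4 : trs F s ∈ Sq (F n) := by
      obtain ⟨h, k, hh, rfl⟩ := exists_seq hs
      rw [trs_seq]
      refine seq_mem_Sq fun j hj => ?_
      have h5 := h1 _ (mem_st.2 ⟨j, hj, rfl⟩)
      rwa [sn_pair] at h5
    obtain ⟨b, hb, h5⟩ := hKn u hu _ h4 ⟨F i, hF.mem i, h2⟩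
    obtain ⟨j, rfl⟩ := hmem b hb
    exact h3 j hb h5
  · intro h u hu t ht h1
    obtain ⟨g, k, hg, rfl⟩ := exists_seq ht
    choose! j hj using fun i (hi : i < k) => hmem (g i) (hg i hi)
    have h2 : trs F (seq (fun i => nat (j i)) k) = seq g k := by
      rw [trs_seq]
      refine seq_congr fun i hi => ?_
      rw [Fz_nat, hj i hi]
    rcases h u hu (seq (fun i => nat (j i)) k) (seq_mem_Sq fun i _ => nat_mem_omega _) with
      ⟨a, ha, h3⟩ | h3 | ⟨i, h3, h4⟩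
    · obtain ⟨i, hi, rfl⟩ := mem_st.1 ha
      rw [sn_pair, Fz_nat, hj i hi] at h3
      exact absurd (hg i hi) h3
    · rw [h2] at h3
      obtain ⟨b, hb, h4⟩ := h1
      obtain ⟨i, rfl⟩ := hF.surj b hb
      exact absurd ⟨i, h4⟩ h3
    · rw [h2] at h4
      exact ⟨F i, h3, h4⟩

theorem ev_nT (n : ℕ) : Vl {Z1 (Stt M (nat n))} {Z0 (Stt M (nat n)), Z1 (Stt M (nat n))}
    (ev G (nT (Stt M (nat n)) (nat n)))
    (¬ (Kn {x | x ∈ M} n (F n) ∧ ∀ i < n, F i ∈ F n)) := by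
  have hD := fun i => ev_nD hM hG hF n i
  have hA := fun {u s} hu hs => ev_nA hM hG hF n (u := u) (s := s) hu hs
  have hne : Z0 (Stt M (nat n)) ≠ Z1 (Stt M (nat n)) := level_ne (level_ne (X_ne n))
  refine (ev_nd (tF_G hM hG) hne ?_).congr ?_
  · intro x hx
    rcases ZFSet.mem_union.1 hx with hx | hx
    · obtain ⟨a, ha, rfl⟩ := mem_im.1 hx
      obtain ⟨i, hi, rfl⟩ := mem_nat_iff'.1 ha
      exact (hD i).1
    · obtain ⟨w, hw, rfl⟩ := mem_im.1 hx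
      obtain ⟨u, hu, s, hs, rfl⟩ := ZFSet.mem_prod.1 hw
      exact (hA hu hs).1
  · rw [Kn_iff hM hG hF, not_and_or]
    push Not
    constructor
    · rintro ⟨x, hx, h1⟩
      rcases ZFSet.mem_union.1 hx with hx | hx
      · obtain ⟨a, ha, rfl⟩ := mem_im.1 hx
        obtain ⟨i, hi, rfl⟩ := mem_nat_iff'.1 ha
        exact Or.inr ⟨i, hi, (hD i).neg_iff.1 h1⟩
      · obtain ⟨w, hw, rfl⟩ := mem_im.1 hx
        obtain ⟨u, hu, s, hs, rfl⟩ := ZFSet.mem_prod.1 hw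
        have h2 := (hA hu hs).neg_iff.1 h1
        push Not at h2
        exact Or.inl ⟨u, hu, s, hs, h2⟩
    · rintro (⟨u, hu, s, hs, h2⟩ | ⟨i, hi, h2⟩)
      · refine ⟨_, ZFSet.mem_union.2 (Or.inr (mem_im.2 ⟨pair u s,
          ZFSet.pair_mem_prod.2 ⟨hu, hs⟩, rfl⟩)), (hA hu hs).neg_iff.2 ?_⟩
        push Not
        exact h2
      · exact ⟨_, ZFSet.mem_union.2 (Or.inl (mem_im.2 ⟨nat i, mem_nat_iff'.2 ⟨i, hi, rfl⟩, rfl⟩)),
          (hD i).neg_iff.2 h2⟩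

end

end Pool.Agent.R597
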