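import Pool.Agent.R597.GBM
import Pool.Agent.R597.Coh
import Pool.Agent.W868.NDfn

/-!
# A notion of forcing that makes the power set of `ω` a set of the extension
-/

set_option autoImplicit false
set_option linter.unreachableTactic false
set_option linter.unusedTactic false
set_option linter.unusedSectionVars false
set_option linter.unusedVariables false

namespace Pool.Agent.R597

open Pool.Agent.W868 Pool.Agent.W868.GM Pool.Agent.Y588
open ZFSet (pair)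

/-- The top condition. -/
noncomputable def tt : ZFSet.{0} := pair (nat 0) ∅

/-- The conditions: finite sequences of elements of `W`, and pairs of natural numbers. -/
noncomputable def Pw (W : ZFSet.{0}) : ZFSet.{0} :=
  ZFSet.prod {nat 0} (Sq W) ∪ ZFSet.prod {nat 1} (ZFSet.prod ZFSet.omega ZFSet.omega)

/-- The order. -/
def Rl (W q p : ZFSet.{0}) : Prop :=
  p = tt ∨ q = p ∨ (fs q = nat 0 ∧ fs p = nat 0 ∧ st (sn p) ⊆ st (sn q)) ∨
    (fs q = nat 0 ∧ fs p = nat 1 ∧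
      ∃ a ∈ W, pair (fs (sn p)) a ∈ st (sn q) ∧ sn (sn p) ∈ a)

/-- The order, as a set. -/
noncomputable def Lw (W : ZFSet.{0}) : ZFSet.{0} :=
  ZFSet.sep (fun u => Rl W (fs u) (sn u)) (ZFSet.prod (Pw W) (Pw W))

variable {W : ZFSet.{0}}

theorem mem_Pw {p : ZFSet.{0}} : p ∈ Pw W ↔ (∃ s ∈ Sq W, p = pair (nat 0) s) ∨
    ∃ n ∈ ZFSet.omega, ∃ k ∈ ZFSet.omega, p = pair (nat 1) (pair n k) := by
  rw [Pw, ZFSet.mem_union, ZFSet.mem_prod, ZFSet.mem_prod]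
  constructor
  · rintro (⟨a, ha, b, hb, rfl⟩ | ⟨a, ha, b, hb, rfl⟩)
    · rw [ZFSet.mem_singleton] at ha
      subst ha
      exact Or.inl ⟨b, hb, rfl⟩
    · rw [ZFSet.mem_singleton] at ha
      subst ha
      obtain ⟨n, hn, k, hk, rfl⟩ := ZFSet.mem_prod.1 hb
      exact Or.inr ⟨n, hn, k, hk, rfl⟩
  · rintro (⟨s, hs, rfl⟩ | ⟨n, hn, k, hk, rfl⟩)
    · exact Or.inl ⟨_, by simp, s, hs, rfl⟩
    · exact Or.inr ⟨_, by simp, _, ZFSet.pair_mem_prod.2 ⟨hn, hk⟩, rfl⟩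

theorem mem_Lw {q p : ZFSet.{0}} : pair q p ∈ Lw W ↔ (q ∈ Pw W ∧ p ∈ Pw W) ∧ Rl W q p := by
  rw [Lw, ZFSet.mem_sep, ZFSet.pair_mem_prod, fs_pair, sn_pair]

theorem n01 : nat 0 ≠ nat 1 := fun h => by
  have h1 : (0 : ℕ) = 1 := nat_injective h
  omega

theorem tt_mem : tt ∈ Pw W := mem_Pw.2 (Or.inl ⟨∅, empty_mem_Sq, rfl⟩)

theorem rl_top {q : ZFSet.{0}} : Rl W q tt := Or.inl rfl

theorem rl_refl {q : ZFSet.{0}} : Rl W q q := Or.inr (Or.inl rfl)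

/-- The order on the sequences. -/
theorem rl_seq {q t : ZFSet.{0}} : Rl W q (pair (nat 0) t) ↔
    t = ∅ ∨ q = pair (nat 0) t ∨ (fs q = nat 0 ∧ st t ⊆ st (sn q)) := by
  constructor
  · rintro (h | h | ⟨h1, -, h2⟩ | ⟨-, h1, -⟩)
    · exact Or.inl (ZFSet.pair_inj.1 h).2
    · exact Or.inr (Or.inl h)
    · rw [sn_pair] at h2
      exact Or.inr (Or.inr ⟨h1, h2⟩)
    · rw [fs_pair] at h1
      exact absurd h1 n01
  · rintro (rfl | h | ⟨h1, h2⟩)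
    · exact rl_top
    · exact Or.inr (Or.inl h)
    · exact Or.inr (Or.inr (Or.inl ⟨h1, fs_pair _ _, by rw [sn_pair]; exact h2⟩))

theorem rl_col {q n k : ZFSet.{0}} : Rl W q (pair (nat 1) (pair n k)) ↔
    q = pair (nat 1) (pair n k) ∨
      (fs q = nat 0 ∧ ∃ a ∈ W, pair n a ∈ st (sn q) ∧ k ∈ a) := by
  constructor
  · rintro (h | h | ⟨-, h1, -⟩ | ⟨h1, -, h2⟩)
    · exact absurd (ZFSet.pair_inj.1 h).1 n01.symm
    · exact Or.inl h
    · rw [fs_pair] at h1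
      exact absurd h1 n01.symm
    · rw [sn_pair, fs_pair, sn_pair] at h2
      exact Or.inr ⟨h1, h2⟩
  · rintro (h | ⟨h1, h2⟩)
    · exact Or.inr (Or.inl h)
    · exact Or.inr (Or.inr (Or.inr ⟨h1, fs_pair _ _, by rwa [sn_pair, fs_pair, sn_pair]⟩))

theorem rl_seq_seq {s t : ZFSet.{0}} (ht : t ∈ Sq W) :
    Rl W (pair (nat 0) s) (pair (nat 0) t) ↔ st t ⊆ st s := by
  rw [rl_seq, fs_pair, sn_pair]
  constructor
  · rintro (rfl | h | ⟨-, h⟩)
    · rw [st_empty]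
      exact fun z hz => absurd hz (ZFSet.notMem_empty _)
    · rw [(ZFSet.pair_inj.1 h).2]
    · exact h
  · exact fun h => Or.inr (Or.inr ⟨rfl, h⟩)

theorem rl_col_seq {s n k : ZFSet.{0}} :
    Rl W (pair (nat 0) s) (pair (nat 1) (pair n k)) ↔ ∃ a ∈ W, pair n a ∈ st s ∧ k ∈ a := by
  rw [rl_col, fs_pair, sn_pair]
  constructor
  · rintro (h | ⟨-, h⟩)
    · exact absurd (ZFSet.pair_inj.1 h).1 n01
    · exact h
  · exact fun h => Or.inr ⟨rfl, h⟩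

theorem rl_seq_col {t n k : ZFSet.{0}} :
    Rl W (pair (nat 1) (pair n k)) (pair (nat 0) t) ↔ t = ∅ := by
  rw [rl_seq, fs_pair]
  constructor
  · rintro (h | h | ⟨h, -⟩)
    · exact h
    · exact absurd (ZFSet.pair_inj.1 h).1 n01.symm
    · exact absurd h n01.symm
  · exact fun h => Or.inl h

theorem rl_col_col {m l n k : ZFSet.{0}} :
    Rl W (pair (nat 1) (pair m l)) (pair (nat 1) (pair n k)) ↔ m = n ∧ l = k := by
  rw [rl_col, fs_pair]
  constructor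
  · rintro (h | ⟨h, -⟩)
    · exact ZFSet.pair_inj.1 (ZFSet.pair_inj.1 h).2
    · exact absurd h n01.symm
  · rintro ⟨rfl, rfl⟩
    exact Or.inl rfl

theorem st_antisymm {s t : ZFSet.{0}} (hs : s ∈ Sq W) (ht : t ∈ Sq W) (h : st s ⊆ st t)
    (h' : st t ⊆ st s) : s = t := by
  obtain ⟨f, n, -, rfl⟩ := exists_seq hs
  obtain ⟨g, m, -, rfl⟩ := exists_seq ht
  have h1 := st_sub.1 h
  have h2 := st_sub.1 h'
  have h3 : n = m := le_antisymm h1.1 h2.1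
  subst h3
  exact seq_congr h1.2

theorem rl_trans {p q r : ZFSet.{0}} (hp : p ∈ Pw W) (hq : q ∈ Pw W) (hr : r ∈ Pw W)
    (h1 : Rl W r q) (h2 : Rl W q p) : Rl W r p := by
  rcases mem_Pw.1 hp with ⟨u, hu, rfl⟩ | ⟨n, hn, k, hk, rfl⟩
  · rcases mem_Pw.1 hq with ⟨t, ht, rfl⟩ | ⟨n', hn', k', hk', rfl⟩
    · rcases mem_Pw.1 hr with ⟨s, hs, rfl⟩ | ⟨n'', hn'', k'', hk'', rfl⟩
      · rw [rl_seq_seq ht] at h1
        rw [rl_seq_seq hu] at h2 ⊢
        exact fun z hz => h1 (h2 hz)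
      · rw [rl_seq_col] at h1
        subst h1
        rw [rl_seq_seq hu] at h2
        have h3 : u = ∅ := st_antisymm hu empty_mem_Sq h2 (by
          rw [st_empty]
          exact fun z hz => absurd hz (ZFSet.notMem_empty _))
        rw [h3]
        exact rl_top
    · rw [rl_seq_col] at h2
      subst h2
      exact rl_top
  · rcases mem_Pw.1 hq with ⟨t, ht, rfl⟩ | ⟨n', hn', k', hk', rfl⟩
    · rcases mem_Pw.1 hr with ⟨s, hs, rfl⟩ | ⟨n'', hn'', k'', hk'', rfl⟩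
      · rw [rl_seq_seq ht] at h1
        rw [rl_col_seq] at h2 ⊢
        obtain ⟨a, ha, h3, h4⟩ := h2
        exact ⟨a, ha, h1 h3, h4⟩
      · rw [rl_seq_col] at h1
        subst h1
        rw [rl_col_seq, st_empty] at h2
        obtain ⟨a, -, h3, -⟩ := h2
        exact absurd h3 (ZFSet.notMem_empty _)
    · rw [rl_col_col] at h2
      obtain ⟨rfl, rfl⟩ := h2
      exact h1

theorem rl_antisymm {p q : ZFSet.{0}} (hp : p ∈ Pw W) (hq : q ∈ Pw W) (h1 : Rl W q p)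
    (h2 : Rl W p q) : p = q := by
  rcases mem_Pw.1 hp with ⟨u, hu, rfl⟩ | ⟨n, hn, k, hk, rfl⟩
  · rcases mem_Pw.1 hq with ⟨t, ht, rfl⟩ | ⟨n', hn', k', hk', rfl⟩
    · rw [rl_seq_seq hu] at h1
      rw [rl_seq_seq ht] at h2
      rw [st_antisymm hu ht h1 h2]
    · rw [rl_seq_col] at h1
      subst h1
      rw [rl_col_seq, st_empty] at h2
      obtain ⟨a, -, h3, -⟩ := h2
      exact absurd h3 (ZFSet.notMem_empty _)
  · rcases mem_Pw.1 hq with ⟨t, ht, rfl⟩ | ⟨n', hn', k', hk', rfl⟩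
    · rw [rl_seq_col] at h2
      subst h2
      rw [rl_col_seq, st_empty] at h1
      obtain ⟨a, -, h3, -⟩ := h1
      exact absurd h3 (ZFSet.notMem_empty _)
    · rw [rl_col_col] at h1
      obtain ⟨rfl, rfl⟩ := h1
      rfl

/-! ### The forcing in the model -/

section

variable {N : Set ZFSet.{0}} (hN : IsZF N)

include hN

theorem Pw_mem (hW : W ∈ N) : Pw W ∈ N :=
  hN.union_mem (hN.prod_mem (hN.single_mem (hN.nat_mem 0)) (Sq_mem hN hW))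
    (hN.prod_mem (hN.single_mem (hN.nat_mem 1)) (hN.prod_mem hN.infinity hN.infinity))

theorem Lw_mem (hW : W ∈ N) : Lw W ∈ N := by
  have hB := hN.base
  have hst := dfn_st hN
  have h0 := hN.nat_mem 0
  have h1 := hN.nat_mem 1
  have htt : tt ∈ N := hN.pair_mem h0 hN.empty_mem
  have hf : DfnF N N fun w : Fin 1 → ZFSet.{0} => fs (w 0) := hN.fs' (DfnF.proj 0)
  have hs : DfnF N N fun w : Fin 1 → ZFSet.{0} => sn (w 0) := hN.sn' (DfnF.proj 0)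
  refine hN.sep_mem (Q := fun u => Rl W (fs u) (sn u)) ?_
    (hN.prod_mem (Pw_mem hN hW) (Pw_mem hN hW))
  unfold Rl
  refine (Dfn.eq hs (DfnF.const htt)).or ((Dfn.eq hf hs).or (Dfn.or ?_ ?_))
  · refine (Dfn.eq (hN.fs' hf) (DfnF.const h0)).and ((Dfn.eq (hN.fs' hs) (DfnF.const h0)).and ?_)
    exact hB.subset' (DfnF.comp1 (f := st) hst (hN.sn' hs)) (DfnF.comp1 (f := st) hst (hN.sn' hf))
  · refine (Dfn.eq (hN.fs' hf) (DfnF.const h0)).and ((Dfn.eq (hN.fs' hs) (DfnF.const h1)).and ?_)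
    apply hB.bex (DfnF.const hW)
    apply Dfn.and
    · exact Dfn.mem (hB.pair' (hN.fs' (hN.sn' (hN.sn' (DfnF.proj 1)))) (DfnF.proj 0))
        (DfnF.comp1 (f := st) hst (hN.sn' (hN.fs' (DfnF.proj 1))))
    · exact Dfn.mem (hN.sn' (hN.sn' (hN.sn' (DfnF.proj 1)))) (DfnF.proj 0)

theorem forcing_Pw (hW : W ∈ N) : IsForcing N (Pw W) (Lw W) where
  mem := Pw_mem hN hW
  le_mem := Lw_mem hN hW
  refl p hp := mem_Lw.2 ⟨⟨hp, hp⟩, rl_refl⟩
  trans p hp q hq r hr h1 h2 := mem_Lw.2 ⟨⟨hr, hp⟩,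
    rl_trans hp hq hr (mem_Lw.1 h1).2 (mem_Lw.1 h2).2⟩
  top := ⟨tt, tt_mem, fun p hp => mem_Lw.2 ⟨⟨hp, tt_mem⟩, rl_top⟩⟩

end

section

variable {N : Set ZFSet.{0}} (hN : IsZF N) {G : ZFSet.{0}} (hW : W ∈ N)
  (hG : IsGeneric N (Pw W) (Lw W) G)

theorem exists_below (hω : ZFSet.omega ∈ W) {q : ZFSet.{0}} (hq : q ∈ Pw W) :
    ∃ f : ℕ → ZFSet.{0}, (∀ k, f k ∈ W) ∧ ∃ m, Rl W (pair (nat 0) (seq f m)) q := by
  rcases mem_Pw.1 hq with ⟨u, hu, rfl⟩ | ⟨n, hn, k, hk, rfl⟩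
  · obtain ⟨f, m, hf, rfl⟩ := exists_seq hu
    refine ⟨fun k => if k < m then f k else ZFSet.omega, fun k => ?_, m, ?_⟩
    · by_cases h : k < m
      · simp only [h, if_true]
        exact hf k h
      · simp only [h, if_false]
        exact hω
    · rw [rl_seq_seq hu, st_sub]
      exact ⟨le_rfl, fun k hk => by simp [hk]⟩
  · obtain ⟨i, rfl⟩ := mem_omega_iff.1 hn
    refine ⟨fun _ => ZFSet.omega, fun _ => hω, i + 1, ?_⟩
    rw [rl_col_seq]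
    exact ⟨ZFSet.omega, hω, pair_mem_st.2 ⟨by omega, rfl⟩, hk⟩

include hN hW hG

theorem tt_mem_G : tt ∈ G := by
  obtain ⟨p, hp⟩ := hG.nonempty
  exact hG.up p hp tt tt_mem (mem_Lw.2 ⟨⟨hG.sub hp, tt_mem⟩, rl_top⟩)

theorem exists_len (hω : ZFSet.omega ∈ W) (n : ℕ) : ∃ s, pair (nat 0) s ∈ G ∧ s ∈ Sq W ∧
    ∃ a ∈ W, pair (nat n) a ∈ st s := by
  have hB := hN.base
  have h0 := hN.nat_mem 0
  have hn := hN.nat_mem n
  have hst := dfn_st hN
  have hd : Dfn N N fun w : Fin 1 → ZFSet.{0} => fs (w 0) = nat 0 ∧ ∃ a ∈ W,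
      pair (nat n) a ∈ st (sn (w 0)) := by
    apply Dfn.and
    · exact Dfn.eq (hN.fs' (DfnF.proj 0)) (DfnF.const h0)
    · apply hB.bex (DfnF.const hW)
      exact Dfn.mem (hB.pair' (DfnF.const hn) (DfnF.proj 0))
        (DfnF.comp1 (f := st) hst (hN.sn' (DfnF.proj 1)))
  obtain ⟨r, hr, h1, h2⟩ := gen_dense hN (forcing_Pw hN hW) hG (Q := fun p => fs p = nat 0 ∧
    ∃ a ∈ W, pair (nat n) a ∈ st (sn p)) hd (by
      intro q hq
      obtain ⟨f, hf, m, h1⟩ := exists_below hω hq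
      have hs : seq f m ∈ Sq W := seq_mem_Sq fun k _ => hf k
      have hs' : seq f (m + n + 1) ∈ Sq W := seq_mem_Sq fun k _ => hf k
      have h2 : pair (nat 0) (seq f m) ∈ Pw W := mem_Pw.2 (Or.inl ⟨_, hs, rfl⟩)
      have h3 : pair (nat 0) (seq f (m + n + 1)) ∈ Pw W := mem_Pw.2 (Or.inl ⟨_, hs', rfl⟩)
      refine ⟨pair (nat 0) (seq f (m + n + 1)), h3, mem_Lw.2 ⟨⟨h3, hq⟩,
        rl_trans hq h2 h3 ((rl_seq_seq hs).2 (st_sub.2 ⟨by omega, fun _ _ => rfl⟩)) h1⟩,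
        fs_pair _ _, f n, hf n, ?_⟩
      rw [sn_pair]
      exact pair_mem_st.2 ⟨by omega, rfl⟩)
  rcases mem_Pw.1 (hG.sub hr) with ⟨u, hu, rfl⟩ | ⟨n, hn, k, hk, rfl⟩
  · rw [sn_pair] at h2
    exact ⟨u, hr, hu, h2⟩
  · rw [fs_pair] at h1
    exact absurd h1 n01.symm

theorem exists_occ (hω : ZFSet.omega ∈ W) {a : ZFSet.{0}} (ha : a ∈ W) :
    ∃ s, pair (nat 0) s ∈ G ∧ ∃ n ∈ ZFSet.omega, pair n a ∈ st s := by
  have hB := hN.base
  have h0 := hN.nat_mem 0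
  have hωN := hN.infinity
  have haN := hN.trans _ hW _ ha
  have hst := dfn_st hN
  have hd : Dfn N N fun w : Fin 1 → ZFSet.{0} => fs (w 0) = nat 0 ∧ ∃ n ∈ ZFSet.omega,
      pair n a ∈ st (sn (w 0)) := by
    apply Dfn.and
    · exact Dfn.eq (hN.fs' (DfnF.proj 0)) (DfnF.const h0)
    · apply hB.bex (DfnF.const hωN)
      exact Dfn.mem (hB.pair' (DfnF.proj 0) (DfnF.const haN))
        (DfnF.comp1 (f := st) hst (hN.sn' (DfnF.proj 1)))
  obtain ⟨r, hr, h1, h2⟩ := gen_dense hN (forcing_Pw hN hW) hG (Q := fun p => fs p = nat 0 ∧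
    ∃ n ∈ ZFSet.omega, pair n a ∈ st (sn p)) hd (by
      intro q hq
      obtain ⟨f, hf, m, h1⟩ := exists_below hω hq
      have hs : seq f m ∈ Sq W := seq_mem_Sq fun k _ => hf k
      have hs' : seq (fun k => if k < m then f k else a) (m + 1) ∈ Sq W := by
        refine seq_mem_Sq fun k _ => ?_
        by_cases h : k < m
        · simp only [h, if_true]
          exact hf k
        · simp only [h, if_false]
          exact ha
      have h2 : pair (nat 0) (seq f m) ∈ Pw W := mem_Pw.2 (Or.inl ⟨_, hs, rfl⟩)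
      have h3 : pair (nat 0) (seq (fun k => if k < m then f k else a) (m + 1)) ∈ Pw W :=
        mem_Pw.2 (Or.inl ⟨_, hs', rfl⟩)
      refine ⟨_, h3, mem_Lw.2 ⟨⟨h3, hq⟩,
        rl_trans hq h2 h3 ((rl_seq_seq hs).2 (st_sub.2 ⟨by omega, fun k hk => by simp [hk]⟩)) h1⟩,
        fs_pair _ _, nat m, nat_mem_omega m, ?_⟩
      rw [sn_pair]
      exact pair_mem_st.2 ⟨by omega, by simp⟩)
  rcases mem_Pw.1 (hG.sub hr) with ⟨u, hu, rfl⟩ | ⟨n, hn, k, hk, rfl⟩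
  · rw [sn_pair] at h2
    exact ⟨u, hr, h2⟩
  · rw [fs_pair] at h1
    exact absurd h1 n01.symm

theorem dir_seq {s t : ZFSet.{0}} (hs : pair (nat 0) s ∈ G) (ht : pair (nat 0) t ∈ G) :
    ∃ u ∈ Sq W, pair (nat 0) u ∈ G ∧ st s ⊆ st u ∧ st t ⊆ st u := by
  have hSq : ∀ {s}, pair (nat 0) s ∈ G → s ∈ Sq W := by
    intro s hs
    rcases mem_Pw.1 (hG.sub hs) with ⟨u, hu, h⟩ | ⟨n, hn, k, hk, h⟩
    · rw [(ZFSet.pair_inj.1 h).2]
      exact hu
    · exact absurd (ZFSet.pair_inj.1 h).1 n01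
  obtain ⟨r, hr, h1, h2⟩ := hG.dir _ hs _ ht
  have h1 := (mem_Lw.1 h1).2
  have h2 := (mem_Lw.1 h2).2
  rcases mem_Pw.1 (hG.sub hr) with ⟨u, hu, rfl⟩ | ⟨n, hn, k, hk, rfl⟩
  · rw [rl_seq_seq (hSq hs)] at h1
    rw [rl_seq_seq (hSq ht)] at h2
    exact ⟨u, hu, hr, h1, h2⟩
  · rw [rl_seq_col] at h1 h2
    subst h1
    subst h2
    exact ⟨∅, empty_mem_Sq, tt_mem_G hN hW hG, fun _ h => h, fun _ h => h⟩

theorem dir_col {s n k : ZFSet.{0}} (hs : pair (nat 0) s ∈ G) (hne : s ≠ ∅)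
    (hk : pair (nat 1) (pair n k) ∈ G) : ∃ u ∈ Sq W, pair (nat 0) u ∈ G ∧ st s ⊆ st u ∧
      ∃ a ∈ W, pair n a ∈ st u ∧ k ∈ a := by
  have hSq : s ∈ Sq W := by
    rcases mem_Pw.1 (hG.sub hs) with ⟨u, hu, h⟩ | ⟨n, hn, k, hk, h⟩
    · rw [(ZFSet.pair_inj.1 h).2]
      exact hu
    · exact absurd (ZFSet.pair_inj.1 h).1 n01
  obtain ⟨r, hr, h1, h2⟩ := hG.dir _ hs _ hk
  have h1 := (mem_Lw.1 h1).2
  have h2 := (mem_Lw.1 h2).2
  rcases mem_Pw.1 (hG.sub hr) with ⟨u, hu, rfl⟩ | ⟨n, hn, k, hk, rfl⟩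
  · rw [rl_seq_seq hSq] at h1
    rw [rl_col_seq] at h2
    exact ⟨u, hu, hr, h1, h2⟩
  · rw [rl_seq_col] at h1
    exact absurd h1 hne

theorem st_unique {u : ZFSet.{0}} (hu : u ∈ Sq W) {n : ℕ} {a b : ZFSet.{0}}
    (ha : pair (nat n) a ∈ st u) (hb : pair (nat n) b ∈ st u) : a = b := by
  obtain ⟨f, m, -, rfl⟩ := exists_seq hu
  rw [(pair_mem_st.1 ha).2, (pair_mem_st.1 hb).2]

/-- The value of the names for the elements of the generic sequence. -/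
theorem col_mem_iff (hω : ZFSet.omega ∈ W) {n : ℕ} {s a : ZFSet.{0}} (hs : pair (nat 0) s ∈ G)
    (ha : pair (nat n) a ∈ st s) (haW : a ∈ W) {k : ZFSet.{0}} (hk : k ∈ ZFSet.omega) :
    pair (nat 1) (pair (nat n) k) ∈ G ↔ k ∈ a := by
  have hne : s ≠ ∅ := by
    rintro rfl
    rw [st_empty] at ha
    exact ZFSet.notMem_empty _ ha
  constructor
  · intro h
    obtain ⟨u, hu, -, h1, b, -, h2, h3⟩ := dir_col hN hW hG hs hne h
    rw [st_unique hN hW hG hu (h1 ha) h2]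
    exact h3
  · intro h
    have h1 : pair (nat 1) (pair (nat n) k) ∈ Pw W :=
      mem_Pw.2 (Or.inr ⟨_, nat_mem_omega n, k, hk, rfl⟩)
    exact hG.up _ hs _ h1 (mem_Lw.2 ⟨⟨hG.sub hs, h1⟩, rl_col_seq.2 ⟨a, haW, ha, h⟩⟩)

end

/-! ### The names -/

/-- The name of the element with the index `n` of the generic sequence. -/
noncomputable def tau (n : ZFSet.{0}) : ZFSet.{0} :=
  im (fun k => pair (chk tt k) (pair (nat 1) (pair n k))) ZFSet.omega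

/-- The name of the range of the generic sequence. -/
noncomputable def sig : ZFSet.{0} := im (fun n => pair (tau n) tt) ZFSet.omega

theorem ev_tau {N : Set ZFSet.{0}} (hN : IsZF N) {G : ZFSet.{0}} (hW : W ∈ N)
    (hG : IsGeneric N (Pw W) (Lw W) G) (hω : ZFSet.omega ∈ W) (hsub : ∀ a ∈ W, a ⊆ ZFSet.omega)
    {n : ℕ} {s a : ZFSet.{0}} (hs : pair (nat 0) s ∈ G) (ha : pair (nat n) a ∈ st s)
    (haW : a ∈ W) : ev G (tau (nat n)) = a := by
  have htG := tt_mem_G hN hW hG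
  ext z
  rw [mem_ev]
  constructor
  · rintro ⟨y, p, h1, h2, rfl⟩
    obtain ⟨k, hk, h3⟩ := mem_im.1 h1
    obtain ⟨rfl, rfl⟩ := ZFSet.pair_inj.1 h3
    rw [ev_chk htG]
    exact (col_mem_iff hN hW hG hω hs ha haW hk).1 h2
  · intro hz
    exact ⟨chk tt z, pair (nat 1) (pair (nat n) z), mem_im.2 ⟨z, hsub a haW hz, rfl⟩,
      (col_mem_iff hN hW hG hω hs ha haW (hsub a haW hz)).2 hz, ev_chk htG z⟩

theorem ev_sig {N : Set ZFSet.{0}} (hN : IsZF N) {G : ZFSet.{0}} (hW : W ∈ N)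
    (hG : IsGeneric N (Pw W) (Lw W) G) (hω : ZFSet.omega ∈ W) (hsub : ∀ a ∈ W, a ⊆ ZFSet.omega) :
    ev G sig = W := by
  have htG := tt_mem_G hN hW hG
  ext z
  rw [mem_ev]
  constructor
  · rintro ⟨y, p, h1, h2, rfl⟩
    obtain ⟨n, hn, h3⟩ := mem_im.1 h1
    obtain ⟨rfl, rfl⟩ := ZFSet.pair_inj.1 h3
    obtain ⟨i, rfl⟩ := mem_omega_iff.1 hn
    obtain ⟨s, hs, -, a, ha, has⟩ := exists_len hN hW hG hω i
    rw [ev_tau hN hW hG hω hsub hs has ha]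
    exact ha
  · intro hz
    obtain ⟨s, hs, n, hn, has⟩ := exists_occ hN hW hG hω hz
    obtain ⟨i, rfl⟩ := mem_omega_iff.1 hn
    exact ⟨tau (nat i), tt, mem_im.2 ⟨nat i, hn, rfl⟩, htG,
      ev_tau hN hW hG hω hsub hs has hz⟩

theorem isName_chk (W x : ZFSet.{0}) : IsName (Pw W) (chk tt x) := by
  induction x using ZFSet.inductionOn with
  | _ x ih =>
    refine IsName.mk _ (fun z hz => ?_) fun y p hyp => ?_
    · obtain ⟨y, hy, rfl⟩ := mem_chk.1 hz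
      exact ⟨_, tt, tt_mem, rfl⟩
    · obtain ⟨y', hy, h1⟩ := mem_chk.1 hyp
      obtain ⟨rfl, rfl⟩ := ZFSet.pair_inj.1 h1
      exact ih y' hy

theorem isName_tau {W n : ZFSet.{0}} (hn : n ∈ ZFSet.omega) : IsName (Pw W) (tau n) := by
  refine IsName.mk _ (fun z hz => ?_) fun y p hyp => ?_
  · obtain ⟨k, hk, rfl⟩ := mem_im.1 hz
    exact ⟨_, _, mem_Pw.2 (Or.inr ⟨n, hn, k, hk, rfl⟩), rfl⟩
  · obtain ⟨k, hk, h1⟩ := mem_im.1 hyp
    obtain ⟨rfl, rfl⟩ := ZFSet.pair_inj.1 h1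
    exact isName_chk W k

theorem isName_sig {W : ZFSet.{0}} : IsName (Pw W) sig := by
  refine IsName.mk _ (fun z hz => ?_) fun y p hyp => ?_
  · obtain ⟨n, hn, rfl⟩ := mem_im.1 hz
    exact ⟨_, _, tt_mem, rfl⟩
  · obtain ⟨n, hn, h1⟩ := mem_im.1 hyp
    obtain ⟨rfl, rfl⟩ := ZFSet.pair_inj.1 h1
    exact isName_tau hn

/-! ### Hereditary countability -/

section

variable {N : Set ZFSet.{0}} (hN : IsZF N) {e : ZFSet.{0} → ZFSet.{0}} (hg : GC N e)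

include hN

theorem hc_nat (n : ℕ) : HCm N (nat n) := (HCm.omega hN).trans hN (nat_mem_omega n)

theorem hc_real {a : ZFSet.{0}} (ha : a ∈ pwM N ZFSet.omega) : HCm N a :=
  (HCm.omega hN).sub hN (mem_pwM.1 ha).1 (mem_pwM.1 ha).2

include hg

theorem hc_seq {s : ZFSet.{0}} (hs : s ∈ Sq (pwM N ZFSet.omega)) : HCm N s := by
  have h : ∀ t ∈ Sq (pwM N ZFSet.omega), HCm N t := Sq_ind (hc_nat hN 0) fun t _ a ha ih =>
    HCm.pair hN hg ih (hc_real hN ha)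
  exact h s hs

theorem hc_cond {p : ZFSet.{0}} (hp : p ∈ Pw (pwM N ZFSet.omega)) : HCm N p := by
  rcases mem_Pw.1 hp with ⟨u, hu, rfl⟩ | ⟨n, hn, k, hk, rfl⟩
  · exact HCm.pair hN hg (hc_nat hN 0) (hc_seq hN hg hu)
  · exact HCm.pair hN hg (hc_nat hN 1) (HCm.pair hN hg ((HCm.omega hN).trans hN hn)
      ((HCm.omega hN).trans hN hk))

theorem hc_tt : HCm N tt := HCm.pair hN hg (hc_nat hN 0) (hc_nat hN 0)

theorem hc_chk {k : ZFSet.{0}} (hk : k ∈ ZFSet.omega) : HCm N (chk tt k) := by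
  obtain ⟨n, rfl⟩ := mem_omega_iff.1 hk
  induction n using Nat.strong_induction_on with
  | _ n ih =>
    have htt := hc_tt hN hg
    have hn := (hc_nat hN n)
    have him : chk tt (nat n) = im (fun y => pair (chk tt y) tt) (nat n) := by
      ext z
      rw [mem_chk, mem_im]
    have hd : DfnF N N fun w : Fin 1 → ZFSet.{0} => pair (chk tt (w 0)) tt :=
      hN.base.pair' (dfn_chk hN htt.1) (DfnF.const htt.1)
    refine HCm.of hN hg (chk_mem hN htt.1 hn.1) (fun w hw => ?_) ?_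
    · obtain ⟨y, hy, rfl⟩ := mem_chk.1 hw
      obtain ⟨i, hi, rfl⟩ := mem_nat_iff'.1 hy
      exact HCm.pair hN hg (ih i hi (nat_mem_omega i)) htt
    · rw [him]
      exact Inj.image hN hn.1 hN.infinity isOrdinal_omega (hn.inj hN) hd

theorem dfn_tau : DfnF N N fun w : Fin 1 → ZFSet.{0} => tau (w 0) := by
  have htt := (hc_tt hN hg).1
  refine hN.im' (h := fun k w => pair (chk tt k) (pair (nat 1) (pair (w 0) k)))
    (DfnF.const hN.infinity) ?_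
  exact hN.base.pair' (DfnF.comp1 (f := chk tt) (dfn_chk hN htt) (DfnF.proj 0))
    (hN.base.pair' (DfnF.const (hN.nat_mem 1)) (hN.base.pair' (DfnF.proj 1) (DfnF.proj 0)))

theorem hc_tau {n : ZFSet.{0}} (hn : n ∈ ZFSet.omega) : HCm N (tau n) := by
  have htt := (hc_tt hN hg).1
  have hnN := hN.trans _ hN.infinity _ hn
  have hd : DfnF N N fun w : Fin 1 → ZFSet.{0} =>
      pair (chk tt (w 0)) (pair (nat 1) (pair n (w 0))) :=
    hN.base.pair' (DfnF.comp1 (f := chk tt) (dfn_chk hN htt) (DfnF.proj 0))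
      (hN.base.pair' (DfnF.const (hN.nat_mem 1)) (hN.base.pair' (DfnF.const hnN) (DfnF.proj 0)))
  refine HCm.of hN hg ((dfn_tau hN hg).1 (fun _ => n) fun _ => hnN) (fun w hw => ?_) ?_
  · obtain ⟨k, hk, rfl⟩ := mem_im.1 hw
    exact HCm.pair hN hg (hc_chk hN hg hk) (HCm.pair hN hg (hc_nat hN 1)
      (HCm.pair hN hg ((HCm.omega hN).trans hN hn) ((HCm.omega hN).trans hN hk)))
  · exact Inj.image hN hN.infinity hN.infinity isOrdinal_omega ((HCm.omega hN).inj hN) hd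

theorem hc_sig : HCm N sig := by
  have htt := (hc_tt hN hg).1
  have hd : DfnF N N fun w : Fin 1 → ZFSet.{0} => pair (tau (w 0)) tt :=
    hN.base.pair' (dfn_tau hN hg) (DfnF.const htt)
  refine HCm.of hN hg (hN.im_mem hN.infinity hd) (fun w hw => ?_) ?_
  · obtain ⟨n, hn, rfl⟩ := mem_im.1 hw
    exact HCm.pair hN hg (hc_tau hN hg hn) (hc_tt hN hg)
  · exact Inj.image hN hN.infinity hN.infinity isOrdinal_omega ((HCm.omega hN).inj hN) hd

end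

/-! ### The counterexample -/

/-- There is a countable transitive model of ZFC in which every set is constructible. -/
theorem exists_ctm_L : ∃ N : Set ZFSet.{0}, N.Countable ∧ IsLA ∅ N := by
  obtain ⟨π, -, -⟩ := exists_pkg' (P := Unit) ∅ Set.countable_empty ()
  have h1 := π.isZFC_W.toIsZF
  refine ⟨LC π.W ∅, π.countable_W.mono (LC_subset h1 h1.empty_mem), ?_⟩
  exact isLA_LC h1 h1.empty_mem h1.empty_mem ZFSet.isOrdinal_empty (ZFSet.empty_subset _)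

theorem counterexample : ∃ M C P Le : ZFSet.{0}, {x | x ∈ M}.Countable ∧ {X | X ∈ C}.Countable ∧
    IsGB M C ∧ IsClassForcing C P Le ∧ (∃ t ∈ P, ∀ p ∈ P, pair p t ∈ Le) ∧
    ForcingThm M C P Le ∧ (∀ p ∈ P, ∃ G, IsGen C P Le G ∧ p ∈ G) ∧
    ∃ X ∈ C, X ∉ M ∧ ∃ σ ∈ M, IsName P σ ∧ ∀ G, IsGen C P Le G → ev G σ = X := by
  obtain ⟨N, hc, hL⟩ := exists_ctm_L
  have hN := hL.zf
  have hg := hL.gc
  have hB := hN.base
  obtain ⟨M, hM, h⟩ := exists_HC hN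
  set W := pwM N ZFSet.omega with hWdef
  have hW : W ∈ N := pwM_mem hN hN.infinity
  have hω : ZFSet.omega ∈ W := mem_pwM.2 ⟨hN.infinity, fun _ h => h⟩
  have hsub : ∀ a ∈ W, a ⊆ ZFSet.omega := fun a ha => (mem_pwM.1 ha).2
  have hP := forcing_Pw hN hW
  have hPM : Pw W ⊆ M := fun p hp => (h p).2 (hc_cond hN hg hp)
  have hpair : ∀ x ∈ M, ∀ y ∈ M, pair x y ∈ M := fun x hx y hy =>
    (h _).2 (HCm.pair hN hg ((h x).1 hx) ((h y).1 hy))
  have hLM : Lw W ⊆ M := by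
    intro u hu
    obtain ⟨a, ha, b, hb, rfl⟩ := ZFSet.mem_prod.1 (ZFSet.mem_sep.1 hu).1
    exact hpair _ (hPM ha) _ (hPM hb)
  have hgen : ∀ G, IsGen (pwM N M) (Pw W) (Lw W) G ↔ IsGeneric N (Pw W) (Lw W) G := by
    intro G
    constructor
    · intro h
      exact ⟨h.sub, h.nonempty, h.up, h.dir, fun D hD hDP hd =>
        h.meet D (mem_pwM.2 ⟨hD, fun z hz => hPM (hDP hz)⟩) hDP hd⟩
    · intro h
      exact ⟨h.sub, h.nonempty, h.up, h.dir, fun D hD hDP hd =>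
        h.meet D (mem_pwM.1 hD).1 hDP hd⟩
  refine ⟨M, pwM N M, Pw W, Lw W, hc.mono fun x hx => hN.trans _ hM _ hx,
    hc.mono fun x hx => (mem_pwM.1 hx).1, isGB_HC hN hg hM h, ?_, hP.top, ?_, ?_, W, ?_, ?_,
    sig, (h _).2 (hc_sig hN hg), isName_sig, ?_⟩
  · exact ⟨mem_pwM.2 ⟨hP.mem, hPM⟩, mem_pwM.2 ⟨hP.le_mem, hLM⟩,
      fun z hz => (ZFSet.mem_sep.1 hz).1, hP.refl, hP.trans, fun p hp q hq h1 h2 =>
        rl_antisymm hp hq (mem_Lw.1 h1).2 (mem_Lw.1 h2).2⟩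
  · exact forcingThm hN hc hM ((h _).2 (hc_nat hN 0)) hpair hPM hP
  · intro p hp
    obtain ⟨G, hG, hpG⟩ := exists_gen hc hP hp
    exact ⟨G, (hgen G).2 hG, hpG⟩
  · exact mem_pwM.2 ⟨hW, fun a ha => (h a).2 (hc_real hN ha)⟩
  · intro hWM
    exact cantor hN hN.infinity hW (fun z => mem_pwM) (((h _).1 hWM).inj hN)
  · intro G hG
    exact ev_sig hN hW ((hgen G).1 hG) hω hsub

end Pool.Agent.R597
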