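import Pool.Agent.R597.Fr8
import Pool.Agent.R597.GBP

/-!
# Failure of the truth lemma for Friedman's forcing: the end of the proof
-/

set_option autoImplicit false
set_option linter.unreachableTactic false
set_option linter.unusedTactic false
set_option linter.unusedSectionVars false
set_option linter.unusedVariables false

namespace Pool.Agent.R597

open Pool.Agent.W868 Pool.Agent.W868.GM Pool.Agent.Y588
open ZFSet (pair)

/-- The positive natural numbers. -/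
noncomputable def om1 : ZFSet.{0} := ZFSet.sep (fun z => z ≠ ∅) ZFSet.omega

theorem mem_om1 {z : ZFSet.{0}} : z ∈ om1 ↔ ∃ n ≥ 1, z = nat n := by
  rw [om1, ZFSet.mem_sep]
  constructor
  · rintro ⟨h1, h2⟩
    obtain ⟨n, rfl⟩ := mem_omega_iff.1 h1
    cases n with
    | zero => exact absurd rfl h2
    | succ n => exact ⟨n + 1, by omega, rfl⟩
  · rintro ⟨n, hn, rfl⟩
    obtain ⟨m, rfl⟩ : ∃ m, n = m + 1 := ⟨n - 1, by omega⟩
    exact ⟨nat_mem_omega _, nat_succ_ne m⟩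

/-- The name of the set of the truth values of the statements that `F n` does not reflect. -/
noncomputable def nsig (M : ZFSet.{0}) : ZFSet.{0} :=
  im (fun z => pair (nT (Stt M z) z) tF) om1

/-- The name of the set of the greatest truth values. -/
noncomputable def ntau (M : ZFSet.{0}) : ZFSet.{0} :=
  im (fun z => pair (chk tF {Z0 (Stt M z), Z1 (Stt M z)}) tF) om1

section

variable {M : ZFSet.{0}} (hM : IsZF {x | x ∈ M})

include hM

theorem om1_mem : om1 ∈ M :=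
  hM.sep_mem (Q := fun z => z ≠ ∅) (Dfn.eq (DfnF.proj 0) (DfnF.const hM.empty_mem)).not hM.infinity

theorem nsig_mem : nsig M ∈ M := by
  refine hM.im_mem (om1_mem hM) ?_
  exact hM.base.pair' (nT' hM (Stt' hM (DfnF.proj 0)) (DfnF.proj 0)) (DfnF.const (tF_K hM))

theorem ntau_mem : ntau M ∈ M := by
  refine hM.im_mem (om1_mem hM) ?_
  exact hM.base.pair' (chk' hM (hM.base.upair' (Z0' hM (Stt' hM (DfnF.proj 0)))
    (Z1' hM (Stt' hM (DfnF.proj 0))))) (DfnF.const (tF_K hM))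

theorem isName_Stt (m : ℕ) : ∀ u ∈ JJ, ∀ s ∈ Sq ZFSet.omega,
    IsName (FP M) (ap (fs (Stt M (nat m))) (pair u s)) := by
  have ht := (tF_mem hM).1
  have hfs : ∀ {u s : ZFSet.{0}}, u ∈ JJ → s ∈ Sq ZFSet.omega →
      ∀ y ∈ chd (pair u s), ∃ u' ∈ JJ, ∃ s' ∈ Sq ZFSet.omega, y = pair u' s' := by
    intro u s hu hs y hy
    have h1 := (fs_sn_JJ (fs_sn_JJ (fs_sn_JJ hu).2).2)
    by_cases h : fs (sn u) = nat 0
    · simp only [chd, fs_pair, sn_pair, h, if_true, ZFSet.mem_pair] at hy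
      rcases hy with rfl | rfl
      · exact ⟨_, h1.1, _, hs, rfl⟩
      · exact ⟨_, h1.2, _, hs, rfl⟩
    · simp only [chd, fs_pair, sn_pair, h, if_false] at hy
      obtain ⟨b, hb, rfl⟩ := mem_im.1 hy
      exact ⟨_, h1.1, _, pair_mem_Sq hs hb, rfl⟩
  induction m with
  | zero =>
    intro u hu s hs
    rw [Stt_zero, S0, fs_pair, ap_im (ZFSet.pair_mem_prod.2 ⟨hu, hs⟩)]
    exact isName_n0 M _
  | succ m ih =>
    intro u hu s hs
    rw [Stt_succ, HH, fs_pair, ap_im (ZFSet.pair_mem_prod.2 ⟨hu, hs⟩), stepN]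
    split_ifs with h
    · refine isName_nd_chk ht fun x hx => ?_
      obtain ⟨y, hy, rfl⟩ := mem_im.1 hx
      obtain ⟨u', hu', s', hs', rfl⟩ := hfs hu hs y hy
      refine isName_nd_chk ht fun x hx => ?_
      rw [ZFSet.mem_singleton.1 hx]
      exact ih u' hu' s' hs'
    · refine isName_nd_chk ht fun x hx => ?_
      rw [ZFSet.mem_singleton.1 hx]
      refine isName_nd_chk ht fun x hx => ?_
      obtain ⟨y, hy, rfl⟩ := mem_im.1 hx
      obtain ⟨u', hu', s', hs', rfl⟩ := hfs hu hs y hy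
      rw [fs_pair, sn_pair]
      exact ih _ (fl_mem hu') s' hs'

theorem isName_nT (n : ℕ) : IsName (FP M) (nT (Stt M (nat n)) (nat n)) := by
  have ht := (tF_mem hM).1
  have hS := isName_Stt hM n
  have hl : ∀ {i : ZFSet.{0}}, i ∈ (ZFSet.omega : ZFSet.{0}) → lst i (nat n) ∈ Sq ZFSet.omega :=
    fun hi => lst_mem hi (nat_mem_omega n)
  refine isName_nd_chk ht fun x hx => ?_
  rcases ZFSet.mem_union.1 hx with hx | hx
  · obtain ⟨a, ha, rfl⟩ := mem_im.1 hx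
    obtain ⟨i, hi, rfl⟩ := mem_nat_iff'.1 ha
    refine isName_nd_chk ht fun x hx => ?_
    rw [ZFSet.mem_singleton.1 hx]
    refine isName_nd_chk ht fun x hx => ?_
    rw [ZFSet.mem_singleton.1 hx]
    exact hS _ (ac_mem n) _ (hl (nat_mem_omega i))
  · obtain ⟨w, hw, rfl⟩ := mem_im.1 hx
    obtain ⟨u, hu, s, hs, rfl⟩ := ZFSet.mem_prod.1 hw
    have hst : ∀ a ∈ st s, sn a ∈ ZFSet.omega := by
      intro a ha
      obtain ⟨h, k, hh, rfl⟩ := exists_seq hs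
      obtain ⟨j, hj, rfl⟩ := mem_st.1 ha
      rw [sn_pair]
      exact hh j hj
    refine isName_nd_chk ht fun x hx => ?_
    rw [sn_pair] at hx
    rcases ZFSet.mem_union.1 hx with hx | hx
    · obtain ⟨a, ha, rfl⟩ := mem_im.1 hx
      refine isName_nd_chk ht fun x hx => ?_
      rw [ZFSet.mem_singleton.1 hx]
      exact hS _ (fl_mem (ac_mem n)) _ (hl (hst a ha))
    · rcases ZFSet.mem_union.1 hx with hx | hx
      · rw [ZFSet.mem_singleton.1 hx]
        refine isName_nd_chk ht fun x hx => ?_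
        obtain ⟨b, hb, rfl⟩ := mem_im.1 hx
        rw [fs_pair, sn_pair]
        exact hS _ (fl_mem hu) _ (pair_mem_Sq hs hb)
      · obtain ⟨b, hb, rfl⟩ := mem_im.1 hx
        refine isName_nd_chk ht fun x hx => ?_
        rcases ZFSet.mem_pair.1 hx with rfl | rfl
        · exact hS _ (ac_mem n) _ (hl hb)
        · rw [fs_pair, sn_pair]
          exact hS _ hu _ (pair_mem_Sq hs hb)

theorem isName_nsig : IsName (FP M) (nsig M) := by
  refine isName_im (tF_mem hM).1 (f := fun z => nT (Stt M z) z) fun z hz => ?_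
  obtain ⟨n, hn, rfl⟩ := mem_om1.1 hz
  exact isName_nT hM n

theorem isName_ntau : IsName (FP M) (ntau M) :=
  isName_im (tF_mem hM).1 (f := fun z => chk tF {Z0 (Stt M z), Z1 (Stt M z)}) fun z _ =>
    isName_chk_of (tF_mem hM).1 _

/-- The two names have the same value if and only if no `F n` reflects. -/
theorem ev_eq {G : ZFSet.{0}} (hG : IsGen (DefC M) (FP M) (FL M) G) {F : ℕ → ZFSet.{0}}
    (hF : IsBi M G F) : ev G (nsig M) = ev G (ntau M) ↔
      ∀ n ≥ 1, ¬ (Kn {x | x ∈ M} n (F n) ∧ ∀ i < n, F i ∈ F n) := by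
  have ht := tF_G hM hG
  have hT := fun n => ev_nT hM hG hF n
  have hs : ∀ x, x ∈ ev G (nsig M) ↔ ∃ n ≥ 1, x = ev G (nT (Stt M (nat n)) (nat n)) := by
    intro x
    rw [mem_ev]
    constructor
    · rintro ⟨y, p, h1, h2, rfl⟩
      obtain ⟨z, hz, h3⟩ := mem_im.1 h1
      obtain ⟨n, hn, rfl⟩ := mem_om1.1 hz
      exact ⟨n, hn, by rw [(ZFSet.pair_inj.1 h3).1]⟩
    · rintro ⟨n, hn, rfl⟩
      exact ⟨_, tF, mem_im.2 ⟨nat n, mem_om1.2 ⟨n, hn, rfl⟩, rfl⟩, ht, rfl⟩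
  have hta : ∀ x, x ∈ ev G (ntau M) ↔ ∃ n ≥ 1, x = {Z0 (Stt M (nat n)), Z1 (Stt M (nat n))} := by
    intro x
    rw [mem_ev]
    constructor
    · rintro ⟨y, p, h1, h2, rfl⟩
      obtain ⟨z, hz, h3⟩ := mem_im.1 h1
      obtain ⟨n, hn, rfl⟩ := mem_om1.1 hz
      exact ⟨n, hn, by rw [(ZFSet.pair_inj.1 h3).1, ev_chk ht]⟩
    · rintro ⟨n, hn, rfl⟩
      exact ⟨_, tF, mem_im.2 ⟨nat n, mem_om1.2 ⟨n, hn, rfl⟩, rfl⟩, ht, ev_chk ht _⟩
  constructor
  · intro h n hn h1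
    have h2 : ev G (nT (Stt M (nat n)) (nat n)) = {Z1 (Stt M (nat n))} :=
      (hT n).eq_left (not_not.2 h1)
    have h3 : ({Z1 (Stt M (nat n))} : ZFSet.{0}) ∈ ev G (ntau M) := by
      rw [← h, hs]
      exact ⟨n, hn, h2.symm⟩
    obtain ⟨m, hm, h4⟩ := (hta _).1 h3
    have h5 : Z0 (Stt M (nat m)) ∈ ({Z1 (Stt M (nat n))} : ZFSet.{0}) := by
      rw [h4]
      simp
    have h6 : Z1 (Stt M (nat m)) ∈ ({Z1 (Stt M (nat n))} : ZFSet.{0}) := by
      rw [h4]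
      simp
    rw [ZFSet.mem_singleton] at h5 h6
    exact level_ne (level_ne (X_ne (M := M) m)) (h5.trans h6.symm)
  · intro h
    ext x
    rw [hs, hta]
    refine exists_congr fun n => and_congr_right fun hn => ?_
    rw [(hT n).2.2 (h n hn)]

/-- The truth lemma fails for the formula `v 0 = v 1`. -/
theorem not_truthLemma (hc : {x | x ∈ M}.Countable) :
    ¬ TruthLemma M (FP M) (FL M) (.eq (.inl 0) (.inl 1) : Fml Empty 2) := by
  intro h
  obtain ⟨G, hG, hw⟩ := exists_wild hM hc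
  obtain ⟨F, hF⟩ := exists_bi hM hG
  have h1 : ev G (nsig M) = ev G (ntau M) := (ev_eq hM hG hF).2 (hw F hF.val)
  obtain ⟨p, hp, h2⟩ := h ![nsig M, ntau M] (fun i => by
    refine Fin.cases ?_ (fun i => ?_) i
    · exact ⟨nsig_mem hM, isName_nsig hM⟩
    · rw [Fin.eq_zero i]
      exact ⟨ntau_mem hM, isName_ntau hM⟩) G hG h1
  obtain ⟨G', hG', hp', ht'⟩ := exists_tame hM hc (hG.sub hp)
  obtain ⟨F', hF'⟩ := exists_bi hM hG'
  obtain ⟨n, hn, h3⟩ := ht' F' hF'.val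
  exact (ev_eq hM hG' hF').1 (h2 G' hG' hp') n hn h3

end

/-! ### The results -/

theorem exists_ctm : ∃ M : ZFSet.{0}, {x | x ∈ M}.Countable ∧ IsZFC {x | x ∈ M} := by
  obtain ⟨N, hc, hL⟩ := exists_ctm_L
  have h1 : Small.{0} N := by
    have := hc.to_subtype
    exact Countable.toSmall N
  obtain ⟨M, hM⟩ : ∃ M : ZFSet.{0}, {x | x ∈ M} = N := by
    refine ⟨ZFSet.range (fun x : Shrink.{0} N => ((equivShrink N).symm x).1), ?_⟩
    ext x
    simp only [Set.mem_setOf_eq, ZFSet.mem_range, Set.mem_range]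
    constructor
    · rintro ⟨y, rfl⟩
      exact ((equivShrink N).symm y).2
    · intro hx
      exact ⟨equivShrink N ⟨x, hx⟩, by simp⟩
  exact ⟨M, by rw [hM]; exact hc, by rw [hM]; exact isZFC_of_gc hL.zf hL.gc⟩

theorem classForcing {M : ZFSet.{0}} (hM : IsZF {x | x ∈ M}) :
    IsClassForcing (DefC M) (FP M) (FL M) where
  mem := FP_def hM
  le_mem := FL_def hM
  le_sub := fun u hu => (ZFSet.mem_sep.1 hu).1
  refl p hp := FL_refl hp
  trans p hp q hq r hr h1 h2 := FL_trans h1 h2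
  antisymm p hp q hq h1 h2 := FL_antisymm h1 h2

theorem uniform : ∃ (φ : Fml Empty 1) (ψ : Fml Empty 2), ∀ M : ZFSet.{0},
    IsZF {x | x ∈ M} → ∃ P Le : ZFSet.{0},
      (∀ p, p ∈ P ↔ p ∈ M ∧ Sat {x | x ∈ M} Empty.elim φ ![p]) ∧
      (∀ u, u ∈ Le ↔ ∃ q ∈ M, ∃ p ∈ M, u = pair q p ∧
        Sat {x | x ∈ M} Empty.elim ψ ![q, p]) ∧
      IsClassForcing (DefC M) P Le ∧ (∃ t ∈ P, ∀ p ∈ P, pair p t ∈ Le) ∧
      ({x | x ∈ M}.Countable → (∀ p ∈ P, ∃ G, IsGen (DefC M) P Le G ∧ p ∈ G) ∧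
        ¬ TruthLemma M P Le (.eq (.inl 0) (.inl 1) : Fml Empty 2)) := by
  obtain ⟨φ, hφ⟩ := ur_IsC
  obtain ⟨ψ, hψ⟩ := ur_FL
  refine ⟨φ, ψ, fun M hM => ⟨FP M, FL M, fun p => ?_, fun u => ?_, classForcing hM,
    ⟨tF, tF_mem hM⟩, fun hc => ⟨fun p hp => exists_genF hM hc hp, not_truthLemma hM hc⟩⟩⟩
  · rw [mem_FP']
    refine and_congr_right fun hp => ?_
    exact (hφ _ hM ![p] (fun i => by rw [Fin.eq_zero i]; exact hp)).symm
  · have h1 : ∀ {q p : ZFSet.{0}}, q ∈ M → p ∈ M → (Sat {x | x ∈ M} Empty.elim ψ ![q, p] ↔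
        IsC {x | x ∈ M} q ∧ IsC {x | x ∈ M} p ∧ OrdR q p) := fun hq hp =>
      hψ _ hM ![_, _] (fun i => by
        refine Fin.cases ?_ (fun i => ?_) i
        · exact hq
        · rw [Fin.eq_zero i]
          exact hp)
    constructor
    · intro hu
      obtain ⟨q, hq, p, hp, rfl⟩ := ZFSet.mem_prod.1 (ZFSet.mem_sep.1 hu).1
      have h2 := mem_FL'.1 hu
      exact ⟨q, (mem_FP'.1 hq).1, p, (mem_FP'.1 hp).1, rfl,
        (h1 (mem_FP'.1 hq).1 (mem_FP'.1 hp).1).2 ⟨(mem_FP'.1 hq).2, (mem_FP'.1 hp).2, h2.2.2⟩⟩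
    · rintro ⟨q, hq, p, hp, rfl, h2⟩
      obtain ⟨h3, h4, h5⟩ := (h1 hq hp).1 h2
      exact mem_FL'.2 ⟨mem_FP'.2 ⟨hq, h3⟩, mem_FP'.2 ⟨hp, h4⟩, h5⟩

end Pool.Agent.R597
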