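import Pool.Agent.R597.GBF
import Pool.Agent.Y588.Hst

/-!
# The hereditarily countable sets of a model, and a forcing that makes the power set of `ω` a set
-/

set_option autoImplicit false
set_option linter.unreachableTactic false
set_option linter.unusedTactic false
set_option linter.unusedSectionVars false
set_option linter.unusedVariables false

namespace Pool.Agent.R597

open Pool.Agent.W868 Pool.Agent.W868.GM Pool.Agent.Y588
open ZFSet (pair)

/-! ### Hereditarily countable sets -/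

/-- In `N`, the set `x` is hereditarily countable. -/
def HCm (N : Set ZFSet.{0}) (x : ZFSet.{0}) : Prop :=
  x ∈ N ∧ ∃ T ∈ N, ((∀ y ∈ T, ∀ z ∈ y, z ∈ T) ∧ x ⊆ T) ∧ Inj N T ZFSet.omega

section

variable {N : Set ZFSet.{0}} (hN : IsZF N)

include hN

theorem mem_HM_sc {x : ZFSet.{0}} : x ∈ HM N (sc ZFSet.omega) ↔ HCm N x := by
  constructor
  · rintro ⟨hx, T, h1, h2, h3, β, h4, f, h5, h6⟩
    refine ⟨hx, T, h1, ⟨h2, h3⟩, ?_⟩
    have h7 : β ⊆ ZFSet.omega := by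
      rcases ZFSet.mem_insert_iff.1 h4 with rfl | h
      · exact fun _ h => h
      · obtain ⟨n, rfl⟩ := mem_omega_iff.1 h
        exact nat_subset_omega
    have h8 : β ∈ N := hN.trans _ (hN.insert_mem hN.infinity hN.infinity) _ h4
    exact Inj.trans hN h1 hN.infinity ⟨f, h5, h6⟩ (Inj.of_subset hN h8 hN.infinity h7)
  · rintro ⟨hx, T, h1, ⟨h2, h3⟩, f, h5, h6⟩
    exact ⟨hx, T, h1, h2, h3, ZFSet.omega, ZFSet.mem_insert _ _, f, h5, h6⟩

theorem exists_HC : ∃ X ∈ N, ∀ z, z ∈ X ↔ HCm N z := by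
  obtain ⟨X, hX, h⟩ := exists_HM hN (hN.insert_mem hN.infinity hN.infinity)
    (α := sc ZFSet.omega) (by
      rw [sc]
      exact isOrdinal_sc isOrdinal_omega)
  exact ⟨X, hX, fun z => (h z).trans (mem_HM_sc hN)⟩

theorem HCm.trans {x y : ZFSet.{0}} (hx : HCm N x) (hy : y ∈ x) : HCm N y := by
  obtain ⟨h1, T, h2, ⟨h3, h4⟩, h5⟩ := hx
  exact ⟨hN.trans _ h1 _ hy, T, h2, ⟨h3, fun z hz => h3 y (h4 hy) z hz⟩, h5⟩

theorem HCm.sub {x y : ZFSet.{0}} (hx : HCm N x) (hy : y ∈ N) (h : y ⊆ x) : HCm N y := by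
  obtain ⟨h1, T, h2, ⟨h3, h4⟩, h5⟩ := hx
  exact ⟨hy, T, h2, ⟨h3, fun z hz => h4 (h hz)⟩, h5⟩

theorem HCm.sUnion {x : ZFSet.{0}} (hx : HCm N x) : HCm N (ZFSet.sUnion x) := by
  obtain ⟨h1, T, h2, ⟨h3, h4⟩, h5⟩ := hx
  refine ⟨hN.union _ h1, T, h2, ⟨h3, fun z hz => ?_⟩, h5⟩
  obtain ⟨w, hw, hzw⟩ := ZFSet.mem_sUnion.1 hz
  exact h3 w (h4 hw) z hzw

theorem HCm.omega : HCm N ZFSet.omega :=
  ⟨hN.infinity, ZFSet.omega, hN.infinity, ⟨fun y hy z hz => isOrdinal_omega.mem_trans hz hy,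
    fun _ h => h⟩, Inj.of_subset hN hN.infinity hN.infinity fun _ h => h⟩

theorem HCm.inj {x : ZFSet.{0}} (hx : HCm N x) : Inj N x ZFSet.omega := by
  obtain ⟨h1, T, h2, ⟨h3, h4⟩, h5⟩ := hx
  exact Inj.trans hN h1 hN.infinity (Inj.of_subset hN h1 h2 h4) h5

theorem dfn_inj_omega {n : ℕ} {F : (Fin n → ZFSet.{0}) → ZFSet.{0}} (hF : DfnF N N F) :
    Dfn N N fun v => Inj N (F v) ZFSet.omega := by
  unfold Inj
  apply Dfn.ex
  exact hN.base.isInj' hF.tail (DfnF.const hN.infinity) (DfnF.proj 0)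

variable {e : ZFSet.{0} → ZFSet.{0}} (hg : GC N e)

include hg

/-- A countable set of hereditarily countable sets is hereditarily countable. -/
theorem HCm.of {y : ZFSet.{0}} (hy : y ∈ N) (h : ∀ w ∈ y, HCm N w)
    (hc : Inj N y ZFSet.omega) : HCm N y := by
  have hB := hN.base
  have hω := hN.infinity
  set τ : ZFSet.{0} → ZFSet.{0} := fun w => chs N e fun T =>
    ((∀ y ∈ T, ∀ z ∈ y, z ∈ T) ∧ w ⊆ T) ∧ Inj N T ZFSet.omega with hτ
  have hτs : ∀ w ∈ y, τ w ∈ N ∧ ((∀ y ∈ τ w, ∀ z ∈ y, z ∈ τ w) ∧ w ⊆ τ w) ∧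
      Inj N (τ w) ZFSet.omega := by
    intro w hw
    obtain ⟨-, T, h2, h3, h5⟩ := h w hw
    exact chs_spec ⟨T, h2, h3, h5⟩
  have hτd : DfnF N N fun w : Fin 1 → ZFSet.{0} => τ (w 0) := by
    refine hN.chs' hg (Q := fun T w => ((∀ y ∈ T, ∀ z ∈ y, z ∈ T) ∧ w 0 ⊆ T) ∧
      Inj N T ZFSet.omega) ?_
    apply Dfn.and
    · apply Dfn.and
      · apply hB.ball (DfnF.proj 0)
        apply hB.ball (DfnF.proj 0)
        exact Dfn.mem (DfnF.proj 0) (DfnF.proj 2)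
      · exact hB.subset' (DfnF.proj 1) (DfnF.proj 0)
    · exact dfn_inj_omega hN (DfnF.proj 0)
  have him : ZFSet.sUnion (im τ y) ∈ N := hN.union _ (hN.im_mem hy hτd)
  have hmem : ∀ z, z ∈ ZFSet.sUnion (im τ y) ↔ ∃ w ∈ y, z ∈ τ w := by
    intro z
    rw [ZFSet.mem_sUnion]
    constructor
    · rintro ⟨a, ha, hz⟩
      obtain ⟨w, hw, rfl⟩ := mem_im.1 ha
      exact ⟨w, hw, hz⟩
    · rintro ⟨w, hw, hz⟩
      exact ⟨_, mem_im.2 ⟨w, hw, rfl⟩, hz⟩
  refine ⟨hy, y ∪ ZFSet.sUnion (im τ y), hN.union_mem hy him, ⟨?_, ?_⟩, ?_⟩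
  · intro u hu z hz
    rw [ZFSet.mem_union, hmem] at hu ⊢
    right
    rcases hu with hu | ⟨w, hw, hu⟩
    · exact ⟨u, hu, (hτs u hu).2.1.2 hz⟩
    · exact ⟨w, hw, (hτs w hw).2.1.1 u hu z hz⟩
  · exact fun z hz => ZFSet.mem_union.2 (Or.inl hz)
  · refine Inj.union hN hg hω isOrdinal_omega (fun _ h => h) hy him hc ?_
    exact Inj.iUnion hN hg hω isOrdinal_omega (fun _ h => h) hy hc hτd fun w hw => (hτs w hw).2.2

theorem HCm.upair {x y : ZFSet.{0}} (hx : HCm N x) (hy : HCm N y) : HCm N {x, y} := by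
  refine HCm.of hN hg (hN.pairing _ hx.1 _ hy.1) (fun w hw => ?_) (upair_countable hN hx.1 hy.1)
  rcases ZFSet.mem_pair.1 hw with rfl | rfl
  · exact hx
  · exact hy

theorem HCm.pair {x y : ZFSet.{0}} (hx : HCm N x) (hy : HCm N y) : HCm N (pair x y) := by
  have h1 := HCm.upair hN hg hx hx
  rw [ZFSet.pair_eq_singleton] at h1
  exact HCm.upair hN hg h1 (HCm.upair hN hg hx hy)

/-- The hereditarily countable sets with all the subsets that are in the model form a model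
of `GB⁻`. -/
theorem isGB_HC {M : ZFSet.{0}} (hM : M ∈ N) (h : ∀ z, z ∈ M ↔ HCm N z) :
    IsGB M (pwM N M) := by
  have hB := hN.base
  have hMN : {x | x ∈ M} ⊆ N := fun x hx => hN.trans _ hM _ hx
  have hMd : Dfn N N fun w : Fin 1 → ZFSet.{0} => w 0 ∈ {x | x ∈ M} :=
    Dfn.mem (DfnF.proj 0) (DfnF.const hM)
  have hover : ∀ {n : ℕ} {φ : Fml ZFSet.{0} n}, φ.Over {X | X ∈ pwM N M} → φ.Over N :=
    fun h => h.mono fun x hx => (mem_pwM.1 hx).1
  have hsat1 : ∀ φ : Fml ZFSet.{0} 1, φ.Over {X | X ∈ pwM N M} →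
      Dfn N N fun w : Fin 1 → ZFSet.{0} => Sat {x | x ∈ M} id φ ![w 0] := by
    intro φ hφ
    refine (dfn_sat hMd hMN φ (hover hφ) (fun i w => w i) fun i => DfnF.proj i).congr
      fun w _ => ?_
    rw [show (fun i => w i) = ![w 0] from by
      funext i
      fin_cases i
      rfl]
  refine ⟨?_, ?_, ?_, ?_, ?_, ?_, ?_, ?_, ?_⟩
  · intro x hx y hy
    exact (h y).2 (((h x).1 hx).trans hN hy)
  · exact fun X hX => (mem_pwM.1 hX).2
  · intro x hx
    exact mem_pwM.2 ⟨((h x).1 hx).1, fun y hy => (h y).2 (((h x).1 hx).trans hN hy)⟩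
  · intro x hx y hy
    exact (h _).2 (HCm.upair hN hg ((h x).1 hx) ((h y).1 hy))
  · intro x hx
    exact (h _).2 (HCm.sUnion hN ((h x).1 hx))
  · exact (h _).2 (HCm.omega hN)
  · intro φ hφ x hx
    have h1 := hN.sep_mem (Q := fun z => Sat {x | x ∈ M} id φ ![z]) (hsat1 φ hφ) ((h x).1 hx).1
    exact ⟨_, (h _).2 (((h x).1 hx).sub hN h1 fun z hz => (ZFSet.mem_sep.1 hz).1),
      fun z => ZFSet.mem_sep⟩
  · intro φ hφ x hx hex
    have hd : DfnF N N fun w : Fin 1 → ZFSet.{0} => chs N e fun y => y ∈ M ∧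
        Sat {x | x ∈ M} id φ ![w 0, y] := by
      refine hN.chs' hg (Q := fun y w => y ∈ M ∧ Sat {x | x ∈ M} id φ ![w 0, y]) ?_
      apply Dfn.and
      · exact Dfn.mem (DfnF.proj 0) (DfnF.const hM)
      · refine (dfn_sat hMd hMN φ (hover hφ) (m := 2) (![fun w => w 1, fun w => w 0]) (by
          intro i
          fin_cases i
          · exact DfnF.proj 1
          · exact DfnF.proj 0)).congr fun w _ => ?_
        rw [show (fun i => (![fun w => w 1, fun w => w 0] :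
          Fin 2 → (Fin 2 → ZFSet.{0}) → ZFSet.{0}) i w) = ![Fin.tail w 0, w 0] from by
          funext i
          fin_cases i
          · rfl
          · rfl]
    set c : ZFSet.{0} → ZFSet.{0} := fun z => chs N e fun y => y ∈ M ∧
        Sat {x | x ∈ M} id φ ![z, y] with hc
    have hcs : ∀ z ∈ x, c z ∈ M ∧ Sat {x | x ∈ M} id φ ![z, c z] := by
      intro z hz
      obtain ⟨w, hw, h1⟩ := hex z hz
      exact (chs_spec (C := N) (e := e) (P := fun y => y ∈ M ∧ Sat {x | x ∈ M} id φ ![z, y])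
        ⟨w, hMN hw, hw, h1⟩).2
    have hxN := ((h x).1 hx).1
    have him : im c x ∈ N := hN.im_mem hxN hd
    refine ⟨im c x, (h _).2 (HCm.of hN hg him (fun w hw => ?_) ?_), fun z hz =>
      ⟨c z, mem_im.2 ⟨z, hz, rfl⟩, (hcs z hz).2⟩⟩
    · obtain ⟨z, hz, rfl⟩ := mem_im.1 hw
      exact (h _).1 (hcs z hz).1
    · exact Inj.image hN hxN hN.infinity isOrdinal_omega (((h x).1 hx).inj hN) hd
  · intro φ hφ
    have h1 := hN.sep_mem (Q := fun z => Sat {x | x ∈ M} id φ ![z]) (hsat1 φ hφ) hM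
    exact ⟨_, mem_pwM.2 ⟨h1, fun z hz => (ZFSet.mem_sep.1 hz).1⟩, fun z => ZFSet.mem_sep⟩

end

end Pool.Agent.R597
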