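import Pool.Agent.R597.Fold
import Pool.Agent.Y588.Sem

/-!
# Countable elementary submodels in a transitive model of ZFC
-/

set_option autoImplicit false
set_option linter.unreachableTactic false
set_option linter.unusedTactic false
set_option linter.unusedSectionVars false

namespace Pool.Agent.R597

open Pool.Agent.W868 Pool.Agent.W868.GM Pool.Agent.Y588
open ZFSet (pair)

/-! ### Recursion on sequences with a parameter -/

noncomputable def prq (q : ZFSet.{0}) : ZFSet.{0} := im (fun u => pair (fs q) u) (prs (sn q))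

theorem prq_wf : WellFounded fun u t : ZFSet.{0} => u ∈ prq t :=
  Subrelation.wf (fun {u t} h => by
    obtain ⟨v, hv, rfl⟩ := mem_im.1 h
    obtain ⟨a, ha⟩ := mem_prs.1 hv
    show (sn (pair (fs t) v)).rank < (sn t).rank
    rw [sn_pair, ha]
    exact rank_fst_lt) (InvImage.wf (fun q : ZFSet.{0} => (sn q).rank) Ordinal.lt_wf)

theorem dfn_prq {M : Set ZFSet.{0}} (hM : IsZF M) :
    DfnF M M fun w : Fin 1 → ZFSet.{0} => prq (w 0) := by
  have hB := hM.base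
  refine hM.im' (h := fun u w => pair (fs (w 0)) u)
    (DfnF.comp1 (f := prs) (dfn_prs hM) (hM.sn' (DfnF.proj 0))) ?_
  exact hB.pair' (hM.fs' (DfnF.proj 1)) (DfnF.proj 0)

/-- Recursion on sequences with a parameter. -/
noncomputable def pfold (G : ZFSet.{0} → ZFSet.{0} → ZFSet.{0} → ZFSet.{0})
    (b : ZFSet.{0} → ZFSet.{0}) : ZFSet.{0} → ZFSet.{0} :=
  wfF prq prq_wf fun q g => open Classical in
    if prs (sn q) = ∅ then b (fs q)
      else G (fs q) (ap g (pair (fs q) (fs (sn q)))) (sn (sn q))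

theorem pfold_eq (G : ZFSet.{0} → ZFSet.{0} → ZFSet.{0} → ZFSet.{0})
    (b : ZFSet.{0} → ZFSet.{0}) (q : ZFSet.{0}) : pfold G b q = open Classical in
    if prs (sn q) = ∅ then b (fs q)
      else G (fs q) (ap (gr (pfold G b) (prq q)) (pair (fs q) (fs (sn q)))) (sn (sn q)) :=
  wfF_eq _ _ _ _

theorem pfold_empty (G : ZFSet.{0} → ZFSet.{0} → ZFSet.{0} → ZFSet.{0})
    (b : ZFSet.{0} → ZFSet.{0}) (p : ZFSet.{0}) : pfold G b (pair p ∅) = b p := by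
  rw [pfold_eq, fs_pair, sn_pair, if_pos]
  rw [ZFSet.eq_empty]
  intro y hy
  obtain ⟨a, h⟩ := mem_prs.1 hy
  exact pair_ne_empty _ _ h.symm

theorem pfold_pair (G : ZFSet.{0} → ZFSet.{0} → ZFSet.{0} → ZFSet.{0})
    (b : ZFSet.{0} → ZFSet.{0}) (p u a : ZFSet.{0}) :
    pfold G b (pair p (pair u a)) = G p (pfold G b (pair p u)) a := by
  have hu : u ∈ prs (pair u a) := mem_prs.2 ⟨a, rfl⟩
  rw [pfold_eq, if_neg, fs_pair, sn_pair, fs_pair, sn_pair, ap_gr]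
  · refine mem_im.2 ⟨u, ?_, ?_⟩
    · rwa [sn_pair]
    · rw [fs_pair]
  · rw [sn_pair]
    intro h
    rw [h] at hu
    exact ZFSet.notMem_empty _ hu

theorem dfn_pfold {M : Set ZFSet.{0}} (hM : IsZF M)
    {G : ZFSet.{0} → ZFSet.{0} → ZFSet.{0} → ZFSet.{0}} {b : ZFSet.{0} → ZFSet.{0}}
    (hb : DfnF M M fun w : Fin 1 → ZFSet.{0} => b (w 0))
    (hG : DfnF M M fun w : Fin 3 → ZFSet.{0} => G (w 0) (w 1) (w 2)) :
    DfnF M M fun w : Fin 1 → ZFSet.{0} => pfold G b (w 0) := by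
  have hB := hM.base
  have h0 := hM.empty_mem
  refine hM.wfrec prq_wf (dfn_prq hM) (G := fun q g => open Classical in
    if prs (sn q) = ∅ then b (fs q)
      else G (fs q) (ap g (pair (fs q) (fs (sn q)))) (sn (sn q))) ?_ (pfold_eq G b)
  refine DfnF.ite (Dfn.eq (DfnF.comp1 (f := prs) (dfn_prs hM) (hM.sn' (DfnF.proj 0)))
    (DfnF.const h0)) (DfnF.comp1 (f := b) hb (hM.fs' (DfnF.proj 0))) ?_
  have h1 : DfnF M M fun w : Fin 2 → ZFSet.{0} => fs (w 0) := hM.fs' (DfnF.proj 0)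
  have h2 : DfnF M M fun w : Fin 2 → ZFSet.{0} => sn (w 0) := hM.sn' (DfnF.proj 0)
  have h3 : DfnF M M fun w : Fin 2 → ZFSet.{0} => ap (w 1) (pair (fs (w 0)) (fs (sn (w 0)))) :=
    hM.ap' (DfnF.proj 1) (hB.pair' h1 (hM.fs' h2))
  have h4 : DfnF M M fun w : Fin 2 → ZFSet.{0} => sn (sn (w 0)) := hM.sn' h2
  refine ⟨fun v hv => hG.1 ![fs (v 0), ap (v 1) (pair (fs (v 0)) (fs (sn (v 0)))), sn (sn (v 0))]
    ?_, ?_⟩
  · intro i
    fin_cases i
    · exact h1.1 v hv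
    · exact h3.1 v hv
    · exact h4.1 v hv
  · exact Dfn.comp4 (Q := fun a b c d => a = G b c d) hG.2 (DfnF.proj 0) h1.tail h3.tail h4.tail

/-- The sequence of the values of the function `g` at the elements of the sequence `t`. -/
noncomputable def mp (g t : ZFSet.{0}) : ZFSet.{0} :=
  pfold (fun g r a => pair r (ap g a)) (fun _ => ∅) (pair g t)

theorem mp_seq (g : ZFSet.{0}) (f : ℕ → ZFSet.{0}) (n : ℕ) :
    mp g (seq f n) = seq (fun k => ap g (f k)) n := by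
  induction n with
  | zero => exact pfold_empty _ _ _
  | succ n ih =>
    rw [seq, mp, pfold_pair, ← mp, ih]
    rfl

theorem mp' {M : Set ZFSet.{0}} (hM : IsZF M) {n : ℕ} {F H : (Fin n → ZFSet.{0}) → ZFSet.{0}}
    (hF : DfnF M M F) (hH : DfnF M M H) : DfnF M M fun v => mp (F v) (H v) := by
  have hB := hM.base
  have h0 := hM.empty_mem
  refine DfnF.comp1 (f := pfold (fun g r a => pair r (ap g a)) (fun _ => ∅))
    (dfn_pfold hM (DfnF.const h0) ?_) (hB.pair' hF hH)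
  exact hB.pair' (DfnF.proj 1) (hM.ap' (DfnF.proj 0) (DfnF.proj 2))

theorem ap_unique {g a b : ZFSet.{0}} (h : pair a b ∈ g) (h' : ∀ q ∈ g, fs q = a → sn q = b) :
    ap g a = b := by
  have h1 : im sn (ZFSet.sep (fun q => fs q = a) g) = {b} := by
    ext z
    rw [mem_im, ZFSet.mem_singleton]
    constructor
    · rintro ⟨p, hp, rfl⟩
      obtain ⟨h2, h3⟩ := ZFSet.mem_sep.1 hp
      exact h' p h2 h3
    · rintro rfl
      exact ⟨pair a z, ZFSet.mem_sep.2 ⟨h, fs_pair _ _⟩, (sn_pair _ _).symm⟩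
  rw [ap, h1, ZFSet.sUnion_singleton]

/-- In a model there is a sequence in which each element of a countable set appears infinitely
often. -/
theorem exists_enum_inf {M : Set ZFSet.{0}} (hM : IsZF M) {K : ZFSet.{0}} (hK : K ∈ M)
    (h : Inj M K ZFSet.omega) :
    ∃ d ∈ M, ∀ κ ∈ K, ∀ N : ℕ, ∃ n ≥ N, ap d (nat n) = κ := by
  have hω := hM.infinity
  have hB := hM.base
  obtain ⟨j, hj, hji⟩ : Inj M (ZFSet.prod ZFSet.omega K) ZFSet.omega := by
    refine Inj.trans hM (hM.prod_mem hω hK) hω (Inj.prod hM hω hK hω hω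
      (Inj.of_subset hM hω hω fun _ h => h) h) (sq_inj hM hω isOrdinal_omega fun _ h => h)
  refine ⟨im (fun p => pair (sn p) (sn (fs p))) j, hM.im_mem hj
    (hB.pair' (hM.sn' (DfnF.proj 0)) (hM.sn' (hM.fs' (DfnF.proj 0)))), fun κ hκ N => ?_⟩
  -- the indices at which κ appears
  have h1 : ∀ m : ℕ, ∃ n : ℕ, pair (pair (nat m) κ) (nat n) ∈ j := by
    intro m
    obtain ⟨b, hb, h2⟩ := fun_exists hji.1 (ZFSet.pair_mem_prod.2 ⟨nat_mem_omega m, hκ⟩)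
    obtain ⟨n, rfl⟩ := mem_omega_iff.1 hb
    exact ⟨n, h2⟩
  choose g hg using h1
  have hginj : Function.Injective g := by
    intro m m' h2
    have h3 := hg m
    rw [h2] at h3
    exact nat_injective (ZFSet.pair_inj.1 (hji.2 _ _ _ h3 (hg m'))).1
  obtain ⟨m, hm⟩ : ∃ m, N ≤ g m := by
    by_contra hc
    push Not at hc
    exact (Set.infinite_range_of_injective hginj) ((Set.finite_lt_nat N).subset (by
      rintro _ ⟨m, rfl⟩
      exact hc m))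
  refine ⟨g m, hm, ap_unique (mem_im.2 ⟨_, hg m, by rw [sn_pair, fs_pair, sn_pair]⟩) ?_⟩
  intro q hq h2
  obtain ⟨p, hp, rfl⟩ := mem_im.1 hq
  obtain ⟨a, ha, b, hb, rfl⟩ := ZFSet.mem_prod.1 (hji.1.1 hp)
  simp only [fs_pair, sn_pair] at h2 ⊢
  rw [h2] at hp
  rw [hji.2 _ _ _ hp (hg m), sn_pair]

section

variable {M : Set ZFSet.{0}}

/-! ### The sequence of the definable relations -/

/-- The relation that is obtained by the instruction `κ` from the relations in `g`. -/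
noncomputable def opD (M : Set ZFSet.{0}) (X κ g : ZFSet.{0}) : ZFSet.{0} :=
  open Classical in
  if fs κ = nat 0 then ZFSet.sep (fun s => ap s (fs (sn κ)) ∈ ap s (sn (sn κ))) (fnX M X)
  else if fs κ = nat 1 then ZFSet.sep (fun s => ap s (fs (sn κ)) = ap s (sn (sn κ))) (fnX M X)
  else if fs κ = nat 2 then ZFSet.sep (fun s => ¬ s ∈ ap g (fs (sn κ))) (fnX M X)
  else if fs κ = nat 3 then
    ZFSet.sep (fun s => s ∈ ap g (fs (sn κ)) ∧ s ∈ ap g (sn (sn κ))) (fnX M X)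
  else ZFSet.sep (fun s => ∃ x ∈ X, cns x s ∈ ap g (fs (sn κ))) (fnX M X)

noncomputable def Dr (M : Set ZFSet.{0}) (X d : ZFSet.{0}) : ZFSet.{0} → ZFSet.{0} :=
  wfF (fun z => z) ZFSet.mem_wf fun z g => opD M X (ap d z) g

theorem Dr_eq (X d z : ZFSet.{0}) : Dr M X d z = opD M X (ap d z) (gr (Dr M X d) z) :=
  wfF_eq _ _ _ _

theorem dfn_Dr (hM : IsZF M) {X d : ZFSet.{0}} (hX : X ∈ M) (hd : d ∈ M) :
    DfnF M M fun w : Fin 1 → ZFSet.{0} => Dr M X d (w 0) := by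
  have hB := hM.base
  have hF := fnX_mem hM hX
  refine hM.memrec (G := fun z g => opD M X (ap d z) g) ?_ (Dr_eq X d)
  have hn : ∀ k : ℕ, nat k ∈ M := hM.nat_mem
  have hκ : DfnF M M fun w : Fin 2 → ZFSet.{0} => ap d (w 0) :=
    hM.ap' (DfnF.const hd) (DfnF.proj 0)
  have hκ1 : DfnF M M fun w : Fin 3 → ZFSet.{0} => fs (sn (ap d (w 1))) :=
    hM.fs' (hM.sn' (hM.ap' (DfnF.const hd) (DfnF.proj 1)))
  have hκ2 : DfnF M M fun w : Fin 3 → ZFSet.{0} => sn (sn (ap d (w 1))) :=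
    hM.sn' (hM.sn' (hM.ap' (DfnF.const hd) (DfnF.proj 1)))
  have hκ3 : DfnF M M fun w : Fin 4 → ZFSet.{0} => fs (sn (ap d (w 2))) :=
    hM.fs' (hM.sn' (hM.ap' (DfnF.const hd) (DfnF.proj 2)))
  unfold opD
  refine DfnF.ite (Dfn.eq (hM.fs' hκ) (DfnF.const (hn 0)))
    (hM.sep' (Q := fun s w => ap s (fs (sn (ap d (w 0)))) ∈ ap s (sn (sn (ap d (w 0)))))
      (DfnF.const hF) (Dfn.mem (hM.ap' (DfnF.proj 0) hκ1) (hM.ap' (DfnF.proj 0) hκ2))) ?_
  refine DfnF.ite (Dfn.eq (hM.fs' hκ) (DfnF.const (hn 1)))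
    (hM.sep' (Q := fun s w => ap s (fs (sn (ap d (w 0)))) = ap s (sn (sn (ap d (w 0)))))
      (DfnF.const hF) (Dfn.eq (hM.ap' (DfnF.proj 0) hκ1) (hM.ap' (DfnF.proj 0) hκ2))) ?_
  refine DfnF.ite (Dfn.eq (hM.fs' hκ) (DfnF.const (hn 2)))
    (hM.sep' (Q := fun s w => ¬ s ∈ ap (w 1) (fs (sn (ap d (w 0)))))
      (DfnF.const hF) (Dfn.mem (DfnF.proj 0) (hM.ap' (DfnF.proj 2) hκ1)).not) ?_
  refine DfnF.ite (Dfn.eq (hM.fs' hκ) (DfnF.const (hn 3)))
    (hM.sep' (Q := fun s w => s ∈ ap (w 1) (fs (sn (ap d (w 0)))) ∧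
      s ∈ ap (w 1) (sn (sn (ap d (w 0)))))
      (DfnF.const hF) ((Dfn.mem (DfnF.proj 0) (hM.ap' (DfnF.proj 2) hκ1)).and
        (Dfn.mem (DfnF.proj 0) (hM.ap' (DfnF.proj 2) hκ2)))) ?_
  refine hM.sep' (Q := fun s w => ∃ x ∈ X, cns x s ∈ ap (w 1) (fs (sn (ap d (w 0)))))
      (DfnF.const hF) ?_
  apply hB.bex (DfnF.const hX)
  exact Dfn.mem (cns' hM (DfnF.proj 0) (DfnF.proj 1)) (hM.ap' (DfnF.proj 3) hκ3)

theorem nat_mem_nat {m n : ℕ} : nat m ∈ nat n ↔ m < n := by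
  rw [nat_eq, nat_eq, Ordinal.toZFSet_mem_toZFSet_iff]
  exact_mod_cast Iff.rfl

/-- All definable relations appear in the sequence. -/
theorem exists_Dr (hM : IsZF M) {X d : ZFSet.{0}} (hX : X ∈ M)
    (hd : ∀ κ ∈ ZFSet.prod (nat 5) (ZFSet.prod ZFSet.omega ZFSet.omega), ∀ N : ℕ,
      ∃ n ≥ N, ap d (nat n) = κ) :
    ∀ {n : ℕ} (φ : Fml Empty n), ∃ m : ℕ, Dr M X d (nat m) = DD M X φ := by
  have hne : ∀ a b : ℕ, a ≠ b → nat a ≠ nat b := fun a b h h' => h (nat_injective h')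
  have h5 : ∀ a : ℕ, a < 5 → nat a ∈ nat 5 := fun a ha => nat_mem_nat.2 ha
  intro n φ
  induction φ with
  | mem s t =>
    rcases s with i | a
    · rcases t with j | b
      · obtain ⟨m, -, hm⟩ := hd (pair (nat 0) (pair (nat i) (nat j))) (ZFSet.pair_mem_prod.2
          ⟨h5 0 (by omega), ZFSet.pair_mem_prod.2 ⟨nat_mem_omega _, nat_mem_omega _⟩⟩) 0
        refine ⟨m, ?_⟩
        rw [Dr_eq, hm, opD, fs_pair, sn_pair, fs_pair, sn_pair, if_pos rfl]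
        ext s
        rw [ZFSet.mem_sep, mem_DD]
        rfl
      · exact b.elim
    · exact a.elim
  | eq s t =>
    rcases s with i | a
    · rcases t with j | b
      · obtain ⟨m, -, hm⟩ := hd (pair (nat 1) (pair (nat i) (nat j))) (ZFSet.pair_mem_prod.2
          ⟨h5 1 (by omega), ZFSet.pair_mem_prod.2 ⟨nat_mem_omega _, nat_mem_omega _⟩⟩) 0
        refine ⟨m, ?_⟩
        rw [Dr_eq, hm, opD, fs_pair, sn_pair, fs_pair, sn_pair, if_neg (hne 1 0 (by omega)),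
          if_pos rfl]
        ext s
        rw [ZFSet.mem_sep, mem_DD]
        rfl
      · exact b.elim
    · exact a.elim
  | neg φ ih =>
    obtain ⟨k, hk⟩ := ih
    obtain ⟨m, hkm, hm⟩ := hd (pair (nat 2) (pair (nat k) (nat 0))) (ZFSet.pair_mem_prod.2
      ⟨h5 2 (by omega), ZFSet.pair_mem_prod.2 ⟨nat_mem_omega _, nat_mem_omega _⟩⟩) (k + 1)
    refine ⟨m, ?_⟩
    rw [Dr_eq, hm, opD, fs_pair, sn_pair, fs_pair, sn_pair, if_neg (hne 2 0 (by omega)),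
      if_neg (hne 2 1 (by omega)), if_pos rfl, ap_gr (nat_mem_nat.2 (by omega)), hk]
    exact oNg_eq hM hX φ
  | and φ ψ ih1 ih2 =>
    obtain ⟨k, hk⟩ := ih1
    obtain ⟨l, hl⟩ := ih2
    obtain ⟨m, hkm, hm⟩ := hd (pair (nat 3) (pair (nat k) (nat l))) (ZFSet.pair_mem_prod.2
      ⟨h5 3 (by omega), ZFSet.pair_mem_prod.2 ⟨nat_mem_omega _, nat_mem_omega _⟩⟩) (k + l + 1)
    refine ⟨m, ?_⟩
    rw [Dr_eq, hm, opD, fs_pair, sn_pair, fs_pair, sn_pair, if_neg (hne 3 0 (by omega)),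
      if_neg (hne 3 1 (by omega)), if_neg (hne 3 2 (by omega)), if_pos rfl,
      ap_gr (nat_mem_nat.2 (by omega)), ap_gr (nat_mem_nat.2 (by omega)), hk, hl]
    exact oAn_eq hM hX φ ψ
  | ex φ ih =>
    obtain ⟨k, hk⟩ := ih
    obtain ⟨m, hkm, hm⟩ := hd (pair (nat 4) (pair (nat k) (nat 0))) (ZFSet.pair_mem_prod.2
      ⟨h5 4 (by omega), ZFSet.pair_mem_prod.2 ⟨nat_mem_omega _, nat_mem_omega _⟩⟩) (k + 1)
    refine ⟨m, ?_⟩
    rw [Dr_eq, hm, opD, fs_pair, sn_pair, fs_pair, if_neg (hne 4 0 (by omega)),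
      if_neg (hne 4 1 (by omega)), if_neg (hne 4 2 (by omega)), if_neg (hne 4 3 (by omega)),
      ap_gr (nat_mem_nat.2 (by omega)), hk]
    ext s
    rw [ZFSet.mem_sep, mem_DD]
    refine and_congr_right fun hs => ?_
    have hf := (mem_fnX.1 hs).2
    simp only [Sat]
    refine exists_congr fun x => and_congr_right fun hx => ?_
    have hx' : x ∈ X := hx
    rw [mem_DD, vl_cns hf hx']
    exact ⟨fun h => h.2, fun h => ⟨cns_mem hM hx' hs hX, h⟩⟩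

/-! ### The hull -/

/-- The assignment given by a finite sequence. -/
noncomputable def asg (x₀ t : ZFSet.{0}) : ZFSet.{0} :=
  fold (fun r a => cns a r) (ZFSet.prod ZFSet.omega {x₀}) t

theorem dfn_asg (hM : IsZF M) {x₀ : ZFSet.{0}} (h₀ : x₀ ∈ M) :
    DfnF M M fun w : Fin 1 → ZFSet.{0} => asg x₀ (w 0) :=
  dfn_fold hM (hM.prod_mem hM.infinity (hM.single_mem h₀)) (cns' hM (DfnF.proj 1) (DfnF.proj 0))

theorem asg_mem (hM : IsZF M) {X x₀ : ZFSet.{0}} (hX : X ∈ M) (h₀ : x₀ ∈ X)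
    {f : ℕ → ZFSet.{0}} (hf : ∀ k, f k ∈ X) (n : ℕ) : asg x₀ (seq f n) ∈ fnX M X := by
  induction n with
  | zero =>
    rw [seq, asg, fold_empty]
    refine mem_fnX.2 ⟨hM.prod_mem hM.infinity (hM.single_mem (hM.trans _ hX _ h₀)), ?_, ?_⟩
    · intro p hp
      obtain ⟨a, ha, b, hb, rfl⟩ := ZFSet.mem_prod.1 hp
      rw [ZFSet.mem_singleton] at hb
      subst hb
      exact ZFSet.pair_mem_prod.2 ⟨ha, h₀⟩
    · intro z hz
      refine ⟨x₀, ZFSet.pair_mem_prod.2 ⟨hz, by simp⟩, fun y hy => ?_⟩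
      simpa using (ZFSet.pair_mem_prod.1 hy).2
  | succ n ih =>
    rw [seq, asg, fold_pair, ← asg]
    exact cns_mem hM (hf n) ih hX

theorem vl_asg (hM : IsZF M) {X x₀ : ZFSet.{0}} (hX : X ∈ M) (h₀ : x₀ ∈ X)
    {f : ℕ → ZFSet.{0}} (hf : ∀ k, f k ∈ X) : ∀ {n : ℕ} (i : Fin n),
    vl (asg x₀ (seq f n)) n i = f (n - 1 - i) := by
  intro n
  induction n with
  | zero => exact fun i => i.elim0
  | succ n ih =>
    intro i
    have h1 : vl (asg x₀ (seq f (n + 1))) (n + 1) = Fin.cons (f n) (vl (asg x₀ (seq f n)) n) := by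
      rw [seq, asg, fold_pair, ← asg, vl_cns (mem_fnX.1 (asg_mem hM hX h₀ hf n)).2 (hf n)]
    rw [h1]
    refine Fin.cases ?_ (fun i => ?_) i
    · simp
    · rw [Fin.cons_succ, ih]
      congr 1
      simp only [Fin.val_succ]
      omega

/-- The Skolem value. -/
noncomputable def wv (M : Set ZFSet.{0}) (X j x₀ D s : ZFSet.{0}) : ZFSet.{0} :=
  open Classical in
  if ∃ w ∈ X, cns w s ∈ D then
    ZFSet.sUnion (ZFSet.sep (fun w => pair w (lo M fun ξ => ∃ w ∈ X, cns w s ∈ D ∧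
      pair w ξ ∈ j) ∈ j) X)
  else x₀

theorem wv_spec {X j α x₀ D s : ZFSet.{0}} (hM : IsZF M) (hαM : α ∈ M) (hα : α.IsOrdinal)
    (hj : IsInj X α j) (h : ∃ w ∈ X, cns w s ∈ D) :
    wv M X j x₀ D s ∈ X ∧ cns (wv M X j x₀ D s) s ∈ D := by
  obtain ⟨w, hw, h1⟩ := id h
  obtain ⟨ξ, hξ, h2⟩ := fun_exists hj.1 hw
  obtain ⟨-, -, w', hw', h3, h4⟩ := lo_spec (M := M)
    (P := fun ξ => ∃ w ∈ X, cns w s ∈ D ∧ pair w ξ ∈ j)
    ⟨ξ, hM.trans _ hαM _ hξ, hα.mem hξ, w, hw, h1, h2⟩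
  have h5 : ZFSet.sep (fun w => pair w (lo M fun ξ => ∃ w ∈ X, cns w s ∈ D ∧
      pair w ξ ∈ j) ∈ j) X = {w'} := by
    ext z
    rw [ZFSet.mem_sep, ZFSet.mem_singleton]
    constructor
    · rintro ⟨-, h6⟩
      exact hj.2 _ _ _ h6 h4
    · rintro rfl
      exact ⟨hw', h4⟩
  rw [wv, if_pos h, h5, ZFSet.sUnion_singleton]
  exact ⟨hw', h3⟩

theorem wv_mem {X j α x₀ D s : ZFSet.{0}} (hM : IsZF M) (hαM : α ∈ M) (hα : α.IsOrdinal)
    (hj : IsInj X α j) (h₀ : x₀ ∈ X) : wv M X j x₀ D s ∈ X := by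
  by_cases h : ∃ w ∈ X, cns w s ∈ D
  · exact (wv_spec hM hαM hα hj h).1
  · rw [wv, if_neg h]
    exact h₀

theorem wv' (hM : IsZF M) {X j x₀ : ZFSet.{0}} (hX : X ∈ M) (hj : j ∈ M) (h₀ : x₀ ∈ M) {n : ℕ}
    {F H : (Fin n → ZFSet.{0}) → ZFSet.{0}} (hF : DfnF M M F) (hH : DfnF M M H) :
    DfnF M M fun v => wv M X j x₀ (F v) (H v) := by
  have hB := hM.base
  unfold wv
  refine DfnF.ite ?_ (hB.sUnion' (hM.sep' (Q := fun w v => pair w (lo M fun ξ =>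
    ∃ w ∈ X, cns w (H v) ∈ F v ∧ pair w ξ ∈ j) ∈ j) (DfnF.const hX) ?_)) (DfnF.const h₀)
  · apply hB.bex (DfnF.const hX)
    exact Dfn.mem (cns' hM (DfnF.proj 0) hH.tail) hF.tail
  · refine Dfn.mem (hB.pair' (DfnF.proj 0) ?_) (DfnF.const hj)
    refine DfnF.tail (F := fun v => lo M fun ξ => ∃ w ∈ X, cns w (H v) ∈ F v ∧ pair w ξ ∈ j) ?_
    refine hM.lo' (Q := fun ξ v => ∃ w ∈ X, cns w (H v) ∈ F v ∧ pair w ξ ∈ j) ?_
    apply hB.bex (DfnF.const hX)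
    exact (Dfn.mem (cns' hM (DfnF.proj 0) hH.tail.tail) hF.tail.tail).and
      (Dfn.mem (hB.pair' (DfnF.proj 0) (DfnF.proj 1)) (DfnF.const hj))

/-- The element that is obtained by the instruction `κ` from the elements in `g`. -/
noncomputable def opH (M : Set ZFSet.{0}) (X j x₀ d e f κ g : ZFSet.{0}) : ZFSet.{0} :=
  open Classical in
  if fs κ = nat 0 then ap e (fs (sn κ))
  else if fs κ = nat 1 then ap f (mp g (sn (sn κ)))
  else wv M X j x₀ (Dr M X d (fs (sn κ))) (asg x₀ (mp g (sn (sn κ))))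

noncomputable def Hl (M : Set ZFSet.{0}) (X j x₀ d e f d2 : ZFSet.{0}) : ZFSet.{0} → ZFSet.{0} :=
  wfF (fun z => z) ZFSet.mem_wf fun z g => opH M X j x₀ d e f (ap d2 z) g

theorem Hl_eq (X j x₀ d e f d2 z : ZFSet.{0}) : Hl M X j x₀ d e f d2 z =
    opH M X j x₀ d e f (ap d2 z) (gr (Hl M X j x₀ d e f d2) z) := wfF_eq _ _ _ _

theorem dfn_Hl (hM : IsZF M) {X j x₀ d e f d2 : ZFSet.{0}} (hX : X ∈ M) (hj : j ∈ M)
    (h₀ : x₀ ∈ M) (hd : d ∈ M) (he : e ∈ M) (hf : f ∈ M) (hd2 : d2 ∈ M) :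
    DfnF M M fun w : Fin 1 → ZFSet.{0} => Hl M X j x₀ d e f d2 (w 0) := by
  have hB := hM.base
  have hn : ∀ k : ℕ, nat k ∈ M := hM.nat_mem
  refine hM.memrec (G := fun z g => opH M X j x₀ d e f (ap d2 z) g) ?_ (Hl_eq X j x₀ d e f d2)
  have hκ : DfnF M M fun w : Fin 2 → ZFSet.{0} => ap d2 (w 0) :=
    hM.ap' (DfnF.const hd2) (DfnF.proj 0)
  have h1 : DfnF M M fun w : Fin 2 → ZFSet.{0} => mp (w 1) (sn (sn (ap d2 (w 0)))) :=
    mp' hM (DfnF.proj 1) (hM.sn' (hM.sn' hκ))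
  unfold opH
  refine DfnF.ite (Dfn.eq (hM.fs' hκ) (DfnF.const (hn 0)))
    (hM.ap' (DfnF.const he) (hM.fs' (hM.sn' hκ))) ?_
  refine DfnF.ite (Dfn.eq (hM.fs' hκ) (DfnF.const (hn 1))) (hM.ap' (DfnF.const hf) h1) ?_
  exact wv' hM hX hj h₀ (DfnF.comp1 (f := Dr M X d) (dfn_Dr hM hX hd) (hM.fs' (hM.sn' hκ)))
    (DfnF.comp1 (f := asg x₀) (dfn_asg hM h₀) h1)

end

/-- Elementary submodels, by the criterion of Tarski and Vaught. -/
theorem tarski_vaught {X Y : ZFSet.{0}} (hYX : Y ⊆ X)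
    (h : ∀ {n : ℕ} (φ : Fml Empty (n + 1)) (v : Fin n → ZFSet.{0}), (∀ i, v i ∈ Y) →
      (∃ a ∈ X, Sat {x | x ∈ X} Empty.elim φ (Fin.cons a v)) →
      ∃ a ∈ Y, Sat {x | x ∈ X} Empty.elim φ (Fin.cons a v)) :
    ∀ {n : ℕ} (φ : Fml Empty n) (v : Fin n → ZFSet.{0}), (∀ i, v i ∈ Y) →
      (Sat {x | x ∈ Y} Empty.elim φ v ↔ Sat {x | x ∈ X} Empty.elim φ v) := by
  intro n φ
  induction φ with
  | mem s t => exact fun v _ => Iff.rfl
  | eq s t => exact fun v _ => Iff.rfl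
  | neg φ ih => exact fun v hv => not_congr (ih v hv)
  | and φ ψ ih1 ih2 => exact fun v hv => and_congr (ih1 v hv) (ih2 v hv)
  | ex φ ih =>
    intro v hv
    have hc : ∀ a ∈ Y, ∀ i, (Fin.cons a v : Fin _ → ZFSet.{0}) i ∈ Y := by
      intro a ha i
      refine Fin.cases ?_ (fun i => ?_) i
      · exact ha
      · exact hv i
    constructor
    · rintro ⟨a, ha, h1⟩
      exact ⟨a, hYX ha, (ih _ (hc a ha)).1 h1⟩
    · rintro ⟨a, ha, h1⟩
      obtain ⟨b, hb, h2⟩ := h φ v hv ⟨a, ha, h1⟩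
      exact ⟨b, hb, (ih _ (hc b hb)).2 h2⟩

/-- The theorem of Löwenheim and Skolem in a transitive model of ZFC, for countable submodels that
contain a given sequence and are closed under a given function on finite sequences. -/
theorem exists_csub {M : Set ZFSet.{0}} (hM : IsZFC M) {X e f : ZFSet.{0}} (hX : X ∈ M)
    (he : e ∈ M) (hf : f ∈ M) (heX : ∀ k : ℕ, ap e (nat k) ∈ X)
    (hfX : ∀ t ∈ Sq X, ap f t ∈ X) :
    ∃ Y ∈ M, Y ⊆ X ∧ Inj M Y ZFSet.omega ∧ (∀ k : ℕ, ap e (nat k) ∈ Y) ∧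
      (∀ t ∈ Sq Y, ap f t ∈ Y) ∧
      ∀ {n : ℕ} (φ : Fml Empty n) (v : Fin n → ZFSet.{0}), (∀ i, v i ∈ Y) →
        (Sat {x | x ∈ Y} Empty.elim φ v ↔ Sat {x | x ∈ X} Empty.elim φ v) := by
  have hZ := hM.toIsZF
  have hB := hZ.base
  have hω := hZ.infinity
  have hωω : Inj M ZFSet.omega ZFSet.omega := Inj.of_subset hZ hω hω fun _ h => h
  have hsq := sq_inj hZ hω isOrdinal_omega fun _ h => h
  have h5 := hZ.nat_mem 5
  have h3 := hZ.nat_mem 3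
  have hn5 : Inj M (nat 5) ZFSet.omega := Inj.of_subset hZ h5 hω nat_subset_omega
  have hn3 : Inj M (nat 3) ZFSet.omega := Inj.of_subset hZ h3 hω nat_subset_omega
  have hSω : Sq ZFSet.omega ∈ M := Sq_mem hZ hω
  obtain ⟨d, hd, hd'⟩ := exists_enum_inf hZ (hZ.prod_mem h5 (hZ.prod_mem hω hω))
    (Inj.trans hZ (hZ.prod_mem h5 (hZ.prod_mem hω hω)) hω
      (Inj.prod hZ h5 (hZ.prod_mem hω hω) hω hω hn5 hsq) hsq)
  obtain ⟨d2, hd2, hd2'⟩ := exists_enum_inf hZ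
    (hZ.prod_mem h3 (hZ.prod_mem hω hSω))
    (Inj.trans hZ (hZ.prod_mem h3 (hZ.prod_mem hω hSω)) hω
      (Inj.prod hZ h3 (hZ.prod_mem hω hSω) hω hω hn3
        (Inj.trans hZ (hZ.prod_mem hω hSω) hω (Inj.prod hZ hω hSω hω hω hωω
          (Sq_countable hZ hω hωω)) hsq)) hsq)
  obtain ⟨α, hα, hαo, j, hj, hji⟩ := exists_wo hM hX
  set x₀ := ap e (nat 0) with hx₀
  have h₀ : x₀ ∈ X := heX 0
  have h₀M := hZ.trans _ hX _ h₀
  have hHd := dfn_Hl hZ hX hj h₀M hd he hf hd2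
  set H := Hl M X j x₀ d e f d2 with hH
  have hne : ∀ a b : ℕ, a ≠ b → nat a ≠ nat b := fun a b h h' => h (nat_injective h')
  have hn3' : ∀ a : ℕ, a < 3 → nat a ∈ nat 3 := fun a ha => nat_mem_nat.2 ha
  have hEq : ∀ z, H z = opH M X j x₀ d e f (ap d2 z) (gr H z) := fun z => Hl_eq X j x₀ d e f d2 z
  -- values at the stages
  have hval0 : ∀ k : ℕ, ∃ n : ℕ, H (nat n) = ap e (nat k) := by
    intro k
    obtain ⟨n, -, hn⟩ := hd2' (pair (nat 0) (pair (nat k) ∅)) (ZFSet.pair_mem_prod.2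
      ⟨hn3' 0 (by omega), ZFSet.pair_mem_prod.2 ⟨nat_mem_omega _, empty_mem_Sq⟩⟩) 0
    refine ⟨n, ?_⟩
    rw [hEq, hn, opH, fs_pair, sn_pair, fs_pair, if_pos rfl]
  have hmp : ∀ (a : ℕ → ℕ) (l n : ℕ), (∀ k < l, a k < n) →
      mp (gr H (nat n)) (seq (fun k => nat (a k)) l) = seq (fun k => H (nat (a k))) l := by
    intro a l n h
    rw [mp_seq]
    exact seq_congr fun k hk => ap_gr (nat_mem_nat.2 (h k hk))
  have hbound : ∀ (a : ℕ → ℕ) (l : ℕ), ∃ N, ∀ k < l, a k < N := by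
    intro a l
    refine ⟨(Finset.range l).sup a + 1, fun k hk => ?_⟩
    exact Nat.lt_succ_of_le (Finset.le_sup (f := a) (Finset.mem_range.2 hk))
  have hval1 : ∀ (a : ℕ → ℕ) (l : ℕ), ∃ n : ℕ,
      H (nat n) = ap f (seq (fun k => H (nat (a k))) l) := by
    intro a l
    obtain ⟨N, hN⟩ := hbound a l
    obtain ⟨n, hnN, hn⟩ := hd2' (pair (nat 1) (pair (nat 0) (seq (fun k => nat (a k)) l)))
      (ZFSet.pair_mem_prod.2 ⟨hn3' 1 (by omega), ZFSet.pair_mem_prod.2 ⟨nat_mem_omega _,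
        seq_mem_Sq fun k _ => nat_mem_omega _⟩⟩) N
    refine ⟨n, ?_⟩
    rw [hEq, hn, opH, fs_pair, sn_pair, sn_pair, if_neg (hne 1 0 (by omega)), if_pos rfl,
      hmp a l n fun k hk => lt_of_lt_of_le (hN k hk) hnN]
  have hval2 : ∀ (a : ℕ → ℕ) (l m : ℕ), ∃ n : ℕ,
      H (nat n) = wv M X j x₀ (Dr M X d (nat m)) (asg x₀ (seq (fun k => H (nat (a k))) l)) := by
    intro a l m
    obtain ⟨N, hN⟩ := hbound a l
    obtain ⟨n, hnN, hn⟩ := hd2' (pair (nat 2) (pair (nat m) (seq (fun k => nat (a k)) l)))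
      (ZFSet.pair_mem_prod.2 ⟨hn3' 2 (by omega), ZFSet.pair_mem_prod.2 ⟨nat_mem_omega _,
        seq_mem_Sq fun k _ => nat_mem_omega _⟩⟩) N
    refine ⟨n, ?_⟩
    rw [hEq, hn, opH, fs_pair, sn_pair, fs_pair, sn_pair, if_neg (hne 2 0 (by omega)),
      if_neg (hne 2 1 (by omega)), hmp a l n fun k hk => lt_of_lt_of_le (hN k hk) hnN]
  set Y := ZFSet.sep (fun y => y ∈ X) (im H ZFSet.omega) with hY
  have hYM : Y ∈ M := hZ.sep_mem (Q := fun y => y ∈ X) (Dfn.mem (DfnF.proj 0) (DfnF.const hX))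
    (hZ.im_mem hω hHd)
  have memY : ∀ y, y ∈ Y ↔ y ∈ X ∧ ∃ n : ℕ, y = H (nat n) := by
    intro y
    rw [hY, ZFSet.mem_sep, mem_im]
    constructor
    · rintro ⟨⟨z, hz, rfl⟩, h1⟩
      obtain ⟨n, rfl⟩ := mem_omega_iff.1 hz
      exact ⟨h1, n, rfl⟩
    · rintro ⟨h1, n, rfl⟩
      exact ⟨⟨_, nat_mem_omega n, rfl⟩, h1⟩
  have hYX : Y ⊆ X := fun y hy => ((memY y).1 hy).1
  obtain ⟨a0, ha0⟩ := hval0 0
  refine ⟨Y, hYM, hYX, ?_, ?_, ?_, ?_⟩
  · -- countability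
    have hd3 : DfnF M M fun w : Fin 1 → ZFSet.{0} => lo M fun ξ => ξ ∈ ZFSet.omega ∧
        H ξ = w 0 := by
      refine hZ.lo' (Q := fun ξ w => ξ ∈ ZFSet.omega ∧ H ξ = w 0) ?_
      exact (Dfn.mem (DfnF.proj 0) (DfnF.const hω)).and
        (Dfn.eq (DfnF.comp1 (f := H) hHd (DfnF.proj 0)) (DfnF.proj 1))
    have hsp : ∀ y ∈ Y, lo M (fun ξ => ξ ∈ ZFSet.omega ∧ H ξ = y) ∈ ZFSet.omega ∧
        H (lo M fun ξ => ξ ∈ ZFSet.omega ∧ H ξ = y) = y := by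
      intro y hy
      obtain ⟨-, n, rfl⟩ := (memY y).1 hy
      exact (lo_spec (M := M) (P := fun ξ => ξ ∈ ZFSet.omega ∧ H ξ = H (nat n))
        ⟨nat n, hZ.nat_mem n, isOrdinal_omega.mem (nat_mem_omega n), nat_mem_omega n, rfl⟩).2.2
    refine Inj.of_fun hZ hYM hω (h := fun y => lo M fun ξ => ξ ∈ ZFSet.omega ∧ H ξ = y) hd3
      (fun y hy => (hsp y hy).1) ?_
    intro y hy y' hy' h1
    rw [← (hsp y hy).2, ← (hsp y' hy').2, h1]
  · intro k
    obtain ⟨n, hn⟩ := hval0 k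
    exact (memY _).2 ⟨heX k, n, hn.symm⟩
  · intro t ht
    obtain ⟨g, n, hg, rfl⟩ := exists_seq ht
    have h1 : ∀ k, ∃ a : ℕ, k < n → g k = H (nat a) := by
      intro k
      by_cases hk : k < n
      · obtain ⟨-, a, ha⟩ := (memY _).1 (hg k hk)
        exact ⟨a, fun _ => ha⟩
      · exact ⟨0, fun h => absurd h hk⟩
    choose a ha using h1
    obtain ⟨m, hm⟩ := hval1 a n
    rw [seq_congr (g := fun k => H (nat (a k))) fun k hk => ha k hk]
    refine (memY _).2 ⟨hfX _ (seq_mem_Sq fun k hk => ?_), m, hm.symm⟩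
    rw [← ha k hk]
    exact hYX (hg k hk)
  · refine tarski_vaught hYX ?_
    rintro n φ v hv ⟨w, hw, hsat⟩
    have h1 : ∀ i, ∃ a : ℕ, v i = H (nat a) := fun i => ((memY _).1 (hv i)).2
    choose a ha using h1
    set b : ℕ → ℕ := fun k => if h : n - 1 - k < n then a ⟨n - 1 - k, h⟩ else a0 with hb
    have hbX : ∀ k, H (nat (b k)) ∈ X := by
      intro k
      by_cases h : n - 1 - k < n
      · simp only [hb, h, dif_pos]
        rw [← ha]
        exact hYX (hv _)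
      · simp only [hb, h, dif_neg, not_false_eq_true]
        rw [ha0]
        exact heX 0
    have hvl : vl (asg x₀ (seq (fun k => H (nat (b k))) n)) n = v := by
      funext i
      rw [vl_asg hZ hX h₀ hbX i]
      have h2 : n - 1 - (n - 1 - (i : ℕ)) = i := by
        have := i.isLt
        omega
      have h3 : n - 1 - (n - 1 - (i : ℕ)) < n := by
        rw [h2]
        exact i.isLt
      simp only [hb, h3, dif_pos]
      have h4 : (⟨n - 1 - (n - 1 - (i : ℕ)), h3⟩ : Fin n) = i := Fin.ext h2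
      rw [h4, ← ha]
    have hs := asg_mem hZ hX h₀ hbX n
    obtain ⟨m, hm⟩ := exists_Dr hZ hX hd' φ
    obtain ⟨N, hN⟩ := hval2 b n m
    have h2 : ∃ w ∈ X, cns w (asg x₀ (seq (fun k => H (nat (b k))) n)) ∈ Dr M X d (nat m) := by
      refine ⟨w, hw, ?_⟩
      rw [hm, mem_DD, vl_cns (mem_fnX.1 hs).2 hw, hvl]
      exact ⟨cns_mem hZ hw hs hX, hsat⟩
    obtain ⟨h3, h4⟩ := wv_spec (x₀ := x₀) hZ hα hαo hji h2
    rw [← hN] at h3 h4
    rw [hm, mem_DD, vl_cns (mem_fnX.1 hs).2 h3, hvl] at h4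
    exact ⟨_, (memY _).2 ⟨h3, N, rfl⟩, h4.2⟩

end Pool.Agent.R597
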