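import Mathlib

/-!
Category and measure on the real line: a compact set which is clean for a family of small open
sets indexed by a non-meagre set.
-/

set_option autoImplicit false

namespace Pool.Agent.R597.MH

open Set Filter Topology MeasureTheory

/-- `I` enumerates a base of open sets of `ℝ`. -/
def IsBase (I : ℕ → Set ℝ) : Prop :=
  (∀ n, IsOpen (I n)) ∧ ∀ V : Set ℝ, IsOpen V → ∀ x ∈ V, ∃ n, x ∈ I n ∧ I n ⊆ V

theorem exists_isBase : ∃ I : ℕ → Set ℝ, IsBase I := by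
  obtain ⟨b, hbc, _, hb⟩ := TopologicalSpace.exists_countable_basis ℝ
  have hne : b.Nonempty := by
    obtain ⟨t, ht, _⟩ := hb.exists_subset_of_mem_open (mem_univ (0:ℝ)) isOpen_univ
    exact ⟨t, ht⟩
  obtain ⟨I, hI⟩ := hbc.exists_eq_range hne
  refine ⟨I, fun n => hb.isOpen (hI ▸ mem_range_self n), fun V hV x hx => ?_⟩
  obtain ⟨t, ht, hxt, htV⟩ := hb.exists_subset_of_mem_open hx hV
  rw [hI] at ht
  obtain ⟨n, rfl⟩ := ht
  exact ⟨n, hxt, htV⟩

/-- A non-meagre set is dense and non-meagre in some member of the base. -/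
theorem exists_local {I : ℕ → Set ℝ} (hI : IsBase I) {T : Set ℝ} (hT : ¬ IsMeagre T) :
    ∃ n, ¬ IsMeagre (T ∩ I n) ∧ I n ⊆ closure T := by
  set T' : Set ℝ := T \ ⋃ n ∈ {n | IsMeagre (T ∩ I n)}, T ∩ I n with hT'
  have h1 : ¬ IsMeagre T' := by
    intro h
    apply hT
    have h2 : IsMeagre (⋃ n ∈ {n | IsMeagre (T ∩ I n)}, T ∩ I n) :=
      isMeagre_biUnion (Set.to_countable _) (fun n hn => hn)
    refine (h.union h2).mono ?_
    intro x hx
    by_cases hx' : x ∈ ⋃ n ∈ {n | IsMeagre (T ∩ I n)}, T ∩ I n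
    · exact Or.inr hx'
    · exact Or.inl ⟨hx, hx'⟩
  have h2 : (interior (closure T')).Nonempty := by
    by_contra h
    rw [not_nonempty_iff_eq_empty] at h
    exact h1 (IsNowhereDense.isMeagre h)
  obtain ⟨y, hy⟩ := h2
  have h3 : (interior (closure T') ∩ T').Nonempty :=
    mem_closure_iff.1 (interior_subset hy) _ isOpen_interior hy
  obtain ⟨x, hx1, hx2⟩ := h3
  obtain ⟨n, hn1, hn2⟩ := hI.2 _ isOpen_interior x hx1
  refine ⟨n, fun hm => ?_, ?_⟩
  · apply hx2.2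
    simp only [mem_iUnion]
    exact ⟨n, hm, hx2.1, hn1⟩
  · exact hn2.trans (interior_subset.trans (closure_mono sdiff_subset))

/-- A closed non-empty set covered by countably many closed sets has a non-empty relatively open
piece contained in one of them. -/
theorem baire_piece {I : ℕ → Set ℝ} (hI : IsBase I) {F : Set ℝ} (hF : IsClosed F)
    (hne : F.Nonempty) (E : ℕ → Set ℝ) (hE : ∀ j, IsClosed (E j)) (hcov : F ⊆ ⋃ j, E j) :
    ∃ j k, (F ∩ I k).Nonempty ∧ F ∩ I k ⊆ E j := by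
  have : CompleteSpace F := hF.completeSpace_coe
  have : Nonempty F := hne.to_subtype
  have h1 : ∀ j, IsClosed ((fun x : F => (x : ℝ)) ⁻¹' E j) :=
    fun j => (hE j).preimage continuous_subtype_val
  have h2 : (⋃ j, (fun x : F => (x : ℝ)) ⁻¹' E j) = univ := by
    rw [eq_univ_iff_forall]
    intro x
    obtain ⟨j, hj⟩ := mem_iUnion.1 (hcov x.2)
    exact mem_iUnion.2 ⟨j, hj⟩
  obtain ⟨j, x, hx⟩ := nonempty_interior_of_iUnion_of_closed h1 h2
  obtain ⟨V, hV, hVx⟩ := isOpen_induced_iff.1 (isOpen_interior (s := (fun x : F => (x : ℝ)) ⁻¹' E j))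
  have hxV : (x : ℝ) ∈ V := by
    have : x ∈ (fun x : F => (x : ℝ)) ⁻¹' V := by rw [hVx]; exact hx
    exact this
  obtain ⟨k, hk1, hk2⟩ := hI.2 V hV _ hxV
  refine ⟨j, k, ⟨x, x.2, hk1⟩, ?_⟩
  rintro y ⟨hyF, hyk⟩
  have : (⟨y, hyF⟩ : F) ∈ (fun x : F => (x : ℝ)) ⁻¹' V := hk2 hyk
  rw [hVx] at this
  exact (interior_subset this : (⟨y, hyF⟩ : F) ∈ (fun x : F => (x : ℝ)) ⁻¹' E j)

/-- Almost all `r` in `A ∩ I n` satisfy `K ⊆ U r`. -/
def Forced (I : ℕ → Set ℝ) (A : Set ℝ) (U : ℝ → Set ℝ) (n : ℕ) (K : Set ℝ) : Prop :=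
  IsMeagre {r | r ∈ A ∩ I n ∧ ¬ K ⊆ U r}

variable {I : ℕ → Set ℝ} {A : Set ℝ} {U : ℝ → Set ℝ}

theorem Forced.exists_mem {n : ℕ} {K : Set ℝ} (h : Forced I A U n K)
    (hn : ¬ IsMeagre (A ∩ I n)) : ∃ r, K ⊆ U r := by
  by_contra hc
  push Not at hc
  apply hn
  refine IsMeagre.mono ?_ h
  intro r hr
  exact ⟨hr, hc r⟩

theorem Forced.union {n : ℕ} {K L : Set ℝ} (h : Forced I A U n K) (h' : Forced I A U n L) :
    Forced I A U n (K ∪ L) := by
  refine IsMeagre.mono ?_ (IsMeagre.union h h')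
  rintro r ⟨hr, hK⟩
  by_cases h1 : K ⊆ U r
  · exact Or.inr ⟨hr, fun h2 => hK (union_subset h1 h2)⟩
  · exact Or.inl ⟨hr, h1⟩

theorem forced_empty {n : ℕ} : Forced I A U n ∅ := by
  refine IsMeagre.mono ?_ IsMeagre.empty
  rintro r ⟨_, hr⟩
  exact absurd (empty_subset _) hr

theorem separation {n : ℕ} (hn : ¬ IsMeagre (A ∩ I n))
    (hU : ∀ r, volume (U r) < 1/4) {δ : ENNReal} (hδ : δ ≠ 0) :
    ∃ A₁ A₂ : Set ℝ, IsCompact A₁ ∧ IsCompact A₂ ∧ A₁ ⊆ Icc 0 1 ∧ A₂ ⊆ Icc 0 1 ∧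
      Disjoint A₁ A₂ ∧ volume (Icc (0:ℝ) 1 \ (A₁ ∪ A₂)) ≤ δ ∧ Forced I A U n A₁ ∧
      ∀ K, IsCompact K → K ⊆ Icc 0 1 → Forced I A U n K → volume (K ∩ A₂) = 0 := by
  set S : Set ENNReal := {t | ∃ K : Set ℝ, IsCompact K ∧ K ⊆ Icc 0 1 ∧ Forced I A U n K ∧
    volume K = t} with hS
  have hSne : S.Nonempty := ⟨0, ∅, isCompact_empty, empty_subset _, forced_empty, measure_empty⟩
  obtain ⟨u, _, hut, huS⟩ := exists_seq_tendsto_sSup hSne (OrderTop.bddAbove S)
  set m := sSup S with hm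
  have hmle : m ≤ 1/4 := by
    apply sSup_le
    rintro t ⟨K, _, _, hK, rfl⟩
    obtain ⟨r, hr⟩ := hK.exists_mem hn
    exact (measure_mono hr).trans (hU r).le
  have hmtop : m ≠ ⊤ := ne_top_of_le_ne_top (by norm_num) hmle
  choose K hKc hK01 hKf hKv using huS
  set P : Set ℝ := ⋃ k, K k with hP
  have hKm : ∀ k, MeasurableSet (K k) := fun k => (hKc k).measurableSet
  have hPm : MeasurableSet P := MeasurableSet.iUnion hKm
  have hP01 : P ⊆ Icc 0 1 := iUnion_subset hK01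
  have hPfin : volume P ≠ ⊤ :=
    ne_top_of_le_ne_top (by simp) (measure_mono hP01)
  -- every forced set is almost contained in `P`
  have key : ∀ L, IsCompact L → L ⊆ Icc 0 1 → Forced I A U n L → volume (L \ P) = 0 := by
    intro L hLc hL01 hLf
    have h1 : ∀ k, volume (L \ P) + u k ≤ m := by
      intro k
      rw [← hKv k]
      have hd : Disjoint (L \ P) (K k) := by
        refine disjoint_left.2 fun x hx hx' => hx.2 (mem_iUnion.2 ⟨k, hx'⟩)
      rw [← measure_union hd (hKm k)]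
      refine (measure_mono (union_subset_union sdiff_subset subset_rfl)).trans ?_
      exact le_sSup ⟨L ∪ K k, hLc.union (hKc k), union_subset hL01 (hK01 k), hLf.union (hKf k), rfl⟩
    have h2 : volume (L \ P) + m ≤ m := by
      refine le_of_tendsto' (Tendsto.const_add _ hut) h1
    have h3 : volume (L \ P) + m ≤ 0 + m := by simpa using h2
    exact nonpos_iff_eq_zero.1 ((ENNReal.add_le_add_iff_right hmtop).1 h3)
  -- partial unions
  have hacc : ∀ k, Forced I A U n (Set.accumulate K k) ∧ IsCompact (Set.accumulate K k) := by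
    intro k
    induction k with
    | zero =>
      have : Set.accumulate K 0 = K 0 := by
        ext x; simp [Set.mem_accumulate]
      rw [this]; exact ⟨hKf 0, hKc 0⟩
    | succ k ih =>
      have : Set.accumulate K (k+1) = Set.accumulate K k ∪ K (k+1) := Set.accumulate_succ K k
      rw [this]; exact ⟨ih.1.union (hKf _), ih.2.union (hKc _)⟩
  have hδ2 : δ / 2 ≠ 0 := by simp [hδ]
  have hlim := tendsto_measure_iUnion_accumulate (μ := (volume : Measure ℝ)) (f := K)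
  have hev : ∀ᶠ k in atTop, volume P < volume (Set.accumulate K k) + δ/2 := by
    have h1 : Tendsto (fun k => volume (Set.accumulate K k) + δ/2) atTop (𝓝 (volume P + δ/2)) :=
      hlim.add_const _
    exact h1.eventually_const_lt (ENNReal.lt_add_right hPfin hδ2)
  obtain ⟨k, hk⟩ := hev.exists
  have haccP : Set.accumulate K k ⊆ P := by
    intro x hx
    obtain ⟨i, _, hi⟩ := Set.mem_accumulate.1 hx
    exact mem_iUnion.2 ⟨i, hi⟩
  have hd1 : volume (P \ Set.accumulate K k) ≤ δ/2 := by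
    rw [measure_sdiff haccP (hacc k).2.measurableSet.nullMeasurableSet
      (ne_top_of_le_ne_top hPfin (measure_mono haccP))]
    exact tsub_le_iff_left.2 hk.le
  have hQm : MeasurableSet (Icc (0:ℝ) 1 \ P) := measurableSet_Icc.diff hPm
  have hQfin : volume (Icc (0:ℝ) 1 \ P) ≠ ⊤ :=
    ne_top_of_le_ne_top (by simp) (measure_mono (sdiff_subset (s := Icc (0:ℝ) 1)))
  obtain ⟨A₂, hA₂, hA₂c, hA₂d⟩ := hQm.exists_isCompact_sdiff_lt hQfin hδ2
  refine ⟨Set.accumulate K k, A₂, (hacc k).2, hA₂c, haccP.trans hP01,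
    hA₂.trans sdiff_subset, ?_, ?_, (hacc k).1, ?_⟩
  · exact disjoint_left.2 fun x hx hx' => (hA₂ hx').2 (haccP hx)
  · have hsub : Icc (0:ℝ) 1 \ (Set.accumulate K k ∪ A₂) ⊆
        (P \ Set.accumulate K k) ∪ ((Icc (0:ℝ) 1 \ P) \ A₂) := by
      rintro x ⟨hx, hx'⟩
      rw [mem_union, not_or] at hx'
      by_cases hxP : x ∈ P
      · exact Or.inl ⟨hxP, hx'.1⟩
      · exact Or.inr ⟨⟨hx, hxP⟩, hx'.2⟩
    calc volume (Icc (0:ℝ) 1 \ (Set.accumulate K k ∪ A₂)) ≤ _ := measure_mono hsub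
      _ ≤ volume (P \ Set.accumulate K k) + volume ((Icc (0:ℝ) 1 \ P) \ A₂) := measure_union_le _ _
      _ ≤ δ/2 + δ/2 := add_le_add hd1 hA₂d.le
      _ = δ := ENNReal.add_halves δ
  · intro L hLc hL01 hLf
    refine measure_mono_null ?_ (key L hLc hL01 hLf)
    rintro x ⟨hx, hx'⟩
    exact ⟨hx, (hA₂ hx').2⟩

end Pool.Agent.R597.MH
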