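import Pool.Agent.R597.MH1

/-!
The clean compact set.
-/

set_option autoImplicit false

namespace Pool.Agent.R597.MH

open Set Filter Topology MeasureTheory

/-- Let `A` be a non-meagre set and `U r` open sets of measure `< 1/4` such that for compact `K`
the condition `K ⊆ U r` is relatively open on `A`.  Then some compact `C ⊆ [0,1]` of measure
`> 1/2` has the following property: if the open sets `O j` are dense in `C`, then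
`C ∩ ⋂ O j ⊆ U r` only for a meagre set of `r ∈ A`. -/
theorem clean_set {A : Set ℝ} {U : ℝ → Set ℝ}
    (hUo : ∀ r, IsOpen (U r)) (hU : ∀ r, volume (U r) < 1/4)
    (hcont : ∀ K, IsCompact K → ∀ r₀ ∈ A, K ⊆ U r₀ → ∀ᶠ r in 𝓝[A] r₀, K ⊆ U r) :
    ∃ C : Set ℝ, IsCompact C ∧ C ⊆ Icc 0 1 ∧
      ∀ O : ℕ → Set ℝ, (∀ j, IsOpen (O j)) →
        (∀ j, ∀ V : Set ℝ, IsOpen V → (C ∩ V).Nonempty → (C ∩ V ∩ O j).Nonempty) →
        IsMeagre {r | r ∈ A ∧ C ∩ (⋂ j, O j) ⊆ U r} := by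
  obtain ⟨I, hI⟩ := exists_isBase
  obtain ⟨δ, hδ, hδs⟩ := ENNReal.exists_pos_sum_of_countable' (ε := 1/4) (by norm_num) ℕ
  have hex : ∀ n, ∃ A₁ A₂ : Set ℝ, IsCompact A₁ ∧ IsCompact A₂ ∧ A₁ ⊆ Icc 0 1 ∧ A₂ ⊆ Icc 0 1 ∧
      Disjoint A₁ A₂ ∧ volume (Icc (0:ℝ) 1 \ (A₁ ∪ A₂)) ≤ δ n ∧ (¬ IsMeagre (A ∩ I n) →
      Forced I A U n A₁ ∧
      ∀ K, IsCompact K → K ⊆ Icc 0 1 → Forced I A U n K → volume (K ∩ A₂) = 0) := by
    intro n
    by_cases hn : IsMeagre (A ∩ I n)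
    · exact ⟨∅, Icc 0 1, isCompact_empty, isCompact_Icc, empty_subset _, subset_rfl,
        empty_disjoint _, by simp, fun h => absurd hn h⟩
    · obtain ⟨A₁, A₂, h1, h2, h3, h4, h5, h6, h7, h8⟩ := separation hn hU (hδ n).ne'
      exact ⟨A₁, A₂, h1, h2, h3, h4, h5, h6, fun _ => ⟨h7, h8⟩⟩
  choose A₁ A₂ hc₁ hc₂ h01₁ h01₂ hdis hvol hforced using hex
  set C₀ : Set ℝ := Icc 0 1 ∩ ⋂ n, (A₁ n ∪ A₂ n) with hC₀
  have hC₀cl : IsClosed C₀ :=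
    isClosed_Icc.inter (isClosed_iInter fun n => ((hc₁ n).union (hc₂ n)).isClosed)
  have hC₀m : MeasurableSet C₀ := hC₀cl.measurableSet
  have hC₀01 : C₀ ⊆ Icc 0 1 := inter_subset_left
  have hcompl : volume (Icc (0:ℝ) 1 \ C₀) < 1/4 := by
    have hsub : Icc (0:ℝ) 1 \ C₀ ⊆ ⋃ n, (Icc (0:ℝ) 1 \ (A₁ n ∪ A₂ n)) := by
      rintro x ⟨hx, hx'⟩
      have : ∃ n, x ∉ A₁ n ∪ A₂ n := by
        by_contra hc
        push Not at hc
        exact hx' ⟨hx, mem_iInter.2 hc⟩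
      obtain ⟨n, hn⟩ := this
      exact mem_iUnion.2 ⟨n, hx, hn⟩
    calc volume (Icc (0:ℝ) 1 \ C₀) ≤ volume (⋃ n, (Icc (0:ℝ) 1 \ (A₁ n ∪ A₂ n))) :=
          measure_mono hsub
      _ ≤ ∑' n, volume (Icc (0:ℝ) 1 \ (A₁ n ∪ A₂ n)) := measure_iUnion_le _
      _ ≤ ∑' n, δ n := ENNReal.tsum_le_tsum hvol
      _ < 1/4 := hδs
  -- the self-supporting kernel
  set Z : Set ℝ := ⋃ k ∈ {k | volume (C₀ ∩ I k) = 0}, I k with hZ
  have hZo : IsOpen Z := isOpen_biUnion fun k _ => hI.1 k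
  have hZnull : volume (C₀ ∩ Z) = 0 := by
    rw [hZ, inter_iUnion₂]
    exact (measure_biUnion_null_iff (Set.to_countable _)).2 fun k hk => hk
  set C : Set ℝ := C₀ \ Z with hC
  have hCcl : IsClosed C := hC₀cl.sdiff hZo
  have hC01 : C ⊆ Icc 0 1 := sdiff_subset.trans hC₀01
  have hCc : IsCompact C := isCompact_Icc.of_isClosed_subset hCcl hC01
  have hCC₀ : C ⊆ C₀ := sdiff_subset
  have hpos : ∀ V : Set ℝ, IsOpen V → (C ∩ V).Nonempty → volume (C ∩ V) ≠ 0 := by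
    rintro V hV ⟨x, hxC, hxV⟩ h0
    obtain ⟨k, hk1, hk2⟩ := hI.2 V hV x hxV
    apply hxC.2
    rw [hZ]
    simp only [mem_iUnion]
    refine ⟨k, ?_, hk1⟩
    have hsub : C₀ ∩ I k ⊆ (C ∩ V) ∪ (C₀ ∩ Z) := by
      rintro y ⟨hy1, hy2⟩
      by_cases hyZ : y ∈ Z
      · exact Or.inr ⟨hy1, hyZ⟩
      · exact Or.inl ⟨⟨hy1, hyZ⟩, hk2 hy2⟩
    refine measure_mono_null hsub ?_
    exact measure_union_null h0 hZnull
  have hCU : ∀ r, ¬ C ⊆ U r := by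
    intro r hr
    have h1 : volume (Icc (0:ℝ) 1) ≤ volume (U r) + volume (Icc (0:ℝ) 1 \ C₀) := by
      have hsub : Icc (0:ℝ) 1 ⊆ (U r ∪ (Icc (0:ℝ) 1 \ C₀)) ∪ (C₀ ∩ Z) := by
        intro x hx
        by_cases hx0 : x ∈ C₀
        · by_cases hxZ : x ∈ Z
          · exact Or.inr ⟨hx0, hxZ⟩
          · exact Or.inl (Or.inl (hr ⟨hx0, hxZ⟩))
        · exact Or.inl (Or.inr ⟨hx, hx0⟩)
      calc volume (Icc (0:ℝ) 1) ≤ _ := measure_mono hsub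
        _ ≤ volume (U r ∪ (Icc (0:ℝ) 1 \ C₀)) + volume (C₀ ∩ Z) := measure_union_le _ _
        _ = volume (U r ∪ (Icc (0:ℝ) 1 \ C₀)) := by rw [hZnull, add_zero]
        _ ≤ _ := measure_union_le _ _
    have h2 : volume (U r) + volume (Icc (0:ℝ) 1 \ C₀) < 1/4 + 1/4 :=
      ENNReal.add_lt_add (hU r) hcompl
    have h3 : volume (Icc (0:ℝ) 1) < 1/4 + 1/4 := lt_of_le_of_lt h1 h2
    rw [Real.volume_Icc] at h3
    norm_num at h3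
    have h4 : (4:ENNReal)⁻¹ + 4⁻¹ ≤ 1 := by
      have : (4:ENNReal)⁻¹ ≤ 2⁻¹ := ENNReal.inv_le_inv.2 (by norm_num)
      calc (4:ENNReal)⁻¹ + 4⁻¹ ≤ 2⁻¹ + 2⁻¹ := add_le_add this this
        _ = 1 := ENNReal.inv_two_add_inv_two
    exact absurd h3 (not_lt.2 h4)
  refine ⟨C, hCc, hC01, fun O hO hdense => ?_⟩
  -- pieces
  set T : ℕ × ℕ → Set ℝ := fun q =>
    {r | r ∈ A ∧ ¬ C ∩ I q.2 ⊆ U r ∧ C ∩ I q.2 ∩ O q.1 ⊆ U r} with hT
  have hcover : {r | r ∈ A ∧ C ∩ (⋂ j, O j) ⊆ U r} ⊆ ⋃ q, T q := by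
    rintro r ⟨hrA, hr⟩
    have hFne : (C \ U r).Nonempty := by
      rw [sdiff_nonempty]; exact hCU r
    have hFcl : IsClosed (C \ U r) := hCcl.sdiff (hUo r)
    obtain ⟨j, k, h1, h2⟩ := baire_piece hI hFcl hFne (fun j => (O j)ᶜ)
      (fun j => (hO j).isClosed_compl) (by
        rintro x ⟨hxC, hxU⟩
        by_contra hc
        simp only [mem_iUnion, mem_compl_iff, not_exists, not_not] at hc
        exact hxU (hr ⟨hxC, mem_iInter.2 hc⟩))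
    refine mem_iUnion.2 ⟨(j, k), hrA, ?_, ?_⟩
    · intro hsub
      obtain ⟨x, ⟨hx1, hx2⟩, hx3⟩ := h1
      exact hx2 (hsub ⟨hx1, hx3⟩)
    · rintro x ⟨⟨hx1, hx2⟩, hx3⟩
      by_contra hxU
      exact h2 ⟨⟨hx1, hxU⟩, hx2⟩ hx3
  refine IsMeagre.mono hcover (isMeagre_iUnion fun q => ?_)
  by_contra hTn
  obtain ⟨j, k⟩ := q
  obtain ⟨n, hn1, hn2⟩ := exists_local hI hTn
  have hTA : T (j, k) ⊆ A := fun r hr => hr.1
  have hn : ¬ IsMeagre (A ∩ I n) := fun h =>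
    hn1 (h.mono (inter_subset_inter_left _ hTA))
  obtain ⟨hf1, hf2⟩ := hforced n hn
  -- compact subsets of `C ∩ I k ∩ O j` are forced
  have hK : ∀ K, IsCompact K → K ⊆ C ∩ I k ∩ O j → Forced I A U n K := by
    intro K hKc hKs
    apply IsNowhereDense.isMeagre
    by_contra hne
    have hne' : (interior (closure {r | r ∈ A ∩ I n ∧ ¬ K ⊆ U r})).Nonempty := by
      rw [nonempty_iff_ne_empty]; exact hne
    obtain ⟨y, hy⟩ := hne'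
    obtain ⟨z, hz1, hz2⟩ := mem_closure_iff.1 (interior_subset hy) _ isOpen_interior hy
    have hzn : z ∈ closure (T (j, k)) := hn2 hz2.1.2
    obtain ⟨t, ht1, ht2⟩ := mem_closure_iff.1 hzn _ isOpen_interior hz1
    have ht3 : ∀ᶠ r in 𝓝[A] t, K ⊆ U r := hcont K hKc t ht2.1 (hKs.trans ht2.2.2)
    obtain ⟨V, hVo, htV, hV⟩ := mem_nhdsWithin.1 ht3
    obtain ⟨w, hw1, hw2⟩ := mem_closure_iff.1 (interior_subset ht1) V hVo htV
    exact hw2.2 (hV ⟨hw1, hw2.1.1⟩)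
  have hsub : C ∩ I k ⊆ A₁ n := by
    rintro x ⟨hxC, hxk⟩
    by_contra hx1
    have hV : IsOpen (I k ∩ (A₁ n)ᶜ) := (hI.1 k).inter (hc₁ n).isClosed.isOpen_compl
    have h1 : (C ∩ (I k ∩ (A₁ n)ᶜ) ∩ O j).Nonempty := hdense j _ hV ⟨x, hxC, hxk, hx1⟩
    have h2 : (C ∩ (I k ∩ (A₁ n)ᶜ ∩ O j)).Nonempty := by
      obtain ⟨y, ⟨hy1, hy2⟩, hy3⟩ := h1
      exact ⟨y, hy1, hy2, hy3⟩
    have h3 := hpos _ (hV.inter (hO j)) h2
    have hm : MeasurableSet (C ∩ (I k ∩ (A₁ n)ᶜ ∩ O j)) :=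
      hCcl.measurableSet.inter (hV.inter (hO j)).measurableSet
    have hfin : volume (C ∩ (I k ∩ (A₁ n)ᶜ ∩ O j)) ≠ ⊤ :=
      ne_top_of_le_ne_top (by simp) (measure_mono (inter_subset_left.trans hC01))
    obtain ⟨K, hKs, hKc, hKpos⟩ := hm.exists_lt_isCompact_of_ne_top hfin (pos_iff_ne_zero.2 h3)
    have hKf : Forced I A U n K := hK K hKc (fun y hy => by
      obtain ⟨hy1, ⟨hy2, hy3⟩, hy4⟩ := hKs hy
      exact ⟨⟨hy1, hy2⟩, hy4⟩)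
    have hK0 := hf2 K hKc (fun y hy => hC01 (hKs hy).1) hKf
    have hKA₂ : K ∩ A₂ n = K := by
      apply inter_eq_left.2
      intro y hy
      have hy' := hKs hy
      have hy'' : y ∈ A₁ n ∪ A₂ n := mem_iInter.1 (hCC₀ hy'.1).2 n
      exact hy''.resolve_left hy'.2.1.2
    rw [hKA₂] at hK0
    exact hKpos.ne' hK0
  apply hn1
  refine IsMeagre.mono ?_ hf1
  rintro r ⟨hr1, hr2⟩
  exact ⟨⟨hr1.1, hr2⟩, fun h => hr1.2.1 (hsub.trans h)⟩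

end Pool.Agent.R597.MH
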