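import Pool.Agent.R597.MH2

/-!
No monotone `G_δ` assignment, if every real function is continuous on a non-meagre set.
-/

set_option autoImplicit false

namespace Pool.Agent.R597.MH

open Set Filter Topology MeasureTheory

/-- a dense open set of small measure -/
theorem exists_small_dense : ∃ O : Set ℝ, IsOpen O ∧ Dense O ∧ volume O < 1/8 := by
  have h0 : volume (range ((↑) : ℚ → ℝ)) < 1/8 := by
    rw [(countable_range ((↑) : ℚ → ℝ)).measure_zero]
    norm_num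
  obtain ⟨O, hO1, hO2, hO3⟩ := Set.exists_isOpen_lt_of_lt _ _ h0
  exact ⟨O, hO2, Rat.denseRange_cast.mono hO1, hO3⟩

theorem no_assignment
    (hcont : ∀ f : ℝ → ℝ, ∃ A : Set ℝ, ¬ IsMeagre A ∧ ContinuousOn f A)
    (φ : Set ℝ → Set ℝ)
    (h1 : ∀ D : Set ℝ, D ⊆ Icc 0 1 → D.Countable → D ⊆ φ D ∧ IsGδ (φ D))
    (h2 : ∀ V : Set ℝ, IsOpen V → volume (φ (Icc 0 1 ∩ V)) = volume (Icc 0 1 ∩ V))
    (h3 : ∀ D V : Set ℝ, D ⊆ Icc 0 1 → D.Countable → IsOpen V → D ⊆ Icc 0 1 ∩ V →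
      φ D ⊆ φ (Icc 0 1 ∩ V)) : False := by
  obtain ⟨O, hO, hOd, hOv⟩ := exists_small_dense
  -- translates
  have hV : ∀ r : ℝ, IsOpen {x : ℝ | x - r ∈ O} := fun r => hO.preimage (continuous_id.sub continuous_const)
  have hVv : ∀ r : ℝ, volume {x : ℝ | x - r ∈ O} = volume O := by
    intro r
    have h : {x : ℝ | x - r ∈ O} = (fun x => x + (-r)) ⁻¹' O := by
      ext x
      simp [sub_eq_add_neg]
    rw [h]
    exact measure_preimage_add_right volume (-r) O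
  have hB : ∀ r : ℝ, volume (φ (Icc 0 1 ∩ {x : ℝ | x - r ∈ O})) < 1/4 := by
    intro r
    rw [h2 _ (hV r)]
    calc volume (Icc 0 1 ∩ {x : ℝ | x - r ∈ O}) ≤ volume {x : ℝ | x - r ∈ O} :=
          measure_mono inter_subset_right
      _ = volume O := hVv r
      _ < 1/8 := hOv
      _ ≤ 1/4 := by
        rw [one_div, one_div]
        exact ENNReal.inv_le_inv.2 (by norm_num)
  have hex : ∀ r : ℝ, ∃ U : Set ℝ, φ (Icc 0 1 ∩ {x : ℝ | x - r ∈ O}) ⊆ U ∧ IsOpen U ∧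
      volume U < 1/4 := fun r => Set.exists_isOpen_lt_of_lt _ _ (hB r)
  choose U hU1 hU2 hU3 using hex
  -- coding
  obtain ⟨I, hI⟩ := exists_isBase
  classical
  obtain ⟨g, -, hg1, hg2⟩ := IsClosed.exists_nat_bool_injection_of_not_countable
    (C := (univ : Set ℝ)) isClosed_univ (by
      rw [Set.countable_univ_iff]
      exact not_countable)
  obtain ⟨A, hA, hfA⟩ := hcont (fun r => g (fun n => decide (I n ⊆ U r)))
  have haA : ContinuousOn (fun r => (fun n => decide (I n ⊆ U r) : ℕ → Bool)) A :=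
    (hg1.isClosedEmbedding hg2).isInducing.continuousOn_iff.2 hfA
  have hK : ∀ K, IsCompact K → ∀ r₀ ∈ A, K ⊆ U r₀ → ∀ᶠ r in 𝓝[A] r₀, K ⊆ U r := by
    intro K hK r₀ hr₀ hKU
    have hcov : K ⊆ ⋃ n : {n // I n ⊆ U r₀}, I n := by
      intro x hx
      obtain ⟨n, hn1, hn2⟩ := hI.2 _ (hU2 r₀) x (hKU hx)
      exact mem_iUnion.2 ⟨⟨n, hn2⟩, hn1⟩
    obtain ⟨t, ht⟩ := hK.elim_finite_subcover (fun n : {n // I n ⊆ U r₀} => I n)
      (fun n => hI.1 n) hcov
    have hev : ∀ᶠ r in 𝓝[A] r₀, ∀ n ∈ t, decide (I (n : ℕ) ⊆ U r) = true := by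
      rw [Filter.eventually_all_finset]
      intro n hn
      have hc : ContinuousWithinAt (fun r => decide (I (n : ℕ) ⊆ U r)) A r₀ :=
        (continuous_apply (n : ℕ)).continuousAt.comp_continuousWithinAt (haA r₀ hr₀)
      have hmem : {b : Bool | b = true} ∈ 𝓝 (decide (I (n : ℕ) ⊆ U r₀)) := by
        rw [decide_eq_true n.2]
        exact (isOpen_discrete {b : Bool | b = true}).mem_nhds rfl
      exact hc hmem
    filter_upwards [hev] with r hr
    refine ht.trans (iUnion₂_subset fun n hn => ?_)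
    exact of_decide_eq_true (hr n hn)
  obtain ⟨C, hCc, hC01, hC⟩ := clean_set hU2 hU3 hK
  -- a countable dense subset of `C`
  set D : Set ℝ := range (fun k : {k // (C ∩ I k).Nonempty} => k.2.some) with hD
  have hDC : D ⊆ C := by
    rintro x ⟨k, rfl⟩
    exact k.2.some_mem.1
  have hDc : D.Countable := countable_range _
  have hD01 : D ⊆ Icc 0 1 := hDC.trans hC01
  have hDd : ∀ V : Set ℝ, IsOpen V → (C ∩ V).Nonempty → (D ∩ V).Nonempty := by
    rintro V hVo ⟨x, hxC, hxV⟩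
    obtain ⟨k, hk1, hk2⟩ := hI.2 V hVo x hxV
    have hne : (C ∩ I k).Nonempty := ⟨x, hxC, hk1⟩
    exact ⟨hne.some, ⟨⟨k, hne⟩, rfl⟩, hk2 hne.some_mem.2⟩
  obtain ⟨hDφ, hGδ⟩ := h1 D hD01 hDc
  obtain ⟨W, hWo, hW⟩ := hGδ.eq_iInter_nat
  have hm1 := hC W hWo (by
    intro j V hVo hne
    obtain ⟨x, hxD, hxV⟩ := hDd V hVo hne
    have hxW : x ∈ ⋂ n, W n := hW ▸ hDφ hxD
    exact ⟨x, ⟨hDC hxD, hxV⟩, mem_iInter.1 hxW j⟩)
  have hm2 : IsMeagre (⋃ d ∈ D, {r : ℝ | d - r ∈ O}ᶜ) := by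
    refine isMeagre_biUnion hDc fun d _ => ?_
    rw [IsMeagre, compl_compl]
    apply residual_of_dense_open
    · exact hO.preimage (continuous_const.sub continuous_id)
    · exact hOd.preimage (Homeomorph.subLeft d).isOpenMap
  apply hA
  refine IsMeagre.mono ?_ (hm1.union hm2)
  intro r hr
  by_cases hrD : ∀ d ∈ D, d - r ∈ O
  · refine Or.inl ⟨hr, ?_⟩
    rw [← hW]
    have hsub : D ⊆ Icc 0 1 ∩ {x : ℝ | x - r ∈ O} := fun d hd => ⟨hD01 hd, hrD d hd⟩
    exact inter_subset_right.trans ((h3 D _ hD01 hDc (hV r) hsub).trans (hU1 r))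
  · push Not at hrD
    obtain ⟨d, hd, hdr⟩ := hrD
    exact Or.inr (mem_iUnion₂.2 ⟨d, hd, hdr⟩)

end Pool.Agent.R597.MH
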