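import Mathlib

/-!
Coherent choices along a well order with countable initial segments, and hulls of Borel sets.
-/

set_option autoImplicit false

namespace Pool.Agent.R597.MH

open Set Filter Topology MeasureTheory Cardinal

theorem exists_coherent {X Y : Type*} [Nonempty Y] [LinearOrder X] [WellFoundedLT X]
    (P : X → Y → Prop) (R : X → Y → X → Y → Prop)
    (ext : ∀ x, ∀ f : X → Y, (∀ y < x, P y (f y)) →
      (∀ y < x, ∀ z < y, R z (f z) y (f y)) → ∃ v, P x v ∧ ∀ y < x, R y (f y) x v) :
    ∃ f : X → Y, (∀ x, P x (f x)) ∧ ∀ x, ∀ y < x, R y (f y) x (f x) := by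
  classical
  let g : ∀ x : X, (∀ y : X, y < x → Y) → X → Y := fun x ih y =>
    if h : y < x then ih y h else Classical.arbitrary Y
  let F : ∀ x : X, (∀ y : X, y < x → Y) → Y := fun x ih =>
    if h : ∃ v, P x v ∧ ∀ y < x, R y (g x ih y) x v then h.choose else Classical.arbitrary Y
  let f : X → Y := (wellFounded_lt (α := X)).fix F
  have hf : ∀ x, f x = F x (fun y _ => f y) := fun x => (wellFounded_lt (α := X)).fix_eq F x
  have key : ∀ x, P x (f x) ∧ ∀ y < x, R y (f y) x (f x) := by
    intro x
    induction x using (wellFounded_lt (α := X)).induction with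
    | _ x ih =>
      have hg : ∀ y < x, g x (fun y _ => f y) y = f y := by
        intro y hy
        simp only [g, dif_pos hy]
      have hex : ∃ v, P x v ∧ ∀ y < x, R y (g x (fun y _ => f y) y) x v := by
        obtain ⟨v, hv1, hv2⟩ := ext x f (fun y hy => (ih y hy).1)
          (fun y hy z hz => (ih y hy).2 z hz)
        exact ⟨v, hv1, fun y hy => by rw [hg y hy]; exact hv2 y hy⟩
      have hfx : f x = hex.choose := by
        rw [hf x]
        exact dif_pos hex
      rw [hfx]
      exact ⟨hex.choose_spec.1, fun y hy => by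
        have := hex.choose_spec.2 y hy
        rw [hg y hy] at this
        exact this⟩
  exact ⟨f, fun x => (key x).1, fun x => (key x).2⟩

/-- Every set has a `G_δ` superset of the same outer measure. -/
theorem exists_isGδ_superset (S : Set ℝ) (hS : volume S ≠ ⊤) :
    ∃ G, IsGδ G ∧ S ⊆ G ∧ volume G = volume S := by
  have hex : ∀ n : ℕ, ∃ V, S ⊆ V ∧ IsOpen V ∧ volume V < volume S + 1 / ((n : ENNReal) + 1) := by
    intro n
    refine Set.exists_isOpen_lt_of_lt _ _ ?_
    exact ENNReal.lt_add_right hS (by simp)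
  choose V hV1 hV2 hV3 using hex
  refine ⟨⋂ n, V n, IsGδ.iInter fun n => (hV2 n).isGδ, subset_iInter hV1, ?_⟩
  apply le_antisymm
  · refine ENNReal.le_of_forall_pos_le_add fun ε hε _ => ?_
    obtain ⟨n, hn⟩ := ENNReal.exists_inv_nat_lt (show (ε : ENNReal) ≠ 0 by simpa using hε.ne')
    calc volume (⋂ n, V n) ≤ volume (V n) := measure_mono (iInter_subset _ _)
      _ ≤ volume S + 1 / ((n : ENNReal) + 1) := (hV3 n).le
      _ ≤ volume S + ε := by
        gcongr
        rw [one_div]
        refine le_trans ?_ hn.le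
        exact ENNReal.inv_le_inv.2 (by simp)
  · exact measure_mono (subset_iInter hV1)

theorem exists_hull (hCH : aleph 1 = continuum.{0}) :
    ∃ φ : Set ℝ → Set ℝ,
      (∀ D, D ⊆ Icc 0 1 → MeasurableSet D →
        IsGδ (φ D) ∧ D ⊆ φ D ∧ φ D ⊆ Icc 0 1 ∧ volume (φ D) = volume D) ∧
      ∀ D D', D ⊆ Icc 0 1 → MeasurableSet D → D' ⊆ Icc 0 1 → MeasurableSet D' → D ⊆ D' →
        φ D ⊆ φ D' := by
  classical
  let 𝓑 : Type := {D : Set ℝ // D ⊆ Icc 0 1 ∧ MeasurableSet D}
  have hcard : #𝓑 ≤ aleph 1 := by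
    rw [hCH]
    obtain ⟨b, hbc, hb⟩ := MeasurableSpace.CountablyGenerated.isCountablyGenerated (α := ℝ)
    have h1 : #{t : Set ℝ | MeasurableSet t} ≤ continuum := by
      have h2 : #b ≤ continuum := by
        have : Countable b := hbc
        exact (mk_le_aleph0).trans aleph0_le_continuum
      have h3 := MeasurableSpace.cardinal_measurableSet_le_continuum (s := b) h2
      rw [← hb] at h3
      exact h3
    refine le_trans ?_ h1
    exact Cardinal.mk_le_of_injective (f := fun D : 𝓑 => (⟨D.1, D.2.2⟩ : {t : Set ℝ | MeasurableSet t}))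
      (fun D D' h => Subtype.ext (by simpa using h))
  let X : Type := (#𝓑).ord.ToType
  have hX : #X = #𝓑 := mk_ord_toType _
  obtain ⟨e⟩ : Nonempty (X ≃ 𝓑) := Cardinal.eq.1 hX
  have hcount : ∀ x : X, (Iio x).Countable := by
    intro x
    have h1 : #(Iio x) < #𝓑 := lt_of_lt_of_eq (Cardinal.mk_Iio_lt (α := X) x (by simp [X])) hX
    have h2 : #(Iio x) < aleph 1 := lt_of_lt_of_le h1 hcard
    have h3 : #(Iio x) ≤ aleph0 := by
      rw [← succ_aleph0] at h2
      exact Order.lt_succ_iff.1 h2
    exact Cardinal.le_aleph0_iff_set_countable.1 h3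
  obtain ⟨f, hf1, hf2⟩ := exists_coherent (X := X) (Y := Set ℝ)
    (fun x v => IsGδ v ∧ (e x).1 ⊆ v ∧ v ⊆ Icc 0 1 ∧ volume v = volume (e x).1)
    (fun y v' x v => ((e y).1 ⊆ (e x).1 → v' ⊆ v) ∧ ((e x).1 ⊆ (e y).1 → v ⊆ v')) (by
      intro x f hP hR
      set B : Set ℝ := (e x).1 with hB
      have hBm : MeasurableSet B := (e x).2.2
      have hB01 : B ⊆ Icc 0 1 := (e x).2.1
      set L : Set X := {y | y < x ∧ (e y).1 ⊆ B} with hL
      set M : Set X := {y | y < x ∧ B ⊆ (e y).1} with hM
      have hLc : L.Countable := (hcount x).mono fun y hy => hy.1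
      have hMc : M.Countable := (hcount x).mono fun y hy => hy.1
      set S : Set ℝ := B ∪ ⋃ y ∈ L, f y with hS
      have hnull : volume (⋃ y ∈ L, (f y \ (e y).1)) = 0 := by
        refine (measure_biUnion_null_iff hLc).2 fun y hy => ?_
        obtain ⟨_, h2, h3, h4⟩ := hP y hy.1
        have hfin : volume (e y).1 ≠ ⊤ :=
          ne_top_of_le_ne_top (by simp) (measure_mono (h2.trans h3))
        rw [measure_sdiff h2 (e y).2.2.nullMeasurableSet hfin, h4, tsub_self]
      have hSB : volume S = volume B := by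
        apply le_antisymm
        · have hsub : S ⊆ B ∪ ⋃ y ∈ L, (f y \ (e y).1) := by
            rintro z (hz | hz)
            · exact Or.inl hz
            · obtain ⟨y, hy, hzy⟩ := mem_iUnion₂.1 hz
              by_cases hzB : z ∈ B
              · exact Or.inl hzB
              · exact Or.inr (mem_iUnion₂.2 ⟨y, hy, hzy, fun h => hzB (hy.2 h)⟩)
          calc volume S ≤ _ := measure_mono hsub
            _ ≤ volume B + volume (⋃ y ∈ L, (f y \ (e y).1)) := measure_union_le _ _
            _ = volume B := by rw [hnull, add_zero]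
        · exact measure_mono subset_union_left
      have hBfin : volume B ≠ ⊤ := ne_top_of_le_ne_top (by simp) (measure_mono hB01)
      obtain ⟨G, hG1, hG2, hG3⟩ := exists_isGδ_superset S (by rw [hSB]; exact hBfin)
      have hSM : ∀ y ∈ M, S ⊆ f y := by
        intro y hy
        obtain ⟨_, h2, _, _⟩ := hP y hy.1
        apply union_subset (hy.2.trans h2)
        refine iUnion₂_subset fun z hz => ?_
        have hzy : (e z).1 ⊆ (e y).1 := hz.2.trans hy.2
        rcases lt_trichotomy z y with h | h | h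
        · exact (hR y hy.1 z h).1 hzy
        · rw [h]
        · exact (hR z hz.1 y h).2 hzy
      have hS01 : S ⊆ Icc 0 1 := by
        apply union_subset hB01
        exact iUnion₂_subset fun z hz => (hP z hz.1).2.2.1
      refine ⟨G ∩ Icc 0 1 ∩ ⋂ y ∈ M, f y, ⟨?_, ?_, ?_, ?_⟩, ?_⟩
      · exact (hG1.inter isClosed_Icc.isGδ).inter
          (IsGδ.biInter hMc fun y hy => (hP y hy.1).1)
      · intro z hz
        have hzS : z ∈ S := Or.inl hz
        exact ⟨⟨hG2 hzS, hB01 hz⟩, mem_iInter₂.2 fun y hy => hSM y hy hzS⟩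
      · exact fun z hz => hz.1.2
      · apply le_antisymm
        · rw [← hSB, ← hG3]
          exact measure_mono fun z hz => hz.1.1
        · refine measure_mono fun z hz => ?_
          have hzS : z ∈ S := Or.inl hz
          exact ⟨⟨hG2 hzS, hB01 hz⟩, mem_iInter₂.2 fun y hy => hSM y hy hzS⟩
      · intro y hy
        constructor
        · intro hyx z hz
          have hzS : z ∈ S := Or.inr (mem_iUnion₂.2 ⟨y, ⟨hy, hyx⟩, hz⟩)
          exact ⟨⟨hG2 hzS, hS01 hzS⟩, mem_iInter₂.2 fun w hw => hSM w hw hzS⟩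
        · intro hxy z hz
          exact mem_iInter₂.1 hz.2 y ⟨hy, hxy⟩)
  refine ⟨fun D => if h : D ⊆ Icc 0 1 ∧ MeasurableSet D then f (e.symm ⟨D, h⟩) else ∅, ?_, ?_⟩
  · intro D hD hDm
    simp only [hD, hDm, and_self, dif_pos]
    have := hf1 (e.symm ⟨D, hD, hDm⟩)
    rw [e.apply_symm_apply] at this
    exact this
  · intro D D' hD hDm hD' hDm' hsub
    simp only [hD, hDm, hD', hDm', and_self, dif_pos]
    rcases lt_trichotomy (e.symm ⟨D, hD, hDm⟩) (e.symm ⟨D', hD', hDm'⟩) with h | h | h
    · have := (hf2 _ _ h).1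
      rw [e.apply_symm_apply, e.apply_symm_apply] at this
      exact this hsub
    · rw [h]
    · have := (hf2 _ _ h).2
      rw [e.apply_symm_apply, e.apply_symm_apply] at this
      exact this hsub

end Pool.Agent.R597.MH
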