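import Pool.Agent.R597.Coh

/-!
# The ground model reals are not meager after adding a Cohen real
-/

set_option autoImplicit false
set_option linter.unreachableTactic false
set_option linter.unusedTactic false
set_option linter.unusedSectionVars false

namespace Pool.Agent.R597

open Pool.Agent.W868 Pool.Agent.W868.GM Pool.Agent.Y588
open ZFSet (pair)

theorem mem_run {h : ℕ → ZFSet.{0}} {p : ZFSet.{0}} : p ∈ run h ↔ ∃ k, p = pair (nat k) (h k) := by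
  rw [run, ZFSet.mem_range]
  exact exists_congr fun k => eq_comm

theorem run_func {X : ZFSet.{0}} {h : ℕ → ZFSet.{0}} (hX : ∀ k, h k ∈ X) :
    ZFSet.IsFunc ZFSet.omega X (run h) := by
  constructor
  · intro p hp
    obtain ⟨k, rfl⟩ := mem_run.1 hp
    exact ZFSet.pair_mem_prod.2 ⟨nat_mem_omega k, hX k⟩
  · intro z hz
    obtain ⟨k, rfl⟩ := mem_omega_iff.1 hz
    refine ⟨h k, mem_run.2 ⟨k, rfl⟩, fun y hy => ?_⟩
    obtain ⟨l, h1⟩ := mem_run.1 hy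
    obtain ⟨h2, rfl⟩ := ZFSet.pair_inj.1 h1
    rw [nat_injective h2]

theorem ap_run {X : ZFSet.{0}} {h : ℕ → ZFSet.{0}} (hX : ∀ k, h k ∈ X) (k : ℕ) :
    ap (run h) (nat k) = h k := ap_func (run_func hX) (mem_run.2 ⟨k, rfl⟩)

/-- A condition has extensions of every length, with a prescribed value avoided. -/
theorem exists_extend {t : ZFSet.{0}} (ht : t ∈ Pc) (n : ℕ) :
    ∃ w ∈ Pc, st t ⊆ st w ∧ ∃ a ∈ nat 2, pair (nat n) a ∈ st w := by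
  obtain ⟨f, m, hf, rfl⟩ := exists_seq2 ht
  refine ⟨seq f (max m (n + 1)), seq_mem_Pc hf _, st_sub.2 ⟨le_max_left _ _, fun _ _ => rfl⟩,
    f n, hf n, pair_mem_st.2 ⟨by omega, rfl⟩⟩

section

variable {M : Set ZFSet.{0}} (hM : IsZFC M)

include hM

/-- The Baire category theorem in a model. -/
theorem baire {I j D : ZFSet.{0}} (hI : I ∈ M) (hj : j ∈ M) (hji : IsInj I ZFSet.omega j)
    (hD : D ∈ M) (hd : ∀ i ∈ I, ∀ u ∈ Pc, ∃ v ∈ Pc, st u ⊆ st v ∧ pair i v ∈ D) :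
    ∃ x ∈ fnX M (nat 2), ∀ i ∈ I, ∃ v ∈ Pc, pair i v ∈ D ∧ st v ⊆ x := by
  have hZ := hM.toIsZF
  have hB := hZ.base
  have hP := Pc_mem hZ
  have hst := dfn_st hZ
  have hω := hZ.infinity
  have h2 := hZ.nat_mem 2
  obtain ⟨c, hc, -, hcF⟩ := exists_choice hM (hZ.prod_mem hω hP)
    (F := fun q => ZFSet.sep (fun v => st (sn q) ⊆ st v ∧ (∃ a ∈ nat 2, pair (fs q) a ∈ st v) ∧
      ∀ i ∈ I, pair i (fs q) ∈ j → ∃ v' ∈ Pc, pair i v' ∈ D ∧ st v' ⊆ st v) Pc) (by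
      refine hZ.sep' (Q := fun v w => st (sn (w 0)) ⊆ st v ∧
        (∃ a ∈ nat 2, pair (fs (w 0)) a ∈ st v) ∧
        ∀ i ∈ I, pair i (fs (w 0)) ∈ j → ∃ v' ∈ Pc, pair i v' ∈ D ∧ st v' ⊆ st v)
        (DfnF.const hP) ?_
      refine Dfn.and ?_ (Dfn.and ?_ ?_)
      · exact hB.subset' (DfnF.comp1 (f := st) hst (hZ.sn' (DfnF.proj 1)))
          (DfnF.comp1 (f := st) hst (DfnF.proj 0))
      · apply hB.bex (DfnF.const h2)
        exact Dfn.mem (hB.pair' (hZ.fs' (DfnF.proj 2)) (DfnF.proj 0))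
          (DfnF.comp1 (f := st) hst (DfnF.proj 1))
      · apply hB.ball (DfnF.const hI)
        apply Dfn.imp (Dfn.mem (hB.pair' (DfnF.proj 0) (hZ.fs' (DfnF.proj 2))) (DfnF.const hj))
        apply hB.bex (DfnF.const hP)
        exact (Dfn.mem (hB.pair' (DfnF.proj 1) (DfnF.proj 0)) (DfnF.const hD)).and
          (hB.subset' (DfnF.comp1 (f := st) hst (DfnF.proj 0))
            (DfnF.comp1 (f := st) hst (DfnF.proj 2)))) (by
      intro q hq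
      obtain ⟨n, hn, u, hu, rfl⟩ := ZFSet.mem_prod.1 hq
      obtain ⟨n, rfl⟩ := mem_omega_iff.1 hn
      simp only [fs_pair, sn_pair]
      by_cases h : ∃ i ∈ I, pair i (nat n) ∈ j
      · obtain ⟨i, hi, hin⟩ := h
        obtain ⟨v', hv', h3, h4⟩ := hd i hi u hu
        obtain ⟨v, hv, h5, h6⟩ := exists_extend hv' n
        refine ⟨v, ZFSet.mem_sep.2 ⟨hv, fun z hz => h5 (h3 hz), h6, fun i' hi' hin' => ?_⟩⟩
        rw [hji.2 _ _ _ hin' hin]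
        exact ⟨v', hv', h4, h5⟩
      · obtain ⟨v, hv, h5, h6⟩ := exists_extend hu n
        exact ⟨v, ZFSet.mem_sep.2 ⟨hv, h5, h6, fun i' hi' hin' => absurd ⟨i', hi', hin'⟩ h⟩⟩)
  have hc' : ∀ (n : ℕ), ∀ u ∈ Pc, ap c (pair (nat n) u) ∈ Pc ∧ st u ⊆ st (ap c (pair (nat n) u)) ∧
      (∃ a ∈ nat 2, pair (nat n) a ∈ st (ap c (pair (nat n) u))) ∧
      ∀ i ∈ I, pair i (nat n) ∈ j → ∃ v' ∈ Pc, pair i v' ∈ D ∧
        st v' ⊆ st (ap c (pair (nat n) u)) := by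
    intro n u hu
    have h1 := hcF (pair (nat n) u) (ZFSet.pair_mem_prod.2 ⟨nat_mem_omega n, hu⟩)
    rw [ZFSet.mem_sep, fs_pair, sn_pair] at h1
    exact h1
  have h0 := hZ.empty_mem
  set F : ℕ → ZFSet.{0} := fun n => Rc c ∅ (nat n) with hF
  have hF0 : F 0 = ∅ := Rc_zero c ∅
  have hFs : ∀ n, F (n + 1) = ap c (pair (nat n) (F n)) := fun n => Rc_succ c ∅ n
  have hFP : ∀ n, F n ∈ Pc := by
    intro n
    induction n with
    | zero => rw [hF0]; exact empty_mem_Sq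
    | succ n ih => rw [hFs]; exact (hc' n _ ih).1
  have hmono : ∀ n m, n ≤ m → st (F n) ⊆ st (F m) := by
    intro n m h
    induction m, h using Nat.le_induction with
    | base => exact fun _ h => h
    | succ m _ ih =>
      rw [hFs]
      exact fun z hz => (hc' m _ (hFP m)).2.1 (ih hz)
  set x : ZFSet.{0} := ZFSet.sUnion (im (fun z => st (Rc c ∅ z)) ZFSet.omega) with hx
  have hxM : x ∈ M := by
    refine hZ.union _ (hZ.im_mem (h := fun z => st (Rc c ∅ z)) hω ?_)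
    exact DfnF.comp1 (f := st) hst (DfnF.comp1 (f := Rc c ∅) (dfn_Rc hZ hc h0) (DfnF.proj 0))
  have hmx : ∀ p, p ∈ x ↔ ∃ n, p ∈ st (F n) := by
    intro p
    rw [hx, ZFSet.mem_sUnion]
    constructor
    · rintro ⟨y, hy, hp⟩
      obtain ⟨z, hz, rfl⟩ := mem_im.1 hy
      obtain ⟨n, rfl⟩ := mem_omega_iff.1 hz
      exact ⟨n, hp⟩
    · rintro ⟨n, hp⟩
      exact ⟨_, mem_im.2 ⟨nat n, nat_mem_omega n, rfl⟩, hp⟩
  have hxf : ZFSet.IsFunc ZFSet.omega (nat 2) x := by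
    constructor
    · intro p hp
      obtain ⟨n, hp⟩ := (hmx p).1 hp
      obtain ⟨f, m, hf, h3⟩ := exists_seq2 (hFP n)
      rw [h3] at hp
      obtain ⟨k, -, rfl⟩ := mem_st.1 hp
      exact ZFSet.pair_mem_prod.2 ⟨nat_mem_omega k, hf k⟩
    · intro z hz
      obtain ⟨n, rfl⟩ := mem_omega_iff.1 hz
      obtain ⟨a, ha, h3⟩ := (hc' n _ (hFP n)).2.2.1
      rw [← hFs] at h3
      refine ⟨a, (hmx _).2 ⟨n + 1, h3⟩, fun b hb => ?_⟩
      obtain ⟨m, hb⟩ := (hmx _).1 hb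
      have h4 := hmono (n + 1) (max (n + 1) m) (le_max_left _ _) h3
      have h5 := hmono m (max (n + 1) m) (le_max_right _ _) hb
      obtain ⟨f, l, -, h6⟩ := exists_seq2 (hFP (max (n + 1) m))
      rw [h6] at h4 h5
      rw [(pair_mem_st.1 h4).2, (pair_mem_st.1 h5).2]
  refine ⟨x, mem_fnX.2 ⟨hxM, hxf⟩, fun i hi => ?_⟩
  obtain ⟨b, hb, h3⟩ := fun_exists hji.1 hi
  obtain ⟨n, rfl⟩ := mem_omega_iff.1 hb
  obtain ⟨v, hv, h4, h5⟩ := (hc' n _ (hFP n)).2.2.2 i hi h3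
  rw [← hFs] at h5
  exact ⟨v, hv, h4, fun z hz => (hmx z).2 ⟨n + 1, h5 hz⟩⟩

/-- The set of the ground model reals is not meager in the extension by a Cohen real. -/
theorem nonmeager {G : ZFSet.{0}} (hG : IsGeneric M Pc Lc G) {A d : ZFSet.{0}} (hA : A ∈ M)
    (hAω : Inj M A ZFSet.omega) (hd : d ∈ ext M G)
    (h : ∀ a ∈ A, ∀ u ∈ Pc, ∃ v ∈ Pc, st u ⊆ st v ∧ pair a (pair u v) ∈ d) :
    ∃ x ∈ fnX M (nat 2), ∀ a ∈ A, ∃ u ∈ Pc, ∃ v ∈ Pc, pair a (pair u v) ∈ d ∧ st v ⊆ x := by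
  have hZ := hM.toIsZF
  have hB := hZ.base
  have hP := Pc_mem hZ
  have hL := Lc_mem hZ
  have hst := dfn_st hZ
  have hω := hZ.infinity
  have hFo := forcing_Pc hZ
  obtain ⟨R, hR, hR1, hR2⟩ := exists_rel hZ hFo hG hd (hZ.prod_mem hA (hZ.prod_mem hP hP))
  have hstd : ∀ {m : ℕ} (i : Fin m), DfnF M M fun w : Fin m → ZFSet.{0} => st (w i) := fun i =>
    DfnF.comp1 (f := st) hst (DfnF.proj i)
  -- the index set
  obtain ⟨j, hj, hji⟩ : Inj M (ZFSet.prod A Pc) ZFSet.omega := by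
    refine Inj.trans hZ (hZ.prod_mem hA hP) hω (Inj.prod hZ hA hP hω hω hAω (Pc_countable hZ))
      (sq_inj hZ hω isOrdinal_omega fun _ h => h)
  have hI := hZ.prod_mem hA hP
  set D : ZFSet.{0} := ZFSet.sep (fun y => ∃ u ∈ Pc, st u ⊆ st (sn y) ∧
    ((∃ q ∈ Pc, pair q (sn (fs y)) ∈ Lc ∧ pair q (pair (fs (fs y)) (pair u (sn y))) ∈ R) ∨
      ∀ q ∈ Pc, pair q (sn (fs y)) ∈ Lc → ∀ w ∈ Pc, st u ⊆ st w →
        ¬ pair q (pair (fs (fs y)) (pair u w)) ∈ R)) (ZFSet.prod (ZFSet.prod A Pc) Pc) with hD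
  have hDM : D ∈ M := by
    refine hZ.sep_mem (Q := fun y => ∃ u ∈ Pc, st u ⊆ st (sn y) ∧
      ((∃ q ∈ Pc, pair q (sn (fs y)) ∈ Lc ∧ pair q (pair (fs (fs y)) (pair u (sn y))) ∈ R) ∨
      ∀ q ∈ Pc, pair q (sn (fs y)) ∈ Lc → ∀ w ∈ Pc, st u ⊆ st w →
        ¬ pair q (pair (fs (fs y)) (pair u w)) ∈ R)) ?_ (hZ.prod_mem hI hP)
    apply hB.bex (DfnF.const hP)
    apply Dfn.and
    · exact hB.subset' (hstd 0) (DfnF.comp1 (f := st) hst (hZ.sn' (DfnF.proj 1)))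
    · apply Dfn.or
      · apply hB.bex (DfnF.const hP)
        apply Dfn.and
        · exact Dfn.mem (hB.pair' (DfnF.proj 0) (hZ.sn' (hZ.fs' (DfnF.proj 2)))) (DfnF.const hL)
        · exact Dfn.mem (hB.pair' (DfnF.proj 0) (hB.pair' (hZ.fs' (hZ.fs' (DfnF.proj 2)))
            (hB.pair' (DfnF.proj 1) (hZ.sn' (DfnF.proj 2))))) (DfnF.const hR)
      · apply hB.ball (DfnF.const hP)
        apply Dfn.imp (Dfn.mem (hB.pair' (DfnF.proj 0) (hZ.sn' (hZ.fs' (DfnF.proj 2))))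
          (DfnF.const hL))
        apply hB.ball (DfnF.const hP)
        apply Dfn.imp (hB.subset' (hstd 2) (hstd 0))
        exact (Dfn.mem (hB.pair' (DfnF.proj 1) (hB.pair' (hZ.fs' (hZ.fs' (DfnF.proj 3)))
            (hB.pair' (DfnF.proj 2) (DfnF.proj 0)))) (DfnF.const hR)).not
  have hmD : ∀ a p v, pair (pair a p) v ∈ D ↔ ((a ∈ A ∧ p ∈ Pc) ∧ v ∈ Pc) ∧ ∃ u ∈ Pc, st u ⊆ st v ∧
      ((∃ q ∈ Pc, pair q p ∈ Lc ∧ pair q (pair a (pair u v)) ∈ R) ∨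
      ∀ q ∈ Pc, pair q p ∈ Lc → ∀ w ∈ Pc, st u ⊆ st w → ¬ pair q (pair a (pair u w)) ∈ R) := by
    intro a p v
    rw [hD, ZFSet.mem_sep, ZFSet.pair_mem_prod, ZFSet.pair_mem_prod]
    simp only [fs_pair, sn_pair]
  obtain ⟨x, hx, h1⟩ := baire hM hI hj hji hDM (by
    intro i hi u hu
    obtain ⟨a, ha, p, hp, rfl⟩ := ZFSet.mem_prod.1 hi
    by_cases hc : ∃ q ∈ Pc, pair q p ∈ Lc ∧ ∃ w ∈ Pc, st u ⊆ st w ∧
        pair q (pair a (pair u w)) ∈ R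
    · obtain ⟨q, hq, hqp, w, hw, huw, h1⟩ := hc
      exact ⟨w, hw, huw, (hmD _ _ _).2 ⟨⟨⟨ha, hp⟩, hw⟩, u, hu, huw, Or.inl ⟨q, hq, hqp, h1⟩⟩⟩
    · refine ⟨u, hu, fun _ h => h, (hmD _ _ _).2 ⟨⟨⟨ha, hp⟩, hu⟩, u, hu, fun _ h => h,
        Or.inr fun q hq hqp w hw huw h1 => hc ⟨q, hq, hqp, w, hw, huw, h1⟩⟩⟩)
  refine ⟨x, hx, fun a ha => ?_⟩
  have hxM := hZ.trans _ (Xc_mem hZ) _ hx
  have haM := hZ.trans _ hA _ ha
  -- a dense set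
  obtain ⟨q, hq, hqG⟩ := hG.meet (ZFSet.sep (fun q => (∃ u ∈ Pc, ∃ v ∈ Pc, st v ⊆ x ∧
      pair q (pair a (pair u v)) ∈ R) ∨
      ∃ u ∈ Pc, ∀ r ∈ Pc, pair r q ∈ Lc → ∀ w ∈ Pc, st u ⊆ st w →
        ¬ pair r (pair a (pair u w)) ∈ R) Pc) (by
      refine hZ.sep_mem (Q := fun q => (∃ u ∈ Pc, ∃ v ∈ Pc, st v ⊆ x ∧
        pair q (pair a (pair u v)) ∈ R) ∨
        ∃ u ∈ Pc, ∀ r ∈ Pc, pair r q ∈ Lc → ∀ w ∈ Pc, st u ⊆ st w →
        ¬ pair r (pair a (pair u w)) ∈ R) ?_ hP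
      apply Dfn.or
      · apply hB.bex (DfnF.const hP)
        apply hB.bex (DfnF.const hP)
        apply Dfn.and (hB.subset' (hstd 0) (DfnF.const hxM))
        exact Dfn.mem (hB.pair' (DfnF.proj 2) (hB.pair' (DfnF.const haM)
          (hB.pair' (DfnF.proj 1) (DfnF.proj 0)))) (DfnF.const hR)
      · apply hB.bex (DfnF.const hP)
        apply hB.ball (DfnF.const hP)
        apply Dfn.imp (Dfn.mem (hB.pair' (DfnF.proj 0) (DfnF.proj 2)) (DfnF.const hL))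
        apply hB.ball (DfnF.const hP)
        apply Dfn.imp (hB.subset' (hstd 2) (hstd 0))
        exact (Dfn.mem (hB.pair' (DfnF.proj 1) (hB.pair' (DfnF.const haM)
          (hB.pair' (DfnF.proj 2) (DfnF.proj 0)))) (DfnF.const hR)).not)
    (fun z hz => (ZFSet.mem_sep.1 hz).1) (by
      intro p hp
      obtain ⟨v, hv, h2, h3⟩ := h1 (pair a p) (ZFSet.pair_mem_prod.2 ⟨ha, hp⟩)
      obtain ⟨-, u, hu, huv, h4 | h4⟩ := (hmD _ _ _).1 h2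
      · obtain ⟨q, hq, hqp, h5⟩ := h4
        exact ⟨q, ZFSet.mem_sep.2 ⟨hq, Or.inl ⟨u, hu, v, hv, h3, h5⟩⟩, hqp⟩
      · exact ⟨p, ZFSet.mem_sep.2 ⟨hp, Or.inr ⟨u, hu, h4⟩⟩, hFo.refl p hp⟩)
  obtain ⟨hqP, h2 | h2⟩ := ZFSet.mem_sep.1 hq
  · obtain ⟨u, hu, v, hv, h3, h4⟩ := h2
    refine ⟨u, hu, v, hv, (hR1 _ ?_).2 ⟨q, hqG, h4⟩, h3⟩
    exact ZFSet.pair_mem_prod.2 ⟨ha, ZFSet.pair_mem_prod.2 ⟨hu, hv⟩⟩
  · obtain ⟨u, hu, h3⟩ := h2
    obtain ⟨w, hw, huw, h4⟩ := h a ha u hu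
    obtain ⟨p, hp, h5⟩ := (hR1 _ (ZFSet.pair_mem_prod.2
      ⟨ha, ZFSet.pair_mem_prod.2 ⟨hu, hw⟩⟩)).1 h4
    obtain ⟨r, hr, hrp, hrq⟩ := hG.dir p hp q hqG
    exact absurd (hR2 p (hG.sub hp) r (hG.sub hr) hrp _ h5) (h3 r (hG.sub hr) hrq w hw huw)

end

end Pool.Agent.R597
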