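import Pool.Agent.R597.Tree

/-!
# Winning strategies in the strong countable fan tightness game are upwards absolute
-/

set_option autoImplicit false
set_option linter.unreachableTactic false
set_option linter.unusedTactic false

namespace Pool.Agent.R597

open Pool.Agent.W868 Pool.Agent.W868.GM Pool.Agent.Y588
open ZFSet (pair)

theorem inCl_iff {N : Set ZFSet.{0}} (hN : IsZF N) {X τ x A : ZFSet.{0}} (hτ : τ ∈ N)
    (hs : ∀ U ∈ τ, U ⊆ X) : InCl N X τ x A ↔ ∀ U ∈ τ, x ∈ U → ∃ y ∈ A, y ∈ U := by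
  constructor
  · intro h U hU hx
    exact h U ⟨hN.trans _ hτ _ hU, hs U hU, fun y hy => ⟨U, hU, hy, fun _ h => h⟩⟩ hx
  · rintro h O ⟨-, -, h1⟩ hx
    obtain ⟨U, hU, hxU, hUO⟩ := h1 x hx
    obtain ⟨y, hy, hyU⟩ := h U hU hxU
    exact ⟨y, hy, hUO hyU⟩

/-- The set of the legal moves. -/
noncomputable def Mv (N : Set ZFSet.{0}) (X τ x : ZFSet.{0}) : ZFSet.{0} :=
  ZFSet.sep (fun A => ∀ U ∈ τ, x ∈ U → ∃ y ∈ A, y ∈ U) (pwM N X)

theorem mem_Mv {N : Set ZFSet.{0}} (hN : IsZF N) {X τ x A : ZFSet.{0}} (hτ : τ ∈ N)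
    (hs : ∀ U ∈ τ, U ⊆ X) : A ∈ Mv N X τ x ↔ IsMove N X τ x A := by
  rw [Mv, ZFSet.mem_sep, mem_pwM, IsMove, inCl_iff hN hτ hs]
  tauto

theorem Mv_mem {N : Set ZFSet.{0}} (hN : IsZF N) {X τ x : ZFSet.{0}} (hX : X ∈ N) (hτ : τ ∈ N)
    (hx : x ∈ N) : Mv N X τ x ∈ N := by
  have hB := hN.base
  refine hN.sep_mem (Q := fun A => ∀ U ∈ τ, x ∈ U → ∃ y ∈ A, y ∈ U) ?_ (pwM_mem hN hX)
  (repeat' first
      | assumption
      | exact DfnF.proj _
      | exact DfnF.const (by assumption)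
      | exact Dfn.prop _
      | apply Dfn.not | apply Dfn.and | apply Dfn.or | apply Dfn.imp | apply Dfn.iff
      | apply hB.bex | apply hB.ball | apply Dfn.ex | apply Dfn.all
      | apply Dfn.eq | apply Dfn.mem | apply hB.pair')

/-- The sequence of moves in the small model that simulates the moves `f`. -/
noncomputable def Rs (c : ZFSet.{0}) (f : ℕ → ZFSet.{0}) : ℕ → ZFSet.{0}
  | 0 => ∅
  | n + 1 => pair (Rs c f n) (ap c (pair (Rs c f n) (f n)))

/-- The simulating moves. -/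
noncomputable def Bs (c : ZFSet.{0}) (f : ℕ → ZFSet.{0}) (n : ℕ) : ZFSet.{0} :=
  ap c (pair (Rs c f n) (f n))

theorem Rs_eq (c : ZFSet.{0}) (f : ℕ → ZFSet.{0}) (n : ℕ) : Rs c f n = seq (Bs c f) n := by
  induction n with
  | zero => rfl
  | succ n ih => rw [Rs, seq, ← ih]; rfl

theorem Rs_congr {c : ZFSet.{0}} {f g : ℕ → ZFSet.{0}} {n : ℕ} (h : ∀ k < n, f k = g k) :
    Rs c f n = Rs c g n := by
  induction n with
  | zero => rfl
  | succ n ih => rw [Rs, Rs, ih fun k hk => h k (by omega), h n (by omega)]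

/-- The relation between sequences of moves and simulating sequences. -/
noncomputable def Rl (c W : ZFSet.{0}) : ZFSet.{0} :=
  itr (fun z => im (fun p => pair (pair (fs (fs p)) (sn p))
    (pair (sn (fs p)) (ap c (pair (sn (fs p)) (sn p))))) (ZFSet.prod z W)) {pair ∅ ∅} ZFSet.omega

theorem Rl_mem {N : Set ZFSet.{0}} (hN : IsZF N) {c W : ZFSet.{0}} (hc : c ∈ N) (hW : W ∈ N) :
    Rl c W ∈ N := by
  have hB := hN.base
  have h0 := hN.empty_mem
  refine itr_mem_M hN (hN.single_mem (hN.pair_mem h0 h0)) hN.infinity ?_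
  refine hN.im' (h := fun p _ => pair (pair (fs (fs p)) (sn p))
    (pair (sn (fs p)) (ap c (pair (sn (fs p)) (sn p))))) (hN.prod' (DfnF.proj 0) (DfnF.const hW)) ?_
  have h1 : DfnF N N fun w : Fin 2 → ZFSet.{0} => sn (w 0) := hN.sn' (DfnF.proj 0)
  have h2 : DfnF N N fun w : Fin 2 → ZFSet.{0} => fs (fs (w 0)) := hN.fs' (hN.fs' (DfnF.proj 0))
  have h3 : DfnF N N fun w : Fin 2 → ZFSet.{0} => sn (fs (w 0)) := hN.sn' (hN.fs' (DfnF.proj 0))
  exact hB.pair' (hB.pair' h2 h1) (hB.pair' h3 (hN.ap' (DfnF.const hc) (hB.pair' h3 h1)))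

theorem Rl_cases {c W q : ZFSet.{0}} (hq : q ∈ Rl c W) :
    ∃ (f : ℕ → ZFSet.{0}) (n : ℕ), (∀ k < n, f k ∈ W) ∧ q = pair (seq f n) (Rs c f n) := by
  refine itr_ind (Q := fun q => ∃ (f : ℕ → ZFSet.{0}) (n : ℕ), (∀ k < n, f k ∈ W) ∧
    q = pair (seq f n) (Rs c f n)) ?_ ?_ _ q hq
  · intro q hq
    rw [ZFSet.mem_singleton] at hq
    exact ⟨fun _ => ∅, 0, fun k hk => by omega, hq⟩
  · intro z hz q hq
    obtain ⟨p, hp, rfl⟩ := mem_im.1 hq
    obtain ⟨r, hr, A, hA, rfl⟩ := ZFSet.mem_prod.1 hp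
    obtain ⟨f, n, h1, rfl⟩ := hz r hr
    simp only [fs_pair, sn_pair]
    have h2 : ∀ k < n, f k = (fun k => if k < n then f k else A) k := fun k hk => by simp [hk]
    refine ⟨fun k => if k < n then f k else A, n + 1, fun k hk => ?_, ?_⟩
    · by_cases h : k < n
      · simp only [h, if_true]
        exact h1 k h
      · simp only [h, if_false]
        exact hA
    · rw [seq, Rs, ← seq_congr h2, ← Rs_congr h2]
      simp only [lt_irrefl, if_false]

theorem mem_Rl {c W : ZFSet.{0}} {f : ℕ → ZFSet.{0}} {n : ℕ} (h : ∀ k < n, f k ∈ W) :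
    pair (seq f n) (Rs c f n) ∈ Rl c W := by
  have key : ∀ m, (∀ k < m, f k ∈ W) → pair (seq f m) (Rs c f m) ∈
      itr (fun z => im (fun p => pair (pair (fs (fs p)) (sn p))
        (pair (sn (fs p)) (ap c (pair (sn (fs p)) (sn p))))) (ZFSet.prod z W))
        {pair ∅ ∅} (nat m) := by
    intro m
    induction m with
    | zero => exact fun _ => itr_base (by simp [seq, Rs])
    | succ m ih =>
      intro hm
      refine itr_step (u := nat m) (ZFSet.mem_insert _ _) ?_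
      refine mem_im.2 ⟨pair (pair (seq f m) (Rs c f m)) (f m),
        ZFSet.pair_mem_prod.2 ⟨ih fun k hk => hm k (by omega), hm m (by omega)⟩, ?_⟩
      simp only [fs_pair, sn_pair]
      rfl
  exact itr_mono nat_subset_omega (key n h)

theorem mem_Rl_iff {c W t : ZFSet.{0}} {f : ℕ → ZFSet.{0}} {n : ℕ} (h : ∀ k < n, f k ∈ W) :
    pair (seq f n) t ∈ Rl c W ↔ t = Rs c f n := by
  constructor
  · intro ht
    obtain ⟨g, m, h1, h2⟩ := Rl_cases ht
    obtain ⟨h3, rfl⟩ := ZFSet.pair_inj.1 h2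
    obtain ⟨rfl, h4⟩ := seq_inj h3
    exact (Rs_congr h4).symm
  · rintro rfl
    exact mem_Rl h

theorem run_eq_im {g : ZFSet.{0}} : run (fun k => ap g (nat k)) =
    im (fun z => pair z (ap g z)) ZFSet.omega := by
  ext p
  rw [run, ZFSet.mem_range, mem_im]
  constructor
  · rintro ⟨n, rfl⟩
    exact ⟨_, nat_mem_omega n, rfl⟩
  · rintro ⟨z, hz, rfl⟩
    obtain ⟨n, rfl⟩ := mem_omega_iff.1 hz
    exact ⟨n, rfl⟩

/-- Winning strategies for player II in the strong countable fan tightness game are upwards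
absolute between transitive models of ZFC. -/
theorem iiWins_up {M N : Set ZFSet.{0}} (hM : IsZFC M) (hN : IsZFC N) (hMN : M ⊆ N)
    {X τ x : ZFSet.{0}} (hX : X ∈ M) (hτ : τ ∈ M) (hx : x ∈ M) (hs : ∀ U ∈ τ, U ⊆ X)
    (h : IIWins M X τ x) : IIWins N X τ x := by
  obtain ⟨s, hsM, hlegal, hwin⟩ := h
  have hMZ := hM.toIsZF
  have hNZ := hN.toIsZF
  have hMB := hMZ.base
  have hNB := hNZ.base
  set W := Mv M X τ x with hWdef
  set V := Mv N X τ x with hVdef
  have hW : W ∈ M := Mv_mem hMZ hX hτ hx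
  have hV : V ∈ N := Mv_mem hNZ (hMN hX) (hMN hτ) (hMN hx)
  have memW : ∀ A, A ∈ W ↔ IsMove M X τ x A := fun A => mem_Mv hMZ hτ hs
  have memV : ∀ A, A ∈ V ↔ IsMove N X τ x A := fun A => mem_Mv hNZ (hMN hτ) hs
  have hSW : Sq W ∈ M := Sq_mem hMZ hW
  have hSV : Sq V ∈ N := Sq_mem hNZ hV
  have hsN := hMN hsM
  have hWN := hMN hW
  -- the simulation of one move
  have step : ∀ t ∈ Sq W, ∀ A ∈ V, ∃ B ∈ W, ∃ y ∈ A, pair (pair t B) y ∈ s := by
    intro t ht A hA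
    by_contra hc
    push Not at hc
    have htM : t ∈ M := hMZ.trans _ hSW _ ht
    obtain ⟨hAN, hAX, hAcl⟩ := (memV A).1 hA
    rw [inCl_iff hNZ (hMN hτ) hs] at hAcl
    set Y := ZFSet.sep (fun y => ∀ B ∈ W, ¬ pair (pair t B) y ∈ s) X with hY
    have hYM : Y ∈ M := by
      refine hMZ.sep_mem (Q := fun y => ∀ B ∈ W, ¬ pair (pair t B) y ∈ s) ?_ hX
      (repeat' first
      | assumption
      | exact DfnF.proj _
      | exact DfnF.const (by assumption)
      | exact Dfn.prop _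
      | apply Dfn.not | apply Dfn.and | apply Dfn.or | apply Dfn.imp | apply Dfn.iff
      | apply hMB.bex | apply hMB.ball | apply Dfn.ex | apply Dfn.all
      | apply Dfn.eq | apply Dfn.mem | apply hMB.pair')
    have hYW : Y ∈ W := by
      rw [hWdef, Mv, ZFSet.mem_sep, mem_pwM]
      refine ⟨⟨hYM, fun z hz => (ZFSet.mem_sep.1 hz).1⟩, fun U hU hxU => ?_⟩
      obtain ⟨y, hy, hyU⟩ := hAcl U hU hxU
      exact ⟨y, ZFSet.mem_sep.2 ⟨hAX hy, fun B hB => hc B hB y hy⟩, hyU⟩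
    obtain ⟨f, n, h1, rfl⟩ := exists_seq ht
    obtain ⟨y, hy, h2⟩ := hlegal (fun k => if k < n then f k else Y) n (by
      intro k hk
      rw [← memW]
      by_cases h : k < n
      · simp only [h, if_true]
        exact h1 k h
      · simp only [h, if_false]
        exact hYW)
    have h3 := (h2 y).2 rfl
    simp only [lt_irrefl, if_false] at hy
    have h4 : seq (fun k => if k < n then f k else Y) (n + 1) = pair (seq f n) Y := by
      rw [seq, seq_congr (g := f) fun k hk => by simp [hk]]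
      simp
    rw [h4] at h3
    exact (ZFSet.mem_sep.1 hy).2 Y hYW h3
  -- the choice of the simulating moves
  obtain ⟨c, hc, -, hcF⟩ := exists_choice hN (hNZ.prod_mem (hMN hSW) hV)
    (F := fun p => ZFSet.sep (fun B => ∃ y ∈ sn p, pair (pair (fs p) B) y ∈ s) W) (by
      refine hNZ.sep' (Q := fun B w => ∃ y ∈ sn (w 0), pair (pair (fs (w 0)) B) y ∈ s)
        (DfnF.const hWN) ?_
      apply hNB.bex (hNZ.sn' (DfnF.proj 1))
      exact Dfn.mem (hNB.pair' (hNB.pair' (hNZ.fs' (DfnF.proj 2)) (DfnF.proj 1)) (DfnF.proj 0))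
        (DfnF.const hsN)) (by
      intro p hp
      obtain ⟨t, ht, A, hA, rfl⟩ := ZFSet.mem_prod.1 hp
      obtain ⟨B, hB, y, hy, h1⟩ := step t ht A hA
      exact ⟨B, ZFSet.mem_sep.2 ⟨hB, y, by rwa [sn_pair], by rwa [fs_pair]⟩⟩)
  have hc' : ∀ t ∈ Sq W, ∀ A ∈ V, ap c (pair t A) ∈ W ∧
      ∃ y ∈ A, pair (pair t (ap c (pair t A))) y ∈ s := by
    intro t ht A hA
    have h1 := hcF (pair t A) (ZFSet.pair_mem_prod.2 ⟨ht, hA⟩)
    rw [ZFSet.mem_sep, fs_pair, sn_pair] at h1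
    exact h1
  have hB : ∀ (f : ℕ → ZFSet.{0}) (n : ℕ), (∀ k < n, f k ∈ V) → Rs c f n ∈ Sq W ∧
      ∀ k < n, Bs c f k ∈ W := by
    intro f n
    induction n with
    | zero => exact fun _ => ⟨empty_mem_Sq, fun k hk => by omega⟩
    | succ n ih =>
      intro hf
      obtain ⟨h1, h2⟩ := ih fun k hk => hf k (by omega)
      have h3 : Bs c f n ∈ W := (hc' _ h1 _ (hf n (by omega))).1
      refine ⟨pair_mem_Sq h1 h3, fun k hk => ?_⟩
      rcases Nat.lt_succ_iff_lt_or_eq.1 hk with h4 | rfl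
      · exact h2 k h4
      · exact h3
  -- the strategy
  set s' := ZFSet.sep (fun p => ∃ t ∈ Sq W, pair (fs p) t ∈ Rl c V ∧ pair t (sn p) ∈ s)
    (ZFSet.prod (Sq V) X) with hs'
  have hs'N : s' ∈ N := by
    have hSWN := hMN hSW
    have hRN := Rl_mem hNZ hc hV
    refine hNZ.sep_mem (Q := fun p => ∃ t ∈ Sq W, pair (fs p) t ∈ Rl c V ∧ pair t (sn p) ∈ s) ?_
      (hNZ.prod_mem hSV (hMN hX))
    apply hNB.bex (DfnF.const hSWN)
    exact (Dfn.mem (hNB.pair' (hNZ.fs' (DfnF.proj 1)) (DfnF.proj 0)) (DfnF.const hRN)).and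
      (Dfn.mem (hNB.pair' (DfnF.proj 0) (hNZ.sn' (DfnF.proj 1))) (DfnF.const hsN))
  have mems' : ∀ (f : ℕ → ZFSet.{0}) (n : ℕ), (∀ k < n + 1, f k ∈ V) → ∀ y,
      pair (seq f (n + 1)) y ∈ s' ↔ y ∈ X ∧ pair (seq (Bs c f) (n + 1)) y ∈ s := by
    intro f n hf y
    rw [hs', ZFSet.mem_sep, ZFSet.pair_mem_prod, fs_pair, sn_pair]
    constructor
    · rintro ⟨⟨-, hy⟩, t, -, h1, h2⟩
      rw [mem_Rl_iff hf] at h1
      rw [h1, Rs_eq] at h2
      exact ⟨hy, h2⟩
    · rintro ⟨hy, h2⟩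
      refine ⟨⟨seq_mem_Sq hf, hy⟩, Rs c f (n + 1), (hB f (n + 1) hf).1,
        (mem_Rl_iff hf).2 rfl, ?_⟩
      rwa [Rs_eq]
  refine ⟨s', hs'N, ?_, ?_⟩
  · intro f n hf
    have hfV : ∀ k < n + 1, f k ∈ V := fun k hk => (memV _).2 (hf k (by omega))
    obtain ⟨h1, h2⟩ := hB f (n + 1) hfV
    obtain ⟨y0, -, h3⟩ := hlegal (Bs c f) n fun k hk => (memW _).1 (h2 k (by omega))
    obtain ⟨-, y, hy, h4⟩ := hc' _ (hB f n fun k hk => hfV k (by omega)).1 _ (hfV n (by omega))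
    have h5 : pair (seq (Bs c f) (n + 1)) y ∈ s := by
      rw [seq, ← Rs_eq]
      exact h4
    have h6 : y = y0 := (h3 y).1 h5
    refine ⟨y, hy, fun z => ?_⟩
    rw [mems' f n hfV, h3, h6]
    refine ⟨fun h => h.2, fun h => ⟨?_, h⟩⟩
    rw [h, ← h6]
    exact (hf n le_rfl).2.1 hy
  · intro f _ hf A hA
    rw [inCl_iff hNZ (hMN hτ) hs]
    intro U hU hxU
    by_contra hc
    push Not at hc
    have hUM : U ∈ M := hMZ.trans _ hτ _ hU
    have h0 := hMZ.empty_mem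
    have hfV : ∀ k, f k ∈ V := fun k => (memV _).2 (hf k)
    have hBW : ∀ k, Bs c f k ∈ W := fun k => (hB f (k + 1) fun k _ => hfV k).2 k (by omega)
    have hTM : ZFSet.sep (fun t => t = ∅ ∨ ∀ y ∈ U, ¬ pair t y ∈ s) (Sq W) ∈ M := by
      refine hMZ.sep_mem (Q := fun t => t = ∅ ∨ ∀ y ∈ U, ¬ pair t y ∈ s) ?_ hSW
      (repeat' first
      | assumption
      | exact DfnF.proj _
      | exact DfnF.const (by assumption)
      | exact Dfn.prop _
      | apply Dfn.not | apply Dfn.and | apply Dfn.or | apply Dfn.imp | apply Dfn.iff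
      | apply hMB.bex | apply hMB.ball | apply Dfn.ex | apply Dfn.all
      | apply Dfn.eq | apply Dfn.mem | apply hMB.pair')
    obtain ⟨g, hg, hgf, hgT⟩ := branch_abs hM hTM hW hBW (by
      intro n
      refine ZFSet.mem_sep.2 ⟨seq_mem_Sq fun k _ => hBW k, ?_⟩
      cases n with
      | zero => exact Or.inl rfl
      | succ n =>
        refine Or.inr fun y hy h1 => hc y ?_ hy
        rw [hA]
        exact ⟨n, (mems' f n (fun k _ => hfV k) y).2 ⟨hs U hU hy, h1⟩⟩)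
    have hgW : ∀ k : ℕ, ap g (nat k) ∈ W := fun k => (func_pair hgf k).2
    have hgm : ∀ k : ℕ, IsMove M X τ x (ap g (nat k)) := fun k => (memW _).1 (hgW k)
    have hrun : run (fun k => ap g (nat k)) ∈ M := by
      rw [run_eq_im]
      exact hMZ.im_mem hMZ.infinity (hMB.pair' (DfnF.proj 0)
        (hMZ.ap' (DfnF.const hg) (DfnF.proj 0)))
    have h1 := hwin _ hrun hgm (ZFSet.sep (fun z => ∃ n,
      pair (seq (fun k => ap g (nat k)) (n + 1)) z ∈ s) X) (by
        intro z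
        rw [ZFSet.mem_sep]
        refine ⟨fun h => h.2, fun h => ⟨?_, h⟩⟩
        obtain ⟨n, hn⟩ := h
        obtain ⟨y, hy, h2⟩ := hlegal (fun k => ap g (nat k)) n fun k _ => hgm k
        rw [(h2 z).1 hn]
        exact (hgm n).2.1 hy)
    rw [inCl_iff hMZ hτ hs] at h1
    obtain ⟨y, hy, hyU⟩ := h1 U hU hxU
    obtain ⟨-, n, hn⟩ := ZFSet.mem_sep.1 hy
    rcases (ZFSet.mem_sep.1 (hgT (n + 1))).2 with h2 | h2
    · exact pair_ne_empty _ _ h2
    · exact h2 y hyU hn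

end Pool.Agent.R597
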