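import Pool.Agent.R597.Scft

/-!
# The class of all sets and the constructible universe
-/

set_option autoImplicit false

namespace Pool.Agent.R597

open Pool.Agent.W868 Pool.Agent.W868.GM Pool.Agent.Y588
open ZFSet (pair)

/-- The class of all sets is a model of ZFC. -/
theorem isZFC_univ : IsZFC (Set.univ : Set ZFSet.{0}) := by
  classical
  refine ⟨⟨fun _ _ _ _ => trivial, fun _ _ _ _ => trivial, fun _ _ => trivial, trivial,
    fun x _ => ⟨ZFSet.powerset x, trivial, fun z => ?_⟩, fun φ _ x _ =>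
      ⟨ZFSet.sep (fun z => Sat Set.univ id φ ![z]) x, trivial, fun z => ZFSet.mem_sep⟩,
    fun φ _ x _ h => ?_⟩, fun x _ hne hdis => ?_⟩
  · rw [ZFSet.mem_powerset]
    exact ⟨fun h => ⟨trivial, h⟩, fun h => h.2⟩
  · refine ⟨ZFSet.range fun z : x => (h z.1 z.2).choose, trivial, fun w => ?_⟩
    rw [ZFSet.mem_range]
    constructor
    · rintro ⟨z, rfl⟩
      exact ⟨trivial, z.1, z.2, (h z.1 z.2).choose_spec.1.2⟩
    · rintro ⟨-, z, hz, hw⟩
      exact ⟨⟨z, hz⟩, ((h z hz).choose_spec.2 w ⟨trivial, hw⟩).symm⟩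
  · refine ⟨ZFSet.range fun y : x => (hne y.1 y.2).choose, trivial, fun y hy => ?_⟩
    refine ⟨(hne y hy).choose, ⟨(hne y hy).choose_spec, ZFSet.mem_range.2 ⟨⟨y, hy⟩, rfl⟩⟩, ?_⟩
    rintro z ⟨hz, hz'⟩
    obtain ⟨⟨y', hy'⟩, rfl⟩ := ZFSet.mem_range.1 hz'
    have h1 := hdis y' hy' y hy _ (hne y' hy').choose_spec hz
    subst h1
    rfl

/-- The class of the sets that are elements of all transitive models of ZF that contain all
ordinals. This is the constructible universe, the least such model. -/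
def Lcls : Set ZFSet.{0} :=
  {x | ∀ M : Set ZFSet.{0}, IsZF M → (∀ α : ZFSet.{0}, α.IsOrdinal → α ∈ M) → x ∈ M}

theorem Lcls_eq : Lcls = LC Set.univ ∅ := by
  have hU := isZFC_univ.toIsZF
  ext x
  constructor
  · intro h
    exact h _ (isZF_LC hU trivial) fun α hα => ord_LC hU trivial trivial hα
  · rintro ⟨ξ, -, h1, h2⟩ M hM hord
    exact hM.trans _ (Lv_mem_M hM hM.empty_mem (hord ξ h1)) _ h2

/-- The constructible universe is a transitive model of ZFC that contains all ordinals. -/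
theorem isZFC_L : IsZFC Lcls ∧ ∀ α : ZFSet.{0}, α.IsOrdinal → α ∈ Lcls := by
  have hU := isZFC_univ.toIsZF
  have hL : IsLA ∅ (LC (Set.univ : Set ZFSet.{0}) ∅) :=
    isLA_LC hU trivial (δ := ∅) trivial ZFSet.isOrdinal_empty (fun z hz =>
      absurd hz (ZFSet.notMem_empty _))
  rw [Lcls_eq]
  exact ⟨isZFC_of_gc hL.zf hL.gc, fun α hα => ord_LC hU trivial trivial hα⟩

end Pool.Agent.R597
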