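import Pool.Agent.R597.Cho
import Pool.Agent.Y588.Hst
import Pool.Agent.W868.Hart

/-!
# The well-ordering theorem in a transitive model of ZFC, and generic extensions
-/

set_option autoImplicit false
set_option linter.unreachableTactic false
set_option linter.unusedTactic false
set_option linter.unusedSectionVars false

namespace Pool.Agent.R597

open Pool.Agent.W868 Pool.Agent.W868.GM Pool.Agent.Y588
open ZFSet (pair)

/-- The enumeration of `D` that is given by the choice function `c`. -/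
noncomputable def En (D c : ZFSet.{0}) : ZFSet.{0} → ZFSet.{0} :=
  wfF (fun z => z) ZFSet.mem_wf fun _ g =>
    open Classical in
    if ZFSet.sep (fun y => y ∉ im sn g) D = ∅ then D
      else ap c (ZFSet.sep (fun y => y ∉ im sn g) D)

theorem im_sn_gr (F : ZFSet.{0} → ZFSet.{0}) (z : ZFSet.{0}) : im sn (gr F z) = im F z := by
  ext y
  rw [mem_im, mem_im]
  constructor
  · rintro ⟨p, hp, rfl⟩
    obtain ⟨u, hu, rfl⟩ := mem_gr.1 hp
    exact ⟨u, hu, by rw [sn_pair]⟩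
  · rintro ⟨u, hu, rfl⟩
    exact ⟨_, mem_gr.2 ⟨u, hu, rfl⟩, by rw [sn_pair]⟩

theorem En_eq' (D c z : ZFSet.{0}) : En D c z =
    open Classical in
    if ZFSet.sep (fun y => y ∉ im sn (gr (En D c) z)) D = ∅ then D
      else ap c (ZFSet.sep (fun y => y ∉ im sn (gr (En D c) z)) D) := wfF_eq _ _ _ _

theorem En_eq (D c z : ZFSet.{0}) : En D c z =
    open Classical in
    if ZFSet.sep (fun y => y ∉ im (En D c) z) D = ∅ then D
      else ap c (ZFSet.sep (fun y => y ∉ im (En D c) z) D) := by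
  rw [En_eq', im_sn_gr]

theorem dfn_En {M : Set ZFSet.{0}} (hM : IsZF M) {D c : ZFSet.{0}} (hD : D ∈ M) (hc : c ∈ M) :
    DfnF M M fun w : Fin 1 → ZFSet.{0} => En D c (w 0) := by
  have hB := hM.base
  have h0 := hM.empty_mem
  refine hM.memrec (G := fun _ g => open Classical in
    if ZFSet.sep (fun y => y ∉ im sn g) D = ∅ then D
      else ap c (ZFSet.sep (fun y => y ∉ im sn g) D)) ?_ (En_eq' D c)
  have h1 : DfnF M M fun w : Fin 2 → ZFSet.{0} =>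
      ZFSet.sep (fun y => y ∉ im sn (w 1)) D := by
    refine hM.sep' (Q := fun y w => y ∉ im sn (w 1)) (DfnF.const hD) ?_
    refine (Dfn.mem (DfnF.proj 0) (hM.im' (h := fun p _ => sn p) (DfnF.proj 2) ?_)).not
    exact hM.sn' (DfnF.proj 0)
  exact DfnF.ite (Dfn.eq h1 (DfnF.const h0)) (DfnF.const hD) (hM.ap' (DfnF.const hc) h1)

/-- The well-ordering theorem in a transitive model of ZFC. -/
theorem exists_wo {M : Set ZFSet.{0}} (hM : IsZFC M) {D : ZFSet.{0}} (hD : D ∈ M) :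
    ∃ α ∈ M, α.IsOrdinal ∧ Inj M D α := by
  have hZ := hM.toIsZF
  have hB := hZ.base
  have h0 := hZ.empty_mem
  have hP : pwM M D ∈ M := pwM_mem hZ hD
  obtain ⟨c, hc, -, hc2⟩ := exists_choice hM (x := ZFSet.sep (fun y => ¬ y = ∅) (pwM M D))
    (hZ.sep_mem (Q := fun y => ¬ y = ∅) (Dfn.eq (DfnF.proj 0) (DfnF.const h0)).not hP)
    (F := fun y => y) (DfnF.proj 0) (by
      intro y hy
      obtain ⟨-, h1⟩ := ZFSet.mem_sep.1 hy
      by_contra h2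
      push Not at h2
      exact h1 (ZFSet.eq_empty y |>.2 h2))
  have hEn := dfn_En hZ hD hc
  obtain ⟨S, hS, hSo, hSi⟩ := hartogs hZ hD
  have hdiff : ∀ z ∈ M, ZFSet.sep (fun y => y ∉ im (En D c) z) D ∈ M := by
    intro z hz
    have h1 : im (En D c) z ∈ M := hZ.im_mem hz hEn
    exact hZ.sep_mem (Q := fun y => y ∉ im (En D c) z)
      (Dfn.mem (DfnF.proj 0) (DfnF.const h1)).not hD
  have hval : ∀ z ∈ M, (ZFSet.sep (fun y => y ∉ im (En D c) z) D ≠ ∅) →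
      En D c z ∈ D ∧ En D c z ∉ im (En D c) z := by
    intro z hz hne
    rw [En_eq, if_neg hne, ← ZFSet.mem_sep (p := fun y => y ∉ im (En D c) z)]
    refine hc2 _ (ZFSet.mem_sep.2 ⟨mem_pwM.2 ⟨hdiff z hz, fun y hy => (ZFSet.mem_sep.1 hy).1⟩, hne⟩)
  have hex : ∃ α ∈ S, ZFSet.sep (fun y => y ∉ im (En D c) α) D = ∅ := by
    by_contra hcon
    push Not at hcon
    apply hSi
    refine Inj.of_fun hZ hS hD (h := En D c) hEn ?_ ?_
    · intro a ha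
      exact (hval a (hZ.trans _ hS _ ha) (hcon a ha)).1
    · intro a ha a' ha' h
      rcases (hSo.mem ha).mem_trichotomous (hSo.mem ha') with h1 | h1 | h1
      · exact absurd (mem_im.2 ⟨a, h1, h.symm⟩) (hval a' (hZ.trans _ hS _ ha') (hcon a' ha')).2
      · exact h1
      · exact absurd (mem_im.2 ⟨a', h1, h⟩) (hval a (hZ.trans _ hS _ ha) (hcon a ha)).2
  obtain ⟨α, hα, h1⟩ := hex
  have hαM := hZ.trans _ hS _ hα
  have hαo := hSo.mem hα
  have hd : DfnF M M fun w : Fin 1 → ZFSet.{0} => lo M fun ξ => En D c ξ = w 0 := by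
    refine hZ.lo' (Q := fun ξ w => En D c ξ = w 0) ?_
    exact Dfn.eq (DfnF.comp1 (f := En D c) hEn (DfnF.proj 0)) (DfnF.proj 1)
  have hsurj : ∀ y ∈ D, ∃ ξ ∈ α, En D c ξ = y := by
    intro y hy
    by_contra hcon
    have h2 : y ∈ ZFSet.sep (fun y => y ∉ im (En D c) α) D := by
      refine ZFSet.mem_sep.2 ⟨hy, fun h => hcon ?_⟩
      obtain ⟨ξ, hξ, h3⟩ := mem_im.1 h
      exact ⟨ξ, hξ, h3.symm⟩
    rw [h1] at h2
    exact ZFSet.notMem_empty _ h2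
  refine ⟨α, hαM, hαo, Inj.of_fun hZ hD hαM (h := fun y => lo M fun ξ => En D c ξ = y) hd ?_ ?_⟩
  · intro y hy
    obtain ⟨ξ, hξ, h2⟩ := hsurj y hy
    have hξM := hZ.trans _ hαM _ hξ
    have hξo := hαo.mem hξ
    have h3 : lo M (fun ξ => En D c ξ = y) ⊆ ξ := lo_subset hξM hξo h2
    exact (lo_isOrdinal).mem_of_subset_of_mem hαo h3 hξ
  · intro y hy y' hy' h
    obtain ⟨ξ, hξ, h2⟩ := hsurj y hy
    obtain ⟨ξ', hξ', h2'⟩ := hsurj y' hy'
    have h3 := (lo_spec (M := M) (P := fun ξ => En D c ξ = y)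
      ⟨ξ, hZ.trans _ hαM _ hξ, hαo.mem hξ, h2⟩).2.2
    have h4 := (lo_spec (M := M) (P := fun ξ => En D c ξ = y')
      ⟨ξ', hZ.trans _ hαM _ hξ', hαo.mem hξ', h2'⟩).2.2
    rw [← h3, ← h4, h]

/-! ### Witnesses of least rank -/

/-- The set of the elements of least rank of `M` with the property `Q`. -/
noncomputable def wt (M : Set ZFSet.{0}) (Q : ZFSet.{0} → Prop) : ZFSet.{0} :=
  ZFSet.sep Q (Vh M (sc (lo M fun ξ => ∃ w ∈ M, rk w = ξ ∧ Q w)))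

theorem Vh_sub {M : Set ZFSet.{0}} {x z : ZFSet.{0}} (h : x ∈ Vh M z) : x ∈ M := by
  obtain ⟨-, -, h1, -⟩ := mem_Vh.1 h
  exact h1

theorem wt_spec {M : Set ZFSet.{0}} {Q : ZFSet.{0} → Prop} {w : ZFSet.{0}} (h : w ∈ wt M Q) :
    w ∈ M ∧ Q w := ⟨Vh_sub (ZFSet.mem_sep.1 h).1, (ZFSet.mem_sep.1 h).2⟩

theorem wt_ne {M : Set ZFSet.{0}} (hM : IsZF M) {Q : ZFSet.{0} → Prop} (h : ∃ w ∈ M, Q w) :
    ∃ w, w ∈ wt M Q := by
  obtain ⟨w, hw, hQ⟩ := h
  obtain ⟨-, -, w', hw', h1, h2⟩ := lo_spec (M := M) (P := fun ξ => ∃ w ∈ M, rk w = ξ ∧ Q w)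
    ⟨rk w, rk_mem hM hw, isOrdinal_rk w, w, hw, rfl, hQ⟩
  refine ⟨w', ZFSet.mem_sep.2 ⟨mem_Vh_of_rk hM _ hw' ?_, h2⟩⟩
  rw [h1]
  exact ZFSet.mem_insert _ _

theorem wt' {M : Set ZFSet.{0}} (hM : IsZF M) {n : ℕ}
    {Q : ZFSet.{0} → (Fin n → ZFSet.{0}) → Prop}
    (hQ : Dfn M M fun w : Fin (n + 1) → ZFSet.{0} => Q (w 0) (Fin.tail w)) :
    DfnF M M fun v => wt M fun w => Q w v := by
  have hB := hM.base
  refine hM.sep' (Q := Q) ?_ hQ
  refine DfnF.comp1 (f := Vh M) (dfn_Vh hM) ?_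
  have h1 : DfnF M M fun v : Fin n → ZFSet.{0} => lo M fun ξ => ∃ w ∈ M, rk w = ξ ∧ Q w v := by
    refine hM.lo' (Q := fun ξ v => ∃ w ∈ M, rk w = ξ ∧ Q w v) ?_
    apply Dfn.ex
    apply Dfn.and
    · exact Dfn.eq (DfnF.comp1 (f := rk) (dfn_rk hM) (DfnF.proj 0)) (DfnF.proj 1)
    · exact hQ.comp (Fin.cons 0 fun i => i.succ.succ)
  exact hB.insert' h1 h1

/-! ### The generic extension of a transitive model of ZF or ZFC -/

section

variable {M : Set ZFSet.{0}} (hM : IsZF M) {P Le : ZFSet.{0}} (hP : IsForcing M P Le)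
  {G : ZFSet.{0}} (hG : IsGeneric M P Le G)

include hM hP hG

/-- Replacement in the extension. -/
theorem ext_replacement' (φ : Fml ZFSet.{0} 2)
    (hφ : φ.Over (ext M G)) (x : ZFSet.{0}) (hx : x ∈ ext M G)
    (h : ∀ z ∈ x, ∃! w, w ∈ ext M G ∧ Sat (ext M G) id φ ![z, w]) :
    ∃ y ∈ ext M G, ∀ w, w ∈ y ↔ w ∈ ext M G ∧ ∃ z ∈ x, Sat (ext M G) id φ ![z, w] := by
  obtain ⟨nm, hnm⟩ := exists_nm M G
  have hx' := hx
  obtain ⟨X, hX, rfl⟩ := hx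
  have hB := hM.base
  have hPM := hP.mem
  have hLM := hP.le_mem
  obtain ⟨-, hO⟩ := sat_nm hnm φ hφ ![∅, ∅]
  -- the choice of the witnesses
  have hd : DfnF M M fun u : Fin 1 → ZFSet.{0} =>
      wt M fun w => Frc P Le M (φ.map nm) ![fs (u 0), w] (sn (u 0)) := by
    refine wt' hM (Q := fun w u => Frc P Le M (φ.map nm) ![fs (u 0), w] (sn (u 0))) ?_
    refine (dfn_frc hM hPM hLM (φ.map nm) hO (m := 2)
      (Fin.cons (fun w => fs (w 1)) fun _ w => w 0) (by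
        intro i
        refine Fin.cases ?_ (fun i => ?_) i
        · exact hM.fs' (DfnF.proj 1)
        · exact DfnF.proj 0) (H := fun w => sn (w 1)) (hM.sn' (DfnF.proj 1))).congr
        fun w _ => ?_
    have h3 : (fun i => (Fin.cons (fun w => fs (w 1)) (fun _ w => w 0) :
        Fin 2 → (Fin 2 → ZFSet.{0}) → ZFSet.{0}) i w) = ![fs (w 1), w 0] := by
      funext i
      fin_cases i <;> rfl
    rw [h3]
    rfl
  have hY := hM.union _
    (hM.im_mem (h := fun u => wt M fun w => Frc P Le M (φ.map nm) ![fs u, w] (sn u))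
    (hM.prod_mem (dm_mem hM hX) hPM) hd)
  obtain ⟨Y, hY', h2⟩ := cover_mem hM hP hG hY
  obtain ⟨y, hy, h3⟩ := ext_sep hM hP hG
    (.ex (.and (.mem (Sum.inl 0) (Sum.inr (ev G X)))
      (φ.subst ![Sum.inl 0, Sum.inl 1])))
    ⟨⟨TOver.inl _, tOver_inr.2 hx'⟩, over_subst _ _ (fun k => by
      fin_cases k <;> exact TOver.inl _) hφ⟩ Y hY'
  have h4 : ∀ w, Sat (ext M G) id (.ex (.and (.mem (Sum.inl 0) (Sum.inr (ev G X)))
      (φ.subst ![Sum.inl 0, Sum.inl 1]))) ![w] ↔ ∃ z ∈ ev G X, Sat (ext M G) id φ ![z, w] := by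
    intro w
    simp only [Sat, sat_subst]
    have h5 : ∀ a, (fun k => Sum.elim (Fin.cons a ![w] : Fin 2 → ZFSet.{0}) id
        ((![Sum.inl 0, Sum.inl 1] : Fin 2 → Fin 2 ⊕ ZFSet.{0}) k)) = ![a, w] := by
      intro a
      funext k
      fin_cases k <;> rfl
    constructor
    · rintro ⟨a, -, h6, h7⟩
      rw [h5] at h7
      exact ⟨a, h6, h7⟩
    · rintro ⟨a, h6, h7⟩
      refine ⟨a, ext_trans hM _ hx' _ h6, h6, ?_⟩
      rw [h5]
      exact h7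
  refine ⟨y, hy, fun w => ?_⟩
  rw [h3, h4]
  constructor
  · rintro ⟨h5, h6⟩
    exact ⟨ext_trans hM _ hY' _ h5, h6⟩
  · rintro ⟨hw, z, hz, h6⟩
    refine ⟨?_, z, hz, h6⟩
    have hzz := hz
    obtain ⟨a, p, h7, h8, rfl⟩ := mem_ev.1 hz
    obtain ⟨τ, hτ, rfl⟩ := hw
    have haM : a ∈ M := hM.trans _ (dm_mem hM hX) _ (mem_dm h7)
    have h9 := (sat_nm hnm φ hφ ![ev G a, ev G τ]).1.1 h6
    have h10 : (![ev G a, ev G τ] : Fin 2 → ZFSet.{0}) = ev G ∘ ![a, τ] := by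
      funext k
      fin_cases k <;> rfl
    rw [h10, truth hM hP hG (φ.map nm) hO ![a, τ] (by
      intro i
      fin_cases i
      · exact haM
      · exact hτ)] at h9
    obtain ⟨q, hq, h11⟩ := h9
    obtain ⟨ρ, hρ⟩ := wt_ne hM (Q := fun w => Frc P Le M (φ.map nm) ![a, w] q) ⟨τ, hτ, h11⟩
    obtain ⟨h12, h13⟩ := wt_spec hρ
    have h14 := (truth hM hP hG (φ.map nm) hO ![a, ρ] (by
      intro i
      fin_cases i
      · exact haM
      · exact h12)).2 ⟨q, hq, h13⟩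
    have h15 : (ev G ∘ ![a, ρ] : Fin 2 → ZFSet.{0}) = ![ev G a, ev G ρ] := by
      funext k
      fin_cases k <;> rfl
    rw [h15, ← (sat_nm hnm φ hφ _).1] at h14
    have h16 := (h _ hzz).unique ⟨⟨_, h12, rfl⟩, h14⟩ ⟨⟨_, hτ, rfl⟩, h6⟩
    rw [h2, ← h16]
    refine ⟨_, ZFSet.mem_sUnion.2 ⟨_, mem_im.2 ⟨pair a q,
      ZFSet.pair_mem_prod.2 ⟨mem_dm h7, hG.sub hq⟩, rfl⟩, ?_⟩, rfl⟩
    rw [fs_pair, sn_pair]
    exact hρ

/-- The generic extension is a model of ZF. -/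
theorem isZF_ext' : IsZF (ext M G) where
  trans := ext_trans hM
  pairing := ext_pairing hM hP hG
  union := ext_union hM hP hG
  infinity := sub_ext hM hP hG hM.infinity
  power := ext_power hM hP hG
  separation := ext_sep hM hP hG
  replacement := ext_replacement' hM hP hG

end

/-- The generic extension of a transitive model of ZFC is a model of ZFC. -/
theorem isZFC_ext {M : Set ZFSet.{0}} (hM : IsZFC M) {P Le : ZFSet.{0}}
    (hP : IsForcing M P Le) {G : ZFSet.{0}} (hG : IsGeneric M P Le G) : IsZFC (ext M G) := by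
  have hZ := hM.toIsZF
  have hW := isZF_ext' hZ hP hG
  have hB := hW.base
  have hsub := sub_ext hZ hP hG
  have hGe := gen_mem_ext hZ hP hG
  refine ⟨hW, fun x hx hne hdis => ?_⟩
  obtain ⟨X, hX, rfl⟩ := id hx
  -- the names of the elements of the elements
  have hD : ZFSet.sUnion (im dm (dm X)) ∈ M :=
    hZ.union _ (hZ.im_mem (dm_mem hZ hX) (dm' hZ (DfnF.proj 0)))
  set D := ZFSet.sUnion (im dm (dm X)) with hDdef
  obtain ⟨α, hα, hαo, f, hf, hfi⟩ := exists_wo hM hD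
  have hcov : ∀ y ∈ ev G X, ∀ z ∈ y, ∃ b ∈ D, ev G b = z := by
    intro y hy z hz
    obtain ⟨a, p, h1, -, rfl⟩ := mem_ev.1 hy
    obtain ⟨b, q, h2, -, rfl⟩ := mem_ev.1 hz
    exact ⟨b, ZFSet.mem_sUnion.2 ⟨_, mem_im.2 ⟨a, mem_dm h1, rfl⟩, mem_dm h2⟩, rfl⟩
  set W := ext M G with hWdef
  have hfW := hsub hf
  have hDW := hsub hD
  have hevd : DfnF W W fun w : Fin 1 → ZFSet.{0} => ev G (w 0) := dfn_ev hW hGe
  -- the least index of a name
  have hmu : DfnF W W fun w : Fin 1 → ZFSet.{0} =>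
      lo W fun ξ => ∃ b ∈ D, ev G b = w 0 ∧ pair b ξ ∈ f := by
    refine hW.lo' (Q := fun ξ w => ∃ b ∈ D, ev G b = w 0 ∧ pair b ξ ∈ f) ?_
    apply hB.bex (DfnF.const hDW)
    exact (Dfn.eq (DfnF.comp1 (f := ev G) hevd (DfnF.proj 0)) (DfnF.proj 2)).and
      (Dfn.mem (hB.pair' (DfnF.proj 0) (DfnF.proj 1)) (DfnF.const hfW))
  set μ : ZFSet.{0} → ZFSet.{0} := fun z => lo W fun ξ => ∃ b ∈ D, ev G b = z ∧ pair b ξ ∈ f
    with hμ
  have hμs : ∀ y ∈ ev G X, ∀ z ∈ y, μ z ∈ W ∧ (μ z).IsOrdinal ∧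
      ∃ b ∈ D, ev G b = z ∧ pair b (μ z) ∈ f := by
    intro y hy z hz
    obtain ⟨b, hb, h1⟩ := hcov y hy z hz
    obtain ⟨ξ, hξ, h2⟩ := fun_exists hfi.1 hb
    exact lo_spec (M := W) (P := fun ξ => ∃ b ∈ D, ev G b = z ∧ pair b ξ ∈ f)
      ⟨ξ, hsub (hZ.trans _ hα _ hξ), hαo.mem hξ, b, hb, h1, h2⟩
  have hcW : ZFSet.sep (fun z => ∃ y ∈ ev G X, z ∈ y ∧ ∀ z' ∈ y, ¬ μ z' ∈ μ z)
      (ZFSet.sUnion (ev G X)) ∈ W := by
    refine hW.sep_mem (Q := fun z => ∃ y ∈ ev G X, z ∈ y ∧ ∀ z' ∈ y, ¬ μ z' ∈ μ z) ?_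
      (hW.union _ hx)
    apply hB.bex (DfnF.const hx)
    apply Dfn.and (Dfn.mem (DfnF.proj 1) (DfnF.proj 0))
    apply hB.ball (DfnF.proj 0)
    exact (Dfn.mem (DfnF.comp1 (f := μ) hmu (DfnF.proj 0))
      (DfnF.comp1 (f := μ) hmu (DfnF.proj 2))).not
  refine ⟨_, hcW, fun y hy => ?_⟩
  -- the element of least index
  obtain ⟨z0, hz0⟩ := hne y hy
  obtain ⟨h1, h2, h3⟩ := lo_spec (M := W) (P := fun ξ => ∃ z ∈ y, μ z = ξ)
    ⟨μ z0, (hμs y hy z0 hz0).1, (hμs y hy z0 hz0).2.1, z0, hz0, rfl⟩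
  obtain ⟨z, hz, h4⟩ := h3
  have hmin : ∀ z' ∈ y, ¬ μ z' ∈ μ z := by
    intro z' hz' h5
    rw [h4] at h5
    exact lo_min (hμs y hy z' hz').1 (hμs y hy z' hz').2.1 ⟨z', hz', rfl⟩ h5
  refine ⟨z, ⟨hz, ZFSet.mem_sep.2 ⟨ZFSet.mem_sUnion.2 ⟨y, hy, hz⟩, y, hy, hz, hmin⟩⟩, ?_⟩
  rintro z' ⟨hz', h5⟩
  obtain ⟨-, y', hy', h6, h7⟩ := ZFSet.mem_sep.1 h5
  have h8 : y' = y := hdis y' hy' y hy z' h6 hz'
  subst h8
  obtain ⟨-, o1, b, hb, e1, f1⟩ := hμs _ hy z hz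
  obtain ⟨-, o2, b', hb', e2, f2⟩ := hμs _ hy z' hz'
  have h9 : μ z' = μ z := by
    rcases o2.mem_trichotomous o1 with h | h | h
    · exact absurd h (hmin z' hz')
    · exact h
    · exact absurd h (h7 z hz)
  rw [h9] at f2
  rw [← e1, ← e2, hfi.2 _ _ _ f1 f2]

end Pool.Agent.R597
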